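import Mathlib

/-!
# MP_1d263a_an, project PI (no p-PI metric in the gauge of the Sierpinski carpet): definitions

Everything is on the lattice `ℤ × ℤ`. A lattice point is a vertex, and also (as lower left corner)
a unit square, called a face. At level `N` the carpet `S` is scaled by `3 ^ N`; its level-`N` squares
are the faces in `Kept N`, and the network has as edges the sides of the faces in `Kept N`.
-/

open Finset
open scoped Classical

noncomputable section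

namespace CarpetPI

/-! ### the lattice -/

/-- vertices and faces (the face `f` is the square `[f.1, f.1 + 1] × [f.2, f.2 + 1]`) -/
abbrev Pt : Type := ℤ × ℤ

/-- edges: `(false, x)` goes from `x` to `x + (1, 0)`, `(true, x)` from `x` to `x + (0, 1)` -/
abbrev Ed : Type := Bool × Pt

/-- the tail of an edge -/
def tl (e : Ed) : Pt := e.2

/-- the head of an edge -/
def hd (e : Ed) : Pt := if e.1 then (e.2.1, e.2.2 + 1) else (e.2.1 + 1, e.2.2)

/-- the face on the left of an edge -/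
def lf (e : Ed) : Pt := if e.1 then (e.2.1 - 1, e.2.2) else e.2

/-- the face on the right of an edge -/
def rf (e : Ed) : Pt := if e.1 then e.2 else (e.2.1, e.2.2 - 1)

/-- difference of a function on the vertices along an edge -/
def du (u : Pt → ℝ) (e : Ed) : ℝ := u (hd e) - u (tl e)

/-- difference of a function on the faces across an edge -/
def dv (v : Pt → ℝ) (e : Ed) : ℝ := v (lf e) - v (rf e)

/-- `|t|^(p-2) t` -/
def phi (p t : ℝ) : ℝ := Real.sign t * |t| ^ (p - 1)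

/-- the sup distance -/
def dis (x y : Pt) : ℤ := max |x.1 - y.1| |x.2 - y.2|

/-- the edge is a side of a face in `K` -/
def pres (K : Set Pt) (e : Ed) : Prop := lf e ∈ K ∨ rf e ∈ K

/-- `x` is a corner of the face `f` -/
def IsCor (x f : Pt) : Prop := (x.1 = f.1 ∨ x.1 = f.1 + 1) ∧ (x.2 = f.2 ∨ x.2 = f.2 + 1)

/-- the vertices of the network of `K` -/
def VK (K : Set Pt) : Set Pt := {x | ∃ f ∈ K, IsCor x f}

/-- the four sides of a face: bottom, top, left, right -/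
def sides (f : Pt) : Finset Ed := {(false, f), (false, (f.1, f.2 + 1)), (true, f), (true, (f.1 + 1, f.2))}

/-- energy of `u` on the sides of the face `f` -/
def fe (p : ℝ) (u : Pt → ℝ) (f : Pt) : ℝ := ∑ e ∈ sides f, |du u e| ^ p

/-- energy of `u` on the sides of the faces in `G ∩ K` (an edge is counted once for each of these
faces) -/
def En (p : ℝ) (K : Set Pt) (u : Pt → ℝ) (G : Finset Pt) : ℝ := ∑ f ∈ G.filter (· ∈ K), fe p u f

/-- `x` and `y` are joined by an edge of the network -/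
def adj (K : Set Pt) (x y : Pt) : Prop :=
  ∃ e : Ed, pres K e ∧ ((tl e = x ∧ hd e = y) ∨ (tl e = y ∧ hd e = x))

/-- a connected set of vertices of the network -/
def Conn (K : Set Pt) (A : Set Pt) : Prop :=
  A ⊆ VK K ∧ ∀ x ∈ A, ∀ y ∈ A, Relation.ReflTransGen (fun a b => adj K a b ∧ a ∈ A ∧ b ∈ A) x y

/-! ### the pattern of the carpet -/

/-- no common ternary digit `1` at the places `k < T` -/
def Pat (T : ℕ) (f : Pt) : Prop := ∀ k : ℕ, k < T → ¬ (f.1 / 3 ^ k % 3 = 1 ∧ f.2 / 3 ^ k % 3 = 1)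

/-- the faces of the carpet at level `N` -/
def Kept (N : ℕ) : Set Pt := {f | 0 ≤ f.1 ∧ f.1 < 3 ^ N ∧ 0 ≤ f.2 ∧ f.2 < 3 ^ N ∧ Pat N f}

/-- the faces `f` with `x₀ ≤ f.1 < x₁`, `y₀ ≤ f.2 < y₁` -/
def box (x₀ x₁ y₀ y₁ : ℤ) : Finset Pt := Finset.Ico x₀ x₁ ×ˢ Finset.Ico y₀ y₁

/-- the faces of the cell `q` of size `3 ^ t` (the square `[q.1 3^t, (q.1+1) 3^t] × …`) -/
def cell (t : ℕ) (q : Pt) : Finset Pt :=
  box (q.1 * 3 ^ t) ((q.1 + 1) * 3 ^ t) (q.2 * 3 ^ t) ((q.2 + 1) * 3 ^ t)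

/-- the lattice points in the closed cell `q` of size `3 ^ t` -/
def cellV (t : ℕ) (q : Pt) : Set Pt :=
  {x | q.1 * 3 ^ t ≤ x.1 ∧ x.1 ≤ (q.1 + 1) * 3 ^ t ∧ q.2 * 3 ^ t ≤ x.2 ∧ x.2 ≤ (q.2 + 1) * 3 ^ t}

/-- the faces within distance `m 3^t` of the cell `q` of size `3^t` -/
def nb (m t : ℕ) (q : Pt) : Finset Pt :=
  box ((q.1 - m) * 3 ^ t) ((q.1 + m + 1) * 3 ^ t) ((q.2 - m) * 3 ^ t) ((q.2 + m + 1) * 3 ^ t)

/-- the lattice points within distance `m 3^t` of the cell `q` of size `3^t` -/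
def nbV (m t : ℕ) (q : Pt) : Set Pt :=
  {x | (q.1 - m) * 3 ^ t ≤ x.1 ∧ x.1 ≤ (q.1 + m + 1) * 3 ^ t ∧ (q.2 - m) * 3 ^ t ≤ x.2 ∧
    x.2 ≤ (q.2 + m + 1) * 3 ^ t}

/-- the eight places of the children of a cell -/
def kids : Finset Pt := (box 0 3 0 3).erase (1, 1)

/-- the child at place `c` -/
def kid (q c : Pt) : Pt := (3 * q.1 + c.1, 3 * q.2 + c.2)

/-- multiplication of a lattice point by `m` -/
def mulP (m : ℤ) (x : Pt) : Pt := (m * x.1, m * x.2)

/-! ### the output of part A -/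

/-- The data of a metric in the gauge which is Ahlfors `p`-regular and `p`-PI, seen on the lattices:
`d N x y` is the distance of the points `x / 3^N` and `y / 3^N` of the carpet, `mu n q` the measure of the
(half-open) level-`n` cell `q`. Cells of level `n` are `q ∈ Kept n`; at level `N` such a cell is the
cell `q` of size `3^(N-n)`. -/
structure Dat (p : ℝ) where
  d : ℕ → Pt → Pt → ℝ
  mu : ℕ → Pt → ℝ
  η : ℝ → ℝ
  A : ℝ
  κ : ℕ
  hA : 1 ≤ A
  η_nonneg : ∀ t, 0 ≤ t → 0 ≤ η t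
  η_mono : ∀ s t, 0 ≤ s → s ≤ t → η s ≤ η t
  η_zero : ∀ ε : ℝ, 0 < ε → ∃ δ : ℝ, 0 < δ ∧ η δ ≤ ε
  d_nonneg : ∀ N x y, 0 ≤ d N x y
  d_self : ∀ N x, d N x x = 0
  d_symm : ∀ N x y, d N x y = d N y x
  d_pos : ∀ N, ∀ x ∈ VK (Kept N), ∀ y ∈ VK (Kept N), x ≠ y → 0 < d N x y
  d_tri : ∀ N, ∀ x ∈ VK (Kept N), ∀ y ∈ VK (Kept N), ∀ z ∈ VK (Kept N), d N x z ≤ d N x y + d N y z
  d_scale : ∀ N, ∀ x ∈ VK (Kept N), ∀ y ∈ VK (Kept N), d (N + 1) (mulP 3 x) (mulP 3 y) = d N x y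
  qs : ∀ N, ∀ x ∈ VK (Kept N), ∀ y ∈ VK (Kept N), ∀ z ∈ VK (Kept N), ∀ t : ℝ, 0 ≤ t →
    (dis x y : ℝ) ≤ t * dis x z → d N x y ≤ η t * d N x z
  mu_pos : ∀ n, ∀ q ∈ Kept n, 0 < mu n q
  mu_add : ∀ n, ∀ q ∈ Kept n, mu n q = ∑ c ∈ kids, mu (n + 1) (kid q c)
  ahl : ∀ n, ∀ q ∈ Kept n, mu n q ≤ A * d n q (q.1 + 1, q.2) ^ p ∧ d n q (q.1 + 1, q.2) ^ p ≤ A * mu n q
  /-- Loewner type inequality -/
  lw : ∀ (N t : ℕ), t ≤ N → ∀ q ∈ Kept (N - t), ∀ (f : Pt → ℝ) (K₁ K₂ : Set Pt) (α β : ℝ), α ≤ β →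
    Conn (Kept N) K₁ → Conn (Kept N) K₂ →
    (∃ x ∈ K₁, x ∈ cellV t q) → (∃ x ∈ K₁, ∀ y ∈ cellV t q, (3 : ℤ) ^ t ≤ dis x y) →
    (∃ x ∈ K₂, x ∈ cellV t q) → (∃ x ∈ K₂, ∀ y ∈ cellV t q, (3 : ℤ) ^ t ≤ dis x y) →
    (∀ x ∈ K₁, β ≤ f x) → (∀ x ∈ K₂, f x ≤ α) →
    (β - α) ^ p ≤ A * En p (Kept N) f (nb κ t q)
  /-- lower bound for the capacity between the left and the right side -/
  cap : ∀ (t : ℕ) (f : Pt → ℝ), (∀ j, f (0, j) = 0) → (∀ j, f (3 ^ t, j) = 1) →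
    A⁻¹ ≤ En p (Kept t) f (cell t (0, 0))

/-! ### pairs -/

/-- `(u, v)` is a conjugate pair on the set `R` of edges: the current `phi (du u)` along the edges of
the network is the difference of `v` across the edge; `v` does not jump across the other edges. -/
def Pair (p : ℝ) (K : Set Pt) (R : Set Ed) (u v : Pt → ℝ) : Prop :=
  ∀ e ∈ R, (pres K e → dv v e = phi p (du u e)) ∧ (¬ pres K e → dv v e = 0)

/-- the edges with both adjacent faces in `B` -/
def inner (B : Set Pt) : Set Ed := {e | lf e ∈ B ∧ rf e ∈ B}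

/-- Tile property: the open rectangles `(du u e) × (dv v e)` of different edges are disjoint. -/
def Tile (K : Set Pt) (R : Set Ed) (u v : Pt → ℝ) : Prop :=
  ∀ e ∈ R, ∀ e' ∈ R, pres K e → pres K e' → e ≠ e' → ∀ a c : ℝ,
    ¬ (min (u (hd e)) (u (tl e)) < a ∧ a < max (u (hd e)) (u (tl e)) ∧
      min (v (lf e)) (v (rf e)) < c ∧ c < max (v (lf e)) (v (rf e)) ∧
      min (u (hd e')) (u (tl e')) < a ∧ a < max (u (hd e')) (u (tl e')) ∧
      min (v (lf e')) (v (rf e')) < c ∧ c < max (v (lf e')) (v (rf e')))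

end CarpetPI
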