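import Pool.Agent.Lib.MP_1d263a_an.PI.StmC

/-! Piece CA: combinatorics of the cells (`MP_1d263a_an`) -/

open Finset
open scoped Classical

noncomputable section

namespace CarpetPI

private theorem p_CA_iv (t : ℕ) (a b : ℤ) : (b * 3 ^ t ≤ a ∧ a < (b + 1) * 3 ^ t) ↔ a / 3 ^ t = b := by
  have h3 : (0 : ℤ) < 3 ^ t := by positivity
  constructor
  · rintro ⟨h1, h2⟩
    have h4 : b ≤ a / 3 ^ t := (Int.le_ediv_iff_mul_le h3).2 h1
    have h5 : a / 3 ^ t < b + 1 := (Int.ediv_lt_iff_lt_mul h3).2 h2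
    omega
  · intro h
    constructor
    · exact (Int.le_ediv_iff_mul_le h3).1 h.ge
    · exact (Int.ediv_lt_iff_lt_mul h3).1 (by omega)

private theorem p_CA_mem (t : ℕ) (f q : Pt) : f ∈ cell t q ↔ f.1 / 3 ^ t = q.1 ∧ f.2 / 3 ^ t = q.2 := by
  unfold cell box
  rw [Finset.mem_product, Finset.mem_Ico, Finset.mem_Ico, p_CA_iv, p_CA_iv]

private theorem p_CA_dd (a : ℤ) (t k : ℕ) : a / 3 ^ t / 3 ^ k = a / 3 ^ (t + k) := by
  rw [pow_add, Int.ediv_ediv_of_nonneg (by positivity)]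

private theorem p_CA_kept (n t : ℕ) (f : Pt) (hf : f ∈ Kept (n + t)) :
    ((f.1 / 3 ^ t, f.2 / 3 ^ t) : Pt) ∈ Kept n := by
  obtain ⟨h1, h2, h3, h4, h5⟩ := hf
  have hp : (0 : ℤ) < 3 ^ t := by positivity
  refine ⟨Int.ediv_nonneg h1 hp.le, ?_, Int.ediv_nonneg h3 hp.le, ?_, ?_⟩
  · rw [pow_add] at h2
    exact (Int.ediv_lt_iff_lt_mul hp).2 h2
  · rw [pow_add] at h4
    exact (Int.ediv_lt_iff_lt_mul hp).2 h4
  · intro k hk
    have := h5 (t + k) (by omega)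
    simp only [p_CA_dd]
    exact this

private theorem p_CA_kids (c : Pt) : c ∈ kids ↔ (0 ≤ c.1 ∧ c.1 < 3) ∧ (0 ≤ c.2 ∧ c.2 < 3) ∧ ¬ (c.1 = 1 ∧ c.2 = 1) := by
  unfold kids box
  rw [Finset.mem_erase, Finset.mem_product, Finset.mem_Ico, Finset.mem_Ico]
  constructor
  · rintro ⟨h1, h2, h3⟩
    exact ⟨h2, h3, fun h => h1 (Prod.ext h.1 h.2)⟩
  · rintro ⟨h1, h2, h3⟩
    exact ⟨fun h => h3 ⟨by rw [h], by rw [h]⟩, h1, h2⟩

private theorem p_CA_kid (n : ℕ) (q : Pt) (hq : q ∈ Kept n) (c : Pt) (hc : c ∈ kids) :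
    kid q c ∈ Kept (n + 1) := by
  obtain ⟨h1, h2, h3, h4, h5⟩ := hq
  obtain ⟨⟨c1, c2⟩, ⟨c3, c4⟩, c5⟩ := (p_CA_kids c).1 hc
  have e : (3 : ℤ) ^ (n + 1) = 3 * 3 ^ n := by ring
  refine ⟨?_, ?_, ?_, ?_, ?_⟩
  · show 0 ≤ 3 * q.1 + c.1
    omega
  · show 3 * q.1 + c.1 < 3 ^ (n + 1)
    rw [e]
    omega
  · show 0 ≤ 3 * q.2 + c.2
    omega
  · show 3 * q.2 + c.2 < 3 ^ (n + 1)
    rw [e]
    omega
  · intro k hk h
    obtain ⟨g1, g2⟩ := h
    have g1' : (3 * q.1 + c.1) / 3 ^ k % 3 = 1 := g1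
    have g2' : (3 * q.2 + c.2) / 3 ^ k % 3 = 1 := g2
    rcases k with _ | k
    · rw [pow_zero, Int.ediv_one] at g1' g2'
      apply c5
      constructor <;> omega
    · have e1 : (3 * q.1 + c.1) / 3 ^ (k + 1) = q.1 / 3 ^ k := by
        rw [show k + 1 = 1 + k by ring, ← p_CA_dd, pow_one]
        congr 1
        omega
      have e2 : (3 * q.2 + c.2) / 3 ^ (k + 1) = q.2 / 3 ^ k := by
        rw [show k + 1 = 1 + k by ring, ← p_CA_dd, pow_one]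
        congr 1
        omega
      rw [e1] at g1'
      rw [e2] at g2'
      exact h5 k (by omega) ⟨g1', g2'⟩

theorem p_CA : S_CA := by
  refine ⟨fun n q hq c hc => p_CA_kid n q hq c hc, ?_, ?_, ?_, ?_, ?_, ?_⟩
  · intro n s t q φ hst
    have hmap : ∀ f ∈ (cell t q).filter (· ∈ Kept (n + t)),
        ((f.1 / 3 ^ (t - s), f.2 / 3 ^ (t - s)) : Pt) ∈ dsc n s q := by
      intro f hf
      obtain ⟨h1, h2⟩ := Finset.mem_filter.1 hf
      obtain ⟨h3, h4⟩ := (p_CA_mem t f q).1 h1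
      unfold dsc
      refine Finset.mem_filter.2 ⟨(p_CA_mem s _ q).2 ⟨?_, ?_⟩, ?_⟩
      · show f.1 / 3 ^ (t - s) / 3 ^ s = q.1
        rw [p_CA_dd, Nat.sub_add_cancel hst, h3]
      · show f.2 / 3 ^ (t - s) / 3 ^ s = q.2
        rw [p_CA_dd, Nat.sub_add_cancel hst, h4]
      · apply p_CA_kept (n + s) (t - s) f
        have e : n + s + (t - s) = n + t := by omega
        rw [e]
        exact h2
    rw [← Finset.sum_fiberwise_of_maps_to hmap]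
    refine Finset.sum_congr rfl fun q' hq' => ?_
    refine Finset.sum_congr ?_ fun _ _ => rfl
    unfold dsc at hq'
    obtain ⟨h1, h2⟩ := Finset.mem_filter.1 hq'
    obtain ⟨h3, h4⟩ := (p_CA_mem s q' q).1 h1
    ext f
    rw [Finset.mem_filter, Finset.mem_filter, Finset.mem_filter, p_CA_mem, p_CA_mem]
    constructor
    · rintro ⟨⟨_, h6⟩, h7⟩
      refine ⟨⟨?_, ?_⟩, h6⟩
      · rw [← h7]
      · rw [← h7]
    · rintro ⟨⟨h6, h7⟩, h8⟩
      refine ⟨⟨⟨?_, ?_⟩, h8⟩, Prod.ext h6 h7⟩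
      · rw [← h3, ← h6, p_CA_dd, Nat.sub_add_cancel hst]
      · rw [← h4, ← h7, p_CA_dd, Nat.sub_add_cancel hst]
  · intro n q hq
    ext f
    unfold dsc
    rw [Finset.mem_filter, p_CA_mem, Finset.mem_image, pow_one]
    constructor
    · rintro ⟨⟨h1, h2⟩, h3⟩
      refine ⟨(f.1 % 3, f.2 % 3), (p_CA_kids _).2 ⟨⟨?_, ?_⟩, ⟨?_, ?_⟩, ?_⟩, ?_⟩
      · show 0 ≤ f.1 % 3
        omega
      · show f.1 % 3 < 3
        omega
      · show 0 ≤ f.2 % 3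
        omega
      · show f.2 % 3 < 3
        omega
      · intro h
        refine h3.2.2.2.2 0 (by omega) ?_
        rw [pow_zero, Int.ediv_one, Int.ediv_one]
        exact h
      · refine Prod.ext ?_ ?_
        · show 3 * q.1 + f.1 % 3 = f.1
          omega
        · show 3 * q.2 + f.2 % 3 = f.2
          omega
    · rintro ⟨c, hc, rfl⟩
      refine ⟨⟨?_, ?_⟩, p_CA_kid n q hq c hc⟩
      · obtain ⟨⟨c1, c2⟩, _⟩ := (p_CA_kids c).1 hc
        show (3 * q.1 + c.1) / 3 = q.1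
        omega
      · obtain ⟨_, ⟨c3, c4⟩, _⟩ := (p_CA_kids c).1 hc
        show (3 * q.2 + c.2) / 3 = q.2
        omega
  · intro n t f hf
    exact ⟨_, p_CA_kept n t f hf, (p_CA_mem t f _).2 ⟨rfl, rfl⟩⟩
  · intro q
    ext f
    rw [p_CA_mem, pow_zero, Int.ediv_one, Int.ediv_one, Finset.mem_singleton]
    exact ⟨fun h => Prod.ext h.1 h.2, fun h => by rw [h]; exact ⟨rfl, rfl⟩⟩
  · intro n f hf
    obtain ⟨h1, h2, h3, h4, _⟩ := hf
    exact (p_CA_mem n f (0, 0)).2 ⟨Int.ediv_eq_zero_of_lt h1 h2, Int.ediv_eq_zero_of_lt h3 h4⟩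
  · intro q c c' h
    have h1 : 3 * q.1 + c.1 = 3 * q.1 + c'.1 := congrArg Prod.fst h
    have h2 : 3 * q.2 + c.2 = 3 * q.2 + c'.2 := congrArg Prod.snd h
    exact Prod.ext (by omega) (by omega)

end CarpetPI
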