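import Pool.Agent.Lib.MP_1d263a_an.PI.StmC

/-!
# MP_1d263a_an, project PI, piece CB: vertices
-/

set_option autoImplicit false

open Finset
open scoped Classical

noncomputable section

namespace CarpetPI

private theorem CB_mul (m k : ℤ) (x : Pt) : mulP m (mulP k x) = mulP (m * k) x := by
  unfold mulP
  simp only [mul_assoc]

private theorem CB_finite (N : ℕ) : (VK (Kept N)).Finite := by
  refine Set.Finite.subset ((Finset.Icc (0 : ℤ) (3 ^ N) ×ˢ Finset.Icc (0 : ℤ) (3 ^ N)).finite_toSet) ?_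
  rintro ⟨x, y⟩ ⟨f, hf, h1, h2⟩
  obtain ⟨a1, a2, a3, a4, -⟩ := hf
  simp only [Finset.coe_product, Finset.coe_Icc, Set.mem_prod, Set.mem_Icc]
  simp only at h1 h2
  refine ⟨⟨?_, ?_⟩, ?_, ?_⟩
  · rcases h1 with h | h <;> omega
  · rcases h1 with h | h <;> omega
  · rcases h2 with h | h <;> omega
  · rcases h2 with h | h <;> omega

private theorem CB_step (hCA : S_CA) (n : ℕ) (x : Pt) (hx : x ∈ VK (Kept n)) :
    mulP 3 x ∈ VK (Kept (n + 1)) := by
  obtain ⟨f, hf, h1, h2⟩ := hx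
  have key : ∀ i j : ℤ, (i = 0 ∨ i = 1) → (j = 0 ∨ j = 1) → x = (f.1 + i, f.2 + j) →
      mulP 3 x ∈ VK (Kept (n + 1)) := by
    intro i j hi hj hxe
    have hk : ((2 * i, 2 * j) : Pt) ∈ kids := by
      rcases hi with rfl | rfl <;> rcases hj with rfl | rfl <;> decide
    refine ⟨kid f (2 * i, 2 * j), hCA.1 n f hf _ hk, ?_⟩
    rw [hxe]
    unfold IsCor kid mulP
    simp only
    rcases hi with rfl | rfl <;> rcases hj with rfl | rfl <;> constructor <;> omega
  rcases h1 with h1 | h1 <;> rcases h2 with h2 | h2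
  · exact key 0 0 (Or.inl rfl) (Or.inl rfl) (by ext <;> simp [h1, h2])
  · exact key 0 1 (Or.inl rfl) (Or.inr rfl) (by ext <;> simp [h1, h2])
  · exact key 1 0 (Or.inr rfl) (Or.inl rfl) (by ext <;> simp [h1, h2])
  · exact key 1 1 (Or.inr rfl) (Or.inr rfl) (by ext <;> simp [h1, h2])

private theorem CB_pow (hCA : S_CA) (n t : ℕ) (x : Pt) (hx : x ∈ VK (Kept n)) :
    mulP (3 ^ t) x ∈ VK (Kept (n + t)) := by
  induction t with
  | zero =>
    have h : mulP (3 ^ 0) x = x := by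
      unfold mulP
      simp
    rw [h]
    exact hx
  | succ t ih =>
    have h := CB_step hCA (n + t) _ ih
    rw [CB_mul] at h
    rw [pow_succ, mul_comm]
    exact h

private theorem CB_cor (t : ℕ) (q f x : Pt) (hf : f ∈ cell t q) (hx : IsCor x f) : x ∈ cellV t q := by
  unfold cell box at hf
  rw [Finset.mem_product, Finset.mem_Ico, Finset.mem_Ico] at hf
  obtain ⟨⟨a1, a2⟩, a3, a4⟩ := hf
  obtain ⟨h1, h2⟩ := hx
  refine ⟨?_, ?_, ?_, ?_⟩
  · rcases h1 with h | h <;> omega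
  · rcases h1 with h | h <;> omega
  · rcases h2 with h | h <;> omega
  · rcases h2 with h | h <;> omega

private theorem CB_near (T a x P : ℤ) (hT : 0 < T) (h1 : a * T ≤ x) (h2 : x ≤ (a + 1) * T)
    (h : |x - T * P| < T) : P = a ∨ P = a + 1 := by
  rw [abs_lt] at h
  obtain ⟨h3, h4⟩ := h
  have h5 : a - 1 < P := by
    by_contra hc
    have hc' : P ≤ a - 1 := by omega
    nlinarith
  have h6 : P < a + 2 := by
    by_contra hc
    have hc' : a + 2 ≤ P := by omega
    nlinarith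
  omega

private theorem CB_choose (T a x : ℤ) (h1 : a * T ≤ x) (h2 : x ≤ (a + 1) * T) :
    ∃ P, (P = a ∨ P = a + 1) ∧ 2 * |x - T * P| ≤ T := by
  by_cases h : 2 * (x - T * a) ≤ T
  · refine ⟨a, Or.inl rfl, ?_⟩
    rw [abs_of_nonneg (by nlinarith)]
    exact h
  · refine ⟨a + 1, Or.inr rfl, ?_⟩
    rw [abs_of_nonpos (by nlinarith)]
    push Not at h
    nlinarith

theorem p_CB (hCA : S_CA) : S_CB := by
  refine ⟨CB_finite, fun n t x hx => CB_pow hCA n t x hx, ?_, ?_, ?_, ?_, CB_cor⟩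
  · intro p D n t x hx y hy
    induction t with
    | zero =>
      have h : ∀ z : Pt, mulP (3 ^ 0) z = z := by
        intro z
        unfold mulP
        simp
      rw [h, h]
      rfl
    | succ t ih =>
      have h := D.d_scale (n + t) _ (CB_pow hCA n t x hx) _ (CB_pow hCA n t y hy)
      rw [CB_mul, CB_mul, ih] at h
      rw [pow_succ, mul_comm]
      exact h
  · rintro n t x ⟨f, hf, hx⟩
    obtain ⟨q, hq, hfq⟩ := hCA.2.2.2.1 n t f hf
    exact ⟨q, hq, CB_cor t q f x hfq hx⟩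
  · intro t q x P hx hd
    obtain ⟨a1, a2, a3, a4⟩ := hx
    have hT : (0 : ℤ) < 3 ^ t := by positivity
    unfold dis mulP at hd
    simp only at hd
    rw [max_lt_iff] at hd
    exact ⟨CB_near _ _ _ _ hT a1 a2 hd.1, CB_near _ _ _ _ hT a3 a4 hd.2⟩
  · intro t q x hx
    obtain ⟨a1, a2, a3, a4⟩ := hx
    obtain ⟨P1, h1, h2⟩ := CB_choose _ _ _ a1 a2
    obtain ⟨P2, h3, h4⟩ := CB_choose _ _ _ a3 a4
    refine ⟨(P1, P2), ⟨h1, h3⟩, ?_⟩
    unfold dis mulP
    simp only
    rcases le_total |x.1 - 3 ^ t * P1| |x.2 - 3 ^ t * P2| with h | h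
    · rw [max_eq_right h]; exact h4
    · rw [max_eq_left h]; exact h2

end CarpetPI
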