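import Pool.Agent.Lib.MP_1d263a_an.PI.StmC

/-!
# MP_1d263a_an, project PI, part C, piece CC: distances and measures at one scale
-/

open Finset
open scoped Classical

noncomputable section

namespace CarpetPI

private theorem cc_cor_self (g : Pt) : IsCor g g := ⟨Or.inl rfl, Or.inl rfl⟩

private theorem cc_cor_right (g : Pt) : IsCor (g.1 + 1, g.2) g := ⟨Or.inr rfl, Or.inl rfl⟩

private theorem cc_mem {N : ℕ} {g x : Pt} (hg : g ∈ Kept N) (hx : IsCor x g) : x ∈ VK (Kept N) :=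
  ⟨g, hg, hx⟩

private theorem cc_dis_ab (g : Pt) : dis g (g.1 + 1, g.2) = 1 := by
  unfold dis
  have h1 : g.1 - (g.1 + 1) = -1 := by ring
  have h2 : g.2 - g.2 = 0 := by ring
  simp only [h1, h2]
  norm_num

private theorem cc_dis_le {x y : Pt} {m : ℤ} (h1 : x.1 - y.1 ≤ m) (h2 : y.1 - x.1 ≤ m)
    (h3 : x.2 - y.2 ≤ m) (h4 : y.2 - x.2 ≤ m) : dis x y ≤ m := by
  unfold dis
  exact max_le (abs_le.mpr ⟨by omega, by omega⟩) (abs_le.mpr ⟨by omega, by omega⟩)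

private theorem cc_qs {p : ℝ} (D : Dat p) (N : ℕ) (g : Pt) (hg : g ∈ Kept N) (x : Pt)
    (hx : x ∈ VK (Kept N)) (m : ℕ) (h : dis g x ≤ m) : D.d N g x ≤ D.η m * rho D N g := by
  have ha := cc_mem hg (cc_cor_self g)
  have hb := cc_mem hg (cc_cor_right g)
  refine D.qs N g ha x hx (g.1 + 1, g.2) hb m (Nat.cast_nonneg m) ?_
  rw [cc_dis_ab]
  have h' : ((dis g x : ℤ) : ℝ) ≤ ((m : ℤ) : ℝ) := Int.cast_le.mpr h
  push_cast at h' ⊢
  linarith

private theorem cc_rho_pos {p : ℝ} (D : Dat p) (N : ℕ) (g : Pt) (hg : g ∈ Kept N) :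
    0 < rho D N g := by
  refine D.d_pos N g (cc_mem hg (cc_cor_self g)) _ (cc_mem hg (cc_cor_right g)) ?_
  intro h
  have := congrArg Prod.fst h
  simp at this

private theorem cc_one {p : ℝ} (D : Dat p) (N : ℕ) (g : Pt) (hg : g ∈ Kept N) (x y : Pt)
    (hx : IsCor x g) (hy : IsCor y g) : D.d N x y ≤ 2 * D.η 1 * rho D N g := by
  have hxm := cc_mem hg hx
  have hym := cc_mem hg hy
  have ham := cc_mem hg (cc_cor_self g)
  have hcor : ∀ z : Pt, IsCor z g → dis g z ≤ ((1 : ℕ) : ℤ) := by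
    intro z hz
    obtain ⟨h1, h2⟩ := hz
    push_cast
    refine cc_dis_le ?_ ?_ ?_ ?_ <;> omega
  have h1 := cc_qs D N g hg x hxm 1 (hcor x hx)
  have h2 := cc_qs D N g hg y hym 1 (hcor y hy)
  have h3 := D.d_tri N x hxm g ham y hym
  rw [D.d_symm N x g] at h3
  rw [Nat.cast_one] at h1 h2
  linarith

private theorem cc_two (hB : S_CB) {p : ℝ} (hp : 1 < p) (D : Dat p) (n : ℕ) (q : Pt)
    (hq : q ∈ Kept n) (c : Pt) (hc : c ∈ kids) (hg : kid q c ∈ Kept (n + 1)) :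
    D.mu n q ≤ D.A * (2 * D.η 3) ^ p * D.A * D.mu (n + 1) (kid q c) := by
  obtain ⟨-, B2, -⟩ := hB
  have hc' : 0 ≤ c.1 ∧ c.1 < 3 ∧ 0 ≤ c.2 ∧ c.2 < 3 := by
    have h1 := Finset.mem_of_mem_erase hc
    unfold box at h1
    rw [Finset.mem_product, Finset.mem_Ico, Finset.mem_Ico] at h1
    omega
  have hqa := cc_mem hq (cc_cor_self q)
  have hqb := cc_mem hq (cc_cor_right q)
  have hz : mulP 3 q ∈ VK (Kept (n + 1)) := by
    have := B2 n 1 q hqa
    rwa [pow_one] at this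
  have hz' : mulP 3 (q.1 + 1, q.2) ∈ VK (Kept (n + 1)) := by
    have := B2 n 1 (q.1 + 1, q.2) hqb
    rwa [pow_one] at this
  have hk := cc_mem hg (cc_cor_self (kid q c))
  have hr : rho D n q = D.d (n + 1) (mulP 3 q) (mulP 3 (q.1 + 1, q.2)) :=
    (D.d_scale n q hqa _ hqb).symm
  have h1 : D.d (n + 1) (kid q c) (mulP 3 q) ≤ D.η (3 : ℕ) * rho D (n + 1) (kid q c) := by
    refine cc_qs D (n + 1) (kid q c) hg _ hz 3 ?_
    unfold kid mulP
    push_cast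
    refine cc_dis_le ?_ ?_ ?_ ?_ <;> simp only <;> omega
  have h2 : D.d (n + 1) (kid q c) (mulP 3 (q.1 + 1, q.2)) ≤
      D.η (3 : ℕ) * rho D (n + 1) (kid q c) := by
    refine cc_qs D (n + 1) (kid q c) hg _ hz' 3 ?_
    unfold kid mulP
    push_cast
    refine cc_dis_le ?_ ?_ ?_ ?_ <;> simp only <;> omega
  have h3 := D.d_tri (n + 1) _ hz _ hk _ hz'
  rw [D.d_symm (n + 1) (mulP 3 q) (kid q c)] at h3
  have hη : (0 : ℝ) ≤ D.η 3 := D.η_nonneg 3 (by norm_num)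
  have h4 : rho D n q ≤ 2 * D.η 3 * rho D (n + 1) (kid q c) := by
    rw [hr]
    push_cast at h1 h2
    linarith
  have hA0 : 0 ≤ D.A := le_trans zero_le_one D.hA
  have h5 : rho D n q ^ p ≤ (2 * D.η 3) ^ p * rho D (n + 1) (kid q c) ^ p := by
    rw [← Real.mul_rpow (by positivity) (cc_rho_pos D _ _ hg).le]
    exact Real.rpow_le_rpow (cc_rho_pos D _ _ hq).le h4 (by linarith)
  have h6 := (D.ahl n q hq).1
  have h7 := (D.ahl (n + 1) (kid q c) hg).2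
  have h8 : (0 : ℝ) ≤ (2 * D.η 3) ^ p := Real.rpow_nonneg (by positivity) p
  calc D.mu n q ≤ D.A * rho D n q ^ p := h6
    _ ≤ D.A * ((2 * D.η 3) ^ p * rho D (n + 1) (kid q c) ^ p) :=
        mul_le_mul_of_nonneg_left h5 hA0
    _ ≤ D.A * ((2 * D.η 3) ^ p * (D.A * D.mu (n + 1) (kid q c))) :=
        mul_le_mul_of_nonneg_left (mul_le_mul_of_nonneg_left h7 h8) hA0
    _ = D.A * (2 * D.η 3) ^ p * D.A * D.mu (n + 1) (kid q c) := by ring

private theorem cc_parent {L : ℕ} {a b : ℤ} {x : ℤ} (h1 : a * 3 ^ (L + 1) ≤ x)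
    (h2 : x < (a + 1) * 3 ^ (L + 1)) (h3 : b * 3 ^ 1 ≤ x) (h4 : x < (b + 1) * 3 ^ 1) :
    a * 3 ^ L ≤ b ∧ b < (a + 1) * 3 ^ L := by
  rw [pow_succ, ← mul_assoc] at h1 h2
  rw [pow_one] at h3 h4
  constructor <;> omega

private theorem cc_three (hA : S_CA) {p : ℝ} (D : Dat p) (C : ℝ) (hC : 0 ≤ C)
    (h2 : ∀ (n : ℕ), ∀ q ∈ Kept n, ∀ c ∈ kids, D.mu n q ≤ C * D.mu (n + 1) (kid q c))
    (L : ℕ) : ∀ n : ℕ, ∀ q ∈ Kept n, ∀ q' ∈ dsc n L q, D.mu n q ≤ C ^ L * D.mu (n + L) q' := by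
  obtain ⟨-, -, A3, A4, A5, -⟩ := hA
  induction L with
  | zero =>
      intro n q hq q' hq'
      unfold dsc at hq'
      rw [A5 q, Finset.mem_filter, Finset.mem_singleton] at hq'
      rw [hq'.1, pow_zero, one_mul, Nat.add_zero]
  | succ L ih =>
      intro n q hq q' hq'
      unfold dsc at hq'
      rw [Finset.mem_filter] at hq'
      obtain ⟨hcell, hK⟩ := hq'
      obtain ⟨r, hr, hqr⟩ := A4 (n + L) 1 q' hK
      have hrd : r ∈ dsc n L q := by
        unfold dsc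
        rw [Finset.mem_filter]
        refine ⟨?_, hr⟩
        unfold cell box at hcell hqr ⊢
        rw [Finset.mem_product, Finset.mem_Ico, Finset.mem_Ico] at hcell hqr ⊢
        exact ⟨cc_parent hcell.1.1 hcell.1.2 hqr.1.1 hqr.1.2,
          cc_parent hcell.2.1 hcell.2.2 hqr.2.1 hqr.2.2⟩
      have hqd : q' ∈ dsc (n + L) 1 r := by
        unfold dsc
        rw [Finset.mem_filter]
        exact ⟨hqr, hK⟩
      rw [A3 (n + L) r hr, Finset.mem_image] at hqd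
      obtain ⟨c, hc, rfl⟩ := hqd
      have h5 := ih n q hq r hrd
      have h6 := h2 (n + L) r hr c hc
      calc D.mu n q ≤ C ^ L * D.mu (n + L) r := h5
        _ ≤ C ^ L * (C * D.mu (n + L + 1) (kid r c)) :=
            mul_le_mul_of_nonneg_left h6 (pow_nonneg hC L)
        _ = C ^ (L + 1) * D.mu (n + (L + 1)) (kid r c) := by
            rw [pow_succ, mul_assoc, Nat.add_assoc]

/-- [CC] distances and measures at one scale. -/
theorem p_CC (hA : S_CA) (hB : S_CB) : S_CC := by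
  intro p hp D
  have hA0 : 0 ≤ D.A := le_trans zero_le_one D.hA
  have hη1 : (0 : ℝ) ≤ D.η 1 := D.η_nonneg 1 (by norm_num)
  have hη3 : (0 : ℝ) ≤ D.η 3 := D.η_nonneg 3 (by norm_num)
  have h8 : (0 : ℝ) ≤ (2 * D.η 3) ^ p := Real.rpow_nonneg (by positivity) p
  have h9 : 0 ≤ D.A * (2 * D.η 3) ^ p * D.A := by positivity
  have hC1 : 2 * D.η 1 ≤ 2 * D.η 1 + 1 + D.A * (2 * D.η 3) ^ p * D.A := by linarith
  have hC2 : D.A * (2 * D.η 3) ^ p * D.A ≤ 2 * D.η 1 + 1 + D.A * (2 * D.η 3) ^ p * D.A := by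
    linarith
  have hC3 : 1 ≤ 2 * D.η 1 + 1 + D.A * (2 * D.η 3) ^ p * D.A := by linarith
  have hK := hA.1
  have two : ∀ (n : ℕ), ∀ q ∈ Kept n, ∀ c ∈ kids, D.mu n q ≤
      (2 * D.η 1 + 1 + D.A * (2 * D.η 3) ^ p * D.A) * D.mu (n + 1) (kid q c) := by
    intro n q hq c hc
    have hg := hK n q hq c hc
    exact (cc_two hB hp D n q hq c hc hg).trans
      (mul_le_mul_of_nonneg_right hC2 (D.mu_pos (n + 1) _ hg).le)
  refine ⟨2 * D.η 1 + 1 + D.A * (2 * D.η 3) ^ p * D.A, hC3, ?_, two, ?_, ?_⟩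
  · intro N g hg x y hx hy
    exact (cc_one D N g hg x y hx hy).trans
      (mul_le_mul_of_nonneg_right hC1 (cc_rho_pos D N g hg).le)
  · intro L
    exact cc_three hA D _ (zero_le_one.trans hC3) two L
  · intro N g hg
    exact cc_rho_pos D N g hg

end CarpetPI
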