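import Pool.Agent.Lib.MP_1d263a_an.PI.StmC

/-!
# MP_1d263a_an, project PI, piece CD: the bump functions
-/

open Finset
open scoped Classical

noncomputable section

namespace CarpetPI

private lemma p_CD_opp {n : ℕ} {P : Pt} (hP : P ∈ VK (Kept n)) :
    ∃ P' ∈ VK (Kept n), |P'.1 - P.1| = 1 := by
  obtain ⟨f, hf, h1, h2⟩ := hP
  refine ⟨(2 * f.1 + 1 - P.1, P.2), ⟨f, hf, ?_, h2⟩, ?_⟩
  · rcases h1 with h1 | h1
    · right
      show 2 * f.1 + 1 - P.1 = f.1 + 1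
      rw [h1]; ring
    · left
      show 2 * f.1 + 1 - P.1 = f.1
      rw [h1]; ring
  · rcases h1 with h1 | h1
    · have h : 2 * f.1 + 1 - P.1 - P.1 = 1 := by rw [h1]; ring
      show |2 * f.1 + 1 - P.1 - P.1| = 1
      rw [h, abs_one]
    · have h : 2 * f.1 + 1 - P.1 - P.1 = -1 := by rw [h1]; ring
      show |2 * f.1 + 1 - P.1 - P.1| = 1
      rw [h, abs_neg, abs_one]

private lemma p_CD_dis_mul {t : ℕ} {P P' : Pt} (h : |P'.1 - P.1| = 1) :
    (3 : ℤ) ^ t ≤ dis (mulP (3 ^ t) P') (mulP (3 ^ t) P) := by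
  unfold dis mulP
  refine le_trans ?_ (le_max_left _ _)
  show (3 : ℤ) ^ t ≤ |(3 : ℤ) ^ t * P'.1 - 3 ^ t * P.1|
  rw [← mul_sub, abs_mul, h, mul_one]
  exact le_abs_self _

private lemma p_CD_tri (x y z : Pt) : dis y z ≤ dis x y + dis x z := by
  unfold dis
  refine max_le ?_ ?_
  · have h : |y.1 - z.1| ≤ |x.1 - y.1| + |x.1 - z.1| := by
      have h1 := abs_sub_le y.1 x.1 z.1
      rw [abs_sub_comm y.1 x.1] at h1
      exact h1
    exact h.trans (add_le_add (le_max_left _ _) (le_max_left _ _))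
  · have h : |y.2 - z.2| ≤ |x.2 - y.2| + |x.2 - z.2| := by
      have h1 := abs_sub_le y.2 x.2 z.2
      rw [abs_sub_comm y.2 x.2] at h1
      exact h1
    exact h.trans (add_le_add (le_max_right _ _) (le_max_right _ _))

private lemma p_CD_cor {t : ℕ} {q x P : Pt} (hx : x ∈ cellV t q) (hP : IsCor P q) :
    dis x (mulP (3 ^ t) P) ≤ 3 ^ t := by
  obtain ⟨h1, h2, h3, h4⟩ := hx
  obtain ⟨c1, c2⟩ := hP
  have hpos : (0 : ℤ) < 3 ^ t := by positivity
  unfold dis mulP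
  refine max_le ?_ ?_
  · show |x.1 - 3 ^ t * P.1| ≤ 3 ^ t
    rw [abs_le]
    rcases c1 with c1 | c1 <;> rw [c1] <;> constructor <;> nlinarith
  · show |x.2 - 3 ^ t * P.2| ≤ 3 ^ t
    rw [abs_le]
    rcases c2 with c2 | c2 <;> rw [c2] <;> constructor <;> nlinarith

theorem p_CD (hCB : S_CB) : S_CD := by
  intro p D
  obtain ⟨hfin, hmul, hdsc, -, -, -, -⟩ := hCB
  have hη : 0 ≤ D.η 2 := D.η_nonneg 2 (by norm_num)
  refine ⟨2 * D.η 2 + 1, by linarith, ?_⟩
  intro n t P hP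
  set S : Finset Pt := (hfin (n + t)).toFinset.filter
    (fun y => (3 : ℤ) ^ t ≤ dis y (mulP (3 ^ t) P)) with hS
  have hmemS : ∀ y, y ∈ S ↔ y ∈ VK (Kept (n + t)) ∧ (3 : ℤ) ^ t ≤ dis y (mulP (3 ^ t) P) := by
    intro y
    rw [hS, mem_filter, Set.Finite.mem_toFinset]
  have hne : S.Nonempty := by
    obtain ⟨P', hP', h⟩ := p_CD_opp hP
    exact ⟨mulP (3 ^ t) P', (hmemS _).mpr ⟨hmul n t P' hP', p_CD_dis_mul h⟩⟩
  have hnn : ∀ x, 0 ≤ S.inf' hne (fun y => D.d (n + t) x y) := fun x =>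
    Finset.le_inf' hne _ fun y _ => D.d_nonneg _ _ _
  have hle : ∀ x ∈ VK (Kept (n + t)), ∀ y ∈ VK (Kept (n + t)),
      S.inf' hne (fun z => D.d (n + t) x z) - S.inf' hne (fun z => D.d (n + t) y z) ≤
        D.d (n + t) x y := by
    intro x hx y hy
    obtain ⟨z, hz, hz'⟩ := Finset.exists_mem_eq_inf' hne (fun z => D.d (n + t) y z)
    rw [hz']
    have h1 : S.inf' hne (fun z => D.d (n + t) x z) ≤ D.d (n + t) x z :=
      Finset.inf'_le (fun z => D.d (n + t) x z) hz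
    have h2 := D.d_tri (n + t) x hx y hy z ((hmemS z).mp hz).1
    linarith
  refine ⟨fun x => S.inf' hne (fun y => D.d (n + t) x y), hnn, ?_, ?_, ?_⟩
  · intro x hx hd
    refine le_antisymm ?_ (hnn x)
    have h1 : S.inf' hne (fun y => D.d (n + t) x y) ≤ D.d (n + t) x x :=
      Finset.inf'_le (fun y => D.d (n + t) x y) ((hmemS x).mpr ⟨hx, hd⟩)
    rw [D.d_self] at h1
    exact h1
  · intro x hx y hy
    rw [abs_le]
    have h1 := hle x hx y hy
    have h2 := hle y hy x hx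
    rw [D.d_symm (n + t) y x] at h2
    constructor
    · linarith
    · exact h1
  · intro q hq hPq x hx hxq hxP
    obtain ⟨y, hy, hy'⟩ := Finset.exists_mem_eq_inf' hne (fun y => D.d (n + t) x y)
    show rho D n q ≤ (2 * D.η 2 + 1) * S.inf' hne (fun y => D.d (n + t) x y)
    rw [hy']
    obtain ⟨hyV, hyd⟩ := (hmemS y).mp hy
    have c0 : IsCor q q := ⟨Or.inl rfl, Or.inl rfl⟩
    have c1 : IsCor (q.1 + 1, q.2) q := ⟨Or.inr rfl, Or.inl rfl⟩
    have v0 : q ∈ VK (Kept n) := ⟨q, hq, c0⟩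
    have v1 : (q.1 + 1, q.2) ∈ VK (Kept n) := ⟨q, hq, c1⟩
    have w0 := hmul n t q v0
    have w1 := hmul n t _ v1
    have hxy : (3 : ℤ) ^ t ≤ 2 * dis x y := by
      have h1 := p_CD_tri x y (mulP (3 ^ t) P)
      linarith
    have key : ∀ z ∈ VK (Kept (n + t)), dis x z ≤ 3 ^ t →
        D.d (n + t) x z ≤ D.η 2 * D.d (n + t) x y := by
      intro z hz hxz
      refine D.qs (n + t) x hx z hz y hyV 2 (by norm_num) ?_
      have h1 : dis x z ≤ 2 * dis x y := hxz.trans hxy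
      exact_mod_cast h1
    have k0 := key _ w0 (p_CD_cor hxq c0)
    have k1 := key _ w1 (p_CD_cor hxq c1)
    have hrho : rho D n q = D.d (n + t) (mulP (3 ^ t) q) (mulP (3 ^ t) (q.1 + 1, q.2)) :=
      (hdsc p D n t q v0 _ v1).symm
    have htri := D.d_tri (n + t) _ w0 x hx _ w1
    rw [D.d_symm (n + t) (mulP (3 ^ t) q) x] at htri
    rw [hrho]
    have hd0 := D.d_nonneg (n + t) x y
    linarith

end CarpetPI
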