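import Pool.Agent.Lib.MP_1d263a_an.PI.StmC

/-!
# MP_1d263a_an, project PI, piece CE: the extension operator
-/

set_option autoImplicit false

open Finset
open scoped Classical

noncomputable section

namespace CarpetPI

private lemma CE_tl_cor (g : Pt) (e : Ed) (he : e ∈ sides g) : IsCor (tl e) g := by
  simp only [sides, mem_insert, mem_singleton] at he
  rcases he with rfl | rfl | rfl | rfl <;> simp [tl, IsCor]

private lemma CE_hd_cor (g : Pt) (e : Ed) (he : e ∈ sides g) : IsCor (hd e) g := by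
  simp only [sides, mem_insert, mem_singleton] at he
  rcases he with rfl | rfl | rfl | rfl <;> simp [hd, IsCor]

private lemma CE_fe_nonneg (p : ℝ) (f : Pt → ℝ) (q : Pt) : 0 ≤ fe p f q :=
  Finset.sum_nonneg fun _ _ => Real.rpow_nonneg (abs_nonneg _) _

private lemma CE_du_le (p : ℝ) (hp : 1 < p) (f : Pt → ℝ) (q : Pt) (e : Ed) (he : e ∈ sides q) :
    |du f e| ≤ (fe p f q) ^ (1 / p) := by
  have hp0 : 0 < p := by linarith
  have h1 : |du f e| ^ p ≤ fe p f q :=
    Finset.single_le_sum (f := fun e => |du f e| ^ p)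
      (fun e _ => Real.rpow_nonneg (abs_nonneg _) _) he
  calc |du f e| = (|du f e| ^ p) ^ (1 / p) := by
        rw [← Real.rpow_mul (abs_nonneg _), mul_one_div_cancel hp0.ne', Real.rpow_one]
    _ ≤ (fe p f q) ^ (1 / p) :=
        Real.rpow_le_rpow (Real.rpow_nonneg (abs_nonneg _) _) h1 (by positivity)

private lemma CE_corner (p : ℝ) (hp : 1 < p) (f : Pt → ℝ) (q P : Pt) (hP : IsCor P q) :
    |f P - f q| ≤ 2 * (fe p f q) ^ (1 / p) := by
  have h0 : 0 ≤ (fe p f q) ^ (1 / p) := Real.rpow_nonneg (CE_fe_nonneg p f q) _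
  have h1 : |f (q.1 + 1, q.2) - f q| ≤ (fe p f q) ^ (1 / p) :=
    CE_du_le p hp f q (false, q) (by simp [sides])
  have h2 : |f (q.1, q.2 + 1) - f q| ≤ (fe p f q) ^ (1 / p) :=
    CE_du_le p hp f q (true, q) (by simp [sides])
  have h3 : |f (q.1 + 1, q.2 + 1) - f (q.1, q.2 + 1)| ≤ (fe p f q) ^ (1 / p) :=
    CE_du_le p hp f q (false, (q.1, q.2 + 1)) (by simp [sides])
  obtain ⟨a, b⟩ := P
  obtain ⟨ha, hb⟩ := hP
  simp only at ha hb
  rcases ha with rfl | rfl <;> rcases hb with rfl | rfl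
  · simp only [Prod.mk.eta, sub_self, abs_zero]
    linarith
  · linarith
  · linarith
  · have h4 : f (q.1 + 1, q.2 + 1) - f q =
        (f (q.1 + 1, q.2 + 1) - f (q.1, q.2 + 1)) + (f (q.1, q.2 + 1) - f q) := by ring
    rw [h4]
    refine (abs_add_le _ _).trans ?_
    linarith

private lemma CE_core {ι : Type} (T : Finset ι) (hT : T.card ≤ 4) (bx bz f : ι → ℝ)
    (f0 M dd s : ℝ) (hy : ∀ P ∈ T, 0 ≤ bz P)
    (hd : ∀ P ∈ T, |bx P - bz P| ≤ dd) (hs : 0 < s) (hSx : s ≤ ∑ P ∈ T, bx P)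
    (hSy : 0 < ∑ P ∈ T, bz P) (hf : ∀ P ∈ T, |f P - f0| ≤ M) (hM : 0 ≤ M) (hdd : 0 ≤ dd) :
    |(∑ P ∈ T, f P * bx P) / (∑ P ∈ T, bx P) - (∑ P ∈ T, f P * bz P) / (∑ P ∈ T, bz P)| ≤
      20 * M * dd / s := by
  obtain ⟨X, hX⟩ : ∃ X, X = ∑ P ∈ T, bx P := ⟨_, rfl⟩
  obtain ⟨Y, hY⟩ : ∃ Y, Y = ∑ P ∈ T, bz P := ⟨_, rfl⟩
  have hXY : |Y - X| ≤ 4 * dd := by
    rw [hX, hY, ← Finset.sum_sub_distrib]
    refine (Finset.abs_sum_le_sum_abs _ _).trans ?_
    calc ∑ P ∈ T, |bz P - bx P| ≤ ∑ P ∈ T, dd :=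
          Finset.sum_le_sum fun P hP => by rw [abs_sub_comm]; exact hd P hP
      _ = (T.card : ℝ) * dd := by rw [Finset.sum_const, nsmul_eq_mul]
      _ ≤ 4 * dd := by
        apply mul_le_mul_of_nonneg_right _ hdd
        exact_mod_cast hT
  have hzY : ∀ P ∈ T, bz P ≤ Y := fun P hP => by
    rw [hY]
    exact Finset.single_le_sum (f := bz) hy hP
  have e1 : (∑ P ∈ T, f P * bx P) / X - (∑ P ∈ T, f P * bz P) / Y =
      ∑ P ∈ T, (f P - f0) * (bx P / X - bz P / Y) := by
    have hX0 : X ≠ 0 := by rw [hX]; linarith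
    have hY0 : Y ≠ 0 := by rw [hY]; exact hSy.ne'
    have h1 : ∑ P ∈ T, (f P - f0) * (bx P / X - bz P / Y) =
        ∑ P ∈ T, (f P * bx P / X - f P * bz P / Y - f0 * (bx P / X) + f0 * (bz P / Y)) :=
      Finset.sum_congr rfl fun P _ => by ring
    rw [h1, Finset.sum_add_distrib, Finset.sum_sub_distrib, Finset.sum_sub_distrib,
      ← Finset.mul_sum, ← Finset.mul_sum, ← Finset.sum_div, ← Finset.sum_div, ← Finset.sum_div,
      ← Finset.sum_div, ← hX, ← hY, div_self hX0, div_self hY0]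
    ring
  rw [← hX, ← hY, e1]
  rw [← hX] at hSx
  rw [← hY] at hSy
  have hX0 : 0 < X := lt_of_lt_of_le hs hSx
  refine (Finset.abs_sum_le_sum_abs _ _).trans ?_
  have h2 : ∀ P ∈ T, |(f P - f0) * (bx P / X - bz P / Y)| ≤ M * (5 * dd / s) := by
    intro P hP
    rw [abs_mul]
    refine mul_le_mul (hf P hP) ?_ (abs_nonneg _) hM
    have h3 : bx P / X - bz P / Y = (bx P - bz P) / X + (bz P / Y) * ((Y - X) / X) := by
      field_simp
      ring
    rw [h3]
    refine (abs_add_le _ _).trans ?_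
    have h4 : |(bx P - bz P) / X| ≤ dd / X := by
      rw [abs_div, abs_of_pos hX0]
      exact div_le_div_of_nonneg_right (hd P hP) hX0.le
    have h5 : |bz P / Y * ((Y - X) / X)| ≤ 1 * (4 * dd / X) := by
      rw [abs_mul]
      refine mul_le_mul ?_ ?_ (abs_nonneg _) zero_le_one
      · rw [abs_of_nonneg (div_nonneg (hy P hP) hSy.le)]
        exact (div_le_one hSy).2 (hzY P hP)
      · rw [abs_div, abs_of_pos hX0]
        exact div_le_div_of_nonneg_right hXY hX0.le
    have h6 : dd / X + 1 * (4 * dd / X) = 5 * dd / X := by ring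
    have h7 : 5 * dd / X ≤ 5 * dd / s := div_le_div_of_nonneg_left (by positivity) hs hSx
    linarith
  calc ∑ P ∈ T, |(f P - f0) * (bx P / X - bz P / Y)| ≤ ∑ P ∈ T, M * (5 * dd / s) :=
        Finset.sum_le_sum h2
    _ = (T.card : ℝ) * (M * (5 * dd / s)) := by rw [Finset.sum_const, nsmul_eq_mul]
    _ ≤ 4 * (M * (5 * dd / s)) := by
        apply mul_le_mul_of_nonneg_right _ (by positivity)
        exact_mod_cast hT
    _ = 20 * M * dd / s := by ring

private lemma CE_mem_cell (t : ℕ) (q f : Pt) : f ∈ cell t q ↔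
    (q.1 * 3 ^ t ≤ f.1 ∧ f.1 < (q.1 + 1) * 3 ^ t) ∧ (q.2 * 3 ^ t ≤ f.2 ∧ f.2 < (q.2 + 1) * 3 ^ t) := by
  simp [cell, box, Finset.mem_product, Finset.mem_Ico]

private lemma CE_cell_trans (a t : ℕ) (h : a ≤ t) (q q' g : Pt) (h1 : q' ∈ cell a q)
    (h2 : g ∈ cell (t - a) q') : g ∈ cell t q := by
  rw [CE_mem_cell] at h1 h2 ⊢
  obtain ⟨⟨a1, a2⟩, a3, a4⟩ := h1
  obtain ⟨⟨b1, b2⟩, b3, b4⟩ := h2
  have e : (3 : ℤ) ^ t = 3 ^ a * 3 ^ (t - a) := by rw [← pow_add]; congr 1; omega
  have hp : (0 : ℤ) < 3 ^ (t - a) := by positivity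
  rw [e]
  refine ⟨⟨?_, ?_⟩, ?_, ?_⟩
  · nlinarith [mul_le_mul_of_nonneg_right a1 hp.le]
  · have : q'.1 + 1 ≤ (q.1 + 1) * 3 ^ a := a2
    nlinarith [mul_le_mul_of_nonneg_right this hp.le]
  · nlinarith [mul_le_mul_of_nonneg_right a3 hp.le]
  · have : q'.2 + 1 ≤ (q.2 + 1) * 3 ^ a := a4
    nlinarith [mul_le_mul_of_nonneg_right this hp.le]

private lemma CE_four (V : Finset Pt) (q : Pt) : (V.filter (fun P => IsCor P q)).card ≤ 4 := by
  have h : V.filter (fun P => IsCor P q) ⊆
      {q, (q.1 + 1, q.2), (q.1, q.2 + 1), (q.1 + 1, q.2 + 1)} := by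
    intro P hP
    obtain ⟨a, b⟩ := P
    obtain ⟨ha, hb⟩ := (Finset.mem_filter.1 hP).2
    simp only at ha hb
    rcases ha with rfl | rfl <;> rcases hb with rfl | rfl <;> simp
  exact (Finset.card_le_card h).trans Finset.card_le_four

theorem p_CE (_hCA : S_CA) (hCB : S_CB) (hCC : S_CC) (hCD : S_CD) (hCF : S_CF) : S_CE := by
  intro p hp D
  have hp0 : 0 < p := by linarith
  obtain ⟨C₁, hC₁, hc1, -, -, hrho⟩ := hCC p hp D
  obtain ⟨C₂, hC₂, hbump⟩ := hCD p D
  obtain ⟨hB1, -, -, hB4, hB5, hB6, hB7⟩ := hCB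
  have hA := D.hA
  have hA0 : 0 < D.A := by linarith
  refine ⟨4 * (40 * C₂ * C₁) ^ p * D.A ^ 2, ?_, ?_⟩
  · have h1 : (1 : ℝ) ≤ 40 * C₂ * C₁ := by nlinarith
    have h2 : (1 : ℝ) ≤ (40 * C₂ * C₁) ^ p := Real.one_le_rpow h1 hp0.le
    nlinarith [mul_le_mul h2 (one_le_pow₀ hA : (1 : ℝ) ≤ D.A ^ 2) zero_le_one (by positivity)]
  intro n t f
  obtain ⟨bb, hbb⟩ : ∃ bb : Pt → Pt → ℝ, ∀ P ∈ VK (Kept n),
      (∀ x, 0 ≤ bb P x) ∧
      (∀ x ∈ VK (Kept (n + t)), 3 ^ t ≤ dis x (mulP (3 ^ t) P) → bb P x = 0) ∧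
      (∀ x ∈ VK (Kept (n + t)), ∀ y ∈ VK (Kept (n + t)), |bb P x - bb P y| ≤ D.d (n + t) x y) ∧
      (∀ q ∈ Kept n, IsCor P q → ∀ x ∈ VK (Kept (n + t)), x ∈ cellV t q →
        2 * dis x (mulP (3 ^ t) P) ≤ 3 ^ t → rho D n q ≤ C₂ * bb P x) := by
    choose b hb using hbump n t
    refine ⟨fun P => if h : P ∈ VK (Kept n) then b P h else fun _ => 0, fun P hP => ?_⟩
    simp only [dif_pos hP]
    exact hb P hP
  obtain ⟨V, hV⟩ : ∃ V : Finset Pt, V = (hB1 n).toFinset := ⟨_, rfl⟩
  have memV : ∀ P, P ∈ V ↔ P ∈ VK (Kept n) := fun P => by rw [hV]; exact (hB1 n).mem_toFinset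
  have hcorV : ∀ q ∈ Kept n, ∀ P, IsCor P q → P ∈ V := fun q hq P hP => (memV P).2 ⟨q, hq, hP⟩
  have hsupp : ∀ x ∈ VK (Kept (n + t)), ∀ P ∈ V, bb P x ≠ 0 →
      dis x (mulP (3 ^ t) P) < 3 ^ t := by
    intro x hx P hP h
    by_contra h1
    exact h ((hbb P ((memV P).1 hP)).2.1 x hx (not_lt.1 h1))
  have hnn : ∀ x, ∀ P ∈ V, 0 ≤ bb P x := fun x P hP => (hbb P ((memV P).1 hP)).1 x
  have hSq : ∀ q ∈ Kept n, ∀ x ∈ VK (Kept (n + t)), x ∈ cellV t q →
      rho D n q / C₂ ≤ ∑ P ∈ V, bb P x := by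
    intro q hq x hx hxq
    obtain ⟨P, hP, hd⟩ := hB6 t q x hxq
    have hPV := hcorV q hq P hP
    have h1 := (hbb P ((memV P).1 hPV)).2.2.2 q hq hP x hx hxq hd
    have h2 : bb P x ≤ ∑ P ∈ V, bb P x :=
      Finset.single_le_sum (f := fun P => bb P x) (fun P hP => hnn x P hP) hPV
    rw [div_le_iff₀ (by linarith)]
    nlinarith
  have hSpos : ∀ x ∈ VK (Kept (n + t)), 0 < ∑ P ∈ V, bb P x := by
    intro x hx
    obtain ⟨q, hq, hxq⟩ := hB4 n t x hx
    have h1 := hSq q hq x hx hxq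
    have h2 := hrho n q hq
    have h3 : 0 < rho D n q / C₂ := div_pos h2 (by linarith)
    linarith
  have h3t : (0 : ℤ) < 3 ^ t := by positivity
  obtain ⟨F, hF⟩ : ∃ F : Pt → ℝ, F = fun x => if x ∈ VK (Kept (n + t)) then
      (∑ P ∈ V, f P * bb P x) / (∑ P ∈ V, bb P x) else if x.1 = 3 ^ (n + t) then 1 else 0 :=
    ⟨_, rfl⟩
  refine ⟨F, ?_, ?_, ?_⟩
  · -- the left side
    intro hf j
    rw [hF]
    by_cases hx : ((0, j) : Pt) ∈ VK (Kept (n + t))
    · simp only [if_pos hx]
      have h1 : ∑ P ∈ V, f P * bb P (0, j) = 0 := by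
        refine Finset.sum_eq_zero fun P hP => ?_
        by_cases hb : bb P (0, j) = 0
        · rw [hb, mul_zero]
        · have h2 := hsupp _ hx P hP hb
          have h3 : |(0 : ℤ) - 3 ^ t * P.1| < 3 ^ t := lt_of_le_of_lt (le_max_left _ _) h2
          rw [abs_lt] at h3
          have h4 : P.1 = 0 := by
            have h5 : P.1 < 1 := by nlinarith
            have h6 : -1 < P.1 := by nlinarith
            omega
          have h7 : f P = 0 := by
            have := hf P.2
            rw [← h4] at this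
            exact this
          rw [h7, zero_mul]
      rw [h1, zero_div]
    · simp only [if_neg hx]
      have h2 : ((0 : ℤ)) ≠ 3 ^ (n + t) := by positivity
      rw [if_neg h2]
  · -- the right side
    intro hf j
    rw [hF]
    by_cases hx : ((3 ^ (n + t), j) : Pt) ∈ VK (Kept (n + t))
    · simp only [if_pos hx]
      have h1 : ∑ P ∈ V, f P * bb P (3 ^ (n + t), j) = ∑ P ∈ V, bb P (3 ^ (n + t), j) := by
        refine Finset.sum_congr rfl fun P hP => ?_
        by_cases hb : bb P (3 ^ (n + t), j) = 0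
        · rw [hb, mul_zero]
        · have h2 := hsupp _ hx P hP hb
          have h3 : |(3 : ℤ) ^ (n + t) - 3 ^ t * P.1| < 3 ^ t :=
            lt_of_le_of_lt (le_max_left _ _) h2
          rw [abs_lt, pow_add] at h3
          have h4 : P.1 = 3 ^ n := by
            have h5 : P.1 < 3 ^ n + 1 := by nlinarith
            have h6 : (3 : ℤ) ^ n - 1 < P.1 := by nlinarith
            omega
          have h7 : f P = 1 := by
            have := hf P.2
            rw [← h4] at this
            exact this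
          rw [h7, one_mul]
      rw [h1]
      exact div_self (hSpos _ hx).ne'
    · simp only [if_neg hx, if_true]
  · -- the energy
    intro q hq a ha q' hq' hq'c
    have hat : a ≤ t := by omega
    have hrq := hrho n q hq
    have hmq := D.mu_pos n q hq
    have hG0 : 0 ≤ (fe p f q) ^ (1 / p) := Real.rpow_nonneg (CE_fe_nonneg p f q) _
    -- one face
    have hface : ∀ g ∈ Kept (n + t), g ∈ cell t q →
        fe p F g ≤ 4 * (40 * C₂ * C₁) ^ p * D.A ^ 2 * fe p f q / D.mu n q * D.mu (n + t) g := by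
      intro g hg hgq
      have hrg := hrho (n + t) g hg
      have hmg := D.mu_pos (n + t) g hg
      have hside : ∀ e ∈ sides g, |du F e| ≤
          40 * C₂ * C₁ * (fe p f q) ^ (1 / p) * (rho D (n + t) g / rho D n q) := by
        intro e he
        have hxc := CE_hd_cor g e he
        have hyc := CE_tl_cor g e he
        obtain ⟨x, hxe⟩ : ∃ x, x = hd e := ⟨_, rfl⟩
        obtain ⟨y, hye⟩ : ∃ y, y = tl e := ⟨_, rfl⟩
        rw [← hxe] at hxc
        rw [← hye] at hyc
        have hx : x ∈ VK (Kept (n + t)) := ⟨g, hg, hxc⟩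
        have hy : y ∈ VK (Kept (n + t)) := ⟨g, hg, hyc⟩
        have hxq := hB7 t q g x hgq hxc
        have hyq := hB7 t q g y hgq hyc
        have hFx : F x = (∑ P ∈ V, f P * bb P x) / (∑ P ∈ V, bb P x) := by
          rw [hF]
          simp only [if_pos hx]
        have hFy : F y = (∑ P ∈ V, f P * bb P y) / (∑ P ∈ V, bb P y) := by
          rw [hF]
          simp only [if_pos hy]
        have hz : ∀ z ∈ VK (Kept (n + t)), z ∈ cellV t q → ∀ P ∈ V, ¬ IsCor P q → bb P z = 0 := by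
          intro z hz hzq P hP hPq
          by_contra hb
          exact hPq (hB5 t q z P hzq (hsupp z hz P hP hb))
        have hr1 : ∀ z ∈ VK (Kept (n + t)), z ∈ cellV t q →
            ∑ P ∈ V.filter (fun P => IsCor P q), bb P z = ∑ P ∈ V, bb P z := by
          intro z hz1 hzq
          refine Finset.sum_subset (Finset.filter_subset _ _) fun P hP hP2 => ?_
          refine hz z hz1 hzq P hP fun h => hP2 (Finset.mem_filter.2 ⟨hP, h⟩)
        have hr2 : ∀ z ∈ VK (Kept (n + t)), z ∈ cellV t q →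
            ∑ P ∈ V.filter (fun P => IsCor P q), f P * bb P z = ∑ P ∈ V, f P * bb P z := by
          intro z hz1 hzq
          refine Finset.sum_subset (Finset.filter_subset _ _) fun P hP hP2 => ?_
          rw [hz z hz1 hzq P hP fun h => hP2 (Finset.mem_filter.2 ⟨hP, h⟩), mul_zero]
        have hdu : du F e = F x - F y := by
          rw [hxe, hye]
          rfl
        have hcore := CE_core (V.filter (fun P => IsCor P q)) (CE_four V q) (fun P => bb P x)
          (fun P => bb P y) f (f q) (2 * (fe p f q) ^ (1 / p)) (D.d (n + t) x y) (rho D n q / C₂)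
          (fun P hP => hnn y P (Finset.mem_filter.1 hP).1)
          (fun P hP => (hbb P ((memV P).1 (Finset.mem_filter.1 hP).1)).2.2.1 x hx y hy)
          (div_pos hrq (by linarith)) (by rw [hr1 x hx hxq]; exact hSq q hq x hx hxq)
          (by rw [hr1 y hy hyq]; exact hSpos y hy)
          (fun P hP => CE_corner p hp f q P (Finset.mem_filter.1 hP).2) (by positivity)
          (D.d_nonneg _ _ _)
        rw [hr1 x hx hxq, hr1 y hy hyq, hr2 x hx hxq, hr2 y hy hyq, ← hFx, ← hFy, ← hdu] at hcore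
        refine hcore.trans ?_
        have hd1 := hc1 (n + t) g hg x y hxc hyc
        have e2 : 20 * (2 * (fe p f q) ^ (1 / p)) * D.d (n + t) x y / (rho D n q / C₂) =
            40 * C₂ * (fe p f q) ^ (1 / p) / rho D n q * D.d (n + t) x y := by
          field_simp
          ring
        have e3 : 40 * C₂ * C₁ * (fe p f q) ^ (1 / p) * (rho D (n + t) g / rho D n q) =
            40 * C₂ * (fe p f q) ^ (1 / p) / rho D n q * (C₁ * rho D (n + t) g) := by
          field_simp
        rw [e2, e3]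
        exact mul_le_mul_of_nonneg_left hd1 (by positivity)
      -- sum over the sides
      have h1 : fe p F g ≤ 4 *
          (40 * C₂ * C₁ * (fe p f q) ^ (1 / p) * (rho D (n + t) g / rho D n q)) ^ p := by
        calc fe p F g ≤ ∑ e ∈ sides g,
              (40 * C₂ * C₁ * (fe p f q) ^ (1 / p) * (rho D (n + t) g / rho D n q)) ^ p :=
              Finset.sum_le_sum fun e he =>
                Real.rpow_le_rpow (abs_nonneg _) (hside e he) hp0.le
          _ = ((sides g).card : ℝ) *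
              (40 * C₂ * C₁ * (fe p f q) ^ (1 / p) * (rho D (n + t) g / rho D n q)) ^ p := by
              rw [Finset.sum_const, nsmul_eq_mul]
          _ ≤ 4 * (40 * C₂ * C₁ * (fe p f q) ^ (1 / p) * (rho D (n + t) g / rho D n q)) ^ p := by
              apply mul_le_mul_of_nonneg_right _ (by positivity)
              have : (sides g).card ≤ 4 := Finset.card_le_four
              exact_mod_cast this
      have h2 : (40 * C₂ * C₁ * (fe p f q) ^ (1 / p) * (rho D (n + t) g / rho D n q)) ^ p =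
          (40 * C₂ * C₁) ^ p * fe p f q * ((rho D (n + t) g) ^ p / (rho D n q) ^ p) := by
        rw [Real.mul_rpow (by positivity) (by positivity),
          Real.mul_rpow (by positivity) (by positivity), ← Real.rpow_mul (CE_fe_nonneg p f q),
          one_div_mul_cancel hp0.ne', Real.rpow_one, Real.div_rpow hrg.le hrq.le]
      have h3 : (rho D (n + t) g) ^ p ≤ D.A * D.mu (n + t) g := (D.ahl (n + t) g hg).2
      have h4 : D.mu n q ≤ D.A * (rho D n q) ^ p := (D.ahl n q hq).1
      have hrqp : 0 < (rho D n q) ^ p := Real.rpow_pos_of_pos hrq _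
      have h5 : (rho D (n + t) g) ^ p / (rho D n q) ^ p ≤
          D.A ^ 2 * (D.mu (n + t) g / D.mu n q) := by
        rw [div_le_iff₀ hrqp]
        have h6 : D.A ^ 2 * (D.mu (n + t) g / D.mu n q) * (rho D n q) ^ p =
            (D.A * D.mu (n + t) g) * (D.A * (rho D n q) ^ p / D.mu n q) := by
          field_simp
        rw [h6]
        have h7 : 1 ≤ D.A * (rho D n q) ^ p / D.mu n q := (one_le_div hmq).2 h4
        have h8 : 0 ≤ D.A * D.mu (n + t) g := by positivity
        calc (rho D (n + t) g) ^ p ≤ (D.A * D.mu (n + t) g) * 1 := by rw [mul_one]; exact h3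
          _ ≤ (D.A * D.mu (n + t) g) * (D.A * (rho D n q) ^ p / D.mu n q) :=
            mul_le_mul_of_nonneg_left h7 h8
      have hfe := CE_fe_nonneg p f q
      calc fe p F g ≤ 4 * ((40 * C₂ * C₁) ^ p * fe p f q *
            ((rho D (n + t) g) ^ p / (rho D n q) ^ p)) := by rw [← h2]; exact h1
        _ ≤ 4 * ((40 * C₂ * C₁) ^ p * fe p f q *
            (D.A ^ 2 * (D.mu (n + t) g / D.mu n q))) := by
            apply mul_le_mul_of_nonneg_left _ (by norm_num)
            exact mul_le_mul_of_nonneg_left h5 (by positivity)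
        _ = 4 * (40 * C₂ * C₁) ^ p * D.A ^ 2 * fe p f q / D.mu n q * D.mu (n + t) g := by ring
    have hs : n + t - (n + a) = t - a := by omega
    have hm : D.mu (n + a) q' =
        ∑ g ∈ (cell (t - a) q').filter (· ∈ Kept (n + t)), D.mu (n + t) g := by
      have h1 := hCF.1 p D (n + a) (t - a) q' hq'
      have h2 : n + a + (t - a) = n + t := by omega
      unfold dsc at h1
      rw [h2] at h1
      exact h1
    unfold GN En
    rw [hs]
    calc ∑ g ∈ (cell (t - a) q').filter (· ∈ Kept (n + t)), fe p F g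
        ≤ ∑ g ∈ (cell (t - a) q').filter (· ∈ Kept (n + t)),
          4 * (40 * C₂ * C₁) ^ p * D.A ^ 2 * fe p f q / D.mu n q * D.mu (n + t) g := by
          refine Finset.sum_le_sum fun g hg => ?_
          obtain ⟨hg1, hg2⟩ := Finset.mem_filter.1 hg
          exact hface g hg2 (CE_cell_trans a t hat q q' g hq'c hg1)
      _ = 4 * (40 * C₂ * C₁) ^ p * D.A ^ 2 * fe p f q * (D.mu (n + a) q' / D.mu n q) := by
          rw [← Finset.mul_sum, ← hm]
          ring

end CarpetPI
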