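import Pool.Agent.Lib.MP_1d263a_an.PI.StmC

/-! # Piece CF: additivity -/

open Finset
open scoped Classical

noncomputable section

namespace CarpetPI

private lemma CF_fe_nonneg (p : ℝ) (u : Pt → ℝ) (f : Pt) : 0 ≤ fe p u f :=
  Finset.sum_nonneg fun _ _ => Real.rpow_nonneg (abs_nonneg _) _

theorem p_CF (hCA : S_CA) : S_CF := by
  obtain ⟨h1, h2, h3, h4, h5, h6, h7⟩ := hCA
  refine ⟨?_, ?_, ?_⟩
  · intro p D n s q hq
    induction s with
    | zero =>
      have e : dsc n 0 q = {q} := by
        unfold dsc
        rw [h5 q, Finset.filter_singleton, if_pos]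
        exact hq
      rw [e, Finset.sum_singleton]
      rfl
    | succ s ih =>
      have e := h2 n s (s + 1) q (fun q' => D.mu (n + (s + 1)) q') (Nat.le_succ s)
      have e1 : s + 1 - s = 1 := by omega
      rw [e1] at e
      have e2 : ∑ q' ∈ dsc n (s + 1) q, D.mu (n + (s + 1)) q' =
          ∑ q' ∈ dsc n s q, ∑ f ∈ dsc (n + s) 1 q', D.mu (n + (s + 1)) f := e
      rw [e2, ih]
      refine Finset.sum_congr rfl fun q' hq' => ?_
      have hk : q' ∈ Kept (n + s) := (Finset.mem_filter.1 hq').2
      rw [h3 (n + s) q' hk, D.mu_add (n + s) q' hk, Finset.sum_image]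
      · rfl
      · intro c _ c' _ hcc
        exact h7 q' c c' hcc
  · intro p N n s u q hN
    obtain ⟨t, rfl⟩ := Nat.exists_eq_add_of_le (le_trans (Nat.le_add_right n s) hN)
    have hst : s ≤ t := by omega
    have e := h2 n s t q (fe p u) hst
    have e1 : n + t - n = t := by omega
    have e2 : n + t - (n + s) = t - s := by omega
    unfold GN En
    rw [e1, e2]
    exact e
  · intro p N n u q
    exact Finset.sum_nonneg fun f _ => CF_fe_nonneg p u f

end CarpetPI
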