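import Pool.Agent.Lib.MP_1d263a_an.PI.StmC

set_option autoImplicit false

open Finset
open scoped Classical

noncomputable section

namespace CarpetPI

private theorem cg_mem : ((0, 0) : Pt) ∈ Kept 0 := by
  refine ⟨le_rfl, by norm_num, le_rfl, by norm_num, ?_⟩
  intro k hk
  omega

private theorem cg_cell : ((0, 0) : Pt) ∈ cell 0 (0, 0) := by
  unfold cell box
  simp

private theorem cg_fe (p : ℝ) (hp : 1 < p) : fe p (fun x => (x.1 : ℝ)) (0, 0) = 2 := by
  have hp0 : p ≠ 0 := by linarith
  unfold fe sides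
  rw [sum_insert (by simp), sum_insert (by simp), sum_insert (by simp), sum_singleton]
  simp only [du, hd, tl]
  norm_num [hp0]

theorem p_CG : S_CE → S_CG := by
  intro hce p hp D
  obtain ⟨C, hC, h⟩ := hce p hp D
  refine ⟨C * 2, fun N => ?_⟩
  obtain ⟨F, h0, h1, hE⟩ := h 0 N (fun x => (x.1 : ℝ))
  refine ⟨F, h0 (fun j => by simp), ?_, ?_⟩
  · intro j
    have h2 := h1 (fun j => by simp) j
    rwa [zero_add] at h2
  · have h3 := hE (0, 0) cg_mem 0 (by omega) (0, 0) cg_mem cg_cell
    rw [cg_fe p hp, div_self (D.mu_pos 0 (0, 0) cg_mem).ne', mul_one] at h3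
    unfold GN at h3
    simpa using h3

end CarpetPI
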