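import Pool.Agent.Lib.MP_1d263a_an.PI.StmC

/-!
# MP_1d263a_an, project PI, part C, piece CH: monotonicity of `H`
-/

open Finset
open scoped Classical

noncomputable section

namespace CarpetPI

private theorem ch_kept0 : ((0, 0) : Pt) ∈ Kept 0 := by
  refine ⟨le_rfl, ?_, le_rfl, ?_, ?_⟩
  · norm_num
  · norm_num
  · intro k hk
    exact absurd hk (Nat.not_lt_zero k)

private theorem ch_one (hF : S_CF) (p : ℝ) (D : Dat p) (N n L : ℕ) (u : Pt → ℝ) (hN : n + L ≤ N)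
    (Q : Pt) (hQ : Q ∈ Kept n) :
    ∑ Q' ∈ dsc n L Q, Real.sqrt (D.mu (n + L) Q' * GN p N u (n + L) Q') ≤
      Real.sqrt (D.mu n Q * GN p N u n Q) := by
  obtain ⟨F1, F2, F3⟩ := hF
  have hmem : ∀ Q' ∈ dsc n L Q, 0 ≤ D.mu (n + L) Q' := by
    intro Q' hQ'
    exact (D.mu_pos (n + L) Q' (Finset.mem_filter.mp hQ').2).le
  have h1 : ∑ Q' ∈ dsc n L Q, Real.sqrt (D.mu (n + L) Q' * GN p N u (n + L) Q') =
      ∑ Q' ∈ dsc n L Q, Real.sqrt |D.mu (n + L) Q'| * Real.sqrt (GN p N u (n + L) Q') := by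
    refine Finset.sum_congr rfl fun Q' hQ' => ?_
    rw [Real.sqrt_mul (hmem Q' hQ'), abs_of_nonneg (hmem Q' hQ')]
  have h2 : ∑ Q' ∈ dsc n L Q, |D.mu (n + L) Q'| = D.mu n Q := by
    rw [F1 p D n L Q hQ]
    exact Finset.sum_congr rfl fun Q' hQ' => abs_of_nonneg (hmem Q' hQ')
  have h3 := Real.sum_sqrt_mul_sqrt_le (dsc n L Q) (f := fun Q' => |D.mu (n + L) Q'|)
    (g := fun Q' => GN p N u (n + L) Q') (fun i => abs_nonneg _) (fun i => F3 p N (n + L) u i)
  rw [h1]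
  refine h3.trans (le_of_eq ?_)
  rw [h2, ← F2 p N n L u Q hN, ← Real.sqrt_mul (D.mu_pos n Q hQ).le]

private theorem ch_two (hA : S_CA) (p : ℝ) (D : Dat p) (w : ℕ → Pt → ℝ) (N n L : ℕ) :
    HH D w (n + L) N = ∑ Q ∈ (cell n (0, 0)).filter (· ∈ Kept n), ∑ Q' ∈ dsc n L Q,
      Real.sqrt (D.mu (n + L) Q' * GN p N (w N) (n + L) Q') := by
  obtain ⟨-, A2, -⟩ := hA
  have h := A2 0 n (n + L) (0, 0)
    (fun Q => Real.sqrt (D.mu (n + L) Q * GN p N (w N) (n + L) Q)) (Nat.le_add_right n L)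
  unfold dsc at h
  rw [Nat.zero_add, Nat.zero_add, Nat.add_sub_cancel_left] at h
  unfold HH dsc
  exact h

private theorem ch_three (hA : S_CA) (hF : S_CF) (p : ℝ) (D : Dat p) (w : ℕ → Pt → ℝ)
    (N n L : ℕ) (hN : n + L ≤ N) : HH D w (n + L) N ≤ HH D w n N := by
  rw [ch_two hA p D w N n L]
  unfold HH
  refine Finset.sum_le_sum fun Q hQ => ?_
  exact ch_one hF p D N n L (w N) hN Q (Finset.mem_filter.mp hQ).2

/-- [CH] monotonicity of `H`. -/
theorem p_CH (hA : S_CA) (hF : S_CF) : S_CH := by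
  refine ⟨?_, ?_, ?_, ?_⟩
  · intro p D N n L u hN Q hQ
    exact ch_one hF p D N n L u hN Q hQ
  · intro p D w N n L _
    exact ch_two hA p D w N n L
  · intro p D w N n L hN
    exact ch_three hA hF p D w N n L hN
  · intro p D w C₀ N m hm hE
    have h1 : HH D w m N ≤ HH D w 0 N := by
      have h := ch_three hA hF p D w N 0 m (by omega)
      rwa [Nat.zero_add] at h
    refine h1.trans ?_
    obtain ⟨-, -, -, -, A5, -⟩ := hA
    unfold HH
    rw [A5 (0, 0)]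
    refine (Finset.sum_le_sum_of_subset_of_nonneg (Finset.filter_subset _ _)
      (fun _ _ _ => Real.sqrt_nonneg _)).trans ?_
    rw [Finset.sum_singleton]
    refine Real.sqrt_le_sqrt ?_
    refine mul_le_mul_of_nonneg_left ?_ (D.mu_pos 0 (0, 0) ch_kept0).le
    unfold GN
    rw [Nat.sub_zero]
    exact hE

end CarpetPI
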