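import Pool.Agent.Lib.MP_1d263a_an.PI.StmC

/-!
# MP_1d263a_an, project PI, piece CI: energy of an extension in the cells
-/

open Finset
open scoped Classical

noncomputable section

namespace CarpetPI

private lemma ci_diag {p : ℝ} {D : Dat p} {C : ℝ} {n N : ℕ} {f F : Pt → ℝ} (hCA : S_CA) (hn : n ≤ N)
    (hE : Ext D C n N f F) (P : Pt) (hP : P ∈ Kept n) : GN p N F n P ≤ C * fe p f P := by
  obtain ⟨_, _, _, _, h5, _, _⟩ := hCA
  have h := hE P hP 0 (by simpa using hn) P (by simpa using hP) (by rw [h5]; simp)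
  have hmu := D.mu_pos n P hP
  simp only [add_zero] at h
  rw [div_self hmu.ne', mul_one] at h
  exact h

private lemma ci_up {p : ℝ} {D : Dat p} {C : ℝ} {n N : ℕ} {f F : Pt → ℝ} (hCA : S_CA) (hCF : S_CF) (hn : n ≤ N)
    (hE : Ext D C n N f F) (m : ℕ) (hm : m ≤ n) (Q : Pt) : GN p N F m Q ≤ C * GN p n f m Q := by
  obtain ⟨_, h2, _⟩ := hCF
  obtain ⟨s, rfl⟩ := Nat.exists_eq_add_of_le hm
  rw [h2 p N m s F Q hn]
  have e : GN p (m + s) f m Q = ∑ P ∈ dsc m s Q, fe p f P := by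
    unfold GN En dsc
    rw [Nat.add_sub_cancel_left]
  rw [e, Finset.mul_sum]
  refine Finset.sum_le_sum fun P hP => ?_
  have hP' : P ∈ Kept (m + s) := by
    unfold dsc at hP
    exact (Finset.mem_filter.mp hP).2
  exact ci_diag hCA hn hE P hP'

theorem p_CI (hCA : S_CA) (hCF : S_CF) : S_CI := by
  intro p D C n N f F hn hC hE
  refine ⟨fun m hm Q _ => ci_up hCA hCF hn hE m hm Q, ?_⟩
  intro Λ hΛ m hm Q hQ
  rcases Nat.lt_or_ge n m with h | h
  · obtain ⟨s, rfl⟩ := Nat.exists_eq_add_of_le h.le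
    obtain ⟨q, hq, hQq⟩ := hCA.2.2.2.1 n s Q hQ
    have h1 := hE q hq s hm Q hQ hQq
    have hmuq := D.mu_pos n q hq
    have hmuQ := D.mu_pos (n + s) Q hQ
    have h2 := hΛ q hq
    calc GN p N F (n + s) Q ≤ C * fe p f q * (D.mu (n + s) Q / D.mu n q) := h1
      _ ≤ C * (Λ * D.mu n q) * (D.mu (n + s) Q / D.mu n q) := by
        refine mul_le_mul_of_nonneg_right (mul_le_mul_of_nonneg_left h2 hC) ?_
        positivity
      _ = C * Λ * D.mu (n + s) Q := by
        field_simp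
  · have h1 := ci_up hCA hCF hn hE m h Q
    obtain ⟨s, rfl⟩ := Nat.exists_eq_add_of_le h
    have e : GN p (m + s) f m Q = ∑ P ∈ dsc m s Q, fe p f P := by
      unfold GN En dsc
      rw [Nat.add_sub_cancel_left]
    have h3 : ∑ P ∈ dsc m s Q, fe p f P ≤ Λ * D.mu m Q := by
      rw [hCF.1 p D m s Q hQ, Finset.mul_sum]
      refine Finset.sum_le_sum fun P hP => ?_
      unfold dsc at hP
      exact hΛ P (Finset.mem_filter.mp hP).2
    calc GN p N F m Q ≤ C * GN p (m + s) f m Q := h1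
      _ ≤ C * (Λ * D.mu m Q) := by rw [e]; exact mul_le_mul_of_nonneg_left h3 hC
      _ = C * Λ * D.mu m Q := by ring

end CarpetPI
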