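import Pool.Agent.Lib.MP_1d263a_an.PI.StmC

set_option autoImplicit false

open Finset
open scoped Classical

noncomputable section

namespace CarpetPI

private theorem cj_add (p x y : ℝ) (hp : 1 ≤ p) :
    |x + y| ^ p ≤ (2 : ℝ) ^ (p - 1) * (|x| ^ p + |y| ^ p) := by
  have h := Real.rpow_sum_le_const_mul_sum_rpow (Finset.univ : Finset (Fin 2)) ![x, y] hp
  simp only [Fin.sum_univ_two, Matrix.cons_val_zero, Matrix.cons_val_one, Finset.card_univ,
    Fintype.card_fin, Nat.cast_ofNat] at h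
  refine le_trans ?_ h
  exact Real.rpow_le_rpow (abs_nonneg _) (abs_add_le x y) (by linarith)

private theorem cj_num (p : ℝ) (k : ℕ) (a : ℕ → ℝ) (T : ℕ → Prop) (hp : 1 ≤ p)
    (h : ∀ j < k, ∀ j' < k, ¬ T j → ¬ T j' → j = j') :
    |(1 / (k : ℝ)) * ∑ j ∈ range k, a j| ^ p ≤
      (1 / (k : ℝ)) ^ p * (2 : ℝ) ^ (p - 1) * (∑ j ∈ range k, |a j| ^ p +
        (k : ℝ) ^ (p - 1) * ∑ j ∈ (range k).filter T, |a j| ^ p) := by
  have hk0 : (0 : ℝ) ≤ 1 / (k : ℝ) := by positivity
  have hp0 : 0 ≤ p := by linarith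
  rw [abs_mul, abs_of_nonneg hk0, Real.mul_rpow hk0 (abs_nonneg _), mul_assoc]
  refine mul_le_mul_of_nonneg_left ?_ (Real.rpow_nonneg hk0 _)
  have hsplit : ∑ j ∈ range k, a j = ∑ j ∈ (range k).filter (fun j => ¬ T j), a j +
      ∑ j ∈ (range k).filter T, a j := by
    rw [add_comm]
    exact (Finset.sum_filter_add_sum_filter_not (range k) T a).symm
  rw [hsplit]
  refine (cj_add p _ _ hp).trans ?_
  refine mul_le_mul_of_nonneg_left (add_le_add ?_ ?_) (Real.rpow_nonneg (by norm_num) _)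
  · -- at most one term
    have hcard : ((range k).filter (fun j => ¬ T j)).card ≤ 1 := by
      rw [Finset.card_le_one]
      intro j hj j' hj'
      rw [Finset.mem_filter, Finset.mem_range] at hj hj'
      exact h j hj.1 j' hj'.1 hj.2 hj'.2
    have hle : |∑ j ∈ (range k).filter (fun j => ¬ T j), a j| ^ p ≤
        ∑ j ∈ (range k).filter (fun j => ¬ T j), |a j| ^ p := by
      rcases Nat.le_one_iff_eq_zero_or_eq_one.mp hcard with h0 | h1
      · rw [Finset.card_eq_zero] at h0
        rw [h0, Finset.sum_empty, Finset.sum_empty, abs_zero, Real.zero_rpow (by linarith)]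
      · obtain ⟨j, hj⟩ := Finset.card_eq_one.mp h1
        rw [hj, Finset.sum_singleton, Finset.sum_singleton]
    refine hle.trans ?_
    exact Finset.sum_le_sum_of_subset_of_nonneg (Finset.filter_subset _ _)
      fun j _ _ => Real.rpow_nonneg (abs_nonneg _) _
  · have h1 : |∑ j ∈ (range k).filter T, a j| ^ p ≤ (∑ j ∈ (range k).filter T, |a j|) ^ p :=
      Real.rpow_le_rpow (abs_nonneg _) (Finset.abs_sum_le_sum_abs _ _) hp0
    have h2 := Real.rpow_sum_le_const_mul_sum_rpow ((range k).filter T) a hp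
    refine h1.trans (h2.trans ?_)
    refine mul_le_mul_of_nonneg_right ?_
      (Finset.sum_nonneg fun j _ => Real.rpow_nonneg (abs_nonneg _) _)
    refine Real.rpow_le_rpow (Nat.cast_nonneg _) ?_ (by linarith)
    have h3 : ((range k).filter T).card ≤ k := by
      have := Finset.card_filter_le (range k) T
      rwa [Finset.card_range] at this
    exact_mod_cast h3

theorem p_CJ : S_CJ := by
  intro p k F T g hp _ hT
  have hdu : ∀ e : Ed, du (fun x => (1 / (k : ℝ)) * ∑ j ∈ range k, F j x) e =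
      (1 / (k : ℝ)) * ∑ j ∈ range k, du (F j) e := by
    intro e
    simp only [du, Finset.sum_sub_distrib, mul_sub]
  have h1 : fe p (fun x => (1 / (k : ℝ)) * ∑ j ∈ range k, F j x) g ≤
      ∑ e ∈ sides g, (1 / (k : ℝ)) ^ p * (2 : ℝ) ^ (p - 1) * (∑ j ∈ range k, |du (F j) e| ^ p +
        (k : ℝ) ^ (p - 1) * ∑ j ∈ (range k).filter T, |du (F j) e| ^ p) := by
    rw [fe]
    refine Finset.sum_le_sum fun e _ => ?_
    rw [hdu e]
    exact cj_num p k (fun j => du (F j) e) T hp hT
  refine h1.trans (le_of_eq ?_)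
  rw [← Finset.mul_sum, Finset.sum_add_distrib, ← Finset.mul_sum, Finset.sum_comm,
    Finset.sum_comm (s := sides g) (t := (range k).filter T)]
  rfl

end CarpetPI
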