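import Pool.Agent.Lib.MP_1d263a_an.PI.StmC

/-!
# MP_1d263a_an, project PI, piece CL: the energy does not become singular
-/

open Finset
open scoped Classical

noncomputable section

namespace CarpetPI

private theorem CL_k (p A C C₀ : ℝ) (hp : 1 < p) (hA : 1 ≤ A) :
    ∃ k : ℕ, 1 ≤ k ∧
      (2 : ℝ) ^ (p - 1) * (C * C₀ * (k : ℝ) ^ (1 - p) + 2 * C / k) < A⁻¹ := by
  have hA' : 0 < A⁻¹ := by positivity
  have h1 : Filter.Tendsto
      (fun k : ℕ => (2 : ℝ) ^ (p - 1) * (C * C₀ * (k : ℝ) ^ (1 - p) + 2 * C / k))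
      Filter.atTop (nhds ((2 : ℝ) ^ (p - 1) * (C * C₀ * 0 + 0))) := by
    apply Filter.Tendsto.const_mul
    apply Filter.Tendsto.add
    · apply Filter.Tendsto.const_mul
      have h2 := (tendsto_rpow_neg_atTop (y := p - 1) (by linarith)).comp
        (tendsto_natCast_atTop_atTop (R := ℝ))
      refine h2.congr ?_
      intro k
      simp only [Function.comp]
      rw [neg_sub]
    · exact tendsto_const_div_atTop_nhds_zero_nat (2 * C)
  have h3 := (h1.eventually_lt_const (u := A⁻¹) (by simpa using hA')).and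
    (Filter.eventually_ge_atTop 1)
  obtain ⟨k, hk⟩ := h3.exists
  exact ⟨k, hk.2, hk.1⟩

private theorem CL_fin (p A C C₀ : ℝ) (k : ℕ) (hk : 1 ≤ k) (h L : ℕ → ℝ) (hC : 0 ≤ C)
    (hh : ∀ j, h j ≤ 1 / (k : ℝ) ^ 2) (hLh : ∀ j i, j < i → L j * h i ≤ 1 / (k : ℝ) ^ 2)
    (hmain : A⁻¹ ≤ (1 / (k : ℝ)) ^ p * (2 : ℝ) ^ (p - 1) * (k * (C * C₀) +
      (k : ℝ) ^ (p - 1) * ∑ j ∈ range k, (C * h j +
        ∑ i ∈ (range k).filter (fun i => j < i), C * L j * h i))) :
    A⁻¹ ≤ (2 : ℝ) ^ (p - 1) * (C * C₀ * (k : ℝ) ^ (1 - p) + 2 * C / k) := by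
  have hk0 : (0 : ℝ) < k := by exact_mod_cast hk
  have hk1 : (1 : ℝ) ≤ k := by exact_mod_cast hk
  have hsum : ∑ j ∈ range k, (C * h j +
      ∑ i ∈ (range k).filter (fun i => j < i), C * L j * h i) ≤ 2 * C := by
    have h1 : ∀ j ∈ range k, (C * h j +
        ∑ i ∈ (range k).filter (fun i => j < i), C * L j * h i) ≤ 2 * C / k := by
      intro j _
      have h2 : C * h j ≤ C / k := by
        have h3 : h j ≤ 1 / (k : ℝ) := by
          refine (hh j).trans ?_
          apply one_div_le_one_div_of_le hk0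
          nlinarith
        calc C * h j ≤ C * (1 / (k : ℝ)) := mul_le_mul_of_nonneg_left h3 hC
          _ = C / k := by ring
      have h4 : ∑ i ∈ (range k).filter (fun i => j < i), C * L j * h i ≤ C / k := by
        have h5 : ∑ i ∈ (range k).filter (fun i => j < i), C * L j * h i ≤
            ∑ i ∈ (range k).filter (fun i => j < i), C * (1 / (k : ℝ) ^ 2) := by
          apply Finset.sum_le_sum
          intro i hi
          rw [mul_assoc]
          exact mul_le_mul_of_nonneg_left (hLh j i (Finset.mem_filter.1 hi).2) hC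
        refine h5.trans ?_
        rw [Finset.sum_const, nsmul_eq_mul]
        have h6 : (((range k).filter (fun i => j < i)).card : ℝ) ≤ k := by
          have := Finset.card_filter_le (range k) (fun i => j < i)
          rw [Finset.card_range] at this
          exact_mod_cast this
        have h7 : 0 ≤ C * (1 / (k : ℝ) ^ 2) := by positivity
        calc (((range k).filter (fun i => j < i)).card : ℝ) * (C * (1 / (k : ℝ) ^ 2)) ≤
            k * (C * (1 / (k : ℝ) ^ 2)) := mul_le_mul_of_nonneg_right h6 h7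
          _ = C / k := by field_simp
      have h8 : 2 * C / k = C / k + C / k := by ring
      rw [h8]
      exact add_le_add h2 h4
    refine (Finset.sum_le_sum h1).trans ?_
    rw [Finset.sum_const, Finset.card_range, nsmul_eq_mul]
    apply le_of_eq
    field_simp
  have hkp : (0 : ℝ) < (k : ℝ) ^ (p - 1) := Real.rpow_pos_of_pos hk0 _
  have h2p : (0 : ℝ) < (2 : ℝ) ^ (p - 1) := Real.rpow_pos_of_pos (by norm_num) _
  have hkpp : (1 / (k : ℝ)) ^ p = (k : ℝ) ^ (-p) := by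
    rw [one_div, Real.inv_rpow hk0.le, Real.rpow_neg hk0.le]
  have e1 : (k : ℝ) ^ (-p) * k = (k : ℝ) ^ (1 - p) := by
    rw [← Real.rpow_add_one hk0.ne']
    congr 1
    ring
  have e2 : (k : ℝ) ^ (-p) * (k : ℝ) ^ (p - 1) = 1 / k := by
    rw [← Real.rpow_add hk0]
    have : -p + (p - 1) = -1 := by ring
    rw [this, Real.rpow_neg_one, one_div]
  have hkm : (0 : ℝ) < (k : ℝ) ^ (-p) := Real.rpow_pos_of_pos hk0 _
  refine hmain.trans ?_
  rw [hkpp]
  have h9 : (k : ℝ) ^ (-p) * (2 : ℝ) ^ (p - 1) * (k * (C * C₀) +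
      (k : ℝ) ^ (p - 1) * ∑ j ∈ range k, (C * h j +
        ∑ i ∈ (range k).filter (fun i => j < i), C * L j * h i)) ≤
      (k : ℝ) ^ (-p) * (2 : ℝ) ^ (p - 1) * (k * (C * C₀) + (k : ℝ) ^ (p - 1) * (2 * C)) := by
    apply mul_le_mul_of_nonneg_left _ (mul_pos hkm h2p).le
    have := mul_le_mul_of_nonneg_left hsum hkp.le
    linarith
  refine h9.trans (le_of_eq ?_)
  calc (k : ℝ) ^ (-p) * (2 : ℝ) ^ (p - 1) * (k * (C * C₀) + (k : ℝ) ^ (p - 1) * (2 * C)) =
      (2 : ℝ) ^ (p - 1) * (C * C₀ * ((k : ℝ) ^ (-p) * k) +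
        ((k : ℝ) ^ (-p) * (k : ℝ) ^ (p - 1)) * (2 * C)) := by ring
    _ = (2 : ℝ) ^ (p - 1) * (C * C₀ * (k : ℝ) ^ (1 - p) + 2 * C / k) := by
      rw [e1, e2]
      ring

private theorem CL_half {p : ℝ} (D : Dat p) (w : ℕ → Pt → ℝ) (hCF : S_CF) (m n : ℕ) :
    (∑ Q ∈ (cell m (0, 0)).filter
      (fun Q => Q ∈ Kept m ∧ Q ∉ {Q : Pt | D.mu m Q ≤ GN p n (w n) m Q}), GN p n (w n) m Q ≤
        HH D w m n) ∧
    (∑ Q ∈ (cell m (0, 0)).filter
      (fun Q => Q ∈ Kept m ∧ Q ∈ {Q : Pt | D.mu m Q ≤ GN p n (w n) m Q}), D.mu m Q ≤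
        HH D w m n) := by
  have hG : ∀ Q : Pt, 0 ≤ GN p n (w n) m Q := fun Q => hCF.2.2 p n m (w n) Q
  constructor
  · have h1 : ∑ Q ∈ (cell m (0, 0)).filter
        (fun Q => Q ∈ Kept m ∧ Q ∉ {Q : Pt | D.mu m Q ≤ GN p n (w n) m Q}), GN p n (w n) m Q ≤
        ∑ Q ∈ (cell m (0, 0)).filter
        (fun Q => Q ∈ Kept m ∧ Q ∉ {Q : Pt | D.mu m Q ≤ GN p n (w n) m Q}),
          Real.sqrt (D.mu m Q * GN p n (w n) m Q) := by
      apply Finset.sum_le_sum
      intro Q hQ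
      have hQ2 := (Finset.mem_filter.1 hQ).2.2
      have hlt : GN p n (w n) m Q < D.mu m Q := by
        by_contra hh
        exact hQ2 (not_lt.1 hh)
      calc GN p n (w n) m Q = Real.sqrt (GN p n (w n) m Q * GN p n (w n) m Q) :=
            (Real.sqrt_mul_self (hG Q)).symm
        _ ≤ Real.sqrt (D.mu m Q * GN p n (w n) m Q) :=
            Real.sqrt_le_sqrt (mul_le_mul_of_nonneg_right hlt.le (hG Q))
    refine h1.trans ?_
    unfold HH
    apply Finset.sum_le_sum_of_subset_of_nonneg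
    · intro Q hQ
      rw [Finset.mem_filter] at hQ ⊢
      exact ⟨hQ.1, hQ.2.1⟩
    · intro Q _ _
      exact Real.sqrt_nonneg _
  · have h1 : ∑ Q ∈ (cell m (0, 0)).filter
        (fun Q => Q ∈ Kept m ∧ Q ∈ {Q : Pt | D.mu m Q ≤ GN p n (w n) m Q}), D.mu m Q ≤
        ∑ Q ∈ (cell m (0, 0)).filter
        (fun Q => Q ∈ Kept m ∧ Q ∈ {Q : Pt | D.mu m Q ≤ GN p n (w n) m Q}),
          Real.sqrt (D.mu m Q * GN p n (w n) m Q) := by
      apply Finset.sum_le_sum
      intro Q hQ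
      have hQ1 := (Finset.mem_filter.1 hQ).2.1
      have hle : D.mu m Q ≤ GN p n (w n) m Q := (Finset.mem_filter.1 hQ).2.2
      have hmu := (D.mu_pos m Q hQ1).le
      calc D.mu m Q = Real.sqrt (D.mu m Q * D.mu m Q) := (Real.sqrt_mul_self hmu).symm
        _ ≤ Real.sqrt (D.mu m Q * GN p n (w n) m Q) :=
            Real.sqrt_le_sqrt (mul_le_mul_of_nonneg_left hle hmu)
    refine h1.trans ?_
    unfold HH
    apply Finset.sum_le_sum_of_subset_of_nonneg
    · intro Q hQ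
      rw [Finset.mem_filter] at hQ ⊢
      exact ⟨hQ.1, hQ.2.1⟩
    · intro Q _ _
      exact Real.sqrt_nonneg _

private theorem CL_fe (p : ℝ) (u : Pt → ℝ) (f : Pt) : 0 ≤ fe p u f := by
  unfold fe
  apply Finset.sum_nonneg
  intro e _
  exact Real.rpow_nonneg (abs_nonneg _) _

/-- the energy does not become singular -/
theorem p_CL (hCA : S_CA) (hCE : S_CE) (hCF : S_CF) (hCK : S_CK) : S_CL := by
  intro p hp D w C₀ hw0 hw1 hwC
  by_contra hcon
  push Not at hcon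
  -- constants
  obtain ⟨C, hC1, hC⟩ := hCE p hp D
  obtain ⟨k, hk, hkA⟩ := CL_k p D.A C C₀ hp D.hA
  have hk0 : (0 : ℝ) < k := by exact_mod_cast hk
  -- the bound of the densities
  obtain ⟨Lam, hLam0, hLamMono, hLam⟩ : ∃ Lam : ℕ → ℝ, (∀ n, 0 ≤ Lam n) ∧ Monotone Lam ∧
      ∀ n, ∀ P ∈ Kept n, fe p (w n) P ≤ Lam n * D.mu n P := by
    have hl0 : ∀ n : ℕ, 0 ≤ ∑ Q ∈ (cell n (0, 0)).filter (· ∈ Kept n),
        fe p (w n) Q / D.mu n Q := by
      intro n
      apply Finset.sum_nonneg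
      intro Q hQ
      exact div_nonneg (CL_fe p _ _) (D.mu_pos n Q (Finset.mem_filter.1 hQ).2).le
    refine ⟨fun n => ∑ j ∈ range (n + 1), ∑ Q ∈ (cell j (0, 0)).filter (· ∈ Kept j),
      fe p (w j) Q / D.mu j Q, ?_, ?_, ?_⟩
    · intro n
      exact Finset.sum_nonneg (fun j _ => hl0 j)
    · apply monotone_nat_of_le_succ
      intro n
      show _ ≤ ∑ j ∈ range (n + 1 + 1), _
      rw [Finset.sum_range_succ _ (n + 1)]
      exact le_add_of_nonneg_right (hl0 (n + 1))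
    · intro n P hP
      have hmu := D.mu_pos n P hP
      have h1 : fe p (w n) P / D.mu n P ≤ ∑ Q ∈ (cell n (0, 0)).filter (· ∈ Kept n),
          fe p (w n) Q / D.mu n Q := by
        apply Finset.single_le_sum (f := fun Q => fe p (w n) Q / D.mu n Q)
        · intro Q hQ
          exact div_nonneg (CL_fe p _ _) (D.mu_pos n Q (Finset.mem_filter.1 hQ).2).le
        · rw [Finset.mem_filter]
          exact ⟨hCA.2.2.2.2.2.1 n P hP, hP⟩
      have h2 : ∑ Q ∈ (cell n (0, 0)).filter (· ∈ Kept n), fe p (w n) Q / D.mu n Q ≤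
          ∑ j ∈ range (n + 1), ∑ Q ∈ (cell j (0, 0)).filter (· ∈ Kept j),
            fe p (w j) Q / D.mu j Q := by
        apply Finset.single_le_sum
          (f := fun j => ∑ Q ∈ (cell j (0, 0)).filter (· ∈ Kept j), fe p (w j) Q / D.mu j Q)
        · intro j _
          exact hl0 j
        · exact Finset.mem_range.2 (Nat.lt_succ_self n)
      have h3 := h1.trans h2
      rw [div_le_iff₀ hmu] at h3
      exact h3
  -- the sequence of levels
  have hnext : ∀ n : ℕ, ∃ q : ℕ × ℕ, q.1 ≤ q.2 ∧ n < q.2 ∧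
      HH D w q.1 q.2 < 1 / ((k : ℝ) ^ 2 * (1 + Lam n)) := by
    intro n
    have hpos : 0 < 1 / ((k : ℝ) ^ 2 * (1 + Lam n)) := by
      have := hLam0 n
      positivity
    obtain ⟨m, hm⟩ := hcon _ hpos
    obtain ⟨N, hN, hN2⟩ := hm (max m (n + 1))
    exact ⟨(m, N), le_trans (le_max_left _ _) hN,
      lt_of_lt_of_le (Nat.lt_succ_self n) (le_trans (le_max_right _ _) hN), hN2⟩
  choose nx hnx1 hnx2 hnx3 using hnext
  obtain ⟨s, hs0, hs1⟩ : ∃ s : ℕ → ℕ × ℕ, s 0 = nx 0 ∧ ∀ i, s (i + 1) = nx (s i).2 :=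
    ⟨fun i => Nat.rec (nx 0) (fun _ r => nx r.2) i, rfl, fun _ => rfl⟩
  have hmono : Monotone (fun i => (s i).2) := by
    apply monotone_nat_of_le_succ
    intro i
    show (s i).2 ≤ (s (i + 1)).2
    rw [hs1 i]
    exact (hnx2 _).le
  -- previous level
  obtain ⟨pn, hpn0, hpn1⟩ : ∃ pn : ℕ → ℕ, pn 0 = 0 ∧ ∀ i, pn (i + 1) = (s i).2 :=
    ⟨fun i => Nat.rec 0 (fun j _ => (s j).2) i, rfl, fun _ => rfl⟩
  have hspn : ∀ i, s i = nx (pn i) := by
    intro i
    cases i with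
    | zero => rw [hpn0, hs0]
    | succ i => rw [hpn1, hs1]
  have hpnle : ∀ j i, j < i → (s j).2 ≤ pn i := by
    intro j i hji
    cases i with
    | zero => omega
    | succ i =>
      rw [hpn1]
      exact hmono (Nat.lt_succ_iff.1 hji)
  -- h and its bounds
  have hh : ∀ j, 1 / ((k : ℝ) ^ 2 * (1 + Lam (pn j))) ≤ 1 / (k : ℝ) ^ 2 := by
    intro j
    have := hLam0 (pn j)
    apply one_div_le_one_div_of_le (by positivity)
    nlinarith [sq_nonneg (k : ℝ), mul_nonneg (sq_nonneg (k : ℝ)) this]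
  have hLh : ∀ j i, j < i →
      Lam (s j).2 * (1 / ((k : ℝ) ^ 2 * (1 + Lam (pn i)))) ≤ 1 / (k : ℝ) ^ 2 := by
    intro j i hji
    have h1 := hLamMono (hpnle j i hji)
    have h2 := hLam0 (pn i)
    have h3 := hLam0 (s j).2
    have h4 : (0 : ℝ) < 1 + Lam (pn i) := by linarith
    have h5 : Lam (s j).2 * (1 / ((k : ℝ) ^ 2 * (1 + Lam (pn i)))) =
        (Lam (s j).2 / (1 + Lam (pn i))) * (1 / (k : ℝ) ^ 2) := by
      field_simp
    rw [h5]
    have h6 : Lam (s j).2 / (1 + Lam (pn i)) ≤ 1 := by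
      rw [div_le_one h4]
      linarith
    have h7 : (0 : ℝ) ≤ 1 / (k : ℝ) ^ 2 := by positivity
    calc (Lam (s j).2 / (1 + Lam (pn i))) * (1 / (k : ℝ) ^ 2) ≤ 1 * (1 / (k : ℝ) ^ 2) :=
          mul_le_mul_of_nonneg_right h6 h7
      _ = 1 / (k : ℝ) ^ 2 := one_mul _
  -- the extensions
  have hF : ∀ j : ℕ, ∃ F : Pt → ℝ, j < k → (∀ i, F (0, i) = 0) ∧
      (∀ i, F ((3 : ℤ) ^ (s k).2, i) = 1) ∧ Ext D C (s j).2 (s k).2 (w (s j).2) F := by
    intro j
    by_cases hj : j < k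
    · obtain ⟨F, hF0, hF1, hFe⟩ := hC (s j).2 ((s k).2 - (s j).2) (w (s j).2)
      have he : (s j).2 + ((s k).2 - (s j).2) = (s k).2 :=
        Nat.add_sub_cancel' (hmono hj.le)
      rw [he] at hF1 hFe
      exact ⟨F, fun _ => ⟨hF0 (hw0 _), hF1 (hw1 _), hFe⟩⟩
    · exact ⟨fun _ => 0, fun h => absurd h hj⟩
  choose F hF' using hF
  have hmain := hCK p D C C₀ k (s k).2 (fun j => (s j).2) (fun j => (s j).1)
    (fun j => w (s j).2) F
    (fun j => {Q : Pt | D.mu (s j).1 Q ≤ GN p (s j).2 (w (s j).2) (s j).1 Q})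
    (fun j => 1 / ((k : ℝ) ^ 2 * (1 + Lam (pn j)))) (fun j => Lam (s j).2)
    hp.le hk (by linarith) (by
      intro j hj
      have hH : HH D w (s j).1 (s j).2 ≤ 1 / ((k : ℝ) ^ 2 * (1 + Lam (pn j))) := by
        have := hnx3 (pn j)
        rw [← hspn j] at this
        exact this.le
      have hm : (s j).1 ≤ (s j).2 := by
        rw [hspn j]
        exact hnx1 _
      have hhalf := CL_half D w hCF (s j).1 (s j).2
      exact ⟨hm, hmono hj.le, (hF' j hj).2.2, hLam0 _, hLam _, hwC _,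
        hhalf.1.trans hH, hhalf.2.trans hH⟩)
  have hcap := D.cap (s k).2 (fun x => (1 / (k : ℝ)) * ∑ j ∈ range k, F j x)
    (by
      intro j
      have : ∑ i ∈ range k, F i (0, j) = 0 :=
        Finset.sum_eq_zero (fun i hi => (hF' i (Finset.mem_range.1 hi)).1 j)
      show (1 / (k : ℝ)) * ∑ i ∈ range k, F i (0, j) = 0
      rw [this, mul_zero])
    (by
      intro j
      have : ∑ i ∈ range k, F i ((3 : ℤ) ^ (s k).2, j) = ∑ i ∈ range k, (1 : ℝ) :=
        Finset.sum_congr rfl (fun i hi => (hF' i (Finset.mem_range.1 hi)).2.1 j)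
      show (1 / (k : ℝ)) * ∑ i ∈ range k, F i ((3 : ℤ) ^ (s k).2, j) = 1
      rw [this, Finset.sum_const, Finset.card_range, nsmul_eq_mul]
      field_simp)
  have hfin := CL_fin p D.A C C₀ k hk (fun j => 1 / ((k : ℝ) ^ 2 * (1 + Lam (pn j))))
    (fun j => Lam (s j).2) (by linarith) hh hLh (hcap.trans hmain)
  linarith

end CarpetPI
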