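import Pool.Agent.Lib.MP_1d263a_an.PI.StmC

/-!
# MP_1d263a_an, project PI, part C: the piece CP (pigeonhole)
-/

open Finset
open scoped Classical

noncomputable section

namespace CarpetPI

private theorem cp_GN_nonneg (p : ℝ) (N : ℕ) (u : Pt → ℝ) (n : ℕ) (q : Pt) : 0 ≤ GN p N u n q := by
  unfold GN En fe
  exact Finset.sum_nonneg (fun f _ => Finset.sum_nonneg (fun e _ => Real.rpow_nonneg (abs_nonneg _) _))

theorem p_CP (hCH : S_CH) (hCL : S_CL) : S_CP := by
  intro p hp D w C₀ hw0 hw1 hC L ε hL hε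
  obtain ⟨h₀, hh₀, hN⟩ := hCL p hp D w C₀ hw0 hw1 hC
  obtain ⟨h1, h2, h3, h4⟩ := hCH
  obtain ⟨r, hr⟩ := exists_nat_gt (Real.sqrt (D.mu 0 (0, 0) * C₀) / (ε * h₀))
  have hεh : 0 < ε * h₀ := mul_pos hε hh₀
  have hr1 : Real.sqrt (D.mu 0 (0, 0) * C₀) < r * (ε * h₀) := by rwa [div_lt_iff₀ hεh] at hr
  obtain ⟨N₀, hN₀⟩ := hN (r * L)
  obtain ⟨N, hNN, hNr⟩ : ∃ N, N₀ ≤ N ∧ r * L ≤ N := ⟨max N₀ (r * L), le_max_left _ _, le_max_right _ _⟩
  have hHr : h₀ ≤ HH D w (r * L) N := hN₀ N hNN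
  have htel : ∑ i ∈ Finset.range r, (HH D w (i * L) N - HH D w ((i + 1) * L) N) =
      HH D w (0 * L) N - HH D w (r * L) N :=
    Finset.sum_range_sub' (fun i => HH D w (i * L) N) r
  have hle : HH D w (0 * L) N ≤ Real.sqrt (D.mu 0 (0, 0) * C₀) := by
    rw [zero_mul]
    exact h4 p D w C₀ N 0 (Nat.zero_le _) (hC N)
  obtain ⟨i, hir, hi⟩ : ∃ i, i < r ∧ HH D w (i * L) N - HH D w ((i + 1) * L) N ≤ ε * h₀ := by
    by_contra hcon
    push Not at hcon
    have h5 : ∑ i ∈ Finset.range r, ε * h₀ ≤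
        ∑ i ∈ Finset.range r, (HH D w (i * L) N - HH D w ((i + 1) * L) N) :=
      Finset.sum_le_sum (fun i hi => (hcon i (Finset.mem_range.mp hi)).le)
    rw [htel, Finset.sum_const, Finset.card_range, nsmul_eq_mul] at h5
    linarith
  have hir' : i + 1 ≤ r := hir
  have hiN : (i + 1) * L ≤ N := le_trans (Nat.mul_le_mul_right L hir') hNr
  have hiL : i * L + L ≤ N := by rwa [add_mul, one_mul] at hiN
  have hmono : HH D w (r * L) N ≤ HH D w (i * L) N := by
    have he : i * L + (r - i) * L = r * L := by rw [← add_mul, Nat.add_sub_cancel' hir.le]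
    have h5 := h3 p D w N (i * L) ((r - i) * L) (by rw [he]; exact hNr)
    rwa [he] at h5
  have hHi : h₀ ≤ HH D w (i * L) N := le_trans hHr hmono
  have hdiff : HH D w (i * L) N - HH D w (i * L + L) N ≤ ε * HH D w (i * L) N := by
    have he : (i + 1) * L = i * L + L := by rw [add_mul, one_mul]
    rw [he] at hi
    exact le_trans hi (mul_le_mul_of_nonneg_left hHi hε.le)
  rw [h2 p D w N (i * L) L hiL] at hdiff
  by_contra hcon
  push Not at hcon
  have hkey : ∀ Q ∈ Kept (i * L), 0 < GN p N (w N) (i * L) Q →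
      ε * Real.sqrt (D.mu (i * L) Q * GN p N (w N) (i * L) Q) <
        Real.sqrt (D.mu (i * L) Q * GN p N (w N) (i * L) Q) -
          ∑ Q' ∈ dsc (i * L) L Q, Real.sqrt (D.mu (i * L + L) Q' * GN p N (w N) (i * L + L) Q') :=
    fun Q hQ hG => hcon N (i * L) Q hiL hQ hG
  have hlt : ∑ Q ∈ (cell (i * L) (0, 0)).filter (· ∈ Kept (i * L)),
      ε * Real.sqrt (D.mu (i * L) Q * GN p N (w N) (i * L) Q) <
      ∑ Q ∈ (cell (i * L) (0, 0)).filter (· ∈ Kept (i * L)),
        (Real.sqrt (D.mu (i * L) Q * GN p N (w N) (i * L) Q) -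
          ∑ Q' ∈ dsc (i * L) L Q, Real.sqrt (D.mu (i * L + L) Q' * GN p N (w N) (i * L + L) Q')) := by
    apply Finset.sum_lt_sum
    · intro Q hQ
      have hQK : Q ∈ Kept (i * L) := (Finset.mem_filter.mp hQ).2
      rcases (cp_GN_nonneg p N (w N) (i * L) Q).lt_or_eq with hG | hG
      · exact (hkey Q hQK hG).le
      · have h5 := h1 p D N (i * L) L (w N) hiL Q hQK
        rw [← hG, mul_zero, Real.sqrt_zero] at h5 ⊢
        rw [mul_zero]
        linarith
    · by_contra hno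
      push Not at hno
      have hz : HH D w (i * L) N ≤ 0 := by
        unfold HH
        apply Finset.sum_nonpos
        intro Q hQ
        have hQK : Q ∈ Kept (i * L) := (Finset.mem_filter.mp hQ).2
        rcases (cp_GN_nonneg p N (w N) (i * L) Q).lt_or_eq with hG | hG
        · exact absurd (hkey Q hQK hG) (not_lt.mpr (hno Q hQ))
        · rw [← hG, mul_zero, Real.sqrt_zero]
      linarith
  rw [← Finset.mul_sum, Finset.sum_sub_distrib] at hlt
  unfold HH at hdiff
  linarith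

end CarpetPI
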