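import Pool.Agent.Lib.MP_1d263a_an.PI.StmC

/-!
# CQ: near-constancy of the energy density
-/

set_option autoImplicit false

open Finset
open scoped Classical

noncomputable section

namespace CarpetPI

private lemma p_CQ_key {ι : Type*} (s : Finset ι) (m g : ι → ℝ) (M G c δ : ℝ)
    (hm : ∀ i ∈ s, 0 ≤ m i) (hg : ∀ i ∈ s, 0 ≤ g i) (hM : 0 < M) (hG : 0 < G)
    (hδ : 0 < δ) (hδ1 : δ < 1) (sm : M = ∑ i ∈ s, m i) (sg : G = ∑ i ∈ s, g i)
    (h : Real.sqrt (M * G) - ∑ i ∈ s, Real.sqrt (m i * g i) ≤ c * δ ^ 2 / 2 * Real.sqrt (M * G))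
    (hcm : ∀ i ∈ s, c * M ≤ m i) (i : ι) (hi : i ∈ s) :
    (1 - δ) ^ 2 * (G / M * m i) ≤ g i ∧ g i ≤ (1 + δ) ^ 2 * (G / M * m i) := by
  have hα : 0 < Real.sqrt M := Real.sqrt_pos.mpr hM
  have hβ : 0 < Real.sqrt G := Real.sqrt_pos.mpr hG
  have hα2 : Real.sqrt M ^ 2 = M := Real.sq_sqrt hM.le
  have hβ2 : Real.sqrt G ^ 2 = G := Real.sq_sqrt hG.le
  set α := Real.sqrt M with hαd
  set β := Real.sqrt G with hβd
  set x : ι → ℝ := fun j => Real.sqrt (m j) / α with hx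
  set y : ι → ℝ := fun j => Real.sqrt (g j) / β with hy
  have hx2 : ∀ j ∈ s, x j ^ 2 = m j / M := by
    intro j hj
    simp only [hx]
    rw [div_pow, Real.sq_sqrt (hm j hj), hα2]
  have hy2 : ∀ j ∈ s, y j ^ 2 = g j / G := by
    intro j hj
    simp only [hy]
    rw [div_pow, Real.sq_sqrt (hg j hj), hβ2]
  have sx : ∑ j ∈ s, x j ^ 2 = 1 := by
    rw [Finset.sum_congr rfl hx2, ← Finset.sum_div, ← sm, div_self hM.ne']
  have sy : ∑ j ∈ s, y j ^ 2 = 1 := by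
    rw [Finset.sum_congr rfl hy2, ← Finset.sum_div, ← sg, div_self hG.ne']
  have sxy : 1 - c * δ ^ 2 / 2 ≤ ∑ j ∈ s, x j * y j := by
    have e1 : ∑ j ∈ s, x j * y j = (∑ j ∈ s, Real.sqrt (m j * g j)) / (α * β) := by
      rw [Finset.sum_div]
      refine Finset.sum_congr rfl fun j hj => ?_
      simp only [hx, hy]
      rw [Real.sqrt_mul (hm j hj)]
      field_simp
    rw [e1, le_div_iff₀ (mul_pos hα hβ)]
    rw [Real.sqrt_mul hM.le] at h
    linarith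
  have sd : ∑ j ∈ s, (x j - y j) ^ 2 ≤ c * δ ^ 2 := by
    have e1 : ∑ j ∈ s, (x j - y j) ^ 2 =
        ∑ j ∈ s, x j ^ 2 + ∑ j ∈ s, y j ^ 2 - 2 * ∑ j ∈ s, x j * y j := by
      rw [Finset.mul_sum, ← Finset.sum_add_distrib, ← Finset.sum_sub_distrib]
      refine Finset.sum_congr rfl fun j _ => ?_
      ring
    rw [e1, sx, sy]
    linarith
  have hi2 : (x i - y i) ^ 2 ≤ (δ * x i) ^ 2 := by
    have e1 : (x i - y i) ^ 2 ≤ ∑ j ∈ s, (x j - y j) ^ 2 :=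
      Finset.single_le_sum (f := fun j => (x j - y j) ^ 2) (fun j _ => sq_nonneg _) hi
    have e2 : c ≤ x i ^ 2 := by
      rw [hx2 i hi, le_div_iff₀ hM]
      exact hcm i hi
    calc (x i - y i) ^ 2 ≤ c * δ ^ 2 := e1.trans sd
      _ ≤ x i ^ 2 * δ ^ 2 := by gcongr
      _ = (δ * x i) ^ 2 := by ring
  have hxi : 0 ≤ x i := by simp only [hx]; positivity
  have hyi : 0 ≤ y i := by simp only [hy]; positivity
  have habs : |x i - y i| ≤ δ * x i := abs_le_of_sq_le_sq hi2 (by positivity)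
  rw [abs_le] at habs
  have l1 : (1 - δ) * x i ≤ y i := by linarith [habs.2]
  have l2 : y i ≤ (1 + δ) * x i := by linarith [habs.1]
  have q1 : ((1 - δ) * x i) ^ 2 ≤ y i ^ 2 :=
    pow_le_pow_left₀ (mul_nonneg (by linarith) hxi) l1 2
  have q2 : y i ^ 2 ≤ ((1 + δ) * x i) ^ 2 := pow_le_pow_left₀ hyi l2 2
  rw [mul_pow, hx2 i hi, hy2 i hi] at q1 q2
  constructor
  · rw [le_div_iff₀ hG] at q1
    calc (1 - δ) ^ 2 * (G / M * m i) = (1 - δ) ^ 2 * (m i / M) * G := by ring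
      _ ≤ g i := q1
  · rw [div_le_iff₀ hG] at q2
    calc g i ≤ (1 + δ) ^ 2 * (m i / M) * G := q2
      _ = (1 + δ) ^ 2 * (G / M * m i) := by ring

private lemma p_CQ_cell (s t : ℕ) (q q' f : Pt) (h1 : q' ∈ cell s q) (h2 : f ∈ cell t q') :
    f ∈ cell (s + t) q := by
  unfold cell box at h1 h2 ⊢
  rw [Finset.mem_product, Finset.mem_Ico, Finset.mem_Ico] at h1 h2 ⊢
  obtain ⟨⟨a1, a2⟩, ⟨a3, a4⟩⟩ := h1
  obtain ⟨⟨b1, b2⟩, ⟨b3, b4⟩⟩ := h2
  have ht : (0 : ℤ) < 3 ^ t := by positivity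
  have a2' : q'.1 + 1 ≤ (q.1 + 1) * 3 ^ s := by omega
  have a4' : q'.2 + 1 ≤ (q.2 + 1) * 3 ^ s := by omega
  have c1 := mul_le_mul_of_nonneg_right a1 ht.le
  have c2 := mul_le_mul_of_nonneg_right a2' ht.le
  have c3 := mul_le_mul_of_nonneg_right a3 ht.le
  have c4 := mul_le_mul_of_nonneg_right a4' ht.le
  rw [pow_add, ← mul_assoc, ← mul_assoc, ← mul_assoc, ← mul_assoc]
  exact ⟨⟨c1.trans b1, b2.trans_le c2⟩, ⟨c3.trans b3, b4.trans_le c4⟩⟩

theorem p_CQ (_hCA : S_CA) (hCC : S_CC) (hCF : S_CF) (hCP : S_CP) : S_CQ := by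
  intro p hp D w C₀ hw0 hw1 hwE L lam hlam
  obtain ⟨C, hC1, -, -, hC3, -⟩ := hCC p hp D
  obtain ⟨hF1, hF2, hF3⟩ := hCF
  have hlam0 : 0 < lam := by linarith
  -- the constants
  set r : ℝ := Real.sqrt lam with hr
  have hr2 : r ^ 2 = lam := Real.sq_sqrt hlam0.le
  have hr1 : 1 < r := by
    rw [hr, Real.lt_sqrt (by norm_num)]
    linarith
  have hr0 : 0 < r := by linarith
  set δ : ℝ := 1 - 1 / r with hδ
  have hri : 1 / r < 1 := by rw [div_lt_one hr0]; exact hr1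
  have hri0 : 0 < 1 / r := by positivity
  have hδ0 : 0 < δ := by rw [hδ]; linarith
  have hδ1 : δ < 1 := by rw [hδ]; linarith
  have d1 : (1 - δ) ^ 2 = 1 / lam := by
    rw [hδ, ← hr2]
    rw [show 1 - (1 - 1 / r) = 1 / r by ring, one_div, one_div, inv_pow]
  have d2 : (1 + δ) ^ 2 ≤ lam := by
    have e1 : 1 + δ ≤ r := by
      rw [hδ]
      have e2 : r * (1 / r) = 1 := by field_simp
      nlinarith [sq_nonneg (r - 1)]
    rw [← hr2]
    exact pow_le_pow_left₀ (by linarith) e1 2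
  set c : ℝ := (C ^ (L + 1))⁻¹ with hc
  have hC0 : 0 < C ^ (L + 1) := pow_pos (by linarith) _
  have hc0 : 0 < c := inv_pos.mpr hC0
  obtain ⟨N, n, Q, hnN, hQ, hG, hmain⟩ := hCP p hp D w C₀ hw0 hw1 hwE (L + 1) (c * δ ^ 2 / 2)
    (by omega) (by positivity)
  have hM : 0 < D.mu n Q := D.mu_pos n Q hQ
  have hsub : ∀ s : ℕ, s ≤ L + 1 → ∀ q' ∈ cell s Q, ∀ Q' ∈ dsc (n + s) (L + 1 - s) q',
      Q' ∈ dsc n (L + 1) Q := by
    intro s hs q' hq' Q' hQ'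
    unfold dsc at hQ' ⊢
    rw [Finset.mem_filter] at hQ' ⊢
    have e1 : s + (L + 1 - s) = L + 1 := by omega
    have e2 : n + s + (L + 1 - s) = n + (L + 1) := by omega
    have h1 := p_CQ_cell s (L + 1 - s) Q q' Q' hq' hQ'.1
    rw [e1] at h1
    have h2 := hQ'.2
    rw [e2] at h2
    exact ⟨h1, h2⟩
  have hkept : ∀ Q' ∈ dsc n (L + 1) Q, Q' ∈ Kept (n + (L + 1)) := by
    intro Q' hQ'
    unfold dsc at hQ'
    exact (Finset.mem_filter.mp hQ').2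
  have key := p_CQ_key (dsc n (L + 1) Q) (fun Q' => D.mu (n + (L + 1)) Q')
    (fun Q' => GN p N (w N) (n + (L + 1)) Q') (D.mu n Q) (GN p N (w N) n Q) c δ
    (fun Q' hQ' => (D.mu_pos _ Q' (hkept Q' hQ')).le) (fun Q' _ => hF3 p N _ _ Q') hM hG hδ0 hδ1
    (hF1 p D n (L + 1) Q hQ) (hF2 p N n (L + 1) (w N) Q hnN) hmain
    (fun Q' hQ' => by
      have e := hC3 (L + 1) n Q hQ Q' hQ'
      rw [hc, inv_mul_le_iff₀ hC0]
      exact e)
  set θ : ℝ := GN p N (w N) n Q / D.mu n Q with hθ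
  have hθ0 : 0 < θ := div_pos hG hM
  refine ⟨N, n, Q, θ, by omega, hQ, hθ0, fun s hs q' hq'K hq' => ?_⟩
  have e2 : n + s + (L + 1 - s) = n + (L + 1) := by omega
  have g1 := hF2 p N (n + s) (L + 1 - s) (w N) q' (by omega)
  have g2 := hF1 p D (n + s) (L + 1 - s) q' hq'K
  rw [e2] at g1 g2
  change θ / lam * D.mu (n + s) q' ≤ GN p N (w N) (n + s) q' ∧
    GN p N (w N) (n + s) q' ≤ lam * θ * D.mu (n + s) q'
  rw [g1, g2, Finset.mul_sum, Finset.mul_sum]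
  constructor
  · refine Finset.sum_le_sum fun Q' hQ' => ?_
    have hQ'' := hsub s (by omega) q' hq' Q' hQ'
    have k := (key Q' hQ'').1
    rw [d1] at k
    calc θ / lam * D.mu (n + (L + 1)) Q' = 1 / lam * (θ * D.mu (n + (L + 1)) Q') := by ring
      _ ≤ _ := k
  · refine Finset.sum_le_sum fun Q' hQ' => ?_
    have hQ'' := hsub s (by omega) q' hq' Q' hQ'
    have k := (key Q' hQ'').2
    have hmu : 0 ≤ θ * D.mu (n + (L + 1)) Q' :=
      mul_nonneg hθ0.le (D.mu_pos _ Q' (hkept Q' hQ'')).le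
    calc GN p N (w N) (n + (L + 1)) Q' ≤ (1 + δ) ^ 2 * (θ * D.mu (n + (L + 1)) Q') := k
      _ ≤ lam * (θ * D.mu (n + (L + 1)) Q') := mul_le_mul_of_nonneg_right d2 hmu
      _ = lam * θ * D.mu (n + (L + 1)) Q' := by ring

end CarpetPI
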