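import Pool.Agent.Lib.MP_1d263a_an.PI.CZ
import Pool.Agent.Lib.MP_1d263a_an.PI.CA
import Pool.Agent.Lib.MP_1d263a_an.PI.CB
import Pool.Agent.Lib.MP_1d263a_an.PI.CC
import Pool.Agent.Lib.MP_1d263a_an.PI.CD
import Pool.Agent.Lib.MP_1d263a_an.PI.CF
import Pool.Agent.Lib.MP_1d263a_an.PI.CE
import Pool.Agent.Lib.MP_1d263a_an.PI.CG
import Pool.Agent.Lib.MP_1d263a_an.PI.CH
import Pool.Agent.Lib.MP_1d263a_an.PI.CI
import Pool.Agent.Lib.MP_1d263a_an.PI.CJ
import Pool.Agent.Lib.MP_1d263a_an.PI.CK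
import Pool.Agent.Lib.MP_1d263a_an.PI.CL
import Pool.Agent.Lib.MP_1d263a_an.PI.CP
import Pool.Agent.Lib.MP_1d263a_an.PI.CQ

/-!
# MP_1d263a_an, project PI, part C: all pieces together
-/

open Finset
open scoped Classical

namespace CarpetPI

theorem t_CA : S_CA := p_CA

theorem t_CB : S_CB := p_CB t_CA

theorem t_CC : S_CC := p_CC t_CA t_CB

theorem t_CD : S_CD := p_CD t_CB

theorem t_CF : S_CF := p_CF t_CA

theorem t_CE : S_CE := p_CE t_CA t_CB t_CC t_CD t_CF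

theorem t_CG : S_CG := p_CG t_CE

theorem t_CH : S_CH := p_CH t_CA t_CF

theorem t_CI : S_CI := p_CI t_CA t_CF

theorem t_CJ : S_CJ := p_CJ

theorem t_CK : S_CK := p_CK t_CA t_CF t_CI t_CJ

theorem t_CL : S_CL := p_CL t_CA t_CE t_CF t_CK

theorem t_CP : S_CP := p_CP t_CH t_CL

theorem t_CQ : S_CQ := p_CQ t_CA t_CC t_CF t_CP

/-- the exponent is less than two -/
theorem t_lt_two {p : ℝ} (D : Dat p) : p < 2 := p_lt_two t_CA D

end CarpetPI
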