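import Pool.Agent.Lib.MP_1d263a_an.PI.StmD

/-!
# MP_1d263a_an, project PI, piece DA (helper9): geometry of cells, ancestors, deep cells
-/

open Finset
open scoped Classical

noncomputable section

namespace CarpetPI

private theorem DA_pow_pos (t : ℕ) : (0 : ℤ) < 3 ^ t := by positivity

private theorem DA_mem_box (f : Pt) (a b c d : ℤ) :
    f ∈ box a b c d ↔ (a ≤ f.1 ∧ f.1 < b) ∧ (c ≤ f.2 ∧ f.2 < d) := by
  unfold box
  rw [Finset.mem_product, Finset.mem_Ico, Finset.mem_Ico]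

private theorem DA_div (a b : ℤ) (t : ℕ) :
    b * 3 ^ t ≤ a ↔ b ≤ a / 3 ^ t := by
  rw [Int.le_ediv_iff_mul_le (DA_pow_pos t)]

private theorem DA_div' (a b : ℤ) (t : ℕ) :
    a < b * 3 ^ t ↔ a / 3 ^ t < b := by
  rw [Int.ediv_lt_iff_lt_mul (DA_pow_pos t)]

private theorem DA_one : ∀ (N t : ℕ), t ≤ N → ∀ f ∈ Kept N, up t f ∈ Kept (N - t) := by
  intro N t ht f hf
  obtain ⟨h1, h2, h3, h4, h5⟩ := hf
  have hp : (3 : ℤ) ^ (N - t) * 3 ^ t = 3 ^ N := by
    rw [← pow_add, Nat.sub_add_cancel ht]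
  refine ⟨?_, ?_, ?_, ?_, ?_⟩
  · exact Int.ediv_nonneg h1 (DA_pow_pos t).le
  · show f.1 / 3 ^ t < 3 ^ (N - t)
    rw [← DA_div', hp]
    exact h2
  · exact Int.ediv_nonneg h3 (DA_pow_pos t).le
  · show f.2 / 3 ^ t < 3 ^ (N - t)
    rw [← DA_div', hp]
    exact h4
  · intro k hk
    have e1 : ∀ a : ℤ, a / 3 ^ t / 3 ^ k = a / 3 ^ (t + k) := by
      intro a
      rw [pow_add, Int.ediv_ediv_of_nonneg (DA_pow_pos t).le]
    show ¬ (f.1 / 3 ^ t / 3 ^ k % 3 = 1 ∧ f.2 / 3 ^ t / 3 ^ k % 3 = 1)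
    rw [e1, e1]
    exact h5 (t + k) (by omega)

private theorem DA_two (t : ℕ) (f q : Pt) : f ∈ cell t q ↔ up t f = q := by
  unfold cell
  rw [DA_mem_box, DA_div, DA_div', DA_div, DA_div']
  unfold up
  rw [Prod.ext_iff]
  simp only
  omega

private theorem DA_deep (m t T : ℕ) (Q q : Pt) (hD : Deep m t T Q q) :
    Q.1 * 3 ^ (T - t) ≤ q.1 - m ∧ q.1 + m + 1 ≤ (Q.1 + 1) * 3 ^ (T - t) ∧
    Q.2 * 3 ^ (T - t) ≤ q.2 - m ∧ q.2 + m + 1 ≤ (Q.2 + 1) * 3 ^ (T - t) := by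
  have key : ∀ f : Pt, dis f q ≤ m → (Q.1 * 3 ^ (T - t) ≤ f.1 ∧ f.1 < (Q.1 + 1) * 3 ^ (T - t)) ∧
      (Q.2 * 3 ^ (T - t) ≤ f.2 ∧ f.2 < (Q.2 + 1) * 3 ^ (T - t)) := by
    intro f hf
    have := hD f hf
    unfold cell at this
    rwa [DA_mem_box] at this
  have hm : (0 : ℤ) ≤ m := Int.natCast_nonneg m
  have h1 := key (q.1 - m, q.2) (by simp [dis])
  have h2 := key (q.1 + m, q.2) (by simp [dis])
  have h3 := key (q.1, q.2 - m) (by simp [dis])
  have h4 := key (q.1, q.2 + m) (by simp [dis])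
  simp only at h1 h2 h3 h4
  refine ⟨h1.1.1, ?_, h3.2.1, ?_⟩
  · have := h2.1.2
    omega
  · have := h4.2.2
    omega

private theorem DA_mul (a b : ℤ) (t T : ℕ) (ht : t ≤ T) (h : a * 3 ^ (T - t) ≤ b) :
    a * 3 ^ T ≤ b * 3 ^ t := by
  have h1 := mul_le_mul_of_nonneg_right h (DA_pow_pos t).le
  rwa [mul_assoc, ← pow_add, Nat.sub_add_cancel ht] at h1

private theorem DA_mul' (a b : ℤ) (t T : ℕ) (ht : t ≤ T) (h : b ≤ a * 3 ^ (T - t)) :
    b * 3 ^ t ≤ a * 3 ^ T := by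
  have h1 := mul_le_mul_of_nonneg_right h (DA_pow_pos t).le
  rwa [mul_assoc, ← pow_add, Nat.sub_add_cancel ht] at h1

/-- **DA.** geometry of cells -/
theorem p_DA : S_DA := by
  refine ⟨DA_one, DA_two, ?_, ?_, ?_, ?_, ?_, ?_⟩
  · intro m t T Q q ht hD x hx
    obtain ⟨h1, h2, h3, h4⟩ := DA_deep m t T Q q hD
    obtain ⟨x1, x2, x3, x4⟩ := hx
    exact ⟨(DA_mul _ _ _ _ ht h1).trans x1, x2.trans (DA_mul' _ _ _ _ ht h2),
      (DA_mul _ _ _ _ ht h3).trans x3, x4.trans (DA_mul' _ _ _ _ ht h4)⟩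
  · intro m t T Q q ht hD x hx
    obtain ⟨h1, h2, h3, h4⟩ := DA_deep m t T Q q hD
    unfold nb at hx
    rw [DA_mem_box] at hx
    obtain ⟨⟨x1, x2⟩, x3, x4⟩ := hx
    unfold cell
    rw [DA_mem_box]
    exact ⟨⟨(DA_mul _ _ _ _ ht h1).trans x1, x2.trans_le (DA_mul' _ _ _ _ ht h2)⟩,
      (DA_mul _ _ _ _ ht h3).trans x3, x4.trans_le (DA_mul' _ _ _ _ ht h4)⟩
  · intro m N t q φ ht
    rw [← Finset.sum_fiberwise_of_maps_to (s := (nb m t q).filter (· ∈ Kept N))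
      (t := (nb m 0 q).filter (· ∈ Kept (N - t))) (g := up t)]
    · refine Finset.sum_congr rfl fun g hg => ?_
      refine Finset.sum_congr ?_ fun _ _ => rfl
      ext f
      simp only [Finset.mem_filter, DA_two]
      constructor
      · rintro ⟨⟨-, h2⟩, h3⟩
        exact ⟨h3, h2⟩
      · rintro ⟨h3, h2⟩
        refine ⟨⟨?_, h2⟩, h3⟩
        rw [Finset.mem_filter] at hg
        have hg1 := hg.1
        unfold nb at hg1 ⊢
        rw [DA_mem_box] at hg1 ⊢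
        rw [DA_div, DA_div', DA_div, DA_div']
        rw [← h3] at hg1
        unfold up at hg1
        simpa using hg1
    · intro f hf
      rw [Finset.mem_filter] at hf ⊢
      refine ⟨?_, DA_one N t ht f hf.2⟩
      have hf1 := hf.1
      unfold nb at hf1 ⊢
      rw [DA_mem_box] at hf1 ⊢
      rw [DA_div, DA_div', DA_div, DA_div'] at hf1
      unfold up
      simpa using hf1
  · intro m t q f x hf hx
    unfold nb at hf
    rw [DA_mem_box] at hf
    obtain ⟨⟨f1, f2⟩, f3, f4⟩ := hf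
    obtain ⟨x1, x2⟩ := hx
    refine ⟨?_, ?_, ?_, ?_⟩
    · rcases x1 with h | h <;> omega
    · rcases x1 with h | h <;> omega
    · rcases x2 with h | h <;> omega
    · rcases x2 with h | h <;> omega
  · intro f e he
    unfold sides at he
    simp only [Finset.mem_insert, Finset.mem_singleton] at he
    rcases he with rfl | rfl | rfl | rfl <;> simp [IsCor, tl, hd, lf, rf]
  · rintro K ⟨b, x⟩ he
    rcases he with he | he
    · refine ⟨_, he, ?_⟩
      cases b <;> simp [sides, lf]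
    · refine ⟨_, he, ?_⟩
      cases b <;> simp [sides, rf]

end CarpetPI
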