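import Pool.Agent.Lib.MP_1d263a_an.PI.StmD

/-!
# MP_1d263a_an, project PI, piece DB: the network of the carpet is connected
-/

open Finset
open scoped Classical

noncomputable section

namespace CarpetPI

theorem DB_dig (N k : ℕ) (c g : ℤ) (hk : k < N) : (c * 3 ^ N + g) / 3 ^ k % 3 = g / 3 ^ k % 3 := by
  obtain ⟨j, rfl⟩ : ∃ j, N = k + j + 1 := ⟨N - k - 1, by omega⟩
  have h1 : c * 3 ^ (k + j + 1) + g = g + c * 3 ^ j * 3 * 3 ^ k := by ring
  rw [h1, Int.add_mul_ediv_right _ _ (by positivity), Int.add_mul_emod_self_right]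

theorem DB_top (N : ℕ) (c g : ℤ) (h0 : 0 ≤ g) (h1 : g < 3 ^ N) : (c * 3 ^ N + g) / 3 ^ N = c := by
  rw [add_comm, Int.add_mul_ediv_right _ _ (by positivity), Int.ediv_eq_zero_of_lt h0 h1, zero_add]

/-- translation of a face into the child `c` -/
def DB_tr (N : ℕ) (c g : Pt) : Pt := (c.1 * 3 ^ N + g.1, c.2 * 3 ^ N + g.2)

theorem DB_kids (c : Pt) : c ∈ kids ↔
    0 ≤ c.1 ∧ c.1 < 3 ∧ 0 ≤ c.2 ∧ c.2 < 3 ∧ ¬ (c.1 = 1 ∧ c.2 = 1) := by
  obtain ⟨x, y⟩ := c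
  simp only [kids, box, Finset.mem_erase, Finset.mem_product, Finset.mem_Ico, ne_eq,
    Prod.mk.injEq]
  tauto

theorem DB_up {N : ℕ} {c g : Pt} (hc : c ∈ kids) (hg : g ∈ Kept N) : DB_tr N c g ∈ Kept (N + 1) := by
  rw [DB_kids] at hc
  obtain ⟨c1, c2, c3, c4, c5⟩ := hc
  obtain ⟨g1, g2, g3, g4, g5⟩ := hg
  have hp : (0 : ℤ) < 3 ^ N := by positivity
  refine ⟨?_, ?_, ?_, ?_, ?_⟩
  · show 0 ≤ c.1 * 3 ^ N + g.1
    positivity
  · show c.1 * 3 ^ N + g.1 < 3 ^ (N + 1)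
    rw [pow_succ]
    nlinarith
  · show 0 ≤ c.2 * 3 ^ N + g.2
    positivity
  · show c.2 * 3 ^ N + g.2 < 3 ^ (N + 1)
    rw [pow_succ]
    nlinarith
  · intro k hk
    rcases Nat.lt_succ_iff_lt_or_eq.1 hk with h | rfl
    · have := g5 k h
      simp only [DB_tr, DB_dig _ _ _ _ h]
      exact this
    · simp only [DB_tr, DB_top _ _ _ g1 g2, DB_top _ _ _ g3 g4]
      rintro ⟨a1, a2⟩
      exact c5 ⟨by omega, by omega⟩

theorem DB_down {N : ℕ} {f : Pt} (hf : f ∈ Kept (N + 1)) :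
    ∃ c ∈ kids, ∃ g ∈ Kept N, DB_tr N c g = f := by
  obtain ⟨f1, f2, f3, f4, f5⟩ := hf
  have hp : (0 : ℤ) < 3 ^ N := by positivity
  have e1 : f.1 / 3 ^ N * 3 ^ N + f.1 % 3 ^ N = f.1 := by
    rw [mul_comm]
    exact Int.mul_ediv_add_emod f.1 (3 ^ N)
  have e2 : f.2 / 3 ^ N * 3 ^ N + f.2 % 3 ^ N = f.2 := by
    rw [mul_comm]
    exact Int.mul_ediv_add_emod f.2 (3 ^ N)
  have b1 : f.1 / 3 ^ N < 3 := by
    refine Int.ediv_lt_of_lt_mul hp ?_
    rw [pow_succ, mul_comm] at f2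
    exact f2
  have b2 : f.2 / 3 ^ N < 3 := by
    refine Int.ediv_lt_of_lt_mul hp ?_
    rw [pow_succ, mul_comm] at f4
    exact f4
  refine ⟨(f.1 / 3 ^ N, f.2 / 3 ^ N), ?_, (f.1 % 3 ^ N, f.2 % 3 ^ N), ?_, Prod.ext e1 e2⟩
  · rw [DB_kids]
    refine ⟨Int.ediv_nonneg f1 hp.le, b1, Int.ediv_nonneg f3 hp.le, b2, ?_⟩
    rintro ⟨a1, a2⟩
    simp only at a1 a2
    exact f5 N (Nat.lt_succ_self N) ⟨by rw [a1]; norm_num, by rw [a2]; norm_num⟩
  · refine ⟨Int.emod_nonneg _ hp.ne', Int.emod_lt_of_pos _ hp, Int.emod_nonneg _ hp.ne',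
      Int.emod_lt_of_pos _ hp, ?_⟩
    intro k hk
    have h1 := DB_dig N k (f.1 / 3 ^ N) (f.1 % 3 ^ N) hk
    have h2 := DB_dig N k (f.2 / 3 ^ N) (f.2 % 3 ^ N) hk
    rw [e1] at h1
    rw [e2] at h2
    simp only [← h1, ← h2]
    exact f5 k (hk.trans (Nat.lt_succ_self N))

/-- adjacency of faces with a common corner -/
def DB_R (N : ℕ) (a b : Pt) : Prop := a ∈ Kept N ∧ b ∈ Kept N ∧ |a.1 - b.1| ≤ 1 ∧ |a.2 - b.2| ≤ 1

theorem DB_symm (N : ℕ) : Std.Symm (DB_R N) := by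
  constructor
  rintro a b ⟨h1, h2, h3, h4⟩
  exact ⟨h2, h1, by rwa [abs_sub_comm], by rwa [abs_sub_comm]⟩

theorem DB_rev {N : ℕ} {a b : Pt} (h : Relation.ReflTransGen (DB_R N) a b) :
    Relation.ReflTransGen (DB_R N) b a := by
  induction h with
  | refl => exact Relation.ReflTransGen.refl
  | tail _ h2 ih => exact Relation.ReflTransGen.head ((DB_symm N).symm _ _ h2) ih

theorem DB_lift {N : ℕ} {c a b : Pt} (hc : c ∈ kids) (h : Relation.ReflTransGen (DB_R N) a b) :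
    Relation.ReflTransGen (DB_R (N + 1)) (DB_tr N c a) (DB_tr N c b) := by
  induction h with
  | refl => exact Relation.ReflTransGen.refl
  | @tail x y _ h2 ih =>
    obtain ⟨h1, h2, h3, h4⟩ := h2
    refine ih.tail ⟨DB_up hc h1, DB_up hc h2, ?_, ?_⟩
    · have : (DB_tr N c x).1 - (DB_tr N c y).1 = x.1 - y.1 := by simp only [DB_tr]; ring
      rw [this]; exact h3
    · have : (DB_tr N c x).2 - (DB_tr N c y).2 = x.2 - y.2 := by simp only [DB_tr]; ring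
      rw [this]; exact h4

theorem DB_zero (N : ℕ) : ((0, 0) : Pt) ∈ Kept N := by
  refine ⟨le_rfl, by positivity, le_rfl, by positivity, ?_⟩
  intro k _ h
  simp at h

theorem DB_right (N : ℕ) : ((3 ^ N - 1, 0) : Pt) ∈ Kept N := by
  have hp : (0 : ℤ) < 3 ^ N := by positivity
  refine ⟨?_, ?_, le_rfl, by positivity, ?_⟩
  · show (0 : ℤ) ≤ 3 ^ N - 1
    omega
  · show (3 : ℤ) ^ N - 1 < 3 ^ N
    omega
  intro k _ h
  simp at h

theorem DB_upper (N : ℕ) : ((0, 3 ^ N - 1) : Pt) ∈ Kept N := by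
  have hp : (0 : ℤ) < 3 ^ N := by positivity
  refine ⟨le_rfl, by positivity, ?_, ?_, ?_⟩
  · show (0 : ℤ) ≤ 3 ^ N - 1
    omega
  · show (3 : ℤ) ^ N - 1 < 3 ^ N
    omega
  intro k _ h
  simp at h

theorem DB_faces : ∀ N : ℕ, ∀ f ∈ Kept N, Relation.ReflTransGen (DB_R N) (0, 0) f := by
  intro N
  induction N with
  | zero =>
    intro f hf
    obtain ⟨h1, h2, h3, h4, -⟩ := hf
    have e : f = (0, 0) := by
      refine Prod.ext ?_ ?_
      · show f.1 = 0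
        rw [pow_zero] at h2
        omega
      · show f.2 = 0
        rw [pow_zero] at h4
        omega
    rw [e]
  | succ N ih =>
    have hp : (0 : ℤ) < 3 ^ N := by positivity
    -- from a child to the child on the right
    have stepR : ∀ x y : ℤ, ((x, y) : Pt) ∈ kids → ((x + 1, y) : Pt) ∈ kids →
        Relation.ReflTransGen (DB_R (N + 1)) (DB_tr N (x, y) (0, 0)) (DB_tr N (x + 1, y) (0, 0)) := by
      intro x y h1 h2
      refine (DB_lift h1 (ih _ (DB_right N))).tail ?_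
      refine ⟨DB_up h1 (DB_right N), DB_up h2 (DB_zero N), ?_, ?_⟩
      · have : (DB_tr N (x, y) (3 ^ N - 1, 0)).1 - (DB_tr N (x + 1, y) (0, 0)).1 = -1 := by
          simp only [DB_tr]; ring
        rw [this]; norm_num
      · have : (DB_tr N (x, y) (3 ^ N - 1, 0)).2 - (DB_tr N (x + 1, y) (0, 0)).2 = 0 := by
          simp only [DB_tr]; ring
        rw [this]; norm_num
    have stepU : ∀ x y : ℤ, ((x, y) : Pt) ∈ kids → ((x, y + 1) : Pt) ∈ kids →
        Relation.ReflTransGen (DB_R (N + 1)) (DB_tr N (x, y) (0, 0)) (DB_tr N (x, y + 1) (0, 0)) := by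
      intro x y h1 h2
      refine (DB_lift h1 (ih _ (DB_upper N))).tail ?_
      refine ⟨DB_up h1 (DB_upper N), DB_up h2 (DB_zero N), ?_, ?_⟩
      · have : (DB_tr N (x, y) (0, 3 ^ N - 1)).1 - (DB_tr N (x, y + 1) (0, 0)).1 = 0 := by
          simp only [DB_tr]; ring
        rw [this]; norm_num
      · have : (DB_tr N (x, y) (0, 3 ^ N - 1)).2 - (DB_tr N (x, y + 1) (0, 0)).2 = -1 := by
          simp only [DB_tr]; ring
        rw [this]; norm_num
    have k00 : ((0, 0) : Pt) ∈ kids := by rw [DB_kids]; norm_num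
    have k10 : ((1, 0) : Pt) ∈ kids := by rw [DB_kids]; norm_num
    have k20 : ((2, 0) : Pt) ∈ kids := by rw [DB_kids]; norm_num
    have k01 : ((0, 1) : Pt) ∈ kids := by rw [DB_kids]; norm_num
    have k21 : ((2, 1) : Pt) ∈ kids := by rw [DB_kids]; norm_num
    have k02 : ((0, 2) : Pt) ∈ kids := by rw [DB_kids]; norm_num
    have k12 : ((1, 2) : Pt) ∈ kids := by rw [DB_kids]; norm_num
    have k22 : ((2, 2) : Pt) ∈ kids := by rw [DB_kids]; norm_num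
    have hz : DB_tr N (0, 0) (0, 0) = (0, 0) := by simp [DB_tr]
    have r00 : Relation.ReflTransGen (DB_R (N + 1)) (0, 0) (DB_tr N (0, 0) (0, 0)) := by
      rw [hz]
    have r10 := r00.trans (stepR 0 0 k00 k10)
    have r20 := r10.trans (stepR 1 0 k10 k20)
    have r21 := r20.trans (stepU 2 0 k20 k21)
    have r22 := r21.trans (stepU 2 1 k21 k22)
    have r01 := r00.trans (stepU 0 0 k00 k01)
    have r02 := r01.trans (stepU 0 1 k01 k02)
    have r12 := r02.trans (stepR 0 2 k02 k12)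
    intro f hf
    obtain ⟨c, hc, g, hg, rfl⟩ := DB_down hf
    refine Relation.ReflTransGen.trans ?_ (DB_lift hc (ih g hg))
    obtain ⟨x, y⟩ := c
    rw [DB_kids] at hc
    obtain ⟨c1, c2, c3, c4, c5⟩ := hc
    simp only at c1 c2 c3 c4 c5
    have hx : x = 0 ∨ x = 1 ∨ x = 2 := by omega
    have hy : y = 0 ∨ y = 1 ∨ y = 2 := by omega
    rcases hx with rfl | rfl | rfl <;> rcases hy with rfl | rfl | rfl
    · exact r00
    · exact r01
    · exact r02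
    · exact r10
    · exact absurd ⟨rfl, rfl⟩ c5
    · exact r12
    · exact r20
    · exact r21
    · exact r22

/-- the relation of `Conn` -/
def DB_S (K : Set Pt) (a b : Pt) : Prop := adj K a b ∧ a ∈ VK K ∧ b ∈ VK K

theorem DB_Ssymm {K : Set Pt} {a b : Pt} (h : DB_S K a b) : DB_S K b a := by
  obtain ⟨⟨e, he, h1⟩, h2, h3⟩ := h
  exact ⟨⟨e, he, h1.symm⟩, h3, h2⟩

theorem DB_Srev {K : Set Pt} {a b : Pt} (h : Relation.ReflTransGen (DB_S K) a b) :
    Relation.ReflTransGen (DB_S K) b a := by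
  induction h with
  | refl => exact Relation.ReflTransGen.refl
  | tail _ h2 ih => exact Relation.ReflTransGen.head (DB_Ssymm h2) ih

theorem DB_face0 {K : Set Pt} {f : Pt} (hf : f ∈ K) {x : Pt} (hx : IsCor x f) :
    Relation.ReflTransGen (DB_S K) f x := by
  have v00 : f ∈ VK K := ⟨f, hf, Or.inl rfl, Or.inl rfl⟩
  have v10 : ((f.1 + 1, f.2) : Pt) ∈ VK K := ⟨f, hf, Or.inr rfl, Or.inl rfl⟩
  have v01 : ((f.1, f.2 + 1) : Pt) ∈ VK K := ⟨f, hf, Or.inl rfl, Or.inr rfl⟩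
  have v11 : ((f.1 + 1, f.2 + 1) : Pt) ∈ VK K := ⟨f, hf, Or.inr rfl, Or.inr rfl⟩
  have s1 : DB_S K f (f.1 + 1, f.2) :=
    ⟨⟨(false, f), Or.inl (by simpa [lf] using hf), Or.inl ⟨rfl, rfl⟩⟩, v00, v10⟩
  have s2 : DB_S K f (f.1, f.2 + 1) :=
    ⟨⟨(true, f), Or.inr (by simpa [rf] using hf), Or.inl ⟨rfl, rfl⟩⟩, v00, v01⟩
  have s3 : DB_S K (f.1 + 1, f.2) (f.1 + 1, f.2 + 1) :=
    ⟨⟨(true, (f.1 + 1, f.2)), Or.inl (by simpa [lf] using hf), Or.inl ⟨rfl, rfl⟩⟩, v10, v11⟩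
  obtain ⟨h1, h2⟩ := hx
  rcases h1 with h1 | h1 <;> rcases h2 with h2 | h2
  · have : x = f := Prod.ext h1 h2
    rw [this]
  · have : x = (f.1, f.2 + 1) := Prod.ext h1 h2
    rw [this]
    exact Relation.ReflTransGen.single s2
  · have : x = (f.1 + 1, f.2) := Prod.ext h1 h2
    rw [this]
    exact Relation.ReflTransGen.single s1
  · have : x = (f.1 + 1, f.2 + 1) := Prod.ext h1 h2
    rw [this]
    exact (Relation.ReflTransGen.single s1).tail s3

theorem DB_cor {f g : Pt} (h1 : |f.1 - g.1| ≤ 1) (h2 : |f.2 - g.2| ≤ 1) :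
    ∃ w, IsCor w f ∧ IsCor w g := by
  rw [abs_le] at h1 h2
  refine ⟨(max f.1 g.1, max f.2 g.2), ⟨?_, ?_⟩, ?_, ?_⟩
  · show max f.1 g.1 = f.1 ∨ max f.1 g.1 = f.1 + 1
    omega
  · show max f.2 g.2 = f.2 ∨ max f.2 g.2 = f.2 + 1
    omega
  · show max f.1 g.1 = g.1 ∨ max f.1 g.1 = g.1 + 1
    omega
  · show max f.2 g.2 = g.2 ∨ max f.2 g.2 = g.2 + 1
    omega

theorem DB_chain {N : ℕ} {f g : Pt} (hf : f ∈ Kept N) (h : Relation.ReflTransGen (DB_R N) f g) :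
    ∀ y, IsCor y g → Relation.ReflTransGen (DB_S (Kept N)) f y := by
  induction h with
  | refl => intro y hy; exact DB_face0 hf hy
  | tail _ h2 ih =>
    obtain ⟨-, k2, k3, k4⟩ := h2
    intro y hy
    obtain ⟨w, w1, w2⟩ := DB_cor k3 k4
    exact (ih w w1).trans ((DB_Srev (DB_face0 k2 w2)).trans (DB_face0 k2 hy))

theorem p_DB : S_DB := by
  intro N
  refine ⟨fun _ h => h, ?_⟩
  have key : ∀ x ∈ VK (Kept N), Relation.ReflTransGen (DB_S (Kept N)) (0, 0) x := by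
    rintro x ⟨f, hf, hx⟩
    exact DB_chain (DB_zero N) (DB_faces N f hf) x hx
  intro x hx y hy
  exact (DB_Srev (key x hx)).trans (key y hy)

end CarpetPI
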