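import Pool.Agent.Lib.MP_1d263a_an.PI.StmD

/-!
# MP_1d263a_an, project PI, part D, piece DC: simple properties of pairs
-/

open Finset
open scoped Classical

noncomputable section

namespace CarpetPI

lemma DC_phi_mul {p : ℝ} (hp : 1 < p) (t : ℝ) : |phi p t| = |t| ^ (p - 1) := by
  unfold phi
  rw [abs_mul]
  rcases eq_or_ne t 0 with h | h
  · subst h
    rw [abs_zero, Real.zero_rpow (by linarith), abs_zero, mul_zero]
  · have h1 : |Real.sign t| = 1 := by
      rcases lt_or_gt_of_ne h with h' | h'
      · rw [Real.sign_of_neg h', abs_neg, abs_one]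
      · rw [Real.sign_of_pos h', abs_one]
    rw [h1, one_mul, abs_of_nonneg (Real.rpow_nonneg (abs_nonneg t) _)]

lemma DC_pos {p : ℝ} (t : ℝ) (ht : t ≠ 0) : 0 < t * phi p t := by
  unfold phi
  have h1 : 0 < |t| ^ (p - 1) := Real.rpow_pos_of_pos (abs_pos.2 ht) _
  rw [← mul_assoc]
  apply mul_pos _ h1
  rcases lt_or_gt_of_ne ht with h' | h'
  · rw [Real.sign_of_neg h']; linarith
  · rw [Real.sign_of_pos h']; linarith

lemma DC_neg {p : ℝ} (t : ℝ) : phi p (-t) = - phi p t := by
  unfold phi
  rw [abs_neg, Real.sign_neg, neg_mul]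

lemma DC_pow {p : ℝ} (hp : 1 < p) (t : ℝ) : |t| ^ p = |t| * |phi p t| := by
  rw [DC_phi_mul hp]
  rcases eq_or_ne t 0 with h | h
  · subst h
    rw [abs_zero, Real.zero_rpow (by linarith), zero_mul]
  · have h1 : 0 < |t| := abs_pos.2 h
    conv_rhs => rw [← Real.rpow_one |t|, ← Real.rpow_mul h1.le, ← Real.rpow_add h1]
    congr 1
    ring

lemma DC_dual {p r : ℝ} (hp : 1 < p) (hr : 1 / p + 1 / r = 1) (t : ℝ) :
    |phi p t| ^ r = |t| ^ p := by
  rw [DC_phi_mul hp, ← Real.rpow_mul (abs_nonneg t)]
  congr 1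
  have hp0 : p ≠ 0 := by linarith
  have hr0 : r ≠ 0 := by
    intro h
    rw [h] at hr
    simp at hr
    linarith [hr, hp]
  field_simp at hr
  linarith

lemma DC_sides_pres {K : Set Pt} {f : Pt} (hf : f ∈ K) {e : Ed} (he : e ∈ sides f) : pres K e := by
  unfold sides at he
  simp only [mem_insert, mem_singleton] at he
  rcases he with h | h | h | h
  · subst h; left; simpa [lf] using hf
  · subst h; right
    have : rf (false, (f.1, f.2 + 1)) = f := by
      ext <;> simp [rf]
    rw [this]; exact hf
  · subst h; right; simpa [rf] using hf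
  · subst h; left
    have : lf (true, (f.1 + 1, f.2)) = f := by
      ext <;> simp [lf]
    rw [this]; exact hf

theorem p_DC (_hDA : S_DA) : S_DC := by
  intro p r hp hr K R u v hP
  refine ⟨fun e he hne => (hP e he).2 hne, ?_, ?_, ?_, ?_, ?_⟩
  · intro e he hpr
    have h := (hP e he).1 hpr
    rw [h]
    exact ⟨DC_pow hp _, DC_dual hp hr _⟩
  · intro e he hne
    by_cases hpr : pres K e
    · have h := (hP e he).1 hpr
      rw [h]
      apply DC_pos
      intro h0
      apply hne
      rw [h, h0]
      unfold phi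
      rw [Real.sign_zero, zero_mul]
    · exact absurd ((hP e he).2 hpr) hne
  · intro e he hpr hne
    rw [(hP e he).1 hpr]
    exact DC_pos _ hne
  · intro G hG
    unfold EnD En fe
    apply Finset.sum_congr rfl
    intro f hf
    rw [Finset.mem_filter] at hf
    apply Finset.sum_congr rfl
    intro e he
    rw [(hP e (hG f hf.1 hf.2 e he)).1 (DC_sides_pres hf.2 he)]
    exact DC_dual hp hr _
  · intro e he
    have h1 : du (fun x => - u x) e = - du u e := by
      unfold du; ring
    have h2 : dv (fun x => - v x) e = - dv v e := by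
      unfold dv; ring
    rw [h1, h2, DC_neg]
    exact ⟨fun h => by rw [(hP e he).1 h], fun h => by rw [(hP e he).2 h, neg_zero]⟩

end CarpetPI
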