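import Pool.Agent.Lib.MP_1d263a_an.PI.StmD

/-!
# MP_1d263a_an, project PI, piece DD: the energy of a neighbourhood
-/

open Finset
open scoped Classical

noncomputable section

namespace CarpetPI

theorem DD_mem_nb {m : ℕ} {q g : Pt} (h : g ∈ nb m 0 q) : dis g q ≤ m ∧ dis q g ≤ m := by
  simp only [nb, box, pow_zero, mul_one, Finset.mem_product, Finset.mem_Ico] at h
  obtain ⟨⟨h1, h2⟩, h3, h4⟩ := h
  refine ⟨max_le (abs_le.2 ⟨?_, ?_⟩) (abs_le.2 ⟨?_, ?_⟩),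
    max_le (abs_le.2 ⟨?_, ?_⟩) (abs_le.2 ⟨?_, ?_⟩)⟩ <;> omega

theorem DD_card (m : ℕ) (q : Pt) : (nb m 0 q).card = (2 * m + 1) ^ 2 := by
  simp only [nb, box, pow_zero, mul_one, Finset.card_product, Int.card_Ico]
  have h1 : q.1 + (m : ℤ) + 1 - (q.1 - m) = ((2 * m + 1 : ℕ) : ℤ) := by push_cast; ring
  have h2 : q.2 + (m : ℤ) + 1 - (q.2 - m) = ((2 * m + 1 : ℕ) : ℤ) := by push_cast; ring
  rw [h1, h2, Int.toNat_natCast, pow_two]

theorem p_DD (hXJ : S_XJ) (hDA : S_DA) : S_DD := by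
  intro p hp D m
  obtain ⟨C, hC, -, hC2⟩ := hXJ p D hp.le m
  obtain ⟨-, -, -, -, h5, -⟩ := hDA
  have hm1 : (1 : ℝ) ≤ (2 * (m : ℝ) + 1) ^ 2 := by
    have : (0 : ℝ) ≤ m := Nat.cast_nonneg m
    nlinarith
  refine ⟨2 * C * (2 * (m : ℝ) + 1) ^ 2, by nlinarith, ?_⟩
  intro N T L Q u v hS t ht hL q hq hdeep
  have htN : t ≤ N := ht.trans hS.TN
  have e1 : En p (Kept N) u (nb m t q) =
      ∑ g ∈ (nb m 0 q).filter (· ∈ Kept (N - t)), En p (Kept N) u (cell t g) :=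
    h5 m N t q (fe p u) htN
  rw [e1]
  have hmu : 0 < D.mu (N - t) q := D.mu_pos (N - t) q hq
  have h6 : ∀ g ∈ (nb m 0 q).filter (· ∈ Kept (N - t)),
      En p (Kept N) u (cell t g) ≤ 2 * C * D.mu (N - t) q := by
    intro g hg
    rw [Finset.mem_filter] at hg
    obtain ⟨hg1, hg2⟩ := hg
    obtain ⟨hd1, hd2⟩ := DD_mem_nb hg1
    have h7 := hS.hi t ht hL g hg2 (hdeep g hd1)
    have h8 := hC2 (N - t) q hq g hg2 hd2
    linarith
  have h9 := Finset.sum_le_card_nsmul _ _ _ h6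
  rw [nsmul_eq_mul] at h9
  have h10 : (((nb m 0 q).filter (· ∈ Kept (N - t))).card : ℝ) ≤ (2 * (m : ℝ) + 1) ^ 2 := by
    have h11 := Finset.card_filter_le (nb m 0 q) (· ∈ Kept (N - t))
    rw [DD_card] at h11
    exact_mod_cast h11
  have h12 : 0 ≤ 2 * C * D.mu (N - t) q := by
    have : 0 ≤ C * D.mu (N - t) q := mul_nonneg (by linarith) hmu.le
    linarith
  calc ∑ g ∈ (nb m 0 q).filter (· ∈ Kept (N - t)), En p (Kept N) u (cell t g)
      ≤ (((nb m 0 q).filter (· ∈ Kept (N - t))).card : ℝ) * (2 * C * D.mu (N - t) q) := h9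
    _ ≤ (2 * (m : ℝ) + 1) ^ 2 * (2 * C * D.mu (N - t) q) := mul_le_mul_of_nonneg_right h10 h12
    _ = 2 * C * (2 * (m : ℝ) + 1) ^ 2 * D.mu (N - t) q := by ring

end CarpetPI
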