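import Pool.Agent.Lib.MP_1d263a_an.PI.StmD

/-!
# MP_1d263a_an, project PI, piece DE: the oscillation of `u` on a cell
-/

set_option autoImplicit false

open Finset
open scoped Classical

noncomputable section

namespace CarpetPI

private theorem DE_deep {m m' t T : ℕ} {Q q : Pt} (hm : m ≤ m') (h : Deep m' t T Q q) :
    Deep m t T Q q := fun f hf => h f (hf.trans (by exact_mod_cast hm))

/-- the lattice points in the interior of `nbV 1 t q` -/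
private def DE_B (t : ℕ) (q : Pt) : Finset Pt :=
  Finset.Ioo ((q.1 - 1) * 3 ^ t) ((q.1 + 1 + 1) * 3 ^ t) ×ˢ
    Finset.Ioo ((q.2 - 1) * 3 ^ t) ((q.2 + 1 + 1) * 3 ^ t)

private theorem DE_mem_B {t : ℕ} {q x : Pt} : x ∈ DE_B t q ↔
    ((q.1 - 1) * 3 ^ t < x.1 ∧ x.1 < (q.1 + 1 + 1) * 3 ^ t) ∧
      ((q.2 - 1) * 3 ^ t < x.2 ∧ x.2 < (q.2 + 1 + 1) * 3 ^ t) := by
  rw [DE_B, Finset.mem_product, Finset.mem_Ioo, Finset.mem_Ioo]

private theorem DE_notMem_B {t : ℕ} {q x y : Pt} (hx : x ∉ DE_B t q) (hy : y ∈ cellV t q) :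
    (3 : ℤ) ^ t ≤ dis x y := by
  rw [DE_mem_B] at hx
  obtain ⟨h1, h2, h3, h4⟩ := hy
  unfold dis
  have e1 : (q.1 - 1) * 3 ^ t = q.1 * 3 ^ t - 3 ^ t := by ring
  have e2 : (q.1 + 1 + 1) * 3 ^ t = (q.1 + 1) * 3 ^ t + 3 ^ t := by ring
  have e3 : (q.2 - 1) * 3 ^ t = q.2 * 3 ^ t - 3 ^ t := by ring
  have e4 : (q.2 + 1 + 1) * 3 ^ t = (q.2 + 1) * 3 ^ t + 3 ^ t := by ring
  rw [e1, e2, e3, e4] at hx
  rw [le_max_iff]
  by_contra hcon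
  push Not at hcon
  obtain ⟨hc1, hc2⟩ := hcon
  rw [abs_lt] at hc1 hc2
  apply hx
  refine ⟨⟨?_, ?_⟩, ?_, ?_⟩ <;> linarith

private theorem DE_cell_sub_B {t : ℕ} {q x : Pt} (hx : x ∈ cellV t q) : x ∈ DE_B t q := by
  obtain ⟨h1, h2, h3, h4⟩ := hx
  have hpos : (0 : ℤ) < 3 ^ t := by positivity
  rw [DE_mem_B]
  refine ⟨⟨?_, ?_⟩, ?_, ?_⟩ <;> nlinarith

private theorem DE_edge {t : ℕ} {q : Pt} {e : Ed} (he : tl e ∈ DE_B t q ∨ hd e ∈ DE_B t q) :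
    tl e ∈ nbV 1 t q ∧ hd e ∈ nbV 1 t q := by
  rw [DE_mem_B, DE_mem_B] at he
  obtain ⟨b, x⟩ := e
  cases b
  · simp only [tl, hd, nbV, Set.mem_ofPred_eq, Nat.cast_one, Bool.false_eq_true, if_false] at he ⊢
    rcases he with ⟨⟨h1, h2⟩, h3, h4⟩ | ⟨⟨h1, h2⟩, h3, h4⟩
    · refine ⟨⟨?_, ?_, ?_, ?_⟩, ?_, ?_, ?_, ?_⟩ <;> linarith
    · refine ⟨⟨?_, ?_, ?_, ?_⟩, ?_, ?_, ?_, ?_⟩ <;> linarith
  · simp only [tl, hd, nbV, Set.mem_ofPred_eq, Nat.cast_one, if_true] at he ⊢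
    rcases he with ⟨⟨h1, h2⟩, h3, h4⟩ | ⟨⟨h1, h2⟩, h3, h4⟩
    · refine ⟨⟨?_, ?_, ?_, ?_⟩, ?_, ?_, ?_, ?_⟩ <;> linarith
    · refine ⟨⟨?_, ?_, ?_, ?_⟩, ?_, ?_, ?_, ?_⟩ <;> linarith

private theorem DE_zero (N : ℕ) : ((0, 0) : Pt) ∈ VK (Kept N) := by
  refine ⟨(0, 0), ⟨le_rfl, by positivity, le_rfl, by positivity, ?_⟩, Or.inl rfl, Or.inl rfl⟩
  intro k _
  simp

/-- the continuum -/
private theorem DE_cont (hXI : S_XI) (hDA : S_DA) (hDB : S_DB) (hDC : S_DC) {p : ℝ} (hp : 1 < p)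
    {N T t : ℕ} {Q q : Pt} (htT : t ≤ T) (hQ : Q ∈ Kept (N - T)) (hdeep : Deep 1 t T Q q)
    {u v : Pt → ℝ} (hpair : Pair p (Kept N) (cellE T Q) u v) {x : Pt} (hx : x ∈ VK (Kept N))
    (hxq : x ∈ cellV t q) :
    ∃ K₁ : Set Pt, Conn (Kept N) K₁ ∧ x ∈ K₁ ∧ (∀ z ∈ K₁, u x ≤ u z) ∧
      ∃ z ∈ K₁, ∀ y ∈ cellV t q, (3 : ℤ) ^ t ≤ dis z y := by
  have hsub := hDA.2.2.1 1 t T Q q htT hdeep
  have hpos : (0 : ℤ) < 3 ^ t := by positivity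
  have hr : 1 / p + 1 / (p / (p - 1)) = 1 := by
    have : p - 1 ≠ 0 := by linarith
    have : p ≠ 0 := by linarith
    field_simp
    ring
  have hC := hDC p (p / (p - 1)) hp hr (Kept N) (cellE T Q) u v hpair
  have hed : ∀ e : Ed, tl e ∈ DE_B t q ∨ hd e ∈ DE_B t q → e ∈ cellE T Q := by
    intro e he
    obtain ⟨h1, h2⟩ := DE_edge he
    exact ⟨hsub h1, hsub h2⟩
  have h00 : ((0, 0) : Pt) ∉ DE_B t q := by
    intro h0
    rw [DE_mem_B] at h0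
    have h1 : (((q.1 - 1) * 3 ^ t, (q.2 - 1) * 3 ^ t) : Pt) ∈ nbV 1 t q := by
      simp only [nbV, Set.mem_ofPred_eq, Nat.cast_one]
      refine ⟨le_rfl, ?_, le_rfl, ?_⟩ <;> nlinarith
    have h2 := (hsub h1).1
    have h3 : 0 ≤ Q.1 := hQ.1
    have h4 : 0 ≤ Q.1 * 3 ^ T := by positivity
    have h5 := h0.1.1
    dsimp only at h2 h5
    linarith
  obtain ⟨Z, hZ1, hZ2, hZ3, z, hz, hzB⟩ := hXI (Kept N) u v (DE_B t q) (u x) x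
    (DE_cell_sub_B hxq) le_rfl ⟨VK (Kept N), hDB N, hx, (0, 0), DE_zero N, h00⟩
    (fun e he hpres => hC.1 e (hed e he) hpres)
    (fun e he hpres hne => hC.2.2.2.1 e (hed e he) hpres hne)
  exact ⟨Z, hZ1, hZ2, hZ3, z, hz, fun y hy => DE_notMem_B hzB hy⟩

/-- [CARPET DE] the oscillation of `u` on a cell -/
theorem p_DE (hXI : S_XI) (hDA : S_DA) (hDB : S_DB) (hDC : S_DC) (hDD : S_DD) : S_DE := by
  intro p hp D
  obtain ⟨C, hC1, hC⟩ := hDD p hp D D.κ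
  refine ⟨D.A * C, D.κ + 1, one_le_mul_of_one_le_of_one_le D.hA hC1, ?_⟩
  intro N T L Q u v hs t htT hTL q hq hdeep x hx y hy hxq hyq
  have htN : t ≤ N := htT.trans hs.TN
  have hA0 : 0 ≤ D.A := zero_le_one.trans D.hA
  have hd1 : Deep 1 t T Q q := DE_deep (by omega) hdeep
  have hdκ : Deep D.κ t T Q q := DE_deep (by omega) hdeep
  have hEn := hC N T L Q u v hs t htT hTL q hq hdκ
  have hr : 1 / p + 1 / (p / (p - 1)) = 1 := by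
    have : p - 1 ≠ 0 := by linarith
    have : p ≠ 0 := by linarith
    field_simp
    ring
  have hneg := (hDC p (p / (p - 1)) hp hr (Kept N) (cellE T Q) u v hs.pair).2.2.2.2.2
  have key : ∀ x ∈ VK (Kept N), ∀ y ∈ VK (Kept N), x ∈ cellV t q → y ∈ cellV t q → u y ≤ u x →
      |u x - u y| ^ p ≤ D.A * C * D.mu (N - t) q := by
    intro x hx y hy hxq hyq hyx
    obtain ⟨K₁, h1, h2, h3, h4⟩ := DE_cont hXI hDA hDB hDC hp htT hs.hQ hd1 hs.pair hx hxq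
    obtain ⟨K₂, g1, g2, g3, g4⟩ := DE_cont hXI hDA hDB hDC hp htT hs.hQ hd1 hneg hy hyq
    have hlw := D.lw N t htN q hq u K₁ K₂ (u y) (u x) hyx h1 g1 ⟨x, h2, hxq⟩ h4 ⟨y, g2, hyq⟩ g4
      h3 (fun z hz => by have := g3 z hz; linarith)
    rw [abs_of_nonneg (sub_nonneg.2 hyx), mul_assoc]
    exact hlw.trans (mul_le_mul_of_nonneg_left hEn hA0)
  rcases le_total (u y) (u x) with h | h
  · exact key x hx y hy hxq hyq h
  · rw [abs_sub_comm]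
    exact key y hy x hx hyq hxq h

end CarpetPI
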