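import Pool.Agent.Lib.MP_1d263a_an.PI.StmD

/-! # MP_1d263a_an, project PI, piece DF: the oscillation of `v` near a cell -/

set_option autoImplicit false

open Finset
open scoped Classical

noncomputable section

namespace CarpetPI

theorem DF_cor (e : Ed) :
    IsCor (tl e) (lf e) ∧ IsCor (hd e) (lf e) ∧ IsCor (tl e) (rf e) ∧ IsCor (hd e) (rf e) := by
  obtain ⟨b, x⟩ := e
  cases b <;> simp [IsCor, tl, hd, lf, rf]

theorem DF_cellV {T : ℕ} {Q f x : Pt} (hf : f ∈ cell T Q) (hx : IsCor x f) : x ∈ cellV T Q := by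
  unfold cell box at hf
  rw [Finset.mem_product, Finset.mem_Ico, Finset.mem_Ico] at hf
  obtain ⟨⟨h1, h2⟩, h3, h4⟩ := hf
  obtain ⟨h5, h6⟩ := hx
  refine ⟨?_, ?_, ?_, ?_⟩
  · rcases h5 with h | h <;> omega
  · rcases h5 with h | h <;> omega
  · rcases h6 with h | h <;> omega
  · rcases h6 with h | h <;> omega

theorem DF_mem_nb {m t : ℕ} {q f : Pt} : f ∈ nb m t q ↔
    ((q.1 - m) * 3 ^ t ≤ f.1 ∧ f.1 < (q.1 + m + 1) * 3 ^ t) ∧
      ((q.2 - m) * 3 ^ t ≤ f.2 ∧ f.2 < (q.2 + m + 1) * 3 ^ t) := by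
  unfold nb box
  rw [Finset.mem_product, Finset.mem_Ico, Finset.mem_Ico]

theorem DF_cross {R t : ℕ} {q f : Pt} {P : Set Pt} (hP : FConn P) (hf : f ∈ P)
    (hfR : f ∈ nb R t q) (hex : ∃ f' ∈ P, f' ∉ nb (R + 1) t q) :
    Cross P (nbV R t q) (opB ((q.1 - (R + 1)) * 3 ^ t) ((q.1 + (R + 2)) * 3 ^ t)
      ((q.2 - (R + 1)) * 3 ^ t) ((q.2 + (R + 2)) * 3 ^ t)) := by
  refine ⟨hP, ⟨f, hf, f, ?_, ⟨Or.inl rfl, Or.inl rfl⟩⟩, ?_⟩
  · rw [DF_mem_nb] at hfR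
    exact ⟨hfR.1.1, hfR.1.2.le, hfR.2.1, hfR.2.2.le⟩
  · obtain ⟨f', hf', hn⟩ := hex
    refine ⟨f', hf', f', ?_, ⟨Or.inl rfl, Or.inl rfl⟩⟩
    rintro ⟨h1, h2, h3, h4⟩
    apply hn
    rw [DF_mem_nb]
    push_cast
    refine ⟨⟨h1.le, ?_⟩, ⟨h3.le, ?_⟩⟩
    · rw [show q.1 + ((R : ℤ) + 1) + 1 = q.1 + (R + 2) by ring]
      exact h2
    · rw [show q.2 + ((R : ℤ) + 1) + 1 = q.2 + (R + 2) by ring]
      exact h4

theorem p_DF : S_XH → S_XL → S_DA → S_DC → S_DD → S_DF := by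
  intro hXH hXL hDA hDC hDD p r hp hpr D R
  obtain ⟨-, -, a3, a4, -, -, a7, -⟩ := hDA
  obtain ⟨C1, hC1, hL⟩ := hXL p r D hp hpr R
  obtain ⟨C2, hC2, hE⟩ := hDD p hp D (R + 1)
  refine ⟨C1 * C2, one_le_mul_of_one_le_of_one_le hC1 hC2, ?_⟩
  intro N T L Q u v hS t htT htL q hq hdeep
  have hcell : nb (R + 1) t q ⊆ cell T Q := a4 (R + 1) t T Q q htT hdeep
  have hnbV : nbV (R + 1) t q ⊆ cellV T Q := a3 (R + 1) t T Q q htT hdeep
  have hedge : ∀ e : Ed, lf e ∈ nb (R + 1) t q ∨ rf e ∈ nb (R + 1) t q → e ∈ cellE T Q := by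
    intro e he
    obtain ⟨c1, c2, c3, c4⟩ := DF_cor e
    rcases he with he | he
    · exact ⟨DF_cellV (hcell he) c1, DF_cellV (hcell he) c2⟩
    · exact ⟨DF_cellV (hcell he) c3, DF_cellV (hcell he) c4⟩
  obtain ⟨d1, -, d3, -, d5, d6⟩ := hDC p r hp hpr (Kept N) (cellE T Q) u v hS.pair
  have d3' := (hDC p r hp hpr (Kept N) (cellE T Q) _ _ d6).2.2.1
  have hmono : nb R t q ⊆ nb (R + 1) t q := by
    intro f hf
    rw [DF_mem_nb] at hf ⊢
    obtain ⟨⟨h1, h2⟩, h3, h4⟩ := hf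
    have h3t : (0 : ℤ) < 3 ^ t := by positivity
    push_cast
    refine ⟨⟨?_, ?_⟩, ?_, ?_⟩ <;> nlinarith
  have hEn : EnD r (Kept N) v (nb (R + 1) t q) = En p (Kept N) u (nb (R + 1) t q) := by
    apply d5
    intro f hf _ e he
    obtain ⟨c1, c2, -⟩ := a7 f e he
    exact ⟨DF_cellV (hcell hf) c1, DF_cellV (hcell hf) c2⟩
  have key : ∀ f ∈ nb R t q, ∀ g ∈ nb R t q, v g ≤ v f →
      (v f - v g) ^ r ≤ C1 * C2 * D.mu (N - t) q := by
    intro f hf g hg hle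
    obtain ⟨P', p1, p2, p3, p4⟩ := hXH u v (nb (R + 1) t q) (v f) f (hmono hf) le_rfl
      (fun e he hne => d3 e (hedge e he) hne)
    obtain ⟨P, q1, q2, q3, q4⟩ := hXH (fun x => -u x) (fun x => -v x) (nb (R + 1) t q) (-v g) g
      (hmono hg) le_rfl (fun e he hne => d3' e (hedge e he) hne)
    have h1 := hL N t (htT.trans hS.TN) q hq v P P' (v g) (v f) hle
      (fun e he hh => d1 e ⟨hnbV hh.1, hnbV hh.2⟩ he)
      (fun h hh => by have := q3 h hh; linarith) (fun h hh => p3 h hh)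
      (DF_cross q1 q2 hg q4) (DF_cross p1 p2 hf p4)
    rw [hEn] at h1
    have h2 := hE N T L Q u v hS t htT htL q hq hdeep
    refine h1.trans ?_
    rw [mul_assoc]
    exact mul_le_mul_of_nonneg_left h2 (by linarith)
  intro f hf g hg
  rcases le_total (v g) (v f) with h | h
  · rw [abs_of_nonneg (by linarith)]
    exact key f hf g hg h
  · rw [abs_sub_comm, abs_of_nonneg (by linarith)]
    exact key g hg f hf h

end CarpetPI
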