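import Pool.Agent.Lib.MP_1d263a_an.PI.StmD

/-! # MP_1d263a_an, project PI, piece DG: area of tiles -/

set_option autoImplicit false

open Finset
open scoped Classical

noncomputable section

namespace CarpetPI

/-- the open rectangle of an edge -/
def DG_rect (u v : Pt → ℝ) (e : Ed) : Set (ℝ × ℝ) :=
  Set.Ioo (min (u (hd e)) (u (tl e))) (max (u (hd e)) (u (tl e))) ×ˢ
    Set.Ioo (min (v (lf e)) (v (rf e))) (max (v (lf e)) (v (rf e)))

theorem DG_vol (u v : Pt → ℝ) (e : Ed) :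
    MeasureTheory.volume (DG_rect u v e) = ENNReal.ofReal (|du u e| * |dv v e|) := by
  unfold DG_rect du dv
  rw [MeasureTheory.Measure.volume_eq_prod, MeasureTheory.Measure.prod_prod, Real.volume_Ioo,
    Real.volume_Ioo, max_sub_min_eq_abs', max_sub_min_eq_abs', ENNReal.ofReal_mul (abs_nonneg _)]

theorem p_DG : S_DG := by
  intro K R u v hT E U₀ U₁ V₀ V₁ hU hV hE hb
  have hdis : (E : Set Ed).PairwiseDisjoint (DG_rect u v) := by
    intro e he e' he' hne
    change Disjoint (DG_rect u v e) (DG_rect u v e')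
    rw [Set.disjoint_left]
    rintro ⟨a, c⟩ h1 h2
    exact hT e (hE e he).1 e' (hE e' he').1 (hE e he).2 (hE e' he').2 hne a c
      ⟨h1.1.1, h1.1.2, h1.2.1, h1.2.2, h2.1.1, h2.1.2, h2.2.1, h2.2.2⟩
  have hmeas : ∀ e ∈ E, MeasurableSet (DG_rect u v e) := fun e _ =>
    measurableSet_Ioo.prod measurableSet_Ioo
  have hsub : (⋃ e ∈ E, DG_rect u v e) ⊆ Set.Icc U₀ U₁ ×ˢ Set.Icc V₀ V₁ := by
    intro x hx
    rw [Set.mem_iUnion₂] at hx
    obtain ⟨e, he, h1, h2⟩ := hx
    obtain ⟨b1, b2, b3, b4, b5, b6, b7, b8⟩ := hb e he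
    refine ⟨⟨?_, ?_⟩, ⟨?_, ?_⟩⟩
    · exact (le_min b3 b1).trans h1.1.le
    · exact h1.2.le.trans (max_le b4 b2)
    · exact (le_min b5 b7).trans h2.1.le
    · exact h2.2.le.trans (max_le b6 b8)
  have h1 := MeasureTheory.measure_mono (μ := MeasureTheory.volume) hsub
  rw [MeasureTheory.measure_biUnion_finset hdis hmeas, MeasureTheory.Measure.volume_eq_prod,
    MeasureTheory.Measure.prod_prod, Real.volume_Icc, Real.volume_Icc,
    ← MeasureTheory.Measure.volume_eq_prod, ← ENNReal.ofReal_mul (by linarith),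
    Finset.sum_congr rfl (fun e _ => DG_vol u v e),
    ← ENNReal.ofReal_sum_of_nonneg (fun e _ => mul_nonneg (abs_nonneg _) (abs_nonneg _))] at h1
  exact (ENNReal.ofReal_le_ofReal_iff (mul_nonneg (by linarith) (by linarith))).1 h1

end CarpetPI
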