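import Pool.Agent.Lib.MP_1d263a_an.PI.StmD

/-!
# MP_1d263a_an, project PI, piece DH: the energy of a set of faces
-/

open Finset
open scoped Classical

noncomputable section

namespace CarpetPI

theorem DH_near (f : Pt) (e : Ed) (he : e ∈ sides f) : dis f (lf e) ≤ 1 ∧ dis f (rf e) ≤ 1 := by
  obtain ⟨f1, f2⟩ := f
  simp only [sides, Finset.mem_insert, Finset.mem_singleton] at he
  rcases he with rfl | rfl | rfl | rfl <;> simp [dis, lf, rf]

theorem DH_double (H : Finset Pt) (φ : Ed → ℝ) (h0 : ∀ e, 0 ≤ φ e)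
    (hs : ∀ (f : Pt), ∀ e ∈ sides f, (lf e = f ∨ rf e = f)) :
    ∑ f ∈ H, ∑ e ∈ sides f, φ e ≤ 2 * ∑ e ∈ H.biUnion sides, φ e := by
  have h1 : ∀ f ∈ H, ∑ e ∈ sides f, φ e = ∑ e ∈ H.biUnion sides, if e ∈ sides f then φ e else 0 := by
    intro f hf
    rw [← Finset.sum_filter]
    refine Finset.sum_congr ?_ (fun _ _ => rfl)
    ext e
    simp only [Finset.mem_filter, Finset.mem_biUnion]
    constructor
    · intro he
      exact ⟨⟨f, hf, he⟩, he⟩
    · intro he
      exact he.2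
  rw [Finset.sum_congr rfl h1, Finset.sum_comm, Finset.mul_sum]
  refine Finset.sum_le_sum ?_
  intro e _
  rw [← Finset.sum_filter, Finset.sum_const, nsmul_eq_mul]
  refine mul_le_mul_of_nonneg_right ?_ (h0 e)
  have hsub : H.filter (fun f => e ∈ sides f) ⊆ {lf e, rf e} := by
    intro f hf
    rw [Finset.mem_filter] at hf
    rcases hs f e hf.2 with h | h
    · simp [h]
    · simp [h]
  have := (Finset.card_le_card hsub).trans (Finset.card_le_two (a := lf e) (b := rf e))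
  exact_mod_cast this

theorem p_DH : S_DA → S_DC → S_DG → S_DH := by
  intro hA hC hG p hp D N T L Q u v hS G U₀ U₁ V₀ V₁ hU hV hGT hu hv
  obtain ⟨_, _, _, _, _, _, hA7, _⟩ := hA
  have hr : 1 / p + 1 / (p / (p - 1)) = 1 := by
    have h1 : p ≠ 0 := by linarith
    have h2 : p - 1 ≠ 0 := by linarith
    field_simp
    ring
  obtain ⟨_, hC2, _, _, _, _⟩ := hC p (p / (p - 1)) hp hr (Kept N) (cellE T Q) u v hS.pair
  set H := G.filter (· ∈ Kept N) with hH
  have hE : ∀ e ∈ H.biUnion sides, ∃ f ∈ G, f ∈ Kept N ∧ e ∈ sides f := by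
    intro e he
    obtain ⟨f, hf, hef⟩ := Finset.mem_biUnion.1 he
    rw [hH, Finset.mem_filter] at hf
    exact ⟨f, hf.1, hf.2, hef⟩
  have hcor : ∀ f ∈ G, ∀ x, IsCor x f → x ∈ cellV T Q := by
    intro f hf x hx
    have h := hGT hf
    simp only [cell, box, Finset.mem_product, Finset.mem_Ico] at h
    obtain ⟨⟨a1, a2⟩, b1, b2⟩ := h
    obtain ⟨hx1, hx2⟩ := hx
    refine ⟨?_, ?_, ?_, ?_⟩
    · rcases hx1 with h | h <;> omega
    · rcases hx1 with h | h <;> omega
    · rcases hx2 with h | h <;> omega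
    · rcases hx2 with h | h <;> omega
  have hmem : ∀ e ∈ H.biUnion sides, e ∈ cellE T Q ∧ pres (Kept N) e := by
    intro e he
    obtain ⟨f, hfG, hfK, hef⟩ := hE e he
    obtain ⟨c1, c2, c3⟩ := hA7 f e hef
    refine ⟨⟨hcor f hfG _ c1, hcor f hfG _ c2⟩, ?_⟩
    rcases c3 with h | h
    · exact Or.inl (by rw [h]; exact hfK)
    · exact Or.inr (by rw [h]; exact hfK)
  have h1 : En p (Kept N) u G ≤ 2 * ∑ e ∈ H.biUnion sides, |du u e| ^ p := by
    unfold En fe
    exact DH_double H (fun e => |du u e| ^ p) (fun e => Real.rpow_nonneg (abs_nonneg _) _)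
      (fun f e he => (hA7 f e he).2.2)
  have h2 : ∑ e ∈ H.biUnion sides, |du u e| ^ p = ∑ e ∈ H.biUnion sides, |du u e| * |dv v e| := by
    refine Finset.sum_congr rfl ?_
    intro e he
    exact (hC2 e (hmem e he).1 (hmem e he).2).1
  have h3 : ∑ e ∈ H.biUnion sides, |du u e| * |dv v e| ≤ (U₁ - U₀) * (V₁ - V₀) := by
    refine hG (Kept N) (cellE T Q) u v hS.tile (H.biUnion sides) U₀ U₁ V₀ V₁ hU hV hmem ?_
    intro e he
    obtain ⟨f, hfG, hfK, hef⟩ := hE e he
    obtain ⟨c1, c2, _⟩ := hA7 f e hef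
    have a1 := hu f hfG hfK _ c1
    have a2 := hu f hfG hfK _ c2
    have d := DH_near f e hef
    have b1 := hv f hfG hfK _ d.1
    have b2 := hv f hfG hfK _ d.2
    exact ⟨a1.1, a1.2, a2.1, a2.2, b1.1, b1.2, b2.1, b2.2⟩
  calc En p (Kept N) u G ≤ 2 * ∑ e ∈ H.biUnion sides, |du u e| ^ p := h1
    _ = 2 * ∑ e ∈ H.biUnion sides, |du u e| * |dv v e| := by rw [h2]
    _ ≤ 2 * ((U₁ - U₀) * (V₁ - V₀)) := by linarith
    _ = 2 * (U₁ - U₀) * (V₁ - V₀) := by ring

end CarpetPI
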