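import Pool.Agent.Lib.MP_1d263a_an.PI.StmD

/-!
# MP_1d263a_an, project PI, piece DI: lower bounds for the oscillations
-/

open Finset
open scoped Classical

noncomputable section

namespace CarpetPI

/-- the arithmetic of the exponents -/
private lemma DI_arith (p r μ a b c : ℝ) (hp : 1 < p) (hr : r * (p - 1) = p) (hμ : 0 < μ)
    (ha : 0 ≤ a) (hb : 0 ≤ b) (hc : 1 ≤ c) (h1 : μ ≤ 4 * a * b) (h2 : b ^ r ≤ c * μ) :
    μ ≤ 4 ^ p * c ^ (p - 1) * a ^ p := by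
  have hp1 : 0 < p - 1 := by linarith
  have hbp : b ^ p ≤ c ^ (p - 1) * μ ^ (p - 1) := by
    calc b ^ p = (b ^ r) ^ (p - 1) := by rw [← Real.rpow_mul hb, hr]
      _ ≤ (c * μ) ^ (p - 1) := Real.rpow_le_rpow (Real.rpow_nonneg hb _) h2 hp1.le
      _ = c ^ (p - 1) * μ ^ (p - 1) := Real.mul_rpow (by linarith) hμ.le
  have h3 : μ ^ p ≤ 4 ^ p * a ^ p * (c ^ (p - 1) * μ ^ (p - 1)) := by
    calc μ ^ p ≤ (4 * a * b) ^ p := Real.rpow_le_rpow hμ.le h1 (by linarith)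
      _ = 4 ^ p * a ^ p * b ^ p := by
          rw [Real.mul_rpow (by positivity) hb, Real.mul_rpow (by norm_num) ha]
      _ ≤ _ := by
          apply mul_le_mul_of_nonneg_left hbp
          have := Real.rpow_nonneg ha p
          positivity
  have h4 : μ ^ p = μ * μ ^ (p - 1) := by
    rw [Real.rpow_sub_one hμ.ne']
    field_simp
  have h5 : 0 < μ ^ (p - 1) := Real.rpow_pos_of_pos hμ _
  rw [h4] at h3
  have h6 : μ * μ ^ (p - 1) ≤ (4 ^ p * c ^ (p - 1) * a ^ p) * μ ^ (p - 1) := by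
    calc μ * μ ^ (p - 1) ≤ 4 ^ p * a ^ p * (c ^ (p - 1) * μ ^ (p - 1)) := h3
      _ = _ := by ring
  exact le_of_mul_le_mul_right h6 h5

private lemma DI_conj (p r : ℝ) (hp : 1 < p) (h : 1 / p + 1 / r = 1) :
    1 < r ∧ r * (p - 1) = p ∧ p * (r - 1) = r := by
  have hr0 : r ≠ 0 := by
    rintro rfl
    simp only [div_zero, add_zero] at h
    rw [div_eq_iff (by linarith)] at h
    linarith
  have hp0 : p ≠ 0 := by linarith
  field_simp at h
  have h1 : (r - 1) * (p - 1) = 1 := by linarith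
  have h2 : 0 < r - 1 := by
    by_contra hc
    have : (r - 1) * (p - 1) ≤ 0 := mul_nonpos_of_nonpos_of_nonneg (not_lt.mp hc) (by linarith)
    linarith
  exact ⟨by linarith, by linarith, by linarith⟩

private lemma DI_one_le_pow (t : ℕ) : (1 : ℤ) ≤ 3 ^ t := one_le_pow₀ (by norm_num)

private lemma DI_sub (t : ℕ) (q : Pt) : cell t q ⊆ nb 1 t q := by
  intro f hf
  have h3 := DI_one_le_pow t
  simp only [cell, nb, box, Finset.mem_product, Finset.mem_Ico, Nat.cast_one] at hf ⊢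
  obtain ⟨⟨a1, a2⟩, b1, b2⟩ := hf
  refine ⟨⟨?_, ?_⟩, ?_, ?_⟩ <;> nlinarith

private lemma DI_nbr (t : ℕ) (q f g : Pt) (hf : f ∈ cell t q) (h : dis f g ≤ 1) :
    g ∈ nb 1 t q := by
  have h3 := DI_one_le_pow t
  unfold dis at h
  have hx := abs_le.mp ((le_max_left _ _).trans h)
  have hy := abs_le.mp ((le_max_right _ _).trans h)
  simp only [cell, nb, box, Finset.mem_product, Finset.mem_Ico, Nat.cast_one] at hf ⊢
  obtain ⟨⟨a1, a2⟩, b1, b2⟩ := hf
  refine ⟨⟨?_, ?_⟩, ?_, ?_⟩ <;> nlinarith [hx.1, hx.2, hy.1, hy.2]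

private lemma DI_cor (t : ℕ) (q f x : Pt) (hf : f ∈ cell t q) (h : IsCor x f) :
    x ∈ cellV t q := by
  simp only [cell, box, Finset.mem_product, Finset.mem_Ico] at hf
  obtain ⟨⟨a1, a2⟩, b1, b2⟩ := hf
  obtain ⟨h1, h2⟩ := h
  refine ⟨?_, ?_, ?_, ?_⟩
  · rcases h1 with h | h <;> omega
  · rcases h1 with h | h <;> omega
  · rcases h2 with h | h <;> omega
  · rcases h2 with h | h <;> omega

/-- The piece DI. -/
theorem p_DI : S_DA → S_DE → S_DF → S_DH → S_DI := by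
  intro hA hE hF hH p r hp hpr D
  obtain ⟨hr1, e1, e2⟩ := DI_conj p r hp hpr
  obtain ⟨C₁, m₁, hC₁, hE⟩ := hE p hp D
  obtain ⟨C₂, hC₂, hF⟩ := hF p r hp hpr D 1
  have k1 : (1 : ℝ) ≤ 4 ^ p * C₂ ^ (p - 1) := by
    have a := Real.one_le_rpow (x := (4 : ℝ)) (by norm_num) (by linarith : (0 : ℝ) ≤ p)
    have b := Real.one_le_rpow hC₂ (by linarith : (0 : ℝ) ≤ p - 1)
    nlinarith
  refine ⟨max (4 ^ p * C₂ ^ (p - 1)) (4 ^ r * C₁ ^ (r - 1)), max m₁ 2, k1.trans (le_max_left _ _), ?_⟩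
  intro N T L Q u v hS t htT hTL q hq hdeep
  have hd1 : Deep m₁ t T Q q := fun f hf => hdeep f (hf.trans (by
    exact_mod_cast le_max_left m₁ 2))
  have hd2 : Deep (1 + 1) t T Q q := fun f hf => hdeep f (hf.trans (by
    exact_mod_cast le_max_right m₁ 2))
  have hd3 : Deep 1 t T Q q := fun f hf => hd2 f (hf.trans (by norm_num))
  have hμ : 0 < D.mu (N - t) q := D.mu_pos _ _ hq
  have hqQ : q ∈ cell (T - t) Q := hdeep q (by
    unfold dis
    simp)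
  have hlo := hS.lo t htT hTL q hq hqQ
  have hcellT : cell t q ⊆ cell T Q := (DI_sub t q).trans (hA.2.2.2.1 1 t T Q q htT hd3)
  -- a kept face in the cell
  obtain ⟨f₀, hf₀c, hf₀K⟩ : ∃ f₀ ∈ cell t q, f₀ ∈ Kept N := by
    by_contra hcon
    push Not at hcon
    have : (cell t q).filter (· ∈ Kept N) = ∅ := Finset.filter_eq_empty_iff.mpr hcon
    rw [En, this, Finset.sum_empty] at hlo
    linarith
  have hcorf : IsCor f₀ f₀ := ⟨Or.inl rfl, Or.inl rfl⟩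
  -- extremal values
  obtain ⟨A, hAdef⟩ : ∃ A : Finset Pt, ∀ x, x ∈ A ↔ x ∈ VK (Kept N) ∧ x ∈ cellV t q := by
    refine ⟨((Finset.Icc (q.1 * 3 ^ t) ((q.1 + 1) * 3 ^ t)) ×ˢ
      (Finset.Icc (q.2 * 3 ^ t) ((q.2 + 1) * 3 ^ t))).filter (· ∈ VK (Kept N)), ?_⟩
    intro x
    simp only [Finset.mem_filter, Finset.mem_product, Finset.mem_Icc, cellV, Set.mem_ofPred_eq]
    tauto
  have hAne : A.Nonempty := ⟨f₀, (hAdef f₀).2 ⟨⟨f₀, hf₀K, hcorf⟩, DI_cor t q f₀ f₀ hf₀c hcorf⟩⟩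
  obtain ⟨x, hxA, hx⟩ := Finset.exists_max_image A u hAne
  obtain ⟨y, hyA, hy⟩ := Finset.exists_min_image A u hAne
  have hBne : (nb 1 t q).Nonempty := ⟨f₀, DI_sub t q hf₀c⟩
  obtain ⟨f, hfB, hf⟩ := Finset.exists_max_image (nb 1 t q) v hBne
  obtain ⟨g, hgB, hg⟩ := Finset.exists_min_image (nb 1 t q) v hBne
  have hab := hH p hp D N T L Q u v hS (cell t q) (u y) (u x) (v g) (v f) (hy x hxA) (hg f hfB)
    hcellT
    (fun h hh hK z hz => by
      have hz' : z ∈ A := (hAdef z).2 ⟨⟨h, hK, hz⟩, DI_cor t q h z hh hz⟩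
      exact ⟨hy z hz', hx z hz'⟩)
    (fun h hh _ z hz => by
      have hz' : z ∈ nb 1 t q := DI_nbr t q h z hh hz
      exact ⟨hg z hz', hf z hz'⟩)
  have ha : 0 ≤ u x - u y := by linarith [hy x hxA]
  have hb : 0 ≤ v f - v g := by linarith [hg f hfB]
  have hxy := (hAdef x).1 hxA
  have hyy := (hAdef y).1 hyA
  have E1 := hE N T L Q u v hS t htT hTL q hq hd1 x hxy.1 y hyy.1 hxy.2 hyy.2
  have F1 := hF N T L Q u v hS t htT hTL q hq hd2 f hfB g hgB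
  rw [abs_of_nonneg ha] at E1
  rw [abs_of_nonneg hb] at F1
  constructor
  · refine ⟨x, hxy.1, y, hyy.1, hxy.2, hyy.2, ?_⟩
    rw [abs_of_nonneg ha]
    refine (DI_arith p r _ _ _ C₂ hp e1 hμ ha hb hC₂ (by linarith) F1).trans ?_
    exact mul_le_mul_of_nonneg_right (le_max_left _ _) (Real.rpow_nonneg ha _)
  · refine ⟨f, hfB, g, hgB, ?_⟩
    rw [abs_of_nonneg hb]
    refine (DI_arith r p _ _ _ C₁ hr1 e2 hμ hb ha hC₁ (by linarith) E1).trans ?_
    exact mul_le_mul_of_nonneg_right (le_max_right _ _) (Real.rpow_nonneg hb _)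

end CarpetPI
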