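import Pool.Agent.Lib.MP_1d263a_an.PI.StmD

/-!
# [DK] stopping cells (helper98)
-/

set_option autoImplicit false

open Finset
open scoped Classical

noncomputable section

namespace CarpetPI

theorem DK_up (s t : ℕ) (f : Pt) : up s (up t f) = up (t + s) f := by
  have h : ∀ a : ℤ, a / 3 ^ t / 3 ^ s = a / 3 ^ (t + s) := by
    intro a
    rw [pow_add, Int.ediv_ediv_of_nonneg (by positivity)]
  unfold up
  rw [Prod.mk.injEq]
  exact ⟨h _, h _⟩

theorem DK_div {a q m : ℤ} {t : ℕ} (h1 : (q - m) * 3 ^ t ≤ a) (h2 : a < (q + m + 1) * 3 ^ t) :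
    |a / 3 ^ t - q| ≤ m := by
  have h3 : (0 : ℤ) < 3 ^ t := by positivity
  have h4 : q - m ≤ a / 3 ^ t := (Int.le_ediv_iff_mul_le h3).mpr h1
  have h5 : a / 3 ^ t < q + m + 1 := (Int.ediv_lt_iff_lt_mul h3).mpr h2
  rw [abs_le]
  constructor <;> linarith

theorem DK_dis {t : ℕ} {f q : Pt} (h : f ∈ nb 2 t q) :
    dis q (up t f) ≤ (2 : ℕ) ∧ dis (up t f) q ≤ (2 : ℕ) := by
  unfold nb box at h
  rw [Finset.mem_product, Finset.mem_Ico, Finset.mem_Ico] at h
  obtain ⟨⟨h1, h2⟩, h3, h4⟩ := h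
  have a1 := DK_div h1 h2
  have a2 := DK_div h3 h4
  unfold dis up
  refine ⟨max_le ?_ ?_, max_le a1 a2⟩
  · rw [abs_sub_comm]; exact a1
  · rw [abs_sub_comm]; exact a2

/-- The number of the stopping cell of a face. -/
def DK_j {p : ℝ} (D : Dat p) (N t : ℕ) (q : Pt) (c : ℝ) (f : Pt) : ℕ :=
  Nat.findGreatest (fun j => D.mu (N - j) (up j f) ≤ c * D.mu (N - t) q) t

theorem DK_sep {p : ℝ} (D : Dat p) (hDA : S_DA) (N t : ℕ) (q : Pt) (c : ℝ) (f f' : Pt)
    (hf' : D.mu (N - DK_j D N t q c f') (up (DK_j D N t q c f') f') ≤ c * D.mu (N - t) q)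
    (hle : DK_j D N t q c f ≤ DK_j D N t q c f') :
    Disjoint (cell (DK_j D N t q c f) (up (DK_j D N t q c f) f))
      (cell (DK_j D N t q c f') (up (DK_j D N t q c f') f')) ∨
    (DK_j D N t q c f = DK_j D N t q c f' ∧
      up (DK_j D N t q c f) f = up (DK_j D N t q c f') f') := by
  by_cases hd : Disjoint (cell (DK_j D N t q c f) (up (DK_j D N t q c f) f))
      (cell (DK_j D N t q c f') (up (DK_j D N t q c f') f'))
  · exact Or.inl hd
  · right
    rw [Finset.not_disjoint_iff] at hd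
    obtain ⟨g, hg, hg'⟩ := hd
    rw [hDA.2.1] at hg hg'
    have e1 : up (DK_j D N t q c f') f = up (DK_j D N t q c f') f' := by
      obtain ⟨s, hs⟩ := Nat.exists_eq_add_of_le hle
      have h1 : up s (up (DK_j D N t q c f) g) = up s (up (DK_j D N t q c f) f) := by rw [hg]
      rw [DK_up, DK_up, ← hs] at h1
      rw [← h1, hg']
    have e2 : DK_j D N t q c f' ≤ DK_j D N t q c f := by
      refine Nat.le_findGreatest (Nat.findGreatest_le t) ?_
      rw [e1]
      exact hf'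
    have e3 := le_antisymm hle e2
    refine ⟨e3, ?_⟩
    rw [e3]
    exact e1

theorem p_DK (hDA : S_DA) (hDJ : S_DJ) (hXJ : S_XJ) : S_DK := by
  intro p hp D
  obtain ⟨C, ν, hC, hν0, hν1, hDJ1, hDJ2⟩ := hDJ p hp D
  obtain ⟨C₂, hC₂, -, hXJ2⟩ := hXJ p D hp 2
  refine ⟨2 * C * C₂, by nlinarith, fun τ hτ0 hτ1 => ?_⟩
  have hC₂p : 0 < C₂ := by linarith
  have hCp : 0 < C := by linarith
  obtain ⟨τ', hτ'⟩ : ∃ τ' : ℝ, τ' = τ / (2 * C₂) := ⟨_, rfl⟩
  have hτ'0 : 0 < τ' := by rw [hτ']; positivity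
  have hτ'τ : τ = τ' * (2 * C₂) := by rw [hτ']; field_simp
  obtain ⟨L₀, hL₀⟩ := exists_pow_lt_of_lt_one (show 0 < τ' / C₂ by positivity) hν1
  refine ⟨L₀, fun N t htN hLt q hq => ⟨DK_j D N t q τ', ?_, ?_⟩⟩
  · intro f hf hfn
    have hμq : 0 < D.mu (N - t) q := D.mu_pos _ q hq
    have hμk : ∀ j, j ≤ N → up j f ∈ Kept (N - j) := fun j hj => hDA.1 N j hj f hf
    obtain ⟨hd1, hd2⟩ := DK_dis hfn
    have hb1 := hXJ2 (N - t) q hq (up t f) (hμk t htN) hd1
    have hb2 := hXJ2 (N - t) (up t f) (hμk t htN) q hq hd2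
    -- the lower end
    have hlow : D.mu (N - (t - L₀)) (up (t - L₀) f) ≤ τ' * D.mu (N - t) q := by
      have h1 : N - (t - L₀) = N - t + L₀ := by omega
      have h2 := hμk (t - L₀) (by omega)
      rw [h1] at h2 ⊢
      have h3 := hDJ2 (N - t) L₀ _ h2
      rw [DK_up, Nat.sub_add_cancel hLt] at h3
      have h4 : ν ^ L₀ * D.mu (N - t) (up t f) ≤ τ' / C₂ * D.mu (N - t) (up t f) :=
        mul_le_mul_of_nonneg_right hL₀.le (D.mu_pos _ _ (hμk t htN)).le
      have h5 : τ' / C₂ * D.mu (N - t) (up t f) ≤ τ' / C₂ * (C₂ * D.mu (N - t) q) :=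
        mul_le_mul_of_nonneg_left hb1 (by positivity)
      have h6 : τ' / C₂ * (C₂ * D.mu (N - t) q) = τ' * D.mu (N - t) q := by field_simp
      linarith
    have htop : ¬ (D.mu (N - t) (up t f) ≤ τ' * D.mu (N - t) q) := by
      intro h
      have h1 : C₂ * D.mu (N - t) (up t f) ≤ C₂ * (τ' * D.mu (N - t) q) :=
        mul_le_mul_of_nonneg_left h hC₂p.le
      have h2 : τ * D.mu (N - t) q ≤ 1 * D.mu (N - t) q :=
        mul_le_mul_of_nonneg_right hτ1 hμq.le
      have h3 : C₂ * (τ' * D.mu (N - t) q) = τ * D.mu (N - t) q / 2 := by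
        rw [hτ'τ]; ring
      linarith
    have hj1 : DK_j D N t q τ' f ≤ t := Nat.findGreatest_le t
    have hj2 : t - L₀ ≤ DK_j D N t q τ' f := Nat.le_findGreatest (Nat.sub_le _ _) hlow
    have hj3 : D.mu (N - DK_j D N t q τ' f) (up (DK_j D N t q τ' f) f) ≤
        τ' * D.mu (N - t) q :=
      Nat.findGreatest_spec (P := fun j => D.mu (N - j) (up j f) ≤ τ' * D.mu (N - t) q)
        (Nat.sub_le t L₀) hlow
    have hj4 : DK_j D N t q τ' f < t := by
      refine lt_of_le_of_ne hj1 (fun h => ?_)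
      rw [h] at hj3
      exact htop hj3
    have hj5 : ¬ (D.mu (N - (DK_j D N t q τ' f + 1)) (up (DK_j D N t q τ' f + 1) f) ≤
        τ' * D.mu (N - t) q) :=
      Nat.findGreatest_is_greatest (P := fun j => D.mu (N - j) (up j f) ≤ τ' * D.mu (N - t) q)
        (Nat.lt_succ_self _) hj4
    refine ⟨hj1, by omega, ?_, ?_⟩
    · refine hj3.trans (mul_le_mul_of_nonneg_right ?_ hμq.le)
      rw [hτ'τ]
      nlinarith
    · generalize DK_j D N t q τ' f = j at hj1 hj2 hj3 hj4 hj5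
      have h1 : N - j = N - (j + 1) + 1 := by omega
      have h2 := hμk j (by omega)
      rw [h1] at h2 ⊢
      have h3 := (hDJ1 (N - (j + 1)) _ h2).1
      rw [DK_up] at h3
      push Not at hj5
      have h4 : τ' * D.mu (N - t) q ≤ C * D.mu (N - (j + 1) + 1) (up j f) :=
        (hj5.le).trans h3
      have h5 : 2 * C₂ * (τ' * D.mu (N - t) q) ≤
          2 * C₂ * (C * D.mu (N - (j + 1) + 1) (up j f)) :=
        mul_le_mul_of_nonneg_left h4 (by positivity)
      have h6 : τ * D.mu (N - t) q = 2 * C₂ * (τ' * D.mu (N - t) q) := by rw [hτ'τ]; ring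
      rw [h6]
      refine h5.trans (le_of_eq ?_)
      ring
  · -- separation
    have hspec : ∀ f ∈ Kept N, f ∈ nb 2 t q →
        D.mu (N - DK_j D N t q τ' f) (up (DK_j D N t q τ' f) f) ≤ τ' * D.mu (N - t) q := by
      intro f hf hfn
      obtain ⟨hd1, hd2⟩ := DK_dis hfn
      have hμk : ∀ j, j ≤ N → up j f ∈ Kept (N - j) := fun j hj => hDA.1 N j hj f hf
      have hb1 := hXJ2 (N - t) q hq (up t f) (hμk t htN) hd1
      have hlow : D.mu (N - (t - L₀)) (up (t - L₀) f) ≤ τ' * D.mu (N - t) q := by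
        have h1 : N - (t - L₀) = N - t + L₀ := by omega
        have h2 := hμk (t - L₀) (by omega)
        rw [h1] at h2 ⊢
        have h3 := hDJ2 (N - t) L₀ _ h2
        rw [DK_up, Nat.sub_add_cancel hLt] at h3
        have h4 : ν ^ L₀ * D.mu (N - t) (up t f) ≤ τ' / C₂ * D.mu (N - t) (up t f) :=
          mul_le_mul_of_nonneg_right hL₀.le (D.mu_pos _ _ (hμk t htN)).le
        have h5 : τ' / C₂ * D.mu (N - t) (up t f) ≤ τ' / C₂ * (C₂ * D.mu (N - t) q) :=
          mul_le_mul_of_nonneg_left hb1 (by positivity)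
        have h6 : τ' / C₂ * (C₂ * D.mu (N - t) q) = τ' * D.mu (N - t) q := by field_simp
        linarith
      exact Nat.findGreatest_spec (P := fun j => D.mu (N - j) (up j f) ≤ τ' * D.mu (N - t) q)
        (Nat.sub_le t L₀) hlow
    intro f hf hfn f' hf' hfn'
    rcases le_total (DK_j D N t q τ' f) (DK_j D N t q τ' f') with h | h
    · exact DK_sep D hDA N t q τ' f f' (hspec f' hf' hfn') h
    · rcases DK_sep D hDA N t q τ' f' f (hspec f hf hfn) h with h1 | ⟨h1, h2⟩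
      · exact Or.inl h1.symm
      · exact Or.inr ⟨h1.symm, h2.symm⟩

end CarpetPI
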