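import Pool.Agent.Lib.MP_1d263a_an.PI.StmD

/-!
# MP_1d263a_an, project PI, piece DL: chain lemma (loop erasure)
-/

open Finset
open scoped Classical

noncomputable section

namespace CarpetPI

/-- **DL.** -/
theorem p_DL : S_DL := by
  intro dd m
  induction m using Nat.strong_induction_on with
  | _ m ih =>
    intro x g w h0 htri hw hrep
    rcases Nat.eq_zero_or_pos m with rfl | hm
    · simp [h0]
    · -- the largest index with the label `g 0`
      set s : Finset ℕ := (range m).filter (fun i => g i = g 0) with hs
      have hne : s.Nonempty := ⟨0, by simp [hs, hm]⟩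
      obtain ⟨i, his, himax⟩ := s.exists_max_image id hne
      have hi : i < m ∧ g i = g 0 := by simpa [hs] using his
      have hmax : ∀ k, k < m → g k = g 0 → k ≤ i := fun k hk hg =>
        himax k (by simp [hs, hk, hg])
      have h1 : dd (x 0) (x (i + 1)) ≤ w (g 0) := hrep 0 hm i hi.1 (Nat.zero_le _) hi.2.symm
      set n := m - (i + 1) with hn
      have hnm : i + 1 + n = m := by omega
      have h2 := ih n (by omega) (fun k => x (i + 1 + k)) (fun k => g (i + 1 + k)) w h0
        (fun a ha b hb c hc => htri (i + 1 + a) (by omega) (i + 1 + b) (by omega) (i + 1 + c)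
          (by omega)) hw
        (fun a ha b hb hab hg => hrep (i + 1 + a) (by omega) (i + 1 + b) (by omega) (by omega) hg)
      simp only [Nat.add_zero, hnm] at h2
      have h3 : dd (x 0) (x m) ≤ dd (x 0) (x (i + 1)) + dd (x (i + 1)) (x m) :=
        htri 0 (by omega) (i + 1) (by omega) m le_rfl
      have hsub : (range n).image (fun k => g (i + 1 + k)) ⊆ ((range m).image g).erase (g 0) := by
        intro a ha
        rw [Finset.mem_image] at ha
        obtain ⟨k, hk, rfl⟩ := ha
        rw [Finset.mem_range] at hk
        rw [Finset.mem_erase]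
        refine ⟨fun h => ?_, Finset.mem_image.2 ⟨i + 1 + k, Finset.mem_range.2 (by omega), rfl⟩⟩
        have := hmax (i + 1 + k) (by omega) h
        omega
      have h4 : ∑ a ∈ (range n).image (fun k => g (i + 1 + k)), w a ≤
          ∑ a ∈ ((range m).image g).erase (g 0), w a :=
        Finset.sum_le_sum_of_subset_of_nonneg hsub (fun a _ _ => hw a)
      have h5 : w (g 0) + ∑ a ∈ ((range m).image g).erase (g 0), w a = ∑ a ∈ (range m).image g, w a :=
        Finset.add_sum_erase _ _ (Finset.mem_image.2 ⟨0, Finset.mem_range.2 hm, rfl⟩)
      linarith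

end CarpetPI
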