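import Pool.Agent.Lib.MP_1d263a_an.PI.StmD

/-! # Piece DM: a path in a connected set of vertices -/

open Finset
open scoped Classical

noncomputable section

namespace CarpetPI

/-- a step of the network has a kept face with both ends as corners -/
theorem DM_step {K : Set Pt} {z w : Pt} (h : adj K z w) :
    ∃ b ∈ K, IsCor z b ∧ IsCor w b := by
  obtain ⟨⟨t, x, y⟩, hp, h⟩ := h
  have key : ∃ b ∈ K, IsCor (tl (t, x, y)) b ∧ IsCor (hd (t, x, y)) b := by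
    rcases hp with hp | hp
    · refine ⟨_, hp, ?_, ?_⟩
      · cases t <;> simp [IsCor, tl, lf]
      · cases t <;> simp [IsCor, hd, lf]
    · refine ⟨_, hp, ?_, ?_⟩
      · cases t <;> simp [IsCor, tl, rf]
      · cases t <;> simp [IsCor, hd, rf]
  obtain ⟨b, hb, h1, h2⟩ := key
  rcases h with ⟨h3, h4⟩ | ⟨h3, h4⟩
  · rw [h3] at h1
    rw [h4] at h2
    exact ⟨b, hb, h1, h2⟩
  · rw [h3] at h1
    rw [h4] at h2
    exact ⟨b, hb, h2, h1⟩

/-- the path from the cell to `z` -/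
def DMP (N t : ℕ) (q : Pt) (E : Set Pt) (z : Pt) : Prop :=
  ∃ (m : ℕ) (x : ℕ → Pt) (b : ℕ → Pt), (∀ i ≤ m, x i ∈ E ∧ x i ∈ nbV 1 t q) ∧ x 0 ∈ cellV t q ∧
    x m = z ∧ ∀ i < m, b i ∈ Kept N ∧ b i ∈ nb 2 t q ∧ IsCor (x i) (b i) ∧ IsCor (x (i + 1)) (b i)

theorem DM_face {t : ℕ} {q z b : Pt} (hz : z ∈ nbV 1 t q) (hc : IsCor z b) : b ∈ nb 2 t q := by
  obtain ⟨h1, h2, h3, h4⟩ := hz
  obtain ⟨h5, h6⟩ := hc
  have hT : (1 : ℤ) ≤ 3 ^ t := one_le_pow₀ (by norm_num)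
  unfold nb box
  rw [Finset.mem_product, Finset.mem_Ico, Finset.mem_Ico]
  push_cast at h1 h2 h3 h4 ⊢
  generalize (3 : ℤ) ^ t = T at *
  refine ⟨⟨?_, ?_⟩, ?_, ?_⟩
  · rcases h5 with h5 | h5 <;> nlinarith
  · rcases h5 with h5 | h5 <;> nlinarith
  · rcases h6 with h6 | h6 <;> nlinarith
  · rcases h6 with h6 | h6 <;> nlinarith

theorem DM_cell {t : ℕ} {q z : Pt} (hz : z ∈ cellV t q) : z ∈ nbV 1 t q := by
  obtain ⟨h1, h2, h3, h4⟩ := hz
  have hT : (1 : ℤ) ≤ 3 ^ t := one_le_pow₀ (by norm_num)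
  show _ ∧ _ ∧ _ ∧ _
  push_cast
  generalize (3 : ℤ) ^ t = T at *
  refine ⟨?_, ?_, ?_, ?_⟩ <;> nlinarith

theorem DM_near {t : ℕ} {q z w b : Pt} (hz : ¬ ∀ y ∈ cellV t q, (3 : ℤ) ^ t ≤ dis z y)
    (h1 : IsCor z b) (h2 : IsCor w b) : w ∈ nbV 1 t q := by
  push Not at hz
  obtain ⟨y, ⟨h3, h4, h5, h6⟩, h7⟩ := hz
  unfold dis at h7
  rw [max_lt_iff, abs_lt, abs_lt] at h7
  obtain ⟨⟨h8, h9⟩, h10, h11⟩ := h7
  obtain ⟨a1, a2⟩ := h1
  obtain ⟨b1, b2⟩ := h2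
  show _ ∧ _ ∧ _ ∧ _
  push_cast
  generalize (3 : ℤ) ^ t = T at *
  have e1 : (q.1 - 1) * T = q.1 * T - T := by ring
  have e2 : (q.1 + 1 + 1) * T = (q.1 + 1) * T + T := by ring
  have e3 : (q.2 - 1) * T = q.2 * T - T := by ring
  have e4 : (q.2 + 1 + 1) * T = (q.2 + 1) * T + T := by ring
  rw [e1, e2, e3, e4]
  refine ⟨?_, ?_, ?_, ?_⟩
  · rcases a1 with a1 | a1 <;> rcases b1 with b1 | b1 <;> linarith
  · rcases a1 with a1 | a1 <;> rcases b1 with b1 | b1 <;> linarith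
  · rcases a2 with a2 | a2 <;> rcases b2 with b2 | b2 <;> linarith
  · rcases a2 with a2 | a2 <;> rcases b2 with b2 | b2 <;> linarith

theorem DM_ext {N t : ℕ} {q z w : Pt} {E : Set Pt} (hP : DMP N t q E z)
    (hz : ¬ ∀ y ∈ cellV t q, (3 : ℤ) ^ t ≤ dis z y) (hadj : adj (Kept N) z w) (hw : w ∈ E) :
    DMP N t q E w := by
  obtain ⟨m, x, b, h1, h2, h3, h4⟩ := hP
  obtain ⟨c, hc, hc1, hc2⟩ := DM_step hadj
  refine ⟨m + 1, fun i => if i ≤ m then x i else w, fun i => if i < m then b i else c,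
    ?_, ?_, ?_, ?_⟩
  · intro i hi
    by_cases him : i ≤ m
    · simp only [him, if_true]
      exact h1 i him
    · simp only [him, if_false]
      exact ⟨hw, DM_near hz hc1 hc2⟩
  · simp only [Nat.zero_le, if_true]
    exact h2
  · simp
  · intro i hi
    by_cases him : i < m
    · have h5 : i ≤ m := him.le
      have h6 : i + 1 ≤ m := him
      simp only [him, h5, h6, if_true]
      exact h4 i him
    · have h5 : i = m := by omega
      subst h5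
      simp only [lt_irrefl, if_false, le_refl, if_true, Nat.not_succ_le_self]
      rw [h3]
      exact ⟨hc, DM_face (h3 ▸ (h1 i le_rfl).2) hc1, hc1, hc2⟩

theorem p_DM : S_DM := by
  intro N t q E hE hx hy
  obtain ⟨x, hxE, hxq⟩ := hx
  obtain ⟨y, hyE, hyf⟩ := hy
  have key : ∀ z, Relation.ReflTransGen (fun a b => adj (Kept N) a b ∧ a ∈ E ∧ b ∈ E) x z →
      (∃ z', DMP N t q E z' ∧ ∀ y ∈ cellV t q, (3 : ℤ) ^ t ≤ dis z' y) ∨ DMP N t q E z := by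
    intro z hz
    induction hz with
    | refl =>
      right
      exact ⟨0, fun _ => x, fun _ => x, fun i _ => ⟨hxE, DM_cell hxq⟩, hxq, rfl,
        fun i hi => absurd hi (Nat.not_lt_zero i)⟩
    | @tail b' c' _ hstep ih =>
      rcases ih with ih | ih
      · exact Or.inl ih
      · by_cases hf : ∀ y ∈ cellV t q, (3 : ℤ) ^ t ≤ dis b' y
        · exact Or.inl ⟨b', ih, hf⟩
        · exact Or.inr (DM_ext ih hf hstep.1 hstep.2.2)
  have h2 := key y (hE.2 x hxE y hyE)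
  have h3 : ∃ z', DMP N t q E z' ∧ ∀ y ∈ cellV t q, (3 : ℤ) ^ t ≤ dis z' y := by
    rcases h2 with h2 | h2
    · exact h2
    · exact ⟨y, h2, hyf⟩
  obtain ⟨z, ⟨m, p, b, h4, h5, h6, h7⟩, hf⟩ := h3
  refine ⟨m, p, b, h4, h5, ?_, h7⟩
  rw [h6]
  exact hf

end CarpetPI
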