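import Pool.Agent.Lib.MP_1d263a_an.PI.StmD

/-!
# Piece DN: many stopping cells along a connected set
-/

set_option autoImplicit false

open Finset
open scoped Classical

noncomputable section

namespace CarpetPI

private theorem DN_VK_mul3 {n : ℕ} {x : Pt} (hx : x ∈ VK (Kept n)) :
    mulP 3 x ∈ VK (Kept (n + 1)) := by
  obtain ⟨f, hf, h1, h2⟩ := hx
  obtain ⟨k1, k2, k3, k4, k5⟩ := hf
  have key : ∀ a b : ℤ, (a = 0 ∨ a = 1) → (b = 0 ∨ b = 1) →
      (3 * f.1 + 2 * a, 3 * f.2 + 2 * b) ∈ Kept (n + 1) := by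
    intro a b ha hb
    have e3 : (3 : ℤ) ^ (n + 1) = 3 * 3 ^ n := by rw [pow_succ]; ring
    refine ⟨?_, ?_, ?_, ?_, ?_⟩
    · show 0 ≤ 3 * f.1 + 2 * a
      rcases ha with rfl | rfl <;> omega
    · show 3 * f.1 + 2 * a < 3 ^ (n + 1)
      rw [e3]
      rcases ha with rfl | rfl <;> omega
    · show 0 ≤ 3 * f.2 + 2 * b
      rcases hb with rfl | rfl <;> omega
    · show 3 * f.2 + 2 * b < 3 ^ (n + 1)
      rw [e3]
      rcases hb with rfl | rfl <;> omega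
    · intro k hk
      show ¬ ((3 * f.1 + 2 * a) / 3 ^ k % 3 = 1 ∧ (3 * f.2 + 2 * b) / 3 ^ k % 3 = 1)
      rcases k with _ | k
      · rw [pow_zero, Int.ediv_one, Int.ediv_one]
        rcases ha with rfl | rfl <;> omega
      · have e4 : ∀ (t c : ℤ), (c = 0 ∨ c = 1) →
            (3 * t + 2 * c) / 3 ^ (k + 1) = t / 3 ^ k := by
          intro t c hc
          have e5 : (3 : ℤ) ^ (k + 1) = 3 * 3 ^ k := by rw [pow_succ]; ring
          rw [e5, ← Int.ediv_ediv_of_nonneg (by norm_num : (0 : ℤ) ≤ 3)]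
          congr 1
          rcases hc with rfl | rfl <;> omega
        rw [e4 f.1 a ha, e4 f.2 b hb]
        exact k5 k (by omega)
  rcases h1 with h1 | h1 <;> rcases h2 with h2 | h2
  · refine ⟨_, key 0 0 (Or.inl rfl) (Or.inl rfl), ?_, ?_⟩
    · left; show 3 * x.1 = 3 * f.1 + 2 * 0; omega
    · left; show 3 * x.2 = 3 * f.2 + 2 * 0; omega
  · refine ⟨_, key 0 1 (Or.inl rfl) (Or.inr rfl), ?_, ?_⟩
    · left; show 3 * x.1 = 3 * f.1 + 2 * 0; omega
    · right; show 3 * x.2 = 3 * f.2 + 2 * 1 + 1; omega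
  · refine ⟨_, key 1 0 (Or.inr rfl) (Or.inl rfl), ?_, ?_⟩
    · right; show 3 * x.1 = 3 * f.1 + 2 * 1 + 1; omega
    · left; show 3 * x.2 = 3 * f.2 + 2 * 0; omega
  · refine ⟨_, key 1 1 (Or.inr rfl) (Or.inr rfl), ?_, ?_⟩
    · right; show 3 * x.1 = 3 * f.1 + 2 * 1 + 1; omega
    · right; show 3 * x.2 = 3 * f.2 + 2 * 1 + 1; omega

private theorem DN_mul_mul (a b : ℤ) (x : Pt) : mulP a (mulP b x) = mulP (a * b) x := by
  unfold mulP
  ext
  · show a * (b * x.1) = a * b * x.1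
    ring
  · show a * (b * x.2) = a * b * x.2
    ring

private theorem DN_scale {p : ℝ} (D : Dat p) (n i : ℕ) {x y : Pt} (hx : x ∈ VK (Kept n))
    (hy : y ∈ VK (Kept n)) : mulP (3 ^ i) x ∈ VK (Kept (n + i)) ∧ mulP (3 ^ i) y ∈ VK (Kept (n + i)) ∧
    D.d (n + i) (mulP (3 ^ i) x) (mulP (3 ^ i) y) = D.d n x y := by
  induction i with
  | zero =>
    have e : ∀ z : Pt, mulP (3 ^ 0) z = z := by
      intro z
      unfold mulP
      ext
      · show 3 ^ 0 * z.1 = z.1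
        ring
      · show 3 ^ 0 * z.2 = z.2
        ring
    rw [e, e]
    exact ⟨hx, hy, rfl⟩
  | succ i ih =>
    obtain ⟨h1, h2, h3⟩ := ih
    have e : ∀ z : Pt, mulP (3 ^ (i + 1)) z = mulP 3 (mulP (3 ^ i) z) := by
      intro z
      rw [DN_mul_mul, pow_succ, mul_comm]
    rw [e, e]
    refine ⟨DN_VK_mul3 h1, DN_VK_mul3 h2, ?_⟩
    have h4 := D.d_scale (n + i) _ h1 _ h2
    rw [← add_assoc, h4, h3]

/-- the corners of a cell, at level `N` -/
private theorem DN_corner {p : ℝ} (D : Dat p) {N J : ℕ} (hJ : J ≤ N) {c : Pt}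
    (hc : c ∈ Kept (N - J)) :
    mulP (3 ^ J) c ∈ VK (Kept N) ∧ mulP (3 ^ J) (c.1 + 1, c.2) ∈ VK (Kept N) ∧
    D.d N (mulP (3 ^ J) c) (mulP (3 ^ J) (c.1 + 1, c.2)) = D.d (N - J) c (c.1 + 1, c.2) := by
  have h1 : c ∈ VK (Kept (N - J)) := ⟨c, hc, Or.inl rfl, Or.inl rfl⟩
  have h2 : ((c.1 + 1, c.2) : Pt) ∈ VK (Kept (N - J)) := ⟨c, hc, Or.inr rfl, Or.inl rfl⟩
  have h3 := DN_scale D (N - J) J h1 h2
  rw [Nat.sub_add_cancel hJ] at h3
  exact h3

private theorem DN_dis_corner (J : ℕ) (c : Pt) :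
    dis (mulP (3 ^ J) c) (mulP (3 ^ J) (c.1 + 1, c.2)) = 3 ^ J := by
  unfold dis mulP
  show max |3 ^ J * c.1 - 3 ^ J * (c.1 + 1)| |3 ^ J * c.2 - 3 ^ J * c.2| = 3 ^ J
  have e1 : (3 : ℤ) ^ J * c.1 - 3 ^ J * (c.1 + 1) = -3 ^ J := by ring
  have h : (0 : ℤ) ≤ 3 ^ J := by positivity
  rw [e1, sub_self, abs_zero, abs_neg, abs_of_nonneg h, max_eq_left h]

private theorem DN_dis_le {J : ℕ} {c x : Pt} (hx : x ∈ cellV J c) :
    dis (mulP (3 ^ J) c) x ≤ 3 ^ J ∧ dis (mulP (3 ^ J) (c.1 + 1, c.2)) x ≤ 3 ^ J := by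
  obtain ⟨h1, h2, h3, h4⟩ := hx
  unfold dis mulP
  have e1 : (c.1 + 1) * (3 : ℤ) ^ J = c.1 * 3 ^ J + 3 ^ J := by ring
  have e2 : (c.2 + 1) * (3 : ℤ) ^ J = c.2 * 3 ^ J + 3 ^ J := by ring
  rw [e1] at h2
  rw [e2] at h4
  constructor
  · show max |3 ^ J * c.1 - x.1| |3 ^ J * c.2 - x.2| ≤ 3 ^ J
    rw [mul_comm _ c.1, mul_comm _ c.2]
    apply max_le <;> rw [abs_le] <;> constructor <;> linarith
  · show max |3 ^ J * (c.1 + 1) - x.1| |3 ^ J * c.2 - x.2| ≤ 3 ^ J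
    rw [mul_comm _ (c.1 + 1), mul_comm _ c.2, e1]
    apply max_le <;> rw [abs_le] <;> constructor <;> linarith

private theorem DN_cor_cell {J : ℕ} {c f x : Pt} (hf : f ∈ cell J c) (hx : IsCor x f) :
    x ∈ cellV J c := by
  unfold cell box at hf
  rw [Finset.mem_product, Finset.mem_Ico, Finset.mem_Ico] at hf
  obtain ⟨⟨h1, h2⟩, h3, h4⟩ := hf
  obtain ⟨hx1, hx2⟩ := hx
  refine ⟨?_, ?_, ?_, ?_⟩
  · rcases hx1 with h | h <;> omega
  · rcases hx1 with h | h <;> omega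
  · rcases hx2 with h | h <;> omega
  · rcases hx2 with h | h <;> omega

private theorem DN_dis_symm (x y : Pt) : dis x y = dis y x := by
  unfold dis
  rw [abs_sub_comm, abs_sub_comm x.2]

theorem p_DN (hDA : S_DA) (hDK : S_DK) (hDL : S_DL) (hDM : S_DM) (_hXJ : S_XJ) : S_DN := by
  intro p hp D
  obtain ⟨hA1, hA2, -⟩ := hDA
  obtain ⟨CK, hCK1, hCK⟩ := hDK p hp.le D
  have hp0 : 0 < p := by linarith
  set r : ℝ := 1 / p with hr
  have hr0 : 0 < r := by positivity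
  have hA0 : 0 < D.A := by linarith [D.hA]
  have hη0 : 0 ≤ D.η 1 := D.η_nonneg 1 zero_le_one
  set C' : ℝ := (D.A ^ r) ^ 2 * (2 * D.η 1) ^ 2 with hC'
  have hC'0 : 0 ≤ C' := by positivity
  refine ⟨max 1 (C' * CK), le_max_left _ _, ?_⟩
  intro τ hτ0 hτ1
  obtain ⟨L₀, hL₀⟩ := hCK τ hτ0 hτ1
  refine ⟨L₀, ?_⟩
  intro N t htN hLt q hq E hE hE1 hE2
  obtain ⟨j, hj1, hj2⟩ := hL₀ N t htN hLt q hq
  obtain ⟨m, x, b, hx, hx0, hxm, hb⟩ := hDM N t q E hE hE1 hE2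
  set μ : ℝ := D.mu (N - t) q with hμ
  have hμ0 : 0 < μ := D.mu_pos _ _ hq
  let lab : Pt → ℕ × Pt := fun f => (j f, up (j f) f)
  set w0 : ℝ := 2 * D.η 1 * (D.A * τ * μ) ^ r with hw0
  have hw0nn : 0 ≤ w0 := by positivity
  have hVK : ∀ i ≤ m, x i ∈ VK (Kept N) := fun i hi => hE.1 (hx i hi).1
  -- p-th roots
  have hroot : ∀ a c : ℝ, 0 ≤ a → a ^ p ≤ c → a ≤ c ^ r := by
    intro a c ha hac
    have h1 : (a ^ p) ^ r ≤ c ^ r := Real.rpow_le_rpow (by positivity) hac hr0.le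
    rwa [← Real.rpow_mul ha, hr, mul_one_div_cancel hp0.ne', Real.rpow_one] at h1
  have hstep : ∀ i < m, ∀ k < m, i ≤ k → lab (b i) = lab (b k) →
      D.d N (x i) (x (k + 1)) ≤ w0 := by
    intro i hi k hk _ hlab
    obtain ⟨hbi1, hbi2, hbi3, -⟩ := hb i hi
    obtain ⟨hbk1, hbk2, -, hbk4⟩ := hb k hk
    obtain ⟨hji, -, hjm, -⟩ := hj1 (b i) hbi1 hbi2
    have e1 : j (b i) = j (b k) := congrArg Prod.fst hlab
    have e2 : up (j (b i)) (b i) = up (j (b k)) (b k) := congrArg Prod.snd hlab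
    set J := j (b i) with hJ
    set c := up J (b i) with hc
    have hJN : J ≤ N := hji.trans htN
    have hcK : c ∈ Kept (N - J) := hA1 N J hJN (b i) hbi1
    have hci : b i ∈ cell J c := (hA2 J (b i) c).2 rfl
    have hck : b k ∈ cell J c := (hA2 J (b k) c).2 (by rw [e1]; rw [e2])
    have hxi : x i ∈ cellV J c := DN_cor_cell hci hbi3
    have hxk : x (k + 1) ∈ cellV J c := DN_cor_cell hck hbk4
    obtain ⟨hz, hz', hzd⟩ := DN_corner D hJN hcK
    have hVi := hVK i hi.le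
    have hVk := hVK (k + 1) hk
    have hq1 : D.d N (mulP (3 ^ J) c) (x i) ≤ D.η 1 * D.d (N - J) c (c.1 + 1, c.2) := by
      rw [← hzd]
      apply D.qs N _ hz _ hVi _ hz' 1 zero_le_one
      rw [one_mul, DN_dis_corner]
      exact_mod_cast (DN_dis_le hxi).1
    have hq2 : D.d N (mulP (3 ^ J) c) (x (k + 1)) ≤ D.η 1 * D.d (N - J) c (c.1 + 1, c.2) := by
      rw [← hzd]
      apply D.qs N _ hz _ hVk _ hz' 1 zero_le_one
      rw [one_mul, DN_dis_corner]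
      exact_mod_cast (DN_dis_le hxk).1
    have htri := D.d_tri N _ hVi _ hz _ hVk
    rw [D.d_symm N (x i) (mulP (3 ^ J) c)] at htri
    have hrho : D.d (N - J) c (c.1 + 1, c.2) ≤ (D.A * τ * μ) ^ r := by
      apply hroot _ _ (D.d_nonneg _ _ _)
      refine (D.ahl (N - J) c hcK).2.trans ?_
      rw [mul_assoc]
      exact mul_le_mul_of_nonneg_left hjm hA0.le
    have h5 := mul_le_mul_of_nonneg_left hrho hη0
    rw [hw0]
    linarith
  have hchain := hDL (D.d N) m x (fun i => lab (b i)) (fun _ => w0) (D.d_self N)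
    (fun i hi k hk l hl => D.d_tri N _ (hVK i hi) _ (hVK k hk) _ (hVK l hl))
    (fun _ => hw0nn) hstep
  rw [Finset.sum_const, nsmul_eq_mul] at hchain
  set n : ℕ := ((range m).image (fun i => lab (b i))).card with hn
  -- lower bound for the distance
  have hlow : μ ^ r ≤ D.A ^ r * (2 * D.η 1 * D.d N (x 0) (x m)) := by
    obtain ⟨hz, hz', hzd⟩ := DN_corner D htN hq
    have h0 := hVK 0 (Nat.zero_le _)
    have hm := hVK m le_rfl
    have hdis : (3 : ℤ) ^ t ≤ dis (x 0) (x m) := by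
      rw [DN_dis_symm]; exact hxm _ hx0
    have hq1 : D.d N (x 0) (mulP (3 ^ t) q) ≤ D.η 1 * D.d N (x 0) (x m) := by
      apply D.qs N _ h0 _ hz _ hm 1 zero_le_one
      rw [one_mul]
      have := (DN_dis_le hx0).1
      rw [DN_dis_symm] at this
      exact_mod_cast this.trans hdis
    have hq2 : D.d N (x 0) (mulP (3 ^ t) (q.1 + 1, q.2)) ≤ D.η 1 * D.d N (x 0) (x m) := by
      apply D.qs N _ h0 _ hz' _ hm 1 zero_le_one
      rw [one_mul]
      have := (DN_dis_le hx0).2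
      rw [DN_dis_symm] at this
      exact_mod_cast this.trans hdis
    have htri := D.d_tri N _ hz _ h0 _ hz'
    rw [D.d_symm N _ (x 0), hzd] at htri
    have h1 := (D.ahl (N - t) q hq).1
    have h2 : D.d (N - t) q (q.1 + 1, q.2) ≤ 2 * D.η 1 * D.d N (x 0) (x m) := by linarith
    have h3 : μ ^ r ≤ (D.A * D.d (N - t) q (q.1 + 1, q.2) ^ p) ^ r :=
      Real.rpow_le_rpow hμ0.le h1 hr0.le
    rw [Real.mul_rpow hA0.le (by have := D.d_nonneg (N - t) q (q.1 + 1, q.2); positivity),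
      ← Real.rpow_mul (D.d_nonneg _ _ _), hr, mul_one_div_cancel hp0.ne', Real.rpow_one, ← hr] at h3
    refine h3.trans ?_
    exact mul_le_mul_of_nonneg_left h2 (by positivity)
  have hone : 1 ≤ C' * n * τ ^ r := by
    have h1 : D.A ^ r * (2 * D.η 1 * D.d N (x 0) (x m)) ≤ D.A ^ r * (2 * D.η 1 * (n * w0)) := by
      apply mul_le_mul_of_nonneg_left _ (by positivity)
      exact mul_le_mul_of_nonneg_left hchain (by positivity)
    have h2 := hlow.trans h1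
    have h3 : (D.A * τ * μ) ^ r = D.A ^ r * τ ^ r * μ ^ r := by
      rw [Real.mul_rpow (by positivity) hμ0.le, Real.mul_rpow hA0.le hτ0.le]
    have h4 : D.A ^ r * (2 * D.η 1 * (n * w0)) = (C' * n * τ ^ r) * μ ^ r := by
      rw [hw0, h3, hC']
      ring
    rw [h4] at h2
    have h5 : 0 < μ ^ r := Real.rpow_pos_of_pos hμ0 _
    by_contra hlt
    push Not at hlt
    have h6 : (C' * n * τ ^ r) * μ ^ r < 1 * μ ^ r := mul_lt_mul_of_pos_right hlt h5
    linarith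
  -- representatives
  obtain ⟨G, hG1, hG2, hG3⟩ := Finset.exists_subset_injOn_image_eq_of_surjOn (f := lab)
    (((range m).image b : Finset Pt) : Set Pt) ((range m).image (fun i => lab (b i))) (by
      intro a ha
      rw [Finset.coe_image] at ha
      obtain ⟨i, hi, rfl⟩ := ha
      exact ⟨b i, by rw [Finset.coe_image]; exact ⟨i, hi, rfl⟩, rfl⟩)
  have hGb : ∀ f ∈ G, ∃ i < m, b i = f := by
    intro f hf
    have h1 := hG1 hf
    rw [Finset.coe_image] at h1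
    obtain ⟨i, hi, rfl⟩ := h1
    rw [Finset.coe_range, Set.mem_Iio] at hi
    exact ⟨i, hi, rfl⟩
  have hGcard : G.card = n := by
    rw [hn, ← hG3, Finset.card_image_of_injOn hG2]
  refine ⟨G, j, ?_, ?_, ?_⟩
  · intro f hf
    obtain ⟨i, hi, rfl⟩ := hGb f hf
    obtain ⟨hb1, hb2, hb3, -⟩ := hb i hi
    obtain ⟨k1, k2, k3, -⟩ := hj1 (b i) hb1 hb2
    exact ⟨hb1, hb2, k1, k2, ⟨x i, (hx i hi.le).1, hb3⟩, k3⟩
  · intro f hf f' hf' hne
    obtain ⟨i, hi, rfl⟩ := hGb f hf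
    obtain ⟨i', hi', rfl⟩ := hGb f' hf'
    obtain ⟨hb1, hb2, -, -⟩ := hb i hi
    obtain ⟨hb1', hb2', -, -⟩ := hb i' hi'
    rcases hj2 (b i) hb1 hb2 (b i') hb1' hb2' with h | ⟨h1, h2⟩
    · exact h
    · exfalso
      apply hne
      exact hG2 hf hf' (Prod.ext h1 h2)
  · have hsum : (n : ℝ) * (τ * μ) ≤ CK * ∑ f ∈ G, D.mu (N - j f) (up (j f) f) := by
      rw [Finset.mul_sum, ← hGcard, ← nsmul_eq_mul, ← Finset.sum_const]
      apply Finset.sum_le_sum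
      intro f hf
      obtain ⟨i, hi, rfl⟩ := hGb f hf
      obtain ⟨hb1, hb2, -, -⟩ := hb i hi
      exact (hj1 (b i) hb1 hb2).2.2.2
    have hS0 : 0 ≤ ∑ f ∈ G, D.mu (N - j f) (up (j f) f) := by
      apply Finset.sum_nonneg
      intro f hf
      obtain ⟨i, hi, rfl⟩ := hGb f hf
      obtain ⟨hb1, hb2, -, -⟩ := hb i hi
      obtain ⟨k1, -, -, -⟩ := hj1 (b i) hb1 hb2
      exact (D.mu_pos _ _ (hA1 N _ (k1.trans htN) (b i) hb1)).le
    have h1 : τ ^ (1 - r) ≤ C' * n * τ := by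
      rw [Real.rpow_sub hτ0, Real.rpow_one, div_le_iff₀ (Real.rpow_pos_of_pos hτ0 _)]
      have := mul_le_mul_of_nonneg_left hone hτ0.le
      linarith
    calc τ ^ (1 - r) * μ ≤ C' * n * τ * μ := mul_le_mul_of_nonneg_right h1 hμ0.le
      _ = C' * (n * (τ * μ)) := by ring
      _ ≤ C' * (CK * ∑ f ∈ G, D.mu (N - j f) (up (j f) f)) :=
          mul_le_mul_of_nonneg_left hsum hC'0
      _ = (C' * CK) * ∑ f ∈ G, D.mu (N - j f) (up (j f) f) := by ring
      _ ≤ _ := mul_le_mul_of_nonneg_right (le_max_right _ _) hS0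

end CarpetPI
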