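import Pool.Agent.Lib.MP_1d263a_an.PI.StmD

/-!
# MP_1d263a_an, project PI, piece DO: no concentration on continua
-/

open Finset
open scoped Classical

noncomputable section

namespace CarpetPI

lemma DO_root {a b s : ℝ} (ha : 0 ≤ a) (hs : 0 < s) (hab : a ^ s ≤ b) : a ≤ b ^ (1 / s) := by
  have h1 : (a ^ s) ^ (1 / s) = a := by
    rw [← Real.rpow_mul ha, mul_one_div, div_self hs.ne', Real.rpow_one]
  have h2 : (a ^ s) ^ (1 / s) ≤ b ^ (1 / s) :=
    Real.rpow_le_rpow (Real.rpow_nonneg ha s) hab (by positivity)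
  linarith [h1 ▸ h2]

/-- choice of the parameter -/
lemma DO_tau {p K : ℝ} (hp : 1 < p) (hp2 : p < 2) (hK : 0 ≤ K) : ∃ τ : ℝ, 0 < τ ∧ τ ≤ 1 ∧
    K * τ ^ (1 / p) ≤ τ ^ (1 - 1 / p) := by
  have hp0 : 0 < p := by linarith
  set s : ℝ := 2 / p - 1 with hs
  have hs0 : 0 < s := by
    have : 1 < 2 / p := by rw [lt_div_iff₀ hp0]; linarith
    linarith
  refine ⟨(1 + K) ^ (-(1 / s)), by positivity, ?_, ?_⟩
  · apply Real.rpow_le_one_of_one_le_of_nonpos (by linarith)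
    have : 0 < 1 / s := by positivity
    linarith
  · set τ : ℝ := (1 + K) ^ (-(1 / s)) with hτ
    have hτ0 : 0 < τ := by positivity
    have h1 : τ ^ s = (1 + K)⁻¹ := by
      rw [hτ, ← Real.rpow_mul (by linarith), neg_mul, one_div_mul_cancel hs0.ne', Real.rpow_neg_one]
    have h2 : τ ^ (1 / p) = τ ^ (1 - 1 / p) * τ ^ s := by
      rw [← Real.rpow_add hτ0]
      congr 1
      rw [hs]
      field_simp
      ring
    rw [h2, h1]
    have h3 : 0 < τ ^ (1 - 1 / p) := by positivity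
    have h4 : K * (1 + K)⁻¹ ≤ 1 := by
      rw [← div_eq_mul_inv, div_le_one (by linarith)]
      linarith
    calc K * (τ ^ (1 - 1 / p) * (1 + K)⁻¹) = τ ^ (1 - 1 / p) * (K * (1 + K)⁻¹) := by ring
      _ ≤ τ ^ (1 - 1 / p) * 1 := by gcongr
      _ = _ := by ring

lemma DO_div_le (a b : ℤ) (s m : ℕ) (h : a ≤ b + m) : a / 3 ^ s ≤ b / 3 ^ s + m := by
  have h3 : (0 : ℤ) < 3 ^ s := by positivity
  have h1 : a ≤ b + m * 3 ^ s := by
    have : (m : ℤ) * 1 ≤ m * 3 ^ s := by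
      apply mul_le_mul_of_nonneg_left _ (by positivity)
      linarith
    linarith
  calc a / 3 ^ s ≤ (b + m * 3 ^ s) / 3 ^ s := Int.ediv_le_ediv h3 h1
    _ = b / 3 ^ s + m := by rw [Int.add_mul_ediv_right _ _ h3.ne']

lemma DO_dis_le {f g : Pt} {m : ℤ} : dis f g ≤ m ↔
    (f.1 ≤ g.1 + m ∧ g.1 ≤ f.1 + m) ∧ (f.2 ≤ g.2 + m ∧ g.2 ≤ f.2 + m) := by
  unfold dis
  rw [max_le_iff, abs_le, abs_le]
  constructor
  · rintro ⟨⟨h1, h2⟩, h3, h4⟩
    refine ⟨⟨?_, ?_⟩, ?_, ?_⟩ <;> linarith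
  · rintro ⟨⟨h1, h2⟩, h3, h4⟩
    refine ⟨⟨?_, ?_⟩, ?_, ?_⟩ <;> linarith

lemma DO_up_dis {s m : ℕ} {f g : Pt} (h : dis f g ≤ m) : dis (up s f) (up s g) ≤ m := by
  rw [DO_dis_le] at h ⊢
  obtain ⟨⟨h1, h2⟩, h3, h4⟩ := h
  exact ⟨⟨DO_div_le _ _ _ _ h1, DO_div_le _ _ _ _ h2⟩, DO_div_le _ _ _ _ h3, DO_div_le _ _ _ _ h4⟩

lemma DO_up_up (s t : ℕ) (f : Pt) : up s (up t f) = up (s + t) f := by
  unfold up
  simp only [Prod.mk.injEq]
  have h3 : (0 : ℤ) ≤ 3 ^ t := by positivity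
  constructor
  · rw [Int.ediv_ediv_of_nonneg h3, ← pow_add, add_comm]
  · rw [Int.ediv_ediv_of_nonneg h3, ← pow_add, add_comm]

lemma DO_nb_iff {m t : ℕ} {q f : Pt} : f ∈ nb m t q ↔ dis (up t f) q ≤ m := by
  have h3 : (0 : ℤ) < 3 ^ t := by positivity
  rw [DO_dis_le]
  unfold nb box up
  simp only [Finset.mem_product, Finset.mem_Ico]
  have e1 : ∀ a b : ℤ, a * 3 ^ t ≤ b ↔ a ≤ b / 3 ^ t := fun a b => by
    rw [Int.le_ediv_iff_mul_le h3]
  have e2 : ∀ a b : ℤ, b < a * 3 ^ t ↔ b / 3 ^ t < a := fun a b => by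
    rw [Int.ediv_lt_iff_lt_mul h3]
  rw [e1, e1, e2, e2]
  constructor
  · rintro ⟨⟨h1, h2⟩, h4, h5⟩
    refine ⟨⟨?_, ?_⟩, ?_, ?_⟩ <;> omega
  · rintro ⟨⟨h1, h2⟩, h4, h5⟩
    refine ⟨⟨?_, ?_⟩, ?_, ?_⟩ <;> omega

lemma DO_cellV_cor {t : ℕ} {q f x : Pt} (hf : up t f = q) (hx : IsCor x f) : x ∈ cellV t q := by
  have h3 : (0 : ℤ) < 3 ^ t := by positivity
  subst hf
  unfold cellV up
  simp only [Set.mem_ofPred_eq]
  have a1 := Int.ediv_mul_le f.1 h3.ne'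
  have a2 := Int.lt_ediv_add_one_mul_self f.1 h3
  have b1 := Int.ediv_mul_le f.2 h3.ne'
  have b2 := Int.lt_ediv_add_one_mul_self f.2 h3
  obtain ⟨hx1, hx2⟩ := hx
  refine ⟨?_, ?_, ?_, ?_⟩
  · rcases hx1 with h | h <;> omega
  · rcases hx1 with h | h <;> omega
  · rcases hx2 with h | h <;> omega
  · rcases hx2 with h | h <;> omega

theorem p_DO (hDA : S_DA) (hDE : S_DE) (hDF : S_DF) (hDH : S_DH) (hDN : S_DN) : S_DO := by
  intro p hp hp2 D
  have hp0 : 0 < p := by linarith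
  obtain ⟨A1, A2, A3, A4, A5, A6, A7, A8⟩ := hDA
  set r : ℝ := p / (p - 1) with hr
  have hr0 : 0 < r := by
    rw [hr]; apply div_pos hp0; linarith
  have hpr : 1 / p + 1 / r = 1 := by
    rw [hr]
    have : p - 1 ≠ 0 := by linarith
    field_simp
    ring
  obtain ⟨CE, mE, hCE1, hE'⟩ := hDE p hp D
  obtain ⟨CF, hCF1, hF'⟩ := hDF p r hp hpr D 3
  obtain ⟨CN, hCN1, hN'⟩ := hDN p hp D
  set K : ℝ := 16 * CN * CF ^ (1 / r) with hK
  have hK0 : 0 < K := by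
    have : 0 < CF := by linarith
    have : 0 < CN := by linarith
    positivity
  obtain ⟨τ, hτ0, hτ1, hτ⟩ := DO_tau (K := 4 * K * CE ^ (1 / p)) hp hp2 (by
    have : 0 < CE := by linarith
    positivity)
  obtain ⟨L₀, hL₀⟩ := hN' τ hτ0 hτ1
  have hτp : 0 < τ ^ (1 - 1 / p) := by positivity
  refine ⟨τ ^ (1 - 1 / p) / (4 * K), mE + 4, L₀, by positivity, ?_⟩
  intro N T L Q u v hS t htT hTL q hq hdeep E hconn hE1 hE2
  set ε : ℝ := τ ^ (1 - 1 / p) / (4 * K) with hε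
  have hε0 : 0 < ε := by positivity
  by_contra hcon
  push Not at hcon
  have htN : t ≤ N := htT.trans hS.TN
  have hLT := hS.LT
  have hL₀t : L₀ ≤ t := by omega
  have hμ : 0 < D.mu (N - t) q := D.mu_pos _ q hq
  set μ : ℝ := D.mu (N - t) q with hμdef
  obtain ⟨G, j, hG1, hG2, hG3⟩ := hL₀ N t htN hL₀t q hq E hconn hE1 hE2
  obtain ⟨x₀, hx₀E, -⟩ := hE1
  have hCE0 : 0 < CE := by linarith
  have hCF0 : 0 < CF := by linarith
  have hCN0 : 0 < CN := by linarith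
  -- the cells of the faces in `G`
  have hcell : ∀ b ∈ G, ∀ f ∈ cell (j b) (up (j b) b), f ∈ nb 2 t q := by
    intro b hb f hf
    obtain ⟨hbK, hbnb, hjt, -, -, -⟩ := hG1 b hb
    rw [A2] at hf
    rw [DO_nb_iff] at hbnb ⊢
    have h1 : ∀ g : Pt, up t g = up (t - j b) (up (j b) g) := fun g => by
      rw [DO_up_up, Nat.sub_add_cancel hjt]
    rw [h1 f, hf, ← h1 b]
    exact hbnb
  have hdeepG : ∀ b ∈ G, Deep mE (j b) T Q (up (j b) b) := by
    intro b hb f hf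
    obtain ⟨hbK, hbnb, hjt, -, -, -⟩ := hG1 b hb
    rw [DO_nb_iff] at hbnb
    have h2 : dis (up (t - j b) f) (up (t - j b) (up (j b) b)) ≤ mE := DO_up_dis hf
    rw [DO_up_up, Nat.sub_add_cancel hjt] at h2
    have h3 : dis (up (t - j b) f) q ≤ (mE + 4 : ℕ) := by
      rw [DO_dis_le] at h2 hbnb ⊢
      push_cast at hbnb ⊢
      omega
    have h4 := hdeep _ h3
    rw [A2] at h4 ⊢
    rw [DO_up_up] at h4
    have h5 : T - t + (t - j b) = T - j b := by omega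
    rw [h5] at h4
    exact h4
  have hdeep4 : Deep (3 + 1) t T Q q := by
    intro f hf
    apply hdeep f
    refine hf.trans ?_
    push_cast
    omega
  -- the interval for `u`
  set δ : ℝ := ε * μ ^ (1 / p) + (CE * (τ * μ)) ^ (1 / p) with hδ
  have hδ0 : 0 ≤ δ := by positivity
  have hU : ∀ f ∈ G.biUnion (fun b => cell (j b) (up (j b) b)), f ∈ Kept N → ∀ x, IsCor x f →
      u x₀ - δ ≤ u x ∧ u x ≤ u x₀ + δ := by
    intro f hf hfK x hx
    rw [Finset.mem_biUnion] at hf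
    obtain ⟨b, hb, hfb⟩ := hf
    obtain ⟨hbK, hbnb, hjt, hjL, ⟨e, heE, heb⟩, hmu⟩ := hG1 b hb
    have hxV : x ∈ cellV (j b) (up (j b) b) := DO_cellV_cor ((A2 _ _ _).1 hfb) hx
    have heV : e ∈ cellV (j b) (up (j b) b) := DO_cellV_cor rfl heb
    have hgK : up (j b) b ∈ Kept (N - j b) := A1 N (j b) (hjt.trans htN) b hbK
    have h1 := hE' N T L Q u v hS (j b) (hjt.trans htT) (by omega) (up (j b) b) hgK (hdeepG b hb)
      x ⟨f, hfK, hx⟩ e ⟨b, hbK, heb⟩ hxV heV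
    have h2 : |u x - u e| ^ p ≤ CE * (τ * μ) := h1.trans (by gcongr)
    have h3 : |u x - u e| ≤ (CE * (τ * μ)) ^ (1 / p) := DO_root (abs_nonneg _) hp0 h2
    have h4 := hcon e heE x₀ hx₀E
    rw [abs_le] at h3
    rw [abs_lt] at h4
    constructor <;> linarith
  -- the interval for `v`
  set g₀ : Pt := (q.1 * 3 ^ t, q.2 * 3 ^ t) with hg₀
  have hg₀up : up t g₀ = q := by
    have h3 : (3 : ℤ) ^ t ≠ 0 := by positivity
    unfold up
    rw [hg₀]
    simp [Int.mul_ediv_cancel _ h3]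
  have hg₀nb : g₀ ∈ nb 3 t q := by
    rw [DO_nb_iff, hg₀up]
    simp [dis]
  set θ : ℝ := (CF * μ) ^ (1 / r) with hθ
  have hθ0 : 0 ≤ θ := by positivity
  have hV : ∀ f ∈ G.biUnion (fun b => cell (j b) (up (j b) b)), f ∈ Kept N → ∀ g : Pt,
      dis f g ≤ 1 → v g₀ - θ ≤ v g ∧ v g ≤ v g₀ + θ := by
    intro f hf hfK g hg
    rw [Finset.mem_biUnion] at hf
    obtain ⟨b, hb, hfb⟩ := hf
    have hf2 := hcell b hb f hfb
    have hg3 : g ∈ nb 3 t q := by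
      rw [DO_nb_iff] at hf2 ⊢
      have h1 : dis (up t f) (up t g) ≤ (1 : ℕ) := DO_up_dis (by exact_mod_cast hg)
      rw [DO_dis_le] at h1 hf2 ⊢
      push_cast at h1 hf2 ⊢
      omega
    have h1 := hF' N T L Q u v hS t htT (by omega) q hq hdeep4 g hg3 g₀ hg₀nb
    have h3 : |v g - v g₀| ≤ (CF * μ) ^ (1 / r) := DO_root (abs_nonneg _) hr0 h1
    rw [abs_le] at h3
    constructor <;> linarith
  -- upper bound
  have hsub : G.biUnion (fun b => cell (j b) (up (j b) b)) ⊆ cell T Q := by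
    intro f hf
    rw [Finset.mem_biUnion] at hf
    obtain ⟨b, hb, hfb⟩ := hf
    apply A4 (3 + 1) t T Q q htT hdeep4
    have hf2 := hcell b hb f hfb
    rw [DO_nb_iff] at hf2 ⊢
    refine hf2.trans ?_
    norm_num
  have hup := hDH p hp D N T L Q u v hS (G.biUnion (fun b => cell (j b) (up (j b) b)))
    (u x₀ - δ) (u x₀ + δ) (v g₀ - θ) (v g₀ + θ) (by linarith) (by linarith) hsub hU hV
  -- lower bound
  have hEn : En p (Kept N) u (G.biUnion (fun b => cell (j b) (up (j b) b))) =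
      ∑ b ∈ G, En p (Kept N) u (cell (j b) (up (j b) b)) := by
    unfold En
    rw [Finset.filter_biUnion, Finset.sum_biUnion]
    intro b hb b' hb' hne
    exact Finset.disjoint_filter_filter (hG2 b hb b' hb' hne)
  have hlow : ∑ b ∈ G, D.mu (N - j b) (up (j b) b) ≤
      2 * En p (Kept N) u (G.biUnion (fun b => cell (j b) (up (j b) b))) := by
    rw [hEn, Finset.mul_sum]
    apply Finset.sum_le_sum
    intro b hb
    obtain ⟨hbK, hbnb, hjt, hjL, -, hmu⟩ := hG1 b hb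
    have hgK : up (j b) b ∈ Kept (N - j b) := A1 N (j b) (hjt.trans htN) b hbK
    apply hS.lo (j b) (hjt.trans htT) (by omega) _ hgK
    apply hdeepG b hb
    simp [dis]
  -- the end
  have hpow : μ ^ (1 / p) * μ ^ (1 / r) = μ := by
    rw [← Real.rpow_add hμ, hpr, Real.rpow_one]
  have hδe : δ = (ε + CE ^ (1 / p) * τ ^ (1 / p)) * μ ^ (1 / p) := by
    rw [hδ, Real.mul_rpow hCE0.le (by positivity), Real.mul_rpow hτ0.le hμ.le]
    ring
  have hθe : θ = CF ^ (1 / r) * μ ^ (1 / r) := by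
    rw [hθ, Real.mul_rpow hCF0.le hμ.le]
  have hfin : τ ^ (1 - 1 / p) * μ ≤ K * (ε + CE ^ (1 / p) * τ ^ (1 / p)) * μ := by
    calc τ ^ (1 - 1 / p) * μ ≤ CN * ∑ b ∈ G, D.mu (N - j b) (up (j b) b) := hG3
      _ ≤ CN * (2 * (2 * (u x₀ + δ - (u x₀ - δ)) * (v g₀ + θ - (v g₀ - θ)))) := by
          apply mul_le_mul_of_nonneg_left _ hCN0.le
          linarith
      _ = 16 * CN * δ * θ := by ring
      _ = K * (ε + CE ^ (1 / p) * τ ^ (1 / p)) * (μ ^ (1 / p) * μ ^ (1 / r)) := by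
          rw [hδe, hθe, hK]; ring
      _ = _ := by rw [hpow]
  have hfin2 : τ ^ (1 - 1 / p) ≤ K * (ε + CE ^ (1 / p) * τ ^ (1 / p)) :=
    le_of_mul_le_mul_right hfin hμ
  have hKε : K * ε = τ ^ (1 - 1 / p) / 4 := by
    rw [hε]
    field_simp
  nlinarith

end CarpetPI
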