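import Pool.Agent.Lib.MP_1d263a_an.PI.AllX
import Pool.Agent.Lib.MP_1d263a_an.PI.DA
import Pool.Agent.Lib.MP_1d263a_an.PI.DB
import Pool.Agent.Lib.MP_1d263a_an.PI.DC
import Pool.Agent.Lib.MP_1d263a_an.PI.DD
import Pool.Agent.Lib.MP_1d263a_an.PI.DE
import Pool.Agent.Lib.MP_1d263a_an.PI.DF
import Pool.Agent.Lib.MP_1d263a_an.PI.DG
import Pool.Agent.Lib.MP_1d263a_an.PI.DH
import Pool.Agent.Lib.MP_1d263a_an.PI.DI
import Pool.Agent.Lib.MP_1d263a_an.PI.DJ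
import Pool.Agent.Lib.MP_1d263a_an.PI.DK
import Pool.Agent.Lib.MP_1d263a_an.PI.DL
import Pool.Agent.Lib.MP_1d263a_an.PI.DM
import Pool.Agent.Lib.MP_1d263a_an.PI.DN
import Pool.Agent.Lib.MP_1d263a_an.PI.DO

/-!
# MP_1d263a_an, project PI, part D: all pieces together
-/

namespace CarpetPI

theorem t_DA : S_DA := p_DA
theorem t_DB : S_DB := p_DB
theorem t_DC : S_DC := p_DC t_DA
theorem t_DD : S_DD := p_DD t_XJ t_DA
theorem t_DE : S_DE := p_DE t_XI t_DA t_DB t_DC t_DD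
theorem t_DF : S_DF := p_DF t_XH t_XL t_DA t_DC t_DD
theorem t_DG : S_DG := p_DG
theorem t_DH : S_DH := p_DH t_DA t_DC t_DG
theorem t_DI : S_DI := p_DI t_DA t_DE t_DF t_DH
theorem t_DJ : S_DJ := p_DJ t_DA
theorem t_DK : S_DK := p_DK t_DA t_DJ t_XJ
theorem t_DL : S_DL := p_DL
theorem t_DM : S_DM := p_DM
theorem t_DN : S_DN := p_DN t_DA t_DK t_DL t_DM t_XJ
theorem t_DO : S_DO := p_DO t_DA t_DE t_DF t_DH t_DN

end CarpetPI
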