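import Pool.Agent.Lib.MP_1d263a_an.PI.StmH

/-!
# MP_1d263a_an, project PI, piece HB: the cutoff of a block
-/

open Finset
open scoped Classical

noncomputable section

namespace CarpetPI

theorem HB_min (a b a' b' : ℝ) : |min a b - min a' b'| ≤ max |a - a'| |b - b'| :=
  abs_min_sub_min_le_max a b a' b'

theorem HB_rpow_max {q : ℝ} {x y : ℝ} (hx : 0 ≤ x) (hy : 0 ≤ y) :
    (max x y) ^ q ≤ x ^ q + y ^ q := by
  rcases le_total x y with h | h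
  · rw [max_eq_right h]
    have := Real.rpow_nonneg hx q
    linarith
  · rw [max_eq_left h]
    have := Real.rpow_nonneg hy q
    linarith

theorem HB_min_rpow {q : ℝ} (hq : 0 < q) (a b a' b' : ℝ) :
    |min a b - min a' b'| ^ q ≤ |a - a'| ^ q + |b - b'| ^ q :=
  (Real.rpow_le_rpow (abs_nonneg _) (HB_min a b a' b') hq.le).trans
    (HB_rpow_max (abs_nonneg _) (abs_nonneg _))

theorem HB_dv {q : ℝ} (hq : 0 < q) (V : Pt → ℝ) (m : ℕ) (x₀ x₁ y₀ y₁ : ℤ) (e : Ed) :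
    |dv (cut V m x₀ x₁ y₀ y₁) e| ^ q ≤
      |dv (WL V (x₀ * 3 ^ m)) e| ^ q + |dv (WR V (x₁ * 3 ^ m)) e| ^ q +
        (|dv (WB V (y₀ * 3 ^ m)) e| ^ q + |dv (WT V (y₁ * 3 ^ m)) e| ^ q) := by
  unfold dv cut
  refine (HB_min_rpow hq _ _ _ _).trans ?_
  exact add_le_add (HB_min_rpow hq _ _ _ _) (HB_min_rpow hq _ _ _ _)

theorem p_HB (hHE : S_HE) : S_HB := by
  intro q C m V x₀ x₁ y₀ y₁ hq hC hV hx hy
  have h01 : ∀ f, 0 ≤ cut V m x₀ x₁ y₀ y₁ f ∧ cut V m x₀ x₁ y₀ y₁ f ≤ 1 := by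
    intro f
    refine ⟨?_, ?_⟩
    · exact le_min (le_min (hV.nn _) (hV.nn _)) (le_min (hV.nn _) (hV.nn _))
    · exact (min_le_left _ _).trans ((min_le_left _ _).trans (hV.le _))
  have h2 : ∀ f, f ∉ box (x₀ * 3 ^ m) (x₁ * 3 ^ m) (y₀ * 3 ^ m) (y₁ * 3 ^ m) →
      cut V m x₀ x₁ y₀ y₁ f = 0 := by
    intro f hf
    refine le_antisymm ?_ (h01 f).1
    simp only [box, Finset.mem_product, Finset.mem_Ico] at hf
    by_cases h1 : f.1 < x₀ * 3 ^ m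
    · refine (min_le_left _ _).trans ((min_le_left _ _).trans (le_of_eq ?_))
      exact hV.left _ (by show f.1 - x₀ * 3 ^ m < 0; omega)
    by_cases h2 : x₁ * 3 ^ m ≤ f.1
    · refine (min_le_left _ _).trans ((min_le_right _ _).trans (le_of_eq ?_))
      exact hV.left _ (by show x₁ * 3 ^ m - 1 - f.1 < 0; omega)
    by_cases h3 : f.2 < y₀ * 3 ^ m
    · refine (min_le_right _ _).trans ((min_le_left _ _).trans (le_of_eq ?_))
      exact hV.left _ (by show f.2 - y₀ * 3 ^ m < 0; omega)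
    by_cases h4 : y₁ * 3 ^ m ≤ f.2
    · refine (min_le_right _ _).trans ((min_le_right _ _).trans (le_of_eq ?_))
      exact hV.left _ (by show y₁ * 3 ^ m - 1 - f.2 < 0; omega)
    exact absurd ⟨⟨not_lt.1 h1, not_le.1 h2⟩, not_lt.1 h3, not_le.1 h4⟩ hf
  refine ⟨h01, h2, ?_, ?_⟩
  · intro f hf
    simp only [box, Finset.mem_product, Finset.mem_Ico] at hf
    obtain ⟨⟨h1, h3⟩, h4, h5⟩ := hf
    have e1 : (x₀ + 1) * 3 ^ m = x₀ * 3 ^ m + 3 ^ m := by ring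
    have e2 : (x₁ - 1) * 3 ^ m = x₁ * 3 ^ m - 3 ^ m := by ring
    have e3 : (y₀ + 1) * 3 ^ m = y₀ * 3 ^ m + 3 ^ m := by ring
    have e4 : (y₁ - 1) * 3 ^ m = y₁ * 3 ^ m - 3 ^ m := by ring
    rw [e1] at h1
    rw [e2] at h3
    rw [e3] at h4
    rw [e4] at h5
    have a1 : WL V (x₀ * 3 ^ m) f = 1 :=
      hV.right _ (by show (3 : ℤ) ^ m ≤ f.1 - x₀ * 3 ^ m; linarith)
    have a2 : WR V (x₁ * 3 ^ m) f = 1 :=
      hV.right _ (by show (3 : ℤ) ^ m ≤ x₁ * 3 ^ m - 1 - f.1; omega)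
    have a3 : WB V (y₀ * 3 ^ m) f = 1 :=
      hV.right _ (by show (3 : ℤ) ^ m ≤ f.2 - y₀ * 3 ^ m; linarith)
    have a4 : WT V (y₁ * 3 ^ m) f = 1 :=
      hV.right _ (by show (3 : ℤ) ^ m ≤ y₁ * 3 ^ m - 1 - f.2; omega)
    simp only [cut, a1, a2, a3, a4, min_self]
  · intro S
    set B : Finset Pt := box (x₀ * 3 ^ m) (x₁ * 3 ^ m) (y₀ * 3 ^ m) (y₁ * 3 ^ m) with hB
    set S' : Finset Ed := S.filter (fun e => lf e ∈ B ∨ rf e ∈ B) with hS'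
    have hsum : ∑ e ∈ S, |dv (cut V m x₀ x₁ y₀ y₁) e| ^ q =
        ∑ e ∈ S', |dv (cut V m x₀ x₁ y₀ y₁) e| ^ q := by
      symm
      refine Finset.sum_subset (Finset.filter_subset _ _) ?_
      intro e heS he
      have hne : ¬ (lf e ∈ B ∨ rf e ∈ B) := fun h => he (Finset.mem_filter.2 ⟨heS, h⟩)
      have n1 := h2 (lf e) (fun h => hne (Or.inl h))
      have n2 := h2 (rf e) (fun h => hne (Or.inr h))
      simp only [dv, n1, n2, sub_self, abs_zero]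
      exact Real.zero_rpow hq.ne'
    have hmem : ∀ e ∈ S', lf e ∈ B ∨ rf e ∈ B := fun e he => (Finset.mem_filter.1 he).2
    obtain ⟨i1, i2, i3, i4⟩ := hHE q C m V x₀ x₁ y₀ y₁ S' hq hC hV hx hy hmem
    rw [hsum]
    calc ∑ e ∈ S', |dv (cut V m x₀ x₁ y₀ y₁) e| ^ q
        ≤ ∑ e ∈ S', (|dv (WL V (x₀ * 3 ^ m)) e| ^ q + |dv (WR V (x₁ * 3 ^ m)) e| ^ q +
            (|dv (WB V (y₀ * 3 ^ m)) e| ^ q + |dv (WT V (y₁ * 3 ^ m)) e| ^ q)) :=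
          Finset.sum_le_sum fun e _ => HB_dv hq V m x₀ x₁ y₀ y₁ e
      _ = ∑ e ∈ S', |dv (WL V (x₀ * 3 ^ m)) e| ^ q + ∑ e ∈ S', |dv (WR V (x₁ * 3 ^ m)) e| ^ q +
            (∑ e ∈ S', |dv (WB V (y₀ * 3 ^ m)) e| ^ q +
              ∑ e ∈ S', |dv (WT V (y₁ * 3 ^ m)) e| ^ q) := by
          rw [Finset.sum_add_distrib, Finset.sum_add_distrib, Finset.sum_add_distrib]
      _ ≤ C * ((y₁ - y₀ : ℤ) : ℝ) + C * ((y₁ - y₀ : ℤ) : ℝ) +
            (C * ((x₁ - x₀ : ℤ) : ℝ) + C * ((x₁ - x₀ : ℤ) : ℝ)) :=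
          add_le_add (add_le_add i1 i2) (add_le_add i3 i4)
      _ = C * (2 * ((x₁ - x₀ : ℤ) : ℝ) + 2 * ((y₁ - y₀ : ℤ) : ℝ)) := by ring

end CarpetPI
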