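import Pool.Agent.Lib.MP_1d263a_an.PI.StmH

/-! # Piece HE: the energy of the strips -/

open Finset
open scoped Classical

noncomputable section

namespace CarpetPI

theorem HE_per {q C : ℝ} {m : ℕ} {V : Pt → ℝ} (h : Prof q m C V) (a b j : ℤ) :
    V (a, b + j * 3 ^ m) = V (a, b) := by
  induction j using Int.induction_on with
  | zero => simp
  | succ i ih =>
    have h1 := h.per a (b + i * 3 ^ m)
    rw [ih] at h1
    rw [← h1]
    congr 2
    ring
  | pred i ih =>
    have h1 := h.per a (b + (-(i : ℤ) - 1) * 3 ^ m)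
    rw [← h1, ← ih]
    congr 2
    ring

theorem HE_sum {α β : Type} (S : Finset α) (R : Finset β) (f : α → ℝ) (g : β → ℝ) (φ : α → β)
    (hg : ∀ b ∈ R, 0 ≤ g b) (hf : ∀ a ∈ S, f a ≠ 0 → φ a ∈ R ∧ f a = g (φ a))
    (hinj : ∀ a b : α, φ a = φ b → a = b) : ∑ a ∈ S, f a ≤ ∑ b ∈ R, g b := by
  have h1 : ∑ a ∈ S, f a = ∑ a ∈ S.filter (fun a => f a ≠ 0), f a := by
    rw [Finset.sum_filter_ne_zero]
  have h2 : ∑ a ∈ S.filter (fun a => f a ≠ 0), f a =
      ∑ a ∈ S.filter (fun a => f a ≠ 0), g (φ a) := by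
    refine Finset.sum_congr rfl fun a ha => ?_
    rw [Finset.mem_filter] at ha
    exact (hf a ha.1 ha.2).2
  have h3 : ∑ a ∈ S.filter (fun a => f a ≠ 0), g (φ a) =
      ∑ b ∈ (S.filter (fun a => f a ≠ 0)).image φ, g b := by
    rw [Finset.sum_image]
    intro a _ b _ hab
    exact hinj a b hab
  rw [h1, h2, h3]
  refine Finset.sum_le_sum_of_subset_of_nonneg ?_ (fun b hb _ => hg b hb)
  intro b hb
  rw [Finset.mem_image] at hb
  obtain ⟨a, ha, rfl⟩ := hb
  rw [Finset.mem_filter] at ha
  exact (hf a ha.1 ha.2).1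

/-- the edge moved to the basic cell -/
def HE_phi (m : ℕ) (e : Ed) : ℤ × Ed :=
  (e.2.2 / 3 ^ m, (e.1, (e.2.1, e.2.2 % 3 ^ m)))

theorem HE_core {q C : ℝ} {m : ℕ} {V : Pt → ℝ} (hq : 0 < q) (h : Prof q m C V) (a b : ℤ)
    (hab : a ≤ b) (S : Finset Ed)
    (hS : ∀ e ∈ S, (a * 3 ^ m ≤ (lf e).2 ∧ (lf e).2 < b * 3 ^ m) ∨
      (a * 3 ^ m ≤ (rf e).2 ∧ (rf e).2 < b * 3 ^ m)) :
    ∑ e ∈ S, |dv V e| ^ q ≤ C * ((b - a : ℤ) : ℝ) := by
  have hT : (0 : ℤ) < 3 ^ m := by positivity
  have key : ∑ e ∈ S, |dv V e| ^ q ≤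
      ∑ z ∈ Finset.Ico a b ×ˢ cellEd m, |dv V z.2| ^ q := by
    refine HE_sum S _ _ (fun z => |dv V z.2| ^ q) (HE_phi m) ?_ ?_ ?_
    · intro z _
      exact Real.rpow_nonneg (abs_nonneg _) _
    · intro e he hne
      have hdv : dv V e ≠ 0 := by
        intro h0
        apply hne
        rw [h0, abs_zero, Real.zero_rpow hq.ne']
      have hs := hS e he
      obtain ⟨t, x, y⟩ := e
      have hy : y = y % 3 ^ m + (y / 3 ^ m) * 3 ^ m := by
        have := Int.emod_add_mul_ediv y (3 ^ m)
        linarith [mul_comm (3 ^ m : ℤ) (y / 3 ^ m)]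
      have hr0 : 0 ≤ y % 3 ^ m := Int.emod_nonneg _ hT.ne'
      have hr1 : y % 3 ^ m < 3 ^ m := Int.emod_lt_of_pos _ hT
      cases t with
      | true =>
        simp only [lf, rf, if_true] at hs
        have hs' : a * 3 ^ m ≤ y ∧ y < b * 3 ^ m := by tauto
        have e1 : V (x - 1, y) = V (x - 1, y % 3 ^ m) := by
          conv_lhs => rw [hy]
          exact HE_per h _ _ _
        have e2 : V (x, y) = V (x, y % 3 ^ m) := by
          conv_lhs => rw [hy]
          exact HE_per h _ _ _
        have e3 : dv V (true, (x, y)) = dv V (true, (x, y % 3 ^ m)) := by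
          simp only [dv, lf, rf, if_true]
          rw [e1, e2]
        refine ⟨?_, ?_⟩
        · rw [HE_phi, Finset.mem_product, Finset.mem_Ico]
          refine ⟨⟨?_, ?_⟩, ?_⟩
          · exact (Int.le_ediv_iff_mul_le hT).mpr hs'.1
          · exact Int.ediv_lt_of_lt_mul hT hs'.2
          · unfold cellEd
            rw [Finset.mem_union]
            left
            rw [Finset.mem_image]
            refine ⟨(x, y % 3 ^ m), ?_, rfl⟩
            rw [Finset.mem_product, Finset.mem_Icc, Finset.mem_Ico]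
            refine ⟨⟨?_, ?_⟩, hr0, hr1⟩
            · by_contra hc
              apply hdv
              simp only [dv, lf, rf, if_true]
              rw [h.left _ (by show x - 1 < 0; omega), h.left _ (by show x < 0; omega), sub_self]
            · by_contra hc
              apply hdv
              simp only [dv, lf, rf, if_true]
              have hc' : (3 : ℤ) ^ m < x := not_le.mp hc
              rw [h.right _ (by show (3 : ℤ) ^ m ≤ x - 1; omega),
                h.right _ (by show (3 : ℤ) ^ m ≤ x; omega), sub_self]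
        · show |dv V (true, (x, y))| ^ q = |dv V (true, (x, y % 3 ^ m))| ^ q
          rw [e3]
      | false =>
        simp only [lf, rf, Bool.false_eq_true, if_false] at hs
        have hr : y % 3 ^ m ≠ 0 := by
          intro h0
          apply hdv
          simp only [dv, lf, rf, Bool.false_eq_true, if_false]
          have e1 : V (x, y) = V (x, 0) := by
            conv_lhs => rw [hy, h0]
            exact HE_per h _ _ _
          have e2 : V (x, y - 1) = V (x, -1) := by
            have : y - 1 = -1 + (y / 3 ^ m) * 3 ^ m := by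
              rw [h0] at hy
              linarith
            rw [this]
            exact HE_per h _ _ _
          rw [e1, e2, h.seam, sub_self]
        have hs' : a * 3 ^ m ≤ y ∧ y < b * 3 ^ m := by
          constructor
          · rcases hs with hs | hs
            · exact hs.1
            · omega
          · rcases hs with hs | hs
            · exact hs.2
            · rcases lt_or_eq_of_le (show y ≤ b * 3 ^ m by omega) with h1 | h1
              · exact h1
              · exfalso
                apply hr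
                rw [h1]
                exact Int.mul_emod_left _ _
        have e1 : V (x, y) = V (x, y % 3 ^ m) := by
          conv_lhs => rw [hy]
          exact HE_per h _ _ _
        have e2 : V (x, y - 1) = V (x, y % 3 ^ m - 1) := by
          have : y - 1 = (y % 3 ^ m - 1) + (y / 3 ^ m) * 3 ^ m := by linarith
          conv_lhs => rw [this]
          exact HE_per h _ _ _
        have e3 : dv V (false, (x, y)) = dv V (false, (x, y % 3 ^ m)) := by
          simp only [dv, lf, rf, Bool.false_eq_true, if_false]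
          rw [e1, e2]
        refine ⟨?_, ?_⟩
        · rw [HE_phi, Finset.mem_product, Finset.mem_Ico]
          refine ⟨⟨?_, ?_⟩, ?_⟩
          · exact (Int.le_ediv_iff_mul_le hT).mpr hs'.1
          · exact Int.ediv_lt_of_lt_mul hT hs'.2
          · unfold cellEd
            rw [Finset.mem_union]
            right
            rw [Finset.mem_image]
            refine ⟨(x, y % 3 ^ m), ?_, rfl⟩
            rw [Finset.mem_product, Finset.mem_Ico, Finset.mem_Ioo]
            refine ⟨⟨?_, ?_⟩, by omega, hr1⟩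
            · by_contra hc
              apply hdv
              simp only [dv, lf, rf, Bool.false_eq_true, if_false]
              rw [h.left _ (by show x < 0; omega), h.left _ (by show x < 0; omega), sub_self]
            · by_contra hc
              apply hdv
              simp only [dv, lf, rf, Bool.false_eq_true, if_false]
              have hc' : (3 : ℤ) ^ m ≤ x := not_lt.mp hc
              rw [h.right _ (by show (3 : ℤ) ^ m ≤ x; omega),
                h.right _ (by show (3 : ℤ) ^ m ≤ x; omega), sub_self]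
        · show |dv V (false, (x, y))| ^ q = |dv V (false, (x, y % 3 ^ m))| ^ q
          rw [e3]
    · rintro ⟨t, x, y⟩ ⟨t', x', y'⟩ hee
      simp only [HE_phi, Prod.mk.injEq] at hee
      obtain ⟨h1, h2, h3, h4⟩ := hee
      have hy := Int.emod_add_mul_ediv y (3 ^ m)
      have hy' := Int.emod_add_mul_ediv y' (3 ^ m)
      rw [h1, h4] at hy
      rw [h2, h3, ← hy, hy']
  refine key.trans ?_
  rw [Finset.sum_product]
  simp only [Finset.sum_const, nsmul_eq_mul, Int.card_Ico]
  have h1 : (((b - a).toNat : ℕ) : ℝ) = ((b - a : ℤ) : ℝ) := by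
    have : (((b - a).toNat : ℕ) : ℤ) = b - a := Int.toNat_of_nonneg (by omega)
    exact_mod_cast this
  rw [h1, mul_comm]
  refine mul_le_mul_of_nonneg_right h.en ?_
  have : (0 : ℤ) ≤ b - a := by omega
  exact_mod_cast this

theorem HE_tr {q C : ℝ} {m : ℕ} {V : Pt → ℝ} (hq : 0 < q) (h : Prof q m C V) (a b : ℤ)
    (hab : a ≤ b) (W : Pt → ℝ) (σ : Pt → Pt) (ς : Ed → Ed) (hW : ∀ f, W f = V (σ f))
    (hς : ∀ e, (lf (ς e) = σ (lf e) ∧ rf (ς e) = σ (rf e)) ∨
      (lf (ς e) = σ (rf e) ∧ rf (ς e) = σ (lf e)))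
    (hinj : Function.Injective ς) (S : Finset Ed)
    (hS : ∀ e ∈ S, (a * 3 ^ m ≤ (σ (lf e)).2 ∧ (σ (lf e)).2 < b * 3 ^ m) ∨
      (a * 3 ^ m ≤ (σ (rf e)).2 ∧ (σ (rf e)).2 < b * 3 ^ m)) :
    ∑ e ∈ S, |dv W e| ^ q ≤ C * ((b - a : ℤ) : ℝ) := by
  have h1 : ∑ e ∈ S, |dv W e| ^ q = ∑ e ∈ S.image ς, |dv V e| ^ q := by
    rw [Finset.sum_image (fun x _ y _ hxy => hinj hxy)]
    refine Finset.sum_congr rfl fun e _ => ?_
    have h2 : |dv W e| = |dv V (ς e)| := by
      unfold dv
      rcases hς e with ⟨h3, h4⟩ | ⟨h3, h4⟩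
      · rw [h3, h4, hW, hW]
      · rw [h3, h4, hW, hW, abs_sub_comm]
    rw [h2]
  rw [h1]
  refine HE_core hq h a b hab _ fun e he => ?_
  rw [Finset.mem_image] at he
  obtain ⟨e', he', rfl⟩ := he
  rcases hς e' with ⟨h3, h4⟩ | ⟨h3, h4⟩
  · rw [h3, h4]
    exact hS e' he'
  · rw [h3, h4]
    exact (hS e' he').symm

theorem p_HE : S_HE := by
  intro q C m V x₀ x₁ y₀ y₁ S hq hC h hx hy hS
  have hbox : ∀ f : Pt, f ∈ box (x₀ * 3 ^ m) (x₁ * 3 ^ m) (y₀ * 3 ^ m) (y₁ * 3 ^ m) →
      (x₀ * 3 ^ m ≤ f.1 ∧ f.1 < x₁ * 3 ^ m) ∧ (y₀ * 3 ^ m ≤ f.2 ∧ f.2 < y₁ * 3 ^ m) := by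
    intro f hf
    simpa [box] using hf
  refine ⟨?_, ?_, ?_, ?_⟩
  · refine HE_tr hq h y₀ y₁ hy _ (fun f => (f.1 - x₀ * 3 ^ m, f.2))
      (fun e => (e.1, (e.2.1 - x₀ * 3 ^ m, e.2.2))) (fun f => rfl) ?_ ?_ S ?_
    · rintro ⟨t, x, y⟩
      cases t
      · left
        simp [lf, rf]
      · left
        simp [lf, rf]
        ring
    · rintro ⟨t, x, y⟩ ⟨t', x', y'⟩ hee
      simp only [Prod.mk.injEq] at hee
      obtain ⟨h1, h2, h3⟩ := hee
      rw [h1, h3, show x = x' by linarith]
    · intro e he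
      rcases hS e he with h1 | h1
      · exact Or.inl (hbox _ h1).2
      · exact Or.inr (hbox _ h1).2
  · refine HE_tr hq h y₀ y₁ hy _ (fun f => (x₁ * 3 ^ m - 1 - f.1, f.2))
      (fun e => (e.1, (if e.1 then x₁ * 3 ^ m - e.2.1 else x₁ * 3 ^ m - 1 - e.2.1, e.2.2)))
      (fun f => rfl) ?_ ?_ S ?_
    · rintro ⟨t, x, y⟩
      cases t
      · left
        simp [lf, rf]
      · right
        simp [lf, rf]
        ring
    · rintro ⟨t, x, y⟩ ⟨t', x', y'⟩ hee
      simp only [Prod.mk.injEq] at hee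
      obtain ⟨h1, h2, h3⟩ := hee
      subst h1
      rw [h3]
      cases t
      · simp at h2
        rw [h2]
      · simp at h2
        rw [h2]
    · intro e he
      rcases hS e he with h1 | h1
      · exact Or.inl (hbox _ h1).2
      · exact Or.inr (hbox _ h1).2
  · refine HE_tr hq h x₀ x₁ hx _ (fun f => (f.2 - y₀ * 3 ^ m, f.1))
      (fun e => (!e.1, (e.2.2 - y₀ * 3 ^ m, e.2.1))) (fun f => rfl) ?_ ?_ S ?_
    · rintro ⟨t, x, y⟩
      cases t
      · right
        simp [lf, rf]
        ring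
      · right
        simp [lf, rf]
    · rintro ⟨t, x, y⟩ ⟨t', x', y'⟩ hee
      simp only [Prod.mk.injEq] at hee
      obtain ⟨h1, h2, h3⟩ := hee
      have h4 : t = t' := by simpa using h1
      rw [h4, h3, show y = y' by linarith]
    · intro e he
      rcases hS e he with h1 | h1
      · exact Or.inl (hbox _ h1).1
      · exact Or.inr (hbox _ h1).1
  · refine HE_tr hq h x₀ x₁ hx _ (fun f => (y₁ * 3 ^ m - 1 - f.2, f.1))
      (fun e => (!e.1, (if e.1 then y₁ * 3 ^ m - 1 - e.2.2 else y₁ * 3 ^ m - e.2.2, e.2.1)))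
      (fun f => rfl) ?_ ?_ S ?_
    · rintro ⟨t, x, y⟩
      cases t
      · left
        simp [lf, rf]
        ring
      · right
        simp [lf, rf]
    · rintro ⟨t, x, y⟩ ⟨t', x', y'⟩ hee
      simp only [Prod.mk.injEq] at hee
      obtain ⟨h1, h2, h3⟩ := hee
      have h4 : t = t' := by simpa using h1
      subst h4
      rw [h3]
      cases t
      · simp at h2
        rw [h2]
      · simp at h2
        rw [h2]
    · intro e he
      rcases hS e he with h1 | h1
      · exact Or.inl (hbox _ h1).1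
      · exact Or.inr (hbox _ h1).1

end CarpetPI
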