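import Pool.Agent.Lib.MP_1d263a_an.PI.StmX

/-!
# MP_1d263a_an, project PI, definitions for the last step (parts F, G, H)

All pictures are above the upper side of a hole. A block consists of two kept cells of size `3^s` with a
common lower corner `y` on the upper side of the hole.
-/

open Finset
open scoped Classical

noncomputable section

namespace CarpetPI

/-- the block: the two cells of size `3^s` above the hole with the common lower corner `y` -/
def blk (s : ℕ) (y : Pt) : Finset Pt := box (y.1 - 3 ^ s) (y.1 + 3 ^ s) y.2 (y.2 + 3 ^ s)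

/-- the faces of the block at distance at least `3^r` from its left, right and upper side -/
def ins (s r : ℕ) (y : Pt) : Finset Pt :=
  box (y.1 - 3 ^ s + 3 ^ r) (y.1 + 3 ^ s - 3 ^ r) y.2 (y.2 + 3 ^ s - 3 ^ r)

/-- the faces of the block at distance at least `3^r` from its four sides -/
def inn (s r : ℕ) (y : Pt) : Finset Pt :=
  box (y.1 - 3 ^ s + 3 ^ r) (y.1 + 3 ^ s - 3 ^ r) (y.2 + 3 ^ r) (y.2 + 3 ^ s - 3 ^ r)

/-- the edges touching a set of faces -/
def eT (B : Finset Pt) : Finset Ed := B.biUnion sides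

/-- the present edges touching a set of faces -/
def eB (K : Set Pt) (B : Finset Pt) : Finset Ed := (eT B).filter (fun e => pres K e)

/-- `y` is a point of the upper side of a hole, with room `3^T`: the two cells of size `3^T` above `y`
are kept, and nothing is kept in the corresponding two cells below `y`. -/
structure Flat (N T : ℕ) (y : Pt) : Prop where
  hT : T ≤ N
  d1 : (3 : ℤ) ^ T ∣ y.1
  d2 : (3 : ℤ) ^ T ∣ y.2
  cR : (y.1 / 3 ^ T, y.2 / 3 ^ T) ∈ Kept (N - T)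
  cL : (y.1 / 3 ^ T - 1, y.2 / 3 ^ T) ∈ Kept (N - T)
  hol : ∀ f : Pt, y.1 - 3 ^ T ≤ f.1 → f.1 < y.1 + 3 ^ T → y.2 - 3 ^ T ≤ f.2 → f.2 < y.2 →
    f ∉ Kept N

/-- `(u, w)` is a pair in the block (the equation is `du u = phi q (dv w)`, the inverse of
`dv w = phi p (du u)`), `w = 0` in the hole, `w > 0` in the block -/
structure BlP (q : ℝ) (N s : ℕ) (y : Pt) (u w : Pt → ℝ) : Prop where
  pr : ∀ e ∈ eT (blk s y), (pres (Kept N) e → du u e = phi q (dv w e)) ∧
    (¬ pres (Kept N) e → dv w e = 0)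
  hol : ∀ f : Pt, y.1 - 3 ^ s ≤ f.1 → f.1 < y.1 + 3 ^ s → y.2 - 3 ^ s ≤ f.2 → f.2 < y.2 → w f = 0
  pos : ∀ f ∈ blk s y, 0 < w f

/-- (III') in the block: the oscillation of `u` on every connected vertex set in the closed block with
two points at distance at least `3^(s-k)` is at least `e (energy of u in the block)^(1/p)` -/
def Crs (p e : ℝ) (k N s : ℕ) (y : Pt) (u : Pt → ℝ) : Prop :=
  ∀ Z : Set Pt, Conn (Kept N) Z → Z ⊆ clB (y.1 - 3 ^ s) (y.1 + 3 ^ s) y.2 (y.2 + 3 ^ s) →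
    (∃ x ∈ Z, ∃ z ∈ Z, (3 : ℤ) ^ (s - k) ≤ dis x z) →
    ∃ x ∈ Z, ∃ z ∈ Z, e * En p (Kept N) u (blk s y) ^ (1 / p) ≤ |u x - u z|

/-- everything that the last step needs of a pair: it is a pair in the big block `(T, y)`, energies of
concentric blocks are comparable, and (III') holds in all the blocks `(s, y')`, `y' = y + (c 3^s, 0)`, of
depth at least `T₀ + k` inside the big one -/
structure Half (p q A : ℝ) (ε : ℕ → ℝ) (N T₀ T : ℕ) (y : Pt) (u w : Pt → ℝ) : Prop where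
  bl : BlP q N T y u w
  gro : ∀ s : ℕ, T₀ ≤ s → s < T →
    En p (Kept N) u (blk (s + 1) y) ≤ A * En p (Kept N) u (blk s y)
  crs : ∀ (s k : ℕ) (c : ℤ), 1 ≤ k → T₀ + k ≤ s → |c| * 3 ^ s + 3 ^ s ≤ 3 ^ T →
    Crs p (ε k) k N s (y.1 + c * 3 ^ s, y.2) u

/-- DUAL CUTOFF, four sides (part H): `η = 0` outside the block, `η = 1` at distance at least `3^(s-k)`
from the four sides, no jump across absent edges -/
def Cut4 (q : ℝ) (k : ℕ) (C : ℝ) : Prop := ∀ (N s : ℕ) (y : Pt), Flat N s y → k ≤ s →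
  ∃ η : Pt → ℝ, (∀ f, 0 ≤ η f) ∧ (∀ f, η f ≤ 1) ∧ (∀ f, f ∉ blk s y → η f = 0) ∧
    (∀ f ∈ inn s (s - k) y, η f = 1) ∧ (∀ e ∈ eT (blk s y), ¬ pres (Kept N) e → dv η e = 0) ∧
    ∑ e ∈ eB (Kept N) (blk s y), |dv η e| ^ q ≤ C

/-- DUAL CUTOFF, three sides (part H): above the line `η = 0` outside the block and `η = 1` at distance at
least `3^(s-k)` from the left, right and upper side; `η = 1` below the line; the edges on the line (sides
of the hole) are not counted -/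
def Cut3 (q : ℝ) (k : ℕ) (C : ℝ) : Prop := ∀ (N s : ℕ) (y : Pt), Flat N s y → k ≤ s →
  ∃ η : Pt → ℝ, (∀ f, 0 ≤ η f) ∧ (∀ f, η f ≤ 1) ∧ (∀ f, f ∉ blk s y → y.2 ≤ f.2 → η f = 0) ∧
    (∀ f : Pt, f.2 < y.2 → η f = 1) ∧ (∀ f ∈ ins s (s - k) y, η f = 1) ∧
    (∀ e ∈ eT (blk s y), ¬ pres (Kept N) e → dv η e = 0) ∧
    ∑ e ∈ (eB (Kept N) (blk s y)).filter (fun e => y.2 ≤ (lf e).2 ∧ y.2 ≤ (rf e).2),
      |dv η e| ^ q ≤ C

/-- the final statement of part H -/
def S_Hfinal : Prop := ∀ (p q : ℝ), 1 < p → 1 / p + 1 / q = 1 → Dat p → ∀ k : ℕ, 1 ≤ k →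
  ∃ C : ℝ, Cut4 q k C ∧ Cut3 q k C

/-- reflection of the vertices in the vertical line through `y` -/
def rv (y x : Pt) : Pt := (2 * y.1 - x.1, x.2)

/-- reflection of the faces in the vertical line through `y` -/
def rfc (y f : Pt) : Pt := (2 * y.1 - 1 - f.1, f.2)

/-- the final statement of part F: for some scale the energy of `u + u ∘ rv` in the block `(s, y)` is small
compared with the energy of `u` -/
def S_Ffinal : Prop := ∀ (p q : ℝ), 1 < p → p < 2 → 1 / p + 1 / q = 1 → Dat p →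
  ∀ (A : ℝ) (ε : ℕ → ℝ), (∀ k, 0 < ε k) → ∀ δ : ℝ, 0 < δ → ∃ n : ℕ,
  ∀ (N T₀ T : ℕ) (y : Pt) (u w : Pt → ℝ), T₀ + n ≤ T → Flat N T y → Half p q A ε N T₀ T y u w →
  ∃ s : ℕ, T₀ ≤ s ∧ s ≤ T ∧
    En p (Kept N) (fun x => u x + u (rv y x)) (blk s y) ≤ δ * En p (Kept N) u (blk s y)

end CarpetPI
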