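import Pool.Agent.Lib.MP_1d263a_an.PI.StmH
import Pool.Agent.Lib.MP_1d263a_an.PI.DefsF

/-!
# MP_1d263a_an, project PI, part H: the final statement (dual cutoffs of the blocks above a hole)
-/

open Finset
open scoped Classical

noncomputable section

namespace CarpetPI

theorem HF_lay (hHK : S_HK) {N s k : ℕ} {y : Pt} (hF : Flat N s y) (hks : k ≤ s) {X Y : ℤ}
    (hX : y.1 = X * 3 ^ (s - k)) (hY : y.2 = Y * 3 ^ (s - k)) {c : Pt}
    (h1 : X - 3 ^ k ≤ c.1) (h2 : c.1 < X + 3 ^ k) (h3 : Y ≤ c.2) (h4 : c.2 < Y + 3 ^ k)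
    (h : c.1 = X - 3 ^ k ∨ c.1 + 1 = X + 3 ^ k ∨ c.2 = Y ∨ c.2 + 1 = Y + 3 ^ k) :
    c ∈ Kept (N - (s - k)) := by
  obtain ⟨K1, K2, -⟩ := hHK
  have hpk : (0 : ℤ) < 3 ^ k := by positivity
  have hpm : (0 : ℤ) < 3 ^ (s - k) := by positivity
  have hps : (0 : ℤ) < 3 ^ s := by positivity
  have hs : (3 : ℤ) ^ s = 3 ^ k * 3 ^ (s - k) := by rw [← pow_add]; congr 1; omega
  obtain ⟨a, ha⟩ := hF.d1
  obtain ⟨b, hb⟩ := hF.d2
  have hda : y.1 / 3 ^ s = a := by rw [ha]; exact Int.mul_ediv_cancel_left _ hps.ne'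
  have hdb : y.2 / 3 ^ s = b := by rw [hb]; exact Int.mul_ediv_cancel_left _ hps.ne'
  have hXa : X = a * 3 ^ k := by
    have : X * 3 ^ (s - k) = (a * 3 ^ k) * 3 ^ (s - k) := by
      rw [← hX, ha, hs]; ring
    exact mul_right_cancel₀ hpm.ne' this
  have hYb : Y = b * 3 ^ k := by
    have : Y * 3 ^ (s - k) = (b * 3 ^ k) * 3 ^ (s - k) := by
      rw [← hY, hb, hs]; ring
    exact mul_right_cancel₀ hpm.ne' this
  have hN : N - s + k = N - (s - k) := by have := hF.hT; omega
  rcases le_or_gt X c.1 with hc | hc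
  · have hQ := hF.cR
    rw [hda, hdb] at hQ
    have hmem : c ∈ cell k (a, b) := by
      simp only [cell, box, Finset.mem_product, Finset.mem_Ico]
      constructor <;> constructor <;> nlinarith
    have := (K1 (N - s) k (a, b) c hmem).2 ⟨hQ, ?_⟩
    · rwa [hN] at this
    · apply K2
      · simp only [cell, box, Finset.mem_product, Finset.mem_Ico]
        constructor <;> constructor <;> nlinarith
      · simp only
        rcases h with h | h | h | h
        · omega
        · right; left; rw [hXa] at h; linarith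
        · right; right; left; rw [hYb] at h; linarith
        · right; right; right; rw [hYb] at h; linarith
  · have hQ := hF.cL
    rw [hda, hdb] at hQ
    have hmem : c ∈ cell k (a - 1, b) := by
      simp only [cell, box, Finset.mem_product, Finset.mem_Ico]
      constructor <;> constructor <;> nlinarith
    have := (K1 (N - s) k (a - 1, b) c hmem).2 ⟨hQ, ?_⟩
    · rwa [hN] at this
    · apply K2
      · simp only [cell, box, Finset.mem_product, Finset.mem_Ico]
        constructor <;> constructor <;> nlinarith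
      · simp only
        rcases h with h | h | h | h
        · left; rw [hXa] at h; linarith
        · omega
        · right; right; left; rw [hYb] at h; linarith
        · right; right; right; rw [hYb] at h; linarith

/-- the faces of the bottom row of a block are kept -/
theorem HF_row (hHK : S_HK) {N s : ℕ} {y : Pt} (hF : Flat N s y) {f : Pt} (hf : f ∈ blk s y)
    (h2 : f.2 = y.2) : f ∈ Kept N := by
  have h0 : s - s = 0 := Nat.sub_self s
  have := HF_lay hHK hF (le_refl s) (X := y.1) (Y := y.2) (by simp [h0]) (by simp [h0]) (c := f)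
  simp only [blk, box, Finset.mem_product, Finset.mem_Ico] at hf
  have h := this (by linarith [hf.1.1]) (by linarith [hf.1.2]) (by linarith [hf.2.1])
    (by linarith [hf.2.2]) (Or.inr (Or.inr (Or.inl h2)))
  simpa [h0] using h

theorem HF_mem_eT {B : Finset Pt} {e : Ed} (h : e ∈ eT B) : lf e ∈ B ∨ rf e ∈ B := by
  simp only [eT, Finset.mem_biUnion] at h
  obtain ⟨f, hf, he⟩ := h
  simp only [sides, Finset.mem_insert, Finset.mem_singleton] at he
  rcases he with rfl | rfl | rfl | rfl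
  · left; simpa [lf] using hf
  · right; simpa [rf] using hf
  · right; simpa [rf] using hf
  · left; simpa [lf] using hf

theorem HF_lf_rf (e : Ed) : (lf e).2 ≤ (rf e).2 + 1 ∧ (rf e).2 ≤ (lf e).2 := by
  obtain ⟨b, x⟩ := e
  cases b <;> simp [lf, rf]

theorem p_Hfinal (hHK : S_HK) (hHJ : S_HJ) (hHB : S_HB)
    (hHP : ∀ p : ℝ, 1 < p → ∀ _ : Dat p, ∃ C : ℝ, 0 < C ∧ ∀ m : ℕ, ∃ V : Pt → ℝ,
      Prof (p / (p - 1)) m C V) : S_Hfinal := by
  intro p q hp hpq D k hk
  have hp0 : 0 < p := by linarith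
  have hp1 : 0 < p - 1 := by linarith
  have hq : q = p / (p - 1) := by
    have h1 : 1 / q = (p - 1) / p := by
      have : 1 / q = 1 - 1 / p := by linarith
      rw [this]; field_simp
    have h2 : q = 1 / (1 / q) := by rw [one_div_one_div]
    rw [h2, h1, one_div_div]
  have hq0 : 0 < q := by rw [hq]; positivity
  obtain ⟨C₀, hC₀, hV⟩ := hHP p hp D
  rw [← hq] at hV
  have hk3 : (3 : ℤ) ≤ 3 ^ k := by
    calc (3 : ℤ) = 3 ^ 1 := by norm_num
      _ ≤ 3 ^ k := pow_le_pow_right₀ (by norm_num) hk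
  have hk3R : (0 : ℝ) < 3 ^ k := by positivity
  refine ⟨C₀ * (8 * 3 ^ k), ?_, ?_⟩
  · intro N s y hF hks
    obtain ⟨V, hP⟩ := hV (s - k)
    have hs : (3 : ℤ) ^ s = 3 ^ k * 3 ^ (s - k) := by rw [← pow_add]; congr 1; omega
    obtain ⟨X, hX⟩ : ∃ X, y.1 = X * 3 ^ (s - k) := by
      obtain ⟨a, ha⟩ := hF.d1
      exact ⟨a * 3 ^ k, by rw [ha, hs]; ring⟩
    obtain ⟨Y, hY⟩ : ∃ Y, y.2 = Y * 3 ^ (s - k) := by
      obtain ⟨a, ha⟩ := hF.d2
      exact ⟨a * 3 ^ k, by rw [ha, hs]; ring⟩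
    have hN : N - (s - k) + (s - k) = N := by have := hF.hT; omega
    obtain ⟨B1, B2, B3, B4⟩ := hHB q C₀ (s - k) V (X - 3 ^ k) (X + 3 ^ k) Y (Y + 3 ^ k) hq0 hC₀.le hP
      (by linarith) (by linarith)
    have e1 : (X - 3 ^ k) * 3 ^ (s - k) = y.1 - 3 ^ s := by rw [hX, hs]; ring
    have e2 : (X + 3 ^ k) * 3 ^ (s - k) = y.1 + 3 ^ s := by rw [hX, hs]; ring
    have e3 : Y * 3 ^ (s - k) = y.2 := hY.symm
    have e4 : (Y + 3 ^ k) * 3 ^ (s - k) = y.2 + 3 ^ s := by rw [hY, hs]; ring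
    have e5 : (X - 3 ^ k + 1) * 3 ^ (s - k) = y.1 - 3 ^ s + 3 ^ (s - k) := by rw [hX, hs]; ring
    have e6 : (X + 3 ^ k - 1) * 3 ^ (s - k) = y.1 + 3 ^ s - 3 ^ (s - k) := by rw [hX, hs]; ring
    have e7 : (Y + 1) * 3 ^ (s - k) = y.2 + 3 ^ (s - k) := by rw [hY]; ring
    have e8 : (Y + 3 ^ k - 1) * 3 ^ (s - k) = y.2 + 3 ^ s - 3 ^ (s - k) := by rw [hY, hs]; ring
    rw [e1, e2, e3, e4] at B2
    rw [e5, e6, e7, e8] at B3
    refine ⟨cut V (s - k) (X - 3 ^ k) (X + 3 ^ k) Y (Y + 3 ^ k), fun f => (B1 f).1, fun f => (B1 f).2,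
      B2, B3, ?_, ?_⟩
    · intro e _ hne
      refine hHJ q C₀ (N - (s - k)) (s - k) V _ _ _ _ hP e (by rwa [hN]) ?_
      intro c hc _
      obtain ⟨c1, c2, c3, c4, c5⟩ := hc
      exact HF_lay hHK hF hks hX hY c1 c2 c3 c4 c5
    · refine (B4 _).trans ?_
      apply mul_le_mul_of_nonneg_left _ hC₀.le
      push_cast
      linarith
  · intro N s y hF hks
    obtain ⟨V, hP⟩ := hV (s - k)
    have hs : (3 : ℤ) ^ s = 3 ^ k * 3 ^ (s - k) := by rw [← pow_add]; congr 1; omega
    have hpm : (0 : ℤ) < 3 ^ (s - k) := by positivity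
    obtain ⟨X, hX⟩ : ∃ X, y.1 = X * 3 ^ (s - k) := by
      obtain ⟨a, ha⟩ := hF.d1
      exact ⟨a * 3 ^ k, by rw [ha, hs]; ring⟩
    obtain ⟨Y, hY⟩ : ∃ Y, y.2 = Y * 3 ^ (s - k) := by
      obtain ⟨a, ha⟩ := hF.d2
      exact ⟨a * 3 ^ k, by rw [ha, hs]; ring⟩
    have hN : N - (s - k) + (s - k) = N := by have := hF.hT; omega
    obtain ⟨B1, B2, B3, B4⟩ := hHB q C₀ (s - k) V (X - 3 ^ k) (X + 3 ^ k) (Y - 3 ^ k) (Y + 3 ^ k) hq0
      hC₀.le hP (by linarith) (by linarith)
    have e1 : (X - 3 ^ k) * 3 ^ (s - k) = y.1 - 3 ^ s := by rw [hX, hs]; ring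
    have e2 : (X + 3 ^ k) * 3 ^ (s - k) = y.1 + 3 ^ s := by rw [hX, hs]; ring
    have e3 : (Y - 3 ^ k) * 3 ^ (s - k) = y.2 - 3 ^ s := by rw [hY, hs]; ring
    have e4 : (Y + 3 ^ k) * 3 ^ (s - k) = y.2 + 3 ^ s := by rw [hY, hs]; ring
    have e5 : (X - 3 ^ k + 1) * 3 ^ (s - k) = y.1 - 3 ^ s + 3 ^ (s - k) := by rw [hX, hs]; ring
    have e6 : (X + 3 ^ k - 1) * 3 ^ (s - k) = y.1 + 3 ^ s - 3 ^ (s - k) := by rw [hX, hs]; ring
    have e7 : (Y - 3 ^ k + 1) * 3 ^ (s - k) = y.2 - 3 ^ s + 3 ^ (s - k) := by rw [hY, hs]; ring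
    have e8 : (Y + 3 ^ k - 1) * 3 ^ (s - k) = y.2 + 3 ^ s - 3 ^ (s - k) := by rw [hY, hs]; ring
    rw [e1, e2, e3, e4] at B2
    rw [e5, e6, e7, e8] at B3
    have hms : (3 : ℤ) ^ (s - k) ≤ 3 ^ s := pow_le_pow_right₀ (by norm_num) (by omega)
    set cc := cut V (s - k) (X - 3 ^ k) (X + 3 ^ k) (Y - 3 ^ k) (Y + 3 ^ k) with hcc
    refine ⟨fun f => if f.2 < y.2 then 1 else cc f, ?_, ?_, ?_, ?_, ?_, ?_, ?_⟩
    · intro f
      dsimp only
      split_ifs
      · norm_num
      · exact (B1 f).1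
    · intro f
      dsimp only
      split_ifs
      · exact le_refl _
      · exact (B1 f).2
    · intro f hf h2
      dsimp only
      rw [if_neg (not_lt.2 h2)]
      apply B2
      intro hmem
      apply hf
      simp only [box, blk, Finset.mem_product, Finset.mem_Ico] at hmem ⊢
      exact ⟨hmem.1, h2, hmem.2.2⟩
    · intro f h2
      dsimp only
      rw [if_pos h2]
    · intro f hf
      simp only [ins, box, Finset.mem_product, Finset.mem_Ico] at hf
      dsimp only
      rw [if_neg (not_lt.2 hf.2.1)]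
      apply B3
      simp only [box, Finset.mem_product, Finset.mem_Ico]
      refine ⟨hf.1, ?_, hf.2.2⟩
      linarith [hf.2.1]
    · intro e he hne
      have hlr := HF_lf_rf e
      have hl : lf e ∉ Kept N := fun h => hne (Or.inl h)
      have hr : rf e ∉ Kept N := fun h => hne (Or.inr h)
      have key : y.2 ≤ (lf e).2 ∧ y.2 ≤ (rf e).2 := by
        rcases HF_mem_eT he with h | h
        · have h' := h
          simp only [blk, box, Finset.mem_product, Finset.mem_Ico] at h'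
          refine ⟨h'.2.1, ?_⟩
          by_contra hc
          apply hl
          exact HF_row hHK hF h (by omega)
        · have h' := h
          simp only [blk, box, Finset.mem_product, Finset.mem_Ico] at h'
          exact ⟨by omega, h'.2.1⟩
      have hval : dv (fun f : Pt => if f.2 < y.2 then (1 : ℝ) else cc f) e = dv cc e := by
        simp only [dv, if_neg (not_lt.2 key.1), if_neg (not_lt.2 key.2)]
      rw [hval]
      refine hHJ q C₀ (N - (s - k)) (s - k) V _ _ _ _ hP e (by rwa [hN]) ?_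
      intro c hc hor
      obtain ⟨c1, c2, c3, c4, c5⟩ := hc
      have hcY : Y ≤ c.2 := by
        have aux : ∀ f : Pt, y.2 ≤ f.2 → f ∈ cell (s - k) c → Y ≤ c.2 := by
          intro f hf1 hf2
          simp only [cell, box, Finset.mem_product, Finset.mem_Ico] at hf2
          have h5 : Y * 3 ^ (s - k) < (c.2 + 1) * 3 ^ (s - k) := by
            rw [← hY]; exact lt_of_le_of_lt hf1 hf2.2.2
          have := lt_of_mul_lt_mul_right h5 hpm.le
          omega
        rcases hor with h | h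
        · exact aux _ key.1 h
        · exact aux _ key.2 h
      refine HF_lay hHK hF hks hX hY c1 c2 hcY c4 ?_
      rcases c5 with h | h | h | h
      · exact Or.inl h
      · exact Or.inr (Or.inl h)
      · exfalso; linarith
      · exact Or.inr (Or.inr (Or.inr h))
    · have hval : ∀ e ∈ (eB (Kept N) (blk s y)).filter (fun e => y.2 ≤ (lf e).2 ∧ y.2 ≤ (rf e).2),
          |dv (fun f : Pt => if f.2 < y.2 then (1 : ℝ) else cc f) e| ^ q = |dv cc e| ^ q := by
        intro e he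
        rw [Finset.mem_filter] at he
        simp only [dv, if_neg (not_lt.2 he.2.1), if_neg (not_lt.2 he.2.2)]
      rw [Finset.sum_congr rfl hval]
      refine (B4 _).trans ?_
      apply mul_le_mul_of_nonneg_left _ hC₀.le
      push_cast
      linarith

end CarpetPI
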