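import Pool.Agent.Lib.MP_1d263a_an.PI.StmH

set_option autoImplicit false

/-!
# MP_1d263a_an, project PI, piece HJ: the cutoff does not jump across absent edges
-/

open Finset
open scoped Classical

noncomputable section

namespace CarpetPI

private theorem HJ_mem (m : ℕ) (c f : Pt) : f ∈ cell m c ↔
    (c.1 * 3 ^ m ≤ f.1 ∧ f.1 < (c.1 + 1) * 3 ^ m) ∧
      (c.2 * 3 ^ m ≤ f.2 ∧ f.2 < (c.2 + 1) * 3 ^ m) := by
  rw [cell, box, Finset.mem_product, Finset.mem_Ico, Finset.mem_Ico]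

private theorem HJ_ex (m : ℕ) (f : Pt) : ∃ c, f ∈ cell m c := by
  have hT : (0 : ℤ) < 3 ^ m := by positivity
  refine ⟨(f.1 / 3 ^ m, f.2 / 3 ^ m), (HJ_mem m _ f).mpr ⟨⟨?_, ?_⟩, ?_, ?_⟩⟩
  · exact Int.ediv_mul_le _ hT.ne'
  · exact Int.lt_ediv_add_one_mul_self _ hT
  · exact Int.ediv_mul_le _ hT.ne'
  · exact Int.lt_ediv_add_one_mul_self _ hT

private theorem HJ_uni {T a c c' : ℤ} (hT : 0 < T) (h1 : c * T ≤ a) (h2 : a < (c + 1) * T)
    (h3 : c' * T ≤ a) (h4 : a < (c' + 1) * T) : c = c' := by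
  have h5 : c < c' + 1 := lt_of_mul_lt_mul_right (h1.trans_lt h4) hT.le
  have h6 : c' < c + 1 := lt_of_mul_lt_mul_right (h3.trans_lt h2) hT.le
  omega

private theorem HJ_step {T a c c' : ℤ} (hT : 0 < T) (h1 : c * T ≤ a) (h2 : a < (c + 1) * T)
    (h3 : c' * T ≤ a - 1) (h4 : a - 1 < (c' + 1) * T) :
    c' = c ∨ (c' + 1 = c ∧ a - c * T = 0 ∧ a - 1 - c' * T + 1 = T) := by
  have h6 : c' < c + 1 := lt_of_mul_lt_mul_right (by linarith : c' * T < (c + 1) * T) hT.le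
  rcases eq_or_ne c' c with h | h
  · exact Or.inl h
  · have h7 : c' + 1 ≤ c := by omega
    have h8 : (c' + 1) * T ≤ c * T := mul_le_mul_of_nonneg_right h7 hT.le
    have h9 : a = c * T := by omega
    have h10 : a = (c' + 1) * T := by omega
    have h11 : c ≤ c' + 1 := by
      by_contra hc
      have : (c' + 1) * T < c * T := mul_lt_mul_of_pos_right (not_le.mp hc) hT
      omega
    refine Or.inr ⟨by omega, by omega, ?_⟩
    rw [h10]
    ring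

/-- two faces with a common side -/
private def HJ_adj (f g : Pt) : Prop :=
  (f.2 = g.2 ∧ (f.1 = g.1 + 1 ∨ g.1 = f.1 + 1)) ∨ (f.1 = g.1 ∧ (f.2 = g.2 + 1 ∨ g.2 = f.2 + 1))

private theorem HJ_hole {q C : ℝ} {m : ℕ} {V : Pt → ℝ} (hV : Prof q m C V) {r r' : Pt}
    (h : HJ_adj r r') (hr : r ∈ cell m (0, 0)) (hr' : r' ∈ cell m (0, 0)) (hk : r ∉ Kept m)
    (hk' : r' ∉ Kept m) : V r = V r' := by
  have key : ∀ e : Ed, lf e = r ∧ rf e = r' ∨ lf e = r' ∧ rf e = r → V r = V r' := by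
    rintro e (⟨h1, h2⟩ | ⟨h1, h2⟩)
    · have h3 := hV.hole e (by rw [h1]; exact hr) (by rw [h2]; exact hr')
        (by rw [pres, h1, h2]; exact fun h => h.elim hk hk')
      rw [dv, h1, h2] at h3
      linarith
    · have h3 := hV.hole e (by rw [h1]; exact hr') (by rw [h2]; exact hr)
        (by rw [pres, h1, h2]; exact fun h => h.elim hk' hk)
      rw [dv, h1, h2] at h3
      linarith
  obtain ⟨r1, r2⟩ := r
  obtain ⟨s1, s2⟩ := r'
  simp only [HJ_adj] at h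
  rcases h with ⟨rfl, rfl | rfl⟩ | ⟨rfl, rfl | rfl⟩
  · refine key (true, (s1 + 1, r2)) (Or.inr ⟨?_, ?_⟩)
    · simp [lf]
    · simp [rf]
  · refine key (true, (r1 + 1, r2)) (Or.inl ⟨?_, ?_⟩)
    · simp [lf]
    · simp [rf]
  · refine key (false, (r1, s2 + 1)) (Or.inl ⟨?_, ?_⟩)
    · simp [lf]
    · simp [rf]
  · refine key (false, (r1, r2 + 1)) (Or.inr ⟨?_, ?_⟩)
    · simp [lf]
    · simp [rf]

private theorem HJ_per {q C : ℝ} {m : ℕ} {V : Pt → ℝ} (hV : Prof q m C V) (a b k : ℤ) :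
    V (a, b - k * 3 ^ m) = V (a, b) := by
  induction k using Int.induction_on with
  | zero => rw [zero_mul, sub_zero]
  | succ k ih =>
    rw [← ih, ← hV.per a (b - (k + 1) * 3 ^ m)]
    congr 2
    ring
  | pred k ih =>
    rw [← ih, ← hV.per a (b - -(k : ℤ) * 3 ^ m)]
    congr 2
    ring

private theorem HJ_out {q C : ℝ} {m : ℕ} {V : Pt → ℝ} (hV : Prof q m C V) {x₀ x₁ y₀ y₁ : ℤ}
    {c f : Pt} (hf : f ∈ cell m c)
    (hc : ¬ (x₀ ≤ c.1 ∧ c.1 < x₁ ∧ y₀ ≤ c.2 ∧ c.2 < y₁)) : cut V m x₀ x₁ y₀ y₁ f = 0 := by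
  obtain ⟨⟨h1, h2⟩, h3, h4⟩ := (HJ_mem m c f).mp hf
  have hT : (0 : ℤ) < 3 ^ m := by positivity
  have n1 : 0 ≤ WL V (x₀ * 3 ^ m) f := hV.nn _
  have n2 : 0 ≤ WR V (x₁ * 3 ^ m) f := hV.nn _
  have n3 : 0 ≤ WB V (y₀ * 3 ^ m) f := hV.nn _
  have n4 : 0 ≤ WT V (y₁ * 3 ^ m) f := hV.nn _
  have hz : WL V (x₀ * 3 ^ m) f = 0 ∨ WR V (x₁ * 3 ^ m) f = 0 ∨ WB V (y₀ * 3 ^ m) f = 0 ∨
      WT V (y₁ * 3 ^ m) f = 0 := by
    by_cases a1 : x₀ ≤ c.1
    · by_cases a2 : c.1 < x₁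
      · by_cases a3 : y₀ ≤ c.2
        · by_cases a4 : c.2 < y₁
          · exact absurd ⟨a1, a2, a3, a4⟩ hc
          · refine Or.inr (Or.inr (Or.inr (hV.left _ ?_)))
            have : y₁ * 3 ^ m ≤ c.2 * 3 ^ m := mul_le_mul_of_nonneg_right (not_lt.mp a4) hT.le
            show y₁ * 3 ^ m - 1 - f.2 < 0
            omega
        · refine Or.inr (Or.inr (Or.inl (hV.left _ ?_)))
          have : (c.2 + 1) * 3 ^ m ≤ y₀ * 3 ^ m := mul_le_mul_of_nonneg_right (by omega) hT.le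
          show f.2 - y₀ * 3 ^ m < 0
          omega
      · refine Or.inr (Or.inl (hV.left _ ?_))
        have : x₁ * 3 ^ m ≤ c.1 * 3 ^ m := mul_le_mul_of_nonneg_right (not_lt.mp a2) hT.le
        show x₁ * 3 ^ m - 1 - f.1 < 0
        omega
    · refine Or.inl (hV.left _ ?_)
      have : (c.1 + 1) * 3 ^ m ≤ x₀ * 3 ^ m := mul_le_mul_of_nonneg_right (by omega) hT.le
      show f.1 - x₀ * 3 ^ m < 0
      omega
  refine le_antisymm ?_ (le_min (le_min n1 n2) (le_min n3 n4))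
  rcases hz with h | h | h | h
  · rw [← h]
    exact (min_le_left _ _).trans (min_le_left _ _)
  · rw [← h]
    exact (min_le_left _ _).trans (min_le_right _ _)
  · rw [← h]
    exact (min_le_right _ _).trans (min_le_left _ _)
  · rw [← h]
    exact (min_le_right _ _).trans (min_le_right _ _)

private theorem HJ_L1 {q C : ℝ} {m : ℕ} {V : Pt → ℝ} (hV : Prof q m C V) {x₀ : ℤ}
    {c f : Pt} (hf : f ∈ cell m c) (h : x₀ < c.1) : WL V (x₀ * 3 ^ m) f = 1 := by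
  obtain ⟨⟨h1, h2⟩, h3, h4⟩ := (HJ_mem m c f).mp hf
  have hT : (0 : ℤ) < 3 ^ m := by positivity
  refine hV.right _ ?_
  have h5 : (x₀ + 1) * 3 ^ m ≤ c.1 * 3 ^ m := mul_le_mul_of_nonneg_right (by omega) hT.le
  show 3 ^ m ≤ f.1 - x₀ * 3 ^ m
  linarith

private theorem HJ_R1 {q C : ℝ} {m : ℕ} {V : Pt → ℝ} (hV : Prof q m C V) {x₁ : ℤ}
    {c f : Pt} (hf : f ∈ cell m c) (h : c.1 + 1 < x₁) : WR V (x₁ * 3 ^ m) f = 1 := by
  obtain ⟨⟨h1, h2⟩, h3, h4⟩ := (HJ_mem m c f).mp hf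
  have hT : (0 : ℤ) < 3 ^ m := by positivity
  refine hV.right _ ?_
  have h5 : (c.1 + 1 + 1) * 3 ^ m ≤ x₁ * 3 ^ m := mul_le_mul_of_nonneg_right (by omega) hT.le
  show 3 ^ m ≤ x₁ * 3 ^ m - 1 - f.1
  have h6 : (c.1 + 1 + 1) * 3 ^ m = (c.1 + 1) * 3 ^ m + 3 ^ m := by ring
  omega

private theorem HJ_B1 {q C : ℝ} {m : ℕ} {V : Pt → ℝ} (hV : Prof q m C V) {y₀ : ℤ}
    {c f : Pt} (hf : f ∈ cell m c) (h : y₀ < c.2) : WB V (y₀ * 3 ^ m) f = 1 := by
  obtain ⟨⟨h1, h2⟩, h3, h4⟩ := (HJ_mem m c f).mp hf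
  have hT : (0 : ℤ) < 3 ^ m := by positivity
  refine hV.right _ ?_
  have h5 : (y₀ + 1) * 3 ^ m ≤ c.2 * 3 ^ m := mul_le_mul_of_nonneg_right (by omega) hT.le
  show 3 ^ m ≤ f.2 - y₀ * 3 ^ m
  linarith

private theorem HJ_T1 {q C : ℝ} {m : ℕ} {V : Pt → ℝ} (hV : Prof q m C V) {y₁ : ℤ}
    {c f : Pt} (hf : f ∈ cell m c) (h : c.2 + 1 < y₁) : WT V (y₁ * 3 ^ m) f = 1 := by
  obtain ⟨⟨h1, h2⟩, h3, h4⟩ := (HJ_mem m c f).mp hf
  have hT : (0 : ℤ) < 3 ^ m := by positivity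
  refine hV.right _ ?_
  have h5 : (c.2 + 1 + 1) * 3 ^ m ≤ y₁ * 3 ^ m := mul_le_mul_of_nonneg_right (by omega) hT.le
  show 3 ^ m ≤ y₁ * 3 ^ m - 1 - f.2
  have h6 : (c.2 + 1 + 1) * 3 ^ m = (c.2 + 1) * 3 ^ m + 3 ^ m := by ring
  omega

private theorem HJ_in {q C : ℝ} {m : ℕ} {V : Pt → ℝ} (hV : Prof q m C V) {x₀ x₁ y₀ y₁ : ℤ}
    {c f : Pt} (hf : f ∈ cell m c) (h1 : x₀ < c.1) (h2 : c.1 + 1 < x₁) (h3 : y₀ < c.2)
    (h4 : c.2 + 1 < y₁) : cut V m x₀ x₁ y₀ y₁ f = 1 := by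
  rw [cut, HJ_L1 hV hf h1, HJ_R1 hV hf h2, HJ_B1 hV hf h3, HJ_T1 hV hf h4, min_self, min_self]

private theorem HJ_main (hK : S_HK) {q C : ℝ} {n m : ℕ} {V : Pt → ℝ} (hV : Prof q m C V)
    {x₀ x₁ y₀ y₁ : ℤ} {c c' f g : Pt} (hf : f ∈ cell m c) (hg : g ∈ cell m c')
    (hfk : f ∉ Kept (n + m)) (hgk : g ∉ Kept (n + m))
    (hLf : Lay x₀ x₁ y₀ y₁ c → c ∈ Kept n) (hLg : Lay x₀ x₁ y₀ y₁ c' → c' ∈ Kept n)
    (hcase : (c' = c ∧ HJ_adj f g) ∨ (HJ_adj c c' ∧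
      (f.1 - c.1 * 3 ^ m = 0 ∨ f.1 - c.1 * 3 ^ m + 1 = 3 ^ m ∨
        f.2 - c.2 * 3 ^ m = 0 ∨ f.2 - c.2 * 3 ^ m + 1 = 3 ^ m) ∧
      (g.1 - c'.1 * 3 ^ m = 0 ∨ g.1 - c'.1 * 3 ^ m + 1 = 3 ^ m ∨
        g.2 - c'.2 * 3 ^ m = 0 ∨ g.2 - c'.2 * 3 ^ m + 1 = 3 ^ m))) :
    cut V m x₀ x₁ y₀ y₁ f = cut V m x₀ x₁ y₀ y₁ g := by
  obtain ⟨hK1, hK2, hK3⟩ := hK
  have hT : (0 : ℤ) < 3 ^ m := by positivity
  have hrel : ∀ c f : Pt, f ∈ cell m c →
      (f.1 - c.1 * 3 ^ m, f.2 - c.2 * 3 ^ m) ∈ cell m (0, 0) := by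
    intro c f h
    obtain ⟨⟨h1, h2⟩, h3, h4⟩ := (HJ_mem m c f).mp h
    rw [HJ_mem]
    refine ⟨⟨?_, ?_⟩, ?_, ?_⟩ <;> dsimp only <;> linarith
  rcases hcase with ⟨rfl, hadj⟩ | ⟨hadj, hbf, hbg⟩
  · -- the same cell
    by_cases hblock : x₀ ≤ c'.1 ∧ c'.1 < x₁ ∧ y₀ ≤ c'.2 ∧ c'.2 < y₁
    · by_cases hL : Lay x₀ x₁ y₀ y₁ c'
      · have hc := hLf hL
        have hrf : (f.1 - c'.1 * 3 ^ m, f.2 - c'.2 * 3 ^ m) ∉ Kept m := fun h =>
          hfk ((hK1 n m c' f hf).mpr ⟨hc, h⟩)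
        have hrg : (g.1 - c'.1 * 3 ^ m, g.2 - c'.2 * 3 ^ m) ∉ Kept m := fun h =>
          hgk ((hK1 n m c' g hg).mpr ⟨hc, h⟩)
        have hcf := hrel c' f hf
        have hcg := hrel c' g hg
        obtain ⟨⟨f1, f2⟩, f3, f4⟩ := (HJ_mem m _ _).mp hcf
        obtain ⟨⟨g1, g2⟩, g3, g4⟩ := (HJ_mem m _ _).mp hcg
        dsimp only at f1 f2 f3 f4 g1 g2 g3 g4
        have e1 : WL V (x₀ * 3 ^ m) f = WL V (x₀ * 3 ^ m) g := by
          rcases eq_or_lt_of_le hblock.1 with h | h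
          · rw [WL, WL, h, ← HJ_per hV _ f.2 c'.2, ← HJ_per hV _ g.2 c'.2]
            refine HJ_hole hV ?_ hcf hcg hrf hrg
            rcases hadj with ⟨a1, a2⟩ | ⟨a1, a2⟩
            · exact Or.inl ⟨by dsimp only; rw [a1], by dsimp only; omega⟩
            · exact Or.inr ⟨by dsimp only; rw [a1], by dsimp only; omega⟩
          · rw [HJ_L1 hV hf h, HJ_L1 hV hg h]
        have e2 : WR V (x₁ * 3 ^ m) f = WR V (x₁ * 3 ^ m) g := by
          rcases eq_or_lt_of_le (show c'.1 + 1 ≤ x₁ by omega) with h | h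
          · have hx : x₁ * 3 ^ m = c'.1 * 3 ^ m + 3 ^ m := by rw [← h]; ring
            have hsub : ∀ a : ℤ, x₁ * 3 ^ m - 1 - a = 3 ^ m - 1 - (a - c'.1 * 3 ^ m) := by
              intro a
              rw [hx]
              ring
            rw [WR, WR, hsub, hsub, ← HJ_per hV _ f.2 c'.2, ← HJ_per hV _ g.2 c'.2]
            refine HJ_hole hV ?_ ?_ ?_ ?_ ?_
            · rcases hadj with ⟨a1, a2⟩ | ⟨a1, a2⟩
              · exact Or.inl ⟨by dsimp only; rw [a1], by dsimp only; omega⟩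
              · exact Or.inr ⟨by dsimp only; rw [a1], by dsimp only; omega⟩
            · rw [HJ_mem]
              dsimp only
              refine ⟨⟨by linarith, by linarith⟩, by linarith, by linarith⟩
            · rw [HJ_mem]
              dsimp only
              refine ⟨⟨by linarith, by linarith⟩, by linarith, by linarith⟩
            · intro hk
              apply hrf
              have h1 := (hK3 m _ hk).2.1
              dsimp only at h1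
              rwa [sub_sub_cancel] at h1
            · intro hk
              apply hrg
              have h1 := (hK3 m _ hk).2.1
              dsimp only at h1
              rwa [sub_sub_cancel] at h1
          · rw [HJ_R1 hV hf h, HJ_R1 hV hg h]
        have e3 : WB V (y₀ * 3 ^ m) f = WB V (y₀ * 3 ^ m) g := by
          rcases eq_or_lt_of_le hblock.2.2.1 with h | h
          · rw [WB, WB, h, ← HJ_per hV _ f.1 c'.1, ← HJ_per hV _ g.1 c'.1]
            refine HJ_hole hV ?_ ?_ ?_ ?_ ?_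
            · rcases hadj with ⟨a1, a2⟩ | ⟨a1, a2⟩
              · exact Or.inr ⟨by dsimp only; rw [a1], by dsimp only; omega⟩
              · exact Or.inl ⟨by dsimp only; rw [a1], by dsimp only; omega⟩
            · rw [HJ_mem]
              exact ⟨⟨f3, f4⟩, f1, f2⟩
            · rw [HJ_mem]
              exact ⟨⟨g3, g4⟩, g1, g2⟩
            · intro hk
              exact hrf (hK3 m _ hk).1
            · intro hk
              exact hrg (hK3 m _ hk).1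
          · rw [HJ_B1 hV hf h, HJ_B1 hV hg h]
        have e4 : WT V (y₁ * 3 ^ m) f = WT V (y₁ * 3 ^ m) g := by
          rcases eq_or_lt_of_le (show c'.2 + 1 ≤ y₁ by omega) with h | h
          · have hx : y₁ * 3 ^ m = c'.2 * 3 ^ m + 3 ^ m := by rw [← h]; ring
            have hsub : ∀ a : ℤ, y₁ * 3 ^ m - 1 - a = 3 ^ m - 1 - (a - c'.2 * 3 ^ m) := by
              intro a
              rw [hx]
              ring
            rw [WT, WT, hsub, hsub, ← HJ_per hV _ f.1 c'.1, ← HJ_per hV _ g.1 c'.1]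
            refine HJ_hole hV ?_ ?_ ?_ ?_ ?_
            · rcases hadj with ⟨a1, a2⟩ | ⟨a1, a2⟩
              · exact Or.inr ⟨by dsimp only; rw [a1], by dsimp only; omega⟩
              · exact Or.inl ⟨by dsimp only; rw [a1], by dsimp only; omega⟩
            · rw [HJ_mem]
              dsimp only
              refine ⟨⟨by linarith, by linarith⟩, by linarith, by linarith⟩
            · rw [HJ_mem]
              dsimp only
              refine ⟨⟨by linarith, by linarith⟩, by linarith, by linarith⟩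
            · intro hk
              apply hrf
              have h1 := (hK3 m _ hk).2.1
              dsimp only at h1
              rw [sub_sub_cancel] at h1
              exact (hK3 m _ h1).1
            · intro hk
              apply hrg
              have h1 := (hK3 m _ hk).2.1
              dsimp only at h1
              rw [sub_sub_cancel] at h1
              exact (hK3 m _ h1).1
          · rw [HJ_T1 hV hf h, HJ_T1 hV hg h]
        rw [cut, cut, e1, e2, e3, e4]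
      · have hn : x₀ < c'.1 ∧ c'.1 + 1 < x₁ ∧ y₀ < c'.2 ∧ c'.2 + 1 < y₁ := by
          rw [Lay] at hL
          omega
        rw [HJ_in hV hf hn.1 hn.2.1 hn.2.2.1 hn.2.2.2, HJ_in hV hg hn.1 hn.2.1 hn.2.2.1 hn.2.2.2]
    · rw [HJ_out hV hf hblock, HJ_out hV hg hblock]
  · have hLf' : ¬ Lay x₀ x₁ y₀ y₁ c := fun hL =>
      hfk ((hK1 n m c f hf).mpr ⟨hLf hL, hK2 m _ (hrel c f hf) hbf⟩)
    have hLg' : ¬ Lay x₀ x₁ y₀ y₁ c' := fun hL =>
      hgk ((hK1 n m c' g hg).mpr ⟨hLg hL, hK2 m _ (hrel c' g hg) hbg⟩)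
    rw [Lay] at hLf' hLg'
    rw [HJ_adj] at hadj
    by_cases hblock : x₀ ≤ c.1 ∧ c.1 < x₁ ∧ y₀ ≤ c.2 ∧ c.2 < y₁
    · rw [HJ_in hV hf (by omega) (by omega) (by omega) (by omega),
        HJ_in hV hg (by omega) (by omega) (by omega) (by omega)]
    · have hblock' : ¬ (x₀ ≤ c'.1 ∧ c'.1 < x₁ ∧ y₀ ≤ c'.2 ∧ c'.2 < y₁) := by omega
      rw [HJ_out hV hf hblock, HJ_out hV hg hblock']

theorem p_HJ (hK : S_HK) : S_HJ := by
  intro q C n m V x₀ x₁ y₀ y₁ hV e he hL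
  have hT : (0 : ℤ) < 3 ^ m := by positivity
  rw [pres, not_or] at he
  obtain ⟨c, hc⟩ := HJ_ex m (lf e)
  obtain ⟨c', hc'⟩ := HJ_ex m (rf e)
  rw [dv, sub_eq_zero]
  refine HJ_main hK hV hc hc' he.1 he.2 (fun h => hL c h (Or.inl hc)) (fun h => hL c' h (Or.inr hc'))
    ?_
  obtain ⟨⟨f1, f2⟩, f3, f4⟩ := (HJ_mem m _ _).mp hc
  obtain ⟨⟨g1, g2⟩, g3, g4⟩ := (HJ_mem m _ _).mp hc'
  obtain ⟨b, x1, x2⟩ := e
  obtain ⟨c1, c2⟩ := c
  obtain ⟨d1, d2⟩ := c'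
  cases b with
  | true =>
    simp only [lf, rf, if_true] at f1 f2 f3 f4 g1 g2 g3 g4 ⊢
    have hu : c2 = d2 := HJ_uni hT f3 f4 g3 g4
    subst hu
    rcases HJ_step hT g1 g2 f1 f2 with h | ⟨h1, h2, h3⟩
    · subst h
      exact Or.inl ⟨rfl, Or.inl ⟨rfl, Or.inr (by dsimp only; omega)⟩⟩
    · exact Or.inr ⟨Or.inl ⟨rfl, Or.inr (by dsimp only; omega)⟩, Or.inr (Or.inl h3), Or.inl h2⟩
  | false =>
    simp only [lf, rf, Bool.false_eq_true, if_false] at f1 f2 f3 f4 g1 g2 g3 g4 ⊢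
    have hu : c1 = d1 := HJ_uni hT f1 f2 g1 g2
    subst hu
    rcases HJ_step hT f3 f4 g3 g4 with h | ⟨h1, h2, h3⟩
    · subst h
      exact Or.inl ⟨rfl, Or.inr ⟨rfl, Or.inl (by dsimp only; omega)⟩⟩
    · exact Or.inr ⟨Or.inr ⟨rfl, Or.inl (by dsimp only; omega)⟩, Or.inr (Or.inr (Or.inl h2)),
        Or.inr (Or.inr (Or.inr h3))⟩

end CarpetPI
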