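import Pool.Agent.Lib.MP_1d263a_an.PI.StmH

/-!
# MP_1d263a_an, project PI, piece HK: ternary digits of the faces in a cell
-/

open Finset
open scoped Classical

noncomputable section

namespace CarpetPI

private lemma HK_pos (k : ℕ) : (0 : ℤ) < 3 ^ k := by positivity

/-- digits at the places below `m` -/
private lemma HK_low (m k : ℕ) (h : k < m) (c r : ℤ) :
    (c * 3 ^ m + r) / 3 ^ k % 3 = r / 3 ^ k % 3 := by
  obtain ⟨d, rfl⟩ := Nat.exists_eq_add_of_lt h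
  have h1 : c * 3 ^ (k + d + 1) + r = r + 3 ^ k * (3 * (3 ^ d * c)) := by
    rw [pow_succ, pow_add]; ring
  rw [h1, Int.add_mul_ediv_left _ _ (HK_pos k).ne', Int.add_mul_emod_self_left]

/-- digits at the places from `m` on -/
private lemma HK_high (m j : ℕ) (c r : ℤ) (h0 : 0 ≤ r) (h1 : r < 3 ^ m) :
    (c * 3 ^ m + r) / 3 ^ (m + j) = c / 3 ^ j := by
  have h2 : (c * 3 ^ m + r) / 3 ^ m = c := by
    rw [add_comm, Int.add_mul_ediv_right _ _ (HK_pos m).ne', Int.ediv_eq_zero_of_lt h0 h1, zero_add]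
  rw [pow_add, ← Int.ediv_ediv_of_nonneg (HK_pos m).le, h2]

/-- reflection of the digits -/
private lemma HK_rev (m k : ℕ) (h : k ≤ m) (r : ℤ) :
    (3 ^ m - 1 - r) / 3 ^ k = 3 ^ (m - k) - 1 - r / 3 ^ k := by
  have h1 : (3 : ℤ) ^ m = 3 ^ k * 3 ^ (m - k) := by
    rw [← pow_add, Nat.add_sub_cancel' h]
  have h2 : r % 3 ^ k + 3 ^ k * (r / 3 ^ k) = r := Int.emod_add_mul_ediv r (3 ^ k)
  have h3 : (3 : ℤ) ^ m - 1 - r = (3 ^ k - 1 - r % 3 ^ k) + 3 ^ k * (3 ^ (m - k) - 1 - r / 3 ^ k) := by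
    rw [h1]; linear_combination h2
  have h4 : 0 ≤ r % 3 ^ k := Int.emod_nonneg _ (HK_pos k).ne'
  have h5 : r % 3 ^ k < 3 ^ k := Int.emod_lt_of_pos _ (HK_pos k)
  rw [h3, Int.add_mul_ediv_left _ _ (HK_pos k).ne',
    Int.ediv_eq_zero_of_lt (by linarith) (by linarith), zero_add]

private lemma HK_three (m k : ℕ) (h : k < m) : ∃ t : ℤ, (3 : ℤ) ^ (m - k) = 3 * t := by
  obtain ⟨d, hd⟩ : ∃ d, m - k = d + 1 := ⟨m - k - 1, by omega⟩
  exact ⟨3 ^ d, by rw [hd, pow_succ]; ring⟩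

private lemma HK_revd (m k : ℕ) (h : k < m) (r : ℤ) :
    ((3 ^ m - 1 - r) / 3 ^ k % 3 = 1 ↔ r / 3 ^ k % 3 = 1) := by
  rw [HK_rev m k h.le]
  obtain ⟨t, ht⟩ := HK_three m k h
  rw [ht]
  generalize r / 3 ^ k = x
  omega

private lemma HK_top (m k : ℕ) (h : k < m) : ((3 : ℤ) ^ m - 1) / 3 ^ k % 3 ≠ 1 := by
  have h1 := HK_revd m k h 0
  rw [sub_zero] at h1
  rw [Ne, h1]
  simp

private lemma HK_side (m k : ℕ) (h : k < m) (r : ℤ) (hr : r = 0 ∨ r + 1 = 3 ^ m) :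
    r / 3 ^ k % 3 ≠ 1 := by
  rcases hr with rfl | hr
  · simp
  · have : r = 3 ^ m - 1 := by linarith
    rw [this]
    exact HK_top m k h

private lemma HK_range (n m : ℕ) (c r : ℤ) (h0 : 0 ≤ r) (h1 : r < 3 ^ m) :
    (0 ≤ c * 3 ^ m + r ∧ c * 3 ^ m + r < 3 ^ (n + m)) ↔ (0 ≤ c ∧ c < 3 ^ n) := by
  have hm := HK_pos m
  rw [pow_add]
  constructor
  · rintro ⟨a, b⟩
    constructor
    · by_contra hc
      have : c ≤ -1 := by omega
      nlinarith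
    · by_contra hc
      have : (3 : ℤ) ^ n ≤ c := not_lt.mp hc
      nlinarith
  · rintro ⟨a, b⟩
    constructor
    · positivity
    · have : c + 1 ≤ 3 ^ n := by omega
      nlinarith

/-- The piece HK. -/
theorem p_HK : S_HK := by
  refine ⟨?_, ?_, ?_⟩
  · intro n m c f hf
    simp only [cell, box, Finset.mem_product, Finset.mem_Ico] at hf
    obtain ⟨⟨a1, a2⟩, b1, b2⟩ := hf
    obtain ⟨r1, hr1⟩ : ∃ r, r = f.1 - c.1 * 3 ^ m := ⟨_, rfl⟩
    obtain ⟨r2, hr2⟩ : ∃ r, r = f.2 - c.2 * 3 ^ m := ⟨_, rfl⟩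
    have e1 : f.1 = c.1 * 3 ^ m + r1 := by rw [hr1]; ring
    have e2 : f.2 = c.2 * 3 ^ m + r2 := by rw [hr2]; ring
    have r10 : 0 ≤ r1 := by rw [hr1]; linarith
    have r11 : r1 < 3 ^ m := by rw [hr1]; linarith
    have r20 : 0 ≤ r2 := by rw [hr2]; linarith
    have r21 : r2 < 3 ^ m := by rw [hr2]; linarith
    rw [← hr1, ← hr2]
    have R1 := HK_range n m c.1 r1 r10 r11
    have R2 := HK_range n m c.2 r2 r20 r21
    rw [← e1] at R1
    rw [← e2] at R2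
    simp only [Kept, Set.mem_ofPred_eq, Pat]
    constructor
    · rintro ⟨h1, h2, h3, h4, h5⟩
      refine ⟨⟨(R1.1 ⟨h1, h2⟩).1, (R1.1 ⟨h1, h2⟩).2, (R2.1 ⟨h3, h4⟩).1, (R2.1 ⟨h3, h4⟩).2, ?_⟩,
        r10, r11, r20, r21, ?_⟩
      · intro j hj
        have := h5 (m + j) (by omega)
        rw [e1, e2, HK_high m j _ _ r10 r11, HK_high m j _ _ r20 r21] at this
        exact this
      · intro k hk
        have := h5 k (by omega)
        rw [e1, e2, HK_low m k hk, HK_low m k hk] at this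
        exact this
    · rintro ⟨⟨h1, h2, h3, h4, h5⟩, _, _, _, _, h6⟩
      refine ⟨(R1.2 ⟨h1, h2⟩).1, (R1.2 ⟨h1, h2⟩).2, (R2.2 ⟨h3, h4⟩).1, (R2.2 ⟨h3, h4⟩).2, ?_⟩
      intro k hk
      rcases lt_or_ge k m with hkm | hkm
      · rw [e1, e2, HK_low m k hkm, HK_low m k hkm]
        exact h6 k hkm
      · obtain ⟨j, rfl⟩ := Nat.exists_eq_add_of_le hkm
        rw [e1, e2, HK_high m j _ _ r10 r11, HK_high m j _ _ r20 r21]
        exact h5 j (by omega)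
  · intro m r hr h
    simp only [cell, box, Finset.mem_product, Finset.mem_Ico] at hr
    obtain ⟨⟨a1, a2⟩, b1, b2⟩ := hr
    refine ⟨by linarith, by linarith, by linarith, by linarith, ?_⟩
    intro k hk hh
    rcases h with h | h | h | h
    · exact HK_side m k hk r.1 (Or.inl h) hh.1
    · exact HK_side m k hk r.1 (Or.inr h) hh.1
    · exact HK_side m k hk r.2 (Or.inl h) hh.2
    · exact HK_side m k hk r.2 (Or.inr h) hh.2
  · rintro m r ⟨h1, h2, h3, h4, h5⟩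
    refine ⟨⟨h3, h4, h1, h2, fun k hk hh => h5 k hk ⟨hh.2, hh.1⟩⟩,
      ⟨by show 0 ≤ 3 ^ m - 1 - r.1; omega, by show 3 ^ m - 1 - r.1 < 3 ^ m; omega, h3, h4, ?_⟩,
      ⟨h1, h2, by show 0 ≤ 3 ^ m - 1 - r.2; omega, by show 3 ^ m - 1 - r.2 < 3 ^ m; omega, ?_⟩⟩
    · intro k hk hh
      exact h5 k hk ⟨(HK_revd m k hk r.1).1 hh.1, hh.2⟩
    · intro k hk hh
      exact h5 k hk ⟨hh.1, (HK_revd m k hk r.2).1 hh.2⟩

end CarpetPI
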