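import Pool.Agent.Lib.MP_1d263a_an.PI.StmHP

open Finset
open scoped Classical

noncomputable section

namespace CarpetPI.PB

theorem hp_div_neg {b : ℤ} (hb : 0 < b) (c a : ℤ) : (b * c - 1 - a) / b = c - 1 - a / b := by
  have h1 : b * (a / b) + a % b = a := Int.mul_ediv_add_emod a b
  have h2 := Int.emod_nonneg a hb.ne'
  have h3 := Int.emod_lt_of_pos a hb
  have : b * c - 1 - a = (b - 1 - a % b) + b * (c - 1 - a / b) := by
    have h4 : b * (c - 1 - a / b) = b * c - b - b * (a / b) := by ring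
    rw [h4]; linarith
  rw [this, Int.add_mul_ediv_left _ _ hb.ne', Int.ediv_eq_zero_of_lt (by linarith) (by linarith)]
  ring

theorem hp_digit_neg (t k : ℕ) (hk : k < t) (r : ℤ) :
    ((3 ^ t - 1 - r) / 3 ^ k % 3 = 1 ↔ r / 3 ^ k % 3 = 1) := by
  obtain ⟨d, rfl⟩ : ∃ d, t = k + (d + 1) := ⟨t - k - 1, by omega⟩
  have hpos : (0:ℤ) < 3 ^ k := by positivity
  have : (3 : ℤ) ^ (k + (d + 1)) - 1 - r = 3 ^ k * (3 * 3 ^ d) - 1 - r := by ring
  rw [this, hp_div_neg hpos]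
  generalize (3:ℤ) ^ d = A
  generalize r / (3:ℤ) ^ k = B
  omega

theorem pat_swap {t : ℕ} {a b : ℤ} : Pat t (a, b) ↔ Pat t (b, a) := by
  unfold Pat
  constructor
  · intro h k hk hc; exact h k hk ⟨hc.2, hc.1⟩
  · intro h k hk hc; exact h k hk ⟨hc.2, hc.1⟩

theorem pat_refl {t : ℕ} {a b : ℤ} : Pat t (3 ^ t - 1 - a, b) ↔ Pat t (a, b) := by
  unfold Pat
  constructor
  · intro h k hk hc
    exact h k hk ⟨(hp_digit_neg t k hk a).2 hc.1, hc.2⟩
  · intro h k hk hc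
    exact h k hk ⟨(hp_digit_neg t k hk a).1 hc.1, hc.2⟩

theorem half_pow {q x y : ℝ} (hq : 0 < q) : |(x + y) / 2| ^ q ≤ |x| ^ q + |y| ^ q := by
  have h1 : |(x + y) / 2| ≤ max |x| |y| := by
    rw [abs_le]
    have a1 := le_max_left |x| |y|
    have a2 := le_max_right |x| |y|
    have b1 := le_abs_self x
    have b2 := le_abs_self y
    have b3 := neg_abs_le x
    have b4 := neg_abs_le y
    constructor <;> linarith
  have h2 : |(x + y) / 2| ^ q ≤ (max |x| |y|) ^ q := Real.rpow_le_rpow (abs_nonneg _) h1 hq.le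
  refine h2.trans ?_
  have hx : 0 ≤ |x| ^ q := Real.rpow_nonneg (abs_nonneg _) _
  have hy : 0 ≤ |y| ^ q := Real.rpow_nonneg (abs_nonneg _) _
  rcases le_total |x| |y| with h | h
  · rw [max_eq_right h]; linarith
  · rw [max_eq_left h]; linarith

theorem p_HP (hB : S_BTC) : S_HP := by
  intro p hp D
  obtain ⟨C, hC, hω⟩ := hB p hp D 1 le_rfl
  set q : ℝ := p / (p - 1) with hq
  have hq0 : 0 < q := div_pos (by linarith) (by linarith)
  refine ⟨2 * C, by positivity, ?_⟩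
  intro t
  obtain ⟨ω, hω01, hωb, hωt, -, -, hωabs, hωen⟩ := hω t
  rw [Nat.cast_one, one_mul] at hωabs hωen
  have hT : (0:ℤ) < 3 ^ t := by positivity
  have hr0 : ∀ b : ℤ, 0 ≤ b % 3 ^ t := fun b => Int.emod_nonneg b hT.ne'
  have hr1 : ∀ b : ℤ, b % 3 ^ t < 3 ^ t := fun b => Int.emod_lt_of_pos b hT
  let V : Pt → ℝ := fun f => (ω (f.2 % 3 ^ t, f.1) + ω (3 ^ t - 1 - f.2 % 3 ^ t, f.1)) / 2
  -- the total energy on the rectangle
  have hall : ∑ e ∈ RE (3 ^ t) (3 ^ t), |dv ω e| ^ q ≤ C := by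
    rw [← Finset.sum_filter_add_sum_filter_not _ (pres {g | Pat t g})]
    have : ∑ e ∈ (RE (3 ^ t) (3 ^ t)).filter (fun e => ¬ pres {g | Pat t g} e), |dv ω e| ^ q = 0 := by
      refine Finset.sum_eq_zero fun e he => ?_
      obtain ⟨h1, h2⟩ := Finset.mem_filter.1 he
      rw [hωabs e h1 h2, abs_zero, Real.zero_rpow hq0.ne']
    rw [this, add_zero]
    exact hωen
  -- no jump between two adjacent absent faces inside the cell
  have habs : ∀ i j : ℤ, 0 ≤ i → i < 3 ^ t → 0 < j → j < 3 ^ t → ¬ Pat t (i, j) → ¬ Pat t (i, j - 1) →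
      ω (i, j) = ω (i, j - 1) := by
    intro i j h0 h1 h2 h3 h4 h5
    have := hωabs (false, (i, j)) (mem_RE_h.2 ⟨⟨h0, h1⟩, by simp only; linarith, by simp only; linarith⟩) (by
      rintro (h | h)
      · exact h4 h
      · exact h5 h)
    simp only [dv, lf_h, rf_h] at this
    linarith
  have habs' : ∀ i j : ℤ, 0 < i → i < 3 ^ t → 0 ≤ j → j < 3 ^ t → ¬ Pat t (i, j) → ¬ Pat t (i - 1, j) →
      ω (i, j) = ω (i - 1, j) := by
    intro i j h0 h1 h2 h3 h4 h5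
    have := hωabs (true, (i, j)) (mem_RE_v.2 ⟨⟨h0.le, h1.le⟩, h2, h3⟩) (by
      rintro (h | h)
      · exact h5 h
      · exact h4 h)
    simp only [dv, lf_v, rf_v] at this
    linarith
  have hVin : ∀ a b : ℤ, 0 ≤ b → b < 3 ^ t → V (a, b) = (ω (b, a) + ω (3 ^ t - 1 - b, a)) / 2 := by
    intro a b h0 h1
    simp only [V]
    rw [Int.emod_eq_of_lt h0 h1]
  refine ⟨V, ⟨?_, ?_, ?_, ?_, ?_, ?_, ?_, ?_⟩⟩
  · intro f
    have h1 := (hω01 (f.2 % 3 ^ t, f.1)).1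
    have h2 := (hω01 (3 ^ t - 1 - f.2 % 3 ^ t, f.1)).1
    simp only [V]; linarith
  · intro f
    have h1 := (hω01 (f.2 % 3 ^ t, f.1)).2
    have h2 := (hω01 (3 ^ t - 1 - f.2 % 3 ^ t, f.1)).2
    simp only [V]; linarith
  · intro f hf
    simp only [V]
    rw [hωb _ hf, hωb _ hf]; norm_num
  · intro f hf
    simp only [V]
    rw [hωt _ hf, hωt _ hf]; norm_num
  · intro a b
    simp only [V]
    rw [Int.add_emod_right]
  · intro a
    rw [hVin a 0 le_rfl hT]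
    simp only [V]
    have : (-1 : ℤ) % 3 ^ t = 3 ^ t - 1 := by
      have h := Int.emod_eq_of_lt (a := 3 ^ t - 1) (b := (3:ℤ) ^ t) (by linarith) (by linarith)
      rw [← h]
      have : (3:ℤ) ^ t - 1 = -1 + 3 ^ t := by ring
      rw [this, Int.add_emod_right]
    rw [this]
    have e1 : (3:ℤ) ^ t - 1 - (3 ^ t - 1) = 0 := by ring
    rw [e1, sub_zero, add_comm]
  · intro e h1 h2 h3
    have hcell : ∀ f : Pt, f ∈ cell t (0, 0) ↔ (0 ≤ f.1 ∧ f.1 < 3 ^ t) ∧ (0 ≤ f.2 ∧ f.2 < 3 ^ t) := by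
      intro f; simp [cell, box, Finset.mem_product]
    rw [hcell] at h1 h2
    have hn1 : ¬ Pat t (lf e) := fun h => h3 (Or.inl ⟨h1.1.1, h1.1.2, h1.2.1, h1.2.2, h⟩)
    have hn2 : ¬ Pat t (rf e) := fun h => h3 (Or.inr ⟨h2.1.1, h2.1.2, h2.2.1, h2.2.2, h⟩)
    obtain ⟨b, i, j⟩ := e
    cases b
    · simp only [lf_h, rf_h] at h1 h2 hn1 hn2
      simp only [dv, lf_h, rf_h]
      rw [hVin i j h1.2.1 h1.2.2, hVin i (j - 1) h2.2.1 h2.2.2]
      have e1 := habs' j i (by linarith) h1.2.2 h1.1.1 h1.1.2 (fun h => hn1 (pat_swap.1 h))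
        (fun h => hn2 (pat_swap.1 h))
      have e2 := habs' (3 ^ t - 1 - (j - 1)) i (by linarith) (by linarith) h1.1.1 h1.1.2
        (fun h => hn2 (pat_swap.1 (pat_refl.1 h)))
        (fun h => hn1 (pat_swap.1 (pat_refl.1 (by
          rwa [show (3:ℤ) ^ t - 1 - (j - 1) - 1 = 3 ^ t - 1 - j by ring] at h))))
      rw [show (3:ℤ) ^ t - 1 - (j - 1) - 1 = 3 ^ t - 1 - j by ring] at e2
      rw [e1, e2]; ring
    · simp only [lf_v, rf_v] at h1 h2 hn1 hn2
      simp only [dv, lf_v, rf_v]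
      rw [hVin i j h2.2.1 h2.2.2, hVin (i - 1) j h1.2.1 h1.2.2]
      have e1 := habs j i h2.2.1 h2.2.2 (by linarith) h2.1.2 (fun h => hn2 (pat_swap.1 h))
        (fun h => hn1 (pat_swap.1 h))
      have e2 := habs (3 ^ t - 1 - j) i (by linarith) (by linarith) (by linarith) h2.1.2
        (fun h => hn2 (pat_swap.1 (pat_refl.1 h)))
        (fun h => hn1 (pat_swap.1 (pat_refl.1 h)))
      rw [e1, e2]; ring
  · -- energy
    have hsplit : ∑ e ∈ cellEd t, |dv V e| ^ q =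
        ∑ a ∈ Finset.Icc (0:ℤ) (3 ^ t), ∑ b ∈ Finset.Ico (0:ℤ) (3 ^ t), |dv V (true, (a, b))| ^ q +
        ∑ a ∈ Finset.Ico (0:ℤ) (3 ^ t), ∑ b ∈ Finset.Ioo (0:ℤ) (3 ^ t), |dv V (false, (a, b))| ^ q := by
      unfold cellEd
      rw [Finset.sum_union, Finset.sum_image, Finset.sum_image, Finset.sum_product, Finset.sum_product]
      · intro x _ y _ h; simpa using h
      · intro x _ y _ h; simpa using h
      · rw [Finset.disjoint_left]
        rintro e h1 h2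
        simp only [Finset.mem_image] at h1 h2
        obtain ⟨x, -, rfl⟩ := h1
        obtain ⟨y, -, h⟩ := h2
        simp at h
    rw [hsplit]
    have hv1 : ∑ a ∈ Finset.Icc (0:ℤ) (3 ^ t), ∑ b ∈ Finset.Ico (0:ℤ) (3 ^ t), |dv V (true, (a, b))| ^ q ≤
        2 * ∑ i ∈ Finset.Ico (0:ℤ) (3 ^ t), ∑ j ∈ Finset.Icc (0:ℤ) (3 ^ t), |dv ω (false, (i, j))| ^ q := by
      rw [Finset.sum_comm]
      have key : ∀ b ∈ Finset.Ico (0:ℤ) (3 ^ t), ∑ a ∈ Finset.Icc (0:ℤ) (3 ^ t), |dv V (true, (a, b))| ^ q ≤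
          (∑ j ∈ Finset.Icc (0:ℤ) (3 ^ t), |dv ω (false, (b, j))| ^ q) +
          ∑ j ∈ Finset.Icc (0:ℤ) (3 ^ t), |dv ω (false, (3 ^ t - 1 - b, j))| ^ q := by
        intro b hb
        obtain ⟨hb0, hb1⟩ := Finset.mem_Ico.1 hb
        rw [← Finset.sum_add_distrib]
        refine Finset.sum_le_sum fun a _ => ?_
        simp only [dv, lf_v, rf_v, lf_h, rf_h]
        rw [hVin a b hb0 hb1, hVin (a - 1) b hb0 hb1]
        have : (ω (b, a - 1) + ω (3 ^ t - 1 - b, a - 1)) / 2 - (ω (b, a) + ω (3 ^ t - 1 - b, a)) / 2 =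
          ((ω (b, a - 1) - ω (b, a)) + (ω (3 ^ t - 1 - b, a - 1) - ω (3 ^ t - 1 - b, a))) / 2 := by ring
        rw [this]
        refine (half_pow hq0).trans ?_
        rw [abs_sub_comm (ω (b, a - 1)), abs_sub_comm (ω (3 ^ t - 1 - b, a - 1))]
      refine (Finset.sum_le_sum key).trans ?_
      rw [Finset.sum_add_distrib, two_mul]
      refine add_le_add le_rfl (le_of_eq ?_)
      refine Finset.sum_nbij' (fun b => 3 ^ t - 1 - b) (fun b => 3 ^ t - 1 - b) ?_ ?_ ?_ ?_ ?_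
      · intro b hb; rw [Finset.mem_Ico] at hb ⊢; constructor <;> linarith
      · intro b hb; rw [Finset.mem_Ico] at hb ⊢; constructor <;> linarith
      · intro b _; ring
      · intro b _; ring
      · intro b _; rfl
    have hv2 : ∑ a ∈ Finset.Ico (0:ℤ) (3 ^ t), ∑ b ∈ Finset.Ioo (0:ℤ) (3 ^ t), |dv V (false, (a, b))| ^ q ≤
        2 * ∑ i ∈ Finset.Icc (0:ℤ) (3 ^ t), ∑ j ∈ Finset.Ico (0:ℤ) (3 ^ t), |dv ω (true, (i, j))| ^ q := by
      rw [Finset.sum_comm]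
      have key : ∀ b ∈ Finset.Ioo (0:ℤ) (3 ^ t), ∑ a ∈ Finset.Ico (0:ℤ) (3 ^ t), |dv V (false, (a, b))| ^ q ≤
          (∑ j ∈ Finset.Ico (0:ℤ) (3 ^ t), |dv ω (true, (b, j))| ^ q) +
          ∑ j ∈ Finset.Ico (0:ℤ) (3 ^ t), |dv ω (true, (3 ^ t - b, j))| ^ q := by
        intro b hb
        obtain ⟨hb0, hb1⟩ := Finset.mem_Ioo.1 hb
        rw [← Finset.sum_add_distrib]
        refine Finset.sum_le_sum fun a _ => ?_
        simp only [dv, lf_v, rf_v, lf_h, rf_h]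
        rw [hVin a b hb0.le hb1, hVin a (b - 1) (by linarith) (by linarith)]
        have : (ω (b, a) + ω (3 ^ t - 1 - b, a)) / 2 - (ω (b - 1, a) + ω (3 ^ t - 1 - (b - 1), a)) / 2 =
          ((ω (b, a) - ω (b - 1, a)) + (ω (3 ^ t - 1 - b, a) - ω (3 ^ t - 1 - (b - 1), a))) / 2 := by ring
        rw [this]
        refine (half_pow hq0).trans ?_
        rw [abs_sub_comm (ω (b, a)), show (3:ℤ) ^ t - b - 1 = 3 ^ t - 1 - b by ring,
          show (3:ℤ) ^ t - 1 - (b - 1) = 3 ^ t - b by ring]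
      refine (Finset.sum_le_sum key).trans ?_
      rw [Finset.sum_add_distrib, two_mul]
      have hnn : ∀ i : ℤ, 0 ≤ ∑ j ∈ Finset.Ico (0:ℤ) (3 ^ t), |dv ω (true, (i, j))| ^ q :=
        fun i => Finset.sum_nonneg fun j _ => Real.rpow_nonneg (abs_nonneg _) _
      have hsub : Finset.Ioo (0:ℤ) (3 ^ t) ⊆ Finset.Icc (0:ℤ) (3 ^ t) := Finset.Ioo_subset_Icc_self
      refine add_le_add (Finset.sum_le_sum_of_subset_of_nonneg hsub (fun i _ _ => hnn i)) ?_
      have e1 : ∑ b ∈ Finset.Ioo (0:ℤ) (3 ^ t), ∑ j ∈ Finset.Ico (0:ℤ) (3 ^ t), |dv ω (true, (3 ^ t - b, j))| ^ q =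
          ∑ b ∈ Finset.Ioo (0:ℤ) (3 ^ t), ∑ j ∈ Finset.Ico (0:ℤ) (3 ^ t), |dv ω (true, (b, j))| ^ q := by
        refine Finset.sum_nbij' (fun b => 3 ^ t - b) (fun b => 3 ^ t - b) ?_ ?_ ?_ ?_ ?_
        · intro b hb; rw [Finset.mem_Ioo] at hb ⊢; constructor <;> linarith
        · intro b hb; rw [Finset.mem_Ioo] at hb ⊢; constructor <;> linarith
        · intro b _; ring
        · intro b _; ring
        · intro b _; rfl
      rw [e1]
      exact Finset.sum_le_sum_of_subset_of_nonneg hsub (fun i _ _ => hnn i)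
    have htot := sum_RE (3 ^ t) (3 ^ t) (fun e => |dv ω e| ^ q)
    rw [htot] at hall
    linarith

end CarpetPI.PB
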