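import Pool.Agent.Lib.MP_1d263a_an.PI.B
import Pool.Agent.Lib.MP_1d263a_an.PI.HF
import Pool.Agent.Lib.MP_1d263a_an.PI.HP
import Pool.Agent.Lib.MP_1d263a_an.PI.HK
import Pool.Agent.Lib.MP_1d263a_an.PI.HJ
import Pool.Agent.Lib.MP_1d263a_an.PI.HE
import Pool.Agent.Lib.MP_1d263a_an.PI.HB

/-!
# MP_1d263a_an, project PI, part H without hypotheses
-/

noncomputable section

namespace CarpetPI

theorem t_HK : S_HK := p_HK

theorem t_HJ : S_HJ := p_HJ t_HK

theorem t_HE : S_HE := p_HE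

theorem t_HB : S_HB := p_HB t_HE

theorem t_HP : S_HP := PB.p_HP t_BTC

/-- the final statement of part H -/
theorem t_Hfinal : S_Hfinal := p_Hfinal t_HK t_HJ t_HB t_HP

end CarpetPI
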