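import Pool.Agent.Lib.MP_1d263a_an.PI.StmE

/-!
# MP_1d263a_an, project PI, piece EA: a value is crossed in both directions on the boundary of a box
-/

open Finset
open scoped Classical

noncomputable section

namespace CarpetPI

theorem EA_up {Q : ℤ → Prop} {a b : ℤ} (h : ∀ i, a ≤ i → i < b → Q i → Q (i + 1)) :
    ∀ i j, a ≤ i → i ≤ j → j ≤ b → Q i → Q j := by
  intro i j hi hij
  induction j, hij using Int.le_induction with
  | base => exact fun _ hq => hq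
  | succ j hij ih =>
    intro hj hq
    exact h j (hi.trans hij) (by omega) (ih (by omega) hq)

theorem EA_down {Q : ℤ → Prop} {a b : ℤ} (h : ∀ i, a ≤ i → i < b → Q (i + 1) → Q i) :
    ∀ i j, a ≤ i → i ≤ j → j ≤ b → Q j → Q i := by
  intro i j hi hij
  induction j, hij using Int.le_induction with
  | base => exact fun _ hq => hq
  | succ j hij ih =>
    intro hj hq
    exact ih (by omega) (h j (hi.trans hij) (by omega) hq)

theorem EA_one (u : Pt → ℝ) (x₀ x₁ y₀ y₁ : ℤ) (a : ℝ) (hx : x₀ < x₁) (hy : y₀ < y₁)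
    (hne : ∀ x ∈ bdV x₀ x₁ y₀ y₁, u x ≠ a) (z₀ : Pt) (hz₀ : z₀ ∈ bdV x₀ x₁ y₀ y₁) (z₁ : Pt)
    (hz₁ : z₁ ∈ bdV x₀ x₁ y₀ y₁) (h0 : u z₀ < a) (h1 : a < u z₁) :
    ∃ e : Ed, (lf e ∈ box x₀ x₁ y₀ y₁ ∧ rf e ∉ box x₀ x₁ y₀ y₁ ∧ u (tl e) < a ∧ a < u (hd e)) ∨
    (rf e ∈ box x₀ x₁ y₀ y₁ ∧ lf e ∉ box x₀ x₁ y₀ y₁ ∧ u (hd e) < a ∧ a < u (tl e)) := by
  by_contra hno
  push Not at hno
  have hbox : ∀ i j : ℤ, ((i, j) : Pt) ∈ box x₀ x₁ y₀ y₁ ↔ (x₀ ≤ i ∧ i < x₁) ∧ (y₀ ≤ j ∧ j < y₁) := by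
    intro i j
    simp [box]
  have hlt : ∀ i j : ℤ, x₀ ≤ i → i ≤ x₁ → y₀ ≤ j → j ≤ y₁ → (i = x₀ ∨ i = x₁ ∨ j = y₀ ∨ j = y₁) →
      u (i, j) ≤ a → u (i, j) < a := by
    intro i j h1 h2 h3 h4 h5 h6
    exact lt_of_le_of_ne h6 (hne (i, j) ⟨h1, h2, h3, h4, h5⟩)
  -- the four sides
  have hB : ∀ i, x₀ ≤ i → i < x₁ → u (i, y₀) < a → u (i + 1, y₀) < a := by
    intro i hi hi' h
    refine hlt _ _ (by omega) (by omega) le_rfl hy.le (Or.inr (Or.inr (Or.inl rfl))) ?_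
    have := (hno (false, (i, y₀))).1 ?_ ?_ ?_
    · simpa [hd] using this
    · simp only [lf]
      exact (hbox _ _).mpr ⟨⟨hi, hi'⟩, le_rfl, hy⟩
    · simp only [rf]
      intro hc
      have := (hbox i (y₀ - 1)).mp hc
      omega
    · simpa [tl] using h
  have hR : ∀ j, y₀ ≤ j → j < y₁ → u (x₁, j) < a → u (x₁, j + 1) < a := by
    intro j hj hj' h
    refine hlt _ _ hx.le le_rfl (by omega) (by omega) (Or.inr (Or.inl rfl)) ?_
    have := (hno (true, (x₁, j))).1 ?_ ?_ ?_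
    · simpa [hd] using this
    · simp only [lf]
      exact (hbox (x₁ - 1) j).mpr ⟨⟨by omega, by omega⟩, hj, hj'⟩
    · simp only [rf]
      intro hc
      have := (hbox x₁ j).mp hc
      omega
    · simpa [tl] using h
  have hT : ∀ i, x₀ ≤ i → i < x₁ → u (i + 1, y₁) < a → u (i, y₁) < a := by
    intro i hi hi' h
    refine hlt _ _ hi hi'.le hy.le le_rfl (Or.inr (Or.inr (Or.inr rfl))) ?_
    have := (hno (false, (i, y₁))).2 ?_ ?_ ?_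
    · simpa [tl] using this
    · simp only [rf]
      exact (hbox i (y₁ - 1)).mpr ⟨⟨hi, hi'⟩, by omega, by omega⟩
    · simp only [lf]
      intro hc
      have := (hbox i y₁).mp hc
      omega
    · simpa [hd] using h
  have hL : ∀ j, y₀ ≤ j → j < y₁ → u (x₀, j + 1) < a → u (x₀, j) < a := by
    intro j hj hj' h
    refine hlt _ _ le_rfl hx.le hj hj'.le (Or.inl rfl) ?_
    have := (hno (true, (x₀, j))).2 ?_ ?_ ?_
    · simpa [tl] using this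
    · simp only [rf]
      exact (hbox x₀ j).mpr ⟨⟨le_rfl, hx⟩, hj, hj'⟩
    · simp only [lf]
      intro hc
      have := (hbox (x₀ - 1) j).mp hc
      omega
    · simpa [hd] using h
  have B := EA_up (Q := fun i => u (i, y₀) < a) hB
  have R := EA_up (Q := fun j => u (x₁, j) < a) hR
  have T := EA_down (Q := fun i => u (i, y₁) < a) hT
  have L := EA_down (Q := fun j => u (x₀, j) < a) hL
  -- the corners
  have c1 : u (x₀, y₀) < a → u (x₁, y₀) < a := B x₀ x₁ le_rfl hx.le le_rfl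
  have c2 : u (x₁, y₀) < a → u (x₁, y₁) < a := R y₀ y₁ le_rfl hy.le le_rfl
  have c3 : u (x₁, y₁) < a → u (x₀, y₁) < a := T x₀ x₁ le_rfl hx.le le_rfl
  have c4 : u (x₀, y₁) < a → u (x₀, y₀) < a := L y₀ y₁ le_rfl hy.le le_rfl
  have hc : u (x₀, y₀) < a := by
    obtain ⟨i, j⟩ := z₀
    obtain ⟨b1, b2, b3, b4, b5⟩ := hz₀
    simp only at b1 b2 b3 b4 b5
    rcases b5 with rfl | rfl | rfl | rfl
    · exact L y₀ j le_rfl b3 b4 h0
    · exact c4 (c3 (R j y₁ b3 b4 le_rfl h0))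
    · exact c4 (c3 (c2 (B i x₁ b1 b2 le_rfl h0)))
    · exact c4 (T x₀ i le_rfl b1 b2 h0)
  have hz : u z₁ < a := by
    obtain ⟨i, j⟩ := z₁
    obtain ⟨b1, b2, b3, b4, b5⟩ := hz₁
    simp only at b1 b2 b3 b4 b5
    rcases b5 with rfl | rfl | rfl | rfl
    · exact L j y₁ b3 b4 le_rfl (c3 (c2 (c1 hc)))
    · exact R y₀ j le_rfl b3 b4 (c1 hc)
    · exact B x₀ i le_rfl b1 b2 hc
    · exact T i x₁ b1 b2 le_rfl (c2 (c1 hc))
  exact absurd hz (not_lt.mpr h1.le)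

theorem p_EA : S_EA := by
  intro u x₀ x₁ y₀ y₁ a hx hy hne z₀ hz₀ z₁ hz₁ h0 h1
  refine ⟨EA_one u x₀ x₁ y₀ y₁ a hx hy hne z₀ hz₀ z₁ hz₁ h0 h1, ?_⟩
  obtain ⟨e, he⟩ := EA_one (fun x => - u x) x₀ x₁ y₀ y₁ (- a) hx hy
    (fun x hxb h => hne x hxb (neg_injective h)) z₁ hz₁ z₀ hz₀ (neg_lt_neg h1) (neg_lt_neg h0)
  refine ⟨e, ?_⟩
  rcases he with ⟨h1, h2, h3, h4⟩ | ⟨h1, h2, h3, h4⟩
  · exact Or.inl ⟨h1, h2, neg_lt_neg_iff.mp h4, neg_lt_neg_iff.mp h3⟩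
  · exact Or.inr ⟨h1, h2, neg_lt_neg_iff.mp h4, neg_lt_neg_iff.mp h3⟩

end CarpetPI
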