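import Pool.Agent.Lib.MP_1d263a_an.PI.StmE

set_option autoImplicit false

/-!
# MP_1d263a_an, project PI, piece EB: tiles do not touch the level of the hole
-/

open Finset
open scoped Classical

noncomputable section

namespace CarpetPI

private theorem EB_pos {p t : ℝ} (ht : 0 < t) : 0 < phi p t := by
  rw [phi, Real.sign_of_pos ht, one_mul]
  exact Real.rpow_pos_of_pos (abs_pos.mpr ht.ne') _

private theorem EB_neg {p t : ℝ} (ht : t < 0) : phi p t < 0 := by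
  rw [phi, Real.sign_of_neg ht]
  have := Real.rpow_pos_of_pos (abs_pos.mpr ht.ne) (p - 1)
  linarith

private theorem EB_fin (x₀ x₁ y₀ y₁ : ℤ) : (bdV x₀ x₁ y₀ y₁).Finite := by
  refine (Set.finite_Icc ((x₀, y₀) : ℤ × ℤ) (x₁, y₁)).subset ?_
  rintro ⟨a, b⟩ ⟨h1, h2, h3, h4, _⟩
  exact ⟨⟨h1, h3⟩, ⟨h2, h4⟩⟩

theorem p_EB (hEA : S_EA) : S_EB := by
  intro p K R u v x₀ x₁ y₀ y₁ h _ hpair htile hhole z₀ hz₀ z₁ hz₁ e he hpe hlf hrf a ha0 ha1
    hae0 hae1
  obtain ⟨hx, hy, hbox, hside⟩ := hhole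
  -- a level which is not a value on the boundary
  have hI : max (u z₀) (min (u (hd e)) (u (tl e))) < min (u z₁) (max (u (hd e)) (u (tl e))) :=
    (max_lt ha0 hae0).trans (lt_min ha1 hae1)
  obtain ⟨a', ⟨hI1, hI2⟩, hav⟩ := (Set.Ioo_infinite hI).exists_notMem_finite
    ((EB_fin x₀ x₁ y₀ y₁).image u)
  obtain ⟨hz0', he0'⟩ := max_lt_iff.mp hI1
  obtain ⟨hz1', he1'⟩ := lt_min_iff.mp hI2
  obtain ⟨⟨e₁, h₁⟩, e₂, h₂⟩ := hEA u x₀ x₁ y₀ y₁ a' hx hy
    (fun x hx' hux => hav ⟨x, hx', hux⟩) z₀ hz₀ z₁ hz₁ hz0' hz1'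
  -- data of the side `e₁`: the outer value is below `h`
  have k₁ : e₁ ∈ R ∧ pres K e₁ ∧ e ≠ e₁ ∧
      (min (u (hd e₁)) (u (tl e₁)) < a' ∧ a' < max (u (hd e₁)) (u (tl e₁))) ∧
      (min (v (lf e₁)) (v (rf e₁)) < h ∧ h ≤ max (v (lf e₁)) (v (rf e₁))) := by
    rcases h₁ with ⟨b1, b2, b3, b4⟩ | ⟨b1, b2, b3, b4⟩
    · obtain ⟨c1, c2⟩ := hside e₁ (fun hh => b2 (hh.mp b1))
      have hv := (hbox _ b1).2
      have hp := (hpair e₁ c1).1 c2
      have h3 : 0 < phi p (du u e₁) := EB_pos (by rw [du]; linarith)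
      rw [← hp, dv, hv] at h3
      refine ⟨c1, c2, fun hh => hlf (by rw [hh]; exact b1), ⟨min_lt_of_right_lt b3,
        lt_max_of_lt_left b4⟩, min_lt_of_right_lt (by linarith), ?_⟩
      rw [hv]
      exact le_max_left _ _
    · obtain ⟨c1, c2⟩ := hside e₁ (fun hh => b2 (hh.mpr b1))
      have hv := (hbox _ b1).2
      have hp := (hpair e₁ c1).1 c2
      have h3 : phi p (du u e₁) < 0 := EB_neg (by rw [du]; linarith)
      rw [← hp, dv, hv] at h3
      refine ⟨c1, c2, fun hh => hrf (by rw [hh]; exact b1), ⟨min_lt_of_left_lt b3,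
        lt_max_of_lt_right b4⟩, min_lt_of_left_lt (by linarith), ?_⟩
      rw [hv]
      exact le_max_right _ _
  have k₂ : e₂ ∈ R ∧ pres K e₂ ∧ e ≠ e₂ ∧
      (min (u (hd e₂)) (u (tl e₂)) < a' ∧ a' < max (u (hd e₂)) (u (tl e₂))) ∧
      (min (v (lf e₂)) (v (rf e₂)) ≤ h ∧ h < max (v (lf e₂)) (v (rf e₂))) := by
    rcases h₂ with ⟨b1, b2, b3, b4⟩ | ⟨b1, b2, b3, b4⟩
    · obtain ⟨c1, c2⟩ := hside e₂ (fun hh => b2 (hh.mp b1))
      have hv := (hbox _ b1).2
      have hp := (hpair e₂ c1).1 c2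
      have h3 : phi p (du u e₂) < 0 := EB_neg (by rw [du]; linarith)
      rw [← hp, dv, hv] at h3
      refine ⟨c1, c2, fun hh => hlf (by rw [hh]; exact b1), ⟨min_lt_of_left_lt b3,
        lt_max_of_lt_right b4⟩, ?_, lt_max_of_lt_right (by linarith)⟩
      rw [hv]
      exact min_le_left _ _
    · obtain ⟨c1, c2⟩ := hside e₂ (fun hh => b2 (hh.mpr b1))
      have hv := (hbox _ b1).2
      have hp := (hpair e₂ c1).1 c2
      have h3 : 0 < phi p (du u e₂) := EB_pos (by rw [du]; linarith)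
      rw [← hp, dv, hv] at h3
      refine ⟨c1, c2, fun hh => hrf (by rw [hh]; exact b1), ⟨min_lt_of_right_lt b3,
        lt_max_of_lt_left b4⟩, ?_, lt_max_of_lt_left (by linarith)⟩
      rw [hv]
      exact min_le_right _ _
  rintro ⟨hv0, hv1⟩
  rcases lt_or_ge h (max (v (lf e)) (v (rf e))) with hlt | hge
  · obtain ⟨r1, r2, r3, ⟨r4, r5⟩, r6, r7⟩ := k₂
    obtain ⟨c, hc1, hc2⟩ := exists_between (lt_min hlt r7)
    obtain ⟨hc3, hc4⟩ := lt_min_iff.mp hc2
    exact htile e he e₂ r1 hpe r2 r3 a' c ⟨he0', he1', hv0.trans_lt hc1, hc3, r4, r5,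
      r6.trans_lt hc1, hc4⟩
  · -- the tile of `e` is not degenerate
    have hdu : du u e ≠ 0 := by
      intro h0
      have h1 : u (hd e) = u (tl e) := by
        rw [du] at h0
        linarith
      rw [h1, min_self] at he0'
      rw [h1, max_self] at he1'
      exact lt_asymm he0' he1'
    have hp := (hpair e he).1 hpe
    have hphi : phi p (du u e) ≠ 0 := by
      rcases lt_or_gt_of_ne hdu with h1 | h1
      · exact (EB_neg h1).ne
      · exact (EB_pos h1).ne'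
    have hne : v (lf e) ≠ v (rf e) := by
      intro h0
      apply hphi
      rw [← hp, dv, h0, sub_self]
    have hmin : min (v (lf e)) (v (rf e)) < h := by
      have h1 : min (v (lf e)) (v (rf e)) < max (v (lf e)) (v (rf e)) := min_lt_max.mpr hne
      exact lt_of_lt_of_le h1 hge
    obtain ⟨r1, r2, r3, ⟨r4, r5⟩, r6, r7⟩ := k₁
    obtain ⟨c, hc1, hc2⟩ := exists_between (max_lt hmin r6)
    obtain ⟨hc3, hc4⟩ := max_lt_iff.mp hc1
    exact htile e he e₁ r1 hpe r2 r3 a' c ⟨he0', he1', hc3, hc2.trans_le hv1, r4, r5, hc4,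
      hc2.trans_le r7⟩

end CarpetPI
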