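import Pool.Agent.Lib.MP_1d263a_an.PI.StmE

/-!
# EC: propagation of the sign of `v - h`
-/

set_option autoImplicit false

open Finset
open scoped Classical

noncomputable section

namespace CarpetPI

/-- the signs of `v - h` at `f` and `g` agree -/
private def EC_S (v : Pt → ℝ) (h : ℝ) (f g : Pt) : Prop := (h < v f ↔ h < v g) ∧ (v f < h ↔ v g < h)

private lemma EC_S.symm {v : Pt → ℝ} {h : ℝ} {f g : Pt} (H : EC_S v h f g) : EC_S v h g f :=
  ⟨H.1.symm, H.2.symm⟩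

private lemma EC_S.trans {v : Pt → ℝ} {h : ℝ} {f g k : Pt} (H : EC_S v h f g)
    (H' : EC_S v h g k) : EC_S v h f k := ⟨H.1.trans H'.1, H.2.trans H'.2⟩

private lemma EC_S.of_eq {v : Pt → ℝ} {h : ℝ} {f g : Pt} (H : v f = v g) : EC_S v h f g := by
  unfold EC_S
  rw [H]
  exact ⟨Iff.rfl, Iff.rfl⟩

private lemma EC_cor (e : Ed) : IsCor (tl e) (lf e) ∧ IsCor (hd e) (lf e) ∧ IsCor (tl e) (rf e) ∧
    IsCor (hd e) (rf e) := by
  obtain ⟨b, x⟩ := e
  cases b <;> simp [tl, hd, lf, rf, IsCor]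

private lemma EC_a {m M w z₀ z₁ : ℝ} (hm : m < M) (hw : w = m ∨ w = M) (h0 : z₀ < w) (h1 : w < z₁) :
    ∃ a, z₀ < a ∧ a < z₁ ∧ m < a ∧ a < M := by
  rcases hw with rfl | rfl
  · obtain ⟨a, ha1, ha2⟩ := exists_between (lt_min hm h1)
    exact ⟨a, h0.trans ha1, ha2.trans_le (min_le_right _ _), ha1, ha2.trans_le (min_le_left _ _)⟩
  · obtain ⟨a, ha1, ha2⟩ := exists_between (max_lt hm h0)
    exact ⟨a, (le_max_right _ _).trans_lt ha1, ha2.trans h1, (le_max_left _ _).trans_lt ha1, ha2⟩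

private lemma EC_edge (hEB : S_EB) {p : ℝ} {K : Set Pt} {R : Set Ed} {u v : Pt → ℝ}
    {x₀ x₁ y₀ y₁ : ℤ} {h : ℝ} (hp : 1 < p) (hP : Pair p K R u v) (hT : Tile K R u v)
    (hH : Hole K R v x₀ x₁ y₀ y₁ h) {z₀ z₁ : Pt} (hz₀ : z₀ ∈ bdV x₀ x₁ y₀ y₁)
    (hz₁ : z₁ ∈ bdV x₀ x₁ y₀ y₁) {B : Set Pt} (hu : ∀ x ∈ B, u z₀ < u x ∧ u x < u z₁)
    (hR : ∀ e : Ed, (tl e ∈ B ∨ hd e ∈ B) → e ∈ R) {e : Ed} (he : tl e ∈ B ∨ hd e ∈ B)
    (h1 : lf e ∉ box x₀ x₁ y₀ y₁) (h2 : rf e ∉ box x₀ x₁ y₀ y₁) : EC_S v h (lf e) (rf e) := by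
  have heR := hR e he
  obtain ⟨p1, p2⟩ := hP e heR
  by_cases hpr : pres K e
  · by_cases hdu : du u e = 0
    · have e1 := p1 hpr
      have e2 : phi p (du u e) = 0 := by
        rw [hdu]
        unfold phi
        simp
      rw [e2] at e1
      unfold dv at e1
      exact EC_S.of_eq (by linarith)
    · have hne : u (hd e) ≠ u (tl e) := fun h' => hdu (by unfold du; rw [h', sub_self])
      have hlt : min (u (hd e)) (u (tl e)) < max (u (hd e)) (u (tl e)) := min_lt_max.mpr hne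
      obtain ⟨a, ha1, ha2, ha3, ha4⟩ : ∃ a, u z₀ < a ∧ a < u z₁ ∧
          min (u (hd e)) (u (tl e)) < a ∧ a < max (u (hd e)) (u (tl e)) := by
        rcases he with he | he
        · refine EC_a hlt ?_ (hu _ he).1 (hu _ he).2
          rcases le_total (u (hd e)) (u (tl e)) with hle | hle
          · right; rw [max_eq_right hle]
          · left; rw [min_eq_right hle]
        · refine EC_a hlt ?_ (hu _ he).1 (hu _ he).2
          rcases le_total (u (hd e)) (u (tl e)) with hle | hle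
          · left; rw [min_eq_left hle]
          · right; rw [max_eq_left hle]
      have key := hEB p K R u v x₀ x₁ y₀ y₁ h hp hP hT hH z₀ hz₀ z₁ hz₁ e heR hpr h1 h2 a ha1 ha2
        ha3 ha4
      rw [not_and_or, not_le, not_le, lt_min_iff, max_lt_iff] at key
      unfold EC_S
      rcases key with ⟨k1, k2⟩ | ⟨k1, k2⟩
      · exact ⟨⟨fun _ => k2, fun _ => k1⟩,
          ⟨fun h' => absurd h' k1.not_gt, fun h' => absurd h' k2.not_gt⟩⟩
      · exact ⟨⟨fun h' => absurd h' k1.not_gt, fun h' => absurd h' k2.not_gt⟩,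
          ⟨fun _ => k2, fun _ => k1⟩⟩
  · have e1 := p2 hpr
    unfold dv at e1
    exact EC_S.of_eq (by linarith)

private lemma EC_four {x f : Pt} (hf : IsCor x f) : f = (x.1, x.2) ∨ f = (x.1, x.2 - 1) ∨
    f = (x.1 - 1, x.2) ∨ f = (x.1 - 1, x.2 - 1) := by
  obtain ⟨h1 | h1, h2 | h2⟩ := hf
  · exact Or.inl (Prod.ext h1.symm h2.symm)
  · exact Or.inr (Or.inl (Prod.ext h1.symm (by simp only; omega)))
  · exact Or.inr (Or.inr (Or.inl (Prod.ext (by simp only; omega) h2.symm)))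
  · exact Or.inr (Or.inr (Or.inr (Prod.ext (by simp only; omega) (by simp only; omega))))

private lemma EC_pt {v : Pt → ℝ} {x₀ x₁ y₀ y₁ : ℤ} {h : ℝ} {x : Pt}
    (hE : ∀ e : Ed, (tl e = x ∨ hd e = x) → lf e ∉ box x₀ x₁ y₀ y₁ → rf e ∉ box x₀ x₁ y₀ y₁ →
      EC_S v h (lf e) (rf e)) {f g : Pt} (hf : IsCor x f) (hg : IsCor x g)
    (hfb : f ∉ box x₀ x₁ y₀ y₁) (hgb : g ∉ box x₀ x₁ y₀ y₁) : EC_S v h f g := by
  have hf' := EC_four hf
  have hg' := EC_four hg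
  obtain ⟨i, j⟩ := x
  have eU := hE (true, (i, j)) (Or.inl rfl)
  have eD := hE (true, (i, j - 1)) (Or.inr (by simp [hd]))
  have eR := hE (false, (i, j)) (Or.inl rfl)
  have eL := hE (false, (i - 1, j)) (Or.inr (by simp [hd]))
  simp only [lf, rf, if_true, Bool.false_eq_true, if_false] at eU eD eR eL
  simp only at hf' hg'
  have hbox : ∀ a b : ℤ, (a, b) ∈ box x₀ x₁ y₀ y₁ ↔ (x₀ ≤ a ∧ a < x₁) ∧ (y₀ ≤ b ∧ b < y₁) := by
    intro a b
    unfold box
    rw [Finset.mem_product, Finset.mem_Ico, Finset.mem_Ico]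
  have hrefl : ∀ k : Pt, EC_S v h k k := fun k => EC_S.of_eq rfl
  have AC : (i, j) ∉ box x₀ x₁ y₀ y₁ → (i - 1, j - 1) ∉ box x₀ x₁ y₀ y₁ →
      EC_S v h (i, j) (i - 1, j - 1) := by
    intro h1 h2
    by_cases hm : (i, j - 1) ∈ box x₀ x₁ y₀ y₁
    · have hm' : (i - 1, j) ∉ box x₀ x₁ y₀ y₁ := by
        intro hc
        rw [hbox] at hm hc
        exact h1 ((hbox _ _).mpr ⟨hm.1, hc.2⟩)
      exact (eU hm' h1).symm.trans (eL hm' h2)
    · exact (eR h1 hm).trans (eD h2 hm).symm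
  have BD : (i - 1, j) ∉ box x₀ x₁ y₀ y₁ → (i, j - 1) ∉ box x₀ x₁ y₀ y₁ →
      EC_S v h (i - 1, j) (i, j - 1) := by
    intro h1 h2
    by_cases hm : (i, j) ∈ box x₀ x₁ y₀ y₁
    · have hm' : (i - 1, j - 1) ∉ box x₀ x₁ y₀ y₁ := by
        intro hc
        rw [hbox] at hm hc
        exact h2 ((hbox _ _).mpr ⟨hm.1, hc.2⟩)
      exact (eL h1 hm').trans (eD hm' h2)
    · exact (eU h1 hm).trans (eR hm h2)
  rcases hf' with rfl | rfl | rfl | rfl <;> rcases hg' with rfl | rfl | rfl | rfl <;>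
    first
      | exact hrefl _
      | exact eU hfb hgb
      | exact (eU hgb hfb).symm
      | exact eD hfb hgb
      | exact (eD hgb hfb).symm
      | exact eR hfb hgb
      | exact (eR hgb hfb).symm
      | exact eL hfb hgb
      | exact (eL hgb hfb).symm
      | exact AC hfb hgb
      | exact (AC hgb hfb).symm
      | exact BD hfb hgb
      | exact (BD hgb hfb).symm

theorem p_EC (hEB : S_EB) : S_EC := by
  intro p K R u v x₀ x₁ y₀ y₁ h hp hP hT hH z₀ hz₀ z₁ hz₁ B hB hu hR f hf g hg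
  obtain ⟨hfb, x, hxB, hxf⟩ := hf
  obtain ⟨hgb, y, hyB, hyg⟩ := hg
  -- at one point
  have hpt : ∀ z ∈ B, ∀ k k' : Pt, IsCor z k → IsCor z k' → k ∉ box x₀ x₁ y₀ y₁ →
      k' ∉ box x₀ x₁ y₀ y₁ → EC_S v h k k' := by
    intro z hz k k' hk hk' hkb hkb'
    refine EC_pt (x := z) (fun e he h1 h2 => ?_) hk hk' hkb hkb'
    refine EC_edge hEB hp hP hT hH hz₀ hz₁ hu hR ?_ h1 h2
    rcases he with rfl | rfl
    · exact Or.inl hz
    · exact Or.inr hz
  have hpath := hB.2 x hxB y hyB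
  have main : ∀ z : Pt, Relation.ReflTransGen (fun a b => adj K a b ∧ a ∈ B ∧ b ∈ B) x z →
      z ∈ B → ∀ k : Pt, IsCor z k → k ∉ box x₀ x₁ y₀ y₁ → EC_S v h f k := by
    intro z hz
    induction hz with
    | refl =>
      intro _ k hk hkb
      exact hpt x hxB f k hxf hk hfb hkb
    | tail _ hab ih =>
      rename_i b c _
      intro hc k hk hkb
      obtain ⟨⟨e, hpr, hend⟩, hbB, hcB⟩ := hab
      obtain ⟨c1, c2, c3, c4⟩ := EC_cor e
      -- a face of the edge is in `K`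
      obtain ⟨F, hF1, hF2, hFb⟩ : ∃ F : Pt, IsCor (tl e) F ∧ IsCor (hd e) F ∧
          F ∉ box x₀ x₁ y₀ y₁ := by
        rcases hpr with hK | hK
        · exact ⟨lf e, c1, c2, fun hbx => (hH.2.2.1 _ hbx).1 hK⟩
        · exact ⟨rf e, c3, c4, fun hbx => (hH.2.2.1 _ hbx).1 hK⟩
      rcases hend with ⟨rfl, rfl⟩ | ⟨rfl, rfl⟩
      · exact (ih hbB F hF1 hFb).trans (hpt _ hcB F k hF2 hk hFb hkb)
      · exact (ih hbB F hF2 hFb).trans (hpt _ hcB F k hF1 hk hFb hkb)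
  exact main y hpath hyB g hyg hgb

end CarpetPI
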