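import Pool.Agent.Lib.MP_1d263a_an.PI.StmE

/-!
# MP_1d263a_an, project PI, piece ED: one strict sign
-/

open Finset
open scoped Classical

noncomputable section

namespace CarpetPI

theorem ED_cor_lf (e : Ed) : IsCor (tl e) (lf e) := by
  obtain ⟨b, x, y⟩ := e
  cases b <;> simp [IsCor, tl, lf]

theorem ED_cor_rf (e : Ed) : IsCor (tl e) (rf e) := by
  obtain ⟨b, x, y⟩ := e
  cases b <;> simp [IsCor, tl, rf]

theorem ED_phi {p t : ℝ} (h : phi p t = 0) : t = 0 := by
  by_contra ht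
  unfold phi at h
  rcases mul_eq_zero.1 h with h1 | h1
  · exact ht (Real.sign_eq_zero_iff.1 h1)
  · exact (Real.rpow_pos_of_pos (abs_pos.2 ht) _).ne' h1

/-- [ED] one strict sign -/
theorem p_ED (hEC : S_EC) : S_ED := by
  intro p K R u v x₀ x₁ y₀ y₁ h hp hPair hTile hHole z₀ hz₀ z₁ hz₁ B hB huB hR hne
  have hEC' := hEC p K R u v x₀ x₁ y₀ y₁ h hp hPair hTile hHole z₀ hz₀ z₁ hz₁ B hB huB hR
  by_cases h1 : ∃ f ∈ outF x₀ x₁ y₀ y₁ B, h < v f
  · obtain ⟨f, hf, hvf⟩ := h1
    exact Or.inl fun g hg => (hEC' f hf g hg).1.1 hvf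
  · by_cases h2 : ∃ f ∈ outF x₀ x₁ y₀ y₁ B, v f < h
    · obtain ⟨f, hf, hvf⟩ := h2
      exact Or.inr fun g hg => (hEC' f hf g hg).2.1 hvf
    · exfalso
      push Not at h1 h2
      have hface : ∀ f : Pt, (∃ x ∈ B, IsCor x f) → v f = h := by
        intro f hf
        by_cases hbox : f ∈ box x₀ x₁ y₀ y₁
        · exact (hHole.2.2.1 f hbox).2
        · exact le_antisymm (h1 f ⟨hbox, hf⟩) (h2 f ⟨hbox, hf⟩)
      have hedge : ∀ e : Ed, pres K e → tl e ∈ B → u (hd e) = u (tl e) := by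
        intro e he htl
        have h3 := (hPair e (hR e (Or.inl htl))).1 he
        have h4 : dv v e = 0 := by
          unfold dv
          rw [hface _ ⟨_, htl, ED_cor_lf e⟩, hface _ ⟨_, htl, ED_cor_rf e⟩, sub_self]
        rw [h4] at h3
        exact sub_eq_zero.1 (ED_phi h3.symm)
      obtain ⟨x, hx, x', hx', hxx⟩ := hne
      apply hxx
      have h5 := hB.2 x hx x' hx'
      induction h5 with
      | refl => rfl
      | tail _ hbc ih =>
        rename_i b c _
        obtain ⟨⟨e, he, hends⟩, hb, hc⟩ := hbc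
        have h6 : u b = u c := by
          rcases hends with ⟨rfl, rfl⟩ | ⟨rfl, rfl⟩
          · exact (hedge e he hb).symm
          · exact hedge e he hc
        by_cases h7 : u x = u b
        · rw [h7, h6]
        · exact absurd (ih hb h7) h7

end CarpetPI
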