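import Pool.Agent.Lib.MP_1d263a_an.PI.StmE

/-!
# MP_1d263a_an, project PI, piece EE (discrete intermediate value)
-/

set_option autoImplicit false

namespace CarpetPI

/-- the discrete intermediate value for sequences -/
theorem EE_seq (s : ℕ → ℝ) (N : ℕ) (α β ω : ℝ) (hω : 0 ≤ ω) (hαβ : α + 4 * ω < β)
    (hs : ∀ n, n < N → |s (n + 1) - s n| ≤ ω) (h0 : |s 0 - α| ≤ ω) (hN : |s N - β| ≤ ω) :
    ∃ n, n ≤ N ∧ α + ω < s n ∧ s n < β - ω := by
  classical
  have hex : ∃ n, α + ω < s n := by
    refine ⟨N, ?_⟩
    have h1 := (abs_le.1 hN).1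
    linarith
  have hf : α + ω < s (Nat.find hex) := Nat.find_spec hex
  have hfN : Nat.find hex ≤ N := by
    apply Nat.find_min' hex
    have h1 := (abs_le.1 hN).1
    linarith
  have hf0 : Nat.find hex ≠ 0 := by
    intro h1
    rw [h1] at hf
    have h2 := (abs_le.1 h0).2
    linarith
  refine ⟨Nat.find hex, hfN, hf, ?_⟩
  have h1 : ¬ α + ω < s (Nat.find hex - 1) := Nat.find_min hex (by omega)
  have h2 := hs (Nat.find hex - 1) (by omega)
  have h3 : Nat.find hex - 1 + 1 = Nat.find hex := by omega
  rw [h3] at h2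
  have h4 := (abs_le.1 h2).2
  push Not at h1
  linarith

/-- [EE] discrete intermediate value. -/
theorem p_EE : S_EE := by
  intro g i₀ i₁ i j α β ω hω hαβ hg hi0 hi1 hj0 hj1 hi hj
  rcases le_total i j with hij | hij
  · obtain ⟨n, hn, h1, h2⟩ := EE_seq (fun n => g (i + n)) (j - i).toNat α β ω hω hαβ
      (fun n hn => by
        have h3 := hg (i + n) (by omega) (by omega)
        have h4 : i + ((n + 1 : ℕ) : ℤ) = i + n + 1 := by push_cast; ring
        rw [h4]
        exact h3)
      (by simpa using hi)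
      (by
        have h5 : i + (((j - i).toNat : ℕ) : ℤ) = j := by omega
        rw [h5]
        exact hj)
    exact ⟨i + n, by omega, by omega, h1, h2⟩
  · obtain ⟨n, hn, h1, h2⟩ := EE_seq (fun n => g (i - n)) (i - j).toNat α β ω hω hαβ
      (fun n hn => by
        have h3 := hg (i - n - 1) (by omega) (by omega)
        rw [sub_add_cancel, abs_sub_comm] at h3
        have h4 : i - ((n + 1 : ℕ) : ℤ) = i - n - 1 := by push_cast; ring
        rw [h4]
        exact h3)
      (by simpa using hi)
      (by
        have h5 : i - (((i - j).toNat : ℕ) : ℤ) = j := by omega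
        rw [h5]
        exact hj)
    exact ⟨i - n, by omega, by omega, h1, h2⟩

end CarpetPI
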