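import Pool.Agent.Lib.MP_1d263a_an.PI.StmE

/-!
# MP_1d263a_an, project PI, piece EF: the point on the flat side
-/

open Finset
open scoped Classical

noncomputable section

namespace CarpetPI

theorem p_EF (hED : S_ED) (hEE : S_EE) : S_EF := by
  intro p K R u v x₀ x₁ y₀ y₁ h ω r i₀ i₁ B hp hP hT hH hr hω hx0 hx1 hB hx
  obtain ⟨x, x', hx1a, hx1b, hx2a, hx2b, huu⟩ := hx
  have hyy : y₀ < y₁ := hH.2.1
  -- multiples of `r`
  have hmul : ∀ i, i₀ ≤ i → i ≤ i₁ → x₀ ≤ i * r ∧ i * r ≤ x₁ := by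
    intro i h1 h2
    constructor
    · have := mul_le_mul_of_nonneg_right h1 hr.le
      linarith
    · have := mul_le_mul_of_nonneg_right h2 hr.le
      linarith
  have hmem : ∀ i, i₀ ≤ i → i ≤ i₁ → ((i * r, y₁) : Pt) ∈ B i := by
    intro i h1 h2
    obtain ⟨h3, h4⟩ := hmul i h1 h2
    exact (hB i h1 h2).2.2.2.2 (i * r) h3 h4 (by rw [sub_self, abs_zero]; exact hr.le)
  have hdiv : ∀ w : ℤ, i₀ * r ≤ w → w ≤ i₁ * r → i₀ ≤ w / r ∧ w / r ≤ i₁ ∧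
      ((w, y₁) : Pt) ∈ B (w / r) := by
    intro w h1 h2
    have h3 : i₀ ≤ w / r := (Int.le_ediv_iff_mul_le hr).mpr h1
    have h4 : w / r ≤ i₁ := by
      have := Int.ediv_le_ediv hr h2
      rwa [Int.mul_ediv_cancel _ hr.ne'] at this
    refine ⟨h3, h4, (hB _ h3 h4).2.2.2.2 w (by linarith) (by linarith) ?_⟩
    have h5 := Int.emod_add_mul_ediv w r
    have h6 := Int.emod_nonneg w hr.ne'
    have h7 := Int.emod_lt_of_pos w hr
    have h8 : w - w / r * r = w % r := by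
      rw [mul_comm]
      linarith
    rw [h8, abs_of_nonneg h6]
    exact h7.le
  have hclose : ∀ w : ℤ, i₀ * r ≤ w → w ≤ i₁ * r →
      |(fun i : ℤ => u (i * r, y₁)) (w / r) - u (w, y₁)| ≤ ω := by
    intro w h1 h2
    obtain ⟨h3, h4, h5⟩ := hdiv w h1 h2
    exact (hB _ h3 h4).2.1 _ (hmem _ h3 h4) _ h5
  have hstep : ∀ k, i₀ ≤ k → k < i₁ →
      |(fun i : ℤ => u (i * r, y₁)) (k + 1) - (fun i : ℤ => u (i * r, y₁)) k| ≤ ω := by
    intro k h1 h2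
    have h3 := hmem k h1 h2.le
    obtain ⟨h5, h6⟩ := hmul (k + 1) (by omega) (by omega)
    have h4 : (((k + 1) * r, y₁) : Pt) ∈ B k := by
      refine (hB k h1 h2.le).2.2.2.2 _ h5 h6 ?_
      have : (k + 1) * r - k * r = r := by ring
      rw [this, abs_of_pos hr]
    exact (hB k h1 h2.le).2.1 _ h4 _ h3
  obtain ⟨a1, a2, _⟩ := hdiv x hx1a hx1b
  obtain ⟨b1, b2, _⟩ := hdiv x' hx2a hx2b
  obtain ⟨k, hk1, hk2, hk3, hk4⟩ := hEE (fun i : ℤ => u (i * r, y₁)) i₀ i₁ (x / r) (x' / r)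
    (u (x, y₁)) (u (x', y₁)) ω hω huu hstep a1 a2 b1 b2 (hclose x hx1a hx1b)
    (hclose x' hx2a hx2b)
  refine ⟨k, hk1, hk2, ?_⟩
  have hbd : ∀ w : ℤ, i₀ * r ≤ w → w ≤ i₁ * r → ((w, y₁) : Pt) ∈ bdV x₀ x₁ y₀ y₁ := by
    intro w h1 h2
    exact ⟨by simpa using hx0.trans h1, by simpa using h2.trans hx1, hyy.le, le_rfl,
      Or.inr (Or.inr (Or.inr rfl))⟩
  refine hED p K R u v x₀ x₁ y₀ y₁ h hp hP hT hH (x, y₁) (hbd x hx1a hx1b) (x', y₁)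
    (hbd x' hx2a hx2b) (B k) (hB k hk1 hk2).1 ?_ (hB k hk1 hk2).2.2.2.1 (hB k hk1 hk2).2.2.1
  intro w hw
  have h1 := abs_le.mp ((hB k hk1 hk2).2.1 w hw _ (hmem k hk1 hk2))
  constructor
  · linarith [h1.1]
  · linarith [h1.2]

end CarpetPI
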