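import Pool.Agent.Lib.MP_1d263a_an.PI.Defs

/-!
# MP_1d263a_an, project PI, part H: cutoff functions on the faces (dual cutoffs)

Every `S_Hx : Prop` is one piece; its complete proof is in the docstring. Files: `PI/Hx.lean`, theorem
`p_Hx : S_Hx` (with the pieces named after the word Uses as hypotheses, in this order).

A cutoff for a block of cells of size `3^m` is the minimum of four one-dimensional profiles in the boundary layer
of the block. All cells of the layer are kept (or inside the big hole), so the cutoff does not jump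
across absent edges.
-/

open Finset
open scoped Classical

noncomputable section

namespace CarpetPI

/-- the edges of one cell (size `3^m`, lower left corner `0`): all vertical edges of the closed cell, and the
horizontal edges which are not on the lower or upper side -/
def cellEd (m : ℕ) : Finset Ed :=
  (Finset.Icc (0 : ℤ) (3 ^ m) ×ˢ Finset.Ico (0 : ℤ) (3 ^ m)).image (fun x => ((true, x) : Ed)) ∪
  (Finset.Ico (0 : ℤ) (3 ^ m) ×ˢ Finset.Ioo (0 : ℤ) (3 ^ m)).image (fun x => ((false, x) : Ed))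

/-- a profile: a function on the faces which goes from `0` (left of the cell) to `1` (right of the cell), has
period `3^m` in the second variable, does not jump across the horizontal lines between the periods, and
is constant on the holes of the cell -/
structure Prof (q : ℝ) (m : ℕ) (C : ℝ) (V : Pt → ℝ) : Prop where
  nn : ∀ f, 0 ≤ V f
  le : ∀ f, V f ≤ 1
  left : ∀ f : Pt, f.1 < 0 → V f = 0
  right : ∀ f : Pt, 3 ^ m ≤ f.1 → V f = 1
  per : ∀ a b : ℤ, V (a, b + 3 ^ m) = V (a, b)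
  seam : ∀ a : ℤ, V (a, 0) = V (a, -1)
  hole : ∀ e : Ed, lf e ∈ cell m (0, 0) → rf e ∈ cell m (0, 0) → ¬ pres (Kept m) e → dv V e = 0
  en : ∑ e ∈ cellEd m, |dv V e| ^ q ≤ C

/-- the cells (of size `3^m`) of the boundary layer of the block `[x₀ 3^m, x₁ 3^m] × [y₀ 3^m, y₁ 3^m]` -/
def Lay (x₀ x₁ y₀ y₁ : ℤ) (c : Pt) : Prop :=
  x₀ ≤ c.1 ∧ c.1 < x₁ ∧ y₀ ≤ c.2 ∧ c.2 < y₁ ∧ (c.1 = x₀ ∨ c.1 + 1 = x₁ ∨ c.2 = y₀ ∨ c.2 + 1 = y₁)

/-- `V` in the coordinate `f.1` from the left side `X` -/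
def WL (V : Pt → ℝ) (X : ℤ) (f : Pt) : ℝ := V (f.1 - X, f.2)
/-- `V` in the coordinate `f.1` from the right side `X` -/
def WR (V : Pt → ℝ) (X : ℤ) (f : Pt) : ℝ := V (X - 1 - f.1, f.2)
/-- `V` in the coordinate `f.2` from the lower side `Y` -/
def WB (V : Pt → ℝ) (Y : ℤ) (f : Pt) : ℝ := V (f.2 - Y, f.1)
/-- `V` in the coordinate `f.2` from the upper side `Y` -/
def WT (V : Pt → ℝ) (Y : ℤ) (f : Pt) : ℝ := V (Y - 1 - f.2, f.1)

/-- the cutoff function -/
def cut (V : Pt → ℝ) (m : ℕ) (x₀ x₁ y₀ y₁ : ℤ) (f : Pt) : ℝ :=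
  min (min (WL V (x₀ * 3 ^ m) f) (WR V (x₁ * 3 ^ m) f)) (min (WB V (y₀ * 3 ^ m) f) (WT V (y₁ * 3 ^ m) f))

/-- [HK] digits. Uses: nothing.
Proof. Ternary digits of `f.1 = c.1 3^m + r.1` with `0 ≤ r.1 < 3^m`: at the places `k < m` those of `r.1`
(`f.1 / 3^k % 3`: `f.1 = c.1 3^(m-k) 3^k + r.1`, `Int.add_mul_ediv_right`, and `3 ∣ c.1 3^(m-k)`), at the places
`m + j` those of `c.1` at `j` (`f.1 / 3^(m+j) = (f.1 / 3^m) / 3^j = c.1 / 3^j`). (1) follows (the range conditions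
of `f` follow from those of `c` and of `r`). (2) `r.1 = 0` has only digits `0`; the digits of `3^m - 1` are all
`2` (`(3^m - 1) / 3^k = 3^(m-k) - 1`, `% 3 = 2` for `k < m`); so there is no place where both digits are `1`.
(3) the digit of `3^m - 1 - r` at a place `k < m` is `2` minus the digit of `r` (induction, or
`(3^m - 1 - r) / 3^k = 3^(m-k) - 1 - r / 3^k`), so it is `1` iff the digit of `r` is `1`. -/
def S_HK : Prop :=
  (∀ (n m : ℕ) (c f : Pt), f ∈ cell m c →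
    (f ∈ Kept (n + m) ↔ c ∈ Kept n ∧ (f.1 - c.1 * 3 ^ m, f.2 - c.2 * 3 ^ m) ∈ Kept m)) ∧
  (∀ (m : ℕ) (r : Pt), r ∈ cell m (0, 0) → (r.1 = 0 ∨ r.1 + 1 = 3 ^ m ∨ r.2 = 0 ∨ r.2 + 1 = 3 ^ m) →
    r ∈ Kept m) ∧
  (∀ (m : ℕ) (r : Pt), r ∈ Kept m → (r.2, r.1) ∈ Kept m ∧ (3 ^ m - 1 - r.1, r.2) ∈ Kept m ∧
    (r.1, 3 ^ m - 1 - r.2) ∈ Kept m)

/-- [HJ] the cutoff does not jump across absent edges. Uses: `S_HK`.
Proof. Let `e` be absent, `f = lf e`, `g = rf e`, `T = 3^m`, and let `G` be the block (a face is in `G` iff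
`x₀ T ≤ f.1 < x₁ T`, `y₀ T ≤ f.2 < y₁ T`). A face `f ∈ G` whose cell `c` (`c = (f.1 / T, f.2 / T)`, `f ∈ cell m c`) is in
`Lay` is in `Kept (n + m)` iff its relative position `r` is in `Kept m` (HK (1), `c ∈ Kept n` by hypothesis); so, as
`f, g` are not kept (`e` is absent), `r` is not on the boundary of the cell (HK (2)): `1 ≤ r.1`, `r.1 + 1 < T`,
`1 ≤ r.2`, `r.2 + 1 < T`, and so the other face (it differs by `1` in one coordinate) is in the same cell.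
Outside `G` one of the four functions is `0` (`left`), all are `≥ 0`, so `cut = 0`.
Case 1: neither `f` nor `g` is in a cell of `Lay`. If both are outside `G`, `cut = 0` at both. If both are in `G`,
they are in cells with `x₀ < c.1`, `c.1 + 1 < x₁`, …, so all four functions are `1` (`right`). One in `G` and one
outside is impossible (a face of `G` next to a face outside is in a cell of `Lay`).
Case 2: `f` or `g` is in a cell `c` of `Lay`. Then both are in `c` (see above), both with relative positions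
`r_f, r_g ∉ Kept m`. Each of the four functions has equal values at `f` and `g`: for `WL`: if `c.1 = x₀`, then
`WL f = V (r_f.1, f.2) = V r_f` by `per` (`f.2 = r_f.2 + c.2 T`; the periodicity for integer multiples by
induction), `WL g = V r_g`, and the edge with the faces `r_f`, `r_g` is absent for `Kept m`, so `V r_f = V r_g`
(`hole`). If `c.1 > x₀`, both values are `1` (`right`). For `WR`, `WB`, `WT` in the same way with
`(T - 1 - r.1, r.2)`, `(r.2, r.1)`, `(T - 1 - r.2, r.1)`, which are not in `Kept m` by HK (3) (apply it twice to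
return), and the edge between the images of `r_f` and `r_g` (some edge has these two faces, in one of the two
orders; `dv` changes only its sign). -/
def S_HJ : Prop := ∀ (q C : ℝ) (n m : ℕ) (V : Pt → ℝ) (x₀ x₁ y₀ y₁ : ℤ), Prof q m C V →
  ∀ e : Ed, ¬ pres (Kept (n + m)) e →
    (∀ c : Pt, Lay x₀ x₁ y₀ y₁ c → (lf e ∈ cell m c ∨ rf e ∈ cell m c) → c ∈ Kept n) →
    dv (cut V m x₀ x₁ y₀ y₁) e = 0

/-- [HE] the energy of one strip. Uses: nothing.
Let `T = 3^m`. In each of the four cases the sum is over edges `e` with a face in the block `G`; the function is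
constant (`0` or `1`) at all faces which are not in the strip of cells with `c.1 = x₀` (resp. `c.1 + 1 = x₁`,
`c.2 = y₀`, `c.2 + 1 = y₁`).
Proof (for `WL`). Let `e ∈ S` with `dv (WL V (x₀ T)) e ≠ 0`. If `e = (true, x)`, its faces are `(x.1 - 1, x.2)` and
`x`: by `left`, `right` we have `x₀ T ≤ x.1 ≤ (x₀+1) T`, and `y₀ T ≤ x.2 < y₁ T`. If `e = (false, x)`, its faces are
`x` and `(x.1, x.2 - 1)`: `x₀ T ≤ x.1 < (x₀+1) T` and `y₀ T ≤ x.2 ≤ y₁ T`, and `x.2` is not a multiple of `T` (by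
`seam` and `per` there is no jump). So in both cases `e` is one of the edges `e'` of `cellEd m` shifted by
`(x₀ T, j T)` with `y₀ ≤ j < y₁` (`j = x.2 / T`), and `|dv (WL V (x₀ T)) e| = |dv V e'|` (`per`). So the sum over `S`
is at most `∑ j ∈ Ico y₀ y₁, ∑ e' ∈ cellEd m, |dv V e'|^q ≤ (y₁ - y₀) C` (`0 ^ q = 0`, `q ≠ 0`).
`WR`: the reflection `x.1 ↦ x₁ T - x.1` of the vertical edges, `x.1 ↦ x₁ T - 1 - x.1` of the horizontal edges.
`WB`, `WT`: exchange the coordinates (and the two types of edges: `(false, x)` has the faces `x`, `(x.1, x.2-1)`,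
which become `(x.2, x.1)`, `(x.2 - 1, x.1)`, the faces of `(true, (x.2, x.1))`). -/
def S_HE : Prop := ∀ (q C : ℝ) (m : ℕ) (V : Pt → ℝ) (x₀ x₁ y₀ y₁ : ℤ) (S : Finset Ed), 0 < q → 0 ≤ C →
  Prof q m C V → x₀ ≤ x₁ → y₀ ≤ y₁ →
  (∀ e ∈ S, lf e ∈ box (x₀ * 3 ^ m) (x₁ * 3 ^ m) (y₀ * 3 ^ m) (y₁ * 3 ^ m) ∨
    rf e ∈ box (x₀ * 3 ^ m) (x₁ * 3 ^ m) (y₀ * 3 ^ m) (y₁ * 3 ^ m)) →
  ∑ e ∈ S, |dv (WL V (x₀ * 3 ^ m)) e| ^ q ≤ C * ((y₁ - y₀ : ℤ) : ℝ) ∧
  ∑ e ∈ S, |dv (WR V (x₁ * 3 ^ m)) e| ^ q ≤ C * ((y₁ - y₀ : ℤ) : ℝ) ∧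
  ∑ e ∈ S, |dv (WB V (y₀ * 3 ^ m)) e| ^ q ≤ C * ((x₁ - x₀ : ℤ) : ℝ) ∧
  ∑ e ∈ S, |dv (WT V (y₁ * 3 ^ m)) e| ^ q ≤ C * ((x₁ - x₀ : ℤ) : ℝ)

/-- [HB] the cutoff of a block. Uses: `S_HE`.
Proof. (1) clear. (2) outside the block one of the four functions is `0` (`left`) and all are `≥ 0`. (3) all
four are `1` (`right`). (4) `|min a b - min a' b'| ≤ max |a - a'| |b - b'|`, so `|dv cut e|^q ≤` the sum of the
four `|dv W e|^q`; if no face of `e` is in the block then `dv cut e = 0` (by (2)); so the sum over `S` is the sum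
over the `e ∈ S` with a face in the block; `S_HE`. -/
def S_HB : Prop := ∀ (q C : ℝ) (m : ℕ) (V : Pt → ℝ) (x₀ x₁ y₀ y₁ : ℤ), 0 < q → 0 ≤ C → Prof q m C V →
  x₀ ≤ x₁ → y₀ ≤ y₁ →
  (∀ f, 0 ≤ cut V m x₀ x₁ y₀ y₁ f ∧ cut V m x₀ x₁ y₀ y₁ f ≤ 1) ∧
  (∀ f, f ∉ box (x₀ * 3 ^ m) (x₁ * 3 ^ m) (y₀ * 3 ^ m) (y₁ * 3 ^ m) → cut V m x₀ x₁ y₀ y₁ f = 0) ∧
  (∀ f ∈ box ((x₀ + 1) * 3 ^ m) ((x₁ - 1) * 3 ^ m) ((y₀ + 1) * 3 ^ m) ((y₁ - 1) * 3 ^ m),
    cut V m x₀ x₁ y₀ y₁ f = 1) ∧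
  ∀ S : Finset Ed, ∑ e ∈ S, |dv (cut V m x₀ x₁ y₀ y₁) e| ^ q ≤
    C * (2 * ((x₁ - x₀ : ℤ) : ℝ) + 2 * ((y₁ - y₀ : ℤ) : ℝ))

end CarpetPI
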