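import Pool.Agent.Lib.MP_1d263a_an.PI.StmE
import Pool.Agent.Lib.MP_1d263a_an.PI.StmH

/-!
# MP_1d263a_an, project PI, piece ER: the network in a kept cell is connected
-/

open Finset
open scoped Classical

noncomputable section

namespace CarpetPI

/-- the relation of `Conn` -/
def ER_R (K A : Set Pt) (x y : Pt) : Prop :=
  Relation.ReflTransGen (fun a b => adj K a b ∧ a ∈ A ∧ b ∈ A) x y

theorem ER_adj_symm {K : Set Pt} {a b : Pt} (h : adj K a b) : adj K b a := by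
  obtain ⟨e, he, h | h⟩ := h
  · exact ⟨e, he, Or.inr h⟩
  · exact ⟨e, he, Or.inl h⟩

theorem ER_symm {K A : Set Pt} {x y : Pt} (h : ER_R K A x y) : ER_R K A y x := by
  unfold ER_R at h ⊢
  induction h with
  | refl => exact Relation.ReflTransGen.refl
  | tail _ hbc ih =>
    exact Relation.ReflTransGen.head ⟨ER_adj_symm hbc.1, hbc.2.2, hbc.2.1⟩ ih

theorem ER_mono {K A B : Set Pt} (hAB : A ⊆ B) {x y : Pt} (h : ER_R K A x y) : ER_R K B x y := by
  unfold ER_R at h ⊢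
  induction h with
  | refl => exact Relation.ReflTransGen.refl
  | tail _ hbc ih => exact Relation.ReflTransGen.tail ih ⟨hbc.1, hAB hbc.2.1, hAB hbc.2.2⟩

/-- the points of the network in a closed cell -/
def ER_A (N t : ℕ) (q : Pt) : Set Pt := {x | x ∈ VK (Kept N) ∧ x ∈ cellV t q}

/-- the lower left corner of a cell -/
def ER_Z (t : ℕ) (q : Pt) : Pt := (q.1 * 3 ^ t, q.2 * 3 ^ t)

theorem ER_mem_cellV (t : ℕ) (q x : Pt) : x ∈ cellV t q ↔ q.1 * 3 ^ t ≤ x.1 ∧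
    x.1 ≤ (q.1 + 1) * 3 ^ t ∧ q.2 * 3 ^ t ≤ x.2 ∧ x.2 ≤ (q.2 + 1) * 3 ^ t := Iff.rfl

theorem ER_mem_cell (t : ℕ) (q f : Pt) : f ∈ cell t q ↔ (q.1 * 3 ^ t ≤ f.1 ∧
    f.1 < (q.1 + 1) * 3 ^ t) ∧ q.2 * 3 ^ t ≤ f.2 ∧ f.2 < (q.2 + 1) * 3 ^ t := by
  unfold cell box
  rw [Finset.mem_product, Finset.mem_Ico, Finset.mem_Ico]

/-- the four corners of a face -/
theorem ER_base (N : ℕ) (q : Pt) (hq : q ∈ Kept N) (x : Pt) (hx : x ∈ ER_A N 0 q) :
    ER_R (Kept N) (ER_A N 0 q) q x := by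
  have hA : ∀ y : Pt, IsCor y q → y ∈ ER_A N 0 q := by
    intro y hy
    refine ⟨⟨q, hq, hy⟩, ?_⟩
    rw [ER_mem_cellV]
    obtain ⟨h1, h2⟩ := hy
    simp only [pow_zero, mul_one]
    refine ⟨?_, ?_, ?_, ?_⟩ <;> omega
  have h00 : q ∈ ER_A N 0 q := hA q ⟨Or.inl rfl, Or.inl rfl⟩
  have h10 : ((q.1 + 1, q.2) : Pt) ∈ ER_A N 0 q := hA _ ⟨Or.inr rfl, Or.inl rfl⟩
  have h01 : ((q.1, q.2 + 1) : Pt) ∈ ER_A N 0 q := hA _ ⟨Or.inl rfl, Or.inr rfl⟩
  have h11 : ((q.1 + 1, q.2 + 1) : Pt) ∈ ER_A N 0 q := hA _ ⟨Or.inr rfl, Or.inr rfl⟩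
  have e1 : adj (Kept N) q (q.1 + 1, q.2) :=
    ⟨(false, q), Or.inl hq, Or.inl ⟨rfl, rfl⟩⟩
  have e2 : adj (Kept N) q (q.1, q.2 + 1) :=
    ⟨(true, q), Or.inr hq, Or.inl ⟨rfl, rfl⟩⟩
  have e3 : adj (Kept N) (q.1 + 1, q.2) (q.1 + 1, q.2 + 1) := by
    refine ⟨(true, (q.1 + 1, q.2)), Or.inl ?_, Or.inl ⟨rfl, rfl⟩⟩
    have h : lf (true, ((q.1 + 1, q.2) : Pt)) = q := by
      unfold lf
      simp
    rw [h]
    exact hq
  have s1 : ER_R (Kept N) (ER_A N 0 q) q (q.1 + 1, q.2) :=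
    Relation.ReflTransGen.single ⟨e1, h00, h10⟩
  have s2 : ER_R (Kept N) (ER_A N 0 q) q (q.1, q.2 + 1) :=
    Relation.ReflTransGen.single ⟨e2, h00, h01⟩
  have s3 : ER_R (Kept N) (ER_A N 0 q) q (q.1 + 1, q.2 + 1) :=
    Relation.ReflTransGen.tail s1 ⟨e3, h10, h11⟩
  obtain ⟨_, hx2⟩ := hx
  rw [ER_mem_cellV] at hx2
  simp only [pow_zero, mul_one] at hx2
  obtain ⟨a, b⟩ := x
  obtain ⟨a1, a2, b1, b2⟩ := hx2
  dsimp only at a1 a2 b1 b2
  have ha : a = q.1 ∨ a = q.1 + 1 := by omega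
  have hb : b = q.2 ∨ b = q.2 + 1 := by omega
  rcases ha with rfl | rfl <;> rcases hb with rfl | rfl
  · exact Relation.ReflTransGen.refl
  · exact s2
  · exact s1
  · exact s3

/-- lower left corners of kept cells are in the network -/
theorem ER_corner (hHK : S_HK) (N t : ℕ) (ht : t ≤ N) (q : Pt) (hq : q ∈ Kept (N - t)) :
    ER_Z t q ∈ VK (Kept N) := by
  have hT : (0 : ℤ) < 3 ^ t := by positivity
  have hN : N - t + t = N := by omega
  have h1 := hHK.1 (N - t) t q (ER_Z t q) (by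
    rw [ER_mem_cell]
    unfold ER_Z
    refine ⟨⟨le_rfl, ?_⟩, le_rfl, ?_⟩ <;> nlinarith)
  rw [hN] at h1
  refine ⟨ER_Z t q, h1.2 ⟨hq, ?_⟩, Or.inl rfl, Or.inl rfl⟩
  have h2 : (((ER_Z t q).1 - q.1 * 3 ^ t, (ER_Z t q).2 - q.2 * 3 ^ t) : Pt) = (0, 0) := by
    unfold ER_Z
    simp
  rw [h2]
  refine hHK.2.1 t (0, 0) ?_ (Or.inl rfl)
  rw [ER_mem_cell]
  simp only [zero_mul, zero_add, one_mul]
  exact ⟨⟨le_rfl, hT⟩, le_rfl, hT⟩

theorem ER_kids (c : Pt) (hc : c ∈ kids) : 0 ≤ c.1 ∧ c.1 ≤ 2 ∧ 0 ≤ c.2 ∧ c.2 ≤ 2 ∧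
    ¬ (c.1 = 1 ∧ c.2 = 1) := by
  unfold kids box at hc
  rw [Finset.mem_erase, Finset.mem_product, Finset.mem_Ico, Finset.mem_Ico] at hc
  obtain ⟨h1, ⟨h2, h3⟩, h4, h5⟩ := hc
  refine ⟨h2, by omega, h4, by omega, fun h => h1 ?_⟩
  exact Prod.ext h.1 h.2

theorem ER_kids' (a b : ℤ) (ha : 0 ≤ a) (ha' : a ≤ 2) (hb : 0 ≤ b) (hb' : b ≤ 2)
    (h : ¬ (a = 1 ∧ b = 1)) : ((a, b) : Pt) ∈ kids := by
  unfold kids box
  rw [Finset.mem_erase, Finset.mem_product, Finset.mem_Ico, Finset.mem_Ico]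
  refine ⟨fun h1 => h ?_, ⟨ha, by omega⟩, hb, by omega⟩
  exact ⟨congrArg Prod.fst h1, congrArg Prod.snd h1⟩

/-- children are kept -/
theorem ER_child (hHK : S_HK) (n : ℕ) (q : Pt) (hq : q ∈ Kept n) (c : Pt) (hc : c ∈ kids) :
    kid q c ∈ Kept (n + 1) := by
  obtain ⟨h1, h2, h3, h4, h5⟩ := ER_kids c hc
  have h6 := hHK.1 n 1 q (kid q c) (by
    rw [ER_mem_cell]
    unfold kid
    simp only [pow_one]
    refine ⟨⟨?_, ?_⟩, ?_, ?_⟩ <;> linarith)
  refine h6.2 ⟨hq, ?_⟩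
  have h7 : (((kid q c).1 - q.1 * 3 ^ 1, (kid q c).2 - q.2 * 3 ^ 1) : Pt) = c := by
    unfold kid
    refine Prod.ext ?_ ?_
    · simp only [pow_one]
      ring
    · simp only [pow_one]
      ring
  rw [h7]
  refine ⟨h1, by rw [pow_one]; omega, h3, by rw [pow_one]; omega, fun k hk => ?_⟩
  have hk0 : k = 0 := by omega
  rw [hk0, pow_zero, Int.ediv_one, Int.ediv_one]
  intro h8
  apply h5
  omega

/-- the points of the network in a cell are in its children -/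
theorem ER_cover (hHK : S_HK) (N t : ℕ) (ht : t + 1 ≤ N) (q x : Pt)
    (hx : x ∈ ER_A N (t + 1) q) : ∃ c ∈ kids, x ∈ ER_A N t (kid q c) := by
  obtain ⟨hV, hx2⟩ := hx
  rw [ER_mem_cellV, pow_succ] at hx2
  obtain ⟨T, hT⟩ : ∃ T : ℤ, T = 3 ^ t := ⟨_, rfl⟩
  have hT0 : 0 < T := by rw [hT]; positivity
  rw [← hT] at hx2
  obtain ⟨a1, a2, b1, b2⟩ := hx2
  -- the position in one coordinate
  have pos : ∀ z y : ℤ, z * (T * 3) ≤ y → y ≤ (z + 1) * (T * 3) →
      (∃ a : ℤ, 0 ≤ a ∧ a ≤ 2 ∧ a ≠ 1 ∧ (3 * z + a) * T ≤ y ∧ y ≤ (3 * z + a + 1) * T) ∨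
      ((3 * z + 1) * T < y ∧ y < (3 * z + 2) * T) := by
    intro z y h1 h2
    by_cases h3 : y ≤ (3 * z + 1) * T
    · refine Or.inl ⟨0, le_rfl, by norm_num, by norm_num, ?_, ?_⟩ <;> nlinarith
    · by_cases h4 : (3 * z + 2) * T ≤ y
      · refine Or.inl ⟨2, by norm_num, le_rfl, by norm_num, ?_, ?_⟩ <;> nlinarith
      · exact Or.inr ⟨not_le.1 h3, not_le.1 h4⟩
  have key : ∀ a b : ℤ, 0 ≤ a → a ≤ 2 → 0 ≤ b → b ≤ 2 → ¬ (a = 1 ∧ b = 1) →
      (3 * q.1 + a) * T ≤ x.1 → x.1 ≤ (3 * q.1 + a + 1) * T →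
      (3 * q.2 + b) * T ≤ x.2 → x.2 ≤ (3 * q.2 + b + 1) * T →
      ∃ c ∈ kids, x ∈ ER_A N t (kid q c) := by
    intro a b ha ha' hb hb' hab c1 c2 c3 c4
    refine ⟨(a, b), ER_kids' a b ha ha' hb hb' hab, hV, ?_⟩
    rw [ER_mem_cellV, ← hT]
    exact ⟨c1, c2, c3, c4⟩
  rcases pos q.1 x.1 a1 a2 with ⟨a, ha, ha', han, c1, c2⟩ | ⟨c1, c2⟩
  · rcases pos q.2 x.2 b1 b2 with ⟨b, hb, hb', hbn, d1, d2⟩ | ⟨d1, d2⟩
    · exact key a b ha ha' hb hb' (fun h => han h.1) c1 c2 d1 d2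
    · exact key a 1 ha ha' (by norm_num) (by norm_num) (fun h => han h.1) c1 c2
        (by linarith) (by linarith)
  · rcases pos q.2 x.2 b1 b2 with ⟨b, hb, hb', hbn, d1, d2⟩ | ⟨d1, d2⟩
    · exact key 1 b (by norm_num) (by norm_num) hb hb' (fun h => hbn h.2)
        (by linarith) (by linarith) d1 d2
    · -- the open central cell
      exfalso
      obtain ⟨f, hf, hcor1, hcor2⟩ := hV
      have hN : N - t + t = N := by omega
      have h1 := hHK.1 (N - t) t (3 * q.1 + 1, 3 * q.2 + 1) f (by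
        rw [ER_mem_cell, ← hT]
        dsimp only
        have e1 : (3 * q.1 + 1 + 1) * T = (3 * q.1 + 2) * T := by ring
        have e2 : (3 * q.2 + 1 + 1) * T = (3 * q.2 + 2) * T := by ring
        rw [e1, e2]
        refine ⟨⟨?_, ?_⟩, ?_, ?_⟩ <;> omega)
      rw [hN] at h1
      obtain ⟨⟨-, -, -, -, hp⟩, -⟩ := h1.1 hf
      have h2 := hp 0 (by omega)
      rw [pow_zero, Int.ediv_one, Int.ediv_one] at h2
      apply h2
      constructor
      · change (3 * q.1 + 1) % 3 = 1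
        omega
      · change (3 * q.2 + 1) % 3 = 1
        omega

theorem ER_sub (N t : ℕ) (q c : Pt) (hc : c ∈ kids) :
    ER_A N t (kid q c) ⊆ ER_A N (t + 1) q := by
  obtain ⟨h1, h2, h3, h4, -⟩ := ER_kids c hc
  rintro x ⟨hV, hx⟩
  refine ⟨hV, ?_⟩
  rw [ER_mem_cellV] at hx ⊢
  rw [pow_succ]
  have hT0 : (0 : ℤ) < 3 ^ t := by positivity
  unfold kid at hx
  dsimp only at hx
  obtain ⟨a1, a2, b1, b2⟩ := hx
  refine ⟨?_, ?_, ?_, ?_⟩ <;> nlinarith

theorem p_ER (hHK : S_HK) : S_ER := by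
  intro N t
  induction t with
  | zero =>
    intro _ q hq
    refine ⟨fun x hx => hx.1, fun x hx y hy => ?_⟩
    exact Relation.ReflTransGen.trans (ER_symm (ER_base N q hq x hx)) (ER_base N q hq y hy)
  | succ t ih =>
    intro ht q hq
    have hn : N - (t + 1) + 1 = N - t := by omega
    have hkid : ∀ c ∈ kids, kid q c ∈ Kept (N - t) := by
      intro c hc
      rw [← hn]
      exact ER_child hHK _ q hq c hc
    have hin : ∀ c ∈ kids, ∀ x ∈ ER_A N t (kid q c), ∀ y ∈ ER_A N t (kid q c),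
        ER_R (Kept N) (ER_A N (t + 1) q) x y := by
      intro c hc x hx y hy
      exact ER_mono (ER_sub N t q c hc) ((ih (by omega) _ (hkid c hc)).2 x hx y hy)
    have hT0 : (0 : ℤ) < 3 ^ t := by positivity
    -- the corner of a child is in the child
    have hZ : ∀ c ∈ kids, ER_Z t (kid q c) ∈ ER_A N t (kid q c) := by
      intro c hc
      refine ⟨ER_corner hHK N t (by omega) _ (hkid c hc), ?_⟩
      rw [ER_mem_cellV]
      unfold ER_Z
      dsimp only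
      refine ⟨le_rfl, ?_, le_rfl, ?_⟩ <;> nlinarith
    -- the corner of the next child is in the child as well
    have hZ' : ∀ c c' : Pt, c' ∈ kids → (c' = (c.1 + 1, c.2) ∨ c' = (c.1, c.2 + 1)) →
        ER_Z t (kid q c') ∈ ER_A N t (kid q c) := by
      intro c c' hc' hcc
      refine ⟨ER_corner hHK N t (by omega) _ (hkid c' hc'), ?_⟩
      rw [ER_mem_cellV]
      rcases hcc with rfl | rfl
      · unfold ER_Z kid
        dsimp only
        refine ⟨?_, ?_, ?_, ?_⟩ <;> nlinarith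
      · unfold ER_Z kid
        dsimp only
        refine ⟨?_, ?_, ?_, ?_⟩ <;> nlinarith
    have step : ∀ c c' : Pt, c ∈ kids → c' ∈ kids → (c' = (c.1 + 1, c.2) ∨ c' = (c.1, c.2 + 1)) →
        ER_R (Kept N) (ER_A N (t + 1) q) (ER_Z t (kid q c)) (ER_Z t (kid q c')) := by
      intro c c' hc hc' hcc
      exact hin c hc _ (hZ c hc) _ (hZ' c c' hc' hcc)
    have k00 : ((0, 0) : Pt) ∈ kids := ER_kids' 0 0 (by norm_num) (by norm_num) (by norm_num)
      (by norm_num) (by norm_num)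
    have k10 : ((1, 0) : Pt) ∈ kids := ER_kids' 1 0 (by norm_num) (by norm_num) (by norm_num)
      (by norm_num) (by norm_num)
    have k20 : ((2, 0) : Pt) ∈ kids := ER_kids' 2 0 (by norm_num) (by norm_num) (by norm_num)
      (by norm_num) (by norm_num)
    have k21 : ((2, 1) : Pt) ∈ kids := ER_kids' 2 1 (by norm_num) (by norm_num) (by norm_num)
      (by norm_num) (by norm_num)
    have k22 : ((2, 2) : Pt) ∈ kids := ER_kids' 2 2 (by norm_num) (by norm_num) (by norm_num)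
      (by norm_num) (by norm_num)
    have k01 : ((0, 1) : Pt) ∈ kids := ER_kids' 0 1 (by norm_num) (by norm_num) (by norm_num)
      (by norm_num) (by norm_num)
    have k02 : ((0, 2) : Pt) ∈ kids := ER_kids' 0 2 (by norm_num) (by norm_num) (by norm_num)
      (by norm_num) (by norm_num)
    have k12 : ((1, 2) : Pt) ∈ kids := ER_kids' 1 2 (by norm_num) (by norm_num) (by norm_num)
      (by norm_num) (by norm_num)
    have z10 := step (0, 0) (1, 0) k00 k10 (Or.inl (by norm_num))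
    have z20 := Relation.ReflTransGen.trans z10
      (step (1, 0) (2, 0) k10 k20 (Or.inl (by norm_num)))
    have z21 := Relation.ReflTransGen.trans z20
      (step (2, 0) (2, 1) k20 k21 (Or.inr (by norm_num)))
    have z22 := Relation.ReflTransGen.trans z21
      (step (2, 1) (2, 2) k21 k22 (Or.inr (by norm_num)))
    have z01 := step (0, 0) (0, 1) k00 k01 (Or.inr (by norm_num))
    have z02 := Relation.ReflTransGen.trans z01
      (step (0, 1) (0, 2) k01 k02 (Or.inr (by norm_num)))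
    have z12 := Relation.ReflTransGen.trans z02
      (step (0, 2) (1, 2) k02 k12 (Or.inl (by norm_num)))
    have hroot : ∀ c ∈ kids,
        ER_R (Kept N) (ER_A N (t + 1) q) (ER_Z t (kid q (0, 0))) (ER_Z t (kid q c)) := by
      intro c hc
      obtain ⟨h1, h2, h3, h4, h5⟩ := ER_kids c hc
      obtain ⟨a, b⟩ := c
      dsimp only at h1 h2 h3 h4 h5
      have ha : a = 0 ∨ a = 1 ∨ a = 2 := by omega
      have hb : b = 0 ∨ b = 1 ∨ b = 2 := by omega
      rcases ha with rfl | rfl | rfl <;> rcases hb with rfl | rfl | rfl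
      · exact Relation.ReflTransGen.refl
      · exact z01
      · exact z02
      · exact z10
      · exact absurd ⟨rfl, rfl⟩ h5
      · exact z12
      · exact z20
      · exact z21
      · exact z22
    have hall : ∀ x ∈ ER_A N (t + 1) q,
        ER_R (Kept N) (ER_A N (t + 1) q) (ER_Z t (kid q (0, 0))) x := by
      intro x hx
      obtain ⟨c, hc, hxc⟩ := ER_cover hHK N t ht q x hx
      exact Relation.ReflTransGen.trans (hroot c hc) (hin c hc _ (hZ c hc) _ hxc)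
    refine ⟨fun x hx => hx.1, fun x hx y hy => ?_⟩
    exact Relation.ReflTransGen.trans (ER_symm (hall x hx)) (hall y hy)

end CarpetPI
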