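import Pool.Agent.Lib.MP_1d263a_an.PI.StmE

/-!
# MP_1d263a_an, project PI, piece ES: straight segments are connected, union of connected sets
-/

open Finset
open scoped Classical

noncomputable section

namespace CarpetPI

/-- the step relation inside a set is symmetric -/
theorem ES_symm (K A : Set Pt) (x y : Pt)
    (h : Relation.ReflTransGen (fun a b => adj K a b ∧ a ∈ A ∧ b ∈ A) x y) :
    Relation.ReflTransGen (fun a b => adj K a b ∧ a ∈ A ∧ b ∈ A) y x := by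
  induction h with
  | refl => exact Relation.ReflTransGen.refl
  | tail _ hbc ih =>
    refine Relation.ReflTransGen.head ?_ ih
    obtain ⟨⟨e, he, h⟩, hb, hc⟩ := hbc
    exact ⟨⟨e, he, h.symm⟩, hc, hb⟩

/-- walk along a curve -/
theorem ES_path (K A : Set Pt) (g : ℤ → Pt) (a b : ℤ)
    (hs : ∀ k, a ≤ k → k < b → adj K (g k) (g (k + 1)))
    (hA : ∀ k, a ≤ k → k ≤ b → g k ∈ A) :
    ∀ k, a ≤ k → k ≤ b →
      Relation.ReflTransGen (fun a b => adj K a b ∧ a ∈ A ∧ b ∈ A) (g a) (g k) := by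
  have key : ∀ n : ℕ, a + (n : ℤ) ≤ b →
      Relation.ReflTransGen (fun a b => adj K a b ∧ a ∈ A ∧ b ∈ A) (g a) (g (a + (n : ℤ))) := by
    intro n
    induction n with
    | zero =>
      intro _
      simp only [Nat.cast_zero, add_zero]
      exact Relation.ReflTransGen.refl
    | succ n ih =>
      intro hb
      have h1 : a + ((n + 1 : ℕ) : ℤ) = (a + (n : ℤ)) + 1 := by push_cast; ring
      rw [h1] at hb ⊢
      refine Relation.ReflTransGen.tail (ih (by omega)) ?_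
      exact ⟨hs _ (by omega) (by omega), hA _ (by omega) (by omega), hA _ (by omega) hb⟩
  intro k hk hkb
  have h2 := key (k - a).toNat (by omega)
  have h3 : a + (((k - a).toNat : ℕ) : ℤ) = k := by omega
  rwa [h3] at h2

theorem ES_conn (K A : Set Pt) (g : ℤ → Pt) (a b : ℤ)
    (hV : A ⊆ VK K)
    (hs : ∀ k, a ≤ k → k < b → adj K (g k) (g (k + 1)))
    (hA : ∀ k, a ≤ k → k ≤ b → g k ∈ A)
    (hg : ∀ x ∈ A, ∃ k, a ≤ k ∧ k ≤ b ∧ x = g k) : Conn K A := by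
  refine ⟨hV, ?_⟩
  intro x hx y hy
  obtain ⟨k, hk1, hk2, rfl⟩ := hg x hx
  obtain ⟨l, hl1, hl2, rfl⟩ := hg y hy
  exact (ES_symm K A _ _ (ES_path K A g a b hs hA k hk1 hk2)).trans
    (ES_path K A g a b hs hA l hl1 hl2)

theorem ES_mono (K A B : Set Pt) (hAB : A ⊆ B) (x y : Pt)
    (h : Relation.ReflTransGen (fun a b => adj K a b ∧ a ∈ A ∧ b ∈ A) x y) :
    Relation.ReflTransGen (fun a b => adj K a b ∧ a ∈ B ∧ b ∈ B) x y := by
  induction h with
  | refl => exact Relation.ReflTransGen.refl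
  | tail _ hbc ih => exact Relation.ReflTransGen.tail ih ⟨hbc.1, hAB hbc.2.1, hAB hbc.2.2⟩

theorem ES_corH (K : Set Pt) (x Y : ℤ) (h : pres K (false, (x, Y))) :
    ((x, Y) : Pt) ∈ VK K ∧ ((x + 1, Y) : Pt) ∈ VK K := by
  rcases h with h | h
  · have h' : ((x, Y) : Pt) ∈ K := by simpa [lf] using h
    exact ⟨⟨_, h', Or.inl rfl, Or.inl rfl⟩, ⟨_, h', Or.inr rfl, Or.inl rfl⟩⟩
  · have h' : ((x, Y - 1) : Pt) ∈ K := by simpa [rf] using h
    exact ⟨⟨_, h', Or.inl rfl, Or.inr (by simp)⟩, ⟨_, h', Or.inr rfl, Or.inr (by simp)⟩⟩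

theorem ES_corV (K : Set Pt) (X y : ℤ) (h : pres K (true, (X, y))) :
    ((X, y) : Pt) ∈ VK K ∧ ((X, y + 1) : Pt) ∈ VK K := by
  rcases h with h | h
  · have h' : ((X - 1, y) : Pt) ∈ K := by simpa [lf] using h
    exact ⟨⟨_, h', Or.inr (by simp), Or.inl rfl⟩, ⟨_, h', Or.inr (by simp), Or.inr rfl⟩⟩
  · have h' : ((X, y) : Pt) ∈ K := by simpa [rf] using h
    exact ⟨⟨_, h', Or.inl rfl, Or.inl rfl⟩, ⟨_, h', Or.inl rfl, Or.inr rfl⟩⟩

theorem p_ES : S_ES := by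
  refine ⟨?_, ?_, ?_⟩
  · intro K a b Y hab hp
    refine ES_conn K _ (fun x => ((x, Y) : Pt)) a b ?_ ?_ ?_ ?_
    · rintro ⟨z1, z2⟩ ⟨h1, h2, h3⟩
      simp only at h1 h2 h3
      subst h3
      by_cases hz : z1 < b
      · exact (ES_corH K z1 z2 (hp z1 h1 hz)).1
      · have h4 := (ES_corH K (z1 - 1) z2 (hp (z1 - 1) (by omega) (by omega))).2
        simpa using h4
    · intro k hk1 hk2
      exact ⟨(false, (k, Y)), hp k hk1 hk2, Or.inl ⟨by simp [tl], by simp [hd]⟩⟩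
    · intro k hk1 hk2
      exact ⟨hk1, hk2, rfl⟩
    · rintro ⟨z1, z2⟩ ⟨h1, h2, h3⟩
      simp only at h1 h2 h3
      subst h3
      exact ⟨z1, h1, h2, rfl⟩
  · intro K a b X hab hp
    refine ES_conn K _ (fun y => ((X, y) : Pt)) a b ?_ ?_ ?_ ?_
    · rintro ⟨z1, z2⟩ ⟨h1, h2, h3⟩
      simp only at h1 h2 h3
      subst h3
      by_cases hz : z2 < b
      · exact (ES_corV K z1 z2 (hp z2 h1 hz)).1
      · have h4 := (ES_corV K z1 (z2 - 1) (hp (z2 - 1) (by omega) (by omega))).2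
        simpa using h4
    · intro k hk1 hk2
      exact ⟨(true, (X, k)), hp k hk1 hk2, Or.inl ⟨by simp [tl], by simp [hd]⟩⟩
    · intro k hk1 hk2
      exact ⟨hk1, hk2, rfl⟩
    · rintro ⟨z1, z2⟩ ⟨h1, h2, h3⟩
      simp only at h1 h2 h3
      subst h3
      exact ⟨z2, h1, h2, rfl⟩
  · rintro K A B ⟨hA1, hA2⟩ ⟨hB1, hB2⟩ ⟨w, hwA, hwB⟩
    refine ⟨Set.union_subset hA1 hB1, ?_⟩
    have key : ∀ x ∈ A ∪ B,
        Relation.ReflTransGen (fun a b => adj K a b ∧ a ∈ A ∪ B ∧ b ∈ A ∪ B) x w := by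
      intro x hx
      rcases hx with hx | hx
      · exact ES_mono K A (A ∪ B) Set.subset_union_left _ _ (hA2 x hx w hwA)
      · exact ES_mono K B (A ∪ B) Set.subset_union_right _ _ (hB2 x hx w hwB)
    intro x hx y hy
    exact (key x hx).trans (ES_symm K _ _ _ (key y hy))

end CarpetPI
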