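import Pool.Agent.Lib.MP_1d263a_an.PI.StmE

/-!
# MP_1d263a_an, project PI, piece GA: the end game inequality
-/

open Finset
open scoped Classical

noncomputable section

namespace CarpetPI

/-- the lattice points of the open box of side `3 · 3^t` around the cell `q` -/
def GA_B (t : ℕ) (q : Pt) : Finset Pt :=
  Finset.Ioo ((q.1 - 1) * 3 ^ t) ((q.1 + 2) * 3 ^ t) ×ˢ Finset.Ioo ((q.2 - 1) * 3 ^ t) ((q.2 + 2) * 3 ^ t)

lemma GA_mem (t : ℕ) (q w : Pt) : w ∈ GA_B t q ↔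
    ((q.1 - 1) * 3 ^ t < w.1 ∧ w.1 < (q.1 + 2) * 3 ^ t) ∧
      ((q.2 - 1) * 3 ^ t < w.2 ∧ w.2 < (q.2 + 2) * 3 ^ t) := by
  unfold GA_B
  rw [Finset.mem_product, Finset.mem_Ioo, Finset.mem_Ioo]

lemma GA_cell_sub (t : ℕ) (q x : Pt) (hx : x ∈ cellV t q) : x ∈ GA_B t q := by
  rw [GA_mem]
  obtain ⟨a1, a2, a3, a4⟩ := hx
  have h3 : (0 : ℤ) < 3 ^ t := by positivity
  refine ⟨⟨?_, ?_⟩, ⟨?_, ?_⟩⟩ <;> nlinarith

/-- a point outside the open box is far from the cell -/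
lemma GA_far (t : ℕ) (q w : Pt) (hw : w ∉ GA_B t q) : ∀ y ∈ cellV t q, (3 : ℤ) ^ t ≤ dis w y := by
  intro y hy
  by_contra hcon
  push Not at hcon
  apply hw
  rw [GA_mem]
  obtain ⟨a1, a2, a3, a4⟩ := hy
  unfold dis at hcon
  rw [max_lt_iff, abs_lt, abs_lt] at hcon
  obtain ⟨⟨b1, b2⟩, ⟨b3, b4⟩⟩ := hcon
  refine ⟨⟨?_, ?_⟩, ⟨?_, ?_⟩⟩ <;> linarith

/-- one coordinate: the projection to an interval -/
lemma GA_clamp (m n : ℤ) (a b w : ℤ) (hab : a ≤ b) (h1 : a - m < w) (h2 : w < b + m) (hn : n = m) (hm : 0 < m) :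
    ∃ y : ℤ, a ≤ y ∧ y ≤ b ∧ |w - y| < n := by
  subst hn
  rcases lt_or_ge w a with h | h
  · exact ⟨a, le_refl _, hab, by rw [abs_lt]; constructor <;> linarith⟩
  · rcases le_or_gt w b with h' | h'
    · exact ⟨w, h, h', by simpa using hm⟩
    · exact ⟨b, hab, le_refl _, by rw [abs_lt]; constructor <;> linarith⟩

/-- a point which is far from the cell is outside the open box -/
lemma GA_out (t : ℕ) (q w : Pt) (hw : ∀ y ∈ cellV t q, (3 : ℤ) ^ t ≤ dis w y) : w ∉ GA_B t q := by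
  intro hB
  rw [GA_mem] at hB
  obtain ⟨⟨b1, b2⟩, ⟨b3, b4⟩⟩ := hB
  have h3 : (0 : ℤ) < 3 ^ t := by positivity
  obtain ⟨y1, c1, c2, c3⟩ := GA_clamp (3 ^ t) (3 ^ t) (q.1 * 3 ^ t) ((q.1 + 1) * 3 ^ t) w.1 (by nlinarith)
    (by linarith) (by linarith) rfl h3
  obtain ⟨y2, d1, d2, d3⟩ := GA_clamp (3 ^ t) (3 ^ t) (q.2 * 3 ^ t) ((q.2 + 1) * 3 ^ t) w.2 (by nlinarith)
    (by linarith) (by linarith) rfl h3
  have := hw (y1, y2) ⟨c1, c2, d1, d2⟩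
  unfold dis at this
  rw [le_max_iff] at this
  rcases this with h | h
  · exact absurd h (not_le.mpr c3)
  · exact absurd h (not_le.mpr d3)

/-- the ends of an edge with an end in the open box are in the closed box -/
lemma GA_ends (t : ℕ) (q : Pt) (e : Ed) (h : tl e ∈ GA_B t q ∨ hd e ∈ GA_B t q) :
    tl e ∈ nbV 1 t q ∧ hd e ∈ nbV 1 t q := by
  rw [GA_mem, GA_mem] at h
  obtain ⟨b, x⟩ := e
  unfold tl hd at *
  cases b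
  · simp only [Bool.false_eq_true, if_false] at *
    simp only [nbV, Set.mem_setOf_eq, Nat.cast_one]
    rcases h with ⟨⟨b1, b2⟩, ⟨b3, b4⟩⟩ | ⟨⟨b1, b2⟩, ⟨b3, b4⟩⟩ <;>
      refine ⟨⟨?_, ?_, ?_, ?_⟩, ?_, ?_, ?_, ?_⟩ <;> linarith
  · simp only [if_true] at *
    simp only [nbV, Set.mem_setOf_eq, Nat.cast_one]
    rcases h with ⟨⟨b1, b2⟩, ⟨b3, b4⟩⟩ | ⟨⟨b1, b2⟩, ⟨b3, b4⟩⟩ <;>
      refine ⟨⟨?_, ?_, ?_, ?_⟩, ?_, ?_, ?_, ?_⟩ <;> linarith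

/-- the component of the level set reaches the outside of the open box -/
lemma GA_reach (hXI : S_XI) (N t : ℕ) (q : Pt) (z φ : Pt → ℝ)
    (h1 : ∀ e : Ed, (tl e ∈ nbV 1 t q ∧ hd e ∈ nbV 1 t q) → ¬ pres (Kept N) e → dv φ e = 0)
    (h2 : ∀ e : Ed, (tl e ∈ nbV 1 t q ∧ hd e ∈ nbV 1 t q) → pres (Kept N) e → du z e ≠ 0 →
      0 < du z e * dv φ e)
    (h3 : ∃ w ∈ VK (Kept N), ∀ y ∈ cellV t q, (3 : ℤ) ^ t ≤ dis w y)
    (h4 : Conn (Kept N) (VK (Kept N))) (x : Pt) (hx : x ∈ VK (Kept N)) (hxc : x ∈ cellV t q) :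
    ∃ Z : Set Pt, Conn (Kept N) Z ∧ x ∈ Z ∧ (∀ w ∈ Z, z x ≤ z w) ∧
      ∃ w ∈ Z, ∀ y ∈ cellV t q, (3 : ℤ) ^ t ≤ dis w y := by
  obtain ⟨w, hw, hwf⟩ := h3
  obtain ⟨Z, hZ, hxZ, hZM, v, hv, hvB⟩ := hXI (Kept N) z φ (GA_B t q) (z x) x (GA_cell_sub t q x hxc) le_rfl
    ⟨VK (Kept N), h4, hx, w, hw, GA_out t q w hwf⟩
    (fun e he => h1 e (GA_ends t q e he)) (fun e he => h2 e (GA_ends t q e he))
  exact ⟨Z, hZ, hxZ, hZM, v, hv, GA_far t q v hvB⟩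

/-- the claim for `z y ≤ z x` -/
lemma GA_aux (hXI : S_XI) (p : ℝ) (D : Dat p) (N t : ℕ) (ht : t ≤ N) (q : Pt) (hq : q ∈ Kept (N - t))
    (z φ : Pt → ℝ)
    (h1 : ∀ e : Ed, (tl e ∈ nbV 1 t q ∧ hd e ∈ nbV 1 t q) → ¬ pres (Kept N) e → dv φ e = 0)
    (h2 : ∀ e : Ed, (tl e ∈ nbV 1 t q ∧ hd e ∈ nbV 1 t q) → pres (Kept N) e → du z e ≠ 0 →
      0 < du z e * dv φ e)
    (h3 : ∃ w ∈ VK (Kept N), ∀ y ∈ cellV t q, (3 : ℤ) ^ t ≤ dis w y)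
    (h4 : Conn (Kept N) (VK (Kept N))) (x : Pt) (hx : x ∈ VK (Kept N)) (hxc : x ∈ cellV t q)
    (y : Pt) (hy : y ∈ VK (Kept N)) (hyc : y ∈ cellV t q) (hle : z y ≤ z x) :
    |z x - z y| ^ p ≤ D.A * En p (Kept N) z (nb D.κ t q) := by
  obtain ⟨Z₁, hZ₁, hx₁, hM₁, hf₁⟩ := GA_reach hXI N t q z φ h1 h2 h3 h4 x hx hxc
  obtain ⟨Z₂, hZ₂, hx₂, hM₂, hf₂⟩ := GA_reach hXI N t q (fun w => - z w) (fun w => - φ w)
    (fun e he hn => by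
      have := h1 e he hn
      unfold dv at *
      linarith)
    (fun e he hp hne => by
      have h0 : du z e ≠ 0 := by
        intro h0
        apply hne
        unfold du at *
        linarith
      have := h2 e he hp h0
      unfold dv du at *
      nlinarith)
    h3 h4 y hy hyc
  rw [abs_of_nonneg (by linarith)]
  exact D.lw N t ht q hq z Z₁ Z₂ (z y) (z x) hle hZ₁ hZ₂ ⟨x, hx₁, hxc⟩ hf₁ ⟨y, hx₂, hyc⟩ hf₂ hM₁
    (fun w hw => by have := hM₂ w hw; linarith)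

theorem p_GA (hXI : S_XI) : S_GA := by
  intro p D _ N t ht q hq z φ h1 h2 h3 h4 x hx hxc y hy hyc
  rcases le_total (z y) (z x) with h | h
  · exact GA_aux hXI p D N t ht q hq z φ h1 h2 h3 h4 x hx hxc y hy hyc h
  · rw [abs_sub_comm]
    exact GA_aux hXI p D N t ht q hq z φ h1 h2 h3 h4 y hy hyc x hx hxc h

end CarpetPI
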