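import Pool.Agent.Lib.MP_1d263a_an.PI.AllX
import Pool.Agent.Lib.MP_1d263a_an.PI.AllH
import Pool.Agent.Lib.MP_1d263a_an.PI.EA
import Pool.Agent.Lib.MP_1d263a_an.PI.EB
import Pool.Agent.Lib.MP_1d263a_an.PI.EC
import Pool.Agent.Lib.MP_1d263a_an.PI.ED
import Pool.Agent.Lib.MP_1d263a_an.PI.EE
import Pool.Agent.Lib.MP_1d263a_an.PI.EF
import Pool.Agent.Lib.MP_1d263a_an.PI.ER
import Pool.Agent.Lib.MP_1d263a_an.PI.ES
import Pool.Agent.Lib.MP_1d263a_an.PI.GA
import Pool.Agent.Lib.MP_1d263a_an.PI.GB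

/-!
# MP_1d263a_an, project PI, part E without hypotheses
-/

noncomputable section

namespace CarpetPI

theorem t_EA : S_EA := p_EA

theorem t_EB : S_EB := p_EB t_EA

theorem t_EC : S_EC := p_EC t_EB

theorem t_ED : S_ED := p_ED t_EC

theorem t_EE : S_EE := p_EE

theorem t_EF : S_EF := p_EF t_ED t_EE

theorem t_ER : S_ER := p_ER t_HK

theorem t_ES : S_ES := p_ES

theorem t_GA : S_GA := p_GA t_XI

theorem t_GB : S_GB := p_GB t_GA

end CarpetPI
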