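import Pool.Agent.Lib.MP_1d263a_an.PI.StmF

/-!
# MP_1d263a_an, project PI, part F: the final statement from the pieces
-/

open Finset
open scoped Classical

noncomputable section

namespace CarpetPI

theorem F_box {a b c d : ℤ} {f : Pt} : f ∈ box a b c d ↔ a ≤ f.1 ∧ f.1 < b ∧ c ≤ f.2 ∧ f.2 < d := by
  simp [box, Finset.mem_product, and_assoc]

theorem F_blk {s : ℕ} {y f : Pt} : f ∈ blk s y ↔
    y.1 - 3 ^ s ≤ f.1 ∧ f.1 < y.1 + 3 ^ s ∧ y.2 ≤ f.2 ∧ f.2 < y.2 + 3 ^ s := F_box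

/-- the faces of the edges touching a block -/
theorem F_nbr {s : ℕ} {y : Pt} {e : Ed} (he : e ∈ eT (blk s y)) (f : Pt) (hf : f = lf e ∨ f = rf e) :
    y.1 - 3 ^ s - 1 ≤ f.1 ∧ f.1 ≤ y.1 + 3 ^ s ∧ y.2 - 1 ≤ f.2 ∧ f.2 ≤ y.2 + 3 ^ s ∧
      (f.2 < y.2 → y.1 - 3 ^ s ≤ f.1 ∧ f.1 < y.1 + 3 ^ s) := by
  simp only [eT, Finset.mem_biUnion] at he
  obtain ⟨g, hg, he⟩ := he
  rw [F_blk] at hg
  simp only [sides, Finset.mem_insert, Finset.mem_singleton] at he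
  rcases he with rfl | rfl | rfl | rfl <;> rcases hf with rfl | rfl <;>
    (try simp only [lf, rf, Bool.false_eq_true, if_false, if_true]) <;>
    refine ⟨?_, ?_, ?_, ?_, fun h => ⟨?_, ?_⟩⟩ <;>
    (try simp only [lf, rf, Bool.false_eq_true, if_false, if_true] at *) <;> omega

theorem F_pow3 (s : ℕ) : (3 : ℤ) ^ (s + 1) = 3 * 3 ^ s := by ring

theorem F_pow_le {s t : ℕ} (h : s ≤ t) : (3 : ℤ) ^ s ≤ 3 ^ t := pow_le_pow_right₀ (by norm_num) h

theorem F_pos (s : ℕ) : (0 : ℤ) < 3 ^ s := by positivity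

theorem F_zero (s : ℕ) (y : Pt) : (y.1 + 0 * 3 ^ s, y.2) = y := by
  ext <;> simp

theorem p_Ffinal (hH : S_Hfinal) (hA : S_FA) (hC : S_FC) (hR : S_FR) (hU : S_FU) (hV : S_FV)
    (hS : S_FS) (hT4 : S_FT4) : S_Ffinal := by
  intro p q hp hp2 hpq D A ε hε δ hδ
  obtain ⟨C₃, -, hcut⟩ := hH p q hp hpq D 1 le_rfl
  obtain ⟨CU, hCU, hU⟩ := hU p q C₃ hp hp2 hpq hcut
  obtain ⟨c, K, C, Ch, hc0, hc1, hK, hC1, hCh, hS⟩ := hS p q hp hp2 hpq D hH A ε hε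
  have hp0 : 0 < p := by linarith
  have hq0 : 0 < q := by
    have h1 : 1 / p < 1 := by rw [div_lt_one hp0]; exact hp
    have h2 : 0 < 1 / q := by linarith
    exact one_div_pos.mp h2
  have hqe : 1 / q = 1 - 1 / p := by linarith
  set A' : ℝ := max A 1 with hA'
  have hA'1 : 1 ≤ A' := le_max_right _ _
  have hA'0 : 0 < A' := by linarith
  set B : ℝ := CU * 2 ^ (2 - p) * A' with hB
  have hB0 : 0 < B := by positivity
  set δ₀ : ℝ := (δ / B) ^ (1 / p) with hδ₀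
  have hδ₀0 : 0 < δ₀ := Real.rpow_pos_of_pos (by positivity) _
  have hδ₀p : δ₀ ^ p = δ / B := by
    rw [hδ₀, ← Real.rpow_mul (by positivity), one_div_mul_cancel hp0.ne', Real.rpow_one]
  obtain ⟨n, hn⟩ := hT4 c K C Ch hc0 hc1 hK hC1 hCh δ₀ hδ₀0
  refine ⟨n, fun N T₀ T y u w hT hF hh => ?_⟩
  obtain ⟨j, hj1, hj2, hj⟩ := hn T₀ T y w _ (hS N T₀ T y u w hF hh) hT
  obtain ⟨s, rfl⟩ : ∃ s, j = s + 1 := ⟨j - 1, by omega⟩
  have hsT : s + 1 < T := by omega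
  obtain ⟨hh', hEn'⟩ := hV p q A ε N T₀ T y u w hp hpq hF hh
  set u' : Pt → ℝ := fun x => - u (rv y x) with hu'
  set w' : Pt → ℝ := fun f => w (rfc y f) with hw'
  have hin : |(0 : ℤ)| * 3 ^ (s + 1) + 3 ^ (s + 1) ≤ (3 : ℤ) ^ T := by
    simpa using F_pow_le hsT.le
  have hF1 : Flat N (s + 1) y := by
    have := (hA N T y hF (s + 1) 0 hsT.le hin).1
    rwa [F_zero] at this
  have hb : BlP q N (s + 1) y u w := by
    have := (hR p q N T y u w hF hh.bl (s + 1) 0 hsT.le hin).1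
    rwa [F_zero] at this
  have hb' : BlP q N (s + 1) y u' w' := by
    have := (hR p q N T y u' w' hF hh'.bl (s + 1) 0 hsT.le hin).1
    rwa [F_zero] at this
  have hE0 : 0 < En p (Kept N) u (blk (s + 1) y) := (hC p q hp hpq N (s + 1) y u w hF1 hb).2.2.2
  set E : ℝ := En p (Kept N) u (blk (s + 1) y) with hE
  set m : ℝ := E ^ (1 / q) with hm
  have hm0 : 0 < m := Real.rpow_pos_of_pos hE0 _
  have hface : ∀ f : Pt, y.1 - 3 ^ (s + 1) - 1 ≤ f.1 → f.1 ≤ y.1 + 3 ^ (s + 1) → y.2 - 1 ≤ f.2 →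
      f.2 ≤ y.2 + 3 ^ (s + 1) → |w f - w' f| ≤ δ₀ * m := by
    intro f h1 h2 h3 h4
    have hp1 := F_pos (s + 1)
    have hp2 := F_pow3 (s + 1)
    have hp3 : (3 : ℤ) ^ (s + 2) ≤ 3 ^ T := F_pow_le (by omega)
    have hp4 : (3 : ℤ) ^ (s + 2) = 3 * 3 ^ (s + 1) := F_pow3 (s + 1)
    by_cases h5 : f.2 < y.2
    · have e1 : w f = 0 := hh.bl.hol f (by omega) (by omega) (by omega) h5
      have e2 : w' f = 0 := hh'.bl.hol f (by omega) (by omega) (by omega) h5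
      rw [e1, e2]; simp; positivity
    · exact hj f (by rw [F_blk]; refine ⟨?_, ?_, ?_, ?_⟩ <;> omega)
  have key := hU N s y u w u' w' (δ₀ * m) hF1 hb hb' (by positivity) (fun e he => by
    have h1 := F_nbr he (lf e) (Or.inl rfl)
    have h2 := F_nbr he (rf e) (Or.inr rfl)
    exact ⟨hface _ h1.1 h1.2.1 h1.2.2.1 h1.2.2.2.1, hface _ h2.1 h2.2.1 h2.2.2.1 h2.2.2.2.1⟩)
  have hgro := hh.gro s (by omega) (by omega)
  refine ⟨s, by omega, by omega, ?_⟩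
  have e1 : (fun x => u x + u (rv y x)) = fun x => u x - u' x := by
    funext x; simp [hu']
  rw [e1]
  refine key.trans ?_
  rw [hEn' (s + 1) hsT.le, ← hE]
  have e2 : (δ₀ * m) ^ p * (E + E) ^ (2 - p) = (δ / B) * 2 ^ (2 - p) * E := by
    rw [Real.mul_rpow hδ₀0.le hm0.le, hδ₀p, hm, ← Real.rpow_mul hE0.le, ← two_mul,
      Real.mul_rpow (by norm_num) hE0.le]
    have e3 : E ^ (1 / q * p) * E ^ (2 - p) = E := by
      rw [← Real.rpow_add hE0]
      have : 1 / q * p + (2 - p) = 1 := by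
        rw [hqe]; field_simp; ring
      rw [this, Real.rpow_one]
    calc δ / B * E ^ (1 / q * p) * (2 ^ (2 - p) * E ^ (2 - p))
        = δ / B * 2 ^ (2 - p) * (E ^ (1 / q * p) * E ^ (2 - p)) := by ring
      _ = _ := by rw [e3]
  rw [e2]
  have hE1 : E ≤ A' * En p (Kept N) u (blk s y) := by
    have h0 : 0 ≤ En p (Kept N) u (blk s y) := by
      unfold En fe
      exact Finset.sum_nonneg fun _ _ => Finset.sum_nonneg fun _ _ => Real.rpow_nonneg (abs_nonneg _) _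
    exact hgro.trans (mul_le_mul_of_nonneg_right (le_max_left _ _) h0)
  calc CU * (δ / B * 2 ^ (2 - p) * E) = (δ / B) * (CU * 2 ^ (2 - p)) * E := by ring
    _ ≤ (δ / B) * (CU * 2 ^ (2 - p)) * (A' * En p (Kept N) u (blk s y)) :=
        mul_le_mul_of_nonneg_left hE1 (by positivity)
    _ = (δ / B) * B * En p (Kept N) u (blk s y) := by rw [hB]; ring
    _ = _ := by rw [div_mul_cancel₀ _ hB0.ne']

end CarpetPI
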