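import Pool.Agent.Lib.MP_1d263a_an.PI.StmF

/-!
# MP_1d263a_an, project PI, piece FA: sub-blocks are flat
-/

set_option autoImplicit false

open Finset
open scoped Classical

noncomputable section

namespace CarpetPI

private theorem FA_kept {N T s : ℕ} (hTN : T ≤ N) (hs : s ≤ T) {a b e : ℤ}
    (hR : ((a, b) : Pt) ∈ Kept (N - T)) (hL : ((a - 1, b) : Pt) ∈ Kept (N - T))
    (h1 : 3 ^ (T - s) * a - 3 ^ (T - s) ≤ e) (h2 : e < 3 ^ (T - s) * a + 3 ^ (T - s)) :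
    ((e, 3 ^ (T - s) * b) : Pt) ∈ Kept (N - s) := by
  have hpos : (0 : ℤ) < 3 ^ (T - s) := by positivity
  have hNs : (3 : ℤ) ^ (N - s) = 3 ^ (N - T) * 3 ^ (T - s) := by
    rw [← pow_add]; congr 1; omega
  have hg : ((e / 3 ^ (T - s), b) : Pt) ∈ Kept (N - T) := by
    have g1 : a - 1 ≤ e / 3 ^ (T - s) := by
      rw [Int.le_ediv_iff_mul_le hpos]; linarith
    have g2 : e / 3 ^ (T - s) < a + 1 := by
      rw [Int.ediv_lt_iff_lt_mul hpos]; linarith
    rcases (by omega : e / 3 ^ (T - s) = a ∨ e / 3 ^ (T - s) = a - 1) with h | h <;> rw [h]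
    · exact hR
    · exact hL
  obtain ⟨k1, k2, k3, k4, k5⟩ := hg
  dsimp only at k1 k2 k3 k4
  have e1 := Int.ediv_mul_le e hpos.ne'
  have e2 := Int.lt_ediv_add_one_mul_self e hpos
  refine ⟨?_, ?_, ?_, ?_, ?_⟩
  · dsimp only
    have : 0 ≤ e / 3 ^ (T - s) * 3 ^ (T - s) := mul_nonneg k1 hpos.le
    linarith
  · dsimp only
    rw [hNs]
    have : (e / 3 ^ (T - s) + 1) * 3 ^ (T - s) ≤ 3 ^ (N - T) * 3 ^ (T - s) :=
      mul_le_mul_of_nonneg_right (by linarith) hpos.le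
    linarith
  · exact mul_nonneg hpos.le k3
  · dsimp only
    rw [hNs, mul_comm]
    exact mul_lt_mul_of_pos_right k4 hpos
  · intro k hk
    dsimp only
    rintro ⟨p1, p2⟩
    rcases lt_or_ge k (T - s) with h | h
    · have h3 : (3 : ℤ) ^ (T - s) * b = 3 ^ k * (3 * (3 ^ (T - s - k - 1) * b)) := by
        have : (3 : ℤ) ^ (T - s) = 3 ^ k * (3 * 3 ^ (T - s - k - 1)) := by
          rw [← pow_succ', ← pow_add]; congr 1; omega
        rw [this]; ring
      rw [h3, Int.mul_ediv_cancel_left _ (by positivity)] at p2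
      omega
    · have h3 : (3 : ℤ) ^ k = 3 ^ (T - s) * 3 ^ (k - (T - s)) := by
        rw [← pow_add]; congr 1; omega
      apply k5 (k - (T - s)) (by omega)
      dsimp only
      rw [h3, ← Int.ediv_ediv_of_nonneg hpos.le] at p1
      rw [h3, ← Int.ediv_ediv_of_nonneg hpos.le, Int.mul_ediv_cancel_left _ hpos.ne'] at p2
      exact ⟨p1, p2⟩

/-- [CARPET FA] sub-blocks are flat -/
theorem p_FA : S_FA := by
  intro N T y hy s c hs hc
  obtain ⟨a, ha⟩ := hy.d1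
  obtain ⟨b, hb⟩ := hy.d2
  have hpos : (0 : ℤ) < 3 ^ s := by positivity
  have hposT : (0 : ℤ) < 3 ^ T := by positivity
  have hT : (3 : ℤ) ^ T = 3 ^ (T - s) * 3 ^ s := by
    rw [← pow_add, Nat.sub_add_cancel hs]
  have hsT : (3 : ℤ) ^ s ≤ 3 ^ T := pow_le_pow_right₀ (by norm_num) hs
  have hc' : |c| + 1 ≤ 3 ^ (T - s) := by
    have : (|c| + 1) * 3 ^ s ≤ 3 ^ (T - s) * 3 ^ s := by rw [← hT]; linarith
    exact le_of_mul_le_mul_right this hpos
  have hc1 := neg_abs_le c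
  have hc2 := le_abs_self c
  have hc3 : -(3 : ℤ) ^ T ≤ c * 3 ^ s - 3 ^ s := by
    have : -|c| * 3 ^ s ≤ c * 3 ^ s := mul_le_mul_of_nonneg_right hc1 hpos.le
    linarith
  have hc4 : c * 3 ^ s + 3 ^ s ≤ 3 ^ T := by
    have : c * 3 ^ s ≤ |c| * 3 ^ s := mul_le_mul_of_nonneg_right hc2 hpos.le
    linarith
  have hR := hy.cR
  have hL := hy.cL
  rw [ha, hb, Int.mul_ediv_cancel_left _ hposT.ne', Int.mul_ediv_cancel_left _ hposT.ne'] at hR hL
  have d1 : (y.1 + c * 3 ^ s) / 3 ^ s = 3 ^ (T - s) * a + c := by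
    have : y.1 + c * 3 ^ s = 3 ^ s * (3 ^ (T - s) * a + c) := by rw [ha, hT]; ring
    rw [this, Int.mul_ediv_cancel_left _ hpos.ne']
  have d2 : y.2 / 3 ^ s = 3 ^ (T - s) * b := by
    have : y.2 = 3 ^ s * (3 ^ (T - s) * b) := by rw [hb, hT]; ring
    rw [this, Int.mul_ediv_cancel_left _ hpos.ne']
  refine ⟨⟨hs.trans hy.hT, ?_, ?_, ?_, ?_, ?_⟩, ?_⟩
  · exact ⟨3 ^ (T - s) * a + c, by dsimp only; rw [ha, hT]; ring⟩
  · exact ⟨3 ^ (T - s) * b, by dsimp only; rw [hb, hT]; ring⟩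
  · dsimp only
    rw [d1, d2]
    exact FA_kept hy.hT hs hR hL (by linarith) (by linarith)
  · dsimp only
    rw [d1, d2]
    exact FA_kept hy.hT hs hR hL (by linarith) (by linarith)
  · intro f h1 h2 h3 h4
    dsimp only at h1 h2 h3 h4
    exact hy.hol f (by linarith) (by linarith) (by linarith) h4
  · intro f hf
    unfold blk box at hf ⊢
    rw [Finset.mem_product, Finset.mem_Ico, Finset.mem_Ico] at hf ⊢
    obtain ⟨⟨h1, h2⟩, h3, h4⟩ := hf
    dsimp only at h1 h2 h3 h4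
    refine ⟨⟨?_, ?_⟩, ?_, ?_⟩ <;> linarith

end CarpetPI
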