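import Pool.Agent.Lib.MP_1d263a_an.PI.StmF

/-!
# MP_1d263a_an, project PI, piece FB: faces at the boundary of a block are kept
-/

open Finset
open scoped Classical

noncomputable section

namespace CarpetPI

private lemma FB_pos (k : ℕ) : (0 : ℤ) < 3 ^ k := by positivity

/-- digits at the places below `m` -/
private lemma FB_low (m k : ℕ) (h : k < m) (c r : ℤ) :
    (c * 3 ^ m + r) / 3 ^ k % 3 = r / 3 ^ k % 3 := by
  obtain ⟨d, rfl⟩ := Nat.exists_eq_add_of_lt h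
  have h1 : c * 3 ^ (k + d + 1) + r = r + 3 ^ k * (3 * (3 ^ d * c)) := by
    rw [pow_succ, pow_add]; ring
  rw [h1, Int.add_mul_ediv_left _ _ (FB_pos k).ne', Int.add_mul_emod_self_left]

/-- digits at the places from `m` on -/
private lemma FB_high (m j : ℕ) (c r : ℤ) (h0 : 0 ≤ r) (h1 : r < 3 ^ m) :
    (c * 3 ^ m + r) / 3 ^ (m + j) = c / 3 ^ j := by
  have h2 : (c * 3 ^ m + r) / 3 ^ m = c := by
    rw [add_comm, Int.add_mul_ediv_right _ _ (FB_pos m).ne', Int.ediv_eq_zero_of_lt h0 h1, zero_add]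
  rw [pow_add, ← Int.ediv_ediv_of_nonneg (FB_pos m).le, h2]

private lemma FB_top (m k : ℕ) (h : k < m) : ((3 : ℤ) ^ m - 1) / 3 ^ k % 3 ≠ 1 := by
  obtain ⟨d, rfl⟩ := Nat.exists_eq_add_of_lt h
  have h1 : (3 : ℤ) ^ (k + d + 1) - 1 = (3 ^ k - 1) + 3 ^ k * (3 * 3 ^ d - 1) := by
    rw [pow_succ, pow_add]; ring
  have hk := FB_pos k
  rw [h1, Int.add_mul_ediv_left _ _ hk.ne', Int.ediv_eq_zero_of_lt (by linarith) (by linarith), zero_add]
  generalize (3 : ℤ) ^ d = x
  omega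

private lemma FB_side (m k : ℕ) (h : k < m) (r : ℤ) (hr : r = 0 ∨ r + 1 = 3 ^ m) :
    r / 3 ^ k % 3 ≠ 1 := by
  rcases hr with rfl | hr
  · simp
  · have : r = 3 ^ m - 1 := by linarith
    rw [this]
    exact FB_top m k h

/-- the outer faces of a kept cell are kept -/
private lemma FB_cell (N s : ℕ) (hs : s ≤ N) (a b : ℤ) (h : ((a, b) : Pt) ∈ Kept (N - s)) (f : Pt) (i j : ℤ)
    (hi : f.1 = a * 3 ^ s + i) (hj : f.2 = b * 3 ^ s + j) (i0 : 0 ≤ i) (i1 : i < 3 ^ s) (j0 : 0 ≤ j)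
    (j1 : j < 3 ^ s) (hb : (i = 0 ∨ i + 1 = 3 ^ s) ∨ (j = 0 ∨ j + 1 = 3 ^ s)) : f ∈ Kept N := by
  obtain ⟨n, rfl⟩ := Nat.exists_eq_add_of_le hs
  have hn : s + n - s = n := by omega
  rw [hn] at h
  obtain ⟨h1, h2, h3, h4, h5⟩ := h
  simp only at h1 h2 h3 h4
  have hp := FB_pos s
  have hpn := FB_pos n
  have hpow : (3 : ℤ) ^ (s + n) = 3 ^ n * 3 ^ s := by rw [pow_add]; ring
  refine ⟨?_, ?_, ?_, ?_, ?_⟩
  · rw [hi]; positivity
  · rw [hi, hpow]
    have : a + 1 ≤ 3 ^ n := by omega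
    nlinarith
  · rw [hj]; positivity
  · rw [hj, hpow]
    have : b + 1 ≤ 3 ^ n := by omega
    nlinarith
  · intro k hk
    rw [hi, hj]
    rcases lt_or_ge k s with hks | hks
    · rw [FB_low s k hks, FB_low s k hks]
      rintro ⟨c1, c2⟩
      rcases hb with hb | hb
      · exact FB_side s k hks i hb c1
      · exact FB_side s k hks j hb c2
    · obtain ⟨l, rfl⟩ := Nat.exists_eq_add_of_le hks
      rw [FB_high s l _ _ i0 i1, FB_high s l _ _ j0 j1]
      exact h5 l (by omega)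

private lemma FB_mem (s : ℕ) (y f : Pt) : f ∈ blk s y ↔
    (y.1 - 3 ^ s ≤ f.1 ∧ f.1 < y.1 + 3 ^ s) ∧ (y.2 ≤ f.2 ∧ f.2 < y.2 + 3 ^ s) := by
  simp only [blk, box, Finset.mem_product, Finset.mem_Ico]

private lemma FB_kept (N s : ℕ) (y : Pt) (hF : Flat N s y) (f : Pt) (hf : f ∈ blk s y)
    (hb : f.1 = y.1 - 3 ^ s ∨ f.1 = y.1 + 3 ^ s - 1 ∨ f.2 = y.2 ∨ f.2 = y.2 + 3 ^ s - 1) : f ∈ Kept N := by
  rw [FB_mem] at hf
  obtain ⟨⟨f1, f2⟩, f3, f4⟩ := hf
  have hp := FB_pos s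
  have e1 : y.1 / 3 ^ s * 3 ^ s = y.1 := Int.ediv_mul_cancel hF.d1
  have e2 : y.2 / 3 ^ s * 3 ^ s = y.2 := Int.ediv_mul_cancel hF.d2
  rcases lt_or_ge f.1 y.1 with h | h
  · refine FB_cell N s hF.hT _ _ hF.cL f (f.1 - (y.1 - 3 ^ s)) (f.2 - y.2) ?_ ?_ (by linarith) (by linarith)
      (by linarith) (by linarith) ?_
    · rw [sub_mul, e1]; ring
    · rw [e2]; ring
    · rcases hb with hb | hb | hb | hb
      · left; left; linarith
      · exfalso; linarith
      · right; left; linarith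
      · right; right; linarith
  · refine FB_cell N s hF.hT _ _ hF.cR f (f.1 - y.1) (f.2 - y.2) ?_ ?_ (by linarith) (by linarith)
      (by linarith) (by linarith) ?_
    · rw [e1]; ring
    · rw [e2]; ring
    · rcases hb with hb | hb | hb | hb
      · exfalso; linarith
      · left; right; linarith
      · right; left; linarith
      · right; right; linarith

private lemma FB_sides (f : Pt) (e : Ed) : e ∈ sides f ↔ lf e = f ∨ rf e = f := by
  obtain ⟨b, x1, x2⟩ := e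
  obtain ⟨f1, f2⟩ := f
  cases b <;> simp [sides, lf, rf] <;> omega

/-- a face of the block next to a face outside is in the first or last row or column -/
private lemma FB_bd (s : ℕ) (y : Pt) (e : Ed) :
    (lf e ∈ blk s y → rf e ∉ blk s y → ((lf e).1 = y.1 - 3 ^ s ∨ (lf e).1 = y.1 + 3 ^ s - 1 ∨
      (lf e).2 = y.2 ∨ (lf e).2 = y.2 + 3 ^ s - 1)) ∧
    (rf e ∈ blk s y → lf e ∉ blk s y → ((rf e).1 = y.1 - 3 ^ s ∨ (rf e).1 = y.1 + 3 ^ s - 1 ∨
      (rf e).2 = y.2 ∨ (rf e).2 = y.2 + 3 ^ s - 1)) := by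
  rw [FB_mem, FB_mem]
  obtain ⟨b, x1, x2⟩ := e
  have hp := FB_pos s
  generalize (3 : ℤ) ^ s = P at *
  cases b <;> simp only [lf, rf, if_true, Bool.false_eq_true, if_false] <;> constructor <;> omega

theorem p_FB : S_FB := by
  intro N s y hF
  refine ⟨fun f hf hb => FB_kept N s y hF f hf hb, ?_, ?_⟩
  · intro e he
    simp only [eB, eT, Finset.mem_filter, Finset.mem_biUnion] at he
    obtain ⟨⟨f, hf, hef⟩, hp⟩ := he
    have hs := (FB_sides f e).1 hef
    by_cases hfK : f ∈ Kept N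
    · exact ⟨f, hf, hfK, hef⟩
    · rcases hs with hs | hs
      · subst hs
        have hg : rf e ∈ Kept N := hp.resolve_left hfK
        by_cases hgb : rf e ∈ blk s y
        · exact ⟨rf e, hgb, hg, (FB_sides _ e).2 (Or.inr rfl)⟩
        · exact absurd (FB_kept N s y hF _ hf ((FB_bd s y e).1 hf hgb)) hfK
      · subst hs
        have hg : lf e ∈ Kept N := hp.resolve_right hfK
        by_cases hgb : lf e ∈ blk s y
        · exact ⟨lf e, hgb, hg, (FB_sides _ e).2 (Or.inl rfl)⟩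
        · exact absurd (FB_kept N s y hF _ hf ((FB_bd s y e).2 hf hgb)) hfK
  · intro e he h
    simp only [eT, Finset.mem_biUnion] at he
    obtain ⟨f, hf, hef⟩ := he
    rcases (FB_sides f e).1 hef with hs | hs
    · subst hs
      have hr : rf e ∉ blk s y := h.resolve_left (fun h' => h' hf)
      exact Or.inl (FB_kept N s y hF _ hf ((FB_bd s y e).1 hf hr))
    · subst hs
      have hl : lf e ∉ blk s y := h.resolve_right (fun h' => h' hf)
      exact Or.inr (FB_kept N s y hF _ hf ((FB_bd s y e).2 hf hl))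

end CarpetPI
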