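import Pool.Agent.Lib.MP_1d263a_an.PI.StmF

/-!
# MP_1d263a_an, project PI, piece FC: energies of `u` and of `w`
-/

open Finset
open scoped Classical

noncomputable section

namespace CarpetPI

theorem FC_mem_sides (e : Ed) (f : Pt) : e ∈ sides f ↔ lf e = f ∨ rf e = f := by
  obtain ⟨b, x⟩ := e
  obtain ⟨i, j⟩ := f
  obtain ⟨x1, x2⟩ := x
  cases b
  · simp only [sides, lf, rf, Finset.mem_insert, Finset.mem_singleton, Prod.mk.injEq, Bool.false_eq_true,
      if_false, true_and, false_and, or_false]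
    omega
  · simp only [sides, lf, rf, Finset.mem_insert, Finset.mem_singleton, Prod.mk.injEq, reduceCtorEq,
      if_true, true_and, false_and, false_or]
    omega

/-- counting the edges of the faces in `F` -/
theorem FC_count (F : Finset Pt) (E : Finset Ed) (g : Ed → ℝ) (hsub : ∀ f ∈ F, sides f ⊆ E) :
    ∑ f ∈ F, ∑ e ∈ sides f, g e = ∑ e ∈ E, ((F.filter (fun f => e ∈ sides f)).card : ℝ) * g e := by
  have h1 : ∀ f ∈ F, ∑ e ∈ sides f, g e = ∑ e ∈ E, if e ∈ sides f then g e else 0 := by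
    intro f hf
    rw [← Finset.sum_filter]
    apply Finset.sum_congr _ (fun _ _ => rfl)
    ext e
    simp only [Finset.mem_filter]
    exact ⟨fun h => ⟨hsub f hf h, h⟩, fun h => h.2⟩
  rw [Finset.sum_congr rfl h1, Finset.sum_comm]
  apply Finset.sum_congr rfl
  intro e _
  rw [← Finset.sum_filter, Finset.sum_const, nsmul_eq_mul]

theorem FC_card_le (F : Finset Pt) (e : Ed) : (F.filter (fun f => e ∈ sides f)).card ≤ 2 := by
  have h : F.filter (fun f => e ∈ sides f) ⊆ {lf e, rf e} := by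
    intro f hf
    have h2 := (Finset.mem_filter.mp hf).2
    rw [FC_mem_sides] at h2
    simp only [Finset.mem_insert, Finset.mem_singleton]
    rcases h2 with h2 | h2
    · exact Or.inl h2.symm
    · exact Or.inr h2.symm
  exact (Finset.card_le_card h).trans Finset.card_le_two

theorem p_FC (hFB : S_FB) : S_FC := by
  intro p q hp hpq N s y u w hF hB
  have hp0 : (0 : ℝ) < p := by linarith
  have hq0 : q ≠ 0 := by
    rintro rfl
    rw [div_zero, add_zero, div_eq_one_iff_eq hp0.ne'] at hpq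
    linarith
  have hpq' : q + p = p * q := by
    field_simp at hpq
    linarith
  have hq1 : 1 < q := by
    have h1 : q * (p - 1) = p := by linarith
    by_contra hcon
    have h2 : q ≤ 1 := not_lt.mp hcon
    nlinarith
  obtain ⟨hb1, hb2, -⟩ := hFB N s y hF
  have h1 : ∀ e ∈ eB (Kept N) (blk s y), |dv w e| ^ q = |du u e| ^ p := by
    intro e he
    have he2 := Finset.mem_filter.mp he
    rw [(hB.pr e he2.1).1 he2.2, Gr.abs_phi hq1, ← Real.rpow_mul (abs_nonneg _)]
    congr 1
    linarith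
  set F : Finset Pt := (blk s y).filter (· ∈ Kept N) with hFdef
  have hsub : ∀ f ∈ F, sides f ⊆ eB (Kept N) (blk s y) := by
    intro f hf e he
    have hf2 := Finset.mem_filter.mp hf
    refine Finset.mem_filter.mpr ⟨Finset.mem_biUnion.mpr ⟨f, hf2.1, he⟩, ?_⟩
    rcases (FC_mem_sides e f).mp he with h | h
    · exact Or.inl (h ▸ hf2.2)
    · exact Or.inr (h ▸ hf2.2)
  have hEn : En p (Kept N) u (blk s y) = ∑ e ∈ eB (Kept N) (blk s y),
      ((F.filter (fun f => e ∈ sides f)).card : ℝ) * |du u e| ^ p := by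
    unfold En fe
    exact FC_count F _ _ hsub
  have hnn : ∀ e : Ed, 0 ≤ |du u e| ^ p := fun e => Real.rpow_nonneg (abs_nonneg _) _
  have h2 : ∑ e ∈ eB (Kept N) (blk s y), |dv w e| ^ q ≤ En p (Kept N) u (blk s y) := by
    rw [hEn]
    apply Finset.sum_le_sum
    intro e he
    rw [h1 e he]
    obtain ⟨f, hf, hfK, hef⟩ := hb2 e he
    have hc : 1 ≤ (F.filter (fun f => e ∈ sides f)).card := by
      rw [Nat.one_le_iff_ne_zero, ← Nat.pos_iff_ne_zero, Finset.card_pos]
      exact ⟨f, Finset.mem_filter.mpr ⟨Finset.mem_filter.mpr ⟨hf, hfK⟩, hef⟩⟩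
    have hc' : (1 : ℝ) ≤ ((F.filter (fun f => e ∈ sides f)).card : ℝ) := by exact_mod_cast hc
    nlinarith [hnn e]
  have h3 : En p (Kept N) u (blk s y) ≤ 2 * ∑ e ∈ eB (Kept N) (blk s y), |dv w e| ^ q := by
    rw [hEn, Finset.mul_sum]
    apply Finset.sum_le_sum
    intro e he
    rw [h1 e he]
    have hc' : ((F.filter (fun f => e ∈ sides f)).card : ℝ) ≤ 2 := by exact_mod_cast FC_card_le F e
    exact mul_le_mul_of_nonneg_right hc' (hnn e)
  refine ⟨h1, h2, h3, lt_of_lt_of_le ?_ h2⟩
  have h3s : (0 : ℤ) < 3 ^ s := by positivity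
  have hy : y ∈ blk s y := by
    simp only [blk, box, Finset.mem_product, Finset.mem_Ico]
    omega
  have hyK : y ∈ Kept N := hb1 y hy (Or.inr (Or.inr (Or.inl rfl)))
  have hmem : ((false, y) : Ed) ∈ eB (Kept N) (blk s y) := by
    apply hsub y (Finset.mem_filter.mpr ⟨hy, hyK⟩)
    rw [FC_mem_sides]
    left
    simp [lf]
  have hpos : 0 < |dv w ((false, y) : Ed)| ^ q := by
    apply Real.rpow_pos_of_pos
    rw [abs_pos]
    have hl : lf ((false, y) : Ed) = y := by simp [lf]
    have hr : rf ((false, y) : Ed) = (y.1, y.2 - 1) := by simp [rf]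
    have hw : w (y.1, y.2 - 1) = 0 := by
      apply hB.hol
      · show y.1 - 3 ^ s ≤ y.1
        omega
      · show y.1 < y.1 + 3 ^ s
        omega
      · show y.2 - 3 ^ s ≤ y.2 - 1
        omega
      · show y.2 - 1 < y.2
        omega
    unfold dv
    rw [hl, hr, hw, sub_zero]
    exact (hB.pos y hy).ne'
  exact Finset.sum_pos' (fun e _ => Real.rpow_nonneg (abs_nonneg _) _) ⟨_, hmem, hpos⟩

end CarpetPI
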