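import Pool.Agent.Lib.MP_1d263a_an.PI.StmF

/-!
# MP_1d263a_an, part F, piece FD: the linear equation for `w - t w'`, and its level sets
-/

set_option autoImplicit false

open Finset
open scoped Classical

noncomputable section

namespace CarpetPI

theorem FD_mem (B : Finset Pt) (e : Ed) (h : lf e ∈ B ∨ rf e ∈ B) : e ∈ eT B := by
  obtain ⟨b, x⟩ := e
  unfold eT
  rw [Finset.mem_biUnion]
  rcases b with _ | _
  · rcases h with h | h
    · refine ⟨x, h, ?_⟩
      simp [sides]
    · refine ⟨(x.1, x.2 - 1), h, ?_⟩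
      simp [sides]
  · rcases h with h | h
    · refine ⟨(x.1 - 1, x.2), h, ?_⟩
      simp [sides]
    · refine ⟨x, h, ?_⟩
      simp [sides]

theorem FD_eq (q t : ℝ) (hq : 2 < q) (ht : 0 ≤ t) (u w u' w' : Pt → ℝ) (e : Ed)
    (h : du u e = phi q (dv w e)) (h' : du u' e = phi q (dv w' e)) :
    du (fun x => u x - t ^ (q - 1) * u' x) e = Gr.cw q t lf rf w w' e *
      ((w (lf e) - t * w' (lf e)) - (w (rf e) - t * w' (rf e))) := by
  have e1 := Gr.cst_mul q (w (lf e) - w (rf e)) (t * (w' (lf e) - w' (rf e)))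
  rw [Gr.phi_smul (by linarith) ht] at e1
  have e2 : du (fun x => u x - t ^ (q - 1) * u' x) e = du u e - t ^ (q - 1) * du u' e := by
    unfold du
    ring
  rw [e2, h, h']
  unfold Gr.cw dv
  rw [show (w (lf e) - t * w' (lf e)) - (w (rf e) - t * w' (rf e)) =
    (w (lf e) - w (rf e)) - t * (w' (lf e) - w' (rf e)) by ring, e1]

theorem p_FD (hXG : S_XG) (hXH : S_XH) : S_FD := by
  intro q t hq ht N s y u w u' w' hb hb'
  refine ⟨?_, ?_⟩
  · intro φ hφ hφe
    have h1 := hXG.2 (fun x => u x - t ^ (q - 1) * u' x) φ (blk s y) (eT (blk s y)) hφ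
      (fun e he => FD_mem _ e he)
    rw [← h1]
    unfold eB
    rw [Finset.sum_filter]
    refine Finset.sum_congr rfl fun e he => ?_
    by_cases hp : pres (Kept N) e
    · rw [if_pos hp, FD_eq q t hq ht u w u' w' e ((hb.pr e he).1 hp) ((hb'.pr e he).1 hp)]
      rfl
    · rw [if_neg hp, hφe e he hp, mul_zero]
  · intro σ M f₀ hσ hf₀ hM
    have hσ2 : σ * σ = 1 := by
      rcases hσ with rfl | rfl <;> norm_num
    refine hXH (fun x => σ * (u x - t ^ (q - 1) * u' x)) (fun f => σ * (w f - t * w' f))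
      (blk s y) M f₀ hf₀ hM ?_
    intro e he hne
    have heT := FD_mem _ e he
    have hdv : dv (fun f => σ * (w f - t * w' f)) e =
        σ * ((w (lf e) - t * w' (lf e)) - (w (rf e) - t * w' (rf e))) := by
      unfold dv
      ring
    have hdu : du (fun x => σ * (u x - t ^ (q - 1) * u' x)) e =
        σ * du (fun x => u x - t ^ (q - 1) * u' x) e := by
      unfold du
      ring
    by_cases hp : pres (Kept N) e
    · rw [hdu, FD_eq q t hq ht u w u' w' e ((hb.pr e heT).1 hp) ((hb'.pr e heT).1 hp), hdv]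
      rw [hdv] at hne
      have hne' : (w (lf e) - t * w' (lf e)) - (w (rf e) - t * w' (rf e)) ≠ 0 :=
        fun h => hne (by rw [h, mul_zero])
      have hpos := Gr.cw_pos hq.le t lf rf w w' e (fun h => hne' (sub_eq_zero.2 h))
      have e3 : σ * (Gr.cw q t lf rf w w' e *
          ((w (lf e) - t * w' (lf e)) - (w (rf e) - t * w' (rf e)))) *
          (σ * ((w (lf e) - t * w' (lf e)) - (w (rf e) - t * w' (rf e)))) =
          (σ * σ) * (Gr.cw q t lf rf w w' e *
          ((w (lf e) - t * w' (lf e)) - (w (rf e) - t * w' (rf e))) ^ 2) := by ring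
      rw [e3, hσ2, one_mul]
      exact mul_pos hpos (by positivity)
    · exfalso
      apply hne
      have h1 := (hb.pr e heT).2 hp
      have h2 := (hb'.pr e heT).2 hp
      unfold dv at h1 h2
      rw [hdv]
      have : (w (lf e) - t * w' (lf e)) - (w (rf e) - t * w' (rf e)) =
        (w (lf e) - w (rf e)) - t * (w' (lf e) - w' (rf e)) := by ring
      rw [this, h1, h2]
      ring

end CarpetPI
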