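import Pool.Agent.Lib.MP_1d263a_an.PI.StmF

/-!
# MP_1d263a_an, project PI, piece FE: trimming a connected vertex set
-/

open Finset
open scoped Classical

noncomputable section

namespace CarpetPI

/-- the relation of `Conn` -/
def FE_R (K A : Set Pt) (x y : Pt) : Prop :=
  Relation.ReflTransGen (fun a b => adj K a b ∧ a ∈ A ∧ b ∈ A) x y

theorem FE_adj_symm {K : Set Pt} {a b : Pt} (h : adj K a b) : adj K b a := by
  obtain ⟨e, he, h | h⟩ := h
  · exact ⟨e, he, Or.inr h⟩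
  · exact ⟨e, he, Or.inl h⟩

theorem FE_symm {K A : Set Pt} {x y : Pt} (h : FE_R K A x y) : FE_R K A y x := by
  unfold FE_R at h ⊢
  induction h with
  | refl => exact Relation.ReflTransGen.refl
  | tail _ hbc ih =>
    exact Relation.ReflTransGen.head ⟨FE_adj_symm hbc.1, hbc.2.2, hbc.2.1⟩ ih

theorem FE_mem {K A : Set Pt} {x y : Pt} (hx : x ∈ A) (h : FE_R K A x y) : y ∈ A := by
  unfold FE_R at h
  induction h with
  | refl => exact hx
  | tail _ hbc _ => exact hbc.2.2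

/-- neighbours differ by at most one in both coordinates -/
theorem FE_near {K : Set Pt} {w b : Pt} (h : adj K w b) :
    w.1 - 1 ≤ b.1 ∧ b.1 ≤ w.1 + 1 ∧ w.2 - 1 ≤ b.2 ∧ b.2 ≤ w.2 + 1 := by
  obtain ⟨⟨e, x⟩, _, ⟨rfl, rfl⟩ | ⟨rfl, rfl⟩⟩ := h
  · cases e
    · refine ⟨?_, ?_, ?_, ?_⟩ <;> simp [hd, tl] <;> omega
    · refine ⟨?_, ?_, ?_, ?_⟩ <;> simp [hd, tl] <;> omega
  · cases e
    · refine ⟨?_, ?_, ?_, ?_⟩ <;> simp [hd, tl] <;> omega
    · refine ⟨?_, ?_, ?_, ?_⟩ <;> simp [hd, tl] <;> omega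

/-- the first point outside the open box -/
theorem FE_first {K Z O : Set Pt} {x₀ y : Pt} (h : FE_R K Z x₀ y) (h0 : x₀ ∈ O) :
    FE_R K (Z ∩ O) x₀ y ∨ ∃ w b : Pt, FE_R K (Z ∩ O) x₀ w ∧ w ∈ Z ∧ b ∈ Z ∧ b ∉ O ∧ adj K w b := by
  unfold FE_R at h
  induction h with
  | refl => exact Or.inl Relation.ReflTransGen.refl
  | @tail y y' hy hyy ih =>
    rcases ih with h1 | h1
    · by_cases h2 : y' ∈ O
      · left
        have hy' : y ∈ O := by
          by_cases h3 : y = x₀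
          · rw [h3]; exact h0
          · rcases Relation.ReflTransGen.cases_tail h1 with h4 | ⟨z, _, h5⟩
            · exact absurd h4 h3
            · exact h5.2.2.2
        exact Relation.ReflTransGen.tail h1 ⟨hyy.1, ⟨hyy.2.1, hy'⟩, hyy.2.2, h2⟩
      · exact Or.inr ⟨y, y', h1, hyy.2.1, hyy.2.2, h2, hyy.1⟩
    · exact Or.inr h1

theorem p_FE : S_FE := by
  intro K a b c d A B C D Z hsub hZ x₀ hx₀ hx₀c ⟨x₁, hx₁, hx₁o⟩
  have h0 : x₀ ∈ opB A B C D := hsub hx₀c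
  rcases FE_first (O := opB A B C D) (hZ.2 x₀ hx₀ x₁ hx₁) h0 with h1 | ⟨w, y, hw, hwZ, hyZ, hyO, hwy⟩
  · exact absurd (FE_mem (A := Z ∩ opB A B C D) ⟨hx₀, h0⟩ h1).2 hx₁o
  · have hwO : w ∈ Z ∩ opB A B C D := FE_mem (A := Z ∩ opB A B C D) ⟨hx₀, h0⟩ hw
    obtain ⟨W, hW⟩ : ∃ W : Set Pt, W = {x | FE_R K (Z ∩ opB A B C D) x₀ x} := ⟨_, rfl⟩
    have hWm : ∀ x, x ∈ W ↔ FE_R K (Z ∩ opB A B C D) x₀ x := by
      intro x
      rw [hW]
      exact Iff.rfl
    have hWZ : ∀ x ∈ W, x ∈ Z ∩ opB A B C D := fun x hx =>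
      FE_mem (A := Z ∩ opB A B C D) ⟨hx₀, h0⟩ ((hWm x).1 hx)
    have hx₀W : x₀ ∈ W := (hWm x₀).2 Relation.ReflTransGen.refl
    have hwW : w ∈ W := (hWm w).2 hw
    -- paths in the new set
    have hpath : ∀ x, FE_R K (Z ∩ opB A B C D) x₀ x → FE_R K (W ∪ {y}) x₀ x := by
      intro x hx
      unfold FE_R at hx
      induction hx with
      | refl => exact Relation.ReflTransGen.refl
      | @tail u v hu huv ih =>
        exact Relation.ReflTransGen.tail ih ⟨huv.1, Or.inl ((hWm u).2 hu),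
          Or.inl ((hWm v).2 (Relation.ReflTransGen.tail hu huv))⟩
    have hall : ∀ x ∈ W ∪ {y}, FE_R K (W ∪ {y}) x₀ x := by
      rintro x (hx | hx)
      · exact hpath x ((hWm x).1 hx)
      · have hx' : x = y := hx
        rw [hx']
        exact Relation.ReflTransGen.tail (hpath w hw) ⟨hwy, Or.inl hwW, Or.inr rfl⟩
    have hsubZ : W ∪ {y} ⊆ Z := by
      rintro x (hx | hx)
      · exact (hWZ x hx).1
      · have hx' : x = y := hx
        rw [hx']
        exact hyZ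
    refine ⟨W ∪ {y}, hsubZ, ⟨fun x hx => hZ.1 (hsubZ hx), fun x hx z hz => ?_⟩, Or.inl hx₀W,
      ?_, y, Or.inr rfl, hyO⟩
    · exact Relation.ReflTransGen.trans (FE_symm (hall x hx)) (hall z hz)
    · rintro x (hx | hx)
      · obtain ⟨-, h2, h3, h4, h5⟩ := hWZ x hx
        exact ⟨h2.le, h3.le, h4.le, h5.le⟩
      · have hx' : x = y := hx
        rw [hx']
        obtain ⟨-, h2, h3, h4, h5⟩ := hwO
        obtain ⟨g1, g2, g3, g4⟩ := FE_near hwy
        refine ⟨?_, ?_, ?_, ?_⟩ <;> omega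

end CarpetPI
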