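import Pool.Agent.Lib.MP_1d263a_an.PI.StmF

/-!
# MP_1d263a_an, project PI, piece FF: lower capacity bound, four sides
-/

open Finset
open scoped Classical

noncomputable section

namespace CarpetPI

/-- the sides of a face -/
theorem FF_side {e : Ed} {f : Pt} (h : lf e = f ∨ rf e = f) : e ∈ sides f := by
  obtain ⟨b, x, y⟩ := e
  obtain ⟨f₁, f₂⟩ := f
  cases b
  · simp only [sides, lf, rf, mem_insert, mem_singleton, Prod.mk.injEq, true_and, false_and,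
      Bool.false_eq_true, if_false, or_false] at h ⊢
    rcases h with ⟨h1, h2⟩ | ⟨h1, h2⟩
    · exact Or.inl ⟨h1, h2⟩
    · exact Or.inr ⟨h1, by omega⟩
  · simp only [sides, lf, rf, mem_insert, mem_singleton, Prod.mk.injEq, true_and, false_and,
      if_true, false_or, reduceCtorEq] at h ⊢
    rcases h with ⟨h1, h2⟩ | ⟨h1, h2⟩
    · exact Or.inr ⟨by omega, h2⟩
    · exact Or.inl ⟨h1, h2⟩

/-- the two faces of an edge with an end in an open box -/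
theorem FF_near {A B C D : ℤ} {e : Ed} (h : tl e ∈ opB A B C D ∨ hd e ∈ opB A B C D) :
    lf e ∈ box A B C D ∧ rf e ∈ box A B C D := by
  obtain ⟨b, x, y⟩ := e
  cases b
  · simp only [tl, hd, lf, rf, opB, box, Set.mem_setOf_eq, mem_product, mem_Ico,
      Bool.false_eq_true, if_false] at h ⊢
    rcases h with h | h <;> refine ⟨⟨⟨?_, ?_⟩, ?_, ?_⟩, ⟨?_, ?_⟩, ?_, ?_⟩ <;> omega
  · simp only [tl, hd, lf, rf, opB, box, Set.mem_setOf_eq, mem_product, mem_Ico, if_true] at h ⊢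
    rcases h with h | h <;> refine ⟨⟨⟨?_, ?_⟩, ?_, ?_⟩, ⟨?_, ?_⟩, ?_, ?_⟩ <;> omega

/-- the exponents -/
theorem FF_exp {p q : ℝ} (hp : 1 < p) (hp2 : p < 2) (hpq : 1 / p + 1 / q = 1) :
    2 < q ∧ (q - 1) * p = q ∧ 2 / p - 1 = (q - 2) / q := by
  have hp0 : 0 < p := by linarith
  have h1 : 1 / q = 1 - 1 / p := by linarith
  have h2 : 1 / p < 1 := by rw [div_lt_one hp0]; exact hp
  have hq' : 0 < 1 / q := by rw [h1]; linarith
  have hq0 : 0 < q := one_div_pos.1 hq'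
  have e1 : q + p = p * q := by
    have := hpq
    field_simp at this
    linarith
  have e2 : (q - 1) * p = q := by linarith
  have hq2 : 2 < q := by nlinarith
  refine ⟨hq2, e2, ?_⟩
  have e3 : 2 / p = 2 * (1 / p) := by ring
  have e4 : (q - 2) / q = 1 - 2 * (1 / q) := by field_simp
  rw [e3, e4]
  linarith

/-- the size of the edge, `q`-th powers -/
theorem FF_pow {q t a b : ℝ} (hq : 2 < q) (ht : 0 ≤ t) (ha : 0 ≤ a) (hb : 0 ≤ b) :
    (a + t * b) ^ q ≤ 2 ^ q * (a ^ q + t ^ q * b ^ q) := by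
  have hq0 : 0 ≤ q := by linarith
  rw [← Real.mul_rpow ht hb]
  have htb : 0 ≤ t * b := mul_nonneg ht hb
  have h1 : 0 ≤ a ^ q := Real.rpow_nonneg ha q
  have h2 : 0 ≤ (t * b) ^ q := Real.rpow_nonneg htb q
  have h3 : (0 : ℝ) ≤ 2 ^ q := Real.rpow_nonneg (by norm_num) q
  rcases le_total a (t * b) with h | h
  · calc (a + t * b) ^ q ≤ (2 * (t * b)) ^ q :=
          Real.rpow_le_rpow (by linarith) (by linarith) hq0
      _ = 2 ^ q * (t * b) ^ q := Real.mul_rpow (by norm_num) htb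
      _ ≤ 2 ^ q * (a ^ q + (t * b) ^ q) := mul_le_mul_of_nonneg_left (by linarith) h3
  · calc (a + t * b) ^ q ≤ (2 * a) ^ q :=
          Real.rpow_le_rpow (by linarith) (by linarith) hq0
      _ = 2 ^ q * a ^ q := Real.mul_rpow (by norm_num) ha
      _ ≤ 2 ^ q * (a ^ q + (t * b) ^ q) := mul_le_mul_of_nonneg_left (by linarith) h3

/-- (1): `S` is at most `2^(q+1)` times the `p`-th power of `max (E₁^(1/p), t^(q-1) E₂^(1/p))` -/
theorem FF_S {p q t : ℝ} (hp : 1 < p) (hp2 : p < 2) (hpq : 1 / p + 1 / q = 1) (ht : 0 ≤ t)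
    (E : Finset Ed) (w w' : Pt → ℝ) (E₁ E₂ : ℝ) (hE₁ : 0 ≤ E₁) (hE₂ : 0 ≤ E₂)
    (h₁ : ∑ e ∈ E, |dv w e| ^ q ≤ E₁) (h₂ : ∑ e ∈ E, |dv w' e| ^ q ≤ E₂) :
    ∑ e ∈ E, Gr.sz t lf rf w w' e ^ q ≤
      2 ^ (q + 1) * (max (E₁ ^ (1 / p)) (t ^ (q - 1) * E₂ ^ (1 / p))) ^ p := by
  obtain ⟨hq, hqp, -⟩ := FF_exp hp hp2 hpq
  have hp0 : 0 < p := by linarith
  have h2q : (0 : ℝ) ≤ 2 ^ q := Real.rpow_nonneg (by norm_num) q
  have htq : 0 ≤ t ^ q := Real.rpow_nonneg ht q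
  have hX : 0 ≤ E₁ ^ (1 / p) := Real.rpow_nonneg hE₁ _
  have hY : 0 ≤ t ^ (q - 1) * E₂ ^ (1 / p) :=
    mul_nonneg (Real.rpow_nonneg ht _) (Real.rpow_nonneg hE₂ _)
  have hXp : (E₁ ^ (1 / p)) ^ p = E₁ := by
    rw [← Real.rpow_mul hE₁, one_div, inv_mul_cancel₀ hp0.ne', Real.rpow_one]
  have hYp : (t ^ (q - 1) * E₂ ^ (1 / p)) ^ p = t ^ q * E₂ := by
    rw [Real.mul_rpow (Real.rpow_nonneg ht _) (Real.rpow_nonneg hE₂ _), ← Real.rpow_mul hE₂,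
      one_div, inv_mul_cancel₀ hp0.ne', Real.rpow_one, ← Real.rpow_mul ht, hqp]
  have hMX : E₁ ≤ (max (E₁ ^ (1 / p)) (t ^ (q - 1) * E₂ ^ (1 / p))) ^ p := by
    calc E₁ = (E₁ ^ (1 / p)) ^ p := hXp.symm
      _ ≤ _ := Real.rpow_le_rpow hX (le_max_left _ _) hp0.le
  have hMY : t ^ q * E₂ ≤ (max (E₁ ^ (1 / p)) (t ^ (q - 1) * E₂ ^ (1 / p))) ^ p := by
    calc t ^ q * E₂ = (t ^ (q - 1) * E₂ ^ (1 / p)) ^ p := hYp.symm
      _ ≤ _ := Real.rpow_le_rpow hY (le_max_right _ _) hp0.le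
  calc ∑ e ∈ E, Gr.sz t lf rf w w' e ^ q
      ≤ ∑ e ∈ E, 2 ^ q * (|dv w e| ^ q + t ^ q * |dv w' e| ^ q) :=
        Finset.sum_le_sum fun e _ => FF_pow hq ht (abs_nonneg _) (abs_nonneg _)
    _ = 2 ^ q * (∑ e ∈ E, |dv w e| ^ q + t ^ q * ∑ e ∈ E, |dv w' e| ^ q) := by
        rw [← Finset.mul_sum, Finset.sum_add_distrib, ← Finset.mul_sum]
    _ ≤ 2 ^ q * (E₁ + t ^ q * E₂) :=
        mul_le_mul_of_nonneg_left (add_le_add h₁ (mul_le_mul_of_nonneg_left h₂ htq)) h2q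
    _ ≤ 2 ^ q * (2 * (max (E₁ ^ (1 / p)) (t ^ (q - 1) * E₂ ^ (1 / p))) ^ p) :=
        mul_le_mul_of_nonneg_left (by linarith) h2q
    _ = _ := by rw [Real.rpow_add_one (by norm_num : (2 : ℝ) ≠ 0)]; ring

/-- the constant -/
def FFc (p q e₀ : ℝ) : ℝ := 4 / Gr.cL q * (2 ^ (q + 1)) ^ (2 / p) / e₀ ^ 2

theorem FFc_pos {p q e₀ : ℝ} (he : 0 < e₀) : 0 < FFc p q e₀ := by
  have h1 := Gr.cL_pos q
  have h2 : (0 : ℝ) < (2 ^ (q + 1)) ^ (2 / p) :=
    Real.rpow_pos_of_pos (Real.rpow_pos_of_pos (by norm_num) _) _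
  unfold FFc
  positivity

/-- (4): the numbers -/
theorem FF_num {p q e₀ S X M : ℝ} (hp : 1 < p) (hp2 : p < 2) (hpq : 1 / p + 1 / q = 1)
    (he : 0 < e₀) (hS : 0 < S) (hM : 0 ≤ M) (h1 : S ≤ 2 ^ (q + 1) * M ^ p)
    (h2 : (e₀ * M) ^ 2 ≤ 4 / Gr.cL q * X * S) : S ^ ((q - 2) / q) ≤ FFc p q e₀ * X := by
  obtain ⟨hq, hqp, hex⟩ := FF_exp hp hp2 hpq
  have hp0 : 0 < p := by linarith
  have hK : (0 : ℝ) < 2 ^ (q + 1) := Real.rpow_pos_of_pos (by norm_num) _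
  have h3 : S ^ (2 / p) ≤ (2 ^ (q + 1)) ^ (2 / p) * M ^ 2 := by
    have h := Real.rpow_le_rpow hS.le h1 (by positivity : 0 ≤ 2 / p)
    rw [Real.mul_rpow hK.le (Real.rpow_nonneg hM _), ← Real.rpow_mul hM,
      show p * (2 / p) = ((2 : ℕ) : ℝ) by push_cast; field_simp, Real.rpow_natCast] at h
    exact h
  have h4 : S ^ (2 / p) = S ^ ((q - 2) / q) * S := by
    rw [← hex, ← Real.rpow_add_one hS.ne']
    congr 1
    ring
  have hK2 : (0 : ℝ) < (2 ^ (q + 1)) ^ (2 / p) := Real.rpow_pos_of_pos hK _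
  have h5 : S ^ ((q - 2) / q) * S ≤ FFc p q e₀ * X * S := by
    rw [← h4]
    calc S ^ (2 / p) ≤ (2 ^ (q + 1)) ^ (2 / p) * M ^ 2 := h3
      _ = (2 ^ (q + 1)) ^ (2 / p) / e₀ ^ 2 * (e₀ * M) ^ 2 := by field_simp
      _ ≤ (2 ^ (q + 1)) ^ (2 / p) / e₀ ^ 2 * (4 / Gr.cL q * X * S) :=
        mul_le_mul_of_nonneg_left h2 (by positivity)
      _ = FFc p q e₀ * X * S := by unfold FFc; ring
  exact le_of_mul_le_mul_right h5 hS

theorem p_FF (hFC : S_FC) (hFE : S_FE) (hXE : S_XE) : S_FF := by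
  intro p q e₀ k hp hp2 hpq he hk
  refine ⟨FFc p q e₀, FFc_pos he, ?_⟩
  intro t N s y u w u' w' φ P P' ht hks hfl hb hb' hc hc' hP hP' hP1 hP2 hP'1 hP'2 hφ hφ' habs
  obtain ⟨hq, hqp, -⟩ := FF_exp hp hp2 hpq
  obtain ⟨-, hA1, hA2, hA3⟩ := hFC p q hp hpq N s y u w hfl hb
  obtain ⟨-, hB1, -, hB3⟩ := hFC p q hp hpq N s y u' w' hfl hb'
  set E₁ := En p (Kept N) u (blk s y) with hE₁
  set E₂ := En p (Kept N) u' (blk s y) with hE₂
  -- powers of three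
  have hh : (0 : ℤ) < 3 ^ (s - k) := by positivity
  have hr1 : (3 : ℤ) ^ (s - k + 1) = 3 * 3 ^ (s - k) := by ring
  have hr2 : (3 : ℤ) * 3 ^ (s - k) ≤ 3 ^ s := by
    rw [← hr1]
    exact pow_le_pow_right₀ (by norm_num) (by omega)
  set h : ℤ := 3 ^ (s - k) with hhd
  -- S is positive
  have hS : 0 < ∑ e ∈ eB (Kept N) (blk s y), Gr.sz t lf rf w w' e ^ q := by
    have h1 : 0 < ∑ e ∈ eB (Kept N) (blk s y), |dv w e| ^ q := by linarith
    refine h1.trans_le (Finset.sum_le_sum fun e _ => ?_)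
    refine Real.rpow_le_rpow (abs_nonneg _) ?_ (by linarith)
    have : 0 ≤ t * |w' (lf e) - w' (rf e)| := mul_nonneg ht (abs_nonneg _)
    unfold Gr.sz dv
    linarith
  have hMn : 0 ≤ max (E₁ ^ (1 / p)) (t ^ (q - 1) * E₂ ^ (1 / p)) :=
    le_max_of_le_left (Real.rpow_nonneg hA3.le _)
  refine FF_num hp hp2 hpq he hS hMn (FF_S hp hp2 hpq ht _ w w' E₁ E₂ hA3.le hB3.le hA1 hB1) ?_
  -- the crossing inequality
  have hsub : clB (y.1 - 3 ^ s + 3 * h) (y.1 + 3 ^ s - 3 * h) (y.2 + 3 * h) (y.2 + 3 ^ s - 3 * h) ⊆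
      opB (y.1 - 3 ^ s + h) (y.1 + 3 ^ s - h) (y.2 + h) (y.2 + 3 ^ s - h) := by
    intro x hx
    simp only [clB, opB, Set.mem_setOf_eq] at hx ⊢
    omega
  have hinn : ∀ f : Pt, f ∈ inn s (s - k) y ↔
      f ∈ box (y.1 - 3 ^ s + h) (y.1 + 3 ^ s - h) (y.2 + h) (y.2 + 3 ^ s - h) := by
    intro f
    unfold inn
    rw [← hhd]
  have hcr : ∀ Q : Set Pt, FConn Q → (∃ f ∈ Q, f ∈ inn s (s - k + 1) y) → (∃ f ∈ Q, f ∉ blk s y) →
      Cross Q (clB (y.1 - 3 ^ s + 3 * h) (y.1 + 3 ^ s - 3 * h) (y.2 + 3 * h) (y.2 + 3 ^ s - 3 * h))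
        (opB (y.1 - 3 ^ s + h) (y.1 + 3 ^ s - h) (y.2 + h) (y.2 + 3 ^ s - h)) := by
    rintro Q hQ ⟨f, hf, hf'⟩ ⟨g, hg, hg'⟩
    refine ⟨hQ, ⟨f, hf, f, ?_, Or.inl rfl, Or.inl rfl⟩, g, hg, g, ?_, Or.inl rfl, Or.inl rfl⟩
    · simp only [inn, box, mem_product, mem_Ico, hr1] at hf'
      simp only [clB, Set.mem_setOf_eq]
      omega
    · simp only [blk, box, mem_product, mem_Ico] at hg'
      simp only [opB, Set.mem_setOf_eq]
      omega
  set E : Finset Ed := (eT (blk s y)).filter (fun e => lf e ∈ inn s (s - k) y ∧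
    rf e ∈ inn s (s - k) y) with hE
  have hXE' := hXE (Kept N) (y.1 - 3 ^ s + 3 * h) (y.1 + 3 ^ s - 3 * h) (y.2 + 3 * h)
    (y.2 + 3 ^ s - 3 * h) (y.1 - 3 ^ s + h) (y.1 + 3 ^ s - h) (y.2 + h) (y.2 + 3 ^ s - h)
    u (fun x => t ^ (q - 1) * u' x) φ
    (e₀ * max (E₁ ^ (1 / p)) (t ^ (q - 1) * E₂ ^ (1 / p))) P P' E
    (by omega) (by omega) hsub (mul_nonneg he.le hMn) ?_ hφ hφ' (hcr P hP hP1 hP2)
    (hcr P' hP' hP'1 hP'2) ?_ ?_
  rotate_left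
  · -- connected vertex sets
    rintro Z hZ ⟨x₀, hx₀, hx₀'⟩ hZ'
    obtain ⟨Z', hZs, hZc, hx₀Z, hZcl, x₁, hx₁, hx₁'⟩ :=
      hFE (Kept N) _ _ _ _ _ _ _ _ Z hsub hZ x₀ hx₀ hx₀' hZ'
    have hZb : Z' ⊆ clB (y.1 - 3 ^ s) (y.1 + 3 ^ s) y.2 (y.2 + 3 ^ s) := by
      intro x hx
      have := hZcl hx
      simp only [clB, Set.mem_setOf_eq] at this ⊢
      omega
    have hdis : h ≤ dis x₀ x₁ := by
      have hb0 := hZcl hx₁
      simp only [clB, opB, Set.mem_setOf_eq, dis] at hx₀' hx₁' hb0 ⊢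
      rw [le_max_iff]
      have a1 := le_abs_self (x₀.1 - x₁.1)
      have a2 := neg_le_abs (x₀.1 - x₁.1)
      have a3 := le_abs_self (x₀.2 - x₁.2)
      have a4 := neg_le_abs (x₀.2 - x₁.2)
      omega
    rcases le_total (t ^ (q - 1) * E₂ ^ (1 / p)) (E₁ ^ (1 / p)) with hm | hm
    · obtain ⟨x, hx, z, hz, hxz⟩ := hc Z' hZc hZb ⟨x₀, hx₀Z, x₁, hx₁, hdis⟩
      refine ⟨x, hZs hx, z, hZs hz, ?_⟩
      rw [max_eq_left hm]
      exact hxz.trans (le_add_of_nonneg_right (abs_nonneg _))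
    · obtain ⟨x, hx, z, hz, hxz⟩ := hc' Z' hZc hZb ⟨x₀, hx₀Z, x₁, hx₁, hdis⟩
      refine ⟨x, hZs hx, z, hZs hz, ?_⟩
      rw [max_eq_right hm]
      have htq : 0 ≤ t ^ (q - 1) := Real.rpow_nonneg ht _
      have e1 : |t ^ (q - 1) * u' x - t ^ (q - 1) * u' z| = t ^ (q - 1) * |u' x - u' z| := by
        rw [← mul_sub, abs_mul, abs_of_nonneg htq]
      have e2 := mul_le_mul_of_nonneg_left hxz htq
      have e3 := abs_nonneg (u x - u z)
      simp only [e1]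
      linarith
  · -- the edges of the open box
    intro e he
    have h1 := FF_near he
    rw [hE, mem_filter, hinn, hinn]
    refine ⟨mem_biUnion.2 ⟨lf e, ?_, FF_side (Or.inl rfl)⟩, h1⟩
    have h2 := h1.1
    simp only [box, blk, mem_product, mem_Ico] at h2 ⊢
    omega
  · -- absent edges
    intro e he hne
    exact habs e (mem_filter.1 he).1 hne
  -- the sum over the present edges of `E`
  have hEF : E.filter (fun e => pres (Kept N) e) =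
      (eB (Kept N) (blk s y)).filter (fun e => lf e ∈ inn s (s - k) y ∧
        rf e ∈ inn s (s - k) y) := by
    rw [hE, eB, filter_filter, filter_filter]
    apply filter_congr
    intro e _
    exact and_comm
  rw [hEF] at hXE'
  set F := (eB (Kept N) (blk s y)).filter (fun e => lf e ∈ inn s (s - k) y ∧
        rf e ∈ inn s (s - k) y) with hF
  have hcw := Gr.cw_lower (q := q) (t := t)
    (κ := e₀ * max (E₁ ^ (1 / p)) (t ^ (q - 1) * E₂ ^ (1 / p))) hq ht (mul_nonneg he.le hMn) F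
    lf rf w w' (fun e => |du u e| + |du (fun x => t ^ (q - 1) * u' x) e|) (fun e => dv φ e) ?_ ?_
  · have hX0 : 0 ≤ 4 / Gr.cL q * ∑ e ∈ F, Gr.cw q t lf rf w w' e * dv φ e ^ 2 :=
      mul_nonneg (div_nonneg (by norm_num) (Gr.cL_pos q).le)
        (Finset.sum_nonneg fun e _ => mul_nonneg (Gr.cw_nonneg hq.le t lf rf w w' e) (sq_nonneg _))
    refine hcw.trans (mul_le_mul_of_nonneg_left ?_ hX0)
    exact Finset.sum_le_sum_of_subset_of_nonneg (filter_subset _ _)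
      fun e _ _ => Real.rpow_nonneg (Gr.sz_nonneg ht lf rf w w' e) _
  · intro e he'
    have hee := (mem_filter.1 he').1
    obtain ⟨heT, hpr⟩ := mem_filter.1 hee
    have h1 := (hb.pr e heT).1 hpr
    have h2 := (hb'.pr e heT).1 hpr
    have h3 : du (fun x => t ^ (q - 1) * u' x) e = t ^ (q - 1) * du u' e := by
      unfold du; ring
    rw [abs_of_nonneg (add_nonneg (abs_nonneg _) (abs_nonneg _)), h3, abs_mul,
      abs_of_nonneg (Real.rpow_nonneg ht _), h1, h2, Gr.abs_phi (by linarith),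
      Gr.abs_phi (by linarith)]
    exact le_rfl
  · refine hXE'.trans (Finset.sum_le_sum fun e _ => ?_)
    rw [abs_of_nonneg (add_nonneg (abs_nonneg (du u e)) (abs_nonneg _))]

end CarpetPI
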