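import Pool.Agent.Lib.MP_1d263a_an.PI.StmF

/-!
# MP_1d263a_an, project PI, piece FG: the lower capacity bound, three sides
-/

open Finset
open scoped Classical

noncomputable section

namespace CarpetPI

/-! ### edges of a box -/

private theorem FG_near {A B C D : ℤ} {e : Ed} (h : tl e ∈ opB A B C D ∨ hd e ∈ opB A B C D) :
    (A ≤ (lf e).1 ∧ (lf e).1 < B ∧ C ≤ (lf e).2 ∧ (lf e).2 < D) ∧
    (A ≤ (rf e).1 ∧ (rf e).1 < B ∧ C ≤ (rf e).2 ∧ (rf e).2 < D) ∧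
    (A ≤ (tl e).1 ∧ (tl e).1 ≤ B ∧ C ≤ (tl e).2 ∧ (tl e).2 ≤ D) := by
  obtain ⟨b, x1, x2⟩ := e
  cases b <;> simp only [opB, Set.mem_ofPred_eq, tl, hd, lf, rf, if_true, if_false,
    Bool.false_eq_true] at h ⊢ <;> rcases h with h | h <;> omega

private theorem FG_edges (A B C D : ℤ) : ∃ E : Finset Ed, ∀ e : Ed,
    e ∈ E ↔ (tl e ∈ opB A B C D ∨ hd e ∈ opB A B C D) := by
  refine ⟨((Finset.univ : Finset Bool) ×ˢ (Finset.Icc A B ×ˢ Finset.Icc C D)).filter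
    (fun e => tl e ∈ opB A B C D ∨ hd e ∈ opB A B C D), fun e => ?_⟩
  rw [Finset.mem_filter, and_iff_right_iff_imp]
  intro h
  have h1 := (FG_near h).2.2
  obtain ⟨b, x1, x2⟩ := e
  simp only [tl] at h1
  simp only [Finset.mem_product, Finset.mem_univ, Finset.mem_Icc, true_and]
  omega

private theorem FG_side {e : Ed} : e ∈ sides (lf e) ∧ e ∈ sides (rf e) := by
  obtain ⟨b, x1, x2⟩ := e
  cases b
  · exact ⟨by simp [sides, lf], by simp [sides, rf]⟩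
  · exact ⟨by simp [sides, lf], by simp [sides, rf]⟩

/-! ### the row of faces in the hole -/

private theorem FG_row (a b c : ℤ) : FConn {f : Pt | f.2 = c ∧ a ≤ f.1 ∧ f.1 < b} := by
  have key : ∀ (n : ℕ) (x : ℤ), a ≤ x → x + n < b →
      Relation.ReflTransGen (fun f g => fadj f g ∧ f ∈ {f : Pt | f.2 = c ∧ a ≤ f.1 ∧ f.1 < b} ∧
        g ∈ {f : Pt | f.2 = c ∧ a ≤ f.1 ∧ f.1 < b}) (x, c) (x + n, c) := by
    intro n
    induction n with
    | zero =>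
      intro x _ _
      have e : ((x + ((0 : ℕ) : ℤ), c) : Pt) = (x, c) := by simp
      rw [e]
    | succ n ih =>
      intro x hx hxb
      push_cast at hxb ⊢
      refine (ih x hx (by omega)).tail ⟨⟨(true, (x + n + 1, c)), Or.inl ⟨?_, ?_⟩⟩, ?_, ?_⟩
      · simp [lf]
      · simp [rf, add_assoc]
      · exact ⟨rfl, by show a ≤ x + n; omega, by show x + n < b; omega⟩
      · exact ⟨rfl, by show a ≤ x + (n + 1); omega, by show x + (n + 1) < b; omega⟩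
  have hsymm : ∀ f g : Pt,
      Relation.ReflTransGen (fun f g => fadj f g ∧ f ∈ {f : Pt | f.2 = c ∧ a ≤ f.1 ∧ f.1 < b} ∧
        g ∈ {f : Pt | f.2 = c ∧ a ≤ f.1 ∧ f.1 < b}) f g →
      Relation.ReflTransGen (fun f g => fadj f g ∧ f ∈ {f : Pt | f.2 = c ∧ a ≤ f.1 ∧ f.1 < b} ∧
        g ∈ {f : Pt | f.2 = c ∧ a ≤ f.1 ∧ f.1 < b}) g f := by
    intro f g h
    induction h with
    | refl => exact Relation.ReflTransGen.refl
    | tail _ hbc ih =>
      obtain ⟨⟨e, he⟩, hf, hg⟩ := hbc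
      exact Relation.ReflTransGen.head ⟨⟨e, he.symm⟩, hg, hf⟩ ih
  rintro ⟨f1, f2⟩ ⟨hf2, hf1a, hf1b⟩ ⟨g1, g2⟩ ⟨hg2, hg1a, hg1b⟩
  simp only at hf2 hf1a hf1b hg2 hg1a hg1b
  subst hf2
  subst hg2
  rcases le_total f1 g1 with h | h
  · obtain ⟨n, hn⟩ := Int.eq_ofNat_of_zero_le (sub_nonneg.2 h)
    have e : g1 = f1 + n := by omega
    rw [e]
    exact key n f1 hf1a (by omega)
  · obtain ⟨n, hn⟩ := Int.eq_ofNat_of_zero_le (sub_nonneg.2 h)
    have e : f1 = g1 + n := by omega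
    rw [e]
    exact hsymm _ _ (key n g1 hg1a (by omega))

/-! ### numbers -/

private theorem FG_add_rpow {q a b : ℝ} (hq : 0 < q) (ha : 0 ≤ a) (hb : 0 ≤ b) :
    (a + b) ^ q ≤ 2 ^ q * (a ^ q + b ^ q) := by
  have h1 : (a + b) ^ q ≤ (2 * max a b) ^ q :=
    Real.rpow_le_rpow (by positivity) (by
      have := le_max_left a b
      have := le_max_right a b
      linarith) hq.le
  rw [Real.mul_rpow (by norm_num) (le_max_of_le_left ha)] at h1
  have h2 : (max a b) ^ q ≤ a ^ q + b ^ q := by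
    have := Real.rpow_nonneg ha q
    have := Real.rpow_nonneg hb q
    rcases le_total a b with h | h
    · rw [max_eq_right h]; linarith
    · rw [max_eq_left h]; linarith
  exact h1.trans (mul_le_mul_of_nonneg_left h2 (by positivity))

private theorem FG_num {p q e₀ t S X E₁ E₂ S₁ S₂ m κ : ℝ} (hp : 1 < p) (hq : 2 < q)
    (hpq : 1 / p + 1 / q = 1) (he : 0 < e₀) (ht : 0 ≤ t) (hS : 0 < S)
    (hE1 : 0 ≤ E₁) (hE2 : 0 ≤ E₂) (h1 : S ≤ 2 ^ q * (S₁ + t ^ q * S₂)) (hS1 : S₁ ≤ E₁) (hS2 : S₂ ≤ E₂)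
    (hm : m = e₀ * max (E₁ ^ (1 / p)) (t ^ (q - 1) * E₂ ^ (1 / p)))
    (hX : m ^ 2 ≤ κ * X * S) :
    S ^ ((q - 2) / q) ≤ κ * (e₀ ^ p / 2 ^ (q + 1)) ^ (-(2 / p)) * X := by
  have hp0 : 0 < p := by linarith
  have hq0 : 0 < q := by linarith
  have hqp : (q - 1) * p = q := by
    field_simp at hpq
    linarith
  have hM0 : 0 ≤ max (E₁ ^ (1 / p)) (t ^ (q - 1) * E₂ ^ (1 / p)) :=
    le_max_of_le_left (Real.rpow_nonneg hE1 _)
  have hm0 : 0 ≤ m := by rw [hm]; positivity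
  have htq : (t ^ (q - 1)) ^ p = t ^ q := by
    rw [← Real.rpow_mul ht, hqp]
  have hE1p : (E₁ ^ (1 / p)) ^ p = E₁ := by
    rw [← Real.rpow_mul hE1, one_div_mul_cancel hp0.ne', Real.rpow_one]
  have hE2p : (E₂ ^ (1 / p)) ^ p = E₂ := by
    rw [← Real.rpow_mul hE2, one_div_mul_cancel hp0.ne', Real.rpow_one]
  have htq0 : 0 ≤ t ^ q := Real.rpow_nonneg ht q
  -- `m ^ p` bounds both energies
  have hmp : m ^ p = e₀ ^ p * (max (E₁ ^ (1 / p)) (t ^ (q - 1) * E₂ ^ (1 / p))) ^ p := by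
    rw [hm, Real.mul_rpow he.le hM0]
  have hep : 0 < e₀ ^ p := Real.rpow_pos_of_pos he p
  have hb1 : E₁ ≤ (max (E₁ ^ (1 / p)) (t ^ (q - 1) * E₂ ^ (1 / p))) ^ p := by
    calc E₁ = (E₁ ^ (1 / p)) ^ p := hE1p.symm
      _ ≤ _ := Real.rpow_le_rpow (Real.rpow_nonneg hE1 _) (le_max_left _ _) hp0.le
  have hb2 : t ^ q * E₂ ≤ (max (E₁ ^ (1 / p)) (t ^ (q - 1) * E₂ ^ (1 / p))) ^ p := by
    calc t ^ q * E₂ = (t ^ (q - 1) * E₂ ^ (1 / p)) ^ p := by
          rw [Real.mul_rpow (Real.rpow_nonneg ht _) (Real.rpow_nonneg hE2 _), htq, hE2p]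
      _ ≤ _ := Real.rpow_le_rpow (mul_nonneg (Real.rpow_nonneg ht _) (Real.rpow_nonneg hE2 _))
          (le_max_right _ _) hp0.le
  have h2q : (0 : ℝ) < 2 ^ q := by positivity
  have h2q1 : (2 : ℝ) ^ (q + 1) = 2 ^ q * 2 := by
    rw [Real.rpow_add (by norm_num), Real.rpow_one]
  set c : ℝ := e₀ ^ p / 2 ^ (q + 1) with hc
  have hc0 : 0 < c := by positivity
  have hSm : c * S ≤ m ^ p := by
    rw [hc, div_mul_eq_mul_div, div_le_iff₀ (by positivity), hmp, h2q1]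
    have h3 : S ≤ 2 ^ q * (2 * (max (E₁ ^ (1 / p)) (t ^ (q - 1) * E₂ ^ (1 / p))) ^ p) := by
      refine h1.trans (mul_le_mul_of_nonneg_left ?_ h2q.le)
      have := mul_le_mul_of_nonneg_left hS2 htq0
      linarith
    calc e₀ ^ p * S ≤ e₀ ^ p * (2 ^ q * (2 * (max (E₁ ^ (1 / p)) (t ^ (q - 1) * E₂ ^ (1 / p))) ^ p)) :=
          mul_le_mul_of_nonneg_left h3 hep.le
      _ = _ := by ring
  have hm2 : (c * S) ^ (2 / p) ≤ m ^ 2 := by
    calc (c * S) ^ (2 / p) ≤ (m ^ p) ^ (2 / p) :=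
          Real.rpow_le_rpow (by positivity) hSm (by positivity)
      _ = m ^ 2 := by
          rw [← Real.rpow_mul hm0, mul_div_cancel₀ _ hp0.ne', ← Real.rpow_natCast]
          norm_num
  have h4 : (c * S) ^ (2 / p) ≤ κ * X * S := hm2.trans hX
  rw [Real.mul_rpow hc0.le hS.le] at h4
  have h5 : S ^ (2 / p) = S ^ ((q - 2) / q) * S := by
    rw [← Real.rpow_add_one hS.ne']
    congr 1
    have e1 : 1 / p = 1 - 1 / q := by linarith
    have e2 : 2 / p = 2 * (1 / p) := by ring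
    rw [e2, e1]
    field_simp
    ring
  rw [h5] at h4
  have h6 : c ^ (2 / p) * S ^ ((q - 2) / q) ≤ κ * X := by
    have h7 : c ^ (2 / p) * S ^ ((q - 2) / q) * S ≤ κ * X * S := by
      calc _ = c ^ (2 / p) * (S ^ ((q - 2) / q) * S) := by ring
        _ ≤ _ := h4
    exact le_of_mul_le_mul_right h7 hS
  have hc2 : 0 < c ^ (2 / p) := Real.rpow_pos_of_pos hc0 _
  rw [Real.rpow_neg hc0.le]
  calc S ^ ((q - 2) / q) = (c ^ (2 / p))⁻¹ * (c ^ (2 / p) * S ^ ((q - 2) / q)) := by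
        rw [← mul_assoc, inv_mul_cancel₀ hc2.ne', one_mul]
    _ ≤ (c ^ (2 / p))⁻¹ * (κ * X) := mul_le_mul_of_nonneg_left h6 (inv_nonneg.2 hc2.le)
    _ = κ * (c ^ (2 / p))⁻¹ * X := by ring

/-! ### the theorem -/

/-- [FG] LOWER CAPACITY BOUND, three sides. -/
theorem p_FG : S_FB → S_FC → S_FE → S_XE → S_FG := by
  intro _ hFC hFE hXE p q e₀ k hp hp2 hpq he hk
  have hp0 : 0 < p := by linarith
  have hq2 : 2 < q := by
    have h1 : 1 / 2 < 1 / p := one_div_lt_one_div_of_lt hp0 hp2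
    have h2 : 1 / p < 1 := by
      rw [div_lt_one hp0]
      exact hp
    have h3 : 0 < 1 / q := by linarith
    have h4 : 0 < q := one_div_pos.1 h3
    have h5 : 1 / q < 1 / 2 := by linarith
    exact (one_div_lt_one_div h4 (by norm_num)).1 h5
  have hq0 : 0 < q := by linarith
  have hq1 : 1 < q := by linarith
  have hcL := Gr.cL_pos q
  refine ⟨4 / Gr.cL q * (e₀ ^ p / 2 ^ (q + 1)) ^ (-(2 / p)), by positivity, ?_⟩
  intro t N s y u w u' w' φ P ht hks hflat hB hB' hC hC' hP hPin hPout hPφ hφ1 habs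
  obtain ⟨hw1, hw2, hw3, hw4⟩ := hFC p q hp hpq N s y u w hflat hB
  obtain ⟨hw1', hw2', _, _⟩ := hFC p q hp hpq N s y u' w' hflat hB'
  set E₁ := En p (Kept N) u (blk s y) with hE₁
  set E₂ := En p (Kept N) u' (blk s y) with hE₂
  have hE₂0 : 0 ≤ E₂ := by
    refine Finset.sum_nonneg fun f _ => Finset.sum_nonneg fun e _ => ?_
    exact Real.rpow_nonneg (abs_nonneg _) _
  obtain ⟨r, hr⟩ : ∃ r, r = s - k := ⟨_, rfl⟩
  have hr1 : s - k + 1 = r + 1 := by omega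
  have hrs : r + 1 ≤ s := by omega
  rw [hr1] at hPin
  rw [← hr]
  have hR1 : (1 : ℤ) ≤ 3 ^ r := one_le_pow₀ (by norm_num)
  have hL : (3 : ℤ) ^ (r + 1) ≤ 3 ^ s := pow_le_pow_right₀ (by norm_num) hrs
  have hR3 : (3 : ℤ) ^ (r + 1) = 3 * 3 ^ r := by ring
  obtain ⟨R, hR⟩ : ∃ R : ℤ, R = 3 ^ r := ⟨_, rfl⟩
  obtain ⟨L, hLL⟩ : ∃ L : ℤ, L = 3 ^ s := ⟨_, rfl⟩
  rw [← hR] at hR1 hR3
  rw [← hLL, hR3] at hL
  -- the edges
  obtain ⟨E, hE⟩ := FG_edges (y.1 - L + R) (y.1 + L - R) (y.2 - 1) (y.2 + L - R)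
  have hhole : ∀ f : Pt, y.1 - L ≤ f.1 → f.1 < y.1 + L → y.2 - L ≤ f.2 → f.2 < y.2 →
      f ∉ Kept N := by
    rw [hLL]
    exact hflat.hol
  have hφ1' : ∀ f : Pt, y.1 - L ≤ f.1 → f.1 < y.1 + L → y.2 - L ≤ f.2 → f.2 < y.2 → φ f = 1 := by
    rw [hLL]
    exact hφ1
  have hins : ∀ f : Pt, f ∈ ins s r y ↔
      (y.1 - L + R ≤ f.1 ∧ f.1 < y.1 + L - R) ∧ y.2 ≤ f.2 ∧ f.2 < y.2 + L - R := by
    intro f
    rw [hLL, hR]
    simp only [ins, box, Finset.mem_product, Finset.mem_Ico]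
  have hins1 : ∀ f : Pt, f ∈ ins s (r + 1) y ↔
      (y.1 - L + 3 * R ≤ f.1 ∧ f.1 < y.1 + L - 3 * R) ∧ y.2 ≤ f.2 ∧ f.2 < y.2 + L - 3 * R := by
    intro f
    rw [← hR3, hLL]
    simp only [ins, box, Finset.mem_product, Finset.mem_Ico]
  have hblk : ∀ f : Pt, f ∈ blk s y ↔
      (y.1 - L ≤ f.1 ∧ f.1 < y.1 + L) ∧ y.2 ≤ f.2 ∧ f.2 < y.2 + L := by
    intro f
    rw [hLL]
    simp only [blk, box, Finset.mem_product, Finset.mem_Ico]
  have hmem : ∀ e ∈ E, pres (Kept N) e → e ∈ (eB (Kept N) (blk s y)).filter (fun e =>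
      (lf e ∈ ins s r y ∨ (lf e).2 < y.2) ∧ (rf e ∈ ins s r y ∨ (rf e).2 < y.2)) := by
    intro e heE hpres
    obtain ⟨⟨l1, l2, l3, l4⟩, ⟨r1, r2, r3, r4⟩, _⟩ := FG_near ((hE e).1 heE)
    have hface : ∀ f : Pt, y.1 - L + R ≤ f.1 → f.1 < y.1 + L - R → y.2 - 1 ≤ f.2 →
        f.2 < y.2 + L - R → (f ∈ ins s r y ∨ f.2 < y.2) := by
      intro f h1 h2 h3 h4
      by_cases h5 : f.2 < y.2
      · exact Or.inr h5
      · exact Or.inl ((hins f).2 ⟨⟨h1, h2⟩, by omega, h4⟩)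
    have hface2 : ∀ f : Pt, y.1 - L + R ≤ f.1 → f.1 < y.1 + L - R → y.2 - 1 ≤ f.2 →
        f.2 < y.2 + L - R → f ∈ Kept N → f ∈ blk s y := by
      intro f h1 h2 h3 h4 hf
      by_cases h5 : f.2 < y.2
      · exact absurd hf (hhole f (by omega) (by omega) (by omega) h5)
      · exact (hblk f).2 ⟨⟨by omega, by omega⟩, by omega, by omega⟩
    rw [Finset.mem_filter]
    refine ⟨?_, hface _ l1 l2 l3 l4, hface _ r1 r2 r3 r4⟩
    rw [eB, Finset.mem_filter, eT, Finset.mem_biUnion]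
    refine ⟨?_, hpres⟩
    rcases hpres with h | h
    · exact ⟨_, hface2 _ l1 l2 l3 l4 h, FG_side.1⟩
    · exact ⟨_, hface2 _ r1 r2 r3 r4 h, FG_side.2⟩
  have habs' : ∀ e ∈ E, ¬ pres (Kept N) e → dv φ e = 0 := by
    intro e heE hpres
    obtain ⟨⟨l1, l2, l3, l4⟩, ⟨r1, r2, r3, r4⟩, _⟩ := FG_near ((hE e).1 heE)
    by_cases hT : e ∈ eT (blk s y)
    · exact habs e hT hpres
    · have h1 : ∀ f : Pt, y.1 - L + R ≤ f.1 → f.1 < y.1 + L - R → y.2 - 1 ≤ f.2 →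
          f.2 < y.2 + L - R → f ∉ blk s y → φ f = 1 := by
        intro f h1 h2 h3 h4 hf
        have h5 : f.2 < y.2 := by
          by_contra h6
          exact hf ((hblk f).2 ⟨⟨by omega, by omega⟩, by omega, by omega⟩)
        exact hφ1' f (by omega) (by omega) (by omega) h5
      have h2 : lf e ∉ blk s y := fun h => hT (by
        rw [eT, Finset.mem_biUnion]
        exact ⟨_, h, FG_side.1⟩)
      have h3 : rf e ∉ blk s y := fun h => hT (by
        rw [eT, Finset.mem_biUnion]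
        exact ⟨_, h, FG_side.2⟩)
      rw [dv, h1 _ l1 l2 l3 l4 h2, h1 _ r1 r2 r3 r4 h3, sub_self]
  have hsub : clB (y.1 - L + 3 * R) (y.1 + L - 3 * R) y.2 (y.2 + L - 3 * R) ⊆
      opB (y.1 - L + R) (y.1 + L - R) (y.2 - 1) (y.2 + L - R) := by
    rintro x ⟨h1, h2, h3, h4⟩
    exact ⟨by omega, by omega, by omega, by omega⟩
  have hm0 : 0 ≤ e₀ * max (E₁ ^ (1 / p)) (t ^ (q - 1) * E₂ ^ (1 / p)) :=
    mul_nonneg he.le (le_max_of_le_left (Real.rpow_nonneg hw4.le _))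
  -- the length-crossing inequality
  have hXE' := hXE (Kept N) (y.1 - L + 3 * R) (y.1 + L - 3 * R) y.2 (y.2 + L - 3 * R)
    (y.1 - L + R) (y.1 + L - R) (y.2 - 1) (y.2 + L - R) u (fun x => t ^ (q - 1) * u' x) φ
    (e₀ * max (E₁ ^ (1 / p)) (t ^ (q - 1) * E₂ ^ (1 / p))) P
    {f : Pt | f.2 = y.2 - 1 ∧ y.1 - L ≤ f.1 ∧ f.1 < y.1 + L} E (by omega) (by omega) hsub hm0
    (by
      rintro Z hZ ⟨x₀, hx₀Z, hx₀⟩ hZout
      obtain ⟨Z', hZ'Z, hZ', hx₀Z', hZ'cl, x₁, hx₁Z', hx₁⟩ := hFE (Kept N) _ _ _ _ _ _ _ _ Z hsub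
        hZ x₀ hx₀Z hx₀ hZout
      have hZ'2 : ∀ z ∈ Z', y.2 ≤ z.2 := by
        intro z hz
        obtain ⟨h1, h2, h3, h4⟩ := hZ'cl hz
        by_contra h5
        obtain ⟨f, hf, hf1, hf2⟩ := hZ'.1 hz
        refine hhole f ?_ ?_ ?_ ?_ hf
        · rcases hf1 with h | h <;> omega
        · rcases hf1 with h | h <;> omega
        · rcases hf2 with h | h <;> omega
        · rcases hf2 with h | h <;> omega
      have hcl : Z' ⊆ clB (y.1 - 3 ^ s) (y.1 + 3 ^ s) y.2 (y.2 + 3 ^ s) := by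
        intro z hz
        obtain ⟨h1, h2, h3, h4⟩ := hZ'cl hz
        rw [← hLL]
        exact ⟨by omega, by omega, hZ'2 z hz, by omega⟩
      have hdis : (3 : ℤ) ^ (s - k) ≤ dis x₀ x₁ := by
        obtain ⟨a1, a2, a3, a4⟩ := hx₀
        obtain ⟨b1, b2, b3, b4⟩ := hZ'cl hx₁Z'
        have b5 := hZ'2 x₁ hx₁Z'
        rw [← hr, ← hR]
        unfold dis
        by_cases c1 : y.1 - L + R < x₁.1
        · by_cases c2 : x₁.1 < y.1 + L - R
          · by_cases c3 : x₁.2 < y.2 + L - R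
            · exact absurd ⟨c1, c2, by omega, c3⟩ hx₁
            · refine le_max_of_le_right ?_
              rw [abs_sub_comm]
              exact le_trans (by omega) (le_abs_self _)
          · refine le_max_of_le_left ?_
            rw [abs_sub_comm]
            exact le_trans (by omega) (le_abs_self _)
        · refine le_max_of_le_left ?_
          exact le_trans (by omega) (le_abs_self _)
      rcases le_total (t ^ (q - 1) * E₂ ^ (1 / p)) (E₁ ^ (1 / p)) with hmax | hmax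
      · obtain ⟨x, hx, z, hz, hxz⟩ := hC Z' hZ' hcl ⟨x₀, hx₀Z', x₁, hx₁Z', hdis⟩
        refine ⟨x, hZ'Z hx, z, hZ'Z hz, ?_⟩
        rw [max_eq_left hmax]
        have := abs_nonneg (t ^ (q - 1) * u' x - t ^ (q - 1) * u' z)
        have h6 : e₀ * E₁ ^ (1 / p) ≤ |u x - u z| := hxz
        show e₀ * E₁ ^ (1 / p) ≤ |u x - u z| + |t ^ (q - 1) * u' x - t ^ (q - 1) * u' z|
        linarith
      · obtain ⟨x, hx, z, hz, hxz⟩ := hC' Z' hZ' hcl ⟨x₀, hx₀Z', x₁, hx₁Z', hdis⟩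
        refine ⟨x, hZ'Z hx, z, hZ'Z hz, ?_⟩
        rw [max_eq_right hmax]
        have h6 : e₀ * E₂ ^ (1 / p) ≤ |u' x - u' z| := hxz
        have h7 := abs_nonneg (u x - u z)
        have htq : 0 ≤ t ^ (q - 1) := Real.rpow_nonneg ht _
        have h8 := mul_le_mul_of_nonneg_left h6 htq
        show e₀ * (t ^ (q - 1) * E₂ ^ (1 / p)) ≤
          |u x - u z| + |t ^ (q - 1) * u' x - t ^ (q - 1) * u' z|
        rw [← mul_sub, abs_mul, abs_of_nonneg htq]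
        nlinarith)
    hPφ
    (by
      rintro f ⟨hf2, hf1, hf1'⟩
      rw [hφ1' f hf1 hf1' (by omega) (by omega)])
    ⟨hP, by
        obtain ⟨f, hf, hf'⟩ := hPin
        obtain ⟨⟨h1, h2⟩, h3, h4⟩ := (hins1 f).1 hf'
        exact ⟨f, hf, f, ⟨by omega, by omega, by omega, by omega⟩, Or.inl rfl, Or.inl rfl⟩, by
        obtain ⟨f, hf, hf', hf2⟩ := hPout
        refine ⟨f, hf, f, ?_, Or.inl rfl, Or.inl rfl⟩
        rintro ⟨h1, h2, h3, h4⟩
        exact hf' ((hblk f).2 ⟨⟨by omega, by omega⟩, by omega, by omega⟩)⟩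
    ⟨FG_row _ _ _, by
        refine ⟨(y.1, y.2 - 1), ⟨rfl, ?_, ?_⟩, y, ⟨?_, ?_, ?_, ?_⟩, Or.inl rfl, Or.inr ?_⟩
        · show y.1 - L ≤ y.1
          omega
        · show y.1 < y.1 + L
          omega
        · omega
        · omega
        · omega
        · omega
        · show y.2 = y.2 - 1 + 1
          omega, by
        refine ⟨(y.1 - L, y.2 - 1), ⟨rfl, le_refl _, ?_⟩, (y.1 - L, y.2 - 1), ?_, Or.inl rfl,
          Or.inl rfl⟩
        · show y.1 - L < y.1 + L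
          omega
        · rintro ⟨h1, _, _, _⟩
          have h2 : y.1 - L + R < y.1 - L := h1
          omega⟩
    (fun e he => (hE e).2 he) habs'
  -- the lower bound
  set F := (eB (Kept N) (blk s y)).filter (fun e =>
      (lf e ∈ ins s r y ∨ (lf e).2 < y.2) ∧ (rf e ∈ ins s r y ∨ (rf e).2 < y.2)) with hF
  have hFT : ∀ e ∈ F, e ∈ eT (blk s y) ∧ pres (Kept N) e := by
    intro e he
    rw [hF, Finset.mem_filter, eB, Finset.mem_filter] at he
    exact he.1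
  have hdu : ∀ e ∈ F, |du u e| + |du (fun x => t ^ (q - 1) * u' x) e| =
      |w (lf e) - w (rf e)| ^ (q - 1) + t ^ (q - 1) * |w' (lf e) - w' (rf e)| ^ (q - 1) := by
    intro e he
    obtain ⟨he1, he2⟩ := hFT e he
    have h1 := (hB.pr e he1).1 he2
    have h2 := (hB'.pr e he1).1 he2
    have h3 : du (fun x => t ^ (q - 1) * u' x) e = t ^ (q - 1) * du u' e := by
      unfold du
      ring
    rw [h3, abs_mul, abs_of_nonneg (Real.rpow_nonneg ht _), h1, h2, Gr.abs_phi hq1, Gr.abs_phi hq1]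
    rfl
  have hstep : e₀ * max (E₁ ^ (1 / p)) (t ^ (q - 1) * E₂ ^ (1 / p)) ≤
      ∑ e ∈ F, |(|du u e| + |du (fun x => t ^ (q - 1) * u' x) e|)| * |φ (lf e) - φ (rf e)| := by
    refine hXE'.trans ?_
    have h1 : ∀ e ∈ E.filter (fun e => pres (Kept N) e),
        (|du u e| + |du (fun x => t ^ (q - 1) * u' x) e|) * |dv φ e| =
        |(|du u e| + |du (fun x => t ^ (q - 1) * u' x) e|)| * |φ (lf e) - φ (rf e)| := by
      intro e _
      rw [abs_of_nonneg (by positivity : (0 : ℝ) ≤ |du u e| + |du (fun x => t ^ (q - 1) * u' x) e|)]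
      rfl
    rw [Finset.sum_congr rfl h1]
    refine Finset.sum_le_sum_of_subset_of_nonneg ?_ fun e _ _ => by positivity
    intro e he
    rw [Finset.mem_filter] at he
    exact hmem e he.1 he.2
  have hlow := Gr.cw_lower hq2 ht hm0 F lf rf w w'
    (fun e => |du u e| + |du (fun x => t ^ (q - 1) * u' x) e|) (fun e => φ (lf e) - φ (rf e))
    (by
      intro e he
      rw [abs_of_nonneg (by positivity : (0 : ℝ) ≤ |du u e| + |du (fun x => t ^ (q - 1) * u' x) e|),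
        hdu e he]) hstep
  have hX0 : 0 ≤ ∑ e ∈ F, Gr.cw q t lf rf w w' e * (φ (lf e) - φ (rf e)) ^ 2 :=
    Finset.sum_nonneg fun e _ => mul_nonneg (Gr.cw_nonneg hq2.le t lf rf w w' e) (sq_nonneg _)
  have hSF : ∑ e ∈ F, Gr.sz t lf rf w w' e ^ q ≤
      ∑ e ∈ eB (Kept N) (blk s y), Gr.sz t lf rf w w' e ^ q :=
    Finset.sum_le_sum_of_subset_of_nonneg (Finset.filter_subset _ _)
      fun e _ _ => Real.rpow_nonneg (Gr.sz_nonneg ht lf rf w w' e) _
  have hX : (e₀ * max (E₁ ^ (1 / p)) (t ^ (q - 1) * E₂ ^ (1 / p))) ^ 2 ≤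
      4 / Gr.cL q * (∑ e ∈ F, Gr.cw q t lf rf w w' e * (φ (lf e) - φ (rf e)) ^ 2) *
        ∑ e ∈ eB (Kept N) (blk s y), Gr.sz t lf rf w w' e ^ q :=
    hlow.trans (mul_le_mul_of_nonneg_left hSF (by positivity))
  -- the sums of the sizes
  have hS1 : ∑ e ∈ eB (Kept N) (blk s y), Gr.sz t lf rf w w' e ^ q ≤
      2 ^ q * (∑ e ∈ eB (Kept N) (blk s y), |dv w e| ^ q +
        t ^ q * ∑ e ∈ eB (Kept N) (blk s y), |dv w' e| ^ q) := by
    rw [Finset.mul_sum, ← Finset.sum_add_distrib, Finset.mul_sum]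
    refine Finset.sum_le_sum fun e _ => ?_
    have h1 := FG_add_rpow hq0 (abs_nonneg (dv w e)) (mul_nonneg ht (abs_nonneg (dv w' e)))
    rw [Real.mul_rpow ht (abs_nonneg _)] at h1
    exact h1
  have hS0 : 0 < ∑ e ∈ eB (Kept N) (blk s y), Gr.sz t lf rf w w' e ^ q := by
    have h1 : 0 < ∑ e ∈ eB (Kept N) (blk s y), |dv w e| ^ q := by linarith
    refine h1.trans_le (Finset.sum_le_sum fun e _ => ?_)
    refine Real.rpow_le_rpow (abs_nonneg _) ?_ hq0.le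
    have h2 : 0 ≤ t * |w' (lf e) - w' (rf e)| := by positivity
    show |w (lf e) - w (rf e)| ≤ |w (lf e) - w (rf e)| + t * |w' (lf e) - w' (rf e)|
    linarith
  exact FG_num hp hq2 hpq he ht hS0 hw4.le hE₂0 hS1 hw2 hw2' rfl hX

end CarpetPI
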