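import Pool.Agent.Lib.MP_1d263a_an.PI.StmF

open Finset
open scoped Classical

noncomputable section

namespace CarpetPI

theorem FI_mem_blk {s : ℕ} {y f : Pt} : f ∈ blk s y ↔
    (y.1 - 3 ^ s ≤ f.1 ∧ f.1 < y.1 + 3 ^ s) ∧ (y.2 ≤ f.2 ∧ f.2 < y.2 + 3 ^ s) := by
  simp only [blk, box, Finset.mem_product, Finset.mem_Ico]

theorem FI_sides (e : Ed) (f : Pt) : e ∈ sides f ↔ lf e = f ∨ rf e = f := by
  obtain ⟨b, i, j⟩ := e
  obtain ⟨a, c⟩ := f
  cases b
  · simp only [sides, Finset.mem_insert, Finset.mem_singleton, Prod.mk.injEq, true_and,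
      reduceCtorEq, false_and, or_false, lf, rf, if_false, Bool.false_eq_true]
    constructor
    · rintro (⟨h1, h2⟩ | ⟨h1, h2⟩)
      · exact Or.inl ⟨h1, h2⟩
      · exact Or.inr ⟨h1, by omega⟩
    · rintro (⟨h1, h2⟩ | ⟨h1, h2⟩)
      · exact Or.inl ⟨h1, h2⟩
      · exact Or.inr ⟨h1, by omega⟩
  · simp only [sides, Finset.mem_insert, Finset.mem_singleton, Prod.mk.injEq, true_and,
      reduceCtorEq, false_and, false_or, lf, rf, if_true]
    constructor
    · rintro (⟨h1, h2⟩ | ⟨h1, h2⟩)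
      · exact Or.inr ⟨h1, h2⟩
      · exact Or.inl ⟨by omega, h2⟩
    · rintro (⟨h1, h2⟩ | ⟨h1, h2⟩)
      · exact Or.inr ⟨by omega, h2⟩
      · exact Or.inl ⟨h1, h2⟩

theorem FI_mem_eT {e : Ed} {B : Finset Pt} : e ∈ eT B ↔ lf e ∈ B ∨ rf e ∈ B := by
  simp only [eT, Finset.mem_biUnion, FI_sides]
  constructor
  · rintro ⟨f, hf, h | h⟩
    · exact Or.inl (h ▸ hf)
    · exact Or.inr (h ▸ hf)
  · rintro (h | h)
    · exact ⟨_, h, Or.inl rfl⟩
    · exact ⟨_, h, Or.inr rfl⟩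

/-- the part of the hole below the block -/
def FI_hl (s : ℕ) (y f : Pt) : Prop :=
  y.1 - 3 ^ s ≤ f.1 ∧ f.1 < y.1 + 3 ^ s ∧ y.2 - 3 ^ s ≤ f.2 ∧ f.2 < y.2

/-- a face of an edge touching the block is not below the line or in the hole -/
theorem FI_face {s : ℕ} {y : Pt} {e : Ed} (he : e ∈ eT (blk s y)) :
    (y.2 ≤ (lf e).2 ∨ FI_hl s y (lf e)) ∧ (y.2 ≤ (rf e).2 ∨ FI_hl s y (rf e)) := by
  have hp : (1:ℤ) ≤ 3 ^ s := one_le_pow₀ (by norm_num)
  rw [FI_mem_eT, FI_mem_blk, FI_mem_blk] at he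
  obtain ⟨b, i, j⟩ := e
  unfold FI_hl
  cases b
  · simp only [lf, rf, Bool.false_eq_true, if_false] at he ⊢
    constructor <;> omega
  · simp only [lf, rf, if_true] at he ⊢
    constructor <;> omega

theorem FI_adj {s : ℕ} {y a b : Pt} (hab : fadj a b) (ha : a ∈ blk s y) :
    y.2 ≤ b.2 ∨ FI_hl s y b := by
  obtain ⟨e, h | h⟩ := hab
  · have := (FI_face (FI_mem_eT.2 (Or.inl (h.1 ▸ ha)) : e ∈ eT (blk s y))).2
    rwa [h.2] at this
  · have := (FI_face (FI_mem_eT.2 (Or.inr (h.2 ▸ ha)) : e ∈ eT (blk s y))).1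
    rwa [h.1] at this

theorem FI_adj_eT {s : ℕ} {y a b : Pt} (hab : fadj a b) (ha : a ∈ blk s y) :
    ∃ e ∈ eT (blk s y), lf e = b ∨ rf e = b := by
  obtain ⟨e, h | h⟩ := hab
  · exact ⟨e, FI_mem_eT.2 (Or.inl (h.1 ▸ ha)), Or.inr h.2⟩
  · exact ⟨e, FI_mem_eT.2 (Or.inr (h.2 ▸ ha)), Or.inl h.1⟩

/-- the part of a connected set of faces up to the first exit -/
theorem FI_exit {B : Finset Pt} {P : Set Pt} (hP : FConn P) {f₀ : Pt} (h0 : f₀ ∈ P) (h0B : f₀ ∈ B)
    (hex : ∃ f ∈ P, f ∉ B) :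
    ∃ P' : Set Pt, FConn P' ∧ f₀ ∈ P' ∧ P' ⊆ P ∧ ∃ b ∈ P', b ∉ B ∧ (∃ a ∈ B, fadj a b) ∧
      ∀ f ∈ P', f ∈ B ∨ f = b := by
  obtain ⟨f₁, h1, h1B⟩ := hex
  set r : Pt → Pt → Prop := fun a b => fadj a b ∧ (a ∈ P ∧ a ∈ B) ∧ (b ∈ P ∧ b ∈ B) with hr
  -- the first exit
  have key : ∀ g, Relation.ReflTransGen (fun a b => fadj a b ∧ a ∈ P ∧ b ∈ P) f₀ g →
      Relation.ReflTransGen r f₀ g ∨ ∃ a b, Relation.ReflTransGen r f₀ a ∧ fadj a b ∧ b ∈ P ∧ b ∉ B ∧ a ∈ B := by
    intro g hg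
    induction hg with
    | refl => exact Or.inl Relation.ReflTransGen.refl
    | tail hab hbc ih =>
      rename_i b c
      rcases ih with ih | ih
      · have hbB : b ∈ P ∧ b ∈ B := by
          rcases Relation.ReflTransGen.cases_tail ih with h | ⟨d, -, h⟩
          · rw [h]; exact ⟨h0, h0B⟩
          · exact h.2.2
        by_cases hc : c ∈ B
        · exact Or.inl (ih.tail ⟨hbc.1, hbB, hbc.2.2, hc⟩)
        · exact Or.inr ⟨b, c, ih, hbc.1, hbc.2.2, hc, hbB.2⟩
      · exact Or.inr ih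
  obtain ⟨a, b, hab, hadj, hbP, hbB, haB⟩ : ∃ a b, Relation.ReflTransGen r f₀ a ∧ fadj a b ∧ b ∈ P ∧ b ∉ B ∧ a ∈ B := by
    rcases key f₁ (hP f₀ h0 f₁ h1) with h | h
    · exfalso
      rcases Relation.ReflTransGen.cases_tail h with h' | ⟨d, -, h'⟩
      · rw [h'] at h1B; exact h1B h0B
      · exact h1B h'.2.2.2
    · exact h
  set W : Set Pt := {g | Relation.ReflTransGen r f₀ g} with hW
  have hWPB : ∀ g ∈ W, g ∈ P ∧ g ∈ B := by
    intro g hg
    rcases Relation.ReflTransGen.cases_tail hg with h | ⟨d, -, h⟩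
    · rw [h]; exact ⟨h0, h0B⟩
    · exact h.2.2
  set P' : Set Pt := W ∪ {b} with hP'
  have hWin : ∀ g ∈ W, Relation.ReflTransGen (fun a b => fadj a b ∧ a ∈ P' ∧ b ∈ P') f₀ g := by
    intro g hg
    induction hg with
    | refl => exact Relation.ReflTransGen.refl
    | tail hab' hbc ih => exact ih.tail ⟨hbc.1, Or.inl hab', Or.inl (hab'.tail hbc)⟩
  have hall : ∀ g ∈ P', Relation.ReflTransGen (fun a b => fadj a b ∧ a ∈ P' ∧ b ∈ P') f₀ g := by
    rintro g (hg | hg)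
    · exact hWin g hg
    · rw [Set.mem_singleton_iff.1 hg]
      exact (hWin a hab).tail ⟨hadj, Or.inl hab, Or.inr rfl⟩
  have hsymm : ∀ x z, Relation.ReflTransGen (fun a b => fadj a b ∧ a ∈ P' ∧ b ∈ P') x z →
      Relation.ReflTransGen (fun a b => fadj a b ∧ a ∈ P' ∧ b ∈ P') z x := by
    intro x z h
    induction h with
    | refl => exact Relation.ReflTransGen.refl
    | tail _ hbc ih =>
      refine Relation.ReflTransGen.head ⟨?_, hbc.2.2, hbc.2.1⟩ ih
      obtain ⟨e, he⟩ := hbc.1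
      exact ⟨e, he.symm⟩
  refine ⟨P', fun x hx z hz => (hsymm _ _ (hall x hx)).trans (hall z hz), Or.inl Relation.ReflTransGen.refl, ?_,
    b, Or.inr rfl, hbB, ⟨a, haB, hadj⟩, ?_⟩
  · rintro g (hg | hg)
    · exact (hWPB g hg).1
    · rw [Set.mem_singleton_iff.1 hg]; exact hbP
  · rintro g (hg | hg)
    · exact Or.inl (hWPB g hg).2
    · exact Or.inr hg

theorem FI_clip (x z : ℝ) : |max 0 (min 1 x) - max 0 (min 1 z)| ≤ |x - z| := by
  calc |max 0 (min 1 x) - max 0 (min 1 z)| ≤ |min 1 x - min 1 z| := by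
        have := abs_max_sub_max_le_abs (min 1 x) (min 1 z) 0
        rwa [max_comm _ (0:ℝ), max_comm _ (0:ℝ)] at this
    _ ≤ |x - z| := by
        have := abs_min_sub_min_le_max 1 x 1 z
        simpa using this

theorem p_FI (hFB : S_FB) (hFC : S_FC) (hFD : S_FD) (hFG : S_FG) : S_FI := by
  intro p q e₀ C₃ hp hp2 hpq he₀ hCut
  have hq2 : 2 < q := by
    have hp0 : 0 < p := by linarith
    have h1 : 1 / 2 < 1 / p := by
      rw [div_lt_div_iff₀ (by norm_num) hp0]; linarith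
    have h2 : 1 / q < 1 / 2 := by linarith
    have hq0 : 0 < q := by
      by_contra hc
      have : 1 / q ≤ 0 := one_div_nonpos.2 (not_lt.1 hc)
      have h3 : 1 / p < 1 := by rw [div_lt_one hp0]; exact hp
      linarith
    rw [div_lt_div_iff₀ hq0 (by norm_num)] at h2
    linarith
  obtain ⟨C, hC, hG⟩ := hFG p q e₀ 2 hp hp2 hpq he₀ (by norm_num)
  set D₃ : ℝ := max C₃ 0 with hD₃
  have hD₃0 : 0 ≤ D₃ := le_max_right _ _
  set B2 : ℝ := C * (6 * ((q - 1) * D₃ ^ (2 / q))) with hB2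
  have hB20 : 0 ≤ B2 := by
    have := Real.rpow_nonneg hD₃0 (2 / q)
    have h3 : 0 ≤ q - 1 := by linarith
    positivity
  set B : ℝ := Real.sqrt B2 with hB
  have hB0 : 0 ≤ B := Real.sqrt_nonneg _
  set c : ℝ := Real.exp (-(B + 1)) / 2 with hc
  have hc0 : 0 < c := by positivity
  have hc1 : c < 1 / 2 := by
    have : Real.exp (-(B + 1)) < 1 := by rw [Real.exp_lt_one_iff]; linarith
    rw [hc]; linarith
  refine ⟨c, hc0, by linarith, ?_⟩
  intro t σ M N s y u w u' w' ht hσ hs hFl hb hb' hcr hcr' hM hle f₀ hf₀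
  by_contra hcon
  rw [not_le] at hcon
  set ψ : Pt → ℝ := fun f => σ * (w f - t * w' f) with hψ
  set M' : ℝ := (1 + c) * M with hM'
  have hM'0 : 0 < M' := by positivity
  have hMM' : M < M' := by rw [hM']; nlinarith
  set g : Pt → ℝ := fun f => M' - max (ψ f) 0 with hg
  set Λ : ℝ := Real.log (M' / (2 * c * M)) with hΛ
  have hΛB : B < Λ := by
    have h1 : Real.exp (B + 1) ≤ M' / (2 * c * M) := by
      rw [le_div_iff₀ (by positivity)]
      have h2 : Real.exp (B + 1) * (2 * c * M) = M := by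
        rw [hc]
        have : Real.exp (B + 1) * Real.exp (-(B + 1)) = 1 := by rw [← Real.exp_add]; simp
        calc Real.exp (B + 1) * (2 * (Real.exp (-(B + 1)) / 2) * M) =
            (Real.exp (B + 1) * Real.exp (-(B + 1))) * M := by ring
          _ = M := by rw [this, one_mul]
      rw [h2]; exact hMM'.le
    have h3 : B + 1 ≤ Λ := by
      rw [hΛ, Real.le_log_iff_exp_le (by positivity)]; exact h1
    linarith
  have hΛ0 : 0 < Λ := lt_of_le_of_lt hB0 hΛB
  -- faces of the edges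
  have hψle : ∀ e ∈ eT (blk s y), ψ (lf e) ≤ M ∧ ψ (rf e) ≤ M := hle
  have hgpos : ∀ f, ψ f ≤ M → 0 < g f ∧ g f ≤ M' := by
    intro f hf
    simp only [hg]
    have h1 : max (ψ f) 0 ≤ M := max_le hf hM.le
    have h2 := le_max_right (ψ f) 0
    constructor <;> linarith
  have hhole : ∀ f, FI_hl s y f → ψ f = 0 := by
    rintro f ⟨h1, h2, h3, h4⟩
    simp only [hψ]
    rw [hb.hol f h1 h2 h3 h4, hb'.hol f h1 h2 h3 h4]; ring
  have hf₀blk : f₀ ∈ blk s y := by
    rw [FI_mem_blk]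
    simp only [ins, box, Finset.mem_product, Finset.mem_Ico] at hf₀
    have : (0:ℤ) < 3 ^ (s - 1) := by positivity
    omega
  have habs : ∀ e ∈ eT (blk s y), ¬ pres (Kept N) e → ψ (lf e) = ψ (rf e) := by
    intro e he hpr
    have h1 := (hb.pr e he).2 hpr
    have h2 := (hb'.pr e he).2 hpr
    unfold dv at h1 h2
    simp only [hψ]
    have e1 : w (lf e) = w (rf e) := by linarith
    have e2 : w' (lf e) = w' (rf e) := by linarith
    rw [e1, e2]
  obtain ⟨hD1, hD2⟩ := hFD q t hq2 ht N s y u w u' w' hb hb'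
  obtain ⟨η, hη0, hη1, hηout, hηbel, hηin, hηabs, hηen⟩ := hCut N s y hFl hs
  set S : ℝ := ∑ e ∈ eB (Kept N) (blk s y), Gr.sz t lf rf w w' e ^ q with hS
  set cwf : Ed → ℝ := Gr.cw q t lf rf w w' with hcwf
  have hcw0 : ∀ e, 0 ≤ cwf e := fun e => Gr.cw_nonneg hq2.le t lf rf w w' e
  have heBT : ∀ e ∈ eB (Kept N) (blk s y), e ∈ eT (blk s y) := fun e he => (Finset.mem_filter.1 he).1
  have hsz0 : ∀ e, 0 ≤ Gr.sz t lf rf w w' e := fun e => Gr.sz_nonneg ht lf rf w w' e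
  -- the test function
  set φ₁ : Pt → ℝ := fun f => if f ∈ blk s y then η f ^ 2 * (1 / g f - 1 / M') else 0 with hφ₁
  have hφ₁eq : ∀ f, (∃ e ∈ eT (blk s y), lf e = f ∨ rf e = f) → φ₁ f = η f ^ 2 * (1 / g f - 1 / M') := by
    rintro f ⟨e, he, hfe⟩
    simp only [hφ₁]
    split_ifs with hfb
    · rfl
    · have hface : y.2 ≤ f.2 ∨ FI_hl s y f := by
        rcases hfe with h | h
        · have := (FI_face he).1; rwa [h] at this
        · have := (FI_face he).2; rwa [h] at this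
      rcases hface with h | h
      · rw [hηout f hfb h]; ring
      · have : g f = M' := by simp only [hg]; rw [hhole f h]; simp
        rw [this]; ring
  have hlin : ∑ e ∈ eB (Kept N) (blk s y), cwf e * (ψ (lf e) - ψ (rf e)) *
      (η (lf e) ^ 2 * (1 / (M' - max (ψ (lf e)) 0) - 1 / M') -
        η (rf e) ^ 2 * (1 / (M' - max (ψ (rf e)) 0) - 1 / M')) = 0 := by
    have h1 := hD1 φ₁ (by intro f hf; simp only [hφ₁]; rw [if_neg hf]) (by
      intro e he hpr
      have hin : lf e ∈ blk s y ∧ rf e ∈ blk s y := by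
        by_contra hcc
        rw [not_and_or] at hcc
        exact hpr ((hFB N s y hFl).2.2 e he hcc)
      have h2 := hηabs e he hpr
      unfold dv at h2
      have e1 : η (lf e) = η (rf e) := by linarith
      have e2 : g (lf e) = g (rf e) := by simp only [hg]; rw [habs e he hpr]
      simp only [dv, hφ₁]
      rw [if_pos hin.1, if_pos hin.2, e1, e2, sub_self])
    have h2 : ∑ e ∈ eB (Kept N) (blk s y), cwf e * (ψ (lf e) - ψ (rf e)) *
      (η (lf e) ^ 2 * (1 / (M' - max (ψ (lf e)) 0) - 1 / M') -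
        η (rf e) ^ 2 * (1 / (M' - max (ψ (rf e)) 0) - 1 / M')) =
        σ * ∑ e ∈ eB (Kept N) (blk s y), Gr.cw q t lf rf w w' e *
      ((w (lf e) - t * w' (lf e)) - (w (rf e) - t * w' (rf e))) * (φ₁ (lf e) - φ₁ (rf e)) := by
      rw [Finset.mul_sum]
      refine Finset.sum_congr rfl fun e he => ?_
      rw [hφ₁eq (lf e) ⟨e, heBT e he, Or.inl rfl⟩, hφ₁eq (rf e) ⟨e, heBT e he, Or.inr rfl⟩]
      simp only [hψ, hg, hcwf]
      ring
    rw [h2, h1, mul_zero]
  have htest := Gr.log_test_M_t (E := eB (Kept N) (blk s y)) (l := lf) (r := rf) (c := cwf) (ψ := ψ) (η := η)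
    (M := M') (fun e _ => hcw0 e)
    (fun e he => ⟨lt_of_le_of_lt (hψle e (heBT e he)).1 hMM', lt_of_le_of_lt (hψle e (heBT e he)).2 hMM'⟩)
    hM'0 hlin
  have hcacc := Gr.log_cacc_M (eB (Kept N) (blk s y)) lf rf cwf g η M' (fun e _ => hcw0 e)
    (fun e he => by
      have h1 := hgpos (lf e) (hψle e (heBT e he)).1
      have h2 := hgpos (rf e) (hψle e (heBT e he)).2
      exact ⟨h1.1, h2.1, h1.2, h2.2⟩) hη0 htest
  -- the upper bound
  set F₁ : Finset Ed := (eB (Kept N) (blk s y)).filter (fun e => y.2 ≤ (lf e).2 ∧ y.2 ≤ (rf e).2) with hF₁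
  have hup : ∑ e ∈ (eB (Kept N) (blk s y)).filter (fun e => g (lf e) < M' ∧ g (rf e) < M'),
      cwf e * (η (lf e) - η (rf e)) ^ 2 ≤ (q - 1) * (S ^ ((q - 2) / q) * D₃ ^ (2 / q)) := by
    have hsub : (eB (Kept N) (blk s y)).filter (fun e => g (lf e) < M' ∧ g (rf e) < M') ⊆ F₁ := by
      intro e he
      obtain ⟨h1, h2, h3⟩ := Finset.mem_filter.1 he
      refine Finset.mem_filter.2 ⟨h1, ?_, ?_⟩
      · rcases (FI_face (heBT e h1)).1 with h | h
        · exact h
        · exfalso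
          have : g (lf e) = M' := by simp only [hg]; rw [hhole _ h]; simp
          linarith
      · rcases (FI_face (heBT e h1)).2 with h | h
        · exact h
        · exfalso
          have : g (rf e) = M' := by simp only [hg]; rw [hhole _ h]; simp
          linarith
    refine (Finset.sum_le_sum_of_subset_of_nonneg hsub
      (fun e _ _ => mul_nonneg (hcw0 e) (sq_nonneg _))).trans ?_
    have h1 := Gr.cw_upper hq2 ht F₁ lf rf w w' (fun e => η (lf e) - η (rf e))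
    refine h1.trans ?_
    refine mul_le_mul_of_nonneg_left ?_ (by linarith)
    have h2 : ∑ e ∈ F₁, Gr.sz t lf rf w w' e ^ q ≤ S :=
      Finset.sum_le_sum_of_subset_of_nonneg (Finset.filter_subset _ _)
        (fun e _ _ => Real.rpow_nonneg (hsz0 e) _)
    have h3 : ∑ e ∈ F₁, |η (lf e) - η (rf e)| ^ q ≤ D₃ := hηen.trans (le_max_left _ _)
    have h4 : 0 ≤ ∑ e ∈ F₁, Gr.sz t lf rf w w' e ^ q :=
      Finset.sum_nonneg fun e _ => Real.rpow_nonneg (hsz0 e) _
    have h5 : 0 ≤ ∑ e ∈ F₁, |η (lf e) - η (rf e)| ^ q :=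
      Finset.sum_nonneg fun e _ => Real.rpow_nonneg (abs_nonneg _) _
    have hx1 : 0 ≤ (q - 2) / q := div_nonneg (by linarith) (by linarith)
    have hx2 : 0 ≤ 2 / q := div_nonneg (by norm_num) (by linarith)
    exact mul_le_mul (Real.rpow_le_rpow h4 h2 hx1) (Real.rpow_le_rpow h5 h3 hx2)
      (Real.rpow_nonneg h5 _) (Real.rpow_nonneg (h4.trans h2) _)
  -- the crossing set
  obtain ⟨P₁, hP₁c, hP₁0, hP₁le, hP₁ex⟩ := hD2 σ (ψ f₀) f₀ hσ hf₀blk le_rfl
  obtain ⟨P, hPc, hP0, hPsub, b, hbP, hbB, ⟨a, haB, hab⟩, hPall⟩ := FI_exit hP₁c hP₁0 hf₀blk hP₁ex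
  have hψP : ∀ f ∈ P, (1 - c) * M < ψ f := fun f hf => lt_of_lt_of_le hcon (hP₁le f (hPsub hf))
  have h1c : 0 < (1 - c) * M := mul_pos (by linarith) hM
  have hPM : ∀ f ∈ P, ψ f ≤ M := by
    intro f hf
    rcases hPall f hf with h | h
    · have he : ((false, f) : Ed) ∈ eT (blk s y) := FI_mem_eT.2 (Or.inl h)
      exact (hψle _ he).1
    · rw [h]
      obtain ⟨e, he, h' | h'⟩ := FI_adj_eT hab haB
      · have := (hψle e he).1; rwa [h'] at this
      · have := (hψle e he).2; rwa [h'] at this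
  set φ : Pt → ℝ := fun f => max 0 (min 1 (Real.log (g f / (2 * c * M)) / Λ)) with hφ
  have h2cM : 0 < 2 * c * M := by positivity
  have hlow := hG t N s y u w u' w' φ P ht hs hFl hb hb' hcr hcr' hPc
    ⟨f₀, hP0, by rw [show s - 2 + 1 = s - 1 by omega]; exact hf₀⟩
    ⟨b, hbP, hbB, by
      rcases FI_adj hab haB with h | h
      · exact h
      · exfalso
        have h1 := hψP b hbP
        rw [hhole b h] at h1
        linarith⟩
    (by
      intro f hf
      have h1 := (hgpos f (hPM f hf)).1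
      have h2 : g f ≤ 2 * c * M := by
        simp only [hg]
        have h3 := hψP f hf
        have h4 := le_max_left (ψ f) 0
        have : M' = M + c * M := by rw [hM']; ring
        nlinarith
      have h3 : Real.log (g f / (2 * c * M)) ≤ 0 :=
        Real.log_nonpos (by positivity) ((div_le_one h2cM).2 h2)
      have h4 : Real.log (g f / (2 * c * M)) / Λ ≤ 0 := div_nonpos_of_nonpos_of_nonneg h3 hΛ0.le
      simp only [hφ]
      exact max_le le_rfl ((min_le_right _ _).trans h4))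
    (by
      intro f h1 h2 h3 h4
      have h5 : g f = M' := by
        simp only [hg]
        rw [hhole f ⟨h1, h2, h3, h4⟩]; simp
      simp only [hφ]
      rw [h5, ← hΛ, div_self hΛ0.ne']
      simp)
    (by
      intro e he hpr
      simp only [dv, hφ, hg]
      rw [habs e he hpr, sub_self])
  have hSpos : 0 < S := by
    obtain ⟨-, -, h3, h4⟩ := hFC p q hp hpq N s y u w hFl hb
    have h5 : 0 < ∑ e ∈ eB (Kept N) (blk s y), |dv w e| ^ q := by linarith
    refine lt_of_lt_of_le h5 (Finset.sum_le_sum fun e _ => ?_)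
    refine Real.rpow_le_rpow (abs_nonneg _) ?_ (by linarith)
    unfold Gr.sz dv
    have : 0 ≤ t * |w' (lf e) - w' (rf e)| := mul_nonneg ht (abs_nonneg _)
    linarith
  have hSp : 0 < S ^ ((q - 2) / q) := Real.rpow_pos_of_pos hSpos _
  have hfin : S ^ ((q - 2) / q) ≤ C * (Λ⁻¹ ^ 2 * (6 * ((q - 1) * (S ^ ((q - 2) / q) * D₃ ^ (2 / q))))) := by
    refine hlow.trans (mul_le_mul_of_nonneg_left ?_ hC.le)
    refine le_trans ?_ (mul_le_mul_of_nonneg_left
      (hcacc.trans (mul_le_mul_of_nonneg_left hup (by norm_num))) (by positivity))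
    rw [Finset.mul_sum]
    refine le_trans ?_ (Finset.sum_le_sum_of_subset_of_nonneg
      (Finset.filter_subset (fun e => (lf e ∈ ins s (s - 2) y ∨ (lf e).2 < y.2) ∧
        (rf e ∈ ins s (s - 2) y ∨ (rf e).2 < y.2)) _)
      (fun e _ _ => mul_nonneg (by positivity) (mul_nonneg (hcw0 e) (mul_nonneg (sq_nonneg _) (sq_nonneg _)))))
    refine Finset.sum_le_sum fun e he => ?_
    obtain ⟨he1, he2, he3⟩ := Finset.mem_filter.1 he
    have heT := heBT e he1
    have m1 : η (lf e) = 1 := by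
      rcases he2 with h | h
      · exact hηin _ h
      · exact hηbel _ h
    have m2 : η (rf e) = 1 := by
      rcases he3 with h | h
      · exact hηin _ h
      · exact hηbel _ h
    rw [m1, m2, min_self, one_pow, one_mul]
    have g1 := (hgpos (lf e) (hψle e heT).1).1
    have g2 := (hgpos (rf e) (hψle e heT).2).1
    have h1 : |φ (lf e) - φ (rf e)| ≤ Λ⁻¹ * |Real.log (g (lf e)) - Real.log (g (rf e))| := by
      simp only [hφ]
      refine (FI_clip _ _).trans (le_of_eq ?_)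
      rw [Real.log_div g1.ne' h2cM.ne', Real.log_div g2.ne' h2cM.ne', ← sub_div,
        show Real.log (g (lf e)) - Real.log (2 * c * M) - (Real.log (g (rf e)) - Real.log (2 * c * M)) =
          Real.log (g (lf e)) - Real.log (g (rf e)) by ring, abs_div, abs_of_pos hΛ0]
      field_simp
    have h2 : (φ (lf e) - φ (rf e)) ^ 2 ≤ Λ⁻¹ ^ 2 * (Real.log (g (lf e)) - Real.log (g (rf e))) ^ 2 := by
      rw [← mul_pow, ← sq_abs (φ (lf e) - φ (rf e)), ← sq_abs (Λ⁻¹ * _), abs_mul, abs_of_pos (inv_pos.2 hΛ0)]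
      exact pow_le_pow_left₀ (abs_nonneg _) h1 2
    calc Gr.cw q t lf rf w w' e * (φ (lf e) - φ (rf e)) ^ 2
        ≤ cwf e * (Λ⁻¹ ^ 2 * (Real.log (g (lf e)) - Real.log (g (rf e))) ^ 2) :=
          mul_le_mul_of_nonneg_left h2 (hcw0 e)
      _ = Λ⁻¹ ^ 2 * (cwf e * (Real.log (g (lf e)) - Real.log (g (rf e))) ^ 2) := by ring
  have h1 : Λ ^ 2 ≤ B2 := by
    have e1 : C * (Λ⁻¹ ^ 2 * (6 * ((q - 1) * (S ^ ((q - 2) / q) * D₃ ^ (2 / q))))) =
        (Λ⁻¹ ^ 2 * B2) * S ^ ((q - 2) / q) := by rw [hB2]; ring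
    rw [e1] at hfin
    have e2 : 1 ≤ Λ⁻¹ ^ 2 * B2 := by
      by_contra hcc
      rw [not_le] at hcc
      nlinarith
    rw [inv_pow, inv_mul_eq_div, one_le_div (by positivity)] at e2
    exact e2
  have h2 : B ^ 2 = B2 := Real.sq_sqrt hB20
  nlinarith

end CarpetPI
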