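import Pool.Agent.Lib.MP_1d263a_an.PI.StmF

/-!
# MP_1d263a_an, project PI, piece FJ: iteration of the decay
-/

open Finset
open scoped Classical

namespace CarpetPI

/-- nine cases -/
theorem FJ_nine (X v : ℤ) (hv : |X| ≤ 9 * v) :
    ∃ b : ℤ, |b| ≤ 4 ∧ |X - 2 * b * v| ≤ v := by
  rw [abs_le] at hv
  obtain ⟨h1, h2⟩ := hv
  by_cases c1 : X ≤ -7 * v
  · exact ⟨-4, by norm_num, by rw [abs_le]; constructor <;> linarith⟩
  by_cases c2 : X ≤ -5 * v
  · exact ⟨-3, by norm_num, by rw [abs_le]; constructor <;> linarith⟩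
  by_cases c3 : X ≤ -3 * v
  · exact ⟨-2, by norm_num, by rw [abs_le]; constructor <;> linarith⟩
  by_cases c4 : X ≤ -v
  · exact ⟨-1, by norm_num, by rw [abs_le]; constructor <;> linarith⟩
  by_cases c5 : X ≤ v
  · exact ⟨0, by norm_num, by rw [abs_le]; constructor <;> linarith⟩
  by_cases c6 : X ≤ 3 * v
  · exact ⟨1, by norm_num, by rw [abs_le]; constructor <;> linarith⟩
  by_cases c7 : X ≤ 5 * v
  · exact ⟨2, by norm_num, by rw [abs_le]; constructor <;> linarith⟩
  by_cases c8 : X ≤ 7 * v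
  · exact ⟨3, by norm_num, by rw [abs_le]; constructor <;> linarith⟩
  exact ⟨4, by norm_num, by rw [abs_le]; constructor <;> linarith⟩

theorem p_FJ : S_FJ := by
  intro y T₀ T c ψ hc0 hc1 hψ l
  induction l with
  | zero =>
    intro i a M hi ha hM hf f hf1 hf2 hf3
    have h3 : (1 : ℤ) ≤ 3 ^ i := one_le_pow₀ (by norm_num)
    rw [abs_le] at hf1
    have e : (1 - c) ^ 0 * M = M := by ring
    rw [e]
    apply hf f
    · linarith [hf1.1]
    · linarith [hf1.2]
    · exact hf2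
    · simp only [Nat.mul_zero, Nat.sub_zero] at hf3
      exact hf3.le
  | succ l ih =>
    intro i a M hi ha hM hf f hf1 hf2 hf3
    have hi2 : 2 ≤ i := by omega
    obtain ⟨j, rfl⟩ : ∃ j, i = j + 2 := ⟨i - 2, by omega⟩
    have hv1 : (1 : ℤ) ≤ 3 ^ j := one_le_pow₀ (by norm_num)
    have e9 : (3 : ℤ) ^ (j + 2) = 9 * 3 ^ j := by ring
    have e3 : (3 : ℤ) ^ (j + 2 - 1) = 3 * 3 ^ j := by
      have : j + 2 - 1 = j + 1 := by omega
      rw [this]; ring
    have key := hψ (j + 2) a M (by omega) ha hM hf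
    obtain ⟨b, hb, hX⟩ := FJ_nine (2 * f.1 + 1 - 2 * (y.1 + a * 3 ^ (j + 2))) (3 ^ j)
      (by rw [← e9]; exact hf1)
    have hM' : 0 < (1 - c) * M := mul_pos (by linarith) hM
    have hb' := abs_le.1 hb
    have := ih j (9 * a + b) ((1 - c) * M) (by omega) ?_ hM' ?_ f ?_ hf2 ?_
    · rw [pow_succ]
      linarith [this, mul_assoc ((1 - c) ^ l) (1 - c) M]
    · have h1 : |9 * a + b| ≤ 9 * |a| + 4 := by
        refine (abs_add_le _ _).trans ?_
        rw [abs_mul]
        have : |(9 : ℤ)| = 9 := by norm_num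
        rw [this]; linarith
      have h2 : |9 * a + b| * 3 ^ j ≤ (9 * |a| + 4) * 3 ^ j :=
        mul_le_mul_of_nonneg_right h1 (by linarith)
      rw [e9] at ha
      nlinarith
    · intro g g1 g2 g3 g4
      obtain ⟨b1, b2⟩ := hb'
      have q1 : (-4) * (3 : ℤ) ^ j ≤ b * 3 ^ j := mul_le_mul_of_nonneg_right b1 (by linarith)
      have q2 : b * (3 : ℤ) ^ j ≤ 4 * 3 ^ j := mul_le_mul_of_nonneg_right b2 (by linarith)
      apply key g
      unfold ins box
      rw [Finset.mem_product, Finset.mem_Ico, Finset.mem_Ico]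
      simp only [e9, e3]
      refine ⟨⟨?_, ?_⟩, g3, ?_⟩
      · linarith
      · linarith
      · linarith
    · have e : 2 * f.1 + 1 - 2 * (y.1 + (9 * a + b) * 3 ^ j) =
        2 * f.1 + 1 - 2 * (y.1 + a * 3 ^ (j + 2)) - 2 * b * 3 ^ j := by rw [e9]; ring
      rw [e]; exact hX
    · have e : j + 2 - 2 * (l + 1) = j - 2 * l := by omega
      rw [e] at hf3; exact hf3

end CarpetPI
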