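import Pool.Agent.Lib.MP_1d263a_an.PI.StmF

/-!
# MP_1d263a_an, project PI, piece FK: upper bound for w
-/

open Finset
open scoped Classical

noncomputable section

namespace CarpetPI

theorem FK_q {p q : ℝ} (hp : 1 < p) (hp2 : p < 2) (hpq : 1 / p + 1 / q = 1) :
    2 < q ∧ (q - 1) * p = q := by
  have hp0 : 0 < p := by linarith
  have hq0 : q ≠ 0 := by
    rintro rfl
    rw [div_zero, add_zero] at hpq
    have : 1 / p < 1 := by rw [div_lt_one hp0]; exact hp
    linarith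
  have h1 : q + p = p * q := by
    field_simp at hpq
    linarith
  have h2 : (q - 1) * p = q := by linarith
  have h3 : (p - 1) * q = p := by linarith
  refine ⟨?_, h2⟩
  by_contra hle
  rw [not_lt] at hle
  have : (p - 1) * q ≤ (p - 1) * 2 := mul_le_mul_of_nonneg_left hle (by linarith)
  linarith

theorem FK_row (x0 x1 c : ℤ) : FConn {g : Pt | x0 ≤ g.1 ∧ g.1 < x1 ∧ g.2 = c} := by
  set P : Set Pt := {g : Pt | x0 ≤ g.1 ∧ g.1 < x1 ∧ g.2 = c} with hP
  have hadj : ∀ i : ℤ, fadj (i, c) (i + 1, c) := by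
    intro i
    refine ⟨(true, (i + 1, c)), Or.inl ⟨?_, ?_⟩⟩
    · simp [lf]
    · simp [rf]
  have hadj' : ∀ i : ℤ, fadj (i + 1, c) (i, c) := by
    intro i
    refine ⟨(true, (i + 1, c)), Or.inr ⟨?_, ?_⟩⟩
    · simp [lf]
    · simp [rf]
  have key : ∀ (n : ℕ) (i : ℤ), x0 ≤ i → i + n < x1 →
      Relation.ReflTransGen (fun a b => fadj a b ∧ a ∈ P ∧ b ∈ P) ((i, c) : Pt) (i + n, c) ∧
      Relation.ReflTransGen (fun a b => fadj a b ∧ a ∈ P ∧ b ∈ P) ((i + n, c) : Pt) (i, c) := by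
    intro n
    induction n with
    | zero =>
      intro i _ _
      simp only [Nat.cast_zero, add_zero]
      exact ⟨Relation.ReflTransGen.refl, Relation.ReflTransGen.refl⟩
    | succ n ih =>
      intro i h0 h1
      push_cast at h1
      obtain ⟨h2, h3⟩ := ih i h0 (by linarith)
      have hm : ((i + n, c) : Pt) ∈ P := ⟨by simp; linarith, by simp; linarith, rfl⟩
      have hm' : ((i + n + 1, c) : Pt) ∈ P := ⟨by simp; linarith, by simp; linarith, rfl⟩
      have he : ((i + ((n + 1 : ℕ) : ℤ), c) : Pt) = (i + n + 1, c) := by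
        push_cast
        rw [add_assoc]
      rw [he]
      exact ⟨h2.tail ⟨hadj _, hm, hm'⟩, Relation.ReflTransGen.head ⟨hadj' _, hm', hm⟩ h3⟩
  intro f hf g hg
  obtain ⟨f1, f2⟩ := f
  obtain ⟨g1, g2⟩ := g
  obtain ⟨a1, a2, a3⟩ := hf
  obtain ⟨b1, b2, b3⟩ := hg
  simp only at a1 a2 a3 b1 b2 b3
  subst a3
  subst b3
  rcases le_total f1 g1 with h | h
  · have := (key (g1 - f1).toNat f1 a1 (by omega)).1
    rwa [show f1 + ((g1 - f1).toNat : ℤ) = g1 by omega] at this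
  · have := (key (f1 - g1).toNat g1 b1 (by omega)).2
    rwa [show g1 + ((f1 - g1).toNat : ℤ) = f1 by omega] at this

theorem FK_sides {f : Pt} {e : Ed} (he : e ∈ sides f) : lf e = f ∨ rf e = f := by
  simp only [sides, Finset.mem_insert, Finset.mem_singleton] at he
  rcases he with rfl | rfl | rfl | rfl
  · left; simp [lf]
  · right; simp [rf]
  · right; simp [rf]
  · left; simp [lf]

theorem FK_eT {B : Finset Pt} {e : Ed} (h : lf e ∈ B ∨ rf e ∈ B) : e ∈ eT B := by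
  rw [eT, Finset.mem_biUnion]
  obtain ⟨b, x1, x2⟩ := e
  rcases h with h | h
  · refine ⟨_, h, ?_⟩
    cases b <;> simp [sides, lf]
  · refine ⟨_, h, ?_⟩
    cases b <;> simp [sides, rf]

theorem p_FK (hFA : S_FA) (hFD : S_FD) (hXL : S_XL) : S_FK := by
  intro p q hp hp2 hpq D
  obtain ⟨hq2, hqp⟩ := FK_q hp hp2 hpq
  obtain ⟨C, hC, hL⟩ := hXL p q D hp hpq 0
  refine ⟨C, hC, ?_⟩
  intro N s y u w hFl hB f hf
  have hv : (1 : ℤ) ≤ 3 ^ s := one_le_pow₀ (by norm_num)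
  have hv3 : (3 : ℤ) ^ (s + 1) = 3 * 3 ^ s := by rw [pow_succ]; ring
  have hFs : Flat N s y := by
    have h := (hFA N (s + 1) y hFl s 0 (by omega) (by simp [hv3])).1
    simpa using h
  have hsub : blk s y ⊆ blk (s + 1) y := by
    have h := (hFA N (s + 1) y hFl s 0 (by omega) (by simp [hv3])).2
    simpa using h
  have hsN : s ≤ N := hFs.hT
  have hfT : f ∈ blk (s + 1) y := hsub hf
  have hy2 : y.2 / 3 ^ s * 3 ^ s = y.2 := Int.ediv_mul_cancel hFs.d2
  have hy1 : y.1 / 3 ^ s * 3 ^ s = y.1 := Int.ediv_mul_cancel hFs.d1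
  have hf' : y.1 - 3 ^ s ≤ f.1 ∧ f.1 < y.1 + 3 ^ s ∧ y.2 ≤ f.2 ∧ f.2 < y.2 + 3 ^ s := by
    simp only [blk, box, Finset.mem_product, Finset.mem_Ico] at hf
    exact ⟨hf.1.1, hf.1.2, hf.2.1, hf.2.2⟩
  -- the cell of f
  obtain ⟨a, haK, ha2, ha1, haf1, haf2⟩ : ∃ a : Pt, a ∈ Kept (N - s) ∧ a.2 * 3 ^ s = y.2 ∧
      (a.1 * 3 ^ s = y.1 ∨ a.1 * 3 ^ s = y.1 - 3 ^ s) ∧ a.1 * 3 ^ s ≤ f.1 ∧
      f.1 < a.1 * 3 ^ s + 3 ^ s := by
    by_cases h : y.1 ≤ f.1
    · exact ⟨_, hFs.cR, hy2, Or.inl hy1, by rw [hy1]; exact h, by rw [hy1]; exact hf'.2.1⟩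
    · refine ⟨_, hFs.cL, hy2, Or.inr ?_, ?_, ?_⟩
      · simp only
        rw [sub_mul, hy1]; ring
      · simp only
        rw [sub_mul, hy1]; linarith [hf'.1]
      · simp only
        rw [sub_mul, hy1]; linarith
  have hholw : ∀ g : Pt, y.1 - 3 * 3 ^ s ≤ g.1 → g.1 < y.1 + 3 * 3 ^ s → y.2 - 3 * 3 ^ s ≤ g.2 →
      g.2 < y.2 → w g = 0 := by
    intro g h1 h2 h3 h4
    exact hB.hol g (by rw [hv3]; exact h1) (by rw [hv3]; exact h2) (by rw [hv3]; exact h3) h4
  have hblk : ∀ g : Pt, g ∈ blk (s + 1) y ↔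
      (y.1 - 3 * 3 ^ s ≤ g.1 ∧ g.1 < y.1 + 3 * 3 ^ s ∧ y.2 ≤ g.2 ∧ g.2 < y.2 + 3 * 3 ^ s) := by
    intro g
    simp only [blk, box, Finset.mem_product, Finset.mem_Ico, hv3]
    tauto
  have hwf : 0 < w f := hB.pos f hfT
  -- the connected set from the level sets
  obtain ⟨P', hP'c, hfP', hP'w, g', hg'P, hg'b⟩ :=
    (hFD q 0 hq2 le_rfl N (s + 1) y u w u w hB hB).2 1 (w f) f (Or.inl rfl) hfT (by simp)
  have hP'w' : ∀ g ∈ P', w f ≤ w g := by
    intro g hg
    have := hP'w g hg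
    simpa using this
  have e1 : (a.1 - 1) * 3 ^ s = a.1 * 3 ^ s - 3 ^ s := by ring
  have e2 : (a.1 + 2) * 3 ^ s = a.1 * 3 ^ s + 2 * 3 ^ s := by ring
  have e3 : (a.2 - 1) * 3 ^ s = a.2 * 3 ^ s - 3 ^ s := by ring
  have e4 : (a.2 + 2) * 3 ^ s = a.2 * 3 ^ s + 2 * 3 ^ s := by ring
  have e5 : (a.1 + 1) * 3 ^ s = a.1 * 3 ^ s + 3 ^ s := by ring
  have e6 : (a.2 + 1) * 3 ^ s = a.2 * 3 ^ s + 3 ^ s := by ring
  have hnbV0 : ∀ x : Pt, x ∈ nbV 0 s a ↔ (a.1 * 3 ^ s ≤ x.1 ∧ x.1 ≤ a.1 * 3 ^ s + 3 ^ s ∧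
      a.2 * 3 ^ s ≤ x.2 ∧ x.2 ≤ a.2 * 3 ^ s + 3 ^ s) := by
    intro x
    simp only [nbV, Set.mem_ofPred_eq, Nat.cast_zero, sub_zero, add_zero, e5, e6]
  have hnbV1 : ∀ x : Pt, x ∈ nbV (0 + 1) s a → (a.1 * 3 ^ s - 3 ^ s ≤ x.1 ∧
      x.1 ≤ a.1 * 3 ^ s + 2 * 3 ^ s ∧
      a.2 * 3 ^ s - 3 ^ s ≤ x.2 ∧ x.2 ≤ a.2 * 3 ^ s + 2 * 3 ^ s) := by
    intro x hx
    obtain ⟨h1, h2, h3, h4⟩ := hx
    push_cast at h1 h2 h3 h4
    refine ⟨by linarith, by linarith, by linarith, by linarith⟩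
  have hop : ∀ x : Pt, x ∈ opB ((a.1 - ((0 : ℕ) + 1)) * 3 ^ s) ((a.1 + ((0 : ℕ) + 2)) * 3 ^ s)
      ((a.2 - ((0 : ℕ) + 1)) * 3 ^ s) ((a.2 + ((0 : ℕ) + 2)) * 3 ^ s) →
      (a.1 * 3 ^ s - 3 ^ s < x.1 ∧ x.1 < a.1 * 3 ^ s + 2 * 3 ^ s ∧
      a.2 * 3 ^ s - 3 ^ s < x.2 ∧ x.2 < a.2 * 3 ^ s + 2 * 3 ^ s) := by
    intro x hx
    obtain ⟨h1, h2, h3, h4⟩ := hx
    push_cast at h1 h2 h3 h4
    refine ⟨by linarith, by linarith, by linarith, by linarith⟩
  set v : ℤ := 3 ^ s with hvdef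
  set P : Set Pt := {g : Pt | y.1 - 3 * v ≤ g.1 ∧ g.1 < y.1 + 3 * v ∧ g.2 = y.2 - 1} with hPdef
  have hmain := hL N s hsN a haK w P P' 0 (w f) hwf.le ?_ ?_ hP'w' ?_ ?_
  · -- the energy
    rw [sub_zero] at hmain
    refine hmain.trans ?_
    refine mul_le_mul_of_nonneg_left ?_ (by linarith)
    have hpt : ∀ g ∈ blk (s + 1) y, g ∈ Kept N → ∑ e ∈ sides g, |dv w e| ^ q = fe p u g := by
      intro g hg hgK
      unfold fe
      refine Finset.sum_congr rfl fun e he => ?_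
      have hl := FK_sides he
      have hpres : pres (Kept N) e := by
        rcases hl with h | h
        · exact Or.inl (by rw [h]; exact hgK)
        · exact Or.inr (by rw [h]; exact hgK)
      have heT : e ∈ eT (blk (s + 1) y) := by
        rw [eT, Finset.mem_biUnion]
        exact ⟨g, hg, he⟩
      rw [(hB.pr e heT).1 hpres, Gr.abs_phi (by linarith), ← Real.rpow_mul (abs_nonneg _), hqp]
    have hsub2 : (nb (0 + 1) s a).filter (· ∈ Kept N) ⊆ (blk (s + 1) y).filter (· ∈ Kept N) := by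
      intro g hg
      rw [Finset.mem_filter] at hg ⊢
      refine ⟨?_, hg.2⟩
      have h1 := hg.1
      simp only [nb, box, Finset.mem_product, Finset.mem_Ico] at h1
      push_cast at h1
      obtain ⟨⟨h1, h2⟩, h3, h4⟩ := h1
      have h1' : a.1 * v - v ≤ g.1 := by linarith
      have h2' : g.1 < a.1 * v + 2 * v := by linarith
      have h3' : a.2 * v - v ≤ g.2 := by linarith
      have h4' : g.2 < a.2 * v + 2 * v := by linarith
      rw [hblk]
      have hge : y.2 ≤ g.2 := by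
        by_contra hlt
        rw [not_le] at hlt
        refine hFl.hol g ?_ ?_ ?_ hlt hg.2
        · rw [hv3]; rcases ha1 with h | h <;> omega
        · rw [hv3]; rcases ha1 with h | h <;> omega
        · rw [hv3]; omega
      rcases ha1 with h | h <;> exact ⟨by omega, by omega, hge, by omega⟩
    unfold EnD En
    refine (Finset.sum_le_sum_of_subset_of_nonneg hsub2 fun _ _ _ =>
      Finset.sum_nonneg fun _ _ => Real.rpow_nonneg (abs_nonneg _) _).trans ?_
    refine le_of_eq (Finset.sum_congr rfl fun g hg => ?_)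
    rw [Finset.mem_filter] at hg
    exact hpt g hg.1 hg.2
  · -- absent edges
    intro e hne htl
    obtain ⟨h1, h2, h3, h4⟩ := hnbV1 _ htl.1
    obtain ⟨k1, k2, k3, k4⟩ := hnbV1 _ htl.2
    obtain ⟨b, x1, x2⟩ := e
    by_cases hx : y.2 ≤ x2
    · refine (hB.pr _ (FK_eT ?_)).2 hne
      cases b
      · left
        simp only [tl, hd, lf, Bool.false_eq_true, if_false] at h1 h2 h3 h4 k1 k2 k3 k4 ⊢
        rw [hblk]
        simp only
        rcases ha1 with h | h <;> exact ⟨by omega, by omega, hx, by omega⟩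
      · right
        simp only [tl, hd, rf, if_true] at h1 h2 h3 h4 k1 k2 k3 k4 ⊢
        rw [hblk]
        simp only
        rcases ha1 with h | h <;> exact ⟨by omega, by omega, hx, by omega⟩
    · rw [not_le] at hx
      unfold dv
      cases b
      · simp only [tl, hd, lf, rf, Bool.false_eq_true, if_false] at h1 h2 h3 h4 k1 k2 k3 k4 ⊢
        rw [hholw, hholw, sub_zero]
        all_goals simp only
        all_goals rcases ha1 with h | h <;> omega
      · simp only [tl, hd, lf, rf, if_true] at h1 h2 h3 h4 k1 k2 k3 k4 ⊢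
        rw [hholw, hholw, sub_zero]
        all_goals simp only
        all_goals rcases ha1 with h | h <;> omega
  · -- w = 0 on P
    intro g hg
    obtain ⟨h1, h2, h3⟩ := hg
    exact le_of_eq (hholw g h1 h2 (by omega) (by omega))
  · -- P crosses
    refine ⟨FK_row _ _ _, ⟨(y.1, y.2 - 1), ?_, (y.1, y.2), ?_, ?_⟩,
      ⟨(y.1 - 3 * v, y.2 - 1), ?_, (y.1 - 3 * v, y.2 - 1), ?_, ?_⟩⟩
    · exact ⟨by simp only; omega, by simp only; omega, rfl⟩
    · rw [hnbV0]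
      simp only
      rcases ha1 with h | h <;> exact ⟨by omega, by omega, by omega, by omega⟩
    · exact ⟨Or.inl rfl, Or.inr (by simp only; omega)⟩
    · exact ⟨by simp only; omega, by simp only; omega, rfl⟩
    · intro hx
      have := (hop _ hx).1
      simp only at this
      rcases ha1 with h | h <;> omega
    · exact ⟨Or.inl rfl, Or.inl rfl⟩
  · -- the level set crosses
    refine ⟨hP'c, ⟨f, hfP', f, ?_, Or.inl rfl, Or.inl rfl⟩, ⟨g', hg'P, g', ?_, Or.inl rfl, Or.inl rfl⟩⟩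
    · rw [hnbV0]
      exact ⟨by omega, by omega, by omega, by omega⟩
    · intro hx
      obtain ⟨h1, h2, h3, h4⟩ := hop _ hx
      apply hg'b
      rw [hblk]
      have hge : y.2 ≤ g'.2 := by
        by_contra hlt
        rw [not_le] at hlt
        have h5 := hP'w' g' hg'P
        have h6 : w g' = 0 := by
          refine hholw g' ?_ ?_ ?_ hlt
          · rcases ha1 with h | h <;> omega
          · rcases ha1 with h | h <;> omega
          · omega
        linarith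
      rcases ha1 with h | h <;> exact ⟨by omega, by omega, hge, by omega⟩

end CarpetPI
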