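import Pool.Agent.Lib.MP_1d263a_an.PI.StmF

/-!
# MP_1d263a_an, project PI, piece FL: Caccioppoli inequality for `w`
-/

open Finset
open scoped Classical

noncomputable section

namespace CarpetPI

/-- the faces of an edge touching a set of faces -/
theorem FL_faces {B : Finset Pt} {e : Ed} (he : e ∈ eT B) {f : Pt} (hf : f = lf e ∨ f = rf e) :
    ∃ g ∈ B, (f.1 = g.1 ∧ g.2 - 1 ≤ f.2 ∧ f.2 ≤ g.2 + 1) ∨
      (f.2 = g.2 ∧ g.1 - 1 ≤ f.1 ∧ f.1 ≤ g.1 + 1) := by
  unfold eT at he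
  rw [Finset.mem_biUnion] at he
  obtain ⟨g, hg, he⟩ := he
  refine ⟨g, hg, ?_⟩
  unfold sides at he
  simp only [Finset.mem_insert, Finset.mem_singleton] at he
  rcases he with rfl | rfl | rfl | rfl <;> rcases hf with rfl | rfl <;>
    simp [lf, rf] <;> omega

theorem FL_blk {s : ℕ} {y g : Pt} : g ∈ blk s y ↔
    y.1 - 3 ^ s ≤ g.1 ∧ g.1 < y.1 + 3 ^ s ∧ y.2 ≤ g.2 ∧ g.2 < y.2 + 3 ^ s := by
  unfold blk box
  rw [Finset.mem_product, Finset.mem_Ico, Finset.mem_Ico]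
  tauto

theorem FL_ins {s r : ℕ} {y g : Pt} : g ∈ ins s r y ↔
    y.1 - 3 ^ s + 3 ^ r ≤ g.1 ∧ g.1 < y.1 + 3 ^ s - 3 ^ r ∧ y.2 ≤ g.2 ∧
      g.2 < y.2 + 3 ^ s - 3 ^ r := by
  unfold ins box
  rw [Finset.mem_product, Finset.mem_Ico, Finset.mem_Ico]
  tauto

theorem FL_pow (s : ℕ) : (1 : ℤ) ≤ 3 ^ s := one_le_pow₀ (by norm_num)

/-- the faces of the edges touching the block which are below the line -/
theorem FL_below {q : ℝ} {N s : ℕ} {y : Pt} {u w : Pt → ℝ} (h : BlP q N s y u w) {e : Ed}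
    (he : e ∈ eT (blk s y)) {f : Pt} (hf : f = lf e ∨ f = rf e) (h2 : f.2 < y.2) : w f = 0 := by
  obtain ⟨g, hg, h1⟩ := FL_faces he hf
  rw [FL_blk] at hg
  have := FL_pow s
  exact h.hol f (by omega) (by omega) (by omega) h2

theorem FL_eT_sub {s : ℕ} {y : Pt} : eT (blk s y) ⊆ eT (blk (s + 1) y) := by
  unfold eT
  apply Finset.biUnion_subset_biUnion_of_subset_left
  intro g hg
  rw [FL_blk] at hg ⊢
  have := FL_pow s
  rw [pow_succ]
  omega

theorem p_FL (hA : S_FA) (hC : S_FC) (hD : S_FD) (hR : S_FR) : S_FL := by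
  intro p q C₃ hp1 hp2 hpq hcut
  -- the exponents
  have hq2 : 2 < q := by
    have h1 : 1 / 2 < 1 / p := one_div_lt_one_div_of_lt (by linarith) hp2
    have h2 : 1 / p < 1 := by rw [div_lt_one (by linarith)]; exact hp1
    have h3 : 0 < 1 / q := by linarith
    have hq0 : 0 < q := one_div_pos.1 h3
    have h4 : 1 / q < 1 / 2 := by linarith
    exact (one_div_lt_one_div hq0 (by norm_num)).1 h4
  have hq1 : 1 < q := by linarith
  obtain ⟨K, hK⟩ : ∃ K : ℝ, K = (max C₃ 0) ^ (2 / q) := ⟨_, rfl⟩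
  have hK0 : 0 ≤ K := by rw [hK]; positivity
  refine ⟨max 1 (16 * (q - 1) * K), le_max_left _ _, ?_⟩
  intro N s y u w S hF hB hS hw
  obtain ⟨η, hη0, hη1, hηout, hηbel, hηins, hηabs, hηC⟩ := hcut N (s + 1) y hF (by omega)
  rw [Nat.add_sub_cancel] at hηins
  have h3s := FL_pow s
  -- the smaller block
  have hle3 : |(0 : ℤ)| * 3 ^ s + 3 ^ s ≤ 3 ^ (s + 1) := by
    rw [abs_zero, pow_succ]; omega
  have ey : ((y.1 + 0 * 3 ^ s, y.2) : Pt) = y := by
    rw [zero_mul, add_zero]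
  have hFs : Flat N s y := by
    have := (hA N (s + 1) y hF s 0 (by omega) hle3).1
    rwa [ey] at this
  have hBs : BlP q N s y u w := by
    have := (hR p q N (s + 1) y u w hF hB s 0 (by omega) hle3).1
    rwa [ey] at this
  obtain ⟨_, hC1, _, _⟩ := hC p q hp1 hpq N (s + 1) y u w hF hB
  obtain ⟨_, _, hC2, _⟩ := hC p q hp1 hpq N s y u w hFs hBs
  -- the test function
  have hφ : ∀ e ∈ eT (blk (s + 1) y), ∀ f, (f = lf e ∨ f = rf e) →
      (if f ∈ blk (s + 1) y then w f * η f ^ 2 else 0) = w f * η f ^ 2 := by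
    intro e he f hf
    split_ifs with h
    · rfl
    · rcases lt_or_ge f.2 y.2 with h2 | h2
      · rw [FL_below hB he hf h2, zero_mul]
      · rw [hηout f h h2]; ring
  have hcw : ∀ e ∈ eB (Kept N) (blk (s + 1) y), 0 ≤ Gr.cw q 0 lf rf w w e := fun e _ =>
    Gr.cw_nonneg hq2.le 0 lf rf w w e
  have hsub : ∀ e ∈ eB (Kept N) (blk (s + 1) y), e ∈ eT (blk (s + 1) y) := fun e he =>
    (Finset.mem_filter.1 he).1
  have h1 := (hD q 0 hq2 le_rfl N (s + 1) y u w u w hB hB).1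
    (fun f => if f ∈ blk (s + 1) y then w f * η f ^ 2 else 0)
    (fun f hf => if_neg hf)
    (by
      intro e he hne
      show (if lf e ∈ blk (s + 1) y then w (lf e) * η (lf e) ^ 2 else 0) -
        (if rf e ∈ blk (s + 1) y then w (rf e) * η (rf e) ^ 2 else 0) = 0
      rw [hφ e he _ (Or.inl rfl), hφ e he _ (Or.inr rfl)]
      have h2 : w (lf e) - w (rf e) = 0 := (hB.pr e he).2 hne
      have h3 : η (lf e) - η (rf e) = 0 := hηabs e he hne
      rw [sub_eq_zero] at h2 h3 ⊢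
      rw [h2, h3])
  have h2 : ∑ e ∈ eB (Kept N) (blk (s + 1) y), Gr.cw q 0 lf rf w w e * (w (lf e) - w (rf e)) *
      (w (lf e) * η (lf e) ^ 2 - w (rf e) * η (rf e) ^ 2) = 0 := by
    refine Eq.trans ?_ h1
    apply Finset.sum_congr rfl
    intro e he
    rw [hφ e (hsub e he) _ (Or.inl rfl), hφ e (hsub e he) _ (Or.inr rfl)]
    ring
  have h3 := Gr.lin_cacc_t (eB (Kept N) (blk (s + 1) y)) lf rf (Gr.cw q 0 lf rf w w) w η hcw hη0 h2
  -- the left side
  have hterm : ∀ e, Gr.cw q 0 lf rf w w e * (min (η (lf e)) (η (rf e)) ^ 2 *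
      (w (lf e) - w (rf e)) ^ 2) = min (η (lf e)) (η (rf e)) ^ 2 * |dv w e| ^ q := by
    intro e
    have e1 := Gr.cst_mul q (w (lf e) - w (rf e)) 0
    rw [Gr.phi_zero, sub_zero, sub_zero] at e1
    have e2 : Gr.cw q 0 lf rf w w e = Gr.cst q (w (lf e) - w (rf e)) 0 := by
      unfold Gr.cw
      rw [zero_mul]
    have e3 : |dv w e| ^ q = phi q (w (lf e) - w (rf e)) * (w (lf e) - w (rf e)) :=
      (Gr.phi_mul_self hq1 _).symm
    rw [e2, e3, ← e1]
    ring
  have h4 : ∑ e ∈ eB (Kept N) (blk s y), |dv w e| ^ q ≤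
      ∑ e ∈ eB (Kept N) (blk (s + 1) y), Gr.cw q 0 lf rf w w e *
        (min (η (lf e)) (η (rf e)) ^ 2 * (w (lf e) - w (rf e)) ^ 2) := by
    have h5 : ∑ e ∈ eB (Kept N) (blk s y), |dv w e| ^ q =
        ∑ e ∈ eB (Kept N) (blk s y), Gr.cw q 0 lf rf w w e *
          (min (η (lf e)) (η (rf e)) ^ 2 * (w (lf e) - w (rf e)) ^ 2) := by
      apply Finset.sum_congr rfl
      intro e he
      have heT : e ∈ eT (blk s y) := (Finset.mem_filter.1 he).1
      have hone : ∀ f, (f = lf e ∨ f = rf e) → η f = 1 := by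
        intro f hf
        rcases lt_or_ge f.2 y.2 with h6 | h6
        · exact hηbel f h6
        · apply hηins
          obtain ⟨g, hg, h7⟩ := FL_faces heT hf
          rw [FL_blk] at hg
          rw [FL_ins, pow_succ]
          omega
      rw [hterm, hone _ (Or.inl rfl), hone _ (Or.inr rfl), min_self, one_pow, one_mul]
    rw [h5]
    apply Finset.sum_le_sum_of_subset_of_nonneg
    · intro e he
      unfold eB at he ⊢
      rw [Finset.mem_filter] at he ⊢
      exact ⟨FL_eT_sub he.1, he.2⟩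
    · intro e he _
      exact mul_nonneg (hcw e he) (by positivity)
  -- the right side
  obtain ⟨E₃, hE₃⟩ : ∃ E₃, E₃ = (eB (Kept N) (blk (s + 1) y)).filter
    (fun e => y.2 ≤ (lf e).2 ∧ y.2 ≤ (rf e).2) := ⟨_, rfl⟩
  rw [← hE₃] at hηC
  have hE₃s : E₃ ⊆ eB (Kept N) (blk (s + 1) y) := by
    rw [hE₃]; exact Finset.filter_subset _ _
  have h5 : ∑ e ∈ (eB (Kept N) (blk (s + 1) y)).filter (fun e => w (lf e) ≠ 0 ∧ w (rf e) ≠ 0),
      Gr.cw q 0 lf rf w w e *
        (max |w (lf e)| |w (rf e)| ^ 2 * (η (lf e) - η (rf e)) ^ 2) ≤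
      S ^ 2 * ∑ e ∈ E₃, Gr.cw q 0 lf rf w w e * (dv η e) ^ 2 := by
    rw [Finset.mul_sum]
    have h6 : ∑ e ∈ (eB (Kept N) (blk (s + 1) y)).filter (fun e => w (lf e) ≠ 0 ∧ w (rf e) ≠ 0),
        Gr.cw q 0 lf rf w w e *
          (max |w (lf e)| |w (rf e)| ^ 2 * (η (lf e) - η (rf e)) ^ 2) ≤
        ∑ e ∈ (eB (Kept N) (blk (s + 1) y)).filter (fun e => w (lf e) ≠ 0 ∧ w (rf e) ≠ 0),
          S ^ 2 * (Gr.cw q 0 lf rf w w e * (dv η e) ^ 2) := by
      apply Finset.sum_le_sum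
      intro e he
      have he1 := (Finset.mem_filter.1 he).1
      obtain ⟨h7, h8⟩ := hw e (hsub e he1)
      have h9 : max |w (lf e)| |w (rf e)| ≤ S := max_le h7 h8
      have h10 : 0 ≤ max |w (lf e)| |w (rf e)| := le_max_of_le_left (abs_nonneg _)
      have h11 : max |w (lf e)| |w (rf e)| ^ 2 ≤ S ^ 2 := by gcongr
      have h12 := hcw e he1
      calc Gr.cw q 0 lf rf w w e *
            (max |w (lf e)| |w (rf e)| ^ 2 * (η (lf e) - η (rf e)) ^ 2)
          ≤ Gr.cw q 0 lf rf w w e * (S ^ 2 * (η (lf e) - η (rf e)) ^ 2) := by gcongr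
        _ = S ^ 2 * (Gr.cw q 0 lf rf w w e * (dv η e) ^ 2) := by unfold dv; ring
    refine h6.trans ?_
    apply Finset.sum_le_sum_of_subset_of_nonneg
    · intro e he
      obtain ⟨he1, he2, he3⟩ := Finset.mem_filter.1 he
      rw [hE₃, Finset.mem_filter]
      refine ⟨he1, ?_, ?_⟩
      · by_contra h7
        exact he2 (FL_below hB (hsub e he1) (Or.inl rfl) (not_le.1 h7))
      · by_contra h7
        exact he3 (FL_below hB (hsub e he1) (Or.inr rfl) (not_le.1 h7))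
    · intro e he _
      exact mul_nonneg (sq_nonneg _) (mul_nonneg (hcw e (hE₃s he)) (sq_nonneg _))
  have h6 := Gr.cw_upper hq2 (le_refl (0 : ℝ)) E₃ lf rf w w (dv η)
  have hsz : ∀ e, Gr.sz 0 lf rf w w e = |dv w e| := by
    intro e
    unfold Gr.sz dv
    rw [zero_mul, add_zero]
  have h7 : ∑ e ∈ E₃, Gr.sz 0 lf rf w w e ^ q ≤ En p (Kept N) u (blk (s + 1) y) := by
    refine le_trans ?_ hC1
    simp only [hsz]
    exact Finset.sum_le_sum_of_subset_of_nonneg hE₃s fun e _ _ => by positivity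
  have h7' : 0 ≤ ∑ e ∈ E₃, Gr.sz 0 lf rf w w e ^ q := by
    simp only [hsz]
    exact Finset.sum_nonneg fun e _ => by positivity
  have h8 : 0 ≤ ∑ e ∈ E₃, |dv η e| ^ q := Finset.sum_nonneg fun e _ => by positivity
  have hex : 0 ≤ (q - 2) / q := div_nonneg (by linarith) (by linarith)
  have h9 : (∑ e ∈ E₃, Gr.sz 0 lf rf w w e ^ q) ^ ((q - 2) / q) *
      (∑ e ∈ E₃, |dv η e| ^ q) ^ (2 / q) ≤
      En p (Kept N) u (blk (s + 1) y) ^ ((q - 2) / q) * K := by
    rw [hK]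
    apply mul_le_mul
    · exact Real.rpow_le_rpow h7' h7 hex
    · exact Real.rpow_le_rpow h8 (hηC.trans (le_max_left _ _)) (by positivity)
    · positivity
    · exact Real.rpow_nonneg (h7'.trans h7) _
  have hEn : 0 ≤ En p (Kept N) u (blk (s + 1) y) ^ ((q - 2) / q) :=
    Real.rpow_nonneg (h7'.trans h7) _
  -- the end
  have h10 : ∑ e ∈ E₃, Gr.cw q 0 lf rf w w e * (dv η e) ^ 2 ≤
      (q - 1) * (En p (Kept N) u (blk (s + 1) y) ^ ((q - 2) / q) * K) := by
    refine h6.trans ?_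
    apply mul_le_mul_of_nonneg_left h9
    linarith
  have h11 : En p (Kept N) u (blk s y) ≤ 2 * (8 * (S ^ 2 * ((q - 1) *
      (En p (Kept N) u (blk (s + 1) y) ^ ((q - 2) / q) * K)))) := by
    refine hC2.trans ?_
    apply mul_le_mul_of_nonneg_left _ (by norm_num)
    refine h4.trans (h3.trans ?_)
    apply mul_le_mul_of_nonneg_left _ (by norm_num)
    refine h5.trans ?_
    exact mul_le_mul_of_nonneg_left h10 (sq_nonneg _)
  refine h11.trans ?_
  have e1 : 2 * (8 * (S ^ 2 * ((q - 1) *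
      (En p (Kept N) u (blk (s + 1) y) ^ ((q - 2) / q) * K)))) =
      (16 * (q - 1) * K) * (S ^ 2 * En p (Kept N) u (blk (s + 1) y) ^ ((q - 2) / q)) := by ring
  rw [e1]
  exact mul_le_mul_of_nonneg_right (le_max_right _ _) (mul_nonneg (sq_nonneg _) hEn)

end CarpetPI
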