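import Pool.Agent.Lib.MP_1d263a_an.PI.StmF

/-!
# MP_1d263a_an, project PI, piece FR: restriction to sub-blocks, monotonicity of the energy
-/

open Finset
open scoped Classical

noncomputable section

namespace CarpetPI

theorem FR_fe_nonneg (p : ℝ) (u : Pt → ℝ) (f : Pt) : 0 ≤ fe p u f :=
  Finset.sum_nonneg (fun _ _ => Real.rpow_nonneg (abs_nonneg _) _)

theorem FR_En_mono (p : ℝ) (K : Set Pt) (u : Pt → ℝ) {G G' : Finset Pt} (h : G ⊆ G') :
    En p K u G ≤ En p K u G' :=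
  Finset.sum_le_sum_of_subset_of_nonneg (Finset.filter_subset_filter _ h)
    (fun f _ _ => FR_fe_nonneg p u f)

theorem p_FR (hFA : S_FA) : S_FR := by
  intro p q N T y u w hF hB s c hs hc
  obtain ⟨-, hsub⟩ := hFA N T y hF s c hs hc
  have h3s : (0 : ℤ) < 3 ^ s := by positivity
  have hle : (3 : ℤ) ^ s ≤ 3 ^ T := pow_le_pow_right₀ (by norm_num) hs
  have hc1 : c * 3 ^ s ≤ |c| * 3 ^ s := mul_le_mul_of_nonneg_right (le_abs_self c) h3s.le
  have hc2 : -(c * 3 ^ s) ≤ |c| * 3 ^ s := by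
    rw [← neg_mul]
    exact mul_le_mul_of_nonneg_right (neg_le_abs c) h3s.le
  refine ⟨⟨?_, ?_, ?_⟩, FR_En_mono p _ u hsub⟩
  · intro e he
    exact hB.pr e (Finset.biUnion_subset_biUnion_of_subset_left _ hsub he)
  · intro f h1 h2 h3 h4
    have h1' : y.1 + c * 3 ^ s - 3 ^ s ≤ f.1 := h1
    have h2' : f.1 < y.1 + c * 3 ^ s + 3 ^ s := h2
    have h3' : y.2 - 3 ^ s ≤ f.2 := h3
    have h4' : f.2 < y.2 := h4
    apply hB.hol f
    · linarith
    · linarith
    · linarith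
    · exact h4'
  · intro f hf
    exact hB.pos f (hsub hf)

end CarpetPI
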