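import Pool.Agent.Lib.MP_1d263a_an.PI.StmF

/-!
# MP_1d263a_an, project PI, part F, piece FS: the facts Endg for a pair
-/

open Finset
open scoped Classical

noncomputable section

namespace CarpetPI

theorem FS_mem_box {a b c d : ℤ} {f : Pt} :
    f ∈ box a b c d ↔ a ≤ f.1 ∧ f.1 < b ∧ c ≤ f.2 ∧ f.2 < d := by
  unfold box
  rw [Finset.mem_product, Finset.mem_Ico, Finset.mem_Ico]
  tauto

theorem FS_mem_blk {s : ℕ} {y f : Pt} :
    f ∈ blk s y ↔ y.1 - 3 ^ s ≤ f.1 ∧ f.1 < y.1 + 3 ^ s ∧ y.2 ≤ f.2 ∧ f.2 < y.2 + 3 ^ s := by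
  unfold blk
  exact FS_mem_box

/-- the position of the faces of the edges touching a block -/
def FS_near (s : ℕ) (y g : Pt) : Prop :=
  (y.1 - 3 ^ s - 1 ≤ g.1 ∧ g.1 ≤ y.1 + 3 ^ s ∧ y.2 ≤ g.2 ∧ g.2 ≤ y.2 + 3 ^ s) ∨
    (y.1 - 3 ^ s ≤ g.1 ∧ g.1 < y.1 + 3 ^ s ∧ g.2 = y.2 - 1)

theorem FS_faces {s : ℕ} {y : Pt} {e : Ed} (he : e ∈ eT (blk s y)) :
    FS_near s y (lf e) ∧ FS_near s y (rf e) := by
  unfold eT at he
  rw [Finset.mem_biUnion] at he
  obtain ⟨f, hf, he⟩ := he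
  rw [FS_mem_blk] at hf
  obtain ⟨h1, h2, h3, h4⟩ := hf
  unfold sides at he
  simp only [Finset.mem_insert, Finset.mem_singleton] at he
  unfold FS_near
  rcases he with rfl | rfl | rfl | rfl
  · simp only [lf, rf, Bool.false_eq_true, if_false]
    constructor
    · left; omega
    · by_cases h : y.2 ≤ f.2 - 1
      · left; omega
      · right; omega
  · simp only [lf, rf, Bool.false_eq_true, if_false]
    constructor
    · left; omega
    · left; omega
  · simp only [lf, rf, if_true]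
    constructor
    · left; omega
    · left; omega
  · simp only [lf, rf, if_true]
    constructor
    · left; omega
    · left; omega

theorem FS_three (s : ℕ) : (1 : ℤ) ≤ 3 ^ s := by
  exact one_le_pow₀ (by norm_num)

theorem FS_succ (s : ℕ) : (3 : ℤ) ^ (s + 1) = 3 * 3 ^ s := by
  rw [pow_succ]; ring

theorem FS_near_succ {s : ℕ} {y g : Pt} (h : FS_near s y g) :
    g ∈ blk (s + 1) y ∨ (y.1 - 3 ^ (s + 1) ≤ g.1 ∧ g.1 < y.1 + 3 ^ (s + 1) ∧
      y.2 - 3 ^ (s + 1) ≤ g.2 ∧ g.2 < y.2) := by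
  have h1 := FS_three s
  have h2 := FS_succ s
  rw [FS_mem_blk]
  unfold FS_near at h
  rcases h with ⟨a, b, c, d⟩ | ⟨a, b, c⟩
  · left
    refine ⟨by linarith, by linarith, c, by linarith⟩
  · right
    refine ⟨by linarith, by linarith, by linarith, by linarith⟩

theorem FS_zero (y : Pt) (s : ℕ) : (y.1 + (0 : ℤ) * 3 ^ s, y.2) = y := by
  rw [zero_mul, add_zero]

theorem FS_mono {s T : ℕ} (h : s ≤ T) : |(0 : ℤ)| * 3 ^ s + 3 ^ s ≤ 3 ^ T := by
  rw [abs_zero, zero_mul, zero_add]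
  exact pow_le_pow_right₀ (by norm_num) h

/-- the real variable part of sup -/
theorem FS_sup {q A' CK E x C : ℝ} (hq : 1 < q) (hA : 1 ≤ A') (hK : 1 ≤ CK) (hE : 0 < E)
    (hx : 0 ≤ x) (h : x ^ q ≤ CK * (A' * E)) (hC : CK * A' ≤ C) : x ≤ C * E ^ (1 / q) := by
  have hq0 : 0 < q := by linarith
  have h1 : (x ^ q) ^ (1 / q) = x := by
    rw [← Real.rpow_mul hx, mul_one_div_cancel hq0.ne', Real.rpow_one]
  have hCK : 1 ≤ CK * A' := by nlinarith
  have h2 : (x ^ q) ^ (1 / q) ≤ (CK * A' * E) ^ (1 / q) := by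
    apply Real.rpow_le_rpow (Real.rpow_nonneg hx q)
    · rw [mul_assoc]; exact h
    · positivity
  rw [h1, Real.mul_rpow (by linarith) hE.le] at h2
  have h3 : (CK * A') ^ (1 / q) ≤ CK * A' := by
    calc (CK * A') ^ (1 / q) ≤ (CK * A') ^ (1 : ℝ) := by
          apply Real.rpow_le_rpow_of_exponent_le hCK
          rw [div_le_one hq0]; exact hq.le
      _ = CK * A' := Real.rpow_one _
  have h4 : 0 ≤ E ^ (1 / q) := Real.rpow_nonneg hE.le _
  calc x ≤ (CK * A') ^ (1 / q) * E ^ (1 / q) := h2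
    _ ≤ C * E ^ (1 / q) := mul_le_mul_of_nonneg_right (h3.trans hC) h4

/-- the real variable part of low -/
theorem FS_low {q A' CL E E' S C : ℝ} (hq : 2 < q) (hA : 1 ≤ A') (hL : 1 ≤ CL) (hE : 0 < E)
    (hE' : 0 ≤ E') (hEE : E' ≤ A' * E) (hS : 0 ≤ S)
    (h : E ≤ CL * (S ^ 2 * E' ^ ((q - 2) / q))) (hC : CL * A' ≤ C) :
    E ^ (1 / q) ≤ C * S := by
  have hq0 : 0 < q := by linarith
  have ha0 : 0 ≤ (q - 2) / q := div_nonneg (by linarith) hq0.le
  have ha1 : (q - 2) / q ≤ 1 := by rw [div_le_one hq0]; linarith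
  have h1 : E' ^ ((q - 2) / q) ≤ A' * E ^ ((q - 2) / q) := by
    calc E' ^ ((q - 2) / q) ≤ (A' * E) ^ ((q - 2) / q) := Real.rpow_le_rpow hE' hEE ha0
      _ = A' ^ ((q - 2) / q) * E ^ ((q - 2) / q) := Real.mul_rpow (by linarith) hE.le
      _ ≤ A' * E ^ ((q - 2) / q) := by
          apply mul_le_mul_of_nonneg_right _ (Real.rpow_nonneg hE.le _)
          calc A' ^ ((q - 2) / q) ≤ A' ^ (1 : ℝ) := Real.rpow_le_rpow_of_exponent_le hA ha1
            _ = A' := Real.rpow_one _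
  have h2 : E = (E ^ (1 / q)) ^ 2 * E ^ ((q - 2) / q) := by
    rw [← Real.rpow_natCast, ← Real.rpow_mul hE.le, ← Real.rpow_add hE]
    have : 1 / q * ((2 : ℕ) : ℝ) + (q - 2) / q = 1 := by
      push_cast
      field_simp
      ring
    rw [this, Real.rpow_one]
  have h3 : 0 < E ^ ((q - 2) / q) := Real.rpow_pos_of_pos hE _
  have h4 : (E ^ (1 / q)) ^ 2 ≤ CL * A' * S ^ 2 := by
    have h5 : (E ^ (1 / q)) ^ 2 * E ^ ((q - 2) / q) ≤ (CL * A' * S ^ 2) * E ^ ((q - 2) / q) := by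
      rw [← h2]
      calc E ≤ CL * (S ^ 2 * E' ^ ((q - 2) / q)) := h
        _ ≤ CL * (S ^ 2 * (A' * E ^ ((q - 2) / q))) := by
            apply mul_le_mul_of_nonneg_left _ (by linarith)
            exact mul_le_mul_of_nonneg_left h1 (sq_nonneg S)
        _ = (CL * A' * S ^ 2) * E ^ ((q - 2) / q) := by ring
    exact le_of_mul_le_mul_right h5 h3
  have hCLA : 1 ≤ CL * A' := by nlinarith
  have hC1 : 1 ≤ C := hCLA.trans hC
  have h6 : (E ^ (1 / q)) ^ 2 ≤ (C * S) ^ 2 := by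
    calc (E ^ (1 / q)) ^ 2 ≤ CL * A' * S ^ 2 := h4
      _ ≤ C * S ^ 2 := mul_le_mul_of_nonneg_right hC (sq_nonneg S)
      _ ≤ C ^ 2 * S ^ 2 := by
          apply mul_le_mul_of_nonneg_right _ (sq_nonneg S)
          nlinarith
      _ = (C * S) ^ 2 := by ring
  exact (le_abs_self _).trans (abs_le_of_sq_le_sq h6 (by positivity))

theorem FS_third {s : ℕ} {y f : Pt} (hf : f ∈ blk s y) : ∃ a : ℤ, |a| ≤ 1 ∧
    |2 * f.1 + 1 - 2 * (y.1 + a * 3 ^ s)| ≤ 3 ^ s := by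
  rw [FS_mem_blk] at hf
  obtain ⟨h1, h2, h3, h4⟩ := hf
  have h5 := FS_three s
  rcases le_or_gt (2 * f.1 + 1 - 2 * y.1) (3 ^ s) with h | h
  · rcases le_or_gt (-(3 ^ s)) (2 * f.1 + 1 - 2 * y.1) with h' | h'
    · refine ⟨0, by norm_num, ?_⟩
      rw [abs_le]
      constructor <;> linarith
    · refine ⟨-1, by norm_num, ?_⟩
      rw [abs_le]
      constructor <;> linarith
  · refine ⟨1, by norm_num, ?_⟩
    rw [abs_le]
    constructor <;> linarith

/-- [FS] the facts `Endg` for a pair. -/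
theorem p_FS (hFA : S_FA) (hFC : S_FC) (hFR : S_FR) (hFV : S_FV) (hFH : S_FH) (hFI : S_FI)
    (hFJ : S_FJ) (hFK : S_FK) (hFL : S_FL) : S_FS := by
  intro p q hp hp2 hpq D H A ε hε
  have hp0 : 0 < p := by linarith
  have hq0 : 0 < q := by
    have h1 : 1 / p < 1 := by rw [div_lt_one hp0]; exact hp
    have h2 : 0 < 1 / q := by linarith
    exact one_div_pos.1 h2
  have hq2 : 2 < q := by
    have h1 : 1 / 2 < 1 / p := one_div_lt_one_div_of_lt hp0 hp2
    have h2 : 1 / q < 1 / 2 := by linarith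
    exact (one_div_lt_one_div hq0 (by norm_num)).1 h2
  obtain ⟨C1, -, hC1⟩ := H p q hp hpq D 1 le_rfl
  obtain ⟨C2, -, hC2⟩ := H p q hp hpq D 2 (by norm_num)
  obtain ⟨c, hc0, hc1, hI⟩ := hFI p q (ε 2) C2 hp hp2 hpq (hε 2) hC2
  obtain ⟨CK, hCK1, hK⟩ := hFK p q hp hp2 hpq D
  obtain ⟨CL, hCL1, hL⟩ := hFL p q C1 hp hp2 hpq hC1
  have hCh : ∀ k : ℕ, ∃ Ch : ℝ, 1 ≤ Ch ∧ (1 ≤ k → ∀ (t δ : ℝ) (N s : ℕ) (y : Pt)
      (u w u' w' : Pt → ℝ),
      0 ≤ t → k ≤ s → Flat N s y → BlP q N s y u w → BlP q N s y u' w' →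
      Crs p (ε k) k N s y u → Crs p (ε k) k N s y u' →
      (∀ e ∈ eT (blk s y), 0 < w (lf e) - t * w' (lf e) + δ ∧ 0 < w (rf e) - t * w' (rf e) + δ) →
      ∀ f ∈ inn s (s - k + 1) y, ∀ f' ∈ inn s (s - k + 1) y,
        w f - t * w' f + δ ≤ Ch * (w f' - t * w' f' + δ)) := by
    intro k
    by_cases hk : 1 ≤ k
    · obtain ⟨C4, hC4, -⟩ := H p q hp hpq D k hk
      obtain ⟨Ch, h1, h2⟩ := hFH p q (ε k) C4 k hp hp2 hpq (hε k) hk hC4
      exact ⟨Ch, h1, fun _ => h2⟩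
    · exact ⟨1, le_rfl, fun h => absurd h hk⟩
  choose Ch hCh1 hCh2 using hCh
  set A' : ℝ := max A 1 with hA'
  have hA'1 : 1 ≤ A' := le_max_right _ _
  have hAA' : A ≤ A' := le_max_left _ _
  have hq1 : 1 < q := by linarith
  have hqi : 0 ≤ 1 / q := by positivity
  refine ⟨c, A' ^ (1 / q), CK * A' + CL * A', Ch, hc0, hc1, Real.one_le_rpow hA'1 hqi,
    by nlinarith, hCh1, ?_⟩
  intro N T₀ T y u w hFl hH
  have hCKA : CK * A' ≤ CK * A' + CL * A' := by nlinarith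
  have hCLA : CL * A' ≤ CK * A' + CL * A' := by nlinarith
  -- sub-blocks with the same centre
  have hFlat : ∀ s, s ≤ T → Flat N s y := by
    intro s hs
    have := (hFA N T y hFl s 0 hs (FS_mono hs)).1
    rwa [FS_zero] at this
  have hBl : ∀ (u w : Pt → ℝ), BlP q N T y u w → ∀ s, s ≤ T → BlP q N s y u w := by
    intro u w h s hs
    have := (hFR p q N T y u w hFl h s 0 hs (FS_mono hs)).1
    rwa [FS_zero] at this
  have hB := hBl u w hH.bl
  have hEpos : ∀ s, s ≤ T → 0 < En p (Kept N) u (blk s y) := fun s hs =>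
    (hFC p q hp hpq N s y u w (hFlat s hs) (hB s hs)).2.2.2
  have hEmono : ∀ s, s < T →
      En p (Kept N) u (blk s y) ≤ En p (Kept N) u (blk (s + 1) y) := by
    intro s hs
    have := (hFR p q N (s + 1) y u w (hFlat (s + 1) hs) (hB (s + 1) hs) s 0 (Nat.le_succ s)
      (FS_mono (Nat.le_succ s))).2
    rwa [FS_zero] at this
  have hgro : ∀ s, T₀ ≤ s → s < T →
      En p (Kept N) u (blk (s + 1) y) ≤ A' * En p (Kept N) u (blk s y) := by
    intro s h1 h2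
    exact (hH.gro s h1 h2).trans
      (mul_le_mul_of_nonneg_right hAA' (hEpos s h2.le).le)
  obtain ⟨hV, -⟩ := hFV p q A ε N T₀ T y u w hp hpq hFl hH
  have hB' := hBl _ _ hV.bl
  have hw0 : ∀ s, s ≤ T → ∀ g : Pt, y.1 - 3 ^ s ≤ g.1 → g.1 < y.1 + 3 ^ s →
      y.2 - 3 ^ s ≤ g.2 → g.2 < y.2 → w g = 0 ∧ w (rfc y g) = 0 := by
    intro s hs g h1 h2 h3 h4
    exact ⟨(hB s hs).hol g h1 h2 h3 h4, (hB' s hs).hol g h1 h2 h3 h4⟩
  refine
    { m_pos := ?_
      m_up := ?_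
      pos := hH.bl.pos
      sup := ?_
      low := ?_
      har := ?_
      bd := ?_ }
  · intro s _ hs
    exact Real.rpow_pos_of_pos (hEpos s hs) _
  · intro s h1 h2
    refine ⟨Real.rpow_le_rpow (hEpos s h2.le).le (hEmono s h2) hqi, ?_⟩
    show En p (Kept N) u (blk (s + 1) y) ^ (1 / q) ≤
      A' ^ (1 / q) * En p (Kept N) u (blk s y) ^ (1 / q)
    rw [← Real.mul_rpow (by linarith) (hEpos s h2.le).le]
    exact Real.rpow_le_rpow (hEpos (s + 1) h2).le (hgro s h1 h2) hqi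
  · intro s h1 h2 f hf
    have h3 := hK N s y u w (hFlat (s + 1) h2) (hB (s + 1) h2) f hf
    have h4 : w f ^ q ≤ CK * (A' * En p (Kept N) u (blk s y)) :=
      h3.trans (mul_le_mul_of_nonneg_left (hgro s h1 h2) (by linarith))
    exact FS_sup hq1 hA'1 hCK1 (hEpos s h2.le) ((hB s h2.le).pos f hf).le h4 hCKA
  · intro s h1 h2
    have hne : (blk (s + 2) y).Nonempty := by
      refine ⟨y, ?_⟩
      rw [FS_mem_blk]
      have := FS_three (s + 2)
      refine ⟨by linarith, by linarith, le_rfl, by linarith⟩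
    obtain ⟨f, hf, hmax⟩ := Finset.exists_max_image (blk (s + 2) y) w hne
    refine ⟨f, hf, ?_⟩
    have hfp : 0 < w f := (hB (s + 2) (by omega)).pos f hf
    have hS : ∀ g : Pt, FS_near (s + 1) y g → |w g| ≤ w f := by
      intro g hg
      rcases FS_near_succ hg with hg | ⟨a1, a2, a3, a4⟩
      · rw [abs_of_pos ((hB (s + 2) (by omega)).pos g hg)]
        exact hmax g hg
      · rw [(hw0 (s + 1 + 1) (by omega) g a1 a2 a3 a4).1, abs_zero]
        exact hfp.le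
    have h3 := hL N s y u w (w f) (hFlat (s + 1) (by omega)) (hB (s + 1) (by omega)) hfp.le
      (fun e he => ⟨hS _ (FS_faces he).1, hS _ (FS_faces he).2⟩)
    exact FS_low hq2 hA'1 hCL1 (hEpos s (by omega)) (hEpos (s + 1) (by omega)).le
      (hgro s h1 (by omega)) hfp.le h3 hCLA
  · intro k s t δ hk hks hsT ht0 ht1 hδ hpos f hf f' hf'
    have hc1 := hH.crs s k 0 hk hks (FS_mono (by omega))
    have hc2 := hV.crs s k 0 hk hks (FS_mono (by omega))
    rw [FS_zero] at hc1 hc2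
    have hP : ∀ g : Pt, FS_near s y g → 0 < w g - t * w (rfc y g) + δ := by
      intro g hg
      rcases FS_near_succ hg with hg | ⟨a1, a2, a3, a4⟩
      · exact hpos g hg
      · obtain ⟨b1, b2⟩ := hw0 (s + 1) hsT g a1 a2 a3 a4
        rw [b1, b2, mul_zero, sub_zero, zero_add]
        exact hδ
    exact hCh2 k hk t δ N s y u w _ _ ht0 (by omega) (hFlat s (by omega)) (hB s (by omega))
      (hB' s (by omega)) hc1 hc2 (fun e he => ⟨hP _ (FS_faces he).1, hP _ (FS_faces he).2⟩)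
      f hf f' hf'
  · intro l s t σ M hls h2s hsT ht0 ht1 hσ hM hb f hf hf2
    obtain ⟨a, ha1, ha2⟩ := FS_third hf
    have hfm := FS_mem_blk.1 hf
    have h3s := FS_three s
    have h3s1 := FS_succ s
    have hloc : ∀ (i : ℕ) (a : ℤ) (M : ℝ), T₀ + 2 ≤ i → |a| * 3 ^ i + 3 ^ i ≤ (3 : ℤ) ^ T →
        0 < M →
        (∀ f : Pt, y.1 + a * 3 ^ i - 3 ^ i - 1 ≤ f.1 → f.1 ≤ y.1 + a * 3 ^ i + 3 ^ i → y.2 ≤ f.2 →
          f.2 ≤ y.2 + 3 ^ i → σ * (w f - t * w (rfc y f)) ≤ M) →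
        ∀ f ∈ ins i (i - 1) (y.1 + a * 3 ^ i, y.2),
          σ * (w f - t * w (rfc y f)) ≤ (1 - c) * M := by
      intro i a M hi ha hM hreg
      have hiT : i ≤ T := by
        have h1 : (3 : ℤ) ^ i ≤ 3 ^ T := by
          have h2 : 0 ≤ |a| * 3 ^ i := mul_nonneg (abs_nonneg a) (by positivity)
          linarith
        exact (pow_le_pow_iff_right₀ (by norm_num : (1 : ℤ) < 3)).1 h1
      have hFi := (hFA N T y hFl i a hiT ha).1
      have hBi := (hFR p q N T y u w hFl hH.bl i a hiT ha).1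
      have hBi' := (hFR p q N T y _ _ hFl hV.bl i a hiT ha).1
      have hci := hH.crs i 2 a (by norm_num) hi ha
      have hci' := hV.crs i 2 a (by norm_num) hi ha
      have hP : ∀ g : Pt, FS_near i (y.1 + a * 3 ^ i, y.2) g →
          σ * (w g - t * w (rfc y g)) ≤ M := by
        intro g hg
        rcases hg with ⟨a1, a2, a3, a4⟩ | ⟨a1, a2, a3⟩
        · exact hreg g a1 a2 a3 a4
        · have h3i := FS_three i
          have b1 := hBi.hol g a1 a2 (by rw [a3]; linarith) (by rw [a3]; linarith)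
          have b2 := hBi'.hol g a1 a2 (by rw [a3]; linarith) (by rw [a3]; linarith)
          rw [b1, b2, mul_zero, sub_zero, mul_zero]
          exact hM.le
      exact hI t σ M N i (y.1 + a * 3 ^ i, y.2) u w _ _ ht0 hσ (by omega) hFi hBi hBi' hci hci'
        hM (fun e he => ⟨hP _ (FS_faces he).1, hP _ (FS_faces he).2⟩)
    have hT : |a| * 3 ^ s + 3 ^ s ≤ (3 : ℤ) ^ T := by
      have h1 : |a| * (3 : ℤ) ^ s ≤ 1 * 3 ^ s :=
        mul_le_mul_of_nonneg_right ha1 (by positivity)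
      have h2 : (3 : ℤ) ^ (s + 1) ≤ 3 ^ T := pow_le_pow_right₀ (by norm_num) hsT
      linarith
    have ha3 : -(3 ^ s) ≤ a * (3 : ℤ) ^ s ∧ a * (3 : ℤ) ^ s ≤ 3 ^ s := by
      rw [abs_le] at ha1
      constructor
      · nlinarith [ha1.1]
      · nlinarith [ha1.2]
    exact hFJ y T₀ T c (fun f => σ * (w f - t * w (rfc y f))) hc0 hc1 hloc l s a M hls hT hM
      (fun g g1 g2 g3 g4 => hb g (by
        rw [FS_mem_blk]
        refine ⟨by linarith [ha3.1], by linarith [ha3.2], g3, by linarith⟩))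
      f ha2 hfm.2.2.1 hf2

end CarpetPI
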