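import Pool.Agent.Lib.MP_1d263a_an.PI.StmF

/-!
# MP_1d263a_an, project PI, piece FT1: lower bound for `w` away from the flat side
-/

open Finset
open scoped Classical

noncomputable section

namespace CarpetPI

theorem FT1_mem_blk {s : ℕ} {y f : Pt} : f ∈ blk s y ↔
    (y.1 - 3 ^ s ≤ f.1 ∧ f.1 < y.1 + 3 ^ s) ∧ (y.2 ≤ f.2 ∧ f.2 < y.2 + 3 ^ s) := by
  unfold blk box
  rw [mem_product, mem_Ico, mem_Ico]

theorem FT1_mem_inn {s r : ℕ} {y f : Pt} : f ∈ inn s r y ↔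
    (y.1 - 3 ^ s + 3 ^ r ≤ f.1 ∧ f.1 < y.1 + 3 ^ s - 3 ^ r) ∧
    (y.2 + 3 ^ r ≤ f.2 ∧ f.2 < y.2 + 3 ^ s - 3 ^ r) := by
  unfold inn box
  rw [mem_product, mem_Ico, mem_Ico]

theorem FT1_pow_le {a b : ℕ} (h : a ≤ b) : (3 : ℤ) ^ a ≤ 3 ^ b :=
  pow_le_pow_right₀ (by norm_num) h

theorem FT1_blk_mono {a b : ℕ} (h : a ≤ b) (y : Pt) : blk a y ⊆ blk b y := by
  intro f hf
  rw [FT1_mem_blk] at hf ⊢
  have := FT1_pow_le h
  omega

theorem FT1_inn {s r : ℕ} {y f : Pt} (hr : r ≤ s + 2) (hf : f ∈ blk (s + 2) y)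
    (h : y.2 + 3 ^ r ≤ f.2) : f ∈ inn (s + 3) r y := by
  rw [FT1_mem_blk] at hf
  rw [FT1_mem_inn]
  have h1 := FT1_pow_le hr
  have h2 : (3 : ℤ) ^ (s + 3) = 3 * 3 ^ (s + 2) := by ring
  have h3 : (0 : ℤ) < 3 ^ (s + 2) := by positivity
  omega

/-- [FT1] lower bound for `w` away from the flat side -/
theorem p_FT1 : S_FT1 := by
  intro c K C Ch hc hc1 hK hC hCh k
  have hC0 : 0 < C := by linarith
  have hK0 : 0 < K := by linarith
  -- the choice of `l₀`
  obtain ⟨l, hl⟩ : ∃ l : ℕ, (1 - c) ^ l * (C ^ 2 * K ^ 3) < 1 := by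
    have hpos : 0 < C ^ 2 * K ^ 3 := by positivity
    obtain ⟨l, hl⟩ := exists_pow_lt_of_lt_one (show (0 : ℝ) < 1 / (C ^ 2 * K ^ 3) by positivity)
      (show 1 - c < 1 by linarith)
    exact ⟨l, (lt_div_iff₀ hpos).1 hl⟩
  have hCk : 0 < Ch (k + 2 * l + 4) := by linarith [hCh (k + 2 * l + 4)]
  refine ⟨1 / (C * Ch (k + 2 * l + 4)), k + 2 * l + 4 + 2 * l + 10, by positivity, ?_⟩
  intro T₀ T y w m hE s hs hsT f hf hf2
  have hms : 0 < m s := hE.m_pos s (by omega) (by omega)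
  -- the growth of `m`
  have hm1 := (hE.m_up s (by omega) (by omega)).2
  have hm2 := (hE.m_up (s + 1) (by omega) (by omega)).2
  have hm3 := (hE.m_up (s + 2) (by omega) (by omega)).2
  have hm3' : 0 < m (s + 3) := hE.m_pos (s + 3) (by omega) (by omega)
  have hm : m (s + 3) ≤ K ^ 3 * m s := by
    calc m (s + 3) ≤ K * m (s + 2) := hm3
      _ ≤ K * (K * m (s + 1)) := mul_le_mul_of_nonneg_left hm2 hK0.le
      _ ≤ K * (K * (K * m s)) :=
          mul_le_mul_of_nonneg_left (mul_le_mul_of_nonneg_left hm1 hK0.le) hK0.le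
      _ = K ^ 3 * m s := by ring
  -- a large value
  obtain ⟨f₁, hf₁, hmf⟩ := hE.low s (by omega) (by omega)
  have hf₁2 : y.2 + 3 ^ (s + 2 - 2 * l) ≤ f₁.2 := by
    by_contra hcon
    push Not at hcon
    have h1 := hE.bd l (s + 2) 0 1 (C * m (s + 3)) (by omega) (by omega) (by omega) le_rfl
      zero_le_one (Or.inl rfl) (by positivity) (fun g hg => by
        rw [zero_mul, sub_zero, one_mul]
        exact hE.sup (s + 3) (by omega) (by omega) g hg) f₁ hf₁ hcon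
    rw [zero_mul, sub_zero, one_mul] at h1
    have h2 : 0 ≤ (1 - c) ^ l := pow_nonneg (by linarith) l
    have h3 : m s ≤ ((1 - c) ^ l * (C ^ 2 * K ^ 3)) * m s := by
      calc m s ≤ C * w f₁ := hmf
        _ ≤ C * ((1 - c) ^ l * (C * m (s + 3))) := mul_le_mul_of_nonneg_left h1 hC0.le
        _ ≤ C * ((1 - c) ^ l * (C * (K ^ 3 * m s))) :=
            mul_le_mul_of_nonneg_left (mul_le_mul_of_nonneg_left
              (mul_le_mul_of_nonneg_left hm hC0.le) h2) hC0.le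
        _ = ((1 - c) ^ l * (C ^ 2 * K ^ 3)) * m s := by ring
    have h4 : ((1 - c) ^ l * (C ^ 2 * K ^ 3)) * m s < 1 * m s :=
      mul_lt_mul_of_pos_right hl hms
    linarith
  -- Harnack
  have hwpos : ∀ g ∈ blk (s + 4) y, 0 < w g := fun g hg =>
    hE.pos g (FT1_blk_mono (by omega) y hg)
  have hin₁ : f₁ ∈ inn (s + 3) (s + 3 - (k + 2 * l + 4) + 1) y := by
    refine FT1_inn (by omega) hf₁ (le_trans ?_ hf₁2)
    have := FT1_pow_le (show s + 3 - (k + 2 * l + 4) + 1 ≤ s + 2 - 2 * l by omega)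
    omega
  have hin : f ∈ inn (s + 3) (s + 3 - (k + 2 * l + 4) + 1) y := by
    refine FT1_inn (by omega) hf (le_trans ?_ hf2)
    have := FT1_pow_le (show s + 3 - (k + 2 * l + 4) + 1 ≤ s - k by omega)
    omega
  have hhar : ∀ δ : ℝ, 0 < δ → w f₁ + δ ≤ Ch (k + 2 * l + 4) * (w f + δ) := by
    intro δ hδ
    have h1 := hE.har (k + 2 * l + 4) (s + 3) 0 δ (by omega) (by omega) (by omega) le_rfl
      zero_le_one hδ (fun g hg => by
        rw [zero_mul, sub_zero]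
        linarith [hwpos g hg]) f₁ hin₁ f hin
    rw [zero_mul, zero_mul, sub_zero, sub_zero] at h1
    exact h1
  have hle : w f₁ ≤ Ch (k + 2 * l + 4) * w f := by
    by_contra hcon
    push Not at hcon
    have h1 := hhar ((w f₁ - Ch (k + 2 * l + 4) * w f) / (2 * Ch (k + 2 * l + 4)))
      (div_pos (by linarith) (by linarith))
    have h2 : Ch (k + 2 * l + 4) * ((w f₁ - Ch (k + 2 * l + 4) * w f) /
        (2 * Ch (k + 2 * l + 4))) = (w f₁ - Ch (k + 2 * l + 4) * w f) / 2 := by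
      field_simp
    have h3 : 0 < (w f₁ - Ch (k + 2 * l + 4) * w f) / (2 * Ch (k + 2 * l + 4)) :=
      div_pos (by linarith) (by linarith)
    rw [mul_add, h2] at h1
    linarith
  rw [one_div, inv_mul_le_iff₀ (by positivity)]
  calc m s ≤ C * w f₁ := hmf
    _ ≤ C * (Ch (k + 2 * l + 4) * w f) := mul_le_mul_of_nonneg_left hle hC0.le
    _ = C * Ch (k + 2 * l + 4) * w f := by ring

end CarpetPI
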