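import Pool.Agent.Lib.MP_1d263a_an.PI.StmF

/-!
# MP_1d263a_an, project PI, piece FT2: pigeonhole
-/

open Finset
open scoped Classical

noncomputable section

namespace CarpetPI

theorem p_FT2 : S_FT2 := by
  intro ε m₀ r hε hr s₀ a ha
  by_contra hcon
  push Not at hcon
  have key : ∀ k : ℕ, k ≤ r + 1 → ∃ j, s₀ ≤ j ∧ j ≤ s₀ + k * m₀ ∧ a j ≤ 1 - k * ε := by
    intro k
    induction k with
    | zero =>
      intro _
      refine ⟨s₀, le_rfl, by omega, ?_⟩
      have := (ha s₀ le_rfl (Nat.le_add_right _ _)).2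
      simpa using this
    | succ k ih =>
      intro hk
      obtain ⟨j, hj1, hj2, hj3⟩ := ih (by omega)
      have hkm : k * m₀ ≤ r * m₀ := Nat.mul_le_mul_right _ (by omega)
      obtain ⟨i, hi1, hi2, hi3⟩ := hcon j hj1 (by omega)
      refine ⟨i, by omega, ?_, ?_⟩
      · have : (k + 1) * m₀ = k * m₀ + m₀ := by ring
        omega
      · push_cast
        linarith
  obtain ⟨j, hj1, hj2, hj3⟩ := key (r + 1) le_rfl
  have h0 := (ha j hj1 hj2).1
  push_cast at hj3
  have h1 : (1 / ε + 1) * ε ≤ (r : ℝ) * ε := mul_le_mul_of_nonneg_right hr hε.le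
  have h2 : (1 / ε + 1) * ε = 1 + ε := by
    field_simp
  nlinarith

end CarpetPI
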