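import Pool.Agent.Lib.MP_1d263a_an.PI.StmF

/-! Piece FT3 of part F of the carpet project: the one-sided bound in a window. -/

open Finset
open scoped Classical

noncomputable section

namespace CarpetPI

private theorem FT3_mem_blk (s : ℕ) (y f : Pt) : f ∈ blk s y ↔
    (y.1 - 3 ^ s ≤ f.1 ∧ f.1 < y.1 + 3 ^ s) ∧ (y.2 ≤ f.2 ∧ f.2 < y.2 + 3 ^ s) := by
  simp only [blk, box, Finset.mem_product, Finset.mem_Ico]

private theorem FT3_rfc_mem (s : ℕ) (y f : Pt) (hf : f ∈ blk s y) : rfc y f ∈ blk s y := by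
  rw [FT3_mem_blk] at hf ⊢
  obtain ⟨⟨h1, h2⟩, h3, h4⟩ := hf
  refine ⟨⟨?_, ?_⟩, h3, h4⟩
  · show y.1 - 3 ^ s ≤ 2 * y.1 - 1 - f.1
    linarith
  · show 2 * y.1 - 1 - f.1 < y.1 + 3 ^ s
    linarith

private theorem FT3_growth (c K C : ℝ) (Ch : ℕ → ℝ) (T₀ T : ℕ) (y : Pt) (w : Pt → ℝ) (m : ℕ → ℝ)
    (hK : 1 ≤ K) (E : Endg c K C Ch T₀ T y w m) (j : ℕ) (hj : T₀ ≤ j) :
    ∀ n : ℕ, j + n ≤ T → m (j + n) ≤ K ^ n * m j := by
  intro n
  induction n with
  | zero => intro _; simp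
  | succ n ih =>
    intro h
    have h1 := ih (by omega)
    have h2 := (E.m_up (j + n) (by omega) (by omega)).2
    have hK0 : 0 ≤ K := by linarith
    calc m (j + (n + 1)) = m (j + n + 1) := by rw [Nat.add_assoc]
      _ ≤ K * m (j + n) := h2
      _ ≤ K * (K ^ n * m j) := mul_le_mul_of_nonneg_left h1 hK0
      _ = K ^ (n + 1) * m j := by ring

theorem p_FT3 : S_FT3 := by
  intro c K C a Ch l m₀ T₀ T j y w m hc0 hc1 hK hC E hlK hm₀ hj hT ha0 ha1 hwin
  have hK0 : 0 < K := by linarith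
  have hC0 : 0 < C := by linarith
  have hmj : 0 < m j := E.m_pos j (by omega) (by omega)
  have hM0 : 0 < m (j + m₀) := E.m_pos (j + m₀) (by omega) (by omega)
  have hc1' : 0 < 1 - c := by linarith
  have hcl : 0 < (1 - c) ^ l := pow_pos hc1' l
  have key : ∀ n : ℕ, n ≤ m₀ - 3 → ∀ f ∈ blk (j + m₀ - n) y,
      a * w (rfc y f) - w f ≤ ((1 - c) ^ l) ^ n * (C * m (j + m₀)) := by
    intro n
    induction n with
    | zero =>
      intro _ f hf
      rw [Nat.sub_zero] at hf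
      have hf' := FT3_rfc_mem _ _ _ hf
      have h1 := E.sup (j + m₀) (by omega) (by omega) _ hf'
      have hsub : blk (j + m₀) y ⊆ blk T y := by
        intro g hg
        rw [FT3_mem_blk] at hg ⊢
        have hp : (3 : ℤ) ^ (j + m₀) ≤ 3 ^ T := pow_le_pow_right₀ (by norm_num) (by omega)
        obtain ⟨⟨g1, g2⟩, g3, g4⟩ := hg
        refine ⟨⟨by linarith, by linarith⟩, g3, by linarith⟩
      have h2 := E.pos f (hsub hf)
      have h3 := E.pos _ (hsub hf')
      rw [pow_zero, one_mul]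
      have h4 : a * w (rfc y f) ≤ 1 * w (rfc y f) := mul_le_mul_of_nonneg_right ha1 h3.le
      linarith
    | succ n ih =>
      intro hn f hf
      have hi : j + m₀ - n = (j + m₀ - (n + 1)) + 1 := by omega
      have ih' := ih (by omega)
      rw [hi] at ih'
      set i := j + m₀ - (n + 1) with hidef
      have hMn : 0 < ((1 - c) ^ l) ^ n * (C * m (j + m₀)) :=
        mul_pos (pow_pos hcl n) (mul_pos hC0 hM0)
      have hMn1 : 0 < ((1 - c) ^ l) ^ (n + 1) * (C * m (j + m₀)) :=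
        mul_pos (pow_pos hcl (n + 1)) (mul_pos hC0 hM0)
      by_cases hlow : f.2 < y.2 + 3 ^ (i - 2 * l)
      · have h := E.bd l i a (-1) (((1 - c) ^ l) ^ n * (C * m (j + m₀))) (by omega) (by omega)
          (by omega) ha0 ha1 (Or.inr rfl) hMn
          (fun g hg => by
            have := ih' g hg
            linarith) f hf hlow
        have e1 : (1 - c) ^ l * (((1 - c) ^ l) ^ n * (C * m (j + m₀))) =
            ((1 - c) ^ l) ^ (n + 1) * (C * m (j + m₀)) := by ring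
        rw [e1] at h
        linarith
      · have h := hwin i (by omega) (by omega) f hf (not_lt.mp hlow)
        linarith
  intro f hf
  have e3 : j + m₀ - (m₀ - 3) = j + 3 := by omega
  have h1 := key (m₀ - 3) le_rfl f (by rw [e3]; exact hf)
  have h2 := FT3_growth c K C Ch T₀ T y w m hK E j (by omega) m₀ (by omega)
  have h3 : ((1 - c) ^ l) ^ (m₀ - 3) * (C * m (j + m₀)) ≤
      ((1 - c) ^ l) ^ (m₀ - 3) * (C * (K ^ m₀ * m j)) := by
    apply mul_le_mul_of_nonneg_left _ (pow_pos hcl _).le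
    exact mul_le_mul_of_nonneg_left h2 hC0.le
  have e4 : K ^ m₀ = K ^ 3 * K ^ (m₀ - 3) := by
    rw [← pow_add]
    congr 1
    omega
  have e5 : ((1 - c) ^ l) ^ (m₀ - 3) * (C * (K ^ m₀ * m j)) =
      C * K ^ 3 * ((1 - c) ^ l * K) ^ (m₀ - 3) * m j := by
    rw [e4, mul_pow]
    ring
  have h4 : ((1 - c) ^ l * K) ^ (m₀ - 3) ≤ (1 / 2 : ℝ) ^ (m₀ - 3) :=
    pow_le_pow_left₀ (mul_pos hcl hK0).le hlK _
  have h5 : C * K ^ 3 * ((1 - c) ^ l * K) ^ (m₀ - 3) * m j ≤
      C * K ^ 3 * (1 / 2) ^ (m₀ - 3) * m j := by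
    apply mul_le_mul_of_nonneg_right _ hmj.le
    exact mul_le_mul_of_nonneg_left h4 (mul_pos hC0 (pow_pos hK0 3)).le
  linarith

end CarpetPI
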