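import Pool.Agent.Lib.MP_1d263a_an.PI.StmF

/-!
# MP_1d263a_an, project PI, piece FT4: the final argument
-/

open Finset
open scoped Classical

noncomputable section

namespace CarpetPI

theorem FT4_pow {a b : ℕ} (h : a ≤ b) : (3 : ℤ) ^ a ≤ 3 ^ b :=
  pow_le_pow_right₀ (by norm_num) h

theorem FT4_rfc {s : ℕ} {y f : Pt} (h : f ∈ blk s y) : rfc y f ∈ blk s y := by
  simp only [blk, box, rfc, Finset.mem_product, Finset.mem_Ico] at h ⊢
  generalize (3 : ℤ) ^ s = u at *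
  omega

theorem FT4_inv (y f : Pt) : rfc y (rfc y f) = f := by
  simp only [rfc]
  ext
  · change 2 * y.1 - 1 - (2 * y.1 - 1 - f.1) = f.1
    ring
  · rfl

theorem FT4_mono {a b : ℕ} (h : a ≤ b) {y f : Pt} (hf : f ∈ blk a y) : f ∈ blk b y := by
  have h1 := FT4_pow h
  simp only [blk, box, Finset.mem_product, Finset.mem_Ico] at hf ⊢
  generalize (3 : ℤ) ^ a = u at *
  generalize (3 : ℤ) ^ b = v at *
  omega

theorem FT4_inn {j k : ℕ} {y f : Pt} (hf : f ∈ blk (j + 1) y) (h : y.2 + 3 ^ (j - k) ≤ f.2) :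
    f ∈ inn (j + 2) (j - k) y := by
  have h1 : (3 : ℤ) ^ (j - k) ≤ 3 ^ j := FT4_pow (Nat.sub_le _ _)
  have h2 : (0 : ℤ) < 3 ^ (j - k) := by positivity
  simp only [blk, inn, box, Finset.mem_product, Finset.mem_Ico] at hf ⊢
  rw [pow_succ] at hf
  rw [pow_succ, pow_succ]
  generalize (3 : ℤ) ^ j = u at *
  generalize (3 : ℤ) ^ (j - k) = v at *
  omega

theorem FT4_const (c K C δ₀ : ℝ) (hc0 : 0 < c) (hc1 : c < 1) (hK : 1 ≤ K) (hC : 1 ≤ C)
    (hδ : 0 < δ₀) :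
    ∃ l k : ℕ, 1 ≤ l ∧ (1 - c) ^ l * K ≤ 1 / 2 ∧ 2 * l ≤ k ∧
      (1 - c) ^ ((k + 1) / 2) * (C * K ^ 2) ≤ δ₀ := by
  have h1 : 0 < 1 - c := by linarith
  have h2 : 1 - c < 1 := by linarith
  have hK0 : 0 < K := by linarith
  obtain ⟨l, hl⟩ := exists_pow_lt_of_lt_one (show (0 : ℝ) < 1 / (2 * K) by positivity) h2
  obtain ⟨n, hn⟩ := exists_pow_lt_of_lt_one (show (0 : ℝ) < δ₀ / (C * K ^ 2) by positivity) h2
  refine ⟨l + 1, 2 * (n + (l + 1)), by omega, ?_, by omega, ?_⟩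
  · have h3 : (1 - c) ^ (l + 1) ≤ (1 - c) ^ l := pow_le_pow_of_le_one h1.le h2.le (Nat.le_succ l)
    have h4 : (1 - c) ^ (l + 1) ≤ 1 / (2 * K) := h3.trans hl.le
    calc (1 - c) ^ (l + 1) * K ≤ 1 / (2 * K) * K := mul_le_mul_of_nonneg_right h4 hK0.le
      _ = 1 / 2 := by field_simp
  · have h5 : (2 * (n + (l + 1)) + 1) / 2 = n + (l + 1) := by omega
    rw [h5]
    have h3 : (1 - c) ^ (n + (l + 1)) ≤ (1 - c) ^ n :=
      pow_le_pow_of_le_one h1.le h2.le (Nat.le_add_right _ _)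
    have h4 : (1 - c) ^ (n + (l + 1)) ≤ δ₀ / (C * K ^ 2) := h3.trans hn.le
    have h6 : 0 < C * K ^ 2 := by positivity
    rwa [le_div_iff₀ h6] at h4

theorem p_FT4 (h1 : S_FT1) (h2 : S_FT2) (h3 : S_FT3) : S_FT4 := by
  intro c K C Ch hc0 hc1 hK hC hCh δ₀ hδ₀
  obtain ⟨l, k, hl1, hlK, hlk, hk⟩ := FT4_const c K C δ₀ hc0 hc1 hK hC hδ₀
  obtain ⟨c₁, n₁, hc₁, H1⟩ := h1 c K C Ch hc0 hc1 hK hC hCh k
  obtain ⟨c₂, n₂, hc₂, H2⟩ := h1 c K C Ch hc0 hc1 hK hC hCh (2 * l)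
  have hK0 : 0 < K := by linarith
  have hC0 : 0 < C := by linarith
  set H := Ch (k + 3) with hH
  have hH1 : 1 ≤ H := hCh _
  have hH0 : 0 < H := by linarith
  set Q := 1 + C * K / c₁ with hQ
  have hQ1 : 1 ≤ Q := by
    have : 0 < C * K / c₁ := by positivity
    linarith
  have hQ0 : 0 < Q := by linarith
  -- `ε₀`
  obtain ⟨ε₀, hε0, hε1, hε2⟩ : ∃ ε₀ : ℝ, 0 < ε₀ ∧ ε₀ ≤ c₂ / C ∧ H * (ε₀ * C) * Q ≤ δ₀ / 2 := by
    refine ⟨min (c₂ / C) (δ₀ / (2 * (H * C * Q))), lt_min (by positivity) (by positivity),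
      min_le_left _ _, ?_⟩
    have h4 := min_le_right (c₂ / C) (δ₀ / (2 * (H * C * Q)))
    calc H * (min (c₂ / C) (δ₀ / (2 * (H * C * Q))) * C) * Q
        = (H * C * Q) * min (c₂ / C) (δ₀ / (2 * (H * C * Q))) := by ring
      _ ≤ (H * C * Q) * (δ₀ / (2 * (H * C * Q))) := mul_le_mul_of_nonneg_left h4 (by positivity)
      _ = δ₀ / 2 := by field_simp
  -- `m₀`
  obtain ⟨m₀, δ', hm4, hδ', hδ'0, hδ'1⟩ : ∃ (m₀ : ℕ) (δ' : ℝ), 4 ≤ m₀ ∧
      δ' = C * K ^ 3 * (1 / 2) ^ (m₀ - 3) ∧ 0 < δ' ∧ (2 * H * δ' + 2 * δ') * Q ≤ δ₀ / 2 := by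
    obtain ⟨n, hn⟩ := exists_pow_lt_of_lt_one
      (show (0 : ℝ) < δ₀ / (8 * (H * Q * (C * K ^ 3))) by positivity)
      (show (1 / 2 : ℝ) < 1 by norm_num)
    refine ⟨n + 4, C * K ^ 3 * (1 / 2) ^ (n + 4 - 3), by omega, rfl, by positivity, ?_⟩
    have h4 : n + 4 - 3 = n + 1 := by omega
    rw [h4]
    have h5 : (1 / 2 : ℝ) ^ (n + 1) ≤ (1 / 2) ^ n :=
      pow_le_pow_of_le_one (by norm_num) (by norm_num) (Nat.le_succ n)
    have h6 : (1 / 2 : ℝ) ^ (n + 1) ≤ δ₀ / (8 * (H * Q * (C * K ^ 3))) := h5.trans hn.le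
    have h7 : (2 * H * (C * K ^ 3 * (1 / 2) ^ (n + 1)) + 2 * (C * K ^ 3 * (1 / 2) ^ (n + 1))) * Q ≤
        4 * (H * Q * (C * K ^ 3)) * (1 / 2) ^ (n + 1) := by
      have h8 : 0 ≤ (H - 1) * (Q * (C * K ^ 3) * (1 / 2) ^ (n + 1)) :=
        mul_nonneg (by linarith) (by positivity)
      nlinarith [h8]
    refine h7.trans ?_
    calc 4 * (H * Q * (C * K ^ 3)) * (1 / 2) ^ (n + 1)
        ≤ 4 * (H * Q * (C * K ^ 3)) * (δ₀ / (8 * (H * Q * (C * K ^ 3)))) :=
          mul_le_mul_of_nonneg_left h6 (by positivity)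
      _ = δ₀ / 2 := by field_simp; norm_num
  obtain ⟨r, hr⟩ := exists_nat_ge (1 / ε₀ + 1)
  refine ⟨n₁ + n₂ + k + 2 * l + 5 + (r + 1) * m₀ + 10, ?_⟩
  intro T₀ T y w m hE hT
  set s₀ := T₀ + (n₁ + n₂ + k + 2 * l + 5) with hs₀
  set F : ℕ → Finset Pt := fun s => (blk s y).filter (fun f => y.2 + 3 ^ (s - 2 * l) ≤ f.2) with hF
  have hFm : ∀ s f, f ∈ F s ↔ f ∈ blk s y ∧ y.2 + 3 ^ (s - 2 * l) ≤ f.2 := by
    intro s f
    simp only [hF, Finset.mem_filter]
  have hFr : ∀ s f, f ∈ F s → rfc y f ∈ F s := by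
    intro s f hf
    rw [hFm] at hf ⊢
    exact ⟨FT4_rfc hf.1, hf.2⟩
  have hFne : ∀ s, 1 ≤ s → (F s).Nonempty := by
    intro s hs
    refine ⟨(y.1, y.2 + 3 ^ (s - 2 * l)), ?_⟩
    rw [hFm]
    refine ⟨?_, le_refl _⟩
    have h4 : (3 : ℤ) ^ (s - 2 * l) < 3 ^ s := pow_lt_pow_right₀ (by norm_num) (by omega)
    have h5 : (0 : ℤ) < 3 ^ (s - 2 * l) := by positivity
    simp only [blk, box, Finset.mem_product, Finset.mem_Ico]
    generalize (3 : ℤ) ^ s = u at *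
    generalize (3 : ℤ) ^ (s - 2 * l) = v at *
    omega
  have hX : ∀ s, ∃ x : Pt, 1 ≤ s → x ∈ F s ∧ ∀ f ∈ F s,
      w x / w (rfc y x) ≤ w f / w (rfc y f) := by
    intro s
    by_cases hs : 1 ≤ s
    · obtain ⟨x, hx, hx'⟩ := Finset.exists_min_image (F s) (fun f => w f / w (rfc y f)) (hFne s hs)
      exact ⟨x, fun _ => ⟨hx, hx'⟩⟩
    · exact ⟨(0, 0), fun h => absurd h hs⟩
  choose X hX using hX
  -- the range of scales
  have hpos : ∀ s, s ≤ T → ∀ f ∈ blk s y, 0 < w f := fun s hs f hf => hE.pos f (FT4_mono hs hf)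
  have hrange : s₀ + (r + 1) * m₀ + 10 ≤ T := by omega
  have ha : ∀ i, s₀ ≤ i → i ≤ s₀ + (r + 1) * m₀ →
      c₂ / C ≤ w (X i) / w (rfc y (X i)) ∧ w (X i) / w (rfc y (X i)) ≤ 1 := by
    intro i hi hi'
    obtain ⟨hx, hx'⟩ := hX i (by omega)
    have hxr := hFr i _ hx
    have hx1 := ((hFm i _).1 hx)
    have hxr1 := ((hFm i _).1 hxr)
    have hp := hpos i (by omega) _ hx1.1
    have hp' := hpos i (by omega) _ hxr1.1
    have hm := hE.m_pos i (by omega) (by omega)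
    constructor
    · have h4 := H2 T₀ T y w m hE i (by omega) (by omega) (X i) (FT4_mono (by omega) hx1.1) hx1.2
      have h5 := hE.sup i (by omega) (by omega) _ hxr1.1
      rw [div_le_div_iff₀ hC0 hp']
      calc c₂ * w (rfc y (X i)) ≤ c₂ * (C * m i) := mul_le_mul_of_nonneg_left h5 hc₂.le
        _ = (c₂ * m i) * C := by ring
        _ ≤ w (X i) * C := mul_le_mul_of_nonneg_right h4 hC0.le
    · have h4 := hx' _ hxr
      rw [FT4_inv, div_le_div_iff₀ hp' hp] at h4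
      rw [div_le_one hp']
      nlinarith
  obtain ⟨j, hj1, hj2, hj3⟩ := h2 ε₀ m₀ r hε0 hr s₀ (fun i => w (X i) / w (rfc y (X i)))
    (fun i hi hi' => ⟨le_trans (by positivity) (ha i hi hi').1, (ha i hi hi').2⟩)
  have hrm : r * m₀ + m₀ = (r + 1) * m₀ := by ring
  have hjj := ha j hj1 (by omega)
  obtain ⟨hxF, hxmin⟩ := hX j (by omega)
  set x := X j with hx
  have hx1 := (hFm j _).1 hxF
  have hxr1 := (hFm j _).1 (hFr j _ hxF)
  set α := w x / w (rfc y x) - ε₀ with hα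
  have hα0 : 0 ≤ α := by
    have := hjj.1
    linarith
  have hα1 : α ≤ 1 := by
    have := hjj.2
    linarith
  have hmj := hE.m_pos j (by omega) (by omega)
  -- step 3
  have hst3 : ∀ f ∈ blk (j + 3) y, α * w (rfc y f) - w f ≤ δ' * m j := by
    have h4 := h3 c K C α Ch l m₀ T₀ T j y w m hc0 hc1 hK hC hE hlK (by omega) (by omega) (by omega)
      hα0 hα1 (fun i hi hi' f hf hf2 => ?_)
    · rw [hδ']
      exact h4
    · have h5 := (hX i (by omega)).2 f ((hFm i f).2 ⟨hf, hf2⟩)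
      have h6 := hj3 i hi hi'
      have h7 := hpos i (by omega) _ (FT4_rfc hf)
      have h8 : α ≤ w f / w (rfc y f) := by
        have h9 : α ≤ w (X i) / w (rfc y (X i)) := h6
        exact h9.trans h5
      rwa [le_div_iff₀ h7] at h8
  -- step 4
  have hjk : j + 2 - (k + 3) + 1 = j - k := by omega
  have hst4 := hE.har (k + 3) (j + 2) α (2 * δ' * m j) (by omega) (by omega) (by omega) hα0 hα1
    (by positivity) (fun f hf => by
      have h4 := hst3 f hf
      have h5 : 0 < δ' * m j := by positivity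
      linarith)
  rw [hjk] at hst4
  have hxinn : x ∈ inn (j + 2) (j - k) y := by
    refine FT4_inn (FT4_mono (Nat.le_succ j) hx1.1) ?_
    have h4 : (3 : ℤ) ^ (j - k) ≤ 3 ^ (j - 2 * l) := FT4_pow (by omega)
    linarith [hx1.2]
  have hx' : w x - α * w (rfc y x) ≤ ε₀ * C * m j := by
    have h4 := hpos j (by omega) _ hxr1.1
    have h5 : w x - α * w (rfc y x) = ε₀ * w (rfc y x) := by
      rw [hα]
      field_simp
      ring
    rw [h5, mul_assoc]
    exact mul_le_mul_of_nonneg_left (hE.sup j (by omega) (by omega) _ hxr1.1) hε0.le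
  set B := H * (ε₀ * C + 2 * δ') + 2 * δ' with hB
  have hB0 : 0 < B := by positivity
  have hBQ : B * Q ≤ δ₀ := by
    have h4 : B * Q = H * (ε₀ * C) * Q + (2 * H * δ' + 2 * δ') * Q := by rw [hB]; ring
    rw [h4]
    linarith
  have hup : ∀ f ∈ blk (j + 1) y, y.2 + 3 ^ (j - k) ≤ f.2 →
      |w f - α * w (rfc y f)| ≤ B * m j := by
    intro f hf hf2
    have h4 := hst4 f (FT4_inn hf hf2) x hxinn
    have h5 := hst3 f (FT4_mono (by omega) hf)
    have h6 : H * (w x - α * w (rfc y x) + 2 * δ' * m j) ≤ H * ((ε₀ * C + 2 * δ') * m j) := by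
      refine mul_le_mul_of_nonneg_left ?_ hH0.le
      linarith
    have h7 : 0 < δ' * m j := by positivity
    have h8 : 0 < H * (ε₀ * C + 2 * δ') * m j := by positivity
    have h9 : B * m j = H * (ε₀ * C + 2 * δ') * m j + 2 * (δ' * m j) := by rw [hB]; ring
    rw [abs_le, h9]
    constructor
    · linarith
    · rw [← hH] at h4
      linarith
  refine ⟨j, by omega, by omega, fun f hf => ?_⟩
  have hfr := FT4_rfc hf
  have hwf := hpos (j + 1) (by omega) f hf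
  have hwf' := hpos (j + 1) (by omega) _ hfr
  have hm1 := hE.m_up j (by omega) (by omega)
  have hm2 := hE.m_up (j + 1) (by omega) (by omega)
  rcases le_or_gt (y.2 + 3 ^ (j - k)) f.2 with hh | hh
  · -- step 5
    have e1 := hup f hf hh
    have e2 := hup (rfc y f) hfr hh
    rw [FT4_inv] at e2
    have e3 := H1 T₀ T y w m hE j (by omega) (by omega) f (FT4_mono (by omega) hf) hh
    have e4 := H1 T₀ T y w m hE j (by omega) (by omega) (rfc y f) (FT4_mono (by omega) hfr) hh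
    have e5 : (1 - α) * c₁ ≤ B := by
      have h4 := (abs_le.1 e1).2
      have h5 := (abs_le.1 e2).2
      have h6 : (1 - α) * (w f + w (rfc y f)) ≤ 2 * B * m j := by linarith
      have h7 : (1 - α) * (2 * (c₁ * m j)) ≤ (1 - α) * (w f + w (rfc y f)) :=
        mul_le_mul_of_nonneg_left (by linarith) (by linarith)
      have h8 : (1 - α) * c₁ * (2 * m j) ≤ B * (2 * m j) := by linarith
      exact le_of_mul_le_mul_right h8 (by positivity)
    have e6 : 1 - α ≤ B / c₁ := by rwa [le_div_iff₀ hc₁]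
    have e7 : w (rfc y f) ≤ C * K * m j := by
      have h4 := hE.sup (j + 1) (by omega) (by omega) _ hfr
      have h5 : C * m (j + 1) ≤ C * (K * m j) := mul_le_mul_of_nonneg_left hm1.2 hC0.le
      linarith
    have e8 : (1 - α) * w (rfc y f) ≤ B / c₁ * (C * K * m j) :=
      mul_le_mul e6 e7 hwf'.le (by positivity)
    have e9 : |w f - w (rfc y f)| ≤ |w f - α * w (rfc y f)| + (1 - α) * w (rfc y f) := by
      have h4 : w f - w (rfc y f) = (w f - α * w (rfc y f)) - (1 - α) * w (rfc y f) := by ring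
      have h5 : |(1 - α) * w (rfc y f)| = (1 - α) * w (rfc y f) :=
        abs_of_nonneg (mul_nonneg (by linarith) hwf'.le)
      rw [h4]
      calc |w f - α * w (rfc y f) - (1 - α) * w (rfc y f)|
          ≤ |w f - α * w (rfc y f)| + |(1 - α) * w (rfc y f)| := abs_sub _ _
        _ = _ := by rw [h5]
    have e10 : B * m j + B / c₁ * (C * K * m j) = B * Q * m j := by
      rw [hQ]
      field_simp
    have e11 : B * Q * m j ≤ δ₀ * m j := mul_le_mul_of_nonneg_right hBQ hmj.le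
    linarith
  · -- step 6
    have hbd := hE.bd ((k + 1) / 2) (j + 1) 0 1 (C * m (j + 2)) (by omega) (by omega) (by omega)
      le_rfl zero_le_one (Or.inl rfl)
      (mul_pos hC0 (hE.m_pos (j + 2) (by omega) (by omega)))
      (fun g hg => by
        rw [zero_mul, sub_zero, one_mul]
        exact hE.sup (j + 2) (by omega) (by omega) g hg)
    have h4 : (3 : ℤ) ^ (j - k) ≤ 3 ^ (j + 1 - 2 * ((k + 1) / 2)) := FT4_pow (by omega)
    have h5 : m (j + 2) ≤ K ^ 2 * m j := by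
      have h6 : m (j + 1 + 1) ≤ K * m (j + 1) := hm2.2
      have h7 : K * m (j + 1) ≤ K * (K * m j) := mul_le_mul_of_nonneg_left hm1.2 hK0.le
      have h8 : K ^ 2 * m j = K * (K * m j) := by ring
      rw [h8]
      exact h6.trans h7
    have h6 : (1 - c) ^ ((k + 1) / 2) * (C * m (j + 2)) ≤ δ₀ * m j := by
      have h7 : 0 < (1 - c) ^ ((k + 1) / 2) := pow_pos (by linarith) _
      calc (1 - c) ^ ((k + 1) / 2) * (C * m (j + 2))
          ≤ (1 - c) ^ ((k + 1) / 2) * (C * (K ^ 2 * m j)) :=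
            mul_le_mul_of_nonneg_left (mul_le_mul_of_nonneg_left h5 hC0.le) h7.le
        _ = (1 - c) ^ ((k + 1) / 2) * (C * K ^ 2) * m j := by ring
        _ ≤ δ₀ * m j := mul_le_mul_of_nonneg_right hk hmj.le
    have b1 := hbd f hf (by linarith)
    have b2 := hbd (rfc y f) hfr (by
      change f.2 < _
      linarith)
    rw [zero_mul, sub_zero, one_mul] at b1 b2
    rw [abs_le]
    constructor <;> linarith

end CarpetPI
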