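import Pool.Agent.Lib.MP_1d263a_an.PI.StmF

open Finset
open scoped Classical

noncomputable section

namespace CarpetPI

/-- reflection of the edges -/
def FV_re (y : Pt) (e : Ed) : Ed :=
  if e.1 then (true, (2 * y.1 - e.2.1, e.2.2)) else (false, (2 * y.1 - 1 - e.2.1, e.2.2))

lemma FV_rv_rv (y x : Pt) : rv y (rv y x) = x := by
  obtain ⟨a, b⟩ := x
  simp only [rv, Prod.mk.injEq, and_true]
  ring

lemma FV_rfc_rfc (y x : Pt) : rfc y (rfc y x) = x := by
  obtain ⟨a, b⟩ := x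
  simp only [rfc, Prod.mk.injEq, and_true]
  ring

lemma FV_re_re (y : Pt) (e : Ed) : FV_re y (FV_re y e) = e := by
  obtain ⟨b, x⟩ := e
  obtain ⟨c, d⟩ := x
  cases b <;> simp [FV_re]

/-- the four incidences of a reflected edge -/
lemma FV_inc (y : Pt) (e : Ed) :
    (e.1 = false → tl (FV_re y e) = rv y (hd e) ∧ hd (FV_re y e) = rv y (tl e) ∧
      lf (FV_re y e) = rfc y (lf e) ∧ rf (FV_re y e) = rfc y (rf e)) ∧
    (e.1 = true → tl (FV_re y e) = rv y (tl e) ∧ hd (FV_re y e) = rv y (hd e) ∧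
      lf (FV_re y e) = rfc y (rf e) ∧ rf (FV_re y e) = rfc y (lf e)) := by
  obtain ⟨b, x⟩ := e
  obtain ⟨c, d⟩ := x
  constructor
  · intro hb
    simp only at hb
    subst hb
    refine ⟨?_, ?_, ?_, ?_⟩ <;> simp [FV_re, tl, hd, lf, rf, rv, rfc] <;> ring
  · intro hb
    simp only at hb
    subst hb
    refine ⟨?_, ?_, ?_, ?_⟩ <;> simp [FV_re, tl, hd, lf, rf, rv, rfc] <;> ring

lemma FV_faces (y : Pt) (e : Ed) :
    (lf (FV_re y e) = rfc y (lf e) ∧ rf (FV_re y e) = rfc y (rf e)) ∨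
    (lf (FV_re y e) = rfc y (rf e) ∧ rf (FV_re y e) = rfc y (lf e)) := by
  rcases h : e.1 with _ | _
  · exact Or.inl ((FV_inc y e).1 h).2.2
  · exact Or.inr ((FV_inc y e).2 h).2.2

lemma FV_ends (y : Pt) (e : Ed) :
    (tl (FV_re y e) = rv y (hd e) ∧ hd (FV_re y e) = rv y (tl e)) ∨
    (tl (FV_re y e) = rv y (tl e) ∧ hd (FV_re y e) = rv y (hd e)) := by
  rcases h : e.1 with _ | _
  · exact Or.inl ⟨((FV_inc y e).1 h).1, ((FV_inc y e).1 h).2.1⟩
  · exact Or.inr ⟨((FV_inc y e).2 h).1, ((FV_inc y e).2 h).2.1⟩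

/-- the differences of the reflected pair -/
lemma FV_diff (y : Pt) (u w : Pt → ℝ) (e : Ed) :
    (du (fun x => - u (rv y x)) e = du u (FV_re y e) ∧
      dv (fun f => w (rfc y f)) e = dv w (FV_re y e)) ∨
    (du (fun x => - u (rv y x)) e = - du u (FV_re y e) ∧
      dv (fun f => w (rfc y f)) e = - dv w (FV_re y e)) := by
  rcases h : e.1 with _ | _
  · obtain ⟨h1, h2, h3, h4⟩ := (FV_inc y e).1 h
    left
    simp only [du, dv, h1, h2, h3, h4]
    constructor
    · ring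
    · trivial
  · obtain ⟨h1, h2, h3, h4⟩ := (FV_inc y e).2 h
    right
    simp only [du, dv, h1, h2, h3, h4]
    constructor <;> ring

lemma FV_abs_du (y : Pt) (u : Pt → ℝ) (e : Ed) :
    |du (fun x => - u (rv y x)) e| = |du u (FV_re y e)| := by
  rcases FV_diff y u u e with h | h
  · rw [h.1]
  · rw [h.1, abs_neg]

lemma FV_mem_sides (e : Ed) (f : Pt) : e ∈ sides f ↔ lf e = f ∨ rf e = f := by
  obtain ⟨b, x⟩ := e
  obtain ⟨c, d⟩ := x
  obtain ⟨a, g⟩ := f
  cases b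
  · simp only [sides, Finset.mem_insert, Finset.mem_singleton, lf, rf, Prod.mk.injEq,
      Bool.false_eq_true, if_false, true_and, false_and, or_false]
    try simp only [Prod.mk.injEq]
    constructor
    · rintro (h | h)
      · exact Or.inl h
      · right; exact ⟨h.1, by omega⟩
    · rintro (h | h)
      · exact Or.inl h
      · right; exact ⟨h.1, by omega⟩
  · simp only [sides, Finset.mem_insert, Finset.mem_singleton, lf, rf, Prod.mk.injEq,
      if_true, true_and, false_and, false_or, reduceCtorEq]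
    try simp only [Prod.mk.injEq]
    constructor
    · rintro (h | h)
      · exact Or.inr h
      · left; exact ⟨by omega, h.2⟩
    · rintro (h | h)
      · right; exact ⟨by omega, h.2⟩
      · exact Or.inl h

lemma FV_mem_eT (B : Finset Pt) (e : Ed) : e ∈ eT B ↔ lf e ∈ B ∨ rf e ∈ B := by
  simp only [eT, Finset.mem_biUnion, FV_mem_sides]
  constructor
  · rintro ⟨f, hf, h | h⟩
    · left; rw [h]; exact hf
    · right; rw [h]; exact hf
  · rintro (h | h)
    · exact ⟨_, h, Or.inl rfl⟩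
    · exact ⟨_, h, Or.inr rfl⟩

lemma FV_mem_blk (s : ℕ) (y f : Pt) : f ∈ blk s y ↔
    y.1 - 3 ^ s ≤ f.1 ∧ f.1 < y.1 + 3 ^ s ∧ y.2 ≤ f.2 ∧ f.2 < y.2 + 3 ^ s := by
  simp only [blk, box, Finset.mem_product, Finset.mem_Ico]
  tauto

/-- reflection of the blocks -/
lemma FV_blk (s : ℕ) (y f : Pt) (c : ℤ) : f ∈ blk s (y.1 + c * 3 ^ s, y.2) ↔
    rfc y f ∈ blk s (y.1 + (-c) * 3 ^ s, y.2) := by
  simp only [FV_mem_blk, rfc]
  have h : (0 : ℤ) < 3 ^ s := by positivity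
  generalize (3 : ℤ) ^ s = P at h
  constructor
  · rintro ⟨h1, h2, h3, h4⟩
    refine ⟨by linarith, by linarith, h3, h4⟩
  · rintro ⟨h1, h2, h3, h4⟩
    refine ⟨by linarith, by linarith, h3, h4⟩

lemma FV_blk0 (s : ℕ) (y f : Pt) : f ∈ blk s y ↔ rfc y f ∈ blk s y := by
  have h := FV_blk s y f 0
  simpa using h

/-- the digits of `-1 - f` plus a multiple of `3 ^ T` -/
lemma FV_digit (T k : ℕ) (hk : k < T) (z f : ℤ) (hz : (3 : ℤ) ^ T ∣ z) :
    ((2 * z - 1 - f) / 3 ^ k % 3 = 1 ↔ f / 3 ^ k % 3 = 1) := by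
  obtain ⟨m, rfl⟩ := hz
  have hp : (0 : ℤ) < 3 ^ k := by positivity
  have hT : (3 : ℤ) ^ T = 3 ^ k * (3 * 3 ^ (T - k - 1)) := by
    rw [← pow_succ', ← pow_add]
    congr 1
    omega
  have e1 : 2 * (3 ^ T * m) - 1 - f = (-1 - f) + (3 * (2 * 3 ^ (T - k - 1) * m)) * 3 ^ k := by
    rw [hT]; ring
  have e2 : (-1 - f) / 3 ^ k = -1 - f / 3 ^ k := by
    have h1 := Int.emod_add_mul_ediv f (3 ^ k)
    have h2 := Int.emod_nonneg f hp.ne'
    have h3 := Int.emod_lt_of_pos f hp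
    have h4 : -1 - f = (3 ^ k - 1 - f % 3 ^ k) + (-1 - f / 3 ^ k) * 3 ^ k := by
      linarith
    rw [h4, Int.add_mul_ediv_right _ _ hp.ne', Int.ediv_eq_zero_of_lt (by linarith) (by linarith)]
    ring
  rw [e1, Int.add_mul_ediv_right _ _ hp.ne', e2]
  omega

lemma FV_div (e i P : ℤ) (h0 : 0 ≤ i) (h1 : i < P) : (e * P + i) / P = e := by
  have hP : P ≠ 0 := by omega
  rw [Int.add_comm, Int.add_mul_ediv_right _ _ hP, Int.ediv_eq_zero_of_lt h0 h1]
  ring

/-- a face of the block is in one of the two kept cells -/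
lemma FV_cell {N T : ℕ} {y : Pt} (hF : Flat N T y) {g : Pt} (hg : g ∈ blk T y) :
    (g.1 / 3 ^ T, g.2 / 3 ^ T) ∈ Kept (N - T) := by
  rw [FV_mem_blk] at hg
  obtain ⟨h1, h2, h3, h4⟩ := hg
  have hp : (0 : ℤ) < 3 ^ T := by positivity
  obtain ⟨a, ha⟩ := hF.d1
  obtain ⟨b, hb⟩ := hF.d2
  have hR := hF.cR
  have hL := hF.cL
  have ea : y.1 / 3 ^ T = a := by rw [ha, Int.mul_ediv_cancel_left _ hp.ne']
  have eb : y.2 / 3 ^ T = b := by rw [hb, Int.mul_ediv_cancel_left _ hp.ne']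
  rw [ea, eb] at hR hL
  have e2 : g.2 / 3 ^ T = b := by
    have : g.2 = b * 3 ^ T + (g.2 - y.2) := by rw [hb]; ring
    rw [this]
    exact FV_div _ _ _ (by linarith) (by linarith)
  rw [e2]
  by_cases hc : y.1 ≤ g.1
  · have e1 : g.1 / 3 ^ T = a := by
      have : g.1 = a * 3 ^ T + (g.1 - y.1) := by rw [ha]; ring
      rw [this]
      exact FV_div _ _ _ (by linarith) (by linarith)
    rw [e1]; exact hR
  · have e1 : g.1 / 3 ^ T = a - 1 := by
      have : g.1 = (a - 1) * 3 ^ T + (g.1 - y.1 + 3 ^ T) := by rw [ha]; ring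
      rw [this]
      exact FV_div _ _ _ (by linarith) (by linarith)
    rw [e1]; exact hL

/-- reflection of the kept faces of the block -/
lemma FV_kept1 {N T : ℕ} {y : Pt} (hF : Flat N T y) {f : Pt} (hf : f ∈ blk T y)
    (hk : f ∈ Kept N) : rfc y f ∈ Kept N := by
  have hg : rfc y f ∈ blk T y := (FV_blk0 T y f).1 hf
  have hc := FV_cell hF hg
  have hp : (0 : ℤ) < 3 ^ T := by positivity
  obtain ⟨c1, c2, c3, c4, c5⟩ := hc
  obtain ⟨k1, k2, k3, k4, k5⟩ := hk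
  have hTN : T ≤ N := hF.hT
  have hN : (3 : ℤ) ^ N = 3 ^ (N - T) * 3 ^ T := by
    rw [← pow_add]; congr 1; omega
  simp only at c1 c2 c3 c4
  have m1 := Int.emod_add_mul_ediv (rfc y f).1 (3 ^ T)
  have m2 := Int.emod_nonneg (rfc y f).1 hp.ne'
  have m3 := Int.emod_lt_of_pos (rfc y f).1 hp
  refine ⟨?_, ?_, k3, k4, ?_⟩
  · by_contra hneg
    have := Int.ediv_neg_of_neg_of_pos (not_le.1 hneg) hp
    linarith
  · have h1 : (rfc y f).1 / 3 ^ T + 1 ≤ 3 ^ (N - T) := by linarith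
    have h2 : 3 ^ T * ((rfc y f).1 / 3 ^ T + 1) ≤ 3 ^ T * 3 ^ (N - T) :=
      mul_le_mul_of_nonneg_left h1 hp.le
    rw [hN]
    linarith
  · intro k hk
    by_cases hkT : k < T
    · intro ⟨h1, h2⟩
      apply k5 k hk
      exact ⟨(FV_digit T k hkT y.1 f.1 hF.d1).1 h1, h2⟩
    · intro ⟨h1, h2⟩
      apply c5 (k - T) (by omega)
      have hk' : (3 : ℤ) ^ k = 3 ^ T * 3 ^ (k - T) := by
        rw [← pow_add]; congr 1; omega
      rw [hk', ← Int.ediv_ediv_of_nonneg hp.le] at h1 h2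
      exact ⟨h1, h2⟩

lemma FV_kept {N T : ℕ} {y : Pt} (hF : Flat N T y) {f : Pt} (hf : f ∈ blk T y) :
    f ∈ Kept N ↔ rfc y f ∈ Kept N := by
  refine ⟨FV_kept1 hF hf, fun h => ?_⟩
  have := FV_kept1 hF ((FV_blk0 T y f).1 hf) h
  rwa [FV_rfc_rfc] at this

lemma FV_mem_eT_re {T : ℕ} {y : Pt} {e : Ed} (he : e ∈ eT (blk T y)) :
    FV_re y e ∈ eT (blk T y) := by
  rw [FV_mem_eT] at he ⊢
  rcases FV_faces y e with h | h
  · rw [h.1, h.2, ← FV_blk0, ← FV_blk0]; exact he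
  · rw [h.1, h.2, ← FV_blk0, ← FV_blk0]; exact he.symm

/-- reflection of the present edges -/
lemma FV_pres (hB : S_FB) {N T : ℕ} {y : Pt} (hF : Flat N T y) {e : Ed}
    (he : e ∈ eT (blk T y)) : pres (Kept N) (FV_re y e) ↔ pres (Kept N) e := by
  by_cases hin : lf e ∈ blk T y ∧ rf e ∈ blk T y
  · have h1 := FV_kept hF hin.1
    have h2 := FV_kept hF hin.2
    rcases FV_faces y e with h | h
    · simp only [pres, h.1, h.2, ← h1, ← h2]
    · simp only [pres, h.1, h.2, ← h1, ← h2]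
      exact or_comm
  · have hout : lf e ∉ blk T y ∨ rf e ∉ blk T y := by
      by_contra hc
      push Not at hc
      exact hin hc
    have p1 := (hB N T y hF).2.2 e he hout
    have hout' : lf (FV_re y e) ∉ blk T y ∨ rf (FV_re y e) ∉ blk T y := by
      rcases FV_faces y e with h | h
      · rw [h.1, h.2, ← FV_blk0, ← FV_blk0]; exact hout
      · rw [h.1, h.2, ← FV_blk0, ← FV_blk0]; exact hout.symm
    have p2 := (hB N T y hF).2.2 _ (FV_mem_eT_re he) hout'
    exact ⟨fun _ => p1, fun _ => p2⟩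

lemma FV_phi_neg (q t : ℝ) : phi q (-t) = - phi q t := by
  simp only [phi, Real.sign_neg, abs_neg]
  ring

/-- energy on the sides of a face -/
lemma FV_fe (p : ℝ) (u : Pt → ℝ) (y f : Pt) :
    fe p (fun x => - u (rv y x)) f = fe p u (rfc y f) := by
  simp only [fe]
  refine Finset.sum_nbij' (fun e => FV_re y e) (fun e => FV_re y e) ?_ ?_ ?_ ?_ ?_
  · intro e he
    rw [FV_mem_sides] at he ⊢
    rcases FV_faces y e with h | h
    · rw [h.1, h.2]
      rcases he with he | he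
      · left; rw [he]
      · right; rw [he]
    · rw [h.1, h.2]
      rcases he with he | he
      · right; rw [he]
      · left; rw [he]
  · intro e he
    rw [FV_mem_sides] at he ⊢
    rcases FV_faces y e with h | h
    · rw [h.1, h.2]
      rcases he with he | he
      · left; rw [he, FV_rfc_rfc]
      · right; rw [he, FV_rfc_rfc]
    · rw [h.1, h.2]
      rcases he with he | he
      · right; rw [he, FV_rfc_rfc]
      · left; rw [he, FV_rfc_rfc]
  · intro e _; exact FV_re_re y e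
  · intro e _; exact FV_re_re y e
  · intro e _; rw [FV_abs_du]

/-- energy of the reflected function -/
lemma FV_En (p : ℝ) {N T : ℕ} {y : Pt} (hF : Flat N T y) (u : Pt → ℝ) (G G' : Finset Pt)
    (hG : G ⊆ blk T y) (h : ∀ f, f ∈ G ↔ rfc y f ∈ G') :
    En p (Kept N) (fun x => - u (rv y x)) G = En p (Kept N) u G' := by
  simp only [En]
  refine Finset.sum_nbij' (fun f => rfc y f) (fun f => rfc y f) ?_ ?_ ?_ ?_ ?_
  · intro f hf
    rw [Finset.mem_filter] at hf ⊢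
    exact ⟨(h f).1 hf.1, (FV_kept hF (hG hf.1)).1 hf.2⟩
  · intro f hf
    rw [Finset.mem_filter] at hf ⊢
    have h1 : rfc y f ∈ G := by rw [h, FV_rfc_rfc]; exact hf.1
    refine ⟨h1, ?_⟩
    rw [FV_kept hF (hG h1), FV_rfc_rfc]
    exact hf.2
  · intro f _; exact FV_rfc_rfc y f
  · intro f _; exact FV_rfc_rfc y f
  · intro f _; exact FV_fe p u y f

lemma FV_blk_sub (s T : ℕ) (y : Pt) (c : ℤ) (hs : s ≤ T) (hc : |c| * 3 ^ s + 3 ^ s ≤ (3 : ℤ) ^ T) :
    blk s (y.1 + c * 3 ^ s, y.2) ⊆ blk T y := by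
  intro f hf
  rw [FV_mem_blk] at hf ⊢
  simp only at hf
  have hp : (0 : ℤ) < 3 ^ s := by positivity
  have h1 : c * 3 ^ s ≤ |c| * 3 ^ s := mul_le_mul_of_nonneg_right (le_abs_self c) hp.le
  have h2 : -c * 3 ^ s ≤ |c| * 3 ^ s := mul_le_mul_of_nonneg_right (neg_le_abs c) hp.le
  have h3 : (3 : ℤ) ^ s ≤ 3 ^ T := pow_le_pow_right₀ (by norm_num) hs
  obtain ⟨a1, a2, a3, a4⟩ := hf
  refine ⟨by linarith, by linarith, a3, by linarith⟩

/-- an edge with both ends in the closed block touches the block -/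
lemma FV_edge (T : ℕ) (y : Pt) (e : Ed)
    (h1 : tl e ∈ clB (y.1 - 3 ^ T) (y.1 + 3 ^ T) y.2 (y.2 + 3 ^ T))
    (h2 : hd e ∈ clB (y.1 - 3 ^ T) (y.1 + 3 ^ T) y.2 (y.2 + 3 ^ T)) : e ∈ eT (blk T y) := by
  rw [FV_mem_eT, FV_mem_blk, FV_mem_blk]
  obtain ⟨b, x⟩ := e
  obtain ⟨c, d⟩ := x
  have hp : (0 : ℤ) < 3 ^ T := by positivity
  cases b
  · simp only [clB, tl, hd, Set.mem_ofPred_eq, Bool.false_eq_true, if_false] at h1 h2
    simp only [lf, rf, Bool.false_eq_true, if_false]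
    generalize (3 : ℤ) ^ T = P at *
    by_cases hd' : d < y.2 + P
    · left; refine ⟨by omega, by omega, by omega, by omega⟩
    · right; refine ⟨by omega, by omega, by omega, by omega⟩
  · simp only [clB, tl, hd, Set.mem_ofPred_eq, if_true] at h1 h2
    simp only [lf, rf, if_true]
    generalize (3 : ℤ) ^ T = P at *
    by_cases hc' : c < y.1 + P
    · right; refine ⟨by omega, by omega, by omega, by omega⟩
    · left; refine ⟨by omega, by omega, by omega, by omega⟩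

lemma FV_end_VK {K : Set Pt} {e : Ed} (h : pres K e) : tl e ∈ VK K ∧ hd e ∈ VK K := by
  obtain ⟨b, x⟩ := e
  obtain ⟨c, d⟩ := x
  rcases h with h | h
  · refine ⟨⟨_, h, ?_⟩, ⟨_, h, ?_⟩⟩ <;> cases b <;> simp [IsCor, tl, hd, lf]
  · refine ⟨⟨_, h, ?_⟩, ⟨_, h, ?_⟩⟩ <;> cases b <;> simp [IsCor, tl, hd, rf]

/-- reflection of steps -/
lemma FV_adj (hB : S_FB) {N T : ℕ} {y : Pt} (hF : Flat N T y) {a b : Pt}
    (ha : a ∈ clB (y.1 - 3 ^ T) (y.1 + 3 ^ T) y.2 (y.2 + 3 ^ T))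
    (hb : b ∈ clB (y.1 - 3 ^ T) (y.1 + 3 ^ T) y.2 (y.2 + 3 ^ T))
    (h : adj (Kept N) a b) : adj (Kept N) (rv y a) (rv y b) := by
  obtain ⟨e, he, h | h⟩ := h
  · have heT : e ∈ eT (blk T y) := FV_edge T y e (h.1 ▸ ha) (h.2 ▸ hb)
    refine ⟨FV_re y e, (FV_pres hB hF heT).2 he, ?_⟩
    rcases FV_ends y e with g | g
    · right; rw [g.1, g.2, h.1, h.2]; exact ⟨rfl, rfl⟩
    · left; rw [g.1, g.2, h.1, h.2]; exact ⟨rfl, rfl⟩
  · have heT : e ∈ eT (blk T y) := FV_edge T y e (h.1 ▸ hb) (h.2 ▸ ha)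
    refine ⟨FV_re y e, (FV_pres hB hF heT).2 he, ?_⟩
    rcases FV_ends y e with g | g
    · left; rw [g.1, g.2, h.1, h.2]; exact ⟨rfl, rfl⟩
    · right; rw [g.1, g.2, h.1, h.2]; exact ⟨rfl, rfl⟩

lemma FV_adj_VK {K : Set Pt} {a b : Pt} (h : adj K a b) : a ∈ VK K := by
  obtain ⟨e, he, h | h⟩ := h
  · rw [← h.1]; exact (FV_end_VK he).1
  · rw [← h.2]; exact (FV_end_VK he).2

/-- reflection of a connected vertex set with two points in the closed block -/
lemma FV_conn (hB : S_FB) {N T : ℕ} {y : Pt} (hF : Flat N T y) {Z : Set Pt}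
    (hZ : Conn (Kept N) Z) (hsub : Z ⊆ clB (y.1 - 3 ^ T) (y.1 + 3 ^ T) y.2 (y.2 + 3 ^ T))
    {x z : Pt} (hx : x ∈ Z) (hz : z ∈ Z) (hne : x ≠ z) :
    Conn (Kept N) {a | rv y a ∈ Z} := by
  have hstep : ∀ a ∈ Z, ∃ b ∈ Z, adj (Kept N) a b := by
    intro a ha
    have : ∃ c ∈ Z, a ≠ c := by
      by_cases hax : a = x
      · exact ⟨z, hz, by rw [hax]; exact hne⟩
      · exact ⟨x, hx, hax⟩
    obtain ⟨c, hc, hac⟩ := this
    rcases (hZ.2 a ha c hc).cases_head with h | ⟨b, hb, _⟩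
    · exact absurd h hac
    · exact ⟨b, hb.2.2, hb.1⟩
  constructor
  · intro a ha
    obtain ⟨b, hb, hab⟩ := hstep _ ha
    have h1 := FV_adj hB hF (hsub ha) (hsub hb) hab
    rw [FV_rv_rv] at h1
    exact FV_adj_VK h1
  · intro a ha b hb
    have h1 := hZ.2 _ ha _ hb
    have h2 : Relation.ReflTransGen
        (fun a b => adj (Kept N) a b ∧ a ∈ {a | rv y a ∈ Z} ∧ b ∈ {a | rv y a ∈ Z})
        (rv y (rv y a)) (rv y (rv y b)) := by
      refine Relation.ReflTransGen.lift (rv y) ?_ _ _ h1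
      rintro a' b' ⟨h3, h4, h5⟩
      refine ⟨FV_adj hB hF (hsub h4) (hsub h5) h3, ?_, ?_⟩
      · simp only [Set.mem_ofPred_eq, FV_rv_rv]; exact h4
      · simp only [Set.mem_ofPred_eq, FV_rv_rv]; exact h5
    rwa [FV_rv_rv, FV_rv_rv] at h2

theorem p_FV (hB : S_FB) : S_FV := by
  intro p q A ε N T₀ T y u w hp hpq hF hH
  have hEn0 : ∀ s : ℕ, s ≤ T → En p (Kept N) (fun x => - u (rv y x)) (blk s y) =
      En p (Kept N) u (blk s y) := by
    intro s hs
    have hsub : blk s y ⊆ blk T y := by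
      have := FV_blk_sub s T y 0 hs (by
        simp only [abs_zero, zero_mul, zero_add]
        exact pow_le_pow_right₀ (by norm_num) hs)
      simpa using this
    exact FV_En p hF u _ _ hsub (fun f => FV_blk0 s y f)
  refine ⟨⟨⟨?_, ?_, ?_⟩, ?_, ?_⟩, hEn0⟩
  · intro e he
    have he' := FV_mem_eT_re he
    obtain ⟨h1, h2⟩ := hH.bl.pr _ he'
    rw [FV_pres hB hF he] at h1 h2
    constructor
    · intro hpe
      have h3 := h1 hpe
      rcases FV_diff y u w e with g | g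
      · rw [g.1, g.2, h3]
      · rw [g.1, g.2, FV_phi_neg, h3]
    · intro hpe
      have h3 := h2 hpe
      rcases FV_diff y u w e with g | g
      · rw [g.2, h3]
      · rw [g.2, h3, neg_zero]
  · intro f h1 h2 h3 h4
    apply hH.bl.hol
    · simp only [rfc]; linarith
    · simp only [rfc]; linarith
    · exact h3
    · exact h4
  · intro f hf
    exact hH.bl.pos _ ((FV_blk0 T y f).1 hf)
  · intro s hs hsT
    rw [hEn0 s hsT.le, hEn0 (s + 1) hsT]
    exact hH.gro s hs hsT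
  · intro s k c hk hs hc Z hZ hsub hdis
    obtain ⟨x, hx, z, hz, hxz⟩ := hdis
    have hpos : (0 : ℤ) < 3 ^ (s - k) := by positivity
    have hne : x ≠ z := by
      rintro rfl
      simp [dis] at hxz
      linarith
    have hsT : s ≤ T := by
      by_contra hcon
      have h1 : (3 : ℤ) ^ T < 3 ^ s := pow_lt_pow_right₀ (by norm_num) (not_le.1 hcon)
      have h2 : 0 ≤ |c| * 3 ^ s := by positivity
      linarith
    have hbs := FV_blk_sub s T y c hsT hc
    have hp3 : (0 : ℤ) < 3 ^ s := by positivity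
    have hc1 : c * 3 ^ s ≤ |c| * 3 ^ s := mul_le_mul_of_nonneg_right (le_abs_self c) hp3.le
    have hc2 : -c * 3 ^ s ≤ |c| * 3 ^ s := mul_le_mul_of_nonneg_right (neg_le_abs c) hp3.le
    have hsT3 : (3 : ℤ) ^ s ≤ 3 ^ T := pow_le_pow_right₀ (by norm_num) hsT
    have hsubT : Z ⊆ clB (y.1 - 3 ^ T) (y.1 + 3 ^ T) y.2 (y.2 + 3 ^ T) := by
      intro a ha
      obtain ⟨a1, a2, a3, a4⟩ := hsub ha
      simp only at a1 a2 a3 a4
      exact ⟨by linarith, by linarith, a3, by linarith⟩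
    have hconn := FV_conn hB hF hZ hsubT hx hz hne
    have hcr := hH.crs s k (-c) hk hs (by rw [abs_neg]; exact hc)
    obtain ⟨x', hx', z', hz', h⟩ := hcr {a | rv y a ∈ Z} hconn (by
      intro a ha
      obtain ⟨a1, a2, a3, a4⟩ := hsub ha
      simp only [rv] at a1 a2 a3 a4
      refine ⟨?_, ?_, a3, a4⟩
      · simp only; linarith
      · simp only; linarith) ⟨rv y x, by simp only [Set.mem_ofPred_eq, FV_rv_rv]; exact hx,
        rv y z, by simp only [Set.mem_ofPred_eq, FV_rv_rv]; exact hz, by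
        have : dis (rv y x) (rv y z) = dis x z := by
          simp only [dis, rv]
          congr 1
          rw [show 2 * y.1 - x.1 - (2 * y.1 - z.1) = -(x.1 - z.1) by ring, abs_neg]
        rw [this]; exact hxz⟩
    refine ⟨rv y x', hx', rv y z', hz', ?_⟩
    simp only [FV_rv_rv]
    have hE : En p (Kept N) (fun x => - u (rv y x)) (blk s (y.1 + c * 3 ^ s, y.2)) =
        En p (Kept N) u (blk s (y.1 + (-c) * 3 ^ s, y.2)) :=
      FV_En p hF u _ _ hbs (fun f => FV_blk s y f c)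
    rw [hE]
    refine h.trans (le_of_eq ?_)
    rw [show -u x' - -u z' = -(u x' - u z') by ring, abs_neg]

end CarpetPI
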