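import Pool.Agent.Lib.MP_1d263a_an.PI.AllX
import Pool.Agent.Lib.MP_1d263a_an.PI.AllH
import Pool.Agent.Lib.MP_1d263a_an.PI.F
import Pool.Agent.Lib.MP_1d263a_an.PI.FA
import Pool.Agent.Lib.MP_1d263a_an.PI.FB
import Pool.Agent.Lib.MP_1d263a_an.PI.FC
import Pool.Agent.Lib.MP_1d263a_an.PI.FD
import Pool.Agent.Lib.MP_1d263a_an.PI.FE
import Pool.Agent.Lib.MP_1d263a_an.PI.FF
import Pool.Agent.Lib.MP_1d263a_an.PI.FG
import Pool.Agent.Lib.MP_1d263a_an.PI.FH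
import Pool.Agent.Lib.MP_1d263a_an.PI.FI
import Pool.Agent.Lib.MP_1d263a_an.PI.FJ
import Pool.Agent.Lib.MP_1d263a_an.PI.FK
import Pool.Agent.Lib.MP_1d263a_an.PI.FL
import Pool.Agent.Lib.MP_1d263a_an.PI.FR
import Pool.Agent.Lib.MP_1d263a_an.PI.FS
import Pool.Agent.Lib.MP_1d263a_an.PI.FT1
import Pool.Agent.Lib.MP_1d263a_an.PI.FT2
import Pool.Agent.Lib.MP_1d263a_an.PI.FT3
import Pool.Agent.Lib.MP_1d263a_an.PI.FT4
import Pool.Agent.Lib.MP_1d263a_an.PI.FU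
import Pool.Agent.Lib.MP_1d263a_an.PI.FV

/-!
# MP_1d263a_an, project PI, part F: all pieces together
-/

open Finset
open scoped Classical

namespace CarpetPI

theorem t_FA : S_FA := p_FA

theorem t_FB : S_FB := p_FB

theorem t_FC : S_FC := p_FC t_FB

theorem t_FR : S_FR := p_FR t_FA

theorem t_FD : S_FD := p_FD t_XG t_XH

theorem t_FE : S_FE := p_FE

theorem t_FF : S_FF := p_FF t_FC t_FE t_XE

theorem t_FG : S_FG := p_FG t_FB t_FC t_FE t_XE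

theorem t_FH : S_FH := p_FH t_FC t_FD t_FF

theorem t_FI : S_FI := p_FI t_FB t_FC t_FD t_FG

theorem t_FJ : S_FJ := p_FJ

theorem t_FK : S_FK := p_FK t_FA t_FD t_XL

theorem t_FL : S_FL := p_FL t_FA t_FC t_FD t_FR

theorem t_FU : S_FU := p_FU t_FA t_FC t_FD t_FR

theorem t_FV : S_FV := p_FV t_FB

theorem t_FS : S_FS := p_FS t_FA t_FC t_FR t_FV t_FH t_FI t_FJ t_FK t_FL

theorem t_FT1 : S_FT1 := p_FT1

theorem t_FT2 : S_FT2 := p_FT2

theorem t_FT3 : S_FT3 := p_FT3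

theorem t_FT4 : S_FT4 := p_FT4 t_FT1 t_FT2 t_FT3

/-- the final statement of part F -/
theorem t_Ffinal : S_Ffinal := p_Ffinal t_Hfinal t_FA t_FC t_FR t_FU t_FV t_FS t_FT4

end CarpetPI
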