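import Pool.Agent.Lib.MP_1d263a_an.PI.StmX

/-!
# MP_1d263a_an, project PI, piece XB: the topological crossing lemma
-/

open Finset
open scoped Classical

noncomputable section

namespace CarpetPI

theorem XB_row (σ : Pt → ℝ) (T : Set Pt) (h : ∀ e : Ed, tl e ∈ T → hd e ∈ T → du σ e = 0)
    (j i i' : ℤ) (hii : i ≤ i') (hT : ∀ t, i ≤ t → t ≤ i' → (t, j) ∈ T) : σ (i', j) = σ (i, j) := by
  induction i', hii using Int.leInduction with
  | base => rfl
  | succ n hn ih =>
    have h1 := ih (fun t h1 h2 => hT t h1 (by omega))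
    have h2 := h (false, (n, j)) (by
      show (n, j) ∈ T
      exact hT n hn (by omega)) (by
      show (if false = true then ((n, j).1, (n, j).2 + 1) else ((n, j).1 + 1, (n, j).2)) ∈ T
      simpa using hT (n + 1) (by omega) le_rfl)
    have h3 : du σ (false, (n, j)) = σ (n + 1, j) - σ (n, j) := by
      simp [du, hd, tl]
    rw [h3] at h2
    linarith

theorem XB_col (σ : Pt → ℝ) (T : Set Pt) (h : ∀ e : Ed, tl e ∈ T → hd e ∈ T → du σ e = 0)
    (i j j' : ℤ) (hjj : j ≤ j') (hT : ∀ t, j ≤ t → t ≤ j' → (i, t) ∈ T) : σ (i, j') = σ (i, j) := by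
  induction j', hjj using Int.leInduction with
  | base => rfl
  | succ n hn ih =>
    have h1 := ih (fun t h1 h2 => hT t h1 (by omega))
    have h2 := h (true, (i, n)) (by
      show (i, n) ∈ T
      exact hT n hn (by omega)) (by
      show (if true = true then ((i, n).1, (i, n).2 + 1) else ((i, n).1 + 1, (i, n).2)) ∈ T
      simpa using hT (n + 1) (by omega) le_rfl)
    have h3 : du σ (true, (i, n)) = σ (i, n + 1) - σ (i, n) := by
      simp [du, hd, tl]
    rw [h3] at h2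
    linarith

theorem XB_row' (σ : Pt → ℝ) (T : Set Pt) (h : ∀ e : Ed, tl e ∈ T → hd e ∈ T → du σ e = 0)
    (j i i' : ℤ) (hT : ∀ t, min i i' ≤ t → t ≤ max i i' → (t, j) ∈ T) : σ (i', j) = σ (i, j) := by
  rcases le_total i i' with h1 | h1
  · exact XB_row σ T h j i i' h1 (fun t h2 h3 => hT t (by omega) (by omega))
  · exact (XB_row σ T h j i' i h1 (fun t h2 h3 => hT t (by omega) (by omega))).symm

theorem XB_col' (σ : Pt → ℝ) (T : Set Pt) (h : ∀ e : Ed, tl e ∈ T → hd e ∈ T → du σ e = 0)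
    (i j j' : ℤ) (hT : ∀ t, min j j' ≤ t → t ≤ max j j' → (i, t) ∈ T) : σ (i, j') = σ (i, j) := by
  rcases le_total j j' with h1 | h1
  · exact XB_col σ T h i j j' h1 (fun t h2 h3 => hT t (by omega) (by omega))
  · exact (XB_col σ T h i j' j h1 (fun t h2 h3 => hT t (by omega) (by omega))).symm

/-- constant on a closed box -/
theorem XB_box (σ : Pt → ℝ) (a b c d : ℤ)
    (h : ∀ e : Ed, tl e ∈ clB a b c d → hd e ∈ clB a b c d → du σ e = 0)
    (x y : Pt) (hx : x ∈ clB a b c d) (hy : y ∈ clB a b c d) : σ x = σ y := by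
  obtain ⟨x1, x2⟩ := x
  obtain ⟨y1, y2⟩ := y
  obtain ⟨a1, a2, a3, a4⟩ := hx
  obtain ⟨b1, b2, b3, b4⟩ := hy
  simp only at a1 a2 a3 a4 b1 b2 b3 b4
  have h1 : σ (y1, x2) = σ (x1, x2) := XB_row' σ _ h x2 x1 y1 (fun t h1 h2 => by
    refine ⟨?_, ?_, ?_, ?_⟩ <;> simp only <;> omega)
  have h2 : σ (y1, y2) = σ (y1, x2) := XB_col' σ _ h y1 x2 y2 (fun t h1 h2 => by
    refine ⟨?_, ?_, ?_, ?_⟩ <;> simp only <;> omega)
  rw [h2, h1]

/-- constant outside an open box -/
theorem XB_out (σ : Pt → ℝ) (A B C D : ℤ)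
    (h : ∀ e : Ed, tl e ∈ (opB A B C D)ᶜ → hd e ∈ (opB A B C D)ᶜ → du σ e = 0)
    (x : Pt) (hx : x ∉ opB A B C D) : σ x = σ (A, D) := by
  obtain ⟨i, j⟩ := x
  have mem : ∀ i j : ℤ, (i ≤ A ∨ B ≤ i ∨ j ≤ C ∨ D ≤ j) → (i, j) ∈ (opB A B C D)ᶜ := by
    intro i j h1 h2
    obtain ⟨h3, h4, h5, h6⟩ := h2
    simp only at h3 h4 h5 h6
    omega
  have hij : i ≤ A ∨ B ≤ i ∨ j ≤ C ∨ D ≤ j := by
    by_contra hcon
    push Not at hcon
    exact hx ⟨hcon.1, hcon.2.1, hcon.2.2.1, hcon.2.2.2⟩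
  have keyc : (i ≤ A ∨ B ≤ i) → σ (i, j) = σ (A, D) := by
    intro h1
    have h2 : σ (i, D) = σ (i, j) := XB_col' σ _ h i j D (fun t _ _ => mem i t (by tauto))
    have h3 : σ (i, D) = σ (A, D) := XB_row' σ _ h D A i (fun t _ _ => mem t D (by
      right; right; right; exact le_rfl))
    rw [← h2, h3]
  have keyr : (j ≤ C ∨ D ≤ j) → σ (i, j) = σ (A, D) := by
    intro h1
    have h2 : σ (A, j) = σ (i, j) := XB_row' σ _ h j i A (fun t _ _ => mem t j (by tauto))
    have h3 : σ (A, j) = σ (A, D) := XB_col' σ _ h A D j (fun t _ _ => mem A t (by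
      left; exact le_rfl))
    rw [← h2, h3]
  rcases hij with h1 | h1 | h1 | h1
  · exact keyc (Or.inl h1)
  · exact keyc (Or.inr h1)
  · exact keyr (Or.inl h1)
  · exact keyr (Or.inr h1)

theorem XB_tl_cor (e : Ed) : IsCor (tl e) (lf e) ∧ IsCor (tl e) (rf e) := by
  obtain ⟨b, x⟩ := e
  cases b <;> simp [IsCor, tl, lf, rf]

theorem XB_conn (τ : Pt → ℝ) (P : Set Pt) (hP : FConn P)
    (h : ∀ f ∈ P, ∀ x y : Pt, IsCor x f → IsCor y f → τ x = τ y)
    (f : Pt) (hf : f ∈ P) (g : Pt) (hg : g ∈ P) (x y : Pt) (hx : IsCor x f) (hy : IsCor y g) :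
    τ x = τ y := by
  have key : ∀ g' : Pt, Relation.ReflTransGen (fun a b => fadj a b ∧ a ∈ P ∧ b ∈ P) f g' →
      ∀ y : Pt, IsCor y g' → τ x = τ y := by
    intro g' hg'
    induction hg' with
    | refl => intro y hy; exact h f hf x y hx hy
    | tail _ hbc ih =>
      intro y hy
      obtain ⟨⟨e, he⟩, hb, hc⟩ := hbc
      obtain ⟨h1, h2⟩ := XB_tl_cor e
      rcases he with ⟨he1, he2⟩ | ⟨he1, he2⟩
      · rw [he1] at h1
        rw [he2] at h2
        exact (ih _ h1).trans (h _ hc _ _ h2 hy)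
      · rw [he1] at h1
        rw [he2] at h2
        exact (ih _ h2).trans (h _ hc _ _ h1 hy)
  exact key g (hP f hf g hg) y hy

/-- a function with zero differences on the sides of a face is constant on the corners -/
theorem XB_face (τ : Pt → ℝ) (f : Pt) (h : ∀ e : Ed, lf e = f ∨ rf e = f → du τ e = 0)
    (x y : Pt) (hx : IsCor x f) (hy : IsCor y f) : τ x = τ y := by
  obtain ⟨i, j⟩ := f
  have h1 := h (false, (i, j)) (by left; simp [lf])
  have h2 := h (true, (i + 1, j)) (by left; simp [lf])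
  have h3 := h (false, (i, j + 1)) (by right; simp [rf])
  have h4 := h (true, (i, j)) (by right; simp [rf])
  simp only [du, hd, tl, Bool.false_eq_true, if_false, if_true] at h1 h2 h3 h4
  have key : ∀ z : Pt, IsCor z (i, j) → τ z = τ (i, j) := by
    rintro ⟨z1, z2⟩ ⟨hz1, hz2⟩
    simp only at hz1 hz2
    rcases hz1 with rfl | rfl <;> rcases hz2 with rfl | rfl <;> linarith
  rw [key x hx, key y hy]

theorem p_XB (hXA : S_XA) : S_XB := by
  intro a b c d A B C D S F P P' hAB hCD hclS hSop hPF hP'F hcr hcr'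
  by_contra hno
  push Not at hno
  set s : Pt → ℝ := fun x => if x ∈ S then 1 else 0 with hs
  set k : Ed → ℝ := fun e => if lf e ∈ F then du s e else 0 with hk
  have hdus : ∀ e : Ed, (tl e ∈ S ↔ hd e ∈ S) → du s e = 0 := by
    intro e he
    simp only [du, hs]
    by_cases h1 : tl e ∈ S
    · rw [if_pos h1, if_pos (he.1 h1)]; ring
    · rw [if_neg h1, if_neg (fun h2 => h1 (he.2 h2))]; ring
  have hno' : ∀ e : Ed, ¬ (lf e ∈ F ↔ rf e ∈ F) → du s e = 0 := by
    intro e he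
    apply hdus
    by_contra h1
    exact he (hno e (by tauto))
  have hkA : ∀ f ∈ F, ∀ e : Ed, lf e = f ∨ rf e = f → k e = du s e := by
    intro f hf e he
    simp only [hk]
    by_cases h1 : lf e ∈ F
    · rw [if_pos h1]
    · rw [if_neg h1]
      rcases he with he | he
      · exact absurd (he ▸ hf) h1
      · rw [hno' e (fun h2 => h1 (h2.2 (he ▸ hf)))]
  have hkB : ∀ f, f ∉ F → ∀ e : Ed, lf e = f ∨ rf e = f → k e = 0 := by
    intro f hf e he
    simp only [hk]
    by_cases h1 : lf e ∈ F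
    · rw [if_pos h1]
      rcases he with he | he
      · exact absurd (he ▸ h1) hf
      · exact hno' e (fun h2 => hf (he ▸ (h2.1 h1)))
    · rw [if_neg h1]
  have hkz : ∀ e : Ed, du s e = 0 → k e = 0 := by
    intro e he
    simp only [hk, he, ite_self]
  have hsides : ∀ f : Pt, (lf (false, f) = f ∨ rf (false, f) = f) ∧
      (lf (true, (f.1 + 1, f.2)) = f ∨ rf (true, (f.1 + 1, f.2)) = f) ∧
      (lf (false, (f.1, f.2 + 1)) = f ∨ rf (false, (f.1, f.2 + 1)) = f) ∧
      (lf (true, f) = f ∨ rf (true, f) = f) := by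
    rintro ⟨i, j⟩
    refine ⟨?_, ?_, ?_, ?_⟩
    · left; simp [lf]
    · left; simp [lf]
    · right; simp [rf]
    · right; simp [rf]
  obtain ⟨σ, hσ⟩ := hXA k (by
    intro f
    obtain ⟨e1, e2, e3, e4⟩ := hsides f
    by_cases hf : f ∈ F
    · unfold curl
      rw [hkA f hf _ e1, hkA f hf _ e2, hkA f hf _ e3, hkA f hf _ e4]
      simp only [du, hd, tl, Bool.false_eq_true, if_false, if_true]
      ring
    · unfold curl
      rw [hkB f hf _ e1, hkB f hf _ e2, hkB f hf _ e3, hkB f hf _ e4]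
      ring)
  obtain ⟨hPc, ⟨f0, hf0, x0, hx0, hx0f⟩, ⟨f1, hf1, x1, hx1, hx1f⟩⟩ := hcr
  obtain ⟨hPc', ⟨g0, hg0, y0, hy0, hy0f⟩, ⟨g1, hg1, y1, hy1, hy1f⟩⟩ := hcr'
  -- (1)
  have h1 : σ x0 = σ y0 := by
    apply XB_box σ a b c d _ x0 y0 hx0 hy0
    intro e he1 he2
    rw [hσ]
    apply hkz
    apply hdus
    exact ⟨fun _ => hclS he2, fun _ => hclS he1⟩
  -- (2)
  have hout : ∀ x, x ∉ opB A B C D → σ x = σ (A, D) := by
    intro x hx
    apply XB_out σ A B C D _ x hx
    intro e he1 he2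
    rw [hσ]
    apply hkz
    apply hdus
    exact ⟨fun h => absurd (hSop h) he1, fun h => absurd (hSop h) he2⟩
  have h2 : σ x1 = σ y1 := by rw [hout x1 hx1, hout y1 hy1]
  -- (3)
  have h3 : σ x0 - s x0 = σ x1 - s x1 := by
    apply XB_conn (fun x => σ x - s x) P hPc _ f0 hf0 f1 hf1 x0 x1 hx0f hx1f
    intro f hf x y hx hy
    apply XB_face (fun x => σ x - s x) f _ x y hx hy
    intro e he
    have h4 : du (fun x => σ x - s x) e = du σ e - du s e := by
      simp only [du]; ring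
    rw [h4, hσ, hkA f (hPF hf) e he, sub_self]
  -- (4)
  have h4 : σ y0 = σ y1 := by
    apply XB_conn σ P' hPc' _ g0 hg0 g1 hg1 y0 y1 hy0f hy1f
    intro f hf x y hx hy
    apply XB_face σ f _ x y hx hy
    intro e he
    rw [hσ]
    exact hkB f (fun h5 => Set.disjoint_left.1 hP'F hf h5) e he
  have h5 : s x0 = 1 := by
    simp only [hs]; rw [if_pos (hclS hx0)]
  have h6 : s x1 = 0 := by
    simp only [hs]; rw [if_neg (fun h => hx1 (hSop h))]
  rw [h5, h6] at h3
  linarith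

end CarpetPI
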