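import Pool.Agent.Lib.MP_1d263a_an.PI.StmX

set_option autoImplicit false

open MeasureTheory

namespace CarpetPI

theorem XC_vol (a b : ℝ) : volume (Set.Icc (min a b) (max a b)) = ENNReal.ofReal |b - a| := by
  rw [Real.volume_Icc, max_sub_min_eq_abs]

theorem p_XC : S_XC := by
  intro E l r l' r' h
  have key : (Set.Ioo (0 : ℝ) 1 ×ˢ Set.Ioo (0 : ℝ) 1) ⊆
      ⋃ i ∈ E, (Set.Icc (min (l i) (r i)) (max (l i) (r i)) ×ˢ
        Set.Icc (min (l' i) (r' i)) (max (l' i) (r' i))) := by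
    rintro ⟨s, t⟩ ⟨⟨hs0, hs1⟩, ⟨ht0, ht1⟩⟩
    obtain ⟨i, hi, h1, h2, h3, h4⟩ := h s hs0 hs1 t ht0 ht1
    exact Set.mem_biUnion (x := i) hi ⟨⟨h1, h2⟩, ⟨h3, h4⟩⟩
  have h1 := (measure_mono (μ := (volume : Measure (ℝ × ℝ))) key).trans
    (measure_biUnion_finset_le E _)
  rw [Measure.volume_eq_prod, Measure.prod_prod, Real.volume_Ioo, sub_zero] at h1
  simp only [Measure.prod_prod, XC_vol] at h1
  rw [ENNReal.ofReal_one, one_mul] at h1
  have h2 : ∑ i ∈ E, ENNReal.ofReal |r i - l i| * ENNReal.ofReal |r' i - l' i| =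
      ENNReal.ofReal (∑ i ∈ E, |r i - l i| * |r' i - l' i|) := by
    rw [ENNReal.ofReal_sum_of_nonneg (fun i _ => by positivity)]
    exact Finset.sum_congr rfl fun i _ => (ENNReal.ofReal_mul (abs_nonneg _)).symm
  rw [h2, ENNReal.one_le_ofReal] at h1
  exact h1

end CarpetPI
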