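import Pool.Agent.Lib.MP_1d263a_an.PI.StmX

set_option autoImplicit false

/-!
# MP_1d263a_an, project PI, piece XD: the crossing inequality
-/

open Finset
open scoped Classical

noncomputable section

namespace CarpetPI

private theorem XD_sep {u v s : ℝ} (h : ¬ (u < s ↔ v < s)) : min u v ≤ s ∧ s ≤ max u v := by
  by_cases hu : u < s
  · have hv : ¬ v < s := fun hv => h ⟨fun _ => hv, fun _ => hu⟩
    exact ⟨(min_le_left u v).trans hu.le, (not_lt.mp hv).trans (le_max_right u v)⟩
  · have hv : v < s := by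
      by_contra hv
      exact h ⟨fun h1 => absurd h1 hu, fun h1 => absurd h1 hv⟩
    exact ⟨(min_le_right u v).trans hv.le, (not_lt.mp hu).trans (le_max_left u v)⟩

theorem p_XD (hXB : S_XB) (hXC : S_XC) : S_XD := by
  intro a b c d A B C D χ φ P P' E hAB hCD h0 h1 hP hP' hc hc' hE
  refine hXC E (fun e => χ (tl e)) (fun e => χ (hd e)) (fun e => φ (rf e)) (fun e => φ (lf e)) ?_
  intro s hs0 hs1 t ht0 ht1
  have hS : {x : Pt | χ x < s} ⊆ opB A B C D := by
    intro x hx
    by_contra hn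
    have h2 := h1 x hn
    have h3 : χ x < s := hx
    linarith
  obtain ⟨e, he1, he2⟩ := hXB a b c d A B C D {x : Pt | χ x < s} {f : Pt | φ f < t} P P' hAB hCD
    (fun x hx => lt_of_le_of_lt (h0 x hx) hs0) hS
    (fun f hf => lt_of_le_of_lt (hP f hf) ht0)
    (Set.disjoint_left.mpr fun f hf hf' => by
      have h2 := hP' f hf
      have h3 : φ f < t := hf'
      linarith) hc hc'
  have he1' : ¬ (χ (tl e) < s ↔ χ (hd e) < s) := he1
  have he2' : ¬ (φ (rf e) < t ↔ φ (lf e) < t) := fun h => he2 h.symm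
  refine ⟨e, hE e ?_, (XD_sep he1').1, (XD_sep he1').2, (XD_sep he2').1, (XD_sep he2').2⟩
  by_cases h : χ (tl e) < s
  · exact Or.inl (hS h)
  · refine Or.inr (hS ?_)
    by_contra hn
    exact he1' ⟨fun h1 => absurd h1 h, fun h1 => absurd h1 hn⟩

end CarpetPI
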