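import Pool.Agent.Lib.MP_1d263a_an.PI.StmX

/-!
# MP_1d263a_an, project PI, piece XE: the length-crossing inequality
-/

open Finset
open scoped Classical

noncomputable section

namespace CarpetPI

/-- walks in the network from a point of `S`, with their lengths -/
private inductive XE_W (K S : Set Pt) (ℓ : Ed → ℝ) : Pt → ℝ → Prop
  | base (x : Pt) : x ∈ VK K → x ∈ S → XE_W K S ℓ x 0
  | step (x y : Pt) (r : ℝ) (e : Ed) : XE_W K S ℓ x r → pres K e →
      ((tl e = x ∧ hd e = y) ∨ (tl e = y ∧ hd e = x)) → XE_W K S ℓ y (r + ℓ e)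

private theorem XE_ends {K : Set Pt} {e : Ed} (he : pres K e) : tl e ∈ VK K ∧ hd e ∈ VK K := by
  obtain ⟨b, x⟩ := e
  cases b
  · rcases he with he | he
    · refine ⟨⟨_, he, ?_⟩, ⟨_, he, ?_⟩⟩ <;> simp [IsCor, tl, hd, lf]
    · refine ⟨⟨_, he, ?_⟩, ⟨_, he, ?_⟩⟩ <;> simp [IsCor, tl, hd, rf]
  · rcases he with he | he
    · refine ⟨⟨_, he, ?_⟩, ⟨_, he, ?_⟩⟩ <;> simp [IsCor, tl, hd, lf]
    · refine ⟨⟨_, he, ?_⟩, ⟨_, he, ?_⟩⟩ <;> simp [IsCor, tl, hd, rf]

private theorem XE_inv {K S : Set Pt} {u u' : Pt → ℝ} {x : Pt} {r : ℝ}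
    (h : XE_W K S (fun e => |du u e| + |du u' e|) x r) :
    0 ≤ r ∧ ∃ Z : Set Pt, Conn K Z ∧ x ∈ Z ∧ (∃ z ∈ Z, z ∈ S) ∧
      ∀ z ∈ Z, ∀ z' ∈ Z, |u z - u z'| + |u' z - u' z'| ≤ r := by
  induction h with
  | base x hx hS =>
    refine ⟨le_refl _, {x}, ⟨?_, ?_⟩, rfl, ⟨x, rfl, hS⟩, ?_⟩
    · rintro y rfl; exact hx
    · rintro y rfl z rfl; exact Relation.ReflTransGen.refl
    · rintro y rfl z rfl; simp
  | step x y r e hx he hxy ih =>
    obtain ⟨hr, Z, hZ, hxZ, hS, hosc⟩ := ih
    have hadj : adj K x y ∧ adj K y x := by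
      rcases hxy with h | h
      · exact ⟨⟨e, he, Or.inl h⟩, ⟨e, he, Or.inr h⟩⟩
      · exact ⟨⟨e, he, Or.inr h⟩, ⟨e, he, Or.inl h⟩⟩
    have hyV : y ∈ VK K := by
      rcases hxy with h | h
      · rw [← h.2]; exact (XE_ends he).2
      · rw [← h.1]; exact (XE_ends he).1
    have hl : |u x - u y| + |u' x - u' y| = |du u e| + |du u' e| := by
      rcases hxy with h | h
      · unfold du; rw [h.1, h.2, abs_sub_comm (u x), abs_sub_comm (u' x)]
      · unfold du; rw [h.1, h.2]
    have h0 : 0 ≤ |du u e| + |du u' e| := by positivity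
    refine ⟨by positivity, insert y Z, ⟨?_, ?_⟩, Set.mem_insert _ _, ?_, ?_⟩
    · intro z hz
      rcases hz with rfl | hz
      · exact hyV
      · exact hZ.1 hz
    · have hmono : ∀ z ∈ Z, ∀ z' ∈ Z, Relation.ReflTransGen
          (fun a b => adj K a b ∧ a ∈ insert y Z ∧ b ∈ insert y Z) z z' := by
        intro z hz z' hz'
        refine Relation.ReflTransGen.mono ?_ z z' (hZ.2 z hz z' hz')
        intro a b hab
        exact ⟨hab.1, Set.mem_insert_of_mem _ hab.2.1, Set.mem_insert_of_mem _ hab.2.2⟩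
      have hxin : x ∈ insert y Z := Set.mem_insert_of_mem _ hxZ
      have hyin : y ∈ insert y Z := Set.mem_insert _ _
      intro z hz z' hz'
      rcases hz with rfl | hz <;> rcases hz' with rfl | hz'
      · exact Relation.ReflTransGen.refl
      · exact Relation.ReflTransGen.head ⟨hadj.2, hyin, hxin⟩ (hmono x hxZ z' hz')
      · exact Relation.ReflTransGen.tail (hmono z hz x hxZ) ⟨hadj.1, hxin, hyin⟩
      · exact hmono z hz z' hz'
    · obtain ⟨z, hz, hzS⟩ := hS
      exact ⟨z, Set.mem_insert_of_mem _ hz, hzS⟩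
    · intro z hz z' hz'
      have key : ∀ z ∈ Z, |u z - u y| + |u' z - u' y| ≤ r + (|du u e| + |du u' e|) := by
        intro z hz
        have h1 := hosc z hz x hxZ
        have h2 : |u z - u y| ≤ |u z - u x| + |u x - u y| := abs_sub_le _ _ _
        have h3 : |u' z - u' y| ≤ |u' z - u' x| + |u' x - u' y| := abs_sub_le _ _ _
        linarith
      rcases hz with rfl | hz <;> rcases hz' with rfl | hz'
      · simp only [sub_self, abs_zero, add_zero]; linarith
      · rw [abs_sub_comm (u z), abs_sub_comm (u' z)]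
        exact key z' hz'
      · exact key z hz
      · have := hosc z hz z' hz'
        show _ ≤ r + (|du u e| + |du u' e|)
        linarith

/-- **XE.** -/
theorem p_XE (hXD : S_XD) : S_XE := by
  intro K a b c d A B C D u u' φ m P P' E hAB hCD hcl hm hZ hP hP' hc hc' hE habs
  rcases hm.eq_or_lt with hm0 | hmpos
  · rw [← hm0]
    exact Finset.sum_nonneg fun e _ => by positivity
  set ℓ : Ed → ℝ := fun e => |du u e| + |du u' e| with hℓ
  set W : Pt → ℝ → Prop := XE_W K (clB a b c d) ℓ with hW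
  set L : Pt → ℝ := fun x => sInf {r | W x r} with hL
  have hpos : ∀ x r, W x r → 0 ≤ r := fun x r h => (XE_inv h).1
  have hbdd : ∀ x, BddBelow {r | W x r} := fun x => ⟨0, fun r hr => hpos x r hr⟩
  have hLn : ∀ x, (∃ r, W x r) → 0 ≤ L x := fun x hx =>
    le_csInf hx (fun r hr => hpos x r hr)
  have hstep : ∀ x y : Pt, ∀ e : Ed, pres K e →
      ((tl e = x ∧ hd e = y) ∨ (tl e = y ∧ hd e = x)) → (∃ r, W x r) →
      (∃ r, W y r) ∧ L y ≤ L x + ℓ e := by
    intro x y e he hxy hx
    refine ⟨?_, ?_⟩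
    · obtain ⟨r, hr⟩ := hx
      exact ⟨_, XE_W.step x y r e hr he hxy⟩
    · have : L y - ℓ e ≤ L x := by
        refine le_csInf hx ?_
        intro r hr
        have h1 : L y ≤ r + ℓ e := csInf_le (hbdd y) (XE_W.step x y r e hr he hxy)
        linarith
      linarith
  have hout : ∀ x, (∃ r, W x r) → x ∉ opB A B C D → m ≤ L x := by
    intro x hx hxo
    refine le_csInf hx ?_
    intro r hr
    obtain ⟨_, Z, hZc, hxZ, hS, hosc⟩ := XE_inv hr
    obtain ⟨z, hz, z', hz', hmz⟩ := hZ Z hZc hS ⟨x, hxZ, hxo⟩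
    exact hmz.trans (hosc z hz z' hz')
  set χ : Pt → ℝ := fun x => if x ∈ VK K then (if ∃ r, W x r then min 1 (L x / m) else 1)
    else (if x ∈ opB A B C D then 0 else 1) with hχ
  have hχ0 : ∀ x ∈ clB a b c d, χ x ≤ 0 := by
    intro x hx
    by_cases hV : x ∈ VK K
    · have hw : W x 0 := XE_W.base x hV hx
      have hex : ∃ r, W x r := ⟨0, hw⟩
      have h1 : L x ≤ 0 := csInf_le (hbdd x) hw
      have h2 : χ x = min 1 (L x / m) := by simp only [hχ, if_pos hV, if_pos hex]
      rw [h2]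
      exact (min_le_right _ _).trans (div_nonpos_of_nonpos_of_nonneg h1 hmpos.le)
    · have h2 : χ x = 0 := by simp only [hχ, if_neg hV, if_pos (hcl hx)]
      rw [h2]
  have hχ1 : ∀ x, x ∉ opB A B C D → 1 ≤ χ x := by
    intro x hx
    by_cases hV : x ∈ VK K
    · by_cases hex : ∃ r, W x r
      · have h2 : χ x = min 1 (L x / m) := by simp only [hχ, if_pos hV, if_pos hex]
        rw [h2]
        exact le_min le_rfl ((one_le_div hmpos).2 (hout x hex hx))
      · have h2 : χ x = 1 := by simp only [hχ, if_pos hV, if_neg hex]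
        rw [h2]
    · have h2 : χ x = 1 := by simp only [hχ, if_neg hV, if_neg hx]
      rw [h2]
  have hdu : ∀ e, pres K e → |du χ e| ≤ ℓ e / m := by
    intro e he
    obtain ⟨ht, hh⟩ := XE_ends he
    have hℓ0 : 0 ≤ ℓ e := by simp only [hℓ]; positivity
    by_cases hex : ∃ r, W (tl e) r
    · obtain ⟨hex', h1⟩ := hstep (tl e) (hd e) e he (Or.inl ⟨rfl, rfl⟩) hex
      obtain ⟨_, h2⟩ := hstep (hd e) (tl e) e he (Or.inr ⟨rfl, rfl⟩) hex'
      have e1 : χ (tl e) = min 1 (L (tl e) / m) := by simp only [hχ, if_pos ht, if_pos hex]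
      have e2 : χ (hd e) = min 1 (L (hd e) / m) := by simp only [hχ, if_pos hh, if_pos hex']
      unfold du
      rw [e1, e2]
      have h3 : |L (hd e) / m - L (tl e) / m| ≤ ℓ e / m := by
        rw [← sub_div, abs_div, abs_of_pos hmpos]
        refine div_le_div_of_nonneg_right ?_ hmpos.le
        rw [abs_le]
        constructor <;> linarith
      refine le_trans ?_ h3
      have := abs_min_sub_min_le_max 1 (L (hd e) / m) 1 (L (tl e) / m)
      simpa using this
    · have hex' : ¬ ∃ r, W (hd e) r := fun h =>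
        hex (hstep (hd e) (tl e) e he (Or.inr ⟨rfl, rfl⟩) h).1
      have e1 : χ (tl e) = 1 := by simp only [hχ, if_pos ht, if_neg hex]
      have e2 : χ (hd e) = 1 := by simp only [hχ, if_pos hh, if_neg hex']
      unfold du
      rw [e1, e2]
      simp only [sub_self, abs_zero]
      positivity
  have hmain := hXD a b c d A B C D χ φ P P' E hAB hCD hχ0 hχ1 hP hP' hc hc' hE
  have hsplit : ∑ e ∈ E, |du χ e| * |dv φ e| =
      ∑ e ∈ E.filter (fun e => pres K e), |du χ e| * |dv φ e| := by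
    rw [Finset.sum_filter]
    refine Finset.sum_congr rfl fun e he => ?_
    split_ifs with h
    · rfl
    · rw [habs e he h]; simp
  rw [hsplit] at hmain
  have hle : ∑ e ∈ E.filter (fun e => pres K e), |du χ e| * |dv φ e| ≤
      ∑ e ∈ E.filter (fun e => pres K e), (ℓ e * |dv φ e|) / m := by
    refine Finset.sum_le_sum fun e he => ?_
    have h1 := hdu e (Finset.mem_filter.1 he).2
    calc |du χ e| * |dv φ e| ≤ (ℓ e / m) * |dv φ e| := mul_le_mul_of_nonneg_right h1 (abs_nonneg _)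
      _ = (ℓ e * |dv φ e|) / m := by ring
  rw [← Finset.sum_div] at hle
  have h5 := hmain.trans hle
  rw [le_div_iff₀ hmpos, one_mul] at h5
  exact h5

end CarpetPI
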