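import Pool.Agent.Lib.MP_1d263a_an.PI.StmX

/-!
# MP_1d263a_an, project PI, part X: piece XF (K-Loewner inequality)
-/

set_option autoImplicit false

open Finset
open scoped Classical

noncomputable section

namespace CarpetPI

/-- Cauchy-Schwarz in the form used here -/
theorem XF_cs {ι : Type} (s : Finset ι) (l f g : ι → ℝ) (c m : ℝ) (hc : 0 ≤ c) (hm : 0 ≤ m)
    (hl : ∀ i ∈ s, l i ^ 2 ≤ c * (f i * g i)) (hf : ∀ i ∈ s, 0 ≤ f i) (hg : ∀ i ∈ s, 0 ≤ g i)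
    (h : m ≤ ∑ i ∈ s, l i) : m ^ 2 ≤ c * (∑ i ∈ s, f i) * ∑ i ∈ s, g i := by
  have h1 : (∑ i ∈ s, l i) ^ 2 ≤ (∑ i ∈ s, c * f i) * ∑ i ∈ s, g i :=
    Finset.sum_sq_le_sum_mul_sum_of_sq_le_mul s (fun i hi => mul_nonneg hc (hf i hi)) hg
      (fun i hi => (hl i hi).trans_eq (mul_assoc c (f i) (g i)).symm)
  rw [← Finset.mul_sum] at h1
  exact (pow_le_pow_left₀ hm h 2).trans h1

/-- [XF] K-Loewner inequality. -/
theorem p_XF (hXE : S_XE) : S_XF := by
  intro q Cc K a b c d A B C D u u' v v' φ w m P P' E hCc hAB hCD hcl hm hZ hP hP' hX hX' hE hab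
    hw hlen
  have h1 := hXE K a b c d A B C D u u' φ m P P' E hAB hCD hcl hm hZ hP hP' hX hX' hE hab
  refine XF_cs (E.filter fun e => pres K e) _ (fun e => (|dv v e| + |dv v' e|) ^ q)
    (fun e => w e * |dv φ e| ^ 2) Cc m hCc hm (fun e he => ?_) (fun e he => ?_) (fun e he => ?_) h1
  · have he' := Finset.mem_filter.1 he
    have h2 := mul_le_mul_of_nonneg_right (hlen e he'.1 he'.2) (sq_nonneg |dv φ e|)
    calc ((|du u e| + |du u' e|) * |dv φ e|) ^ 2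
        = (|du u e| + |du u' e|) ^ 2 * |dv φ e| ^ 2 := by ring
      _ ≤ Cc * w e * (|dv v e| + |dv v' e|) ^ q * |dv φ e| ^ 2 := h2
      _ = Cc * ((|dv v e| + |dv v' e|) ^ q * (w e * |dv φ e| ^ 2)) := by ring
  · exact Real.rpow_nonneg (add_nonneg (abs_nonneg _) (abs_nonneg _)) q
  · have he' := Finset.mem_filter.1 he
    exact mul_nonneg (hw e he'.1 he'.2) (sq_nonneg _)

end CarpetPI
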