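import Pool.Agent.Lib.MP_1d263a_an.PI.StmX

set_option autoImplicit false

/-!
# MP_1d263a_an, project PI, part X, piece XG (helper68): Green's identity
-/

open Finset
open scoped Classical

noncomputable section

namespace CarpetPI

private def XG_ind (x : Pt) : Pt → ℝ := fun y => if y = x then 1 else 0

private lemma XG_expand (s : Pt → ℝ) (B : Finset Pt) (hs : ∀ x, x ∉ B → s x = 0) (y : Pt) :
    s y = ∑ x ∈ B, s x * XG_ind x y := by
  simp only [XG_ind, mul_ite, mul_one, mul_zero]
  rw [Finset.sum_ite_eq]
  by_cases h : y ∈ B
  · simp [h]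
  · simp [h, hs y h]

private lemma XG_du (s : Pt → ℝ) (B : Finset Pt) (hs : ∀ x, x ∉ B → s x = 0) (e : Ed) :
    du s e = ∑ x ∈ B, s x * du (XG_ind x) e := by
  simp only [du]
  rw [XG_expand s B hs (hd e), XG_expand s B hs (tl e), ← Finset.sum_sub_distrib]
  exact Finset.sum_congr rfl fun x _ => by ring

private lemma XG_dv (s : Pt → ℝ) (B : Finset Pt) (hs : ∀ x, x ∉ B → s x = 0) (e : Ed) :
    dv s e = ∑ x ∈ B, s x * dv (XG_ind x) e := by
  simp only [dv]
  rw [XG_expand s B hs (lf e), XG_expand s B hs (rf e), ← Finset.sum_sub_distrib]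
  exact Finset.sum_congr rfl fun x _ => by ring

/-- the four edges at a vertex -/
private def XG_star (x : Pt) : Finset Ed :=
  {(false, x), (false, (x.1 - 1, x.2)), (true, x), (true, (x.1, x.2 - 1))}

private lemma XG_one (v : Pt → ℝ) (x : Pt) (E : Finset Ed)
    (hE : ∀ e : Ed, tl e = x ∨ hd e = x → e ∈ E) :
    ∑ e ∈ E, du (XG_ind x) e * dv v e = 0 := by
  obtain ⟨i, j⟩ := x
  have hsub : XG_star (i, j) ⊆ E := by
    intro e he
    simp only [XG_star, Finset.mem_insert, Finset.mem_singleton] at he
    rcases he with rfl | rfl | rfl | rfl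
    · exact hE _ (Or.inl rfl)
    · exact hE _ (Or.inr (by simp [hd]))
    · exact hE _ (Or.inl rfl)
    · exact hE _ (Or.inr (by simp [hd]))
  rw [← Finset.sum_subset hsub]
  · have h1 : ((false, (i, j)) : Ed) ∉
        ({(false, (i - 1, j)), (true, (i, j)), (true, (i, j - 1))} : Finset Ed) := by
      simp
      omega
    have h2 : ((false, (i - 1, j)) : Ed) ∉ ({(true, (i, j)), (true, (i, j - 1))} : Finset Ed) := by
      simp
    have h3 : ((true, (i, j)) : Ed) ∉ ({(true, (i, j - 1))} : Finset Ed) := by
      simp
      omega
    have e : XG_star (i, j) =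
      {(false, (i, j)), (false, (i - 1, j)), (true, (i, j)), (true, (i, j - 1))} := rfl
    rw [e, Finset.sum_insert h1, Finset.sum_insert h2, Finset.sum_insert h3, Finset.sum_singleton]
    simp [du, dv, XG_ind, hd, tl, lf, rf]
    ring
  · intro e _ he
    have h1 : hd e ≠ (i, j) ∧ tl e ≠ (i, j) := by
      constructor
      · intro h
        apply he
        obtain ⟨b, k, l⟩ := e
        cases b
        · simp only [hd, Bool.false_eq_true, if_false, Prod.mk.injEq] at h
          simp only [XG_star, Finset.mem_insert, Finset.mem_singleton]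
          right; left
          rw [← h.1, ← h.2]; simp
        · simp only [hd, if_true, Prod.mk.injEq] at h
          simp only [XG_star, Finset.mem_insert, Finset.mem_singleton]
          right; right; right
          rw [← h.1, ← h.2]; simp
      · intro h
        apply he
        obtain ⟨b, k⟩ := e
        simp only [tl] at h
        subst h
        cases b
        · simp [XG_star]
        · simp [XG_star]
    simp [du, XG_ind, h1.1, h1.2]

private lemma XG_two (z : Pt → ℝ) (f : Pt) (E : Finset Ed)
    (hE : ∀ e : Ed, lf e = f ∨ rf e = f → e ∈ E) :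
    ∑ e ∈ E, du z e * dv (XG_ind f) e = 0 := by
  obtain ⟨i, j⟩ := f
  have hsub : sides (i, j) ⊆ E := by
    intro e he
    simp only [sides, Finset.mem_insert, Finset.mem_singleton] at he
    rcases he with rfl | rfl | rfl | rfl
    · exact hE _ (Or.inl (by simp [lf]))
    · exact hE _ (Or.inr (by simp [rf]))
    · exact hE _ (Or.inr (by simp [rf]))
    · exact hE _ (Or.inl (by simp [lf]))
  rw [← Finset.sum_subset hsub]
  · have h1 : ((false, (i, j)) : Ed) ∉
        ({(false, (i, j + 1)), (true, (i, j)), (true, (i + 1, j))} : Finset Ed) := by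
      simp
    have h2 : ((false, (i, j + 1)) : Ed) ∉ ({(true, (i, j)), (true, (i + 1, j))} : Finset Ed) := by
      simp
    have h3 : ((true, (i, j)) : Ed) ∉ ({(true, (i + 1, j))} : Finset Ed) := by
      simp
    have e : sides (i, j) =
      {(false, (i, j)), (false, (i, j + 1)), (true, (i, j)), (true, (i + 1, j))} := rfl
    rw [e, Finset.sum_insert h1, Finset.sum_insert h2, Finset.sum_insert h3, Finset.sum_singleton]
    simp [du, dv, XG_ind, hd, tl, lf, rf]
    ring
  · intro e _ he
    have h1 : lf e ≠ (i, j) ∧ rf e ≠ (i, j) := by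
      constructor
      · intro h
        apply he
        obtain ⟨b, k, l⟩ := e
        cases b
        · simp only [lf, Bool.false_eq_true, if_false, Prod.mk.injEq] at h
          simp only [sides, Finset.mem_insert, Finset.mem_singleton]
          left
          rw [← h.1, ← h.2]
        · simp only [lf, if_true, Prod.mk.injEq] at h
          simp only [sides, Finset.mem_insert, Finset.mem_singleton]
          right; right; right
          rw [← h.1, ← h.2]; simp
      · intro h
        apply he
        obtain ⟨b, k, l⟩ := e
        cases b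
        · simp only [rf, Bool.false_eq_true, if_false, Prod.mk.injEq] at h
          simp only [sides, Finset.mem_insert, Finset.mem_singleton]
          right; left
          rw [← h.1, ← h.2]; simp
        · simp only [rf, if_true, Prod.mk.injEq] at h
          simp only [sides, Finset.mem_insert, Finset.mem_singleton]
          right; right; left
          rw [← h.1, ← h.2]
    simp [dv, XG_ind, h1.1, h1.2]

/-- Green's identity. -/
theorem p_XG : S_XG := by
  refine ⟨?_, ?_⟩
  · intro s v B E hs hE
    have h : ∑ e ∈ E, du s e * dv v e = ∑ x ∈ B, s x * ∑ e ∈ E, du (XG_ind x) e * dv v e := by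
      simp only [Finset.mul_sum]
      rw [Finset.sum_comm]
      refine Finset.sum_congr rfl fun e _ => ?_
      rw [XG_du s B hs e, Finset.sum_mul]
      exact Finset.sum_congr rfl fun x _ => by ring
    rw [h]
    refine Finset.sum_eq_zero fun x hx => ?_
    rw [XG_one v x E (fun e he => hE e (by
      rcases he with he | he
      · exact Or.inl (by rw [he]; exact hx)
      · exact Or.inr (by rw [he]; exact hx))), mul_zero]
  · intro z t B E ht hE
    have h : ∑ e ∈ E, du z e * dv t e = ∑ x ∈ B, t x * ∑ e ∈ E, du z e * dv (XG_ind x) e := by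
      simp only [Finset.mul_sum]
      rw [Finset.sum_comm]
      refine Finset.sum_congr rfl fun e _ => ?_
      rw [XG_dv t B ht e, Finset.mul_sum]
      exact Finset.sum_congr rfl fun x _ => by ring
    rw [h]
    refine Finset.sum_eq_zero fun x hx => ?_
    rw [XG_two z x E (fun e he => hE e (by
      rcases he with he | he
      · exact Or.inl (by rw [he]; exact hx)
      · exact Or.inr (by rw [he]; exact hx))), mul_zero]

end CarpetPI
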