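import Pool.Agent.Lib.MP_1d263a_an.PI.StmX

/-!
# Piece XH: components of level sets on faces reach the boundary
-/

set_option autoImplicit false

open Finset
open scoped Classical

noncomputable section

namespace CarpetPI

private theorem XH_sides (e : Ed) (f : Pt) (h : lf e = f ∨ rf e = f) : e ∈ sides f := by
  obtain ⟨b, x⟩ := e
  unfold sides
  simp only [Finset.mem_insert, Finset.mem_singleton]
  cases b
  · rcases h with h | h
    · left
      simp only [lf, Bool.false_eq_true, if_false] at h
      rw [h]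
    · right; left
      simp only [rf, Bool.false_eq_true, if_false] at h
      rw [← h]
      ext <;> simp
  · rcases h with h | h
    · right; right; right
      simp only [lf, if_true] at h
      rw [← h]
      ext <;> simp
    · right; right; left
      simp only [rf, if_true] at h
      rw [h]

private theorem XH_fadj_symm {f g : Pt} (h : fadj f g) : fadj g f := by
  obtain ⟨e, he⟩ := h
  exact ⟨e, he.symm⟩

private theorem XH_symm {P : Set Pt} {f g : Pt}
    (h : Relation.ReflTransGen (fun a b => fadj a b ∧ a ∈ P ∧ b ∈ P) f g) :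
    Relation.ReflTransGen (fun a b => fadj a b ∧ a ∈ P ∧ b ∈ P) g f := by
  induction h with
  | refl => exact Relation.ReflTransGen.refl
  | tail _ hbc ih =>
    exact Relation.ReflTransGen.head ⟨XH_fadj_symm hbc.1, hbc.2.2, hbc.2.1⟩ ih

theorem p_XH (hXG : S_XG) : S_XH := by
  intro z φ B M f₀ hf₀ hM hsgn
  obtain ⟨-, hG⟩ := hXG
  let Z : Set Pt := {f | Relation.ReflTransGen
    (fun a b => fadj a b ∧ (M ≤ φ a ∧ a ∈ B) ∧ (M ≤ φ b ∧ b ∈ B)) f₀ f}
  have hZ0 : f₀ ∈ Z := Relation.ReflTransGen.refl
  have hZp : ∀ f ∈ Z, M ≤ φ f ∧ f ∈ B := by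
    intro f hf
    rcases Relation.ReflTransGen.cases_tail hf with h | ⟨c, _, h⟩
    · rw [h]; exact ⟨hM, hf₀⟩
    · exact h.2.2
  have hZs : ∀ f ∈ Z, ∀ g, fadj f g → M ≤ φ g → g ∈ B → g ∈ Z := by
    intro f hf g hfg h1 h2
    exact Relation.ReflTransGen.tail hf ⟨hfg, hZp f hf, h1, h2⟩
  have hZc : ∀ f ∈ Z, Relation.ReflTransGen (fun a b => fadj a b ∧ a ∈ Z ∧ b ∈ Z) f₀ f := by
    intro f hf
    have hf' : Relation.ReflTransGen
      (fun a b => fadj a b ∧ (M ≤ φ a ∧ a ∈ B) ∧ (M ≤ φ b ∧ b ∈ B)) f₀ f := hf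
    clear hf
    induction hf' with
    | refl => exact Relation.ReflTransGen.refl
    | tail hab hbc ih =>
      exact Relation.ReflTransGen.tail ih ⟨hbc.1, hab, Relation.ReflTransGen.tail hab hbc⟩
  by_cases hc : ∃ h ∈ Z, ∃ g, g ∉ B ∧ M ≤ φ g ∧ fadj h g
  · obtain ⟨h, hh, g, hg, hMg, hhg⟩ := hc
    refine ⟨Z ∪ {g}, ?_, Or.inl hZ0, ?_, g, Or.inr rfl, hg⟩
    · have key : ∀ f ∈ Z ∪ {g}, Relation.ReflTransGen
          (fun a b => fadj a b ∧ a ∈ Z ∪ {g} ∧ b ∈ Z ∪ {g}) f₀ f := by
        have k1 : ∀ f ∈ Z, Relation.ReflTransGen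
            (fun a b => fadj a b ∧ a ∈ Z ∪ {g} ∧ b ∈ Z ∪ {g}) f₀ f := by
          intro f hf
          have h1 := hZc f hf
          clear hf
          induction h1 with
          | refl => exact Relation.ReflTransGen.refl
          | tail _ hbc ih =>
            exact Relation.ReflTransGen.tail ih ⟨hbc.1, Or.inl hbc.2.1, Or.inl hbc.2.2⟩
        rintro f (hf | hf)
        · exact k1 f hf
        · have hf' : f = g := hf
          rw [hf']
          exact Relation.ReflTransGen.tail (k1 h hh) ⟨hhg, Or.inl hh, Or.inr rfl⟩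
      intro f hf g' hg'
      exact (XH_symm (key f hf)).trans (key g' hg')
    · rintro f (hf | hf)
      · exact (hZp f hf).1
      · have hf' : f = g := hf
        rw [hf']; exact hMg
  · exfalso
    push Not at hc
    have hout : ∀ f ∈ Z, ∀ g, fadj f g → g ∉ Z → φ g < M := by
      intro f hf g hfg hg
      by_contra hlt
      push Not at hlt
      by_cases hgB : g ∈ B
      · exact hg (hZs f hf g hfg hlt hgB)
      · exact hc f hf g hgB hlt hfg
    let t : Pt → ℝ := fun f => if f ∈ Z then 1 else 0
    let E : Finset Ed := B.biUnion sides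
    have hE : ∀ e : Ed, lf e ∈ B ∨ rf e ∈ B → e ∈ E := by
      rintro e (h | h)
      · exact Finset.mem_biUnion.2 ⟨lf e, h, XH_sides e _ (Or.inl rfl)⟩
      · exact Finset.mem_biUnion.2 ⟨rf e, h, XH_sides e _ (Or.inr rfl)⟩
    have hsum := hG z t B E (by
      intro f hf
      exact if_neg fun h => hf (hZp f h).2) hE
    have hpos : ∀ e : Ed, dv t e ≠ 0 → 0 < du z e * dv t e := by
      intro e he
      by_cases h1 : lf e ∈ Z
      · by_cases h2 : rf e ∈ Z
        · exfalso
          apply he
          show (if lf e ∈ Z then (1 : ℝ) else 0) - (if rf e ∈ Z then 1 else 0) = 0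
          rw [if_pos h1, if_pos h2, sub_self]
        · have e1 : dv t e = 1 := by
            show (if lf e ∈ Z then (1 : ℝ) else 0) - (if rf e ∈ Z then 1 else 0) = 1
            rw [if_pos h1, if_neg h2, sub_zero]
          have h3 := hout _ h1 _ ⟨e, Or.inl ⟨rfl, rfl⟩⟩ h2
          have h4 : 0 < dv φ e := by
            show 0 < φ (lf e) - φ (rf e)
            linarith [(hZp _ h1).1]
          have h5 := hsgn e (Or.inl (hZp _ h1).2) h4.ne'
          rw [e1, mul_one]
          exact (pos_iff_pos_of_mul_pos h5).2 h4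
      · by_cases h2 : rf e ∈ Z
        · have e1 : dv t e = -1 := by
            show (if lf e ∈ Z then (1 : ℝ) else 0) - (if rf e ∈ Z then 1 else 0) = -1
            rw [if_neg h1, if_pos h2, zero_sub]
          have h3 := hout _ h2 _ ⟨e, Or.inr ⟨rfl, rfl⟩⟩ h1
          have h4 : dv φ e < 0 := by
            show φ (lf e) - φ (rf e) < 0
            linarith [(hZp _ h2).1]
          have h5 := hsgn e (Or.inr (hZp _ h2).2) h4.ne
          have h6 : du z e < 0 := by
            by_contra h7
            push Not at h7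
            nlinarith
          rw [e1]
          linarith
        · exfalso
          apply he
          show (if lf e ∈ Z then (1 : ℝ) else 0) - (if rf e ∈ Z then 1 else 0) = 0
          rw [if_neg h1, if_neg h2, sub_self]
    have hnn : ∀ e ∈ E, 0 ≤ du z e * dv t e := by
      intro e _
      by_cases h : dv t e = 0
      · rw [h, mul_zero]
      · exact (hpos e h).le
    have hzero := (Finset.sum_eq_zero_iff_of_nonneg hnn).1 hsum
    obtain ⟨f, hf, hmin⟩ := Finset.exists_min_image (B.filter (· ∈ Z)) (fun f => f.2)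
      ⟨f₀, Finset.mem_filter.2 ⟨hf₀, hZ0⟩⟩
    rw [Finset.mem_filter] at hf
    have hl : lf (false, f) = f := rfl
    have hr : rf (false, f) = (f.1, f.2 - 1) := rfl
    have hrn : rf (false, f) ∉ Z := by
      intro h
      have h1 := hmin (rf (false, f)) (Finset.mem_filter.2 ⟨(hZp _ h).2, h⟩)
      rw [hr] at h1
      simp only at h1
      omega
    have hd1 : dv t (false, f) ≠ 0 := by
      show (if lf (false, f) ∈ Z then (1 : ℝ) else 0) - (if rf (false, f) ∈ Z then 1 else 0) ≠ 0
      rw [if_neg hrn, hl, if_pos hf.2]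
      norm_num
    have h2 := hpos (false, f) hd1
    have h3 := hzero (false, f) (hE _ (Or.inl (by rw [hl]; exact hf.1)))
    linarith

end CarpetPI
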