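import Pool.Agent.Lib.MP_1d263a_an.PI.StmX

/-!
# MP_1d263a_an, project PI, piece XI: components of level sets on vertices reach the boundary
-/

open Finset
open scoped Classical

noncomputable section

namespace CarpetPI

theorem XI_adj_symm {K : Set Pt} {a b : Pt} (h : adj K a b) : adj K b a := by
  obtain ⟨e, he, h⟩ := h
  exact ⟨e, he, h.symm⟩

theorem XI_pres_tl {K : Set Pt} {e : Ed} (h : pres K e) : tl e ∈ VK K := by
  obtain ⟨b, x⟩ := e
  rcases h with h | h
  · refine ⟨_, h, ?_⟩
    cases b
    · simp [lf, tl, IsCor]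
    · simp [lf, tl, IsCor]
  · refine ⟨_, h, ?_⟩
    cases b
    · simp [rf, tl, IsCor]
    · simp [rf, tl, IsCor]

theorem XI_pres_hd {K : Set Pt} {e : Ed} (h : pres K e) : hd e ∈ VK K := by
  obtain ⟨b, x⟩ := e
  rcases h with h | h
  · refine ⟨_, h, ?_⟩
    cases b
    · simp [lf, hd, IsCor]
    · simp [lf, hd, IsCor]
  · refine ⟨_, h, ?_⟩
    cases b
    · simp [rf, hd, IsCor]
    · simp [rf, hd, IsCor]

theorem XI_adj_VK {K : Set Pt} {a b : Pt} (h : adj K a b) : b ∈ VK K := by
  obtain ⟨e, he, h⟩ := h
  rcases h with ⟨-, h⟩ | ⟨h, -⟩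
  · rw [← h]
    exact XI_pres_hd he
  · rw [← h]
    exact XI_pres_tl he

theorem p_XI (hXG : S_XG) : S_XI := by
  intro K z φ B M x₀ hx₀ hM hX habs hpres
  obtain ⟨X, hXc, hx₀X, xo, hxoX, hxoB⟩ := hX
  -- the component of `x₀`
  set Z : Set Pt := {x | Relation.ReflTransGen
    (fun a b => adj K a b ∧ (a ∈ B ∧ M ≤ z a) ∧ (b ∈ B ∧ M ≤ z b)) x₀ x} with hZ
  have hZ0 : x₀ ∈ Z := Relation.ReflTransGen.refl
  have hZS : ∀ x ∈ Z, x ∈ B ∧ M ≤ z x := by
    intro x hx
    rcases Relation.ReflTransGen.cases_tail hx with h | ⟨y, -, h⟩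
    · rw [h]
      exact ⟨hx₀, hM⟩
    · exact h.2.2
  have hZstep : ∀ x ∈ Z, ∀ y, adj K x y → y ∈ B → M ≤ z y → y ∈ Z := by
    intro x hx y hxy hy hy'
    exact Relation.ReflTransGen.tail hx ⟨hxy, hZS x hx, hy, hy'⟩
  have hZVK : ∀ x ∈ Z, x ∈ VK K := by
    intro x hx
    rcases Relation.ReflTransGen.cases_tail hx with h | ⟨y, -, h⟩
    · rw [h]
      exact hXc.1 hx₀X
    · exact XI_adj_VK h.1
  by_cases hcase : ∃ x ∈ Z, ∃ y, y ∉ B ∧ M ≤ z y ∧ adj K x y
  · obtain ⟨x, hx, y, hyB, hyM, hxy⟩ := hcase
    refine ⟨insert y Z, ⟨?_, ?_⟩, Set.mem_insert_of_mem _ hZ0, ?_, y, Set.mem_insert _ _, hyB⟩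
    · intro w hw
      rcases hw with rfl | hw
      · exact XI_adj_VK hxy
      · exact hZVK w hw
    · have hpath : ∀ w ∈ Z, Relation.ReflTransGen
          (fun a b => adj K a b ∧ a ∈ insert y Z ∧ b ∈ insert y Z) x₀ w := by
        intro w hw
        have hw' : Relation.ReflTransGen
          (fun a b => adj K a b ∧ (a ∈ B ∧ M ≤ z a) ∧ (b ∈ B ∧ M ≤ z b)) x₀ w := hw
        clear hw
        induction hw' with
        | refl => exact Relation.ReflTransGen.refl
        | tail h1 h2 ih =>
          refine Relation.ReflTransGen.tail ih ⟨h2.1, Set.mem_insert_of_mem _ h1,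
            Set.mem_insert_of_mem _ (Relation.ReflTransGen.tail h1 h2)⟩
      have hall : ∀ w ∈ insert y Z, Relation.ReflTransGen
          (fun a b => adj K a b ∧ a ∈ insert y Z ∧ b ∈ insert y Z) x₀ w := by
        intro w hw
        rcases hw with rfl | hw
        · exact Relation.ReflTransGen.tail (hpath x hx)
            ⟨hxy, Set.mem_insert_of_mem _ hx, Set.mem_insert _ _⟩
        · exact hpath w hw
      have hsymm : ∀ u v, Relation.ReflTransGen
          (fun a b => adj K a b ∧ a ∈ insert y Z ∧ b ∈ insert y Z) u v →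
          Relation.ReflTransGen
          (fun a b => adj K a b ∧ a ∈ insert y Z ∧ b ∈ insert y Z) v u := by
        intro u v h
        induction h with
        | refl => exact Relation.ReflTransGen.refl
        | tail _ h2 ih =>
          exact Relation.ReflTransGen.head ⟨XI_adj_symm h2.1, h2.2.2, h2.2.1⟩ ih
      intro u hu w hw
      exact Relation.ReflTransGen.trans (hsymm _ _ (hall u hu)) (hall w hw)
    · intro w hw
      rcases hw with rfl | hw
      · exact hyM
      · exact (hZS w hw).2
  · exfalso
    push Not at hcase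
    -- a present edge from `Z` to its complement
    have hcross : ∀ x ∈ Z, ∀ y, y ∉ Z → adj K x y → z y < M := by
      intro x hx y hy hxy
      by_contra hlt
      rw [not_lt] at hlt
      by_cases hyB : y ∈ B
      · exact hy (hZstep x hx y hxy hyB hlt)
      · exact hcase x hx y hyB hlt hxy
    set s : Pt → ℝ := fun x => if x ∈ Z then 1 else 0 with hs
    have hs1 : ∀ x, x ∈ Z → s x = 1 := by
      intro x hx
      simp only [hs]
      rw [if_pos hx]
    have hs0 : ∀ x, x ∉ Z → s x = 0 := by
      intro x hx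
      simp only [hs]
      rw [if_neg hx]
    set E : Finset Ed := ((univ : Finset Bool) ×ˢ B) ∪
      (B.image (fun x : Pt => ((false, (x.1 - 1, x.2)) : Ed)) ∪
        B.image (fun x : Pt => ((true, (x.1, x.2 - 1)) : Ed))) with hE
    have hEmem : ∀ e : Ed, tl e ∈ B ∨ hd e ∈ B → e ∈ E := by
      rintro ⟨b, x⟩ h
      rw [hE, mem_union, mem_union]
      rcases h with h | h
      · exact Or.inl (mem_product.mpr ⟨mem_univ _, h⟩)
      · cases b
        · refine Or.inr (Or.inl (mem_image.mpr ⟨hd (false, x), h, ?_⟩))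
          simp [hd]
        · refine Or.inr (Or.inr (mem_image.mpr ⟨hd (true, x), h, ?_⟩))
          simp [hd]
    have hsum := hXG.1 s φ B E (fun x hx => hs0 x fun h => hx (hZS x h).1) hEmem
    -- sign of the terms
    have hterm : ∀ e : Ed, 0 ≤ du s e * dv φ e ∧
        (pres K e → ¬ (tl e ∈ Z ↔ hd e ∈ Z) → 0 < du s e * dv φ e) := by
      intro e
      by_cases ht : tl e ∈ Z <;> by_cases hh : hd e ∈ Z
      · have : du s e = 0 := by
          unfold du
          rw [hs1 _ ht, hs1 _ hh, sub_self]
        rw [this, zero_mul]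
        exact ⟨le_rfl, fun _ h => absurd (iff_of_true ht hh) h⟩
      · have h1 : du s e = -1 := by
          unfold du
          rw [hs1 _ ht, hs0 _ hh]
          norm_num
        by_cases hp : pres K e
        · have h2 : z (hd e) < M := hcross _ ht _ hh ⟨e, hp, Or.inl ⟨rfl, rfl⟩⟩
          have h3 := (hZS _ ht).2
          have h4 : du z e < 0 := by
            unfold du
            linarith
          have h5 := hpres e (Or.inl (hZS _ ht).1) hp h4.ne
          have h6 : dv φ e < 0 := by
            by_contra hc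
            rw [not_lt] at hc
            nlinarith
          have h7 : 0 < du s e * dv φ e := by
            rw [h1]
            linarith
          exact ⟨h7.le, fun _ _ => h7⟩
        · have h2 := habs e (Or.inl (hZS _ ht).1) hp
          rw [h2, mul_zero]
          exact ⟨le_rfl, fun h => absurd h hp⟩
      · have h1 : du s e = 1 := by
          unfold du
          rw [hs0 _ ht, hs1 _ hh]
          norm_num
        by_cases hp : pres K e
        · have h2 : z (tl e) < M := hcross _ hh _ ht ⟨e, hp, Or.inr ⟨rfl, rfl⟩⟩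
          have h3 := (hZS _ hh).2
          have h4 : 0 < du z e := by
            unfold du
            linarith
          have h5 := hpres e (Or.inr (hZS _ hh).1) hp h4.ne'
          have h6 : 0 < dv φ e := by
            by_contra hc
            rw [not_lt] at hc
            nlinarith
          have h7 : 0 < du s e * dv φ e := by
            rw [h1]
            linarith
          exact ⟨h7.le, fun _ _ => h7⟩
        · have h2 := habs e (Or.inr (hZS _ hh).1) hp
          rw [h2, mul_zero]
          exact ⟨le_rfl, fun h => absurd h hp⟩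
      · have : du s e = 0 := by
          unfold du
          rw [hs0 _ ht, hs0 _ hh, sub_self]
        rw [this, zero_mul]
        exact ⟨le_rfl, fun _ h => absurd (iff_of_false ht hh) h⟩
    have hzero := (Finset.sum_eq_zero_iff_of_nonneg (fun e _ => (hterm e).1)).mp hsum
    have hclosed : ∀ x ∈ Z, ∀ y, adj K x y → y ∈ Z := by
      intro x hx y hxy
      by_contra hy
      obtain ⟨e, hp, h⟩ := hxy
      have hne : ¬ (tl e ∈ Z ↔ hd e ∈ Z) := by
        rcases h with ⟨h1, h2⟩ | ⟨h1, h2⟩
        · rw [h1, h2]
          exact fun h => hy (h.mp hx)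
        · rw [h1, h2]
          exact fun h => hy (h.mpr hx)
      have hmem : e ∈ E := by
        rcases h with ⟨h1, h2⟩ | ⟨h1, h2⟩
        · exact hEmem e (Or.inl (by rw [h1]; exact (hZS x hx).1))
        · exact hEmem e (Or.inr (by rw [h2]; exact (hZS x hx).1))
      exact absurd (hzero e hmem) ((hterm e).2 hp hne).ne'
    have hreach : xo ∈ Z := by
      have hpath := hXc.2 x₀ hx₀X xo hxoX
      clear hxoX hxoB
      induction hpath with
      | refl => exact hZ0
      | tail _ h2 ih => exact hclosed _ ih _ h2.1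
    exact hxoB (hZS xo hreach).1

end CarpetPI
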