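import Pool.Agent.Lib.MP_1d263a_an.PI.StmX

/-!
# MP_1d263a_an, project PI, piece XJ: masses of near cells, distances at the lattice scale
-/

open Finset
open scoped Classical

noncomputable section

namespace CarpetPI

lemma XJ_cor {K : Set Pt} {g x : Pt} (hg : g ∈ K) (hx : IsCor x g) : x ∈ VK K := ⟨g, hg, hx⟩

lemma XJ_self (g : Pt) : IsCor g g := ⟨Or.inl rfl, Or.inl rfl⟩

lemma XJ_right (g : Pt) : IsCor (g.1 + 1, g.2) g := ⟨Or.inr rfl, Or.inl rfl⟩

lemma XJ_dis_one (g : Pt) : dis g (g.1 + 1, g.2) = 1 := by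
  simp [dis]

/-- two points near `z` in the sense of `qs` -/
lemma XJ_two {p : ℝ} (D : Dat p) (N : ℕ) {z z' x y : Pt} (hz : z ∈ VK (Kept N))
    (hz' : z' ∈ VK (Kept N)) (hx : x ∈ VK (Kept N)) (hy : y ∈ VK (Kept N)) {t : ℝ} (ht : 0 ≤ t)
    (h1 : (dis z x : ℝ) ≤ t * dis z z') (h2 : (dis z y : ℝ) ≤ t * dis z z') :
    D.d N x y ≤ 2 * D.η t * D.d N z z' := by
  have a1 := D.qs N z hz x hx z' hz' t ht h1
  have a2 := D.qs N z hz y hy z' hz' t ht h2
  have a3 := D.d_tri N x hx z hz y hy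
  rw [D.d_symm N x z] at a3
  linarith

lemma XJ_pow {p c s M A₀ r : ℝ} (hp : 1 ≤ p) (hr : 0 ≤ r) (hc : 0 ≤ c) (hs : 0 ≤ s)
    (h : r ≤ c * s) (hM : s ^ p ≤ A₀ * M) : r ^ p ≤ c ^ p * A₀ * M := by
  have hp0 : 0 ≤ p := by linarith
  calc r ^ p ≤ (c * s) ^ p := Real.rpow_le_rpow hr h hp0
    _ = c ^ p * s ^ p := Real.mul_rpow hc hs
    _ ≤ c ^ p * (A₀ * M) := mul_le_mul_of_nonneg_left hM (Real.rpow_nonneg hc p)
    _ = c ^ p * A₀ * M := by ring

theorem p_XJ : S_XJ := by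
  intro p D hp m
  have hA0 : 0 ≤ D.A := le_trans zero_le_one D.hA
  have hη1 : 0 ≤ 2 * D.η 1 := by
    have := D.η_nonneg 1 zero_le_one
    linarith
  have hm0 : (0 : ℝ) ≤ (m : ℝ) + 1 := by positivity
  have hηm : 0 ≤ 2 * D.η ((m : ℝ) + 1) := by
    have := D.η_nonneg ((m : ℝ) + 1) hm0
    linarith
  refine ⟨max 1 (max ((2 * D.η 1) ^ p * D.A) (D.A * ((2 * D.η ((m : ℝ) + 1)) ^ p * D.A))),
    le_max_left _ _, ?_, ?_⟩
  · intro N g hg x y hx hy
    have hgV := XJ_cor hg (XJ_self g)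
    have hg'V := XJ_cor hg (XJ_right g)
    have hxV := XJ_cor hg hx
    have hyV := XJ_cor hg hy
    have hd : ∀ w : Pt, IsCor w g → (dis g w : ℝ) ≤ 1 * dis g (g.1 + 1, g.2) := by
      intro w hw
      rw [XJ_dis_one, one_mul]
      have : dis g w ≤ 1 := by
        obtain ⟨h1, h2⟩ := hw
        refine max_le ?_ ?_
        · rcases h1 with h | h <;> rw [h] <;> simp
        · rcases h2 with h | h <;> rw [h] <;> simp
      exact_mod_cast this
    have h1 := XJ_two D N hgV hg'V hxV hyV zero_le_one (hd x hx) (hd y hy)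
    have h2 := XJ_pow hp (D.d_nonneg N x y) hη1 (D.d_nonneg N g (g.1 + 1, g.2)) h1 (D.ahl N g hg).2
    refine h2.trans ?_
    exact mul_le_mul_of_nonneg_right ((le_max_left _ _).trans (le_max_right _ _))
      (D.mu_pos N g hg).le
  · intro n q hq q' hq' hqq
    have hzV := XJ_cor hq (XJ_self q)
    have hz'V := XJ_cor hq (XJ_right q)
    have hxV := XJ_cor hq' (XJ_self q')
    have hyV := XJ_cor hq' (XJ_right q')
    have hb1 : |q.1 - q'.1| ≤ (m : ℤ) := (le_max_left _ _).trans hqq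
    have hb2 : |q.2 - q'.2| ≤ (m : ℤ) := (le_max_right _ _).trans hqq
    have e1 : (dis q q' : ℝ) ≤ ((m : ℝ) + 1) * dis q (q.1 + 1, q.2) := by
      rw [XJ_dis_one]
      have : dis q q' ≤ (m : ℤ) + 1 := by omega
      have h : (dis q q' : ℝ) ≤ ((m : ℤ) + 1 : ℤ) := by exact_mod_cast this
      push_cast at h ⊢
      linarith
    have e2 : (dis q (q'.1 + 1, q'.2) : ℝ) ≤ ((m : ℝ) + 1) * dis q (q.1 + 1, q.2) := by
      rw [XJ_dis_one]
      have : dis q (q'.1 + 1, q'.2) ≤ (m : ℤ) + 1 := by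
        refine max_le ?_ ?_
        · have : q.1 - (q'.1 + 1) = (q.1 - q'.1) + (-1) := by ring
          simp only
          rw [this]
          refine (abs_add_le _ _).trans ?_
          simp only [abs_neg, abs_one]
          linarith
        · simp only
          linarith
      have h : (dis q (q'.1 + 1, q'.2) : ℝ) ≤ ((m : ℤ) + 1 : ℤ) := by exact_mod_cast this
      push_cast at h ⊢
      linarith
    have h1 := XJ_two D n hzV hz'V hxV hyV hm0 e1 e2
    have h2 := XJ_pow hp (D.d_nonneg n q' (q'.1 + 1, q'.2)) hηm (D.d_nonneg n q (q.1 + 1, q.2)) h1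
      (D.ahl n q hq).2
    have h3 : D.mu n q' ≤ D.A * ((2 * D.η ((m : ℝ) + 1)) ^ p * D.A) * D.mu n q := by
      refine (D.ahl n q' hq').1.trans ?_
      rw [mul_assoc]
      exact mul_le_mul_of_nonneg_left h2 hA0
    refine h3.trans ?_
    exact mul_le_mul_of_nonneg_right ((le_max_right _ _).trans (le_max_right _ _))
      (D.mu_pos n q hq).le

end CarpetPI
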