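import Pool.Agent.Lib.MP_1d263a_an.PI.StmX

/-!
# MP_1d263a_an, project PI, piece XL: the dual Loewner inequality
-/

open Finset
open scoped Classical

noncomputable section

namespace CarpetPI

/-- a present edge is a side of a kept face -/
theorem XL_face {K : Set Pt} {e : Ed} (h : pres K e) :
    ∃ f ∈ K, (f = lf e ∨ f = rf e) ∧ e ∈ sides f := by
  obtain ⟨b, x1, x2⟩ := e
  cases b
  · rcases h with h | h
    · exact ⟨_, h, Or.inl rfl, by simp [sides, lf]⟩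
    · exact ⟨_, h, Or.inr rfl, by simp [sides, rf]⟩
  · rcases h with h | h
    · exact ⟨_, h, Or.inl rfl, by simp [sides, lf]⟩
    · exact ⟨_, h, Or.inr rfl, by simp [sides, rf]⟩

theorem XL_near {A B C D : ℤ} {e : Ed} (h : tl e ∈ opB A B C D ∨ hd e ∈ opB A B C D) :
    (A ≤ (lf e).1 ∧ (lf e).1 < B ∧ C ≤ (lf e).2 ∧ (lf e).2 < D) ∧
    (A ≤ (rf e).1 ∧ (rf e).1 < B ∧ C ≤ (rf e).2 ∧ (rf e).2 < D) ∧
    (A ≤ (tl e).1 ∧ (tl e).1 ≤ B ∧ C ≤ (tl e).2 ∧ (tl e).2 ≤ D) ∧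
    (A ≤ (hd e).1 ∧ (hd e).1 ≤ B ∧ C ≤ (hd e).2 ∧ (hd e).2 ≤ D) := by
  obtain ⟨b, x1, x2⟩ := e
  cases b <;> simp only [opB, Set.mem_ofPred_eq, tl, hd, lf, rf, if_true, if_false,
    Bool.false_eq_true] at h ⊢ <;> rcases h with h | h <;> omega

theorem XL_EnD_nonneg (r : ℝ) (K : Set Pt) (v : Pt → ℝ) (G : Finset Pt) : 0 ≤ EnD r K v G :=
  Finset.sum_nonneg fun _ _ => Finset.sum_nonneg fun _ _ => Real.rpow_nonneg (abs_nonneg _) _

theorem XL_sum_le (r : ℝ) (K : Set Pt) (v : Pt → ℝ) (G : Finset Pt) (E : Finset Ed)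
    (h : ∀ e ∈ E, ∃ f ∈ K, f ∈ G ∧ e ∈ sides f) :
    ∑ e ∈ E, |dv v e| ^ r ≤ EnD r K v G := by
  have h' : ∀ e : Ed, ∃ f : Pt, e ∈ E → f ∈ K ∧ f ∈ G ∧ e ∈ sides f := by
    intro e
    by_cases he : e ∈ E
    · obtain ⟨f, hf⟩ := h e he
      exact ⟨f, fun _ => hf⟩
    · exact ⟨(0, 0), fun hh => absurd hh he⟩
  choose g hg using h'
  have hmaps : ∀ e ∈ E, g e ∈ G.filter (· ∈ K) := fun e he =>
    Finset.mem_filter.2 ⟨(hg e he).2.1, (hg e he).1⟩
  rw [← Finset.sum_fiberwise_of_maps_to hmaps]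
  unfold EnD
  refine Finset.sum_le_sum fun f _ => ?_
  refine Finset.sum_le_sum_of_subset_of_nonneg (fun e he => ?_)
    fun _ _ _ => Real.rpow_nonneg (abs_nonneg _) _
  rw [Finset.mem_filter] at he
  have := (hg e he.1).2.2
  rwa [he.2] at this

theorem XL_edges (A B C D : ℤ) : ∃ E : Finset Ed, ∀ e : Ed,
    e ∈ E ↔ (tl e ∈ opB A B C D ∨ hd e ∈ opB A B C D) := by
  refine ⟨((Finset.univ : Finset Bool) ×ˢ (Finset.Icc (A - 1) B ×ˢ Finset.Icc (C - 1) D)).filter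
    (fun e => tl e ∈ opB A B C D ∨ hd e ∈ opB A B C D), fun e => ?_⟩
  rw [Finset.mem_filter, and_iff_right_iff_imp]
  intro h
  have h1 := (XL_near h).2.2.1
  obtain ⟨b, x1, x2⟩ := e
  simp only [tl] at h1
  simp only [Finset.mem_product, Finset.mem_univ, Finset.mem_Icc, true_and]
  omega

theorem p_XL (hXD : S_XD) (hXK : S_XK) : S_XL := by
  intro p r D hp hpr R
  obtain ⟨C0, hC0, hK⟩ := hXK p D hp.le R
  have hp0 : 0 < p := by linarith
  have hr1 : 1 / r = 1 - 1 / p := by linarith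
  have hp1 : 1 / p < 1 := by
    rw [div_lt_one hp0]
    exact hp
  have hr0 : 0 < r := by
    have h : 0 < 1 / r := by rw [hr1]; linarith
    exact one_div_pos.1 h
  have hC00 : 0 ≤ C0 := by linarith
  have hconj : p.HolderConjugate r := by
    rw [Real.holderConjugate_iff]
    exact ⟨hp, by rw [← one_div, ← one_div]; exact hpr⟩
  refine ⟨C0 ^ (r / p), Real.one_le_rpow hC0 (by positivity), ?_⟩
  intro N t ht q hq φ P P' α β hαβ habs hP hP' hcr hcr'
  have hEn := XL_EnD_nonneg r (Kept N) φ (nb (R + 1) t q)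
  rcases eq_or_lt_of_le hαβ with heq | hlt
  · rw [heq, sub_self, Real.zero_rpow hr0.ne']
    positivity
  obtain ⟨χ, hχ0, hχ1, hχE⟩ := hK N t ht q hq
  obtain ⟨E, hE⟩ := XL_edges ((q.1 - (R + 1)) * 3 ^ t) ((q.1 + (R + 2)) * 3 ^ t)
    ((q.2 - (R + 1)) * 3 ^ t) ((q.2 + (R + 2)) * 3 ^ t)
  have h3 : (0 : ℤ) < 3 ^ t := by positivity
  have hba : 0 < β - α := by linarith
  have hXD' := hXD ((q.1 - R) * 3 ^ t) ((q.1 + R + 1) * 3 ^ t) ((q.2 - R) * 3 ^ t)
    ((q.2 + R + 1) * 3 ^ t)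
    ((q.1 - (R + 1)) * 3 ^ t) ((q.1 + (R + 2)) * 3 ^ t) ((q.2 - (R + 1)) * 3 ^ t)
    ((q.2 + (R + 2)) * 3 ^ t) χ
    (fun f => (φ f - α) / (β - α)) P P' E
    (mul_le_mul_of_nonneg_right (by omega) h3.le) (mul_le_mul_of_nonneg_right (by omega) h3.le)
    hχ0 hχ1
    (fun f hf => div_nonpos_of_nonpos_of_nonneg (by linarith [hP f hf]) hba.le)
    (fun f hf => by
      rw [le_div_iff₀ hba, one_mul]
      linarith [hP' f hf]) hcr hcr' (fun e he => (hE e).2 he)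
  have hdv : ∀ e, |dv (fun f => (φ f - α) / (β - α)) e| = |dv φ e| / (β - α) := by
    intro e
    have h4 : dv (fun f => (φ f - α) / (β - α)) e = dv φ e / (β - α) := by
      unfold dv
      ring
    rw [h4, abs_div, abs_of_pos hba]
  have hstep1 : β - α ≤ ∑ e ∈ E, |du χ e| * |dv φ e| := by
    have h4 : ∑ e ∈ E, |du χ e| * |dv (fun f => (φ f - α) / (β - α)) e| =
        (∑ e ∈ E, |du χ e| * |dv φ e|) / (β - α) := by
      rw [Finset.sum_div]
      refine Finset.sum_congr rfl fun e _ => ?_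
      rw [hdv, mul_div_assoc]
    rw [h4, le_div_iff₀ hba, one_mul] at hXD'
    exact hXD'
  set E' := E.filter (fun e => pres (Kept N) e) with hE'
  have e0 : ((R + 1 : ℕ) : ℤ) = (R : ℤ) + 1 := by push_cast; ring
  have e1 : q.1 + ((R : ℤ) + 1) + 1 = q.1 + (R + 2) := by ring
  have e2 : q.2 + ((R : ℤ) + 1) + 1 = q.2 + (R + 2) := by ring
  have hstep2 : ∑ e ∈ E, |du χ e| * |dv φ e| = ∑ e ∈ E', |du χ e| * |dv φ e| := by
    rw [hE', Finset.sum_filter]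
    refine Finset.sum_congr rfl fun e he => ?_
    split_ifs with hpe
    · rfl
    · have h5 := XL_near ((hE e).1 he)
      have h6 : dv φ e = 0 := by
        refine habs e hpe ⟨?_, ?_⟩
        · simp only [nbV, Set.mem_ofPred_eq]
          rw [e0, e1, e2]
          exact h5.2.2.1
        · simp only [nbV, Set.mem_ofPred_eq]
          rw [e0, e1, e2]
          exact h5.2.2.2
      rw [h6, abs_zero, mul_zero]
  have hstep3 := Real.inner_le_Lp_mul_Lq_of_nonneg E' hconj (f := fun e => |du χ e|)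
    (g := fun e => |dv φ e|) (fun e _ => abs_nonneg _) (fun e _ => abs_nonneg _)
  have hstep4 : ∑ e ∈ E', |du χ e| ^ p ≤ C0 := by
    refine hχE E' fun e he => ?_
    rw [hE', Finset.mem_filter] at he
    exact ⟨he.2, (hE e).1 he.1⟩
  have hstep5 : ∑ e ∈ E', |dv φ e| ^ r ≤ EnD r (Kept N) φ (nb (R + 1) t q) := by
    refine XL_sum_le r (Kept N) φ (nb (R + 1) t q) E' fun e he => ?_
    rw [hE', Finset.mem_filter] at he
    obtain ⟨f, hfK, hf, hes⟩ := XL_face he.2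
    refine ⟨f, hfK, ?_, hes⟩
    have h5 := XL_near ((hE e).1 he.1)
    simp only [nb, box, Finset.mem_product, Finset.mem_Ico]
    rw [e0, e1, e2]
    rcases hf with hf | hf
    · rw [hf]
      exact ⟨⟨h5.1.1, h5.1.2.1⟩, h5.1.2.2.1, h5.1.2.2.2⟩
    · rw [hf]
      exact ⟨⟨h5.2.1.1, h5.2.1.2.1⟩, h5.2.1.2.2.1, h5.2.1.2.2.2⟩
  have hs0 : 0 ≤ ∑ e ∈ E', |du χ e| ^ p :=
    Finset.sum_nonneg fun _ _ => Real.rpow_nonneg (abs_nonneg _) _
  have hs1 : 0 ≤ ∑ e ∈ E', |dv φ e| ^ r :=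
    Finset.sum_nonneg fun _ _ => Real.rpow_nonneg (abs_nonneg _) _
  have hstep6 : β - α ≤ C0 ^ (1 / p) * (EnD r (Kept N) φ (nb (R + 1) t q)) ^ (1 / r) := by
    rw [hstep2] at hstep1
    refine hstep1.trans (hstep3.trans ?_)
    refine mul_le_mul (Real.rpow_le_rpow hs0 hstep4 (by positivity))
      (Real.rpow_le_rpow hs1 hstep5 (by positivity)) (Real.rpow_nonneg hs1 _)
      (Real.rpow_nonneg hC00 _)
  calc (β - α) ^ r ≤ (C0 ^ (1 / p) * (EnD r (Kept N) φ (nb (R + 1) t q)) ^ (1 / r)) ^ r :=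
        Real.rpow_le_rpow hba.le hstep6 hr0.le
    _ = C0 ^ (r / p) * EnD r (Kept N) φ (nb (R + 1) t q) := by
        rw [Real.mul_rpow (Real.rpow_nonneg hC00 _) (Real.rpow_nonneg hEn _),
          ← Real.rpow_mul hC00, ← Real.rpow_mul hEn, one_div_mul_cancel hr0.ne', Real.rpow_one]
        congr 2
        field_simp

end CarpetPI
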