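import Pool.Agent.Lib.MP_1d263a_an.PI.XA
import Pool.Agent.Lib.MP_1d263a_an.PI.XB
import Pool.Agent.Lib.MP_1d263a_an.PI.XC
import Pool.Agent.Lib.MP_1d263a_an.PI.XD
import Pool.Agent.Lib.MP_1d263a_an.PI.XE
import Pool.Agent.Lib.MP_1d263a_an.PI.XF
import Pool.Agent.Lib.MP_1d263a_an.PI.XG
import Pool.Agent.Lib.MP_1d263a_an.PI.XH
import Pool.Agent.Lib.MP_1d263a_an.PI.XI
import Pool.Agent.Lib.MP_1d263a_an.PI.XJ
import Pool.Agent.Lib.MP_1d263a_an.PI.XK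
import Pool.Agent.Lib.MP_1d263a_an.PI.XL

/-!
# MP_1d263a_an, project PI, part X: all pieces together
-/

namespace CarpetPI

theorem t_XA : S_XA := p_XA
theorem t_XB : S_XB := p_XB t_XA
theorem t_XC : S_XC := p_XC
theorem t_XD : S_XD := p_XD t_XB t_XC
theorem t_XE : S_XE := p_XE t_XD
theorem t_XF : S_XF := p_XF t_XE
theorem t_XG : S_XG := p_XG
theorem t_XH : S_XH := p_XH t_XG
theorem t_XI : S_XI := p_XI t_XG
theorem t_XJ : S_XJ := p_XJ
theorem t_XK : S_XK := p_XK t_XJ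
theorem t_XL : S_XL := p_XL t_XD t_XK

end CarpetPI
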