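import Pool.Agent.Lib.MP_1d263a_an.PI.StmB

open Finset
open scoped Classical

noncomputable section

namespace CarpetPI.PB

/-- summation by parts, in one variable -/
theorem sbp_Icc (a V : ℤ → ℝ) (n : ℕ) :
    ∑ j ∈ Finset.Icc 0 (n : ℤ), a j * (V j - V (j - 1)) =
      a n * V n - a 0 * V (-1) - ∑ j ∈ Finset.Ico 0 (n : ℤ), (a (j + 1) - a j) * V j := by
  induction n with
  | zero => simp; ring
  | succ n ih =>
    have h1 : Finset.Icc 0 ((n + 1 : ℕ) : ℤ) = insert ((n : ℤ) + 1) (Finset.Icc 0 (n : ℤ)) := by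
      ext x; simp only [Finset.mem_Icc, Finset.mem_insert]; push_cast; omega
    have h2 : Finset.Ico 0 ((n + 1 : ℕ) : ℤ) = insert (n : ℤ) (Finset.Ico 0 (n : ℤ)) := by
      ext x; simp only [Finset.mem_Ico, Finset.mem_insert]; push_cast; omega
    rw [h1, h2, Finset.sum_insert (by simp), Finset.sum_insert (by simp), ih]
    push_cast
    rw [show (n : ℤ) + 1 - 1 = n by ring]
    ring

theorem sbp_Icc' (a V : ℤ → ℝ) {H : ℤ} (hH : 0 ≤ H) :
    ∑ j ∈ Finset.Icc 0 H, a j * (V j - V (j - 1)) =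
      a H * V H - a 0 * V (-1) - ∑ j ∈ Finset.Ico 0 H, (a (j + 1) - a j) * V j := by
  obtain ⟨n, rfl⟩ := Int.eq_ofNat_of_zero_le hH
  exact sbp_Icc a V n

theorem p_BGB : S_BGB := by
  intro W H U V hW hH
  rw [sum_RE]
  have e1 : ∑ i ∈ Finset.Ico 0 W, ∑ j ∈ Finset.Icc 0 H,
      du U (false, (i, j)) * dv V (false, (i, j)) =
      ∑ i ∈ Finset.Ico 0 W, (V (i, H) * du U (false, (i, H)) - V (i, -1) * du U (false, (i, 0))) -
        ∑ i ∈ Finset.Ico 0 W, ∑ j ∈ Finset.Ico 0 H,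
          (du U (false, (i, j + 1)) - du U (false, (i, j))) * V (i, j) := by
    rw [← Finset.sum_sub_distrib]
    refine Finset.sum_congr rfl fun i _ => ?_
    have := sbp_Icc' (fun j => du U (false, (i, j))) (fun j => V (i, j)) hH
    simp only [dv, lf_h, rf_h] at this ⊢
    rw [this]; ring
  have e2 : ∑ i ∈ Finset.Icc 0 W, ∑ j ∈ Finset.Ico 0 H,
      du U (true, (i, j)) * dv V (true, (i, j)) =
      ∑ j ∈ Finset.Ico 0 H, (V (-1, j) * du U (true, (0, j)) - V (W, j) * du U (true, (W, j))) +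
        ∑ j ∈ Finset.Ico 0 H, ∑ i ∈ Finset.Ico 0 W,
          (du U (true, (i + 1, j)) - du U (true, (i, j))) * V (i, j) := by
    rw [Finset.sum_comm, ← Finset.sum_add_distrib]
    refine Finset.sum_congr rfl fun j _ => ?_
    have := sbp_Icc' (fun i => du U (true, (i, j))) (fun i => V (i, j)) hW
    have h3 : ∑ i ∈ Finset.Icc 0 W, du U (true, (i, j)) * dv V (true, (i, j)) =
        - ∑ i ∈ Finset.Icc 0 W, du U (true, (i, j)) * (V (i, j) - V (i - 1, j)) := by
      rw [← Finset.sum_neg_distrib]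
      refine Finset.sum_congr rfl fun i _ => ?_
      simp only [dv, lf_v, rf_v]; ring
    rw [h3, this]; ring
  rw [e1, e2]
  have e3 : ∑ i ∈ Finset.Ico 0 W, ∑ j ∈ Finset.Ico 0 H,
          (du U (false, (i, j + 1)) - du U (false, (i, j))) * V (i, j) =
      ∑ j ∈ Finset.Ico 0 H, ∑ i ∈ Finset.Ico 0 W,
          (du U (true, (i + 1, j)) - du U (true, (i, j))) * V (i, j) := by
    rw [Finset.sum_comm]
    refine Finset.sum_congr rfl fun j _ => Finset.sum_congr rfl fun i _ => ?_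
    simp only [du, hd_h, hd_v, tl_h, tl_v]; ring
  rw [e3]; ring

end CarpetPI.PB
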