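import Pool.Agent.Lib.MP_1d263a_an.PI.StmB

open Finset MeasureTheory
open scoped Classical

noncomputable section

namespace CarpetPI.PB

theorem p_BLA : S_BLA := by
  intro ι S l r w a₀ a₁ M Z hS ha hM
  let μ : Measure ℝ := volume.restrict (Set.Ioo a₀ a₁)
  let F : ι → ℝ → ℝ := fun e => (Set.Ioo (l e) (r e)).indicator (fun _ => w e)
  have hFint : ∀ e ∈ S, Integrable (F e) μ := by
    intro e _
    exact (integrable_const (w e)).indicator measurableSet_Ioo
  have hg : ∀ b : ℝ, ∑ e ∈ S.filter (fun e => l e < b ∧ b < r e), w e = ∑ e ∈ S, F e b := by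
    intro b
    rw [Finset.sum_filter]
    refine Finset.sum_congr rfl fun e _ => ?_
    simp only [F, Set.indicator, Set.mem_Ioo]
  have h1 : ∫ _b, M ∂μ ≤ ∫ b, ∑ e ∈ S, F e b ∂μ := by
    refine integral_mono_ae (integrable_const M) (integrable_finsetSum S hFint) ?_
    have hZ : ∀ᵐ b ∂μ, b ∉ (Z : Set ℝ) := by
      have : volume (Z : Set ℝ) = 0 := Z.finite_toSet.measure_zero volume
      exact ae_restrict_of_ae (measure_eq_zero_iff_ae_notMem.1 this)
    have hI : ∀ᵐ b ∂μ, b ∈ Set.Ioo a₀ a₁ := ae_restrict_mem measurableSet_Ioo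
    filter_upwards [hZ, hI] with b hb1 hb2
    rw [← hg b]
    exact hM b hb2.1 hb2.2 (by exact_mod_cast hb1)
  have h2 : ∫ _b, M ∂μ = M * (a₁ - a₀) := by
    rw [integral_const]
    simp only [μ, measureReal_restrict_apply MeasurableSet.univ, Set.univ_inter, Real.volume_real_Ioo_of_le ha,
      smul_eq_mul]
    ring
  have h3 : ∫ b, ∑ e ∈ S, F e b ∂μ = ∑ e ∈ S, ∫ b, F e b ∂μ := integral_finsetSum S hFint
  rw [← h2]
  refine h1.trans ?_
  rw [h3]
  refine Finset.sum_le_sum fun e he => ?_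
  obtain ⟨hlr, hw⟩ := hS e he
  simp only [F]
  rw [integral_indicator_const _ measurableSet_Ioo, smul_eq_mul, mul_comm]
  refine mul_le_mul_of_nonneg_left ?_ hw
  calc μ.real (Set.Ioo (l e) (r e)) ≤ volume.real (Set.Ioo (l e) (r e)) := by
        refine ENNReal.toReal_mono ?_ ?_
        · rw [Real.volume_Ioo]; exact ENNReal.ofReal_ne_top
        · exact Measure.restrict_apply_le _ _
    _ = r e - l e := Real.volume_real_Ioo_of_le hlr

end CarpetPI.PB
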