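import Pool.Agent.Lib.MP_1d263a_an.PI.StmB

open Finset MeasureTheory
open scoped Classical

noncomputable section

namespace CarpetPI.PB

theorem p_BLB : S_BLB := by
  intro ι S l r l' r' U₀ U₁ V₀ V₁ hU hV hS hdis
  let A : ι → Set (ℝ × ℝ) := fun e => Set.Ioo (l e) (r e) ×ˢ Set.Ioo (l' e) (r' e)
  have hA : ∀ e ∈ S, volume (A e) = ENNReal.ofReal ((r e - l e) * (r' e - l' e)) := by
    intro e he
    obtain ⟨-, h1, -, -, h2, -⟩ := hS e he
    rw [Measure.volume_eq_prod, Measure.prod_prod, Real.volume_Ioo, Real.volume_Ioo,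
      ENNReal.ofReal_mul (by linarith)]
  have hpd : (S : Set ι).PairwiseDisjoint A := by
    intro e he e' he' hne
    refine Set.disjoint_left.2 ?_
    rintro ⟨a, c⟩ h1 h2
    exact hdis e he e' he' hne a c ⟨⟨h1.1.1, h1.1.2, h1.2.1, h1.2.2⟩, ⟨h2.1.1, h2.1.2, h2.2.1, h2.2.2⟩⟩
  have hmeas : ∀ e ∈ S, MeasurableSet (A e) := fun e _ => measurableSet_Ioo.prod measurableSet_Ioo
  have h1 : volume (⋃ e ∈ S, A e) = ∑ e ∈ S, volume (A e) :=
    measure_biUnion_finset hpd hmeas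
  have h2 : (⋃ e ∈ S, A e) ⊆ Set.Icc U₀ U₁ ×ˢ Set.Icc V₀ V₁ := by
    intro x hx
    simp only [Set.mem_iUnion] at hx
    obtain ⟨e, he, hx⟩ := hx
    obtain ⟨a1, -, a2, a3, -, a4⟩ := hS e he
    exact ⟨⟨a1.trans hx.1.1.le, hx.1.2.le.trans a2⟩, ⟨a3.trans hx.2.1.le, hx.2.2.le.trans a4⟩⟩
  have h3 : volume (⋃ e ∈ S, A e) ≤ ENNReal.ofReal ((U₁ - U₀) * (V₁ - V₀)) := by
    refine (measure_mono h2).trans ?_
    rw [Measure.volume_eq_prod, Measure.prod_prod, Real.volume_Icc, Real.volume_Icc,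
      ENNReal.ofReal_mul (by linarith)]
  rw [h1, Finset.sum_congr rfl hA, ← ENNReal.ofReal_sum_of_nonneg] at h3
  · exact (ENNReal.ofReal_le_ofReal_iff (mul_nonneg (by linarith) (by linarith))).1 h3
  · intro e he
    obtain ⟨-, h1, -, -, h2, -⟩ := hS e he
    exact mul_nonneg (by linarith) (by linarith)

end CarpetPI.PB
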