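import Pool.Agent.Lib.MP_1d263a_an.PI.StmB

open Finset
open scoped Classical

noncomputable section

namespace CarpetPI.PB

theorem phi_zero' (p : ℝ) : phi p 0 = 0 := by simp [phi]

theorem phi_neg' (p t : ℝ) : phi p (-t) = -phi p t := by
  unfold phi
  rw [abs_neg]
  rcases lt_trichotomy t 0 with h | h | h
  · rw [Real.sign_of_neg h, Real.sign_of_pos (by linarith)]; ring
  · subst h; simp
  · rw [Real.sign_of_pos h, Real.sign_of_neg (by linarith)]; ring

theorem phi_of_nonneg {p t : ℝ} (hp : 1 < p) (ht : 0 ≤ t) : phi p t = t ^ (p - 1) := by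
  rcases ht.eq_or_lt with h | h
  · subst h
    rw [phi_zero', Real.zero_rpow (by linarith)]
  · rw [phi, Real.sign_of_pos h, abs_of_pos h, one_mul]

theorem phi_abs {p : ℝ} (hp : 1 < p) (t : ℝ) : |phi p t| = |t| ^ (p - 1) := by
  have h0 : (0:ℝ) ≤ |t| ^ (p - 1) := Real.rpow_nonneg (abs_nonneg t) _
  rcases lt_trichotomy t 0 with h | h | h
  · rw [phi, Real.sign_of_neg h, neg_one_mul, abs_neg, abs_of_nonneg h0]
  · subst h
    rw [phi_zero', abs_zero, Real.zero_rpow (by linarith)]
  · rw [phi, Real.sign_of_pos h, one_mul, abs_of_nonneg h0]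

theorem phi_lt {p : ℝ} (hp : 1 < p) : StrictMono (phi p) := by
  have key : ∀ x y : ℝ, 0 ≤ x → x < y → phi p x < phi p y := by
    intro x y hx hxy
    rw [phi_of_nonneg hp hx, phi_of_nonneg hp (hx.trans hxy.le)]
    exact Real.rpow_lt_rpow hx hxy (by linarith)
  intro x y hxy
  rcases le_or_gt 0 x with h | h
  · exact key x y h hxy
  · rcases le_or_gt y 0 with h' | h'
    · have := key (-y) (-x) (by linarith) (by linarith)
      rw [phi_neg', phi_neg'] at this
      linarith
    · have h1 := key 0 y le_rfl h'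
      have h2 := key 0 (-x) le_rfl (by linarith)
      rw [phi_neg'] at h2
      rw [phi_zero'] at h1 h2
      linarith

theorem phi_pos_iff {p : ℝ} (hp : 1 < p) (t : ℝ) : 0 < phi p t ↔ 0 < t := by
  have := (phi_lt hp).lt_iff_lt (a := 0) (b := t)
  rwa [phi_zero'] at this

theorem phi_neg_iff {p : ℝ} (hp : 1 < p) (t : ℝ) : phi p t < 0 ↔ t < 0 := by
  have := (phi_lt hp).lt_iff_lt (a := t) (b := 0)
  rwa [phi_zero'] at this

theorem phi_eq_zero_iff {p : ℝ} (hp : 1 < p) (t : ℝ) : phi p t = 0 ↔ t = 0 := by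
  have := (phi_lt hp).injective.eq_iff (a := t) (b := 0)
  rwa [phi_zero'] at this

theorem phi_inv {p q : ℝ} (hp : 1 < p) (hq : 1 < q) (hpq : (p - 1) * (q - 1) = 1) (t : ℝ) :
    phi q (phi p t) = t := by
  have key : ∀ t : ℝ, 0 ≤ t → phi q (phi p t) = t := by
    intro t ht
    rw [phi_of_nonneg hp ht, phi_of_nonneg hq (Real.rpow_nonneg ht _), ← Real.rpow_mul ht, hpq,
      Real.rpow_one]
  rcases le_or_gt 0 t with h | h
  · exact key t h
  · have := key (-t) (by linarith)
    rw [phi_neg', phi_neg'] at this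
    linarith

theorem phi_continuous {p : ℝ} (hp : 1 < p) : Continuous (phi p) := by
  have : phi p = fun t => (max t 0) ^ (p - 1) - (max (-t) 0) ^ (p - 1) := by
    funext t
    have h0 : (0:ℝ) ^ (p - 1) = 0 := Real.zero_rpow (by linarith)
    rcases le_or_gt 0 t with h | h
    · rw [phi_of_nonneg hp h, max_eq_left h, max_eq_right (by linarith), h0, sub_zero]
    · rw [max_eq_right h.le, max_eq_left (by linarith), h0, zero_sub,
        ← phi_of_nonneg hp (by linarith : 0 ≤ -t), phi_neg', neg_neg]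
  rw [this]
  have hc : Continuous fun t : ℝ => t ^ (p - 1) := Real.continuous_rpow_const (by linarith)
  exact (hc.comp (continuous_id.max continuous_const)).sub
    (hc.comp (continuous_neg.max continuous_const))

theorem mul_phi {p : ℝ} (hp : 1 < p) (t : ℝ) : t * phi p t = |t| ^ p := by
  have key : ∀ t : ℝ, 0 ≤ t → t * phi p t = |t| ^ p := by
    intro t ht
    rcases ht.eq_or_lt with h | h
    · subst h
      rw [zero_mul, abs_zero, Real.zero_rpow (by linarith)]
    · rw [phi_of_nonneg hp ht, abs_of_nonneg ht, Real.rpow_sub_one h.ne']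
      field_simp
  rcases le_or_gt 0 t with h | h
  · exact key t h
  · have := key (-t) (by linarith)
    rw [phi_neg', abs_neg] at this
    rw [← this]; ring

theorem conj_facts {p : ℝ} (hp : 1 < p) : 1 < p / (p - 1) ∧ (p - 1) * (p / (p - 1) - 1) = 1 ∧
    (p / (p - 1) - 1) * (p - 1) = 1 ∧ (p - 1) * (p / (p - 1)) = p := by
  have h : 0 < p - 1 := by linarith
  refine ⟨?_, ?_, ?_, ?_⟩
  · rw [lt_div_iff₀ h]; linarith
  · field_simp; ring
  · field_simp; ring
  · field_simp

theorem phi_mul {p : ℝ} (hp : 1 < p) (l t : ℝ) (hl : 0 ≤ l) : phi p (l * t) = l ^ (p - 1) * phi p t := by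
  have key : ∀ t : ℝ, 0 ≤ t → phi p (l * t) = l ^ (p - 1) * phi p t := by
    intro t ht
    rw [phi_of_nonneg hp ht, phi_of_nonneg hp (mul_nonneg hl ht), Real.mul_rpow hl ht]
  rcases le_or_gt 0 t with h | h
  · exact key t h
  · have := key (-t) (by linarith)
    rw [mul_neg, phi_neg', phi_neg'] at this
    linarith

theorem p_BPA : S_BPA := by
  intro p hp
  obtain ⟨hq, h1, h2, h3⟩ := conj_facts hp
  refine ⟨phi_zero' p, phi_neg' p, phi_abs hp, mul_phi hp, phi_mul hp, phi_lt hp,
    phi_continuous hp, phi_inv hp hq h1, phi_inv hq hp h2, ?_, phi_pos_iff hp, phi_neg_iff hp,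
    phi_eq_zero_iff hp⟩
  intro t
  rw [phi_abs hp, ← Real.rpow_mul (abs_nonneg t), h3]

end CarpetPI.PB
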