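import Pool.Agent.Lib.MP_1d263a_an.PI.StmB

open Finset
open scoped Classical

noncomputable section

namespace CarpetPI.PB

theorem phi_core (hA : S_BPA) {r : ℝ} (hr : 1 < r) {c C : ℝ}
    (h : ∀ s : ℝ, -1 ≤ s → s ≤ 1 → c * (1 - s) ≤ 1 - phi r s ∧ 1 - phi r s ≤ C * (1 - s))
    (x y : ℝ) :
    |phi r x - phi r y| ≤ C * max |x| |y| ^ (r - 2) * |x - y| ∧
      c * max |x| |y| ^ (r - 2) * |x - y| ≤ |phi r x - phi r y| := by
  obtain ⟨h0, hneg, habs, hmul, hhom, hmono, -, -⟩ := hA r hr
  have one : phi r 1 = 1 := by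
    have := hmul 1
    simpa using this
  have key : ∀ x y : ℝ, 0 < x → |y| ≤ x →
      |phi r x - phi r y| ≤ C * x ^ (r - 2) * |x - y| ∧
      c * x ^ (r - 2) * |x - y| ≤ |phi r x - phi r y| := by
    intro x y hx hy
    obtain ⟨hy1, hy2⟩ := abs_le.1 hy
    set s : ℝ := y / x with hs
    have hys : y = x * s := by rw [hs]; field_simp
    have hs1 : -1 ≤ s := by rw [hs, le_div_iff₀ hx]; linarith
    have hs2 : s ≤ 1 := by rw [hs, div_le_iff₀ hx]; linarith
    obtain ⟨k1, k2⟩ := h s hs1 hs2
    have e1 : phi r x - phi r y = x ^ (r - 1) * (1 - phi r s) := by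
      rw [hys, hhom x s hx.le]
      have := hhom x 1 hx.le
      rw [mul_one, one, mul_one] at this
      rw [this]; ring
    have e2 : x - y = x * (1 - s) := by rw [hys]; ring
    have e3 : x ^ (r - 1) = x ^ (r - 2) * x := by
      rw [← Real.rpow_add_one hx.ne']; congr 1; ring
    have p0 : 0 < x ^ (r - 1) := Real.rpow_pos_of_pos hx _
    have s0 : 0 ≤ 1 - s := by linarith
    have m0 : 0 ≤ 1 - phi r s := by
      have := hmono.monotone hs2
      rw [one] at this; linarith
    rw [e1, e2, abs_mul, abs_mul, abs_of_pos p0, abs_of_pos hx, abs_of_nonneg s0, abs_of_nonneg m0]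
    constructor
    · calc x ^ (r - 1) * (1 - phi r s) ≤ x ^ (r - 1) * (C * (1 - s)) :=
            mul_le_mul_of_nonneg_left k2 p0.le
        _ = C * x ^ (r - 2) * (x * (1 - s)) := by rw [e3]; ring
    · calc c * x ^ (r - 2) * (x * (1 - s)) = x ^ (r - 1) * (c * (1 - s)) := by rw [e3]; ring
        _ ≤ x ^ (r - 1) * (1 - phi r s) := mul_le_mul_of_nonneg_left k1 p0.le
  have key2 : ∀ x y : ℝ, |y| ≤ |x| →
      |phi r x - phi r y| ≤ C * |x| ^ (r - 2) * |x - y| ∧
      c * |x| ^ (r - 2) * |x - y| ≤ |phi r x - phi r y| := by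
    intro x y hxy
    rcases lt_trichotomy x 0 with hx | hx | hx
    · have := key (-x) (-y) (by linarith) (by rw [abs_neg]; rwa [abs_of_neg hx] at hxy)
      rw [hneg, hneg] at this
      rw [abs_of_neg hx]
      rw [show -phi r x - -phi r y = -(phi r x - phi r y) by ring, abs_neg,
        show -x - -y = -(x - y) by ring, abs_neg] at this
      exact this
    · subst hx
      have hy : y = 0 := by
        rw [abs_zero] at hxy
        exact abs_eq_zero.1 (le_antisymm hxy (abs_nonneg _))
      subst hy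
      simp
    · rw [abs_of_pos hx] at hxy ⊢
      exact key x y hx hxy
  rcases le_total |y| |x| with hxy | hxy
  · rw [max_eq_left hxy]; exact key2 x y hxy
  · rw [max_eq_right hxy]
    have := key2 y x hxy
    rw [abs_sub_comm (phi r y), abs_sub_comm y] at this
    exact this

theorem phi_nonneg_eq (hA : S_BPA) {r : ℝ} (hr : 1 < r) {s : ℝ} (hs : 0 ≤ s) :
    phi r s = s ^ (r - 1) := by
  obtain ⟨h0, hneg, habs, hmul, hhom, hmono, -, -⟩ := hA r hr
  have h1 := habs s
  have h2 : 0 ≤ phi r s := by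
    have := hmono.monotone hs; rwa [h0] at this
  rwa [abs_of_nonneg h2, abs_of_nonneg hs] at h1

theorem p_BPB (hA : S_BPA) : S_BPB := by
  constructor
  · intro q hq x y
    have hq1 : 1 < q := by linarith
    have := phi_core hA hq1 (c := 1 / 2) (C := q - 1) ?_ x y
    · exact this
    intro s hs1 hs2
    obtain ⟨h0, hneg, -⟩ := hA q hq1
    rcases le_or_gt 0 s with hs | hs
    · rw [phi_nonneg_eq hA hq1 hs]
      have e1 : s ^ (q - 1) ≤ s := by
        calc s ^ (q - 1) ≤ s ^ (1:ℝ) := Real.rpow_le_rpow_of_exponent_ge' hs hs2 (by norm_num) (by linarith)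
          _ = s := Real.rpow_one s
      have e2 : 1 + (q - 1) * (s - 1) ≤ s ^ (q - 1) := by
        have := one_add_mul_self_le_rpow_one_add (s := s - 1) (by linarith) (p := q - 1) (by linarith)
        rwa [show 1 + (s - 1) = s by ring] at this
      constructor <;> nlinarith
    · have e := hneg (-s)
      rw [neg_neg, phi_nonneg_eq hA hq1 (by linarith : 0 ≤ -s)] at e
      rw [e]
      have e1 : (-s) ^ (q - 1) ≤ -s := by
        calc (-s) ^ (q - 1) ≤ (-s) ^ (1:ℝ) := Real.rpow_le_rpow_of_exponent_ge' (by linarith) (by linarith) (by norm_num) (by linarith)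
          _ = -s := Real.rpow_one _
      have e0 : 0 ≤ (-s) ^ (q - 1) := Real.rpow_nonneg (by linarith) _
      constructor <;> nlinarith
  · intro p hp hp2 x y
    have := phi_core hA hp (c := p - 1) (C := 2) ?_ x y
    · exact this
    intro s hs1 hs2
    obtain ⟨h0, hneg, -⟩ := hA p hp
    rcases le_or_gt 0 s with hs | hs
    · rw [phi_nonneg_eq hA hp hs]
      have e1 : s ≤ s ^ (p - 1) := by
        calc s = s ^ (1:ℝ) := (Real.rpow_one s).symm
          _ ≤ s ^ (p - 1) := Real.rpow_le_rpow_of_exponent_ge' hs hs2 (by linarith) (by linarith)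
      have e2 : s ^ (p - 1) ≤ 1 + (p - 1) * (s - 1) := by
        have := rpow_one_add_le_one_add_mul_self (s := s - 1) (by linarith) (p := p - 1) (by linarith) (by linarith)
        rwa [show 1 + (s - 1) = s by ring] at this
      constructor <;> nlinarith
    · have e := hneg (-s)
      rw [neg_neg, phi_nonneg_eq hA hp (by linarith : 0 ≤ -s)] at e
      rw [e]
      have e1 : -s ≤ (-s) ^ (p - 1) := by
        calc -s = (-s) ^ (1:ℝ) := (Real.rpow_one _).symm
          _ ≤ (-s) ^ (p - 1) := Real.rpow_le_rpow_of_exponent_ge' (by linarith) (by linarith) (by linarith) (by linarith)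
      have e2 : (-s) ^ (p - 1) ≤ 1 := Real.rpow_le_one (by linarith) (by linarith) (by linarith)
      constructor <;> nlinarith

end CarpetPI.PB
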