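import Pool.Agent.Lib.MP_1d263a_an.PI.StmB

open Finset
open scoped Classical

noncomputable section

namespace CarpetPI.PB

theorem p_BPC (hA : S_BPA) : S_BPC := by
  intro p hp K R u v hP e he
  obtain ⟨h0, hneg, habs, hmul, -, hmono, -, hinv, hinv', hq, hpos, hneg', hz⟩ := hA p hp
  have key : pres K e → du u e = phi (p / (p - 1)) (dv v e) ∧
      |dv v e| ^ (p / (p - 1)) = |du u e| ^ p ∧
      du u e * dv v e = |du u e| ^ p ∧ |du u e| * |dv v e| = |du u e| ^ p ∧
      (du u e = 0 ↔ dv v e = 0) := by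
    intro hpr
    have h := (hP e he).1 hpr
    rw [h]
    refine ⟨(hinv _).symm, hq _, hmul _, ?_, (hz _).symm⟩
    rw [← abs_mul, hmul, abs_of_nonneg (Real.rpow_nonneg (abs_nonneg _) _)]
  by_cases hpr : pres K e
  · obtain ⟨k1, k2, k3, k4, k5⟩ := key hpr
    refine ⟨key, ?_, ?_⟩
    · rw [k3]; exact Real.rpow_nonneg (abs_nonneg _) _
    · intro hne
      rw [k3]
      have : du u e ≠ 0 := fun h => hne (k5.1 h)
      exact Real.rpow_pos_of_pos (abs_pos.2 this) _
  · have h := (hP e he).2 hpr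
    refine ⟨key, ?_, ?_⟩
    · rw [h]; simp
    · intro hne; exact absurd h hne

end CarpetPI.PB
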