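import Pool.Agent.Lib.MP_1d263a_an.PI.StmB
import Mathlib.Analysis.InnerProductSpace.NormPow

open Finset
open scoped Classical

noncomputable section

namespace CarpetPI.PB

theorem phi_eq_abs_rpow (p t : ℝ) : phi p t = |t| ^ (p - 2) * t := by
  unfold phi
  rcases lt_trichotomy t 0 with h | h | h
  · rw [Real.sign_of_neg h]
    have : 0 < |t| := abs_pos.2 h.ne
    rw [show p - 1 = (p - 2) + 1 by ring, Real.rpow_add_one this.ne']
    conv_rhs => rw [show t = -|t| by rw [abs_of_neg h]; ring]
    rw [abs_neg, abs_abs]; ring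
  · subst h; simp
  · rw [Real.sign_of_pos h]
    have : 0 < |t| := abs_pos.2 h.ne'
    rw [show p - 1 = (p - 2) + 1 by ring, Real.rpow_add_one this.ne']
    rw [abs_of_pos h]; ring

theorem p_BRA : S_BRA := by
  intro p hp K W H hW
  let E : (Pt → ℝ) → ℝ := fun u => ∑ e ∈ (RE W H).filter (pres K), |du u e| ^ p
  have hEc : Continuous E := by
    refine continuous_finsetSum _ fun e _ => ?_
    refine Continuous.rpow_const ?_ (fun _ => Or.inr (by linarith))
    have h1 : Continuous fun u : Pt → ℝ => u (hd e) := continuous_apply (hd e)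
    have h2 : Continuous fun u : Pt → ℝ => u (tl e) := continuous_apply (tl e)
    exact (h1.sub h2).abs
  let s : Pt → Set ℝ := fun x => if x.1 ≤ 0 then {0} else if W ≤ x.1 then {1} else Set.Icc 0 1
  have hsc : ∀ x, IsCompact (s x) := by
    intro x
    simp only [s]
    split_ifs
    · exact isCompact_singleton
    · exact isCompact_singleton
    · exact isCompact_Icc
  have hC : IsCompact (Set.univ.pi s) := isCompact_univ_pi hsc
  have hne : (Set.univ.pi s).Nonempty := by
    rw [Set.univ_pi_nonempty_iff]
    intro x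
    simp only [s]
    split_ifs
    · exact Set.singleton_nonempty _
    · exact Set.singleton_nonempty _
    · exact Set.nonempty_Icc.2 zero_le_one
  obtain ⟨u, hu, hmin⟩ := hC.exists_isMinOn hne hEc.continuousOn
  have hu0 : ∀ x : Pt, x.1 ≤ 0 → u x = 0 := by
    intro x hx
    have := hu x (Set.mem_univ _)
    simp only [s, if_pos hx] at this
    exact this
  have hu1 : ∀ x : Pt, W ≤ x.1 → u x = 1 := by
    intro x hx
    have := hu x (Set.mem_univ _)
    simp only [s, if_neg (by linarith : ¬ x.1 ≤ 0), if_pos hx] at this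
    exact this
  have hu01 : ∀ x, 0 ≤ u x ∧ u x ≤ 1 := by
    intro x
    have := hu x (Set.mem_univ _)
    simp only [s] at this
    split_ifs at this with h1 h2
    · rw [Set.mem_singleton_iff.1 this]; norm_num
    · rw [Set.mem_singleton_iff.1 this]; norm_num
    · exact this
  have hmin2 : ∀ f : Pt → ℝ, (∀ j, f (0, j) = 0) → (∀ j, f (W, j) = 1) → E u ≤ E f := by
    intro f hf0 hf1
    let g : Pt → ℝ := fun x => if x.1 ≤ 0 then 0 else if W ≤ x.1 then 1 else max 0 (min 1 (f x))
    have hg : g ∈ Set.univ.pi s := by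
      intro x _
      simp only [s, g]
      split_ifs with h1 h2
      · rfl
      · rfl
      · exact ⟨le_max_left _ _, max_le zero_le_one (min_le_left _ _)⟩
    have h1 : E u ≤ E g := hmin hg
    refine h1.trans (Finset.sum_le_sum fun e he => ?_)
    have he' := (Finset.mem_filter.1 he).1
    have hgf : ∀ x : Pt, 0 ≤ x.1 → x.1 ≤ W → g x = max 0 (min 1 (f x)) := by
      rintro ⟨i, j⟩ h0 h1
      simp only at h0 h1
      simp only [g]
      split_ifs with h2 h3
      · have : i = 0 := le_antisymm h2 h0
        subst this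
        rw [hf0]; norm_num
      · have : i = W := le_antisymm h1 h3
        subst this
        rw [hf1]; norm_num
      · rfl
    have hends : (0 ≤ (hd e).1 ∧ (hd e).1 ≤ W) ∧ (0 ≤ (tl e).1 ∧ (tl e).1 ≤ W) := by
      obtain ⟨b, x⟩ := e
      cases b
      · have := mem_RE_h.1 he'
        simp only [hd_h, tl_h]
        refine ⟨⟨by linarith [this.1.1], ?_⟩, this.1.1, by linarith [this.1.2]⟩
        have := this.1.2
        omega
      · have := mem_RE_v.1 he'
        simp only [hd_v, tl_v]
        exact ⟨this.1, this.1⟩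
    refine Real.rpow_le_rpow (abs_nonneg _) ?_ (by linarith)
    unfold du
    rw [hgf _ hends.1.1 hends.1.2, hgf _ hends.2.1 hends.2.2]
    calc |max 0 (min 1 (f (hd e))) - max 0 (min 1 (f (tl e)))|
        ≤ |min 1 (f (hd e)) - min 1 (f (tl e))| := by
          have := abs_max_sub_max_le_abs (min 1 (f (hd e))) (min 1 (f (tl e))) 0
          rwa [max_comm _ (0:ℝ), max_comm _ (0:ℝ)] at this
      _ ≤ |f (hd e) - f (tl e)| := by
          have := abs_min_sub_min_le_max 1 (f (hd e)) 1 (f (tl e))
          simpa using this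
  refine ⟨u, ⟨hu0, hu1, hu01⟩, hmin2, ?_⟩
  intro h hh0 hh1
  have hder : HasDerivAt (fun t : ℝ => E (fun x => u x + t * h x))
      (∑ e ∈ (RE W H).filter (pres K), p * (phi p (du u e) * du h e)) 0 := by
    have : (fun t : ℝ => E (fun x => u x + t * h x)) =
        fun t : ℝ => ∑ e ∈ (RE W H).filter (pres K), |du u e + t * du h e| ^ p := by
      funext t
      refine Finset.sum_congr rfl fun e _ => ?_
      congr 2
      unfold du; ring
    rw [this]
    refine HasDerivAt.fun_sum fun e _ => ?_
    have h1 : HasDerivAt (fun t : ℝ => du u e + t * du h e) (du h e) 0 := by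
      simpa using ((hasDerivAt_id (0:ℝ)).mul_const (du h e)).const_add (du u e)
    have h2 := (hasDerivAt_abs_rpow (du u e + 0 * du h e) hp).comp (0:ℝ) h1
    rw [zero_mul, add_zero] at h2
    have h3 : p * (phi p (du u e) * du h e) = p * |du u e| ^ (p - 2) * du u e * du h e := by
      rw [phi_eq_abs_rpow]; ring
    rw [h3]
    exact h2
  have hloc : IsLocalMin (fun t : ℝ => E (fun x => u x + t * h x)) 0 := by
    refine Filter.Eventually.of_forall fun t => ?_
    simp only [zero_mul, add_zero]
    refine hmin2 _ ?_ ?_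
    · intro j; rw [hh0, hu0 (0, j) le_rfl]; ring
    · intro j; rw [hh1, hu1 (W, j) le_rfl]; ring
  have := hloc.hasDerivAt_eq_zero hder
  rw [← Finset.mul_sum] at this
  rcases mul_eq_zero.1 this with h | h
  · linarith
  · exact h

end CarpetPI.PB
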