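import Pool.Agent.Lib.MP_1d263a_an.PI.StmB

open Finset
open scoped Classical

noncomputable section

namespace CarpetPI.PB

theorem brb_vertex {W H : ℤ} {J : Ed → ℝ} (hJ : ∀ e, e ∉ RE W H → J e = 0)
    (hw : ∀ h : Pt → ℝ, (∀ j, h (0, j) = 0) → (∀ j, h (W, j) = 0) →
      ∑ e ∈ RE W H, J e * du h e = 0) (i j : ℤ) (h0 : 0 < i) (h1 : i < W) :
    J (false, (i - 1, j)) - J (false, (i, j)) = J (true, (i, j)) - J (true, (i, j - 1)) := by
  let h : Pt → ℝ := fun x => if x = (i, j) then 1 else 0
  have hh0 : ∀ j', h (0, j') = 0 := by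
    intro j'
    simp only [h]
    rw [if_neg]
    intro hc
    have := congrArg Prod.fst hc
    simp only at this
    omega
  have hh1 : ∀ j', h (W, j') = 0 := by
    intro j'
    simp only [h]
    rw [if_neg]
    intro hc
    have := congrArg Prod.fst hc
    simp only at this
    omega
  have hs := hw h hh0 hh1
  let T : Finset Ed := {(false, (i - 1, j)), (true, (i, j - 1)), (false, (i, j)), (true, (i, j))}
  have hT : ∀ e, e ∉ T → du h e = 0 := by
    intro e he
    obtain ⟨b, a, c⟩ := e
    have key : h (hd (b, (a, c))) = 0 ∧ h (tl (b, (a, c))) = 0 := by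
      simp only [T, Finset.mem_insert, Finset.mem_singleton, Prod.mk.injEq, not_or] at he
      cases b
      · simp only [hd_h, tl_h, h, Prod.mk.injEq]
        simp only [true_and, reduceCtorEq, false_and, not_false_eq_true, and_true] at he
        constructor
        · rw [if_neg]; rintro ⟨h2, h3⟩; exact he.1 ⟨by omega, h3⟩
        · rw [if_neg]; rintro ⟨h2, h3⟩; exact he.2 ⟨h2, h3⟩
      · simp only [hd_v, tl_v, h, Prod.mk.injEq]
        simp only [true_and, reduceCtorEq, false_and, not_false_eq_true] at he
        constructor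
        · rw [if_neg]; rintro ⟨h2, h3⟩; exact he.1 ⟨h2, by omega⟩
        · rw [if_neg]; rintro ⟨h2, h3⟩; exact he.2 ⟨h2, h3⟩
    unfold du
    rw [key.1, key.2, sub_zero]
  have e1 : ∑ e ∈ RE W H, J e * du h e = ∑ e ∈ RE W H ∪ T, J e * du h e :=
    Finset.sum_subset Finset.subset_union_left
      (fun e _ he => by rw [hJ e he, zero_mul])
  have e2 : ∑ e ∈ T, J e * du h e = ∑ e ∈ RE W H ∪ T, J e * du h e :=
    Finset.sum_subset Finset.subset_union_right
      (fun e _ he => by rw [hT e he, mul_zero])
  rw [e1, ← e2] at hs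
  have hs2 : ∑ e ∈ T, J e * du h e = J (false, (i - 1, j)) + J (true, (i, j - 1)) -
      J (false, (i, j)) - J (true, (i, j)) := by
    simp only [T]
    rw [Finset.sum_insert (by simp), Finset.sum_insert (by simp), Finset.sum_insert (by simp),
      Finset.sum_singleton]
    simp [du, h]
    ring
  rw [hs2] at hs
  linarith

theorem p_BRB : S_BRB := by
  intro W H J hW hH hJ hJ0 hJ1 hw
  have hvert := brb_vertex hJ hw
  let cl : ℤ → ℤ := fun i => max 0 (min (W - 1) i)
  let v : Pt → ℝ := fun f => ∑ j ∈ Finset.Icc 0 f.2, J (false, (cl f.1, j))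
  have cl_eq : ∀ i : ℤ, 0 ≤ i → i < W → cl i = i := by
    intro i h0 h1; simp only [cl]; omega
  have hvbot : ∀ f : Pt, f.2 < 0 → v f = 0 := by
    intro f hf
    simp only [v]
    rw [Finset.Icc_eq_empty (by linarith), Finset.sum_empty]
  have hstep : ∀ i j : ℤ, 0 ≤ j → v (i, j) = v (i, j - 1) + J (false, (cl i, j)) := by
    intro i j hj
    simp only [v]
    have : Finset.Icc 0 j = insert j (Finset.Icc 0 (j - 1)) := by
      ext x; simp only [Finset.mem_Icc, Finset.mem_insert]; omega
    rw [this, Finset.sum_insert (by simp)]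
    ring
  have hvv : ∀ i : ℤ, 0 < i → i < W → ∀ n : ℕ, v (i - 1, (n : ℤ)) - v (i, (n : ℤ)) = J (true, (i, (n : ℤ))) := by
    intro i h0 h1 n
    have c1 : cl (i - 1) = i - 1 := cl_eq _ (by omega) (by omega)
    have c2 : cl i = i := cl_eq _ (by omega) h1
    induction n with
    | zero =>
      have a1 := hstep (i - 1) 0 le_rfl
      have a2 := hstep i 0 le_rfl
      have a3 := hvert i 0 h0 h1
      rw [c1, hvbot (i - 1, 0 - 1) (by norm_num)] at a1
      rw [c2, hvbot (i, 0 - 1) (by norm_num)] at a2
      have a4 : J (true, (i, 0 - 1)) = 0 := hJ _ (fun hm => by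
        have := (mem_RE_v.1 hm).2.1
        simp only at this
        omega)
      rw [a4] at a3
      push_cast
      linarith
    | succ n ih =>
      have a1 := hstep (i - 1) ((n : ℤ) + 1) (by positivity)
      have a2 := hstep i ((n : ℤ) + 1) (by positivity)
      have a3 := hvert i ((n : ℤ) + 1) h0 h1
      rw [c1, add_sub_cancel_right] at a1
      rw [c2, add_sub_cancel_right] at a2
      rw [add_sub_cancel_right] at a3
      push_cast
      linarith
  have hbig : ∀ i : ℤ, 0 ≤ i → i < W → ∀ n : ℕ, v (i, H + n) = v (i, H) := by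
    intro i h0 h1 n
    induction n with
    | zero => simp
    | succ n ih =>
      have a1 := hstep i (H + (n + 1 : ℕ)) (by positivity)
      have a2 : J (false, (cl i, H + ((n + 1 : ℕ) : ℤ))) = 0 := hJ _ (fun hm => by
        have := (mem_RE_h.1 hm).2.2
        simp only at this
        push_cast at this
        omega)
      rw [a2] at a1
      rw [a1, add_zero]
      rw [← ih]
      congr 2
      push_cast; ring
  obtain ⟨nH, hnH⟩ := Int.eq_ofNat_of_zero_le hH
  have hcol : ∀ n : ℕ, (n : ℤ) < W → v ((n : ℤ), H) = v (0, H) := by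
    intro n
    induction n with
    | zero => intro _; simp
    | succ n ih =>
      intro hn
      push_cast at hn ⊢
      have a1 := hvv ((n : ℤ) + 1) (by positivity) hn nH
      rw [← hnH, add_sub_cancel_right] at a1
      have a2 : J (true, ((n : ℤ) + 1, H)) = 0 := hJ _ (fun hm => by
        have := (mem_RE_v.1 hm).2.2
        simp only at this
        omega)
      rw [a2] at a1
      linarith [ih (by omega)]
  have hvtop : ∀ f : Pt, H ≤ f.2 → v f = v (0, H) := by
    rintro ⟨i, j⟩ hf
    simp only at hf
    have hcl0 : 0 ≤ cl i := le_max_left _ _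
    have hcl1 : cl i < W := by simp only [cl]; omega
    have e1 : v (i, j) = v (cl i, j) := by
      simp only [v]; rw [cl_eq (cl i) hcl0 hcl1]
    obtain ⟨n, hn⟩ := Int.eq_ofNat_of_zero_le (by linarith : 0 ≤ j - H)
    have e2 := hbig (cl i) hcl0 hcl1 n
    rw [← hn, show H + (j - H) = j by ring] at e2
    obtain ⟨m, hm⟩ := Int.eq_ofNat_of_zero_le hcl0
    have e3 := hcol m (by rw [← hm]; exact hcl1)
    rw [← hm] at e3
    rw [e1, e2, e3]
  refine ⟨v, v (0, H), hvbot, hvtop, ?_, ?_, ?_, ?_⟩
  · rintro ⟨i, j⟩ hi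
    simp only at hi
    simp only [v]
    have : cl i = cl 0 := by simp only [cl]; omega
    rw [this]
  · rintro ⟨i, j⟩ hi
    simp only at hi
    simp only [v]
    have : cl i = cl (W - 1) := by simp only [cl]; omega
    rw [this]
  · rintro ⟨b, i, j⟩ he
    cases b
    · obtain ⟨⟨h0, h1⟩, h2, h3⟩ := mem_RE_h.1 he
      simp only at h0 h1 h2 h3
      simp only [dv, lf_h, rf_h]
      rw [hstep i j h2, cl_eq i h0 h1]; ring
    · obtain ⟨⟨h0, h1⟩, h2, h3⟩ := mem_RE_v.1 he
      simp only at h0 h1 h2 h3
      simp only [dv, lf_v, rf_v]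
      rcases h0.eq_or_lt with h | h
      · subst h
        rw [hJ0]
        simp only [v]
        have : cl (0 - 1) = cl 0 := by simp only [cl]; omega
        rw [this, sub_self]
      · rcases h1.eq_or_lt with h' | h'
        · subst h'
          rw [hJ1]
          simp only [v]
          have : cl (i - 1) = cl i := by simp only [cl]; omega
          rw [this, sub_self]
        · obtain ⟨n, hn⟩ := Int.eq_ofNat_of_zero_le h2
          have := hvv i h h' n
          rw [← hn] at this
          exact this
  · intro U hU0 hU1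
    let k : Pt → ℝ := fun x => if 1 ≤ x.1 then 1 else 0
    have hh := hw (fun x => U x - k x) (by intro j; simp [k, hU0]) (by intro j; simp [k, hU1, hW])
    have e1 : ∑ e ∈ RE W H, J e * du (fun x => U x - k x) e =
        ∑ e ∈ RE W H, J e * du U e - ∑ e ∈ RE W H, J e * du k e := by
      rw [← Finset.sum_sub_distrib]
      refine Finset.sum_congr rfl fun e _ => ?_
      unfold du; ring
    rw [e1] at hh
    have e2 : ∑ e ∈ RE W H, J e * du k e = v (0, H) := by
      rw [sum_RE]
      have e3 : ∑ i ∈ Finset.Icc 0 W, ∑ j ∈ Finset.Ico 0 H, J (true, (i, j)) * du k (true, (i, j)) = 0 := by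
        refine Finset.sum_eq_zero fun i _ => Finset.sum_eq_zero fun j _ => ?_
        simp [du, k]
      have e4 : ∑ i ∈ Finset.Ico 0 W, ∑ j ∈ Finset.Icc 0 H, J (false, (i, j)) * du k (false, (i, j)) =
          ∑ j ∈ Finset.Icc 0 H, J (false, (0, j)) := by
        rw [Finset.sum_eq_single (0:ℤ)]
        · refine Finset.sum_congr rfl fun j _ => ?_
          simp [du, k]
        · intro i hi hne
          have hi' := Finset.mem_Ico.1 hi
          refine Finset.sum_eq_zero fun j _ => ?_
          simp only [du, k, hd_h, tl_h]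
          rw [if_pos (by omega), if_pos (by omega)]; ring
        · intro hc
          exact absurd (Finset.mem_Ico.2 ⟨le_rfl, by omega⟩) hc
      rw [e3, e4, add_zero]
      simp only [v]
      rw [cl_eq 0 le_rfl (by omega)]
    linarith

end CarpetPI.PB
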