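import Pool.Agent.Lib.MP_1d263a_an.PI.StmB

open Finset
open scoped Classical

noncomputable section

namespace CarpetPI.PB

theorem p_BRC (hA : S_BPA) (hM : S_BRA) (hB : S_BRB) : S_BRC := by
  intro p hp K W H hW hH
  obtain ⟨h0, -, -, hmul, -⟩ := hA p hp
  obtain ⟨u, ⟨hu0, hu1, hu01⟩, hmin, hEL⟩ := hM p hp K W H hW
  let J : Ed → ℝ := fun e => if e ∈ RE W H ∧ pres K e then phi p (du u e) else 0
  have hJ : ∀ e, e ∉ RE W H → J e = 0 := by
    intro e he; simp only [J]; rw [if_neg (fun h => he h.1)]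
  have hdu0 : ∀ j, du u (true, (0, j)) = 0 := by
    intro j; simp only [du, hd_v, tl_v]
    rw [hu0 (0, j + 1) le_rfl, hu0 (0, j) le_rfl, sub_zero]
  have hdu1 : ∀ j, du u (true, (W, j)) = 0 := by
    intro j; simp only [du, hd_v, tl_v]
    rw [hu1 (W, j + 1) le_rfl, hu1 (W, j) le_rfl, sub_self]
  have hJ0 : ∀ j, J (true, (0, j)) = 0 := by
    intro j; simp only [J]; rw [hdu0, h0, ite_self]
  have hJ1 : ∀ j, J (true, (W, j)) = 0 := by
    intro j; simp only [J]; rw [hdu1, h0, ite_self]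
  have hconv : ∀ g : Ed → ℝ, ∑ e ∈ RE W H, J e * g e =
      ∑ e ∈ (RE W H).filter (pres K), phi p (du u e) * g e := by
    intro g
    rw [Finset.sum_filter]
    refine Finset.sum_congr rfl fun e he => ?_
    simp only [J]
    by_cases hpr : pres K e
    · rw [if_pos ⟨he, hpr⟩, if_pos hpr]
    · rw [if_neg (fun h => hpr h.2), if_neg hpr, zero_mul]
  have hw : ∀ h : Pt → ℝ, (∀ j, h (0, j) = 0) → (∀ j, h (W, j) = 0) →
      ∑ e ∈ RE W H, J e * du h e = 0 := by
    intro h a b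
    rw [hconv]; exact hEL h a b
  obtain ⟨v, I, hb, ht, hl, hr, hdv, hflux⟩ := hB W H J hW hH hJ hJ0 hJ1 hw
  have hI : I = ∑ e ∈ (RE W H).filter (pres K), |du u e| ^ p := by
    rw [← hflux u (fun j => hu0 (0, j) le_rfl) (fun j => hu1 (W, j) le_rfl), hconv]
    refine Finset.sum_congr rfl fun e _ => ?_
    rw [mul_comm]; exact hmul _
  refine ⟨u, v, I, ⟨hu0, hu1, fun x => (hu01 x).1, fun x => (hu01 x).2, hb, ht, hl, hr, ?_, ?_, hI, ?_⟩⟩
  · intro e he
    have he' : e ∈ RE W H := by exact_mod_cast he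
    rw [hdv e he']
    constructor
    · intro hpr; simp only [J]; rw [if_pos ⟨he', hpr⟩]
    · intro hpr; simp only [J]; rw [if_neg (fun h => hpr h.2)]
  · rw [hI]
    exact Finset.sum_nonneg fun e _ => Real.rpow_nonneg (abs_nonneg _) _
  · intro f hf0 hf1
    rw [hI]; exact hmin f hf0 hf1

end CarpetPI.PB
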