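import Pool.Agent.Lib.MP_1d263a_an.PI.StmB

open Finset
open scoped Classical

noncomputable section

namespace CarpetPI.PB

/-- a monotone function `θ` of `v` which vanishes for `f.2 < 0` and for `H ≤ f.2` vanishes -/
theorem brd_aux (hB : S_BGB) (hA : S_BPA) {p : ℝ} (hp : 1 < p) {K : Set Pt} {W H : ℤ} (hW : 1 ≤ W)
    (hH : 0 ≤ H) {u v : Pt → ℝ} {I : ℝ} (hR : RPot p K W H u v I) (θ : ℝ → ℝ) (hθ : Monotone θ)
    (h0 : θ 0 = 0) (hI : θ I = 0) (f : Pt) : θ (v f) = 0 := by
  obtain ⟨-, -, -, -, -, -, -, -, -, -, hpos, hneg, hz⟩ := hA p hp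
  have hsum : ∑ e ∈ RE W H, du u e * dv (fun f => θ (v f)) e = 0 := by
    rw [hB W H u (fun f => θ (v f)) (by linarith) hH]
    have e1 : ∑ i ∈ Finset.Ico 0 W, (θ (v (i, H)) * du u (false, (i, H)) -
        θ (v (i, -1)) * du u (false, (i, 0))) = 0 := by
      refine Finset.sum_eq_zero fun i _ => ?_
      rw [hR.v_top (i, H) le_rfl, hR.v_bot (i, -1) (by norm_num), h0, hI]; ring
    have e2 : ∑ j ∈ Finset.Ico 0 H, (θ (v (-1, j)) * du u (true, (0, j)) -
        θ (v (W, j)) * du u (true, (W, j))) = 0 := by
      refine Finset.sum_eq_zero fun j _ => ?_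
      simp only [du, hd_v, tl_v]
      rw [hR.u_left (0, j + 1) le_rfl, hR.u_left (0, j) le_rfl, hR.u_right (W, j + 1) le_rfl,
        hR.u_right (W, j) le_rfl]
      ring
    rw [e1, e2, add_zero]
  have hpair : ∀ e ∈ RE W H, dv (fun f => θ (v f)) e ≠ 0 → 0 < du u e * dv (fun f => θ (v f)) e := by
    intro e he hne
    have hvne : dv v e ≠ 0 := by
      intro h
      apply hne
      have : v (lf e) = v (rf e) := by unfold dv at h; linarith
      simp only [dv]; rw [this]; ring
    have hpr : pres K e := by
      by_contra hc
      exact hvne ((hR.pair e (by exact_mod_cast he)).2 hc)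
    have hdv : dv v e = phi p (du u e) := (hR.pair e (by exact_mod_cast he)).1 hpr
    rcases lt_or_gt_of_ne hvne with h | h
    · have hu : du u e < 0 := (hneg _).1 (hdv ▸ h)
      have : dv (fun f => θ (v f)) e ≤ 0 := by
        have : v (lf e) ≤ v (rf e) := by unfold dv at h; linarith
        simp only [dv]; linarith [hθ this]
      exact mul_pos_of_neg_of_neg hu (lt_of_le_of_ne this hne)
    · have hu : 0 < du u e := (hpos _).1 (hdv ▸ h)
      have : 0 ≤ dv (fun f => θ (v f)) e := by
        have : v (rf e) ≤ v (lf e) := by unfold dv at h; linarith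
        simp only [dv]; linarith [hθ this]
      exact mul_pos hu (lt_of_le_of_ne this (Ne.symm hne))
  have hzero : ∀ e ∈ RE W H, dv (fun f => θ (v f)) e = 0 := by
    have hnn : ∀ e ∈ RE W H, 0 ≤ du u e * dv (fun f => θ (v f)) e := by
      intro e he
      by_cases hne : dv (fun f => θ (v f)) e = 0
      · rw [hne, mul_zero]
      · exact (hpair e he hne).le
    intro e he
    by_contra hne
    have := (Finset.sum_eq_zero_iff_of_nonneg hnn).1 hsum e he
    linarith [hpair e he hne]
  have main : ∀ i : ℤ, 0 ≤ i → i < W → ∀ n : ℕ, (n : ℤ) ≤ H → θ (v (i, H - n)) = 0 := by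
    intro i hi0 hiW n
    induction n with
    | zero => intro _; simp only [Nat.cast_zero, sub_zero]; rw [hR.v_top (i, H) le_rfl, hI]
    | succ n ih =>
      intro hn
      push_cast at hn ⊢
      have h1 := ih (by linarith)
      have h2 := hzero (false, (i, H - n)) (mem_RE_h.2 ⟨⟨hi0, hiW⟩, by simp only; linarith, by simp only; linarith⟩)
      simp only [dv, lf_h, rf_h] at h2
      rw [show H - (↑n + 1) = H - ↑n - 1 by ring]
      linarith
  have main2 : ∀ i : ℤ, 0 ≤ i → i < W → ∀ j : ℤ, θ (v (i, j)) = 0 := by
    intro i hi0 hiW j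
    rcases lt_or_ge j 0 with hj | hj
    · rw [hR.v_bot (i, j) hj, h0]
    · rcases lt_or_ge H j with hj2 | hj2
      · rw [hR.v_top (i, j) hj2.le, hI]
      · obtain ⟨n, hn⟩ := Int.eq_ofNat_of_zero_le (by linarith : 0 ≤ H - j)
        have := main i hi0 hiW n (by linarith)
        rw [← hn] at this
        rwa [show H - (H - j) = j by ring] at this
  obtain ⟨i, j⟩ := f
  rcases lt_or_ge i 0 with hi | hi
  · rw [hR.v_left (i, j) hi]; exact main2 0 le_rfl (by linarith) j
  · rcases lt_or_ge i W with hi2 | hi2
    · exact main2 i hi hi2 j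
    · rw [hR.v_right (i, j) hi2]; exact main2 (W - 1) (by linarith) (by linarith) j

theorem p_BRD (hB : S_BGB) (hA : S_BPA) : S_BRD := by
  intro p hp K W H hW hH u v I hR
  have haux := brd_aux hB hA hp hW hH hR
  refine ⟨fun f => ⟨?_, ?_⟩, ?_⟩
  · have := haux (fun t => min t 0) (fun a b h => min_le_min_right _ h) (by simp)
      (by simp [hR.I_nonneg]) f
    simp only [min_eq_right_iff] at this
    exact this
  · have := haux (fun t => max (t - I) 0) (fun a b h => max_le_max_right _ (by linarith))
      (by simp [hR.I_nonneg]) (by simp) f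
    simp only [max_eq_right_iff] at this
    linarith
  · obtain ⟨-, -, -, -, -, -, -, -, -, -, hpos, hneg, hz⟩ := hA p hp
    intro e he e' he' hpr hpr' hne a c
    rintro ⟨h1, h2, h3, h4, h5, h6, h7, h8⟩
    have ha0 : 0 < a := lt_of_le_of_lt (le_min (hR.u_nonneg _) (hR.u_nonneg _)) h1
    have ha1 : a < 1 := lt_of_lt_of_le h2 (max_le (hR.u_le _) (hR.u_le _))
    let s : Pt → ℝ := fun x => if u x < a then 1 else 0
    let t : Pt → ℝ := fun f => if v f < c then 1 else 0
    have hs_anti : ∀ x y : Pt, u x ≤ u y → s y ≤ s x := by
      intro x y hxy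
      simp only [s]
      split_ifs <;> linarith
    have ht_anti : ∀ x y : Pt, v x ≤ v y → t y ≤ t x := by
      intro x y hxy
      simp only [t]
      split_ifs <;> linarith
    have hnn : ∀ g ∈ RE W H, 0 ≤ du s g * dv t g := by
      intro g hg
      by_cases hpg : pres K g
      · have hdv : dv v g = phi p (du u g) := (hR.pair g (by exact_mod_cast hg)).1 hpg
        rcases lt_trichotomy (du u g) 0 with h | h | h
        · have hv : dv v g < 0 := by rw [hdv]; exact (hneg _).2 h
          unfold du at h
          unfold dv at hv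
          have a1 := hs_anti _ _ (by linarith : u (hd g) ≤ u (tl g))
          have a2 := ht_anti _ _ (by linarith : v (lf g) ≤ v (rf g))
          exact mul_nonneg (by unfold du; linarith) (by unfold dv; linarith)
        · have hv : dv v g = 0 := by rw [hdv]; exact (hz _).2 h
          have : v (lf g) = v (rf g) := by unfold dv at hv; linarith
          have : dv t g = 0 := by simp only [dv, t]; rw [this]; ring
          rw [this, mul_zero]
        · have hv : 0 < dv v g := by rw [hdv]; exact (hpos _).2 h
          unfold du at h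
          unfold dv at hv
          have a1 := hs_anti _ _ (by linarith : u (tl g) ≤ u (hd g))
          have a2 := ht_anti _ _ (by linarith : v (rf g) ≤ v (lf g))
          exact mul_nonneg_of_nonpos_of_nonpos (by unfold du; linarith) (by unfold dv; linarith)
      · have hv : dv v g = 0 := (hR.pair g (by exact_mod_cast hg)).2 hpg
        have : v (lf g) = v (rf g) := by unfold dv at hv; linarith
        have : dv t g = 0 := by simp only [dv, t]; rw [this]; ring
        rw [this, mul_zero]
    have hone : ∀ g ∈ RE W H, pres K g → min (u (hd g)) (u (tl g)) < a →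
        a < max (u (hd g)) (u (tl g)) → min (v (lf g)) (v (rf g)) < c →
        c < max (v (lf g)) (v (rf g)) → du s g * dv t g = 1 := by
      intro g hg hpg b1 b2 b3 b4
      have hdv : dv v g = phi p (du u g) := (hR.pair g (by exact_mod_cast hg)).1 hpg
      rcases lt_trichotomy (du u g) 0 with h | h | h
      · have hv : dv v g < 0 := by rw [hdv]; exact (hneg _).2 h
        unfold du at h
        unfold dv at hv
        rw [min_eq_left (by linarith)] at b1
        rw [max_eq_right (by linarith)] at b2
        rw [min_eq_left (by linarith)] at b3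
        rw [max_eq_right (by linarith)] at b4
        simp only [du, dv, s, t]
        rw [if_pos b1, if_neg (by linarith), if_pos b3, if_neg (by linarith)]
        norm_num
      · exfalso
        unfold du at h
        have : u (hd g) = u (tl g) := by linarith
        rw [this, min_self] at b1
        rw [this, max_self] at b2
        linarith
      · have hv : 0 < dv v g := by rw [hdv]; exact (hpos _).2 h
        unfold du at h
        unfold dv at hv
        rw [min_eq_right (by linarith)] at b1
        rw [max_eq_left (by linarith)] at b2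
        rw [min_eq_right (by linarith)] at b3
        rw [max_eq_left (by linarith)] at b4
        simp only [du, dv, s, t]
        rw [if_neg (by linarith), if_pos b1, if_neg (by linarith), if_pos b3]
        norm_num
    have hE : e ∈ RE W H := by exact_mod_cast he
    have hE' : e' ∈ RE W H := by exact_mod_cast he'
    have hge : 2 ≤ ∑ g ∈ RE W H, du s g * dv t g := by
      have h12 : ({e, e'} : Finset Ed) ⊆ RE W H := by
        intro g hg
        simp only [Finset.mem_insert, Finset.mem_singleton] at hg
        rcases hg with rfl | rfl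
        · exact hE
        · exact hE'
      calc (2:ℝ) = ∑ g ∈ ({e, e'} : Finset Ed), du s g * dv t g := by
            rw [Finset.sum_pair hne, hone e hE hpr h1 h2 h3 h4, hone e' hE' hpr' h5 h6 h7 h8]
            norm_num
        _ ≤ _ := Finset.sum_le_sum_of_subset_of_nonneg h12 (fun g hg _ => hnn g hg)
    have hle : ∑ g ∈ RE W H, du s g * dv t g ≤ 1 := by
      rw [hB W H s t (by linarith) hH]
      have e2 : ∑ j ∈ Finset.Ico 0 H, (t (-1, j) * du s (true, (0, j)) -
          t (W, j) * du s (true, (W, j))) = 0 := by
        refine Finset.sum_eq_zero fun j _ => ?_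
        simp only [du, hd_v, tl_v, s]
        rw [hR.u_left (0, j + 1) le_rfl, hR.u_left (0, j) le_rfl, hR.u_right (W, j + 1) le_rfl,
          hR.u_right (W, j) le_rfl]
        ring
      have tele : ∀ (n : ℕ) (j : ℤ), ∑ i ∈ Finset.Ico 0 (n : ℤ), du s (false, (i, j)) =
          s (n, j) - s (0, j) := by
        intro n j
        induction n with
        | zero => simp
        | succ n ih =>
          have h2 : Finset.Ico 0 ((n + 1 : ℕ) : ℤ) = insert (n : ℤ) (Finset.Ico 0 (n : ℤ)) := by
            ext x; simp only [Finset.mem_Ico, Finset.mem_insert]; push_cast; omega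
          rw [h2, Finset.sum_insert (by simp), ih]
          simp only [du, hd_h, tl_h]
          push_cast
          ring
      obtain ⟨n, hn⟩ := Int.eq_ofNat_of_zero_le (by linarith : 0 ≤ W)
      have tele' : ∀ j : ℤ, ∑ i ∈ Finset.Ico 0 W, du s (false, (i, j)) = -1 := by
        intro j
        rw [hn, tele n j, ← hn]
        simp only [s]
        rw [hR.u_left (0, j) le_rfl, hR.u_right (W, j) le_rfl, if_neg (by linarith), if_pos ha0]
        norm_num
      rw [e2, add_zero, Finset.sum_sub_distrib]
      have e3 : ∑ i ∈ Finset.Ico 0 W, t (i, H) * du s (false, (i, H)) =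
          (if I < c then 1 else 0) * (-1) := by
        rw [← tele' H, Finset.mul_sum]
        refine Finset.sum_congr rfl fun i _ => ?_
        simp only [t]
        rw [hR.v_top (i, H) le_rfl]
      have e4 : ∑ i ∈ Finset.Ico 0 W, t (i, -1) * du s (false, (i, 0)) =
          (if 0 < c then 1 else 0) * (-1) := by
        rw [← tele' 0, Finset.mul_sum]
        refine Finset.sum_congr rfl fun i _ => ?_
        simp only [t]
        rw [hR.v_bot (i, -1) (by norm_num)]
      rw [e3, e4]
      split_ifs <;> norm_num
    linarith

end CarpetPI.PB
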