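import Pool.Agent.Lib.MP_1d263a_an.PI.StmB

open Finset
open scoped Classical

noncomputable section

namespace CarpetPI.PB

theorem isSym_comp {ε ε' : ℝ} {σ τ σ' τ' : Pt ≃ Pt} {ρ ρ' : Ed ≃ Ed} (h : IsSym ε σ τ ρ)
    (h' : IsSym ε' σ' τ' ρ') : IsSym (ε * ε') (σ.trans σ') (τ.trans τ') (ρ.trans ρ') := by
  constructor
  · rcases h.eps with a | a <;> rcases h'.eps with b | b <;> rw [a, b] <;> norm_num
  · intro e
    simp only [Equiv.trans_apply]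
    rcases h.vert e with ⟨a1, a2, a3⟩ | ⟨a1, a2, a3⟩
    · rcases h'.vert (ρ e) with ⟨b1, b2, b3⟩ | ⟨b1, b2, b3⟩
      · refine Or.inl ⟨by rw [a1, b1], by rw [a2, b2], ?_⟩
        rcases a3 with ⟨c0, c1, c2⟩ | ⟨c0, c1, c2⟩ <;> rcases b3 with ⟨d0, d1, d2⟩ | ⟨d0, d1, d2⟩
        · exact Or.inl ⟨by rw [c0, d0]; norm_num, by rw [c1, d1], by rw [c2, d2]⟩
        · exact Or.inr ⟨by rw [c0, d0]; norm_num, by rw [c1, d1], by rw [c2, d2]⟩
        · exact Or.inr ⟨by rw [c0, d0]; norm_num, by rw [c1, d2], by rw [c2, d1]⟩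
        · exact Or.inl ⟨by rw [c0, d0]; norm_num, by rw [c1, d2], by rw [c2, d1]⟩
      · refine Or.inr ⟨by rw [a1, b1], by rw [a2, b2], ?_⟩
        rcases a3 with ⟨c0, c1, c2⟩ | ⟨c0, c1, c2⟩ <;> rcases b3 with ⟨d0, d1, d2⟩ | ⟨d0, d1, d2⟩
        · exact Or.inl ⟨by rw [c0, d0]; norm_num, by rw [c1, d1], by rw [c2, d2]⟩
        · exact Or.inr ⟨by rw [c0, d0]; norm_num, by rw [c1, d1], by rw [c2, d2]⟩
        · exact Or.inr ⟨by rw [c0, d0]; norm_num, by rw [c1, d2], by rw [c2, d1]⟩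
        · exact Or.inl ⟨by rw [c0, d0]; norm_num, by rw [c1, d2], by rw [c2, d1]⟩
    · rcases h'.vert (ρ e) with ⟨b1, b2, b3⟩ | ⟨b1, b2, b3⟩
      · refine Or.inr ⟨by rw [a1, b2], by rw [a2, b1], ?_⟩
        rcases a3 with ⟨c0, c1, c2⟩ | ⟨c0, c1, c2⟩ <;> rcases b3 with ⟨d0, d1, d2⟩ | ⟨d0, d1, d2⟩
        · exact Or.inl ⟨by rw [c0, d0]; norm_num, by rw [c1, d1], by rw [c2, d2]⟩
        · exact Or.inr ⟨by rw [c0, d0]; norm_num, by rw [c1, d1], by rw [c2, d2]⟩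
        · exact Or.inr ⟨by rw [c0, d0]; norm_num, by rw [c1, d2], by rw [c2, d1]⟩
        · exact Or.inl ⟨by rw [c0, d0]; norm_num, by rw [c1, d2], by rw [c2, d1]⟩
      · refine Or.inl ⟨by rw [a1, b2], by rw [a2, b1], ?_⟩
        rcases a3 with ⟨c0, c1, c2⟩ | ⟨c0, c1, c2⟩ <;> rcases b3 with ⟨d0, d1, d2⟩ | ⟨d0, d1, d2⟩
        · exact Or.inl ⟨by rw [c0, d0]; norm_num, by rw [c1, d1], by rw [c2, d2]⟩
        · exact Or.inr ⟨by rw [c0, d0]; norm_num, by rw [c1, d1], by rw [c2, d2]⟩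
        · exact Or.inr ⟨by rw [c0, d0]; norm_num, by rw [c1, d2], by rw [c2, d1]⟩
        · exact Or.inl ⟨by rw [c0, d0]; norm_num, by rw [c1, d2], by rw [c2, d1]⟩

theorem isSym_symm {ε : ℝ} {σ τ : Pt ≃ Pt} {ρ : Ed ≃ Ed} (h : IsSym ε σ τ ρ) :
    IsSym ε σ.symm τ.symm ρ.symm := by
  refine ⟨h.eps, fun e => ?_⟩
  have key := h.vert (ρ.symm e)
  rw [Equiv.apply_symm_apply] at key
  rcases key with ⟨a1, a2, a3⟩ | ⟨a1, a2, a3⟩
  · refine Or.inl ⟨?_, ?_, ?_⟩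
    · rw [← a1, Equiv.symm_apply_apply]
    · rw [← a2, Equiv.symm_apply_apply]
    · rcases a3 with ⟨c0, c1, c2⟩ | ⟨c0, c1, c2⟩
      · exact Or.inl ⟨c0, by rw [← c1, Equiv.symm_apply_apply], by rw [← c2, Equiv.symm_apply_apply]⟩
      · exact Or.inr ⟨c0, by rw [← c2, Equiv.symm_apply_apply], by rw [← c1, Equiv.symm_apply_apply]⟩
  · refine Or.inr ⟨?_, ?_, ?_⟩
    · rw [← a2, Equiv.symm_apply_apply]
    · rw [← a1, Equiv.symm_apply_apply]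
    · rcases a3 with ⟨c0, c1, c2⟩ | ⟨c0, c1, c2⟩
      · exact Or.inl ⟨c0, by rw [← c1, Equiv.symm_apply_apply], by rw [← c2, Equiv.symm_apply_apply]⟩
      · exact Or.inr ⟨c0, by rw [← c2, Equiv.symm_apply_apply], by rw [← c1, Equiv.symm_apply_apply]⟩

theorem isSym_tr (a : Pt) : IsSym 1 (trP a) (trP a) (trE a) := by
  refine ⟨Or.inl rfl, ?_⟩
  rintro ⟨b, i, j⟩
  left
  cases b
  · refine ⟨rfl, ?_, Or.inl ⟨rfl, rfl, ?_⟩⟩
    · simp only [hd_h, trP, trE, Equiv.coe_fn_mk]; ext <;> simp; ring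
    · simp only [rf_h, trP, trE, Equiv.coe_fn_mk]; ext <;> simp; ring
  · refine ⟨rfl, ?_, Or.inl ⟨rfl, ?_, rfl⟩⟩
    · simp only [hd_v, trP, trE, Equiv.coe_fn_mk]; ext <;> simp; ring
    · simp only [lf_v, trP, trE, Equiv.coe_fn_mk]; ext <;> simp; ring

theorem isSym_ro : IsSym 1 roV roF roE := by
  refine ⟨Or.inl rfl, ?_⟩
  rintro ⟨b, i, j⟩
  cases b
  · left
    refine ⟨?_, ?_, Or.inl ⟨rfl, ?_, ?_⟩⟩
    · simp [roV, roE]
    · simp [roV, roE]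
    · simp [roF, roE]
    · simp [roF, roE]
  · right
    refine ⟨?_, ?_, Or.inr ⟨rfl, ?_, ?_⟩⟩
    · simp [roV, roE]
    · simp [roV, roE]; ring
    · simp [roF, roE]
    · simp [roF, roE]

theorem isSym_mi : IsSym (-1) miV miF miE := by
  refine ⟨Or.inr rfl, ?_⟩
  rintro ⟨b, i, j⟩
  cases b
  · right
    refine ⟨?_, ?_, Or.inl ⟨rfl, ?_, ?_⟩⟩
    · simp [miV, miE]
    · simp [miV, miE]; ring
    · simp [miF, miE]
    · simp [miF, miE]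
  · left
    refine ⟨?_, ?_, Or.inr ⟨rfl, ?_, ?_⟩⟩
    · simp [miV, miE]
    · simp [miV, miE]
    · simp [miF, miE]
    · simp [miF, miE]

theorem p_BSA : S_BSA :=
  ⟨isSym_tr, isSym_ro, isSym_mi, fun _ _ _ _ _ _ _ _ h h' => isSym_comp h h',
    fun _ _ _ _ h => isSym_symm h⟩

end CarpetPI.PB
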