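import Pool.Agent.Lib.MP_1d263a_an.PI.StmB

open Finset
open scoped Classical

noncomputable section

namespace CarpetPI.PB

/-- the signs -/
theorem isSym_signs {ε : ℝ} {σ τ : Pt ≃ Pt} {ρ : Ed ≃ Ed} (h : IsSym ε σ τ ρ) (e : Ed) :
    ∃ s : ℝ, (s = 1 ∨ s = -1) ∧ (∀ u : Pt → ℝ, du (u ∘ σ) e = s * du u (ρ e)) ∧
      (∀ v : Pt → ℝ, dv (v ∘ τ) e = ε * s * dv v (ρ e)) := by
  rcases h.vert e with ⟨a1, a2, a3⟩ | ⟨a1, a2, a3⟩
  · refine ⟨1, Or.inl rfl, fun u => ?_, fun v => ?_⟩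
    · simp only [du, Function.comp_apply, a1, a2]; ring
    · rcases a3 with ⟨c0, c1, c2⟩ | ⟨c0, c1, c2⟩
      · simp only [dv, Function.comp_apply, c0, c1, c2]; ring
      · simp only [dv, Function.comp_apply, c0, c1, c2]; ring
  · refine ⟨-1, Or.inr rfl, fun u => ?_, fun v => ?_⟩
    · simp only [du, Function.comp_apply, a1, a2]; ring
    · rcases a3 with ⟨c0, c1, c2⟩ | ⟨c0, c1, c2⟩
      · simp only [dv, Function.comp_apply, c0, c1, c2]; ring
      · simp only [dv, Function.comp_apply, c0, c1, c2]; ring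

theorem isSym_pres {ε : ℝ} {σ τ : Pt ≃ Pt} {ρ : Ed ≃ Ed} (h : IsSym ε σ τ ρ) (K : Set Pt) (e : Ed) :
    pres (τ ⁻¹' K) e ↔ pres K (ρ e) := by
  unfold pres
  simp only [Set.mem_preimage]
  rcases h.vert e with ⟨-, -, a3⟩ | ⟨-, -, a3⟩ <;> rcases a3 with ⟨-, c1, c2⟩ | ⟨-, c1, c2⟩ <;>
    rw [c1, c2]
  · exact or_comm
  · exact or_comm

/-- the intervals of an edge under a symmetry -/
theorem isSym_iv {ε : ℝ} {σ τ : Pt ≃ Pt} {ρ : Ed ≃ Ed} (h : IsSym ε σ τ ρ) (u v : Pt → ℝ) (e : Ed) :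
    (min (u (σ (hd e))) (u (σ (tl e))) = min (u (hd (ρ e))) (u (tl (ρ e)))) ∧
    (max (u (σ (hd e))) (u (σ (tl e))) = max (u (hd (ρ e))) (u (tl (ρ e)))) ∧
    (min (v (τ (lf e))) (v (τ (rf e))) = min (v (lf (ρ e))) (v (rf (ρ e)))) ∧
    (max (v (τ (lf e))) (v (τ (rf e))) = max (v (lf (ρ e))) (v (rf (ρ e)))) := by
  have hv : (min (v (τ (lf e))) (v (τ (rf e))) = min (v (lf (ρ e))) (v (rf (ρ e)))) ∧
    (max (v (τ (lf e))) (v (τ (rf e))) = max (v (lf (ρ e))) (v (rf (ρ e)))) := by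
    rcases h.vert e with ⟨-, -, a3⟩ | ⟨-, -, a3⟩ <;> rcases a3 with ⟨-, c1, c2⟩ | ⟨-, c1, c2⟩ <;>
      rw [c1, c2]
    · exact ⟨rfl, rfl⟩
    · exact ⟨min_comm _ _, max_comm _ _⟩
    · exact ⟨rfl, rfl⟩
    · exact ⟨min_comm _ _, max_comm _ _⟩
  have hu : (min (u (σ (hd e))) (u (σ (tl e))) = min (u (hd (ρ e))) (u (tl (ρ e)))) ∧
    (max (u (σ (hd e))) (u (σ (tl e))) = max (u (hd (ρ e))) (u (tl (ρ e)))) := by
    rcases h.vert e with ⟨a1, a2, -⟩ | ⟨a1, a2, -⟩ <;> rw [a1, a2]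
    · exact ⟨rfl, rfl⟩
    · exact ⟨min_comm _ _, max_comm _ _⟩
  exact ⟨hu.1, hu.2, hv.1, hv.2⟩

theorem neg_iv {x y a : ℝ} (h1 : min (-x) (-y) < a) (h2 : a < max (-x) (-y)) :
    min x y < -a ∧ -a < max x y := by
  rw [min_neg_neg] at h1
  rw [max_neg_neg] at h2
  constructor <;> linarith

theorem mul_iv {x y a l : ℝ} (hl : 0 < l) (h1 : min (l * x) (l * y) < a) (h2 : a < max (l * x) (l * y)) :
    min x y < a / l ∧ a / l < max x y := by
  rw [← mul_min_of_nonneg _ _ hl.le] at h1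
  rw [← mul_max_of_nonneg _ _ hl.le] at h2
  constructor
  · rw [lt_div_iff₀ hl]; linarith
  · rw [div_lt_iff₀ hl]; linarith

theorem add_iv {x y a b : ℝ} (h1 : min (x + b) (y + b) < a) (h2 : a < max (x + b) (y + b)) :
    min x y < a - b ∧ a - b < max x y := by
  rw [min_add_add_right] at h1
  rw [max_add_add_right] at h2
  constructor <;> linarith

theorem p_BSB (hA : S_BPA) : S_BSB := by
  intro p hp
  obtain ⟨h0, hneg, -, -, hhom, -⟩ := hA p hp
  refine ⟨?_, ?_⟩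
  · intro ε σ τ ρ h K R u v
    refine ⟨isSym_pres h K, ?_, ?_, ?_, ?_⟩
    · intro e
      obtain ⟨s, hs, h1, h2⟩ := isSym_signs h e
      rw [h1, abs_mul]
      rcases hs with rfl | rfl <;> simp
    · intro e
      obtain ⟨s, hs, h1, h2⟩ := isSym_signs h e
      rw [h2, abs_mul]
      rcases hs with rfl | rfl <;> rcases h.eps with rfl | rfl <;> simp
    · intro hP e he
      obtain ⟨s, hs, h1, h2⟩ := isSym_signs h e
      have hdu : du (fun x => ε * u (σ x)) e = ε * s * du u (ρ e) := by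
        have := h1 u
        simp only [du, Function.comp_apply] at this ⊢
        rw [← mul_sub, this]; ring
      have hes : ε * s = 1 ∨ ε * s = -1 := by
        rcases hs with rfl | rfl <;> rcases h.eps with rfl | rfl <;> norm_num
      obtain ⟨p1, p2⟩ := hP (ρ e) he
      rw [isSym_pres h K e, h2, hdu]
      constructor
      · intro hpr
        rw [p1 hpr]
        rcases hes with h' | h' <;> rw [h']
        · rw [one_mul, one_mul]
        · rw [neg_one_mul, neg_one_mul, hneg]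
      · intro hpr
        rw [p2 hpr, mul_zero]
    · intro hT e he e' he' hpr hpr' hne a c
      rintro ⟨a1, a2, a3, a4, a5, a6, a7, a8⟩
      obtain ⟨b1, b2, b3, b4⟩ := isSym_iv h u v e
      obtain ⟨c1, c2, c3, c4⟩ := isSym_iv h u v e'
      simp only [Function.comp_apply] at a3 a4 a7 a8
      rw [b3] at a3
      rw [b4] at a4
      rw [c3] at a7
      rw [c4] at a8
      have hne' : ρ e ≠ ρ e' := fun hh => hne (ρ.injective hh)
      rcases h.eps with hε | hε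
      · simp only [hε, one_mul] at a1 a2 a5 a6
        rw [b1] at a1
        rw [b2] at a2
        rw [c1] at a5
        rw [c2] at a6
        exact hT (ρ e) he (ρ e') he' ((isSym_pres h K e).1 hpr) ((isSym_pres h K e').1 hpr') hne'
          a c ⟨a1, a2, a3, a4, a5, a6, a7, a8⟩
      · simp only [hε, neg_one_mul] at a1 a2 a5 a6
        obtain ⟨d1, d2⟩ := neg_iv a1 a2
        obtain ⟨d5, d6⟩ := neg_iv a5 a6
        rw [b1] at d1
        rw [b2] at d2
        rw [c1] at d5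
        rw [c2] at d6
        exact hT (ρ e) he (ρ e') he' ((isSym_pres h K e).1 hpr) ((isSym_pres h K e').1 hpr') hne'
          (-a) c ⟨d1, d2, a3, a4, d5, d6, a7, a8⟩
  · intro K R u v
    refine ⟨?_, ?_, ?_, ?_, ?_, ?_⟩
    · intro hP e he
      obtain ⟨p1, p2⟩ := hP e he
      have e1 : dv (fun f => -v f) e = -dv v e := by simp only [dv]; ring
      have e2 : du (fun f => -u f) e = -du u e := by simp only [du]; ring
      rw [e1, e2]
      exact ⟨fun hpr => by rw [p1 hpr, hneg], fun hpr => by rw [p2 hpr, neg_zero]⟩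
    · intro hT e he e' he' hpr hpr' hne a c
      rintro ⟨a1, a2, a3, a4, a5, a6, a7, a8⟩
      obtain ⟨d1, d2⟩ := neg_iv a1 a2
      obtain ⟨d3, d4⟩ := neg_iv a3 a4
      obtain ⟨d5, d6⟩ := neg_iv a5 a6
      obtain ⟨d7, d8⟩ := neg_iv a7 a8
      exact hT e he e' he' hpr hpr' hne (-a) (-c) ⟨d1, d2, d3, d4, d5, d6, d7, d8⟩
    · intro l hl hP e he
      obtain ⟨p1, p2⟩ := hP e he
      have e1 : dv (fun f => l ^ (p - 1) * v f) e = l ^ (p - 1) * dv v e := by simp only [dv]; ring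
      have e2 : du (fun f => l * u f) e = l * du u e := by simp only [du]; ring
      rw [e1, e2]
      exact ⟨fun hpr => by rw [p1 hpr, hhom l _ hl], fun hpr => by rw [p2 hpr, mul_zero]⟩
    · intro l l' hl hl' hT e he e' he' hpr hpr' hne a c
      rintro ⟨a1, a2, a3, a4, a5, a6, a7, a8⟩
      obtain ⟨d1, d2⟩ := mul_iv hl a1 a2
      obtain ⟨d3, d4⟩ := mul_iv hl' a3 a4
      obtain ⟨d5, d6⟩ := mul_iv hl a5 a6
      obtain ⟨d7, d8⟩ := mul_iv hl' a7 a8
      exact hT e he e' he' hpr hpr' hne (a / l) (c / l') ⟨d1, d2, d3, d4, d5, d6, d7, d8⟩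
    · intro a b hP e he
      obtain ⟨p1, p2⟩ := hP e he
      have e1 : dv (fun f => v f + b) e = dv v e := by simp only [dv]; ring
      have e2 : du (fun f => u f + a) e = du u e := by simp only [du]; ring
      rw [e1, e2]
      exact ⟨p1, p2⟩
    · intro x y hT e he e' he' hpr hpr' hne a c
      rintro ⟨a1, a2, a3, a4, a5, a6, a7, a8⟩
      obtain ⟨d1, d2⟩ := add_iv a1 a2
      obtain ⟨d3, d4⟩ := add_iv a3 a4
      obtain ⟨d5, d6⟩ := add_iv a5 a6
      obtain ⟨d7, d8⟩ := add_iv a7 a8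
      exact hT e he e' he' hpr hpr' hne (a - x) (c - y) ⟨d1, d2, d3, d4, d5, d6, d7, d8⟩

end CarpetPI.PB
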