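import Pool.Agent.Lib.MP_1d263a_an.PI.StmB

open Finset
open scoped Classical

noncomputable section

namespace CarpetPI.PB

theorem mem_sides_iff (e : Ed) (f : Pt) : e ∈ sides f ↔ lf e = f ∨ rf e = f := by
  obtain ⟨b, i, j⟩ := e
  obtain ⟨a, c⟩ := f
  cases b
  · simp only [sides, Finset.mem_insert, Finset.mem_singleton, Prod.mk.injEq, true_and,
      reduceCtorEq, false_and, or_false, lf_h, rf_h]
    constructor
    · rintro (⟨h1, h2⟩ | ⟨h1, h2⟩)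
      · exact Or.inl ⟨h1, h2⟩
      · exact Or.inr ⟨h1, by omega⟩
    · rintro (⟨h1, h2⟩ | ⟨h1, h2⟩)
      · exact Or.inl ⟨h1, h2⟩
      · exact Or.inr ⟨h1, by omega⟩
  · simp only [sides, Finset.mem_insert, Finset.mem_singleton, Prod.mk.injEq, true_and,
      reduceCtorEq, false_and, false_or, lf_v, rf_v]
    constructor
    · rintro (⟨h1, h2⟩ | ⟨h1, h2⟩)
      · exact Or.inr ⟨h1, h2⟩
      · exact Or.inl ⟨by omega, h2⟩
    · rintro (⟨h1, h2⟩ | ⟨h1, h2⟩)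
      · exact Or.inr ⟨by omega, h2⟩
      · exact Or.inl ⟨h1, h2⟩

theorem isCor_iff (x f : Pt) : IsCor x f ↔ ∃ e ∈ sides f, tl e = x ∨ hd e = x := by
  constructor
  · rintro ⟨h1, h2⟩
    rcases h1 with h1 | h1 <;> rcases h2 with h2 | h2
    · exact ⟨(false, f), by simp [sides], Or.inl (Prod.ext h1.symm h2.symm)⟩
    · exact ⟨(false, (f.1, f.2 + 1)), by simp [sides], Or.inl (Prod.ext h1.symm h2.symm)⟩
    · exact ⟨(false, f), by simp [sides], Or.inr (Prod.ext h1.symm h2.symm)⟩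
    · exact ⟨(false, (f.1, f.2 + 1)), by simp [sides], Or.inr (Prod.ext h1.symm h2.symm)⟩
  · rintro ⟨e, he, hx⟩
    simp only [sides, Finset.mem_insert, Finset.mem_singleton] at he
    unfold IsCor
    rcases he with rfl | rfl | rfl | rfl <;> rcases hx with rfl | rfl <;> simp

theorem isSym_symm' {ε : ℝ} {σ τ : Pt ≃ Pt} {ρ : Ed ≃ Ed} (h : IsSym ε σ τ ρ) :
    IsSym ε σ.symm τ.symm ρ.symm := by
  refine ⟨h.eps, fun e => ?_⟩
  have key := h.vert (ρ.symm e)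
  rw [Equiv.apply_symm_apply] at key
  rcases key with ⟨a1, a2, a3⟩ | ⟨a1, a2, a3⟩
  · refine Or.inl ⟨?_, ?_, ?_⟩
    · rw [← a1, Equiv.symm_apply_apply]
    · rw [← a2, Equiv.symm_apply_apply]
    · rcases a3 with ⟨c0, c1, c2⟩ | ⟨c0, c1, c2⟩
      · exact Or.inl ⟨c0, by rw [← c1, Equiv.symm_apply_apply], by rw [← c2, Equiv.symm_apply_apply]⟩
      · exact Or.inr ⟨c0, by rw [← c2, Equiv.symm_apply_apply], by rw [← c1, Equiv.symm_apply_apply]⟩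
  · refine Or.inr ⟨?_, ?_, ?_⟩
    · rw [← a2, Equiv.symm_apply_apply]
    · rw [← a1, Equiv.symm_apply_apply]
    · rcases a3 with ⟨c0, c1, c2⟩ | ⟨c0, c1, c2⟩
      · exact Or.inl ⟨c0, by rw [← c1, Equiv.symm_apply_apply], by rw [← c2, Equiv.symm_apply_apply]⟩
      · exact Or.inr ⟨c0, by rw [← c2, Equiv.symm_apply_apply], by rw [← c1, Equiv.symm_apply_apply]⟩

theorem isSym_sides {ε : ℝ} {σ τ : Pt ≃ Pt} {ρ : Ed ≃ Ed} (h : IsSym ε σ τ ρ) (e : Ed) (f : Pt) :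
    e ∈ sides f ↔ ρ e ∈ sides (τ f) := by
  rw [mem_sides_iff, mem_sides_iff]
  have h1 : lf e = f ↔ τ (lf e) = τ f := by rw [τ.injective.eq_iff]
  have h2 : rf e = f ↔ τ (rf e) = τ f := by rw [τ.injective.eq_iff]
  rw [h1, h2]
  rcases h.vert e with ⟨-, -, a3⟩ | ⟨-, -, a3⟩ <;> rcases a3 with ⟨-, c1, c2⟩ | ⟨-, c1, c2⟩ <;>
    rw [c1, c2]
  · exact or_comm
  · exact or_comm

theorem isSym_absdu {ε : ℝ} {σ τ : Pt ≃ Pt} {ρ : Ed ≃ Ed} (h : IsSym ε σ τ ρ) (u : Pt → ℝ) (e : Ed) :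
    |du (u ∘ σ) e| = |du u (ρ e)| := by
  rcases h.vert e with ⟨a1, a2, -⟩ | ⟨a1, a2, -⟩
  · simp only [du, Function.comp_apply, a1, a2]
  · simp only [du, Function.comp_apply, a1, a2]
    exact abs_sub_comm _ _

theorem isSym_cor {ε : ℝ} {σ τ : Pt ≃ Pt} {ρ : Ed ≃ Ed} (h : IsSym ε σ τ ρ) {x f : Pt}
    (hx : IsCor x f) : IsCor (σ x) (τ f) := by
  rw [isCor_iff] at hx ⊢
  obtain ⟨e, he, hx⟩ := hx
  refine ⟨ρ e, (isSym_sides h e f).1 he, ?_⟩
  rcases h.vert e with ⟨a1, a2, -⟩ | ⟨a1, a2, -⟩ <;> rcases hx with rfl | rfl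
  · exact Or.inl a1.symm
  · exact Or.inr a2.symm
  · exact Or.inr a1.symm
  · exact Or.inl a2.symm

theorem isSym_pres' {ε : ℝ} {σ τ : Pt ≃ Pt} {ρ : Ed ≃ Ed} (h : IsSym ε σ τ ρ) (K : Set Pt) (e : Ed) :
    pres (τ ⁻¹' K) e ↔ pres K (ρ e) := by
  unfold pres
  simp only [Set.mem_preimage]
  rcases h.vert e with ⟨-, -, a3⟩ | ⟨-, -, a3⟩ <;> rcases a3 with ⟨-, c1, c2⟩ | ⟨-, c1, c2⟩ <;>
    rw [c1, c2]
  · exact or_comm
  · exact or_comm

theorem isSym_adj {ε : ℝ} {σ τ : Pt ≃ Pt} {ρ : Ed ≃ Ed} (h : IsSym ε σ τ ρ) {K : Set Pt} {x y : Pt}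
    (hx : adj (τ ⁻¹' K) x y) : adj K (σ x) (σ y) := by
  obtain ⟨e, he, hx⟩ := hx
  refine ⟨ρ e, (isSym_pres' h K e).1 he, ?_⟩
  rcases h.vert e with ⟨a1, a2, -⟩ | ⟨a1, a2, -⟩ <;> rcases hx with ⟨rfl, rfl⟩ | ⟨rfl, rfl⟩
  · exact Or.inl ⟨a1.symm, a2.symm⟩
  · exact Or.inr ⟨a1.symm, a2.symm⟩
  · exact Or.inr ⟨a2.symm, a1.symm⟩
  · exact Or.inl ⟨a2.symm, a1.symm⟩

theorem isSym_adj_iff {ε : ℝ} {σ τ : Pt ≃ Pt} {ρ : Ed ≃ Ed} (h : IsSym ε σ τ ρ) (K : Set Pt) (x y : Pt) :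
    adj (τ ⁻¹' K) x y ↔ adj K (σ x) (σ y) := by
  refine ⟨isSym_adj h, fun hx => ?_⟩
  have h' := isSym_symm' h
  have : K = τ.symm ⁻¹' (τ ⁻¹' K) := by
    ext f; simp
  rw [this] at hx
  have := isSym_adj h' hx
  simpa using this

theorem p_BSC : S_BSC := by
  intro p ε σ τ ρ h
  have hfe : ∀ (u : Pt → ℝ) (f : Pt), fe p (u ∘ σ) f = fe p u (τ f) := by
    intro u f
    have hmap : (sides f).map ρ.toEmbedding = sides (τ f) := by
      ext g
      rw [Finset.mem_map_equiv, isSym_sides h, Equiv.apply_symm_apply]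
    unfold fe
    rw [← hmap, Finset.sum_map]
    refine Finset.sum_congr rfl fun e _ => ?_
    rw [isSym_absdu h]; rfl
  refine ⟨?_, hfe, ?_, ?_, isSym_adj_iff h, ?_⟩
  · intro f
    ext g
    rw [Finset.mem_map_equiv, isSym_sides h, Equiv.apply_symm_apply]
  · intro K u G
    unfold En
    rw [Finset.filter_map, Finset.sum_map]
    refine Finset.sum_congr ?_ fun f _ => hfe u f
    ext f
    simp
  · intro x f
    refine ⟨isSym_cor h, fun hx => ?_⟩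
    have := isSym_cor (isSym_symm' h) hx
    simpa using this
  · intro K A hA
    refine ⟨?_, ?_⟩
    · intro x hx
      obtain ⟨f, hf, hc⟩ := hA.1 hx
      refine ⟨τ.symm f, by simpa using hf, ?_⟩
      have := isSym_cor (isSym_symm' h) hc
      simpa using this
    · intro x hx y hy
      have h1 := hA.2 (σ x) hx (σ y) hy
      have h2 := Relation.ReflTransGen.lift (p := fun a b => adj (τ ⁻¹' K) a b ∧ a ∈ σ ⁻¹' A ∧ b ∈ σ ⁻¹' A)
        σ.symm ?_ _ _ h1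
      · simpa [Function.onFun] using h2
      · rintro a b ⟨hab, ha, hb⟩
        refine ⟨?_, by simpa using ha, by simpa using hb⟩
        rw [isSym_adj_iff h]
        simpa using hab

end CarpetPI.PB
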