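import Pool.Agent.Lib.MP_1d263a_an.PI.StmB

open Finset
open scoped Classical

noncomputable section

namespace CarpetPI.PB

theorem bta_emod {M : ℤ} (k r : ℤ) (h0 : 0 ≤ r) (h1 : r < M) : (M * k + r) % M = r := by
  rw [add_comm, Int.add_mul_emod_self_left, Int.emod_eq_of_lt h0 h1]

theorem bta_div_neg {b : ℤ} (hb : 0 < b) (c a : ℤ) : (b * c - 1 - a) / b = c - 1 - a / b := by
  have h1 : b * (a / b) + a % b = a := Int.mul_ediv_add_emod a b
  have h2 := Int.emod_nonneg a hb.ne'
  have h3 := Int.emod_lt_of_pos a hb
  have : b * c - 1 - a = (b - 1 - a % b) + b * (c - 1 - a / b) := by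
    have h4 : b * (c - 1 - a / b) = b * c - b - b * (a / b) := by ring
    rw [h4]; linarith
  rw [this, Int.add_mul_ediv_left _ _ hb.ne', Int.ediv_eq_zero_of_lt (by linarith) (by linarith)]
  ring

theorem bta_digit (t k : ℕ) (hk : k < t) (m r : ℤ) :
    (3 ^ t * m + r) / 3 ^ k % 3 = r / 3 ^ k % 3 := by
  obtain ⟨d, rfl⟩ : ∃ d, t = k + (d + 1) := ⟨t - k - 1, by omega⟩
  have hpos : (0:ℤ) < 3 ^ k := by positivity
  have : (3 : ℤ) ^ (k + (d + 1)) * m + r = r + 3 ^ k * (3 * (3 ^ d * m)) := by ring
  rw [this, Int.add_mul_ediv_left _ _ hpos.ne', Int.add_mul_emod_self_left]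

theorem bta_digit_neg (t k : ℕ) (hk : k < t) (r : ℤ) :
    ((3 ^ t - 1 - r) / 3 ^ k % 3 = 1 ↔ r / 3 ^ k % 3 = 1) := by
  obtain ⟨d, rfl⟩ : ∃ d, t = k + (d + 1) := ⟨t - k - 1, by omega⟩
  have hpos : (0:ℤ) < 3 ^ k := by positivity
  have : (3 : ℤ) ^ (k + (d + 1)) - 1 - r = 3 ^ k * (3 * 3 ^ d) - 1 - r := by ring
  rw [this, bta_div_neg hpos]
  generalize (3:ℤ) ^ d = A
  generalize r / (3:ℤ) ^ k = B
  omega

theorem p_BTA : S_BTA := by
  intro L hL
  have hL2 : 0 < 2 * L := by linarith
  let F : ℤ → ℤ := fun y => if y % (2 * L) ≤ L then y % (2 * L) else 2 * L - y % (2 * L)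
  let G : ℤ → ℤ := fun y => if y % (2 * L) < L then y % (2 * L) else 2 * L - 1 - y % (2 * L)
  have hr0 : ∀ y, 0 ≤ y % (2 * L) := fun y => Int.emod_nonneg y hL2.ne'
  have hr1 : ∀ y, y % (2 * L) < 2 * L := fun y => Int.emod_lt_of_pos y hL2
  refine ⟨F, G, ?_, ?_, ?_, ?_, ?_, ?_⟩
  · intro y
    have h0 := hr0 y
    have h1 := hr1 y
    simp only [F]
    split_ifs <;> constructor <;> linarith
  · intro y
    have h0 := hr0 y
    have h1 := hr1 y
    simp only [G]
    split_ifs <;> constructor <;> linarith
  · intro y
    have h0 := hr0 y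
    have h1 := hr1 y
    have hy : 2 * L * (y / (2 * L)) + y % (2 * L) = y := Int.mul_ediv_add_emod y (2 * L)
    rcases eq_or_ne (y % (2 * L)) (2 * L - 1) with h | h
    · have hy1 : y + 1 = 2 * L * (y / (2 * L) + 1) + 0 := by
        have : 2 * L * (y / (2 * L) + 1) = 2 * L * (y / (2 * L)) + 2 * L := by ring
        rw [this]; linarith
      have h2 : (y + 1) % (2 * L) = 0 := by
        rw [hy1]; exact bta_emod _ 0 le_rfl hL2
      right
      simp only [F, G]
      rw [h2, h]
      rw [if_neg (by linarith : ¬ 2 * L - 1 < L), if_pos (by linarith : (0:ℤ) ≤ L)]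
      constructor
      · by_cases hc : 2 * L - 1 ≤ L
        · rw [if_pos hc]; linarith
        · rw [if_neg hc]; ring
      · ring
    · have hlt : y % (2 * L) + 1 < 2 * L := by omega
      have hy1 : y + 1 = 2 * L * (y / (2 * L)) + (y % (2 * L) + 1) := by linarith
      have h2 : (y + 1) % (2 * L) = y % (2 * L) + 1 := by
        conv_lhs => rw [hy1]
        exact bta_emod _ _ (by linarith) hlt
      simp only [F, G]
      rw [h2]
      by_cases hc : y % (2 * L) < L
      · left
        rw [if_pos hc.le, if_pos hc, if_pos (by omega)]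
        exact ⟨rfl, rfl⟩
      · right
        rw [if_neg hc, if_neg (by omega : ¬ y % (2 * L) + 1 ≤ L)]
        constructor
        · by_cases hc2 : y % (2 * L) ≤ L
          · rw [if_pos hc2]; linarith
          · rw [if_neg hc2]; ring
        · ring
  · intro y h0 h1
    simp only [G]
    rw [Int.emod_eq_of_lt h0 (by linarith), if_pos h1]
  · intro t ht y k hk
    have hy : 2 * L * (y / (2 * L)) + y % (2 * L) = y := Int.mul_ediv_add_emod y (2 * L)
    simp only [G]
    by_cases hc : y % (2 * L) < L
    · rw [if_pos hc]
      have h1 := bta_digit t k hk (2 * (y / (2 * L))) (y % (2 * L))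
      rw [← ht, show L * (2 * (y / (2 * L))) = 2 * L * (y / (2 * L)) by ring, hy] at h1
      rw [h1]
    · rw [if_neg hc]
      have h1 := bta_digit t k hk (2 * (y / (2 * L)) + 1) (y % (2 * L) - L)
      rw [← ht, show L * (2 * (y / (2 * L)) + 1) + (y % (2 * L) - L) =
        2 * L * (y / (2 * L)) + y % (2 * L) by ring, hy] at h1
      have h2 := bta_digit_neg t k hk (y % (2 * L) - L)
      rw [← ht, show L - 1 - (y % (2 * L) - L) = 2 * L - 1 - y % (2 * L) by ring] at h2
      rw [h1, h2]
  · intro n g
    induction n with
    | zero => simp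
    | succ n ih =>
      have hu : Finset.Ico 0 (((n + 1 : ℕ) : ℤ) * L) =
          Finset.Ico 0 ((n : ℤ) * L) ∪ Finset.Ico ((n : ℤ) * L) (((n + 1 : ℕ) : ℤ) * L) := by
        rw [Finset.Ico_union_Ico_eq_Ico]
        · positivity
        · push_cast; nlinarith
      have hd : Disjoint (Finset.Ico 0 ((n : ℤ) * L)) (Finset.Ico ((n : ℤ) * L) (((n + 1 : ℕ) : ℤ) * L)) := by
        rw [Finset.disjoint_left]
        intro x h1 h2
        have := (Finset.mem_Ico.1 h1).2
        have := (Finset.mem_Ico.1 h2).1
        omega
      rw [hu, Finset.sum_union hd, ih]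
      have key : ∑ y ∈ Finset.Ico ((n : ℤ) * L) (((n + 1 : ℕ) : ℤ) * L), g (G y) =
          ∑ y ∈ Finset.Ico 0 L, g y := by
        rcases Nat.even_or_odd' n with ⟨m, hm | hm⟩
        · refine Finset.sum_nbij' (fun y => y - n * L) (fun x => x + n * L) ?_ ?_ ?_ ?_ ?_
          · intro y hy
            have := Finset.mem_Ico.1 hy
            rw [Finset.mem_Ico]
            push_cast at this
            constructor <;> nlinarith
          · intro y hy
            have := Finset.mem_Ico.1 hy
            rw [Finset.mem_Ico]
            push_cast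
            constructor <;> nlinarith
          · intro y _; ring
          · intro y _; ring
          · intro y hy
            have h := Finset.mem_Ico.1 hy
            push_cast at h
            have hy1 : y = 2 * L * m + (y - n * L) := by
              rw [hm]; push_cast; ring
            have h2 : y % (2 * L) = y - n * L := by
              conv_lhs => rw [hy1]
              exact bta_emod _ _ (by linarith) (by nlinarith)
            simp only [G]
            rw [h2, if_pos (by nlinarith)]
        · refine Finset.sum_nbij' (fun y => (n + 1) * L - 1 - y) (fun x => (n + 1) * L - 1 - x) ?_ ?_ ?_ ?_ ?_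
          · intro y hy
            have := Finset.mem_Ico.1 hy
            rw [Finset.mem_Ico]
            push_cast at this
            constructor <;> nlinarith
          · intro y hy
            have := Finset.mem_Ico.1 hy
            rw [Finset.mem_Ico]
            push_cast
            constructor <;> nlinarith
          · intro y _; ring
          · intro y _; ring
          · intro y hy
            have h := Finset.mem_Ico.1 hy
            push_cast at h
            have hy1 : y = 2 * L * m + (L + (y - n * L)) := by
              rw [hm]; push_cast; ring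
            have h2 : y % (2 * L) = L + (y - n * L) := by
              conv_lhs => rw [hy1]
              exact bta_emod _ _ (by linarith) (by nlinarith)
            simp only [G]
            rw [h2, if_neg (by linarith)]
            congr 1
            ring
      rw [key]
      push_cast
      ring

end CarpetPI.PB
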