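import Pool.Agent.Lib.MP_1d263a_an.PI.StmB

open Finset
open scoped Classical

noncomputable section

namespace CarpetPI.PB

theorem fe_expand (p : ℝ) (u : Pt → ℝ) (x y : ℤ) : fe p u (x, y) =
    |u (x + 1, y) - u (x, y)| ^ p + |u (x + 1, y + 1) - u (x, y + 1)| ^ p +
      |u (x, y + 1) - u (x, y)| ^ p + |u (x + 1, y + 1) - u (x + 1, y)| ^ p := by
  unfold fe sides
  rw [Finset.sum_insert (by simp), Finset.sum_insert (by simp), Finset.sum_insert (by simp),
    Finset.sum_singleton]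
  simp only [du, hd_h, hd_v, tl_h, tl_v]
  ring

theorem mem_sides_iff' (e : Ed) (f : Pt) : e ∈ sides f ↔ lf e = f ∨ rf e = f := by
  obtain ⟨b, i, j⟩ := e
  obtain ⟨a, c⟩ := f
  cases b
  · simp only [sides, Finset.mem_insert, Finset.mem_singleton, Prod.mk.injEq, true_and,
      reduceCtorEq, false_and, or_false, lf_h, rf_h]
    constructor
    · rintro (⟨h1, h2⟩ | ⟨h1, h2⟩)
      · exact Or.inl ⟨h1, h2⟩
      · exact Or.inr ⟨h1, by omega⟩
    · rintro (⟨h1, h2⟩ | ⟨h1, h2⟩)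
      · exact Or.inl ⟨h1, h2⟩
      · exact Or.inr ⟨h1, by omega⟩
  · simp only [sides, Finset.mem_insert, Finset.mem_singleton, Prod.mk.injEq, true_and,
      reduceCtorEq, false_and, false_or, lf_v, rf_v]
    constructor
    · rintro (⟨h1, h2⟩ | ⟨h1, h2⟩)
      · exact Or.inr ⟨h1, h2⟩
      · exact Or.inl ⟨by omega, h2⟩
    · rintro (⟨h1, h2⟩ | ⟨h1, h2⟩)
      · exact Or.inr ⟨by omega, h2⟩
      · exact Or.inl ⟨h1, h2⟩

theorem sum_sides_le_two (a : Ed → ℝ) (ha : ∀ e, 0 ≤ a e) (B : Finset Pt) (T : Finset Ed)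
    (h : ∀ g ∈ B, sides g ⊆ T) : ∑ g ∈ B, ∑ e ∈ sides g, a e ≤ 2 * ∑ e ∈ T, a e := by
  have e1 : ∑ g ∈ B, ∑ e ∈ sides g, a e = ∑ g ∈ B, ∑ e ∈ T, if e ∈ sides g then a e else 0 := by
    refine Finset.sum_congr rfl fun g hg => ?_
    rw [← Finset.sum_filter]
    congr 1
    ext e
    simp only [Finset.mem_filter]
    exact ⟨fun he => ⟨h g hg he, he⟩, fun he => he.2⟩
  rw [e1, Finset.sum_comm, Finset.mul_sum]
  refine Finset.sum_le_sum fun e _ => ?_
  rw [← Finset.sum_filter, Finset.sum_const, nsmul_eq_mul]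
  refine mul_le_mul_of_nonneg_right ?_ (ha e)
  have h1 : B.filter (fun g => e ∈ sides g) ⊆ {lf e, rf e} := by
    intro g hg
    have := (Finset.mem_filter.1 hg).2
    rw [mem_sides_iff'] at this
    simp only [Finset.mem_insert, Finset.mem_singleton]
    rcases this with h | h
    · exact Or.inl h.symm
    · exact Or.inr h.symm
  have h2 := (Finset.card_le_card h1).trans Finset.card_le_two
  exact_mod_cast h2

theorem sides_subset_RE {W H : ℤ} {K : Set Pt} {g : Pt} (h0 : 0 ≤ g.1) (h1 : g.1 < W) (h2 : 0 ≤ g.2)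
    (h3 : g.2 < H) (hg : g ∈ K) : sides g ⊆ (RE W H).filter (pres K) := by
  intro e he
  rw [Finset.mem_filter]
  refine ⟨?_, ?_⟩
  · simp only [sides, Finset.mem_insert, Finset.mem_singleton] at he
    rcases he with rfl | rfl | rfl | rfl
    · rw [mem_RE_h]; omega
    · rw [mem_RE_h]; simp only; omega
    · rw [mem_RE_v]; omega
    · rw [mem_RE_v]; simp only; omega
  · rcases (mem_sides_iff' e g).1 he with h | h
    · exact Or.inl (h ▸ hg)
    · exact Or.inr (h ▸ hg)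

theorem p_BTB (hA : S_BTA) : S_BTB := by
  intro p hp D m hm
  have hApos : 0 < D.A := by linarith [D.hA]
  have hml : (m : ℤ) ≤ 3 ^ m := by
    have : m < 3 ^ m := Nat.lt_pow_self (by norm_num)
    exact_mod_cast this.le
  refine ⟨1 / (2 * 3 ^ m * D.A), by positivity, ?_⟩
  intro t f hf0 hf1
  have hLpos : (0:ℤ) < 3 ^ t := by positivity
  obtain ⟨F, G, hF, hG, hFG, hGid, hdig, hsum⟩ := hA (3 ^ t) (by linarith)
  let f' : Pt → ℝ := fun x => if x.1 ≤ (m : ℤ) * 3 ^ t then f (x.1, F x.2) else 1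
  have hmL : (m : ℤ) * 3 ^ t ≤ 3 ^ (t + m) := by
    rw [pow_add, mul_comm ((3:ℤ) ^ t)]
    exact mul_le_mul_of_nonneg_right hml hLpos.le
  have hcap := D.cap (t + m) f' ?_ ?_
  rotate_left
  · intro j
    simp only [f']
    rw [if_pos (by positivity), hf0]
  · intro j
    simp only [f']
    by_cases hc : (3:ℤ) ^ (t + m) ≤ (m : ℤ) * 3 ^ t
    · rw [if_pos hc, le_antisymm hc hmL, hf1]
    · rw [if_neg hc]
  have hfe1 : ∀ x y : ℤ, x < (m : ℤ) * 3 ^ t → fe p f' (x, y) = fe p f (x, G y) := by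
    intro x y hx
    rw [fe_expand, fe_expand]
    simp only [f']
    rw [if_pos hx.le, if_pos (by omega), if_pos hx.le, if_pos (by omega)]
    rcases hFG y with ⟨h1, h2⟩ | ⟨h1, h2⟩
    · rw [h1, h2]
    · rw [h1, h2]
      rw [abs_sub_comm (f (x, G y)) (f (x, G y + 1)), abs_sub_comm (f (x + 1, G y)) (f (x + 1, G y + 1))]
      ring
  have hfe2 : ∀ x y : ℤ, (m : ℤ) * 3 ^ t ≤ x → fe p f' (x, y) = 0 := by
    intro x y hx
    have h1 : ∀ z, f' (x, z) = 1 := by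
      intro z
      simp only [f']
      by_cases hc : x ≤ (m : ℤ) * 3 ^ t
      · rw [if_pos hc, le_antisymm hc hx, hf1]
      · rw [if_neg hc]
    have h2 : ∀ z, f' (x + 1, z) = 1 := by
      intro z
      simp only [f']
      rw [if_neg (by omega)]
    rw [fe_expand, h1, h1, h2, h2]
    simp [Real.zero_rpow (by linarith : p ≠ 0)]
  let φ : ℤ → ℤ → ℝ := fun x z => if Pat t (x, z) then fe p f (x, z) else 0
  have hfe0 : ∀ g, 0 ≤ fe p f g := fun g => Finset.sum_nonneg fun e _ => Real.rpow_nonneg (abs_nonneg _) _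
  have hφ0 : ∀ x z, 0 ≤ φ x z := by
    intro x z
    simp only [φ]
    split_ifs
    · exact hfe0 _
    · exact le_rfl
  have hb1 : En p (Kept (t + m)) f' (cell (t + m) (0, 0)) ≤
      ∑ x ∈ Finset.Ico (0:ℤ) (3 ^ (t + m)), ∑ y ∈ Finset.Ico (0:ℤ) (3 ^ (t + m)),
        if x < (m : ℤ) * 3 ^ t then φ x (G y) else 0 := by
    unfold En
    have hcell : cell (t + m) (0, 0) = Finset.Ico (0:ℤ) (3 ^ (t + m)) ×ˢ Finset.Ico (0:ℤ) (3 ^ (t + m)) := by
      simp [cell, box]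
    rw [hcell, ← Finset.sum_product']
    refine (Finset.sum_le_sum (g := fun g : Pt => if g.1 < (m : ℤ) * 3 ^ t then φ g.1 (G g.2) else 0) ?_).trans ?_
    · rintro ⟨x, y⟩ hg
      have hK := (Finset.mem_filter.1 hg).2
      simp only
      by_cases hx : x < (m : ℤ) * 3 ^ t
      · rw [hfe1 x y hx, if_pos hx]
        have hP : Pat t (x, G y) := by
          intro k hk
          have h1 := hK.2.2.2.2 k (by omega)
          simp only at h1 ⊢
          rintro ⟨h2, h3⟩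
          exact h1 ⟨h2, (hdig t rfl y k hk).2 h3⟩
        simp only [φ]
        rw [if_pos hP]
      · rw [hfe2 x y (by linarith), if_neg hx]
    · refine Finset.sum_le_sum_of_subset_of_nonneg (Finset.filter_subset _ _) ?_
      intro g _ _
      split_ifs
      · exact hφ0 _ _
      · exact le_rfl
  have hb2 : ∑ x ∈ Finset.Ico (0:ℤ) (3 ^ (t + m)), ∑ y ∈ Finset.Ico (0:ℤ) (3 ^ (t + m)),
        (if x < (m : ℤ) * 3 ^ t then φ x (G y) else 0) =
      3 ^ m * ∑ x ∈ Finset.Ico (0:ℤ) ((m : ℤ) * 3 ^ t), ∑ y ∈ Finset.Ico (0:ℤ) (3 ^ t), φ x y := by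
    rw [Finset.mul_sum]
    have hsub : Finset.Ico (0:ℤ) ((m : ℤ) * 3 ^ t) ⊆ Finset.Ico (0:ℤ) (3 ^ (t + m)) :=
      Finset.Ico_subset_Ico le_rfl hmL
    rw [← Finset.sum_subset hsub]
    · refine Finset.sum_congr rfl fun x hx => ?_
      have hx' := (Finset.mem_Ico.1 hx).2
      have h3 := hsum (3 ^ m) (fun z => φ x z)
      have h4 : ((3 ^ m : ℕ) : ℤ) * 3 ^ t = 3 ^ (t + m) := by push_cast; ring
      rw [h4] at h3
      push_cast at h3
      rw [← h3]
      refine Finset.sum_congr rfl fun y _ => ?_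
      rw [if_pos hx']
    · intro x hx hx2
      refine Finset.sum_eq_zero fun y _ => ?_
      rw [if_neg]
      intro hc
      exact hx2 (Finset.mem_Ico.2 ⟨(Finset.mem_Ico.1 hx).1, hc⟩)
  have hb3 : ∑ x ∈ Finset.Ico (0:ℤ) ((m : ℤ) * 3 ^ t), ∑ y ∈ Finset.Ico (0:ℤ) (3 ^ t), φ x y ≤
      2 * ∑ e ∈ (RE (m * 3 ^ t) (3 ^ t)).filter (pres {g | Pat t g}), |du f e| ^ p := by
    have e1 : ∑ x ∈ Finset.Ico (0:ℤ) ((m : ℤ) * 3 ^ t), ∑ y ∈ Finset.Ico (0:ℤ) (3 ^ t), φ x y =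
        ∑ g ∈ (Finset.Ico (0:ℤ) ((m : ℤ) * 3 ^ t) ×ˢ Finset.Ico (0:ℤ) (3 ^ t)).filter (Pat t), fe p f g := by
      rw [Finset.sum_filter, Finset.sum_product]
    rw [e1]
    refine sum_sides_le_two (fun e => |du f e| ^ p) (fun e => Real.rpow_nonneg (abs_nonneg _) _) _ _ ?_
    intro g hg
    obtain ⟨hg1, hg2⟩ := Finset.mem_filter.1 hg
    obtain ⟨h1, h2⟩ := Finset.mem_product.1 hg1
    obtain ⟨a1, a2⟩ := Finset.mem_Ico.1 h1
    obtain ⟨a3, a4⟩ := Finset.mem_Ico.1 h2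
    exact sides_subset_RE a1 a2 a3 a4 hg2
  have h5 : D.A⁻¹ ≤ 3 ^ m * (2 * ∑ e ∈ (RE (m * 3 ^ t) (3 ^ t)).filter (pres {g | Pat t g}), |du f e| ^ p) :=
    hcap.trans (hb1.trans (hb2.le.trans (mul_le_mul_of_nonneg_left hb3 (by positivity))))
  rw [div_le_iff₀ (by positivity)]
  rw [inv_le_iff_one_le_mul₀ hApos] at h5
  linarith

end CarpetPI.PB
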