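import Pool.Agent.Lib.MP_1d263a_an.PI.StmB

open Finset
open scoped Classical

noncomputable section

namespace CarpetPI.PB

theorem p_BTC (_hA : S_BPA) (hC : S_BPC) (hR : S_BRC) (hD : S_BRD) (hT : S_BTB) : S_BTC := by
  intro p hp D m hm
  obtain ⟨c, hc, hcap⟩ := hT p hp D m hm
  set q : ℝ := p / (p - 1) with hq
  have hp1 : 0 < p - 1 := by linarith
  have hq1 : 1 < q := by rw [hq, lt_div_iff₀ hp1]; linarith
  refine ⟨c ^ (1 - q), Real.rpow_pos_of_pos hc _, ?_⟩
  intro t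
  have hW : (1:ℤ) ≤ (m : ℤ) * 3 ^ t := by
    have h1 : (1:ℤ) ≤ (m : ℤ) := by exact_mod_cast hm
    have h2 : (1:ℤ) ≤ 3 ^ t := one_le_pow₀ (by norm_num)
    nlinarith
  obtain ⟨u, v, I, hP⟩ := hR p hp {g | Pat t g} ((m : ℤ) * 3 ^ t) (3 ^ t) hW (by positivity)
  obtain ⟨hv, -⟩ := hD p hp _ _ _ hW (by positivity) u v I hP
  have hI : c ≤ I := by
    rw [hP.energy]
    exact hcap t u (fun j => hP.u_left (0, j) le_rfl) (fun j => hP.u_right (_, j) le_rfl)
  have hI0 : 0 < I := lt_of_lt_of_le hc hI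
  refine ⟨fun f => v f / I, ?_, ?_, ?_, ?_, ?_, ?_, ?_⟩
  · intro f
    exact ⟨div_nonneg (hv f).1 hI0.le, (div_le_one hI0).2 (hv f).2⟩
  · intro f hf
    simp only
    rw [hP.v_bot f hf, zero_div]
  · intro f hf
    simp only
    rw [hP.v_top f hf, div_self hI0.ne']
  · intro f hf
    simp only
    rw [hP.v_left f hf]
  · intro f hf
    simp only
    rw [hP.v_right f hf]
  · intro e he hpr
    have h := (hP.pair e (by exact_mod_cast he)).2 hpr
    unfold dv at h ⊢
    rw [← sub_div, h, zero_div]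
  · have e1 : ∀ e ∈ (RE ((m : ℤ) * 3 ^ t) (3 ^ t)).filter (pres {g | Pat t g}),
        |dv (fun f => v f / I) e| ^ q = I ^ (-q) * |du u e| ^ p := by
      intro e he
      obtain ⟨he1, he2⟩ := Finset.mem_filter.1 he
      obtain ⟨k1, -⟩ := hC p hp _ _ u v hP.pair e (by exact_mod_cast he1)
      obtain ⟨-, k2, -⟩ := k1 he2
      rw [← k2]
      have : dv (fun f => v f / I) e = I⁻¹ * dv v e := by
        unfold dv; field_simp
      rw [this, abs_mul, abs_of_pos (inv_pos.2 hI0), Real.mul_rpow (inv_nonneg.2 hI0.le) (abs_nonneg _),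
        Real.inv_rpow hI0.le, Real.rpow_neg hI0.le]
    rw [Finset.sum_congr rfl e1, ← Finset.mul_sum, ← hP.energy]
    have e2 : I ^ (-q) * I = I ^ (1 - q) := by
      rw [← Real.rpow_add_one hI0.ne']; congr 1; ring
    rw [e2]
    exact Real.rpow_le_rpow_of_nonpos hc hI (by linarith)

end CarpetPI.PB
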