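import Pool.Agent.Lib.MP_1d263a_an.PI.BGA
import Pool.Agent.Lib.MP_1d263a_an.PI.BGB
import Pool.Agent.Lib.MP_1d263a_an.PI.BPA
import Pool.Agent.Lib.MP_1d263a_an.PI.BPB
import Pool.Agent.Lib.MP_1d263a_an.PI.BPC
import Pool.Agent.Lib.MP_1d263a_an.PI.BRA
import Pool.Agent.Lib.MP_1d263a_an.PI.BRB
import Pool.Agent.Lib.MP_1d263a_an.PI.BRC
import Pool.Agent.Lib.MP_1d263a_an.PI.BRD
import Pool.Agent.Lib.MP_1d263a_an.PI.BLA
import Pool.Agent.Lib.MP_1d263a_an.PI.BLB
import Pool.Agent.Lib.MP_1d263a_an.PI.BLC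
import Pool.Agent.Lib.MP_1d263a_an.PI.BSA
import Pool.Agent.Lib.MP_1d263a_an.PI.BSB
import Pool.Agent.Lib.MP_1d263a_an.PI.BSC
import Pool.Agent.Lib.MP_1d263a_an.PI.BTA
import Pool.Agent.Lib.MP_1d263a_an.PI.BTB
import Pool.Agent.Lib.MP_1d263a_an.PI.BTC

/-!
# Part B (planar duality): all pieces of `StmB.lean` are proved
-/

namespace CarpetPI

/-- Green's formula, finitely supported factor -/
theorem t_BGA : S_BGA := PB.p_BGA

/-- Green's formula on a rectangle -/
theorem t_BGB : S_BGB := PB.p_BGB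

/-- algebra of `phi` -/
theorem t_BPA : S_BPA := PB.p_BPA

/-- bounds for differences of `phi` -/
theorem t_BPB : S_BPB := PB.p_BPB t_BPA

/-- powers for a pair -/
theorem t_BPC : S_BPC := PB.p_BPC t_BPA

/-- the minimiser -/
theorem t_BRA : S_BRA := PB.p_BRA

/-- stream function of a current -/
theorem t_BRB : S_BRB := PB.p_BRB

/-- the potential of a rectangle -/
theorem t_BRC : S_BRC := PB.p_BRC t_BPA t_BRA t_BRB

/-- bounds for `v` and the Tile property -/
theorem t_BRD : S_BRD := PB.p_BRD t_BGB t_BPA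

/-- layer cake, one variable -/
theorem t_BLA : S_BLA := PB.p_BLA

/-- disjoint rectangles -/
theorem t_BLB : S_BLB := PB.p_BLB

/-- area bound from the Tile property -/
theorem t_BLC : S_BLC := PB.p_BLC t_BLB

/-- the symmetries -/
theorem t_BSA : S_BSA := PB.p_BSA

/-- transport of pairs and tiles -/
theorem t_BSB : S_BSB := PB.p_BSB t_BPA

/-- transport of energy, adjacency, connectedness -/
theorem t_BSC : S_BSC := PB.p_BSC

/-- folding -/
theorem t_BTA : S_BTA := PB.p_BTA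

/-- capacity of a strip -/
theorem t_BTB : S_BTB := PB.p_BTB t_BTA

/-- dual functions of bounded energy in a strip -/
theorem t_BTC : S_BTC := PB.p_BTC t_BPA t_BPC t_BRC t_BRD t_BTB

end CarpetPI
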