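import Pool.Agent.Lib.MP_1d263a_an.PI.StmB

open Finset
open scoped Classical

noncomputable section

namespace CarpetPI.PB

theorem green_aux (S : Finset Ed) (φ : Pt → ℝ) (D : Ed → ℝ) (α : Ed ≃ Ed) (X : Finset Pt)
    (hX : ∀ x, φ x ≠ 0 → x ∈ X) (h : ∀ e, e ∉ S → φ ((α e).2) = 0) :
    ∑ e ∈ S, φ ((α e).2) * D e =
      ∑ x ∈ X, φ x * (D (α.symm (false, x)) + D (α.symm (true, x))) := by
  have h1 : ∑ e ∈ S, φ ((α e).2) * D e = ∑ᶠ e : Ed, φ ((α e).2) * D e := by
    rw [finsum_eq_sum_of_support_subset]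
    intro e he
    by_contra hc
    exact he (by simp only; rw [h e hc, zero_mul])
  have h2 : ∑ᶠ e : Ed, φ ((α e).2) * D e = ∑ᶠ e : Ed, φ (e.2) * D (α.symm e) := by
    have := finsum_comp_equiv α (f := fun e => φ (e.2) * D (α.symm e))
    simp only [Equiv.symm_apply_apply] at this
    exact this
  have h3 : ∑ᶠ e : Ed, φ (e.2) * D (α.symm e) =
      ∑ e ∈ (Finset.univ : Finset Bool) ×ˢ X, φ (e.2) * D (α.symm e) := by
    rw [finsum_eq_sum_of_support_subset]
    intro e he
    simp only [Function.mem_support] at he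
    have : φ e.2 ≠ 0 := fun h0 => he (by rw [h0, zero_mul])
    simp [hX _ this]
  rw [h1, h2, h3, Finset.sum_product_right]
  refine Finset.sum_congr rfl fun x _ => ?_
  simp [mul_add, add_comm]

/-- shift of edges to their heads -/
def shH : Ed ≃ Ed where
  toFun e := (e.1, hd e)
  invFun e := (e.1, if e.1 then (e.2.1, e.2.2 - 1) else (e.2.1 - 1, e.2.2))
  left_inv := by rintro ⟨b, i, j⟩; cases b <;> simp
  right_inv := by rintro ⟨b, i, j⟩; cases b <;> simp

/-- shift of edges to their left faces -/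
def shL : Ed ≃ Ed where
  toFun e := (e.1, lf e)
  invFun e := (e.1, if e.1 then (e.2.1 + 1, e.2.2) else e.2)
  left_inv := by rintro ⟨b, i, j⟩; cases b <;> simp
  right_inv := by rintro ⟨b, i, j⟩; cases b <;> simp

/-- shift of edges to their right faces -/
def shR : Ed ≃ Ed where
  toFun e := (e.1, rf e)
  invFun e := (e.1, if e.1 then e.2 else (e.2.1, e.2.2 + 1))
  left_inv := by rintro ⟨b, i, j⟩; cases b <;> simp
  right_inv := by rintro ⟨b, i, j⟩; cases b <;> simp

theorem p_BGA : S_BGA := by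
  constructor
  · intro S U V h
    let X : Finset Pt := S.image (fun e => e.2)
    have hX : ∀ x, U x ≠ 0 → x ∈ X := by
      intro x hx
      by_contra hc
      have : ((false, x) : Ed) ∉ S := fun hm => hc (Finset.mem_image.2 ⟨_, hm, rfl⟩)
      exact hx (h _ this).2
    have e1 := green_aux S U (dv V) shH X hX (fun e he => (h e he).1)
    have e2 := green_aux S U (dv V) (Equiv.refl Ed) X hX (fun e he => (h e he).2)
    have e3 : ∑ e ∈ S, du U e * dv V e =
        ∑ e ∈ S, U ((shH e).2) * dv V e - ∑ e ∈ S, U ((Equiv.refl Ed e).2) * dv V e := by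
      rw [← Finset.sum_sub_distrib]
      refine Finset.sum_congr rfl fun e _ => ?_
      simp only [du, shH, Equiv.coe_fn_mk, Equiv.refl_apply, tl]; ring
    rw [e3, e1, e2, ← Finset.sum_sub_distrib]
    refine Finset.sum_eq_zero fun x _ => ?_
    simp only [shH, Equiv.coe_fn_symm_mk, Equiv.refl_symm, Equiv.refl_apply, dv, lf, rf]
    simp
  · intro S U V h
    let X : Finset Pt := S.image (fun e => e.2)
    have hX : ∀ x, V x ≠ 0 → x ∈ X := by
      intro x hx
      by_contra hc
      have : ((false, x) : Ed) ∉ S := fun hm => hc (Finset.mem_image.2 ⟨_, hm, rfl⟩)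
      exact hx (h _ this).1
    have e1 := green_aux S V (du U) shL X hX (fun e he => (h e he).1)
    have e2 := green_aux S V (du U) shR X hX (fun e he => (h e he).2)
    have e3 : ∑ e ∈ S, du U e * dv V e =
        ∑ e ∈ S, V ((shL e).2) * du U e - ∑ e ∈ S, V ((shR e).2) * du U e := by
      rw [← Finset.sum_sub_distrib]
      refine Finset.sum_congr rfl fun e _ => ?_
      simp only [dv, shL, shR, Equiv.coe_fn_mk]; ring
    rw [e3, e1, e2, ← Finset.sum_sub_distrib]
    refine Finset.sum_eq_zero fun x _ => ?_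
    simp only [shL, shR, Equiv.coe_fn_symm_mk, du, hd, tl]
    simp

end CarpetPI.PB
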