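import Pool.Agent.Lib.MP_1d263a_an.PI.StmB

open Finset
open scoped Classical

noncomputable section

namespace CarpetPI.PB

theorem p_BLC (hB : S_BLB) : S_BLC := by
  intro K R u v S U₀ U₁ V₀ V₁ hT hS hU hV hb
  have h := hB Ed S (fun e => min (u (hd e)) (u (tl e))) (fun e => max (u (hd e)) (u (tl e)))
    (fun e => min (v (lf e)) (v (rf e))) (fun e => max (v (lf e)) (v (rf e))) U₀ U₁ V₀ V₁ hU hV ?_ ?_
  · refine le_of_eq_of_le (Finset.sum_congr rfl fun e _ => ?_) h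
    rw [max_sub_min_eq_abs, max_sub_min_eq_abs]
    unfold du dv
    rw [abs_sub_comm (u (hd e)), abs_sub_comm (v (lf e))]
  · intro e he
    obtain ⟨⟨a1, a2⟩, ⟨a3, a4⟩, ⟨a5, a6⟩, ⟨a7, a8⟩⟩ := hb e he
    exact ⟨le_min a1 a3, min_le_max, max_le a2 a4, le_min a5 a7, min_le_max, max_le a6 a8⟩
  · rintro e he e' he' hne a c ⟨⟨a1, a2, a3, a4⟩, ⟨a5, a6, a7, a8⟩⟩
    exact hT e (hS e he).1 e' (hS e' he').1 (hS e he).2 (hS e' he').2 hne a c
      ⟨a1, a2, a3, a4, a5, a6, a7, a8⟩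

end CarpetPI.PB
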