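import Pool.Agent.Lib.MP_1d263a_an.PI.BrGeo

/-!
# MP_1d263a_an, project PI: the bridge `S_BR`
-/

open Finset
open scoped Classical

noncomputable section

namespace CarpetPI.Br

/-! ### signs, energies -/

theorem du_neg (u : Pt → ℝ) (e : Ed) : du (fun x => - u x) e = - du u e := by unfold du; ring

theorem dv_neg (v : Pt → ℝ) (e : Ed) : dv (fun x => - v x) e = - dv v e := by unfold dv; ring

theorem phi_neg (p t : ℝ) : phi p (-t) = - phi p t := by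
  unfold phi
  rw [abs_neg, Real.sign_neg]
  ring

theorem fe_nonneg (p : ℝ) (u : Pt → ℝ) (f : Pt) : 0 ≤ fe p u f := by
  unfold fe
  exact sum_nonneg fun e _ => Real.rpow_nonneg (abs_nonneg _) _

theorem En_nonneg (p : ℝ) (K : Set Pt) (u : Pt → ℝ) (G : Finset Pt) : 0 ≤ En p K u G := by
  unfold En
  exact sum_nonneg fun f _ => fe_nonneg p u f

theorem En_mono (p : ℝ) (K : Set Pt) (u : Pt → ℝ) {G G' : Finset Pt} (h : G ⊆ G') :
    En p K u G ≤ En p K u G' := by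
  unfold En
  exact sum_le_sum_of_subset_of_nonneg (filter_subset_filter _ h) fun f _ _ => fe_nonneg p u f

theorem En_neg (p : ℝ) (K : Set Pt) (u : Pt → ℝ) (G : Finset Pt) :
    En p K (fun x => - u x) G = En p K u G := by
  unfold En fe
  simp only [du_neg, abs_neg]

theorem sit_neg {p : ℝ} {D : Dat p} {N T L : ℕ} {Q : Pt} {u v : Pt → ℝ} (S : Sit p D N T L Q u v) :
    Sit p D N T L Q (fun x => - u x) (fun f => - v f) where
  TN := S.TN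
  LT := S.LT
  hQ := S.hQ
  pair := by
    intro e he
    obtain ⟨h1, h2⟩ := S.pair e he
    refine ⟨fun h => ?_, fun h => ?_⟩
    · rw [dv_neg, du_neg, phi_neg, h1 h]
    · rw [dv_neg, h2 h, neg_zero]
  tile := by
    intro e he e' he' hp hp' hne a c h
    apply S.tile e he e' he' hp hp' hne (-a) (-c)
    simp only [min_neg_neg, max_neg_neg] at h
    obtain ⟨h1, h2, h3, h4, h5, h6, h7, h8⟩ := h
    refine ⟨?_, ?_, ?_, ?_, ?_, ?_, ?_, ?_⟩ <;> linarith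
  lo := by
    intro t h1 h2 q h3 h4
    rw [En_neg]
    exact S.lo t h1 h2 q h3 h4
  hi := by
    intro t h1 h2 q h3 h4
    rw [En_neg]
    exact S.hi t h1 h2 q h3 h4

/-! ### ancestors -/

theorem up_zero (f : Pt) : up 0 f = f := by
  unfold up; simp

theorem up_up (a b : ℕ) (f : Pt) : up a (up b f) = up (a + b) f := by
  unfold up
  have hb : (0 : ℤ) ≤ 3 ^ b := by positivity
  simp only
  rw [Int.ediv_ediv_of_nonneg hb, Int.ediv_ediv_of_nonneg hb, ← pow_add, add_comm b a]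

theorem mu_up (hDA : S_DA) {p : ℝ} {D : Dat p} {C : ℝ} (hC : 1 ≤ C)
    (h : ∀ (n : ℕ), ∀ f ∈ Kept (n + 1), D.mu n (up 1 f) ≤ C * D.mu (n + 1) f) (n j : ℕ) :
    ∀ f ∈ Kept (n + j), D.mu n (up j f) ≤ C ^ j * D.mu (n + j) f := by
  induction j with
  | zero => intro f _; rw [up_zero, pow_zero, one_mul]; exact le_rfl
  | succ j ih =>
    intro f hf
    have h1 : up 1 f ∈ Kept (n + j) := hDA.1 (n + j + 1) 1 (by omega) f hf
    have h2 := ih _ h1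
    rw [up_up] at h2
    have h3 := h (n + j) f hf
    have hC0 : 0 ≤ C ^ j := by positivity
    calc D.mu n (up (j + 1) f) ≤ C ^ j * D.mu (n + j) (up 1 f) := h2
      _ ≤ C ^ j * (C * D.mu (n + j + 1) f) := mul_le_mul_of_nonneg_left h3 hC0
      _ = C ^ (j + 1) * D.mu (n + (j + 1)) f := by rw [pow_succ]; ring_nf

theorem mem_cell_up (t : ℕ) (f : Pt) : f ∈ cell t (up t f) := by
  have h := pow_pos3 t
  rw [mem_cell]
  unfold up
  refine ⟨Int.ediv_mul_le _ h.ne', Int.lt_ediv_add_one_mul_self _ h,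
    Int.ediv_mul_le _ h.ne', Int.lt_ediv_add_one_mul_self _ h⟩

/-- a corner of a face is in the closed cell of each ancestor -/
theorem cor_cellV {t : ℕ} {x f : Pt} (h : IsCor x f) : x ∈ cellV t (up t f) := by
  have h1 := mem_cell_up t f
  rw [mem_cell] at h1
  rw [mem_cellV]
  obtain ⟨a1, a2, a3, a4⟩ := h1
  obtain ⟨b1, b2⟩ := h
  refine ⟨?_, ?_, ?_, ?_⟩
  · rcases b1 with b1 | b1 <;> linarith
  · rcases b1 with b1 | b1 <;> linarith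
  · rcases b2 with b2 | b2 <;> linarith
  · rcases b2 with b2 | b2 <;> linarith

namespace Dt

variable (d : Dt)

/-- the vertices of the block above the hole with the common corner `(i r, y₁)` -/
def B (i : ℤ) : Set Pt :=
  {x | x ∈ VK (Kept d.N) ∧ i * d.r - d.r ≤ x.1 ∧ x.1 ≤ i * d.r + d.r ∧ d.y₁ ≤ x.2 ∧ x.2 ≤ d.y₁ + d.r}

def i₀ : ℤ := (3 * d.Q.1 + 1) * d.W + 1
def i₁ : ℤ := (3 * d.Q.1 + 2) * d.W - 1

/-- the common corner -/
def pt (i : ℤ) : Pt := (i * d.r, d.y₁)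

/-- the right cell of size `3^s` of the block at `(i r, y₁)` -/
def cs (i : ℤ) (s : ℕ) : Pt := (i * 3 ^ (d.T' - s), (3 * d.Q.2 + 2) * 3 ^ (d.J + d.T' - s))

theorem i₀_r : d.i₀ * d.r = d.x₀ + d.r := by unfold i₀ x₀; rw [P_eq]; ring
theorem i₁_r : d.i₁ * d.r = d.x₁ - d.r := by unfold i₁ x₁; rw [P_eq]; ring

theorem i_lo {i : ℤ} (h : d.i₀ ≤ i) : d.x₀ + d.r ≤ i * d.r := by
  rw [← i₀_r]
  exact mul_le_mul_of_nonneg_right h (by linarith [d.r_pos])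

theorem i_hi {i : ℤ} (h : i ≤ d.i₁) : i * d.r + d.r ≤ d.x₁ := by
  have : i * d.r ≤ d.i₁ * d.r := mul_le_mul_of_nonneg_right h (by linarith [d.r_pos])
  rw [i₁_r] at this
  linarith

theorem cs_mul {i : ℤ} {s : ℕ} (hs : s ≤ d.T') :
    (d.cs i s).1 * 3 ^ s = i * d.r ∧ (d.cs i s).2 * 3 ^ s = d.y₁ := by
  unfold cs r y₁ P
  constructor
  · simp only
    rw [mul_assoc, pow_sub_mul_pow _ hs]
  · simp only
    rw [mul_assoc, pow_sub_mul_pow _ (by omega)]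

theorem cs_kept (hHK : S_HK) {i : ℤ} {s : ℕ} (hs : s ≤ d.T') (h0 : d.i₀ ≤ i) (h1 : i ≤ d.i₁) :
    d.cs i s ∈ Kept (d.N - s) := by
  have e : (3 : ℤ) ^ (d.J + d.T' - s) = d.W * 3 ^ (d.T' - s) := by
    unfold W
    rw [← pow_add]
    congr 1
    omega
  have hp := pow_pos3 (d.T' - s)
  unfold i₀ at h0
  unfold i₁ at h1
  apply d.row_kept hHK (by omega)
  · rw [e]
    calc (3 * d.Q.1 + 1) * (d.W * 3 ^ (d.T' - s)) = ((3 * d.Q.1 + 1) * d.W) * 3 ^ (d.T' - s) := by ring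
      _ ≤ i * 3 ^ (d.T' - s) := mul_le_mul_of_nonneg_right (by linarith) hp.le
  · rw [e]
    calc i * 3 ^ (d.T' - s) < ((3 * d.Q.1 + 2) * d.W) * 3 ^ (d.T' - s) :=
          mul_lt_mul_of_pos_right (by linarith) hp
      _ = _ := by ring

theorem pt_mem {i : ℤ} {s : ℕ} (hs : s ≤ d.T') : d.pt i ∈ cellV s (d.cs i s) := by
  obtain ⟨e1, e2⟩ := d.cs_mul (i := i) hs
  have hp := pow_pos3 s
  rw [mem_cellV]
  unfold pt
  refine ⟨by simp only; linarith, ?_, by simp only; linarith, ?_⟩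
  · have : ((d.cs i s).1 + 1) * 3 ^ s = (d.cs i s).1 * 3 ^ s + 3 ^ s := by ring
    rw [this, e1]; simp only; linarith
  · have : ((d.cs i s).2 + 1) * 3 ^ s = (d.cs i s).2 * 3 ^ s + 3 ^ s := by ring
    rw [this, e2]; simp only; linarith

theorem cs_deep {i : ℤ} {s m : ℕ} (hs : s ≤ d.T') (hm : (m : ℤ) + 2 ≤ d.W) (h0 : d.i₀ ≤ i)
    (h1 : i ≤ d.i₁) : Deep m s d.T d.Q (d.cs i s) := by
  have a := d.i_lo h0
  have b := d.i_hi h1
  have c := d.r_pos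
  exact d.zone_deep hs hm (d.pt_mem hs) (by unfold pt; simp only; linarith)
    (by unfold pt; simp only; linarith) le_rfl (by unfold pt; simp only; linarith)

theorem cell_sub_blk {i : ℤ} {s : ℕ} (hs : s ≤ d.T') : cell s (d.cs i s) ⊆ blk s (d.pt i) := by
  obtain ⟨e1, e2⟩ := d.cs_mul (i := i) hs
  have hp := pow_pos3 s
  intro f hf
  rw [mem_cell] at hf
  have g1 : ((d.cs i s).1 + 1) * 3 ^ s = (d.cs i s).1 * 3 ^ s + 3 ^ s := by ring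
  have g2 : ((d.cs i s).2 + 1) * 3 ^ s = (d.cs i s).2 * 3 ^ s + 3 ^ s := by ring
  rw [g1, g2, e1, e2] at hf
  unfold blk pt
  rw [mem_box]
  simp only
  obtain ⟨h1, h2, h3, h4⟩ := hf
  refine ⟨by linarith, h2, h3, h4⟩

theorem blk_sub_nb {i : ℤ} {s : ℕ} (hs : s ≤ d.T') : blk s (d.pt i) ⊆ nb 1 s (d.cs i s) := by
  obtain ⟨e1, e2⟩ := d.cs_mul (i := i) hs
  have hp := pow_pos3 s
  intro f hf
  unfold blk pt at hf
  rw [mem_box] at hf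
  simp only at hf
  unfold nb
  rw [mem_box]
  have g1 : ((d.cs i s).1 - ((1 : ℕ) : ℤ)) * 3 ^ s = i * d.r - 3 ^ s := by
    rw [← e1]; push_cast; ring
  have g2 : ((d.cs i s).1 + ((1 : ℕ) : ℤ) + 1) * 3 ^ s = i * d.r + 2 * 3 ^ s := by
    rw [← e1]; push_cast; ring
  have g3 : ((d.cs i s).2 - ((1 : ℕ) : ℤ)) * 3 ^ s = d.y₁ - 3 ^ s := by
    rw [← e2]; push_cast; ring
  have g4 : ((d.cs i s).2 + ((1 : ℕ) : ℤ) + 1) * 3 ^ s = d.y₁ + 2 * 3 ^ s := by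
    rw [← e2]; push_cast; ring
  rw [g1, g2, g3, g4]
  obtain ⟨h1, h2, h3, h4⟩ := hf
  refine ⟨by linarith, by linarith, by linarith, by linarith⟩

theorem up_cs {i : ℤ} {s : ℕ} (hs : s < d.T') : up 1 (d.cs i s) = d.cs i (s + 1) := by
  have e1 : (3 : ℤ) ^ (d.T' - s) = 3 ^ (d.T' - (s + 1)) * 3 := by
    rw [← pow_succ]; congr 1; omega
  have e2 : (3 : ℤ) ^ (d.J + d.T' - s) = 3 ^ (d.J + d.T' - (s + 1)) * 3 := by
    rw [← pow_succ]; congr 1; omega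
  unfold up cs
  simp only [pow_one]
  rw [e1, e2, ← mul_assoc, ← mul_assoc, Int.mul_ediv_cancel _ (by norm_num),
    Int.mul_ediv_cancel _ (by norm_num)]

theorem kept_row {a : ℤ} (hHK : S_HK) (h1 : (3 * d.Q.1 + 1) * d.W ≤ a) (h2 : a < (3 * d.Q.1 + 2) * d.W) :
    ((a, d.Y) : Pt) ∈ Kept (d.N - d.T') := by
  have e : (3 : ℤ) ^ (d.J + d.T' - d.T') = d.W := by unfold W; rw [Nat.add_sub_cancel]
  have := d.row_kept hHK (t := d.T') (a := a) (by omega) (by rw [e]; exact h1) (by rw [e]; exact h2)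
  rw [e] at this
  exact this

theorem flat (hHK : S_HK) {i : ℤ} (h0 : d.i₀ ≤ i) (h1 : i ≤ d.i₁) : Flat d.N d.T' (d.pt i) := by
  have hr := d.r_pos
  have a := d.i_lo h0
  have b := d.i_hi h1
  have hP := d.P_ge
  have hy := d.y₁_eq
  have e1 : (i * d.r) / 3 ^ d.T' = i := by
    unfold r
    exact Int.mul_ediv_cancel _ (pow_pos3 _).ne'
  have e2 : d.y₁ / 3 ^ d.T' = d.Y := by
    rw [← Y_r]
    unfold r
    exact Int.mul_ediv_cancel _ (pow_pos3 _).ne'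
  unfold i₀ at h0
  unfold i₁ at h1
  refine ⟨by unfold N; omega, ?_, ?_, ?_, ?_, ?_⟩
  · exact ⟨i, by unfold pt r; simp only; ring⟩
  · exact ⟨d.Y, by unfold pt; simp only; rw [← Y_r]; unfold r; ring⟩
  · unfold pt
    simp only
    rw [e1, e2]
    exact d.kept_row hHK (by linarith) (by linarith)
  · unfold pt
    simp only
    rw [e1, e2]
    exact d.kept_row hHK (by linarith) (by linarith)
  · intro f h1 h2 h3 h4
    have er : (3 : ℤ) ^ d.T' = d.r := rfl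
    rw [er] at h1 h2 h3
    unfold pt at h1 h2 h3 h4
    simp only at h1 h2 h3 h4
    apply d.hole_not hHK
    rw [mem_box]
    refine ⟨by linarith, by linarith, by linarith, by linarith⟩

/-! ### the vertex sets `B i` -/

theorem B_near {i : ℤ} (h0 : d.i₀ ≤ i) (h1 : i ≤ d.i₁) {x : Pt} (hx : x ∈ d.B i) :
    d.x₀ ≤ x.1 ∧ x.1 ≤ d.x₁ ∧ d.y₀ ≤ x.2 ∧ x.2 ≤ d.y₁ + d.r := by
  have hr := d.r_pos
  have a := d.i_lo h0
  have b := d.i_hi h1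
  have hP := d.P_ge
  have hy := d.y₁_eq
  obtain ⟨-, h1, h2, h3, h4⟩ := hx
  refine ⟨by linarith, by linarith, by linarith, h4⟩

theorem B_eq (i : ℤ) : d.B i = {x | x ∈ VK (Kept d.N) ∧ x ∈ cellV d.T' (i - 1, d.Y)} ∪
    {x | x ∈ VK (Kept d.N) ∧ x ∈ cellV d.T' (i, d.Y)} := by
  have hr := d.r_pos
  have hY := d.Y_r
  have er : (3 : ℤ) ^ d.T' = d.r := rfl
  have e3 : (d.Y + 1) * d.r = d.y₁ + d.r := by rw [← hY]; ring
  ext x
  constructor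
  · rintro ⟨h0, h1, h2, h3, h4⟩
    rcases le_total x.1 (i * d.r) with h | h
    · left
      refine ⟨h0, ?_⟩
      rw [mem_cellV]
      simp only
      rw [er, hY, e3]
      refine ⟨by linarith, by linarith, h3, h4⟩
    · right
      refine ⟨h0, ?_⟩
      rw [mem_cellV]
      simp only
      rw [er, hY, e3]
      refine ⟨by linarith, by linarith, h3, h4⟩
  · rintro (⟨h0, h⟩ | ⟨h0, h⟩)
    · rw [mem_cellV] at h
      simp only at h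
      rw [er, hY, e3] at h
      obtain ⟨h1, h2, h3, h4⟩ := h
      exact ⟨h0, by linarith, by linarith, h3, h4⟩
    · rw [mem_cellV] at h
      simp only at h
      rw [er, hY, e3] at h
      obtain ⟨h1, h2, h3, h4⟩ := h
      exact ⟨h0, by linarith, by linarith, h3, h4⟩

theorem pt_mem' (i : ℤ) : d.pt i ∈ cellV d.T' (i - 1, d.Y) ∧ d.pt i ∈ cellV d.T' (i, d.Y) := by
  have hr := d.r_pos
  have hY := d.Y_r
  have er : (3 : ℤ) ^ d.T' = d.r := rfl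
  have e3 : (d.Y + 1) * d.r = d.y₁ + d.r := by rw [← hY]; ring
  unfold pt
  rw [mem_cellV, mem_cellV]
  simp only
  rw [er, hY, e3]
  exact ⟨⟨by linarith, by linarith, le_rfl, by linarith⟩, ⟨le_rfl, by linarith, le_rfl, by linarith⟩⟩

theorem pt_VK (hHK : S_HK) {i : ℤ} (h0 : d.i₀ ≤ i) (h1 : i ≤ d.i₁) : d.pt i ∈ VK (Kept d.N) := by
  have hr := d.r_pos
  exact d.side_VK hHK (by linarith [d.i_lo h0]) (by linarith [d.i_hi h1])

theorem B_conn (hHK : S_HK) (hER : S_ER) (hES : S_ES) {i : ℤ} (h0 : d.i₀ ≤ i) (h1 : i ≤ d.i₁) :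
    Conn (Kept d.N) (d.B i) := by
  rw [B_eq]
  have hpt := d.pt_mem' i
  have hv := d.pt_VK hHK h0 h1
  unfold i₀ at h0
  unfold i₁ at h1
  exact hES.2.2 _ _ _ (hER d.N d.T' (by unfold N; omega) _ (d.kept_row hHK (by linarith) (by linarith)))
    (hER d.N d.T' (by unfold N; omega) _ (d.kept_row hHK (by linarith) (by linarith)))
    ⟨d.pt i, ⟨hv, hpt.1⟩, ⟨hv, hpt.2⟩⟩

theorem B_edge {i : ℤ} (h0 : d.i₀ ≤ i) (h1 : i ≤ d.i₁) {e : Ed} (he : tl e ∈ d.B i ∨ hd e ∈ d.B i) :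
    e ∈ cellE d.T d.Q := by
  rcases he with he | he
  · obtain ⟨a1, a2, a3, a4⟩ := d.B_near h0 h1 he
    exact d.edge_vertex (Or.inl rfl) a1 a2 a3 a4
  · obtain ⟨a1, a2, a3, a4⟩ := d.B_near h0 h1 he
    exact d.edge_vertex (Or.inr rfl) a1 a2 a3 a4

theorem B_side (hHK : S_HK) {i : ℤ} {x : ℤ} (h1 : d.x₀ ≤ x) (h2 : x ≤ d.x₁)
    (h3 : |x - i * d.r| ≤ d.r) : ((x, d.y₁) : Pt) ∈ d.B i := by
  have hr := d.r_pos
  rw [abs_le] at h3
  exact ⟨d.side_VK hHK h1 h2, by simp only; linarith, by simp only; linarith, le_rfl,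
    by simp only; linarith⟩

/-- the function `v` has the right sign at all faces of the block -/
theorem blk_pos (hHK : S_HK) {p : ℝ} {D : Dat p} {L : ℕ} {u v : Pt → ℝ} (S : Sit p D d.N d.T L d.Q u v)
    {i : ℤ} (h0 : d.i₀ ≤ i) (h1 : i ≤ d.i₁) {h : ℝ}
    (hpos : ∀ f ∈ outF d.x₀ d.x₁ d.y₀ d.y₁ (d.B i), h < v f) {f : Pt} (hf : f ∈ blk d.T' (d.pt i)) :
    h < v f := by
  have hr := d.r_pos
  have a := d.i_lo h0
  have b := d.i_hi h1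
  have hP := d.P_ge
  have hy := d.y₁_eq
  have er : (3 : ℤ) ^ d.T' = d.r := rfl
  have hY := d.Y_r
  obtain ⟨m, k⟩ := f
  unfold blk pt at hf
  rw [mem_box, er] at hf
  simp only at hf
  obtain ⟨f1, f2, f3, f4⟩ := hf
  -- a face of the block with a corner in `VK` is in `outF`
  have out : ∀ (g x : Pt), d.y₁ ≤ g.2 → IsCor x g → x ∈ d.B i → h < v g := by
    intro g x hg hx hxB
    apply hpos
    refine ⟨?_, x, hxB, hx⟩
    intro hgb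
    rw [mem_box] at hgb
    linarith [hgb.2.2.2]
  induction m, f1 using Int.leInduction with
  | base =>
    -- first column of the left cell
    have hk : ((i * d.r - d.r, k) : Pt) ∈ Kept d.N := by
      have hrow : ((i - 1, d.Y) : Pt) ∈ Kept (d.N - d.T') := by
        unfold i₀ at h0
        unfold i₁ at h1
        exact d.kept_row hHK (by linarith) (by linarith)
      have hN : d.N = (d.N - d.T') + d.T' := by unfold N; omega
      rw [hN]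
      apply bdry_kept hHK hrow
      · rw [mem_cell]
        simp only
        rw [er, hY]
        have e3 : (d.Y + 1) * d.r = d.y₁ + d.r := by rw [← hY]; ring
        rw [e3]
        refine ⟨by linarith, by linarith, f3, f4⟩
      · left
        simp only
        rw [er]
        ring
    refine out _ (i * d.r - d.r, k) f3 ⟨Or.inl rfl, Or.inl rfl⟩ ⟨⟨_, hk, Or.inl rfl, Or.inl rfl⟩, ?_, ?_, ?_, ?_⟩ <;>
      simp only <;> linarith
  | succ m hm ih =>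
    have ih' := ih (by linarith)
    by_cases k1 : ((m + 1, k) : Pt) ∈ Kept d.N
    · refine out _ (m + 1, k) f3 ⟨Or.inl rfl, Or.inl rfl⟩ ⟨⟨_, k1, Or.inl rfl, Or.inl rfl⟩, ?_, ?_, ?_, ?_⟩ <;>
        simp only <;> linarith
    · by_cases k2 : ((m, k) : Pt) ∈ Kept d.N
      · refine out _ (m + 1, k) f3 ⟨Or.inl rfl, Or.inl rfl⟩ ⟨⟨_, k2, Or.inr rfl, Or.inl rfl⟩, ?_, ?_, ?_, ?_⟩ <;>
          simp only <;> linarith
      · have e1 : lf (true, (m + 1, k)) = (m, k) := by simp [lf]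
        have e2 : rf (true, (m + 1, k)) = (m + 1, k) := by simp [rf]
        have := d.step S (e := (true, (m + 1, k))) (by rw [e1]; exact k2) (by rw [e2]; exact k1)
          (by rw [e1]; simp only; linarith) (by rw [e1]; simp only; linarith)
          (by rw [e1]; simp only; linarith) (by rw [e1]; simp only; linarith)
        rw [e1, e2] at this
        rw [← this]
        exact ih'

theorem blp (hHK : S_HK) (hDA : S_DA) {p q : ℝ} (hc : p.HolderConjugate q) {D : Dat p} {L : ℕ}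
    {u v : Pt → ℝ} (S : Sit p D d.N d.T L d.Q u v)
    {i : ℤ} (h0 : d.i₀ ≤ i) (h1 : i ≤ d.i₁)
    (hpos : ∀ f ∈ outF d.x₀ d.x₁ d.y₀ d.y₁ (d.B i), v (d.x₀, d.y₀) < v f) :
    BlP q d.N d.T' (d.pt i) u (fun f => v f - v (d.x₀, d.y₀)) := by
  have hr := d.r_pos
  have a := d.i_lo h0
  have b := d.i_hi h1
  have hP := d.P_ge
  have hy := d.y₁_eq
  have er : (3 : ℤ) ^ d.T' = d.r := rfl
  refine ⟨?_, ?_, ?_⟩
  · intro e he
    unfold eT at he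
    rw [mem_biUnion] at he
    obtain ⟨f, hf, hef⟩ := he
    have hface := (hDA.2.2.2.2.2.2.1 f e hef).2.2
    unfold blk pt at hf
    rw [mem_box, er] at hf
    simp only at hf
    obtain ⟨f1, f2, f3, f4⟩ := hf
    have heR : e ∈ cellE d.T d.Q :=
      d.edge_face hface (by linarith) (by linarith) (by linarith) (by linarith)
    have hdv : dv (fun f => v f - v (d.x₀, d.y₀)) e = dv v e := by unfold dv; ring
    rw [hdv]
    obtain ⟨g1, g2⟩ := S.pair e heR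
    refine ⟨fun h => ?_, g2⟩
    rw [g1 h, Gr.phi_phi hc]
  · intro f h1 h2 h3 h4
    rw [er] at h1 h2 h3
    unfold pt at h1 h2 h3 h4
    simp only at h1 h2 h3 h4
    have : v f = v (d.x₀, d.y₀) := d.hole_const hHK S (mem_box.2
      ⟨by linarith, by linarith, by linarith, by linarith⟩)
    rw [this, sub_self]
  · intro f hf
    have := d.blk_pos hHK S h0 h1 hpos hf
    linarith

/-! ### energies of blocks -/

theorem cs_in (i : ℤ) {s : ℕ} (hs : s ≤ d.T') (h0 : d.i₀ ≤ i) (h1 : i ≤ d.i₁) :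
    d.cs i s ∈ cell (d.T - s) d.Q := by
  have hW := d.W_ge
  exact d.cs_deep (m := 0) hs (by push_cast; linarith) h0 h1 _ (by rw [dis_le]; simp)

theorem cs_lo (hHK : S_HK) {p : ℝ} {D : Dat p} {L : ℕ} {u v : Pt → ℝ} (S : Sit p D d.N d.T L d.Q u v)
    {i : ℤ} (h0 : d.i₀ ≤ i) (h1 : i ≤ d.i₁) {s : ℕ} (hs : s ≤ d.T') (hL : d.T ≤ s + L) :
    D.mu (d.N - s) (d.cs i s) ≤ 2 * En p (Kept d.N) u (blk s (d.pt i)) := by
  have h2 := S.lo s (by unfold T; omega) hL _ (d.cs_kept hHK hs h0 h1) (d.cs_in i hs h0 h1)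
  have h3 := En_mono p (Kept d.N) u (d.cell_sub_blk (i := i) hs)
  linarith

theorem cs_pos (hHK : S_HK) {p : ℝ} {D : Dat p} {L : ℕ} {u v : Pt → ℝ} (S : Sit p D d.N d.T L d.Q u v)
    {i : ℤ} (h0 : d.i₀ ≤ i) (h1 : i ≤ d.i₁) {s : ℕ} (hs : s ≤ d.T') (hL : d.T ≤ s + L) :
    0 < En p (Kept d.N) u (blk s (d.pt i)) := by
  have h2 := d.cs_lo hHK S h0 h1 hs hL
  have h3 := D.mu_pos _ _ (d.cs_kept hHK hs h0 h1)
  linarith

theorem gro (hHK : S_HK) {p : ℝ} {D : Dat p} {C₁ CJ : ℝ} (hC₁ : 1 ≤ C₁) (hCJ : 1 ≤ CJ)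
    (hDD : ∀ (N T L : ℕ) (Q : Pt) (u v : Pt → ℝ), Sit p D N T L Q u v → ∀ t ≤ T, T ≤ t + L →
      ∀ q ∈ Kept (N - t), Deep 1 t T Q q → En p (Kept N) u (nb 1 t q) ≤ C₁ * D.mu (N - t) q)
    (hDJ : ∀ (n : ℕ), ∀ f ∈ Kept (n + 1), D.mu n (up 1 f) ≤ CJ * D.mu (n + 1) f)
    {L : ℕ} {u v : Pt → ℝ} (S : Sit p D d.N d.T L d.Q u v)
    {i : ℤ} (h0 : d.i₀ ≤ i) (h1 : i ≤ d.i₁) {s : ℕ} (hs : s < d.T') (hL : d.T ≤ s + L) :
    En p (Kept d.N) u (blk (s + 1) (d.pt i)) ≤ 2 * C₁ * CJ * En p (Kept d.N) u (blk s (d.pt i)) := by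
  have hW := d.W_ge
  have a1 := En_mono p (Kept d.N) u (d.blk_sub_nb (i := i) (s := s + 1) (by omega))
  have a2 := hDD _ _ _ _ _ _ S (s + 1) (by unfold T; omega) (by omega) _
    (d.cs_kept hHK (i := i) (s := s + 1) (by omega) h0 h1)
    (d.cs_deep (by omega) (by push_cast; linarith) h0 h1)
  have hk := d.cs_kept hHK (i := i) hs.le h0 h1
  have e : d.N - s = d.N - (s + 1) + 1 := by unfold N; omega
  rw [e] at hk
  have a3 := hDJ _ _ hk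
  rw [← e, d.up_cs hs] at a3
  have a4 := d.cs_lo hHK S h0 h1 hs.le hL
  calc En p (Kept d.N) u (blk (s + 1) (d.pt i)) ≤ C₁ * D.mu (d.N - (s + 1)) (d.cs i (s + 1)) :=
        a1.trans a2
    _ ≤ C₁ * (CJ * D.mu (d.N - s) (d.cs i s)) := mul_le_mul_of_nonneg_left a3 (by linarith)
    _ ≤ C₁ * (CJ * (2 * En p (Kept d.N) u (blk s (d.pt i)))) :=
        mul_le_mul_of_nonneg_left (mul_le_mul_of_nonneg_left a4 (by linarith)) (by linarith)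
    _ = _ := by ring

/-- (III') -/
theorem crs (hDA : S_DA) {p : ℝ} (hp : 1 < p) {D : Dat p} {C₃ CJ εO : ℝ} {mO LO : ℕ} (hεO : 0 < εO)
    (hC₃ : 1 ≤ C₃) (hCJ : 1 ≤ CJ) (hmO : (mO : ℤ) + 2 ≤ d.W)
    (hDD : ∀ (N T L : ℕ) (Q : Pt) (u v : Pt → ℝ), Sit p D N T L Q u v → ∀ t ≤ T, T ≤ t + L →
      ∀ q ∈ Kept (N - t), Deep 3 t T Q q → En p (Kept N) u (nb 3 t q) ≤ C₃ * D.mu (N - t) q)
    (hmu : ∀ (n j : ℕ), ∀ f ∈ Kept (n + j), D.mu n (up j f) ≤ CJ ^ j * D.mu (n + j) f)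
    (hDO : ∀ (N T L : ℕ) (Q : Pt) (u v : Pt → ℝ), Sit p D N T L Q u v → ∀ t ≤ T, T + LO ≤ t + L →
      ∀ q ∈ Kept (N - t), Deep mO t T Q q → ∀ E : Set Pt, Conn (Kept N) E →
      (∃ x ∈ E, x ∈ cellV t q) → (∃ x ∈ E, ∀ y ∈ cellV t q, (3 : ℤ) ^ t ≤ dis x y) →
      ∃ x ∈ E, ∃ y ∈ E, εO * D.mu (N - t) q ^ (1 / p) ≤ |u x - u y|)
    {L : ℕ} {u v : Pt → ℝ} (S : Sit p D d.N d.T L d.Q u v)
    {i : ℤ} (h0 : d.i₀ ≤ i) (h1 : i ≤ d.i₁) {s k : ℕ} {c : ℤ} (hk : 1 ≤ k)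
    (hs : d.T + LO + k + 1 ≤ s + L) (hks : k + 1 ≤ s) (hc : |c| * 3 ^ s + 3 ^ s ≤ 3 ^ d.T') :
    Crs p (εO / (C₃ * CJ ^ (k + 1)) ^ (1 / p)) k d.N s ((d.pt i).1 + c * 3 ^ s, (d.pt i).2) u := by
  intro Z hZ hZb hZ2
  obtain ⟨a, haZ, b, hbZ, hab⟩ := hZ2
  have hr := d.r_pos
  have hW := d.W_ge
  have g1 := d.i_lo h0
  have g2 := d.i_hi h1
  have er : (3 : ℤ) ^ d.T' = d.r := rfl
  have hS := pow_pos3 s
  have hsT : s ≤ d.T' := by
    by_contra hcon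
    have h3 : (3 : ℤ) ^ d.T' < 3 ^ s := pow_lt_pow_right₀ (by norm_num) (by omega)
    have h4 : 0 ≤ |c| * 3 ^ s := by positivity
    linarith
  have hcc : |c * 3 ^ s| ≤ d.r - 3 ^ s := by
    rw [abs_mul, abs_of_pos hS, ← er]
    linarith
  rw [abs_le] at hcc
  -- the position of `Z`
  have zone : ∀ x ∈ Z, d.x₀ ≤ x.1 ∧ x.1 ≤ d.x₁ ∧ d.y₁ ≤ x.2 ∧ x.2 ≤ d.y₁ + d.r ∧
      i * d.r + c * 3 ^ s - 3 ^ s ≤ x.1 ∧ x.1 ≤ i * d.r + c * 3 ^ s + 3 ^ s ∧ x.2 ≤ d.y₁ + 3 ^ s := by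
    intro x hx
    have h := hZb hx
    have hrs : (3 : ℤ) ^ s ≤ d.r := by
      rw [← er]; exact pow_le_pow_right₀ (by norm_num) hsT
    unfold clB pt at h
    simp only [Set.mem_ofPred_eq] at h
    obtain ⟨k1, k2, k3, k4⟩ := h
    refine ⟨by linarith, by linarith, k3, by linarith, k1, k2, k4⟩
  obtain ⟨z1, z2, z3, z4, z5, z6, z7⟩ := zone a haZ
  obtain ⟨f, hfK, haf⟩ := hZ.1 haZ
  obtain ⟨t, ht⟩ : ∃ t, s = t + (k + 1) := ⟨s - (k + 1), by omega⟩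
  have htT : t ≤ d.T := by unfold T; omega
  have hsT' : s ≤ d.T := by unfold T; omega
  have hTN : d.T ≤ d.N := S.TN
  have hq : up t f ∈ Kept (d.N - t) := hDA.1 d.N t (by omega) f hfK
  have hac : a ∈ cellV t (up t f) := cor_cellV haf
  have hdeep : Deep mO t d.T d.Q (up t f) := d.zone_deep (by omega) hmO hac z1 z2 z3 z4
  have hb : ∀ y ∈ cellV t (up t f), (3 : ℤ) ^ t ≤ dis b y := by
    intro y hy
    by_contra hcon
    push Not at hcon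
    have e1 : (3 : ℤ) ^ (s - k) = 3 * 3 ^ t := by
      have : s - k = t + 1 := by omega
      rw [this, pow_succ]; ring
    rw [e1] at hab
    have hh := pow_pos3 t
    rw [mem_cellV] at hy hac
    obtain ⟨y1, y2, y3, y4⟩ := hy
    obtain ⟨x1, x2, x3, x4⟩ := hac
    have n1 : ((up t f).1 + 1) * 3 ^ t = (up t f).1 * 3 ^ t + 3 ^ t := by ring
    have n2 : ((up t f).2 + 1) * 3 ^ t = (up t f).2 * 3 ^ t + 3 ^ t := by ring
    rw [n1] at y2 x2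
    rw [n2] at y4 x4
    have h5 : dis a b < 3 * 3 ^ t := by
      unfold dis at hcon ⊢
      rw [max_lt_iff] at hcon ⊢
      rw [abs_lt, abs_lt] at hcon
      rw [abs_lt, abs_lt]
      obtain ⟨⟨c1, c2⟩, ⟨c3, c4⟩⟩ := hcon
      refine ⟨⟨by linarith, by linarith⟩, ⟨by linarith, by linarith⟩⟩
    linarith
  obtain ⟨x, hx, y, hy, hxy⟩ := hDO _ _ _ _ _ _ S t htT (by omega) _ hq hdeep Z hZ ⟨a, haZ, hac⟩ ⟨b, hbZ, hb⟩
  refine ⟨x, hx, y, hy, le_trans ?_ hxy⟩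
  -- comparison of the energies
  have hqs : up s f ∈ Kept (d.N - s) := hDA.1 d.N s (by omega) f hfK
  have hacs : a ∈ cellV s (up s f) := cor_cellV haf
  have hdeeps : Deep 3 s d.T d.Q (up s f) := d.zone_deep hsT (by push_cast; linarith) hacs z1 z2 z3 z4
  have hsub : blk s ((d.pt i).1 + c * 3 ^ s, (d.pt i).2) ⊆ nb 3 s (up s f) := by
    intro g hg
    unfold blk pt at hg
    rw [mem_box] at hg
    simp only at hg
    rw [mem_cellV] at hacs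
    obtain ⟨x1, x2, x3, x4⟩ := hacs
    obtain ⟨w1, w2, w3, w4⟩ := hg
    unfold nb
    rw [mem_box]
    push_cast
    have n1 : ((up s f).1 + 1) * 3 ^ s = (up s f).1 * 3 ^ s + 3 ^ s := by ring
    have n2 : ((up s f).2 + 1) * 3 ^ s = (up s f).2 * 3 ^ s + 3 ^ s := by ring
    rw [n1] at x2
    rw [n2] at x4
    refine ⟨by linarith, by linarith, by linarith, by linarith⟩
  have b1 := En_mono p (Kept d.N) u hsub
  have b2 := hDD _ _ _ _ _ _ S s hsT' (by omega) _ hqs hdeeps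
  have b3 : D.mu (d.N - s) (up s f) ≤ CJ ^ (k + 1) * D.mu (d.N - t) (up t f) := by
    have hN : d.N - t = d.N - s + (k + 1) := by omega
    have h5 := hmu (d.N - s) (k + 1) (up t f) (by rw [← hN]; exact hq)
    rw [up_up, ← hN] at h5
    have : k + 1 + t = s := by omega
    rw [this] at h5
    exact h5
  have hμ : 0 < D.mu (d.N - t) (up t f) := D.mu_pos _ _ hq
  have hCp : 0 < C₃ * CJ ^ (k + 1) := by positivity
  have b4 : En p (Kept d.N) u (blk s ((d.pt i).1 + c * 3 ^ s, (d.pt i).2)) ≤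
      (C₃ * CJ ^ (k + 1)) * D.mu (d.N - t) (up t f) := by
    calc _ ≤ C₃ * D.mu (d.N - s) (up s f) := b1.trans b2
      _ ≤ C₃ * (CJ ^ (k + 1) * D.mu (d.N - t) (up t f)) := mul_le_mul_of_nonneg_left b3 (by linarith)
      _ = _ := by ring
  have b5 := Real.rpow_le_rpow (En_nonneg p (Kept d.N) u _) b4 (by positivity : (0 : ℝ) ≤ 1 / p)
  rw [Real.mul_rpow hCp.le hμ.le] at b5
  have hpow : 0 < (C₃ * CJ ^ (k + 1)) ^ (1 / p) := Real.rpow_pos_of_pos hCp _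
  calc _ ≤ εO / (C₃ * CJ ^ (k + 1)) ^ (1 / p) *
        ((C₃ * CJ ^ (k + 1)) ^ (1 / p) * D.mu (d.N - t) (up t f) ^ (1 / p)) :=
        mul_le_mul_of_nonneg_left b5 (by positivity)
    _ = εO * D.mu (d.N - t) (up t f) ^ (1 / p) := by
        field_simp

/-! ### oscillations -/

theorem mu_hi (hDA : S_DA) {p : ℝ} {D : Dat p} {ν : ℝ}
    (h : ∀ (n j : ℕ), ∀ f ∈ Kept (n + j), D.mu (n + j) f ≤ ν ^ j * D.mu n (up j f))
    {s : ℕ} (hs : s ≤ d.T) {q : Pt} (hq : q ∈ Kept (d.N - s)) (hqQ : q ∈ cell (d.T - s) d.Q) :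
    D.mu (d.N - s) q ≤ ν ^ (d.T - s) * D.mu d.n d.Q := by
  have e : d.N - s = d.n + (d.T - s) := by unfold N T at *; omega
  rw [e] at hq ⊢
  have h1 := h d.n (d.T - s) q hq
  rw [(hDA.2.1 _ _ _).1 hqQ] at h1
  exact h1

theorem mu_lo (hDA : S_DA) {p : ℝ} {D : Dat p} {CJ : ℝ}
    (h : ∀ (n j : ℕ), ∀ f ∈ Kept (n + j), D.mu n (up j f) ≤ CJ ^ j * D.mu (n + j) f)
    {s : ℕ} (hs : s ≤ d.T) {q : Pt} (hq : q ∈ Kept (d.N - s)) (hqQ : q ∈ cell (d.T - s) d.Q) :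
    D.mu d.n d.Q ≤ CJ ^ (d.T - s) * D.mu (d.N - s) q := by
  have e : d.N - s = d.n + (d.T - s) := by unfold N T at *; omega
  rw [e] at hq ⊢
  have h1 := h d.n (d.T - s) q hq
  rw [(hDA.2.1 _ _ _).1 hqQ] at h1
  exact h1

theorem osc_cell (hHK : S_HK) (hDA : S_DA) {p : ℝ} (hp : 1 < p) {D : Dat p} {CE ν : ℝ} {mE : ℕ}
    (hCE : 1 ≤ CE) (hmE : (mE : ℤ) + 2 ≤ d.W)
    (hDE : ∀ (N T L : ℕ) (Q : Pt) (u v : Pt → ℝ), Sit p D N T L Q u v → ∀ t ≤ T, T ≤ t + L →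
      ∀ q ∈ Kept (N - t), Deep mE t T Q q → ∀ x ∈ VK (Kept N), ∀ y ∈ VK (Kept N), x ∈ cellV t q →
      y ∈ cellV t q → |u x - u y| ^ p ≤ CE * D.mu (N - t) q)
    (hν : ∀ (n j : ℕ), ∀ f ∈ Kept (n + j), D.mu (n + j) f ≤ ν ^ j * D.mu n (up j f))
    {L : ℕ} {u v : Pt → ℝ} (S : Sit p D d.N d.T L d.Q u v) (hL : d.T ≤ d.T' + L)
    {a : ℤ} (h1 : (3 * d.Q.1 + 1) * d.W ≤ a) (h2 : a < (3 * d.Q.1 + 2) * d.W)
    {x y : Pt} (hx : x ∈ VK (Kept d.N)) (hy : y ∈ VK (Kept d.N)) (hxc : x ∈ cellV d.T' (a, d.Y))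
    (hyc : y ∈ cellV d.T' (a, d.Y)) :
    |u x - u y| ≤ (CE * ν ^ (d.J + 1) * D.mu d.n d.Q) ^ (1 / p) := by
  have hr := d.r_pos
  have hY := d.Y_r
  have er : (3 : ℤ) ^ d.T' = d.r := rfl
  have e3 : (d.Y + 1) * d.r = d.y₁ + d.r := by rw [← hY]; ring
  have hk := d.kept_row hHK h1 h2
  have hdeep : Deep mE d.T' d.T d.Q (a, d.Y) := by
    have g1 : d.x₀ ≤ a * d.r := by
      unfold x₀; rw [P_eq]
      calc (3 * d.Q.1 + 1) * (d.W * d.r) = ((3 * d.Q.1 + 1) * d.W) * d.r := by ring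
        _ ≤ a * d.r := mul_le_mul_of_nonneg_right h1 (by linarith)
    have g2 : a * d.r ≤ d.x₁ := by
      unfold x₁; rw [P_eq]
      calc a * d.r ≤ ((3 * d.Q.1 + 2) * d.W) * d.r := mul_le_mul_of_nonneg_right h2.le (by linarith)
        _ = _ := by ring
    refine d.zone_deep (x := (a * d.r, d.y₁)) le_rfl hmE ?_ g1 g2 le_rfl (by simp only; linarith)
    rw [mem_cellV]
    simp only
    rw [er, hY, e3]
    exact ⟨le_rfl, by linarith, le_rfl, by linarith⟩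
  have hin : ((a, d.Y) : Pt) ∈ cell (d.T - d.T') d.Q := hdeep _ (by rw [dis_le]; simp)
  have b1 := hDE _ _ _ _ _ _ S d.T' (by unfold T; omega) hL _ hk hdeep x hx y hy hxc hyc
  have b2 := d.mu_hi hDA hν (by unfold T; omega) hk hin
  have e4 : d.T - d.T' = d.J + 1 := by unfold T; omega
  rw [e4] at b2
  have b3 : |u x - u y| ^ p ≤ CE * ν ^ (d.J + 1) * D.mu d.n d.Q := by
    calc _ ≤ CE * D.mu (d.N - d.T') (a, d.Y) := b1
      _ ≤ CE * (ν ^ (d.J + 1) * D.mu d.n d.Q) := mul_le_mul_of_nonneg_left b2 (by linarith)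
      _ = _ := by ring
  have hp0 : p ≠ 0 := by linarith
  calc |u x - u y| = (|u x - u y| ^ p) ^ (1 / p) := by
        rw [← Real.rpow_mul (abs_nonneg _), mul_one_div_cancel hp0, Real.rpow_one]
    _ ≤ _ := Real.rpow_le_rpow (Real.rpow_nonneg (abs_nonneg _) _) b3 (by positivity)

theorem osc_B (hHK : S_HK) (hDA : S_DA) {p : ℝ} (hp : 1 < p) {D : Dat p} {CE ν : ℝ} {mE : ℕ}
    (hCE : 1 ≤ CE) (hmE : (mE : ℤ) + 2 ≤ d.W)
    (hDE : ∀ (N T L : ℕ) (Q : Pt) (u v : Pt → ℝ), Sit p D N T L Q u v → ∀ t ≤ T, T ≤ t + L →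
      ∀ q ∈ Kept (N - t), Deep mE t T Q q → ∀ x ∈ VK (Kept N), ∀ y ∈ VK (Kept N), x ∈ cellV t q →
      y ∈ cellV t q → |u x - u y| ^ p ≤ CE * D.mu (N - t) q)
    (hν : ∀ (n j : ℕ), ∀ f ∈ Kept (n + j), D.mu (n + j) f ≤ ν ^ j * D.mu n (up j f))
    {L : ℕ} {u v : Pt → ℝ} (S : Sit p D d.N d.T L d.Q u v) (hL : d.T ≤ d.T' + L)
    {i : ℤ} (h0 : d.i₀ ≤ i) (h1 : i ≤ d.i₁) {x y : Pt} (hx : x ∈ d.B i) (hy : y ∈ d.B i) :
    |u x - u y| ≤ 2 * (CE * ν ^ (d.J + 1) * D.mu d.n d.Q) ^ (1 / p) := by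
  have key : ∀ x ∈ d.B i, |u x - u (d.pt i)| ≤ (CE * ν ^ (d.J + 1) * D.mu d.n d.Q) ^ (1 / p) := by
    intro x hx
    have hpt := d.pt_mem' i
    have hv := d.pt_VK hHK h0 h1
    rw [B_eq] at hx
    unfold i₀ at h0
    unfold i₁ at h1
    rcases hx with ⟨hxV, hxc⟩ | ⟨hxV, hxc⟩
    · exact d.osc_cell hHK hDA hp hCE hmE hDE hν S hL (by linarith) (by linarith) hxV hv hxc hpt.1
    · exact d.osc_cell hHK hDA hp hCE hmE hDE hν S hL (by linarith) (by linarith) hxV hv hxc hpt.2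
  have a1 := key x hx
  have a2 := key y hy
  rw [abs_le] at a1 a2 ⊢
  constructor <;> linarith [a1.1, a1.2, a2.1, a2.2]

theorem not_const (hHK : S_HK) (hDA : S_DA) {p : ℝ} (hp : 1 < p) {D : Dat p}
    {L : ℕ} {u v : Pt → ℝ} (S : Sit p D d.N d.T L d.Q u v) (hL : d.T ≤ d.T' + L)
    {i : ℤ} (h0 : d.i₀ ≤ i) (h1 : i ≤ d.i₁) : ∃ x ∈ d.B i, ∃ y ∈ d.B i, u x ≠ u y := by
  by_contra hcon
  push Not at hcon
  have hpos := d.cs_pos hHK S h0 h1 le_rfl hL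
  have hz : En p (Kept d.N) u (blk d.T' (d.pt i)) = 0 := by
    unfold En
    apply sum_eq_zero
    intro f hf
    rw [mem_filter] at hf
    obtain ⟨hfb, hfK⟩ := hf
    have er : (3 : ℤ) ^ d.T' = d.r := rfl
    unfold blk pt at hfb
    rw [mem_box, er] at hfb
    simp only at hfb
    obtain ⟨f1, f2, f3, f4⟩ := hfb
    have hcor : ∀ x, IsCor x f → x ∈ d.B i := by
      intro x hx
      refine ⟨⟨f, hfK, hx⟩, ?_⟩
      obtain ⟨c1, c2⟩ := hx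
      refine ⟨?_, ?_, ?_, ?_⟩
      · rcases c1 with c1 | c1 <;> linarith
      · rcases c1 with c1 | c1 <;> linarith
      · rcases c2 with c2 | c2 <;> linarith
      · rcases c2 with c2 | c2 <;> linarith
    unfold fe
    apply sum_eq_zero
    intro e he
    obtain ⟨g1, g2, -⟩ := hDA.2.2.2.2.2.2.1 f e he
    have : du u e = 0 := by
      unfold du
      rw [hcon _ (hcor _ g2) _ (hcor _ g1), sub_self]
    rw [this, abs_zero, Real.zero_rpow (by linarith)]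
  linarith

theorem osc_seg (hHK : S_HK) (hDA : S_DA) (hES : S_ES) {p : ℝ} (hp : 1 < p) {D : Dat p} {CJ εO : ℝ}
    {mO LO M : ℕ} (hεO : 0 < εO) (hCJ : 1 ≤ CJ) (hM : 1 ≤ M) (hMJ : M ≤ d.J) (hmO : (mO : ℤ) + 1 ≤ 3 ^ M)
    (hmu : ∀ (n j : ℕ), ∀ f ∈ Kept (n + j), D.mu n (up j f) ≤ CJ ^ j * D.mu (n + j) f)
    (hDO : ∀ (N T L : ℕ) (Q : Pt) (u v : Pt → ℝ), Sit p D N T L Q u v → ∀ t ≤ T, T + LO ≤ t + L →
      ∀ q ∈ Kept (N - t), Deep mO t T Q q → ∀ E : Set Pt, Conn (Kept N) E →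
      (∃ x ∈ E, x ∈ cellV t q) → (∃ x ∈ E, ∀ y ∈ cellV t q, (3 : ℤ) ^ t ≤ dis x y) →
      ∃ x ∈ E, ∃ y ∈ E, εO * D.mu (N - t) q ^ (1 / p) ≤ |u x - u y|)
    {L : ℕ} {u v : Pt → ℝ} (S : Sit p D d.N d.T L d.Q u v) (hL : LO + M + 1 ≤ L) :
    ∃ x x' : ℤ, d.i₀ * d.r ≤ x ∧ x ≤ d.i₁ * d.r ∧ d.i₀ * d.r ≤ x' ∧ x' ≤ d.i₁ * d.r ∧
      εO * (D.mu d.n d.Q / CJ ^ (M + 1)) ^ (1 / p) ≤ u (x', d.y₁) - u (x, d.y₁) := by
  have hr := d.r_pos
  have hW := d.W_ge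
  have hP := d.P_ge
  have hx := d.x₁_eq
  have e0 := d.i₀_r
  have e1 := d.i₁_r
  obtain ⟨t, ht⟩ : ∃ t, t + M = d.J + d.T' := ⟨d.J + d.T' - M, by omega⟩
  have hJt : d.J + d.T' - t = M := by omega
  have hp3 := pow_pos3 t
  have hPt : d.P = 3 ^ M * 3 ^ t := by unfold P; rw [← pow_add]; congr 1; omega
  have hrt : d.r ≤ 3 ^ t := by unfold r; exact pow_le_pow_right₀ (by norm_num) (by omega)
  have h3M : (3 : ℤ) ≤ 3 ^ M := by
    calc (3 : ℤ) = 3 ^ 1 := by norm_num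
      _ ≤ 3 ^ M := pow_le_pow_right₀ (by norm_num) hM
  have h3P : 3 * 3 ^ t ≤ d.P := by rw [hPt]; exact mul_le_mul_of_nonneg_right h3M hp3.le
  set q : Pt := ((3 * d.Q.1 + 1) * 3 ^ M, (3 * d.Q.2 + 2) * 3 ^ M) with hq
  have hqk : q ∈ Kept (d.N - t) := by
    have h := d.row_kept hHK (t := t) (a := (3 * d.Q.1 + 1) * 3 ^ M) (by omega) (by rw [hJt])
      (by rw [hJt]; nlinarith)
    rw [hJt] at h
    exact h
  have hdeep : Deep mO t d.T d.Q q := d.row_deep ht hmO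
  have q1 : q.1 * 3 ^ t = d.x₀ := by rw [hq]; unfold x₀; rw [hPt]; ring
  have q2 : q.2 * 3 ^ t = d.y₁ := by rw [hq]; unfold y₁; rw [hPt]; ring
  have q3 : (q.1 + 1) * 3 ^ t = d.x₀ + 3 ^ t := by rw [← q1]; ring
  have q4 : (q.2 + 1) * 3 ^ t = d.y₁ + 3 ^ t := by rw [← q2]; ring
  have hE : Conn (Kept d.N) {z : Pt | d.i₀ * d.r ≤ z.1 ∧ z.1 ≤ d.i₁ * d.r ∧ z.2 = d.y₁} := by
    apply hES.1
    · rw [e0, e1]; linarith
    · intro x h1 h2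
      rw [e0] at h1
      rw [e1] at h2
      exact d.side_pres hHK (by linarith) (by linarith)
  have h1 : ∃ x ∈ {z : Pt | d.i₀ * d.r ≤ z.1 ∧ z.1 ≤ d.i₁ * d.r ∧ z.2 = d.y₁}, x ∈ cellV t q := by
    refine ⟨(d.i₀ * d.r, d.y₁), ⟨le_rfl, ?_, rfl⟩, ?_⟩
    · simp only; rw [e0, e1]; linarith
    · rw [mem_cellV, q1, q2, q3, q4]
      simp only
      rw [e0]
      exact ⟨by linarith, by linarith, le_rfl, by linarith⟩
  have h2 : ∃ x ∈ {z : Pt | d.i₀ * d.r ≤ z.1 ∧ z.1 ≤ d.i₁ * d.r ∧ z.2 = d.y₁},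
      ∀ y ∈ cellV t q, (3 : ℤ) ^ t ≤ dis x y := by
    refine ⟨(d.i₁ * d.r, d.y₁), ⟨?_, le_rfl, rfl⟩, ?_⟩
    · simp only; rw [e0, e1]; linarith
    · intro y hy
      rw [mem_cellV, q1, q2, q3, q4] at hy
      unfold dis
      apply le_trans _ (le_max_left _ _)
      apply le_trans _ (le_abs_self _)
      simp only
      rw [e1]
      linarith [hy.2.1]
  obtain ⟨x, hxE, y, hyE, hxy⟩ := hDO _ _ _ _ _ _ S t (by unfold T; omega) (by unfold T; omega) q hqk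
    hdeep _ hE h1 h2
  have hin : q ∈ cell (d.T - t) d.Q := hdeep _ (by rw [dis_le]; simp)
  have b1 := d.mu_lo hDA hmu (s := t) (by unfold T; omega) hqk hin
  have e5 : d.T - t = M + 1 := by unfold T; omega
  rw [e5] at b1
  have hμ := D.mu_pos _ _ hqk
  have hμQ := D.mu_pos _ _ d.hQ
  have hCp : 0 < CJ ^ (M + 1) := by positivity
  have b2 : D.mu d.n d.Q / CJ ^ (M + 1) ≤ D.mu (d.N - t) q := by
    rw [div_le_iff₀ hCp]; linarith
  have b3 : εO * (D.mu d.n d.Q / CJ ^ (M + 1)) ^ (1 / p) ≤ |u x - u y| :=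
    le_trans (mul_le_mul_of_nonneg_left (Real.rpow_le_rpow (by positivity) b2 (by positivity)) hεO.le) hxy
  obtain ⟨x1, x2⟩ := x
  obtain ⟨y1, y2⟩ := y
  obtain ⟨c1, c2, c3⟩ := hxE
  obtain ⟨c4, c5, c6⟩ := hyE
  simp only at c1 c2 c3 c4 c5 c6
  subst c3
  subst c6
  rcases le_total (u (x1, d.y₁)) (u (y1, d.y₁)) with h | h
  · refine ⟨x1, y1, c1, c2, c4, c5, ?_⟩
    rw [abs_sub_comm, abs_of_nonneg (by linarith)] at b3
    exact b3
  · refine ⟨y1, x1, c4, c5, c1, c2, ?_⟩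
    rw [abs_of_nonneg (by linarith)] at b3
    exact b3

/-- the choice of the point on the side -/
theorem choice (hHK : S_HK) (hDA : S_DA) (hEF : S_EF) (hER : S_ER) (hES : S_ES) {p : ℝ} (hp : 1 < p)
    {D : Dat p} {CE ν CJ εO : ℝ} {mE mO LO M : ℕ}
    (hCE : 1 ≤ CE) (hν0 : 0 < ν) (hmE : (mE : ℤ) + 2 ≤ d.W)
    (hDE : ∀ (N T L : ℕ) (Q : Pt) (u v : Pt → ℝ), Sit p D N T L Q u v → ∀ t ≤ T, T ≤ t + L →
      ∀ q ∈ Kept (N - t), Deep mE t T Q q → ∀ x ∈ VK (Kept N), ∀ y ∈ VK (Kept N), x ∈ cellV t q →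
      y ∈ cellV t q → |u x - u y| ^ p ≤ CE * D.mu (N - t) q)
    (hν : ∀ (n j : ℕ), ∀ f ∈ Kept (n + j), D.mu (n + j) f ≤ ν ^ j * D.mu n (up j f))
    (hεO : 0 < εO) (hCJ : 1 ≤ CJ) (hM : 1 ≤ M) (hMJ : M ≤ d.J) (hmO : (mO : ℤ) + 1 ≤ 3 ^ M)
    (hmu : ∀ (n j : ℕ), ∀ f ∈ Kept (n + j), D.mu n (up j f) ≤ CJ ^ j * D.mu (n + j) f)
    (hDO : ∀ (N T L : ℕ) (Q : Pt) (u v : Pt → ℝ), Sit p D N T L Q u v → ∀ t ≤ T, T + LO ≤ t + L →
      ∀ q ∈ Kept (N - t), Deep mO t T Q q → ∀ E : Set Pt, Conn (Kept N) E →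
      (∃ x ∈ E, x ∈ cellV t q) → (∃ x ∈ E, ∀ y ∈ cellV t q, (3 : ℤ) ^ t ≤ dis x y) →
      ∃ x ∈ E, ∃ y ∈ E, εO * D.mu (N - t) q ^ (1 / p) ≤ |u x - u y|)
    (hsm : ν ^ (d.J + 1) < (εO / 8) ^ p / (CE * CJ ^ (M + 1)))
    {L : ℕ} {u v : Pt → ℝ} (S : Sit p D d.N d.T L d.Q u v) (hL : LO + M + 1 ≤ L)
    (hL2 : d.T ≤ d.T' + L) :
    ∃ i, d.i₀ ≤ i ∧ i ≤ d.i₁ ∧ ((∀ f ∈ outF d.x₀ d.x₁ d.y₀ d.y₁ (d.B i), v (d.x₀, d.y₀) < v f) ∨
      (∀ f ∈ outF d.x₀ d.x₁ d.y₀ d.y₁ (d.B i), v f < v (d.x₀, d.y₀))) := by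
  have hr := d.r_pos
  have hμQ := D.mu_pos _ _ d.hQ
  have hp0 : p ≠ 0 := by linarith
  have hCp : 0 < CJ ^ (M + 1) := by positivity
  set ω₁ : ℝ := (CE * ν ^ (d.J + 1) * D.mu d.n d.Q) ^ (1 / p) with hω₁
  have hω0 : 0 ≤ ω₁ := by positivity
  -- smallness
  have small : 8 * ω₁ < εO * (D.mu d.n d.Q / CJ ^ (M + 1)) ^ (1 / p) := by
    have a1 : CE * ν ^ (d.J + 1) * D.mu d.n d.Q < (εO / 8) ^ p * (D.mu d.n d.Q / CJ ^ (M + 1)) := by
      have hCE0 : 0 < CE := by linarith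
      rw [lt_div_iff₀ (by positivity)] at hsm
      rw [mul_div_assoc', lt_div_iff₀ hCp]
      calc CE * ν ^ (d.J + 1) * D.mu d.n d.Q * CJ ^ (M + 1) =
            (ν ^ (d.J + 1) * (CE * CJ ^ (M + 1))) * D.mu d.n d.Q := by ring
        _ < (εO / 8) ^ p * D.mu d.n d.Q := mul_lt_mul_of_pos_right hsm hμQ
    have a2 : ω₁ < ((εO / 8) ^ p * (D.mu d.n d.Q / CJ ^ (M + 1))) ^ (1 / p) :=
      Real.rpow_lt_rpow (by positivity) a1 (by positivity)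
    rw [Real.mul_rpow (by positivity) (by positivity), ← Real.rpow_mul (by positivity),
      mul_one_div_cancel hp0, Real.rpow_one] at a2
    linarith
  obtain ⟨x, x', c1, c2, c3, c4, c5⟩ := d.osc_seg hHK hDA hES hp hεO hCJ hM hMJ hmO hmu hDO S hL
  refine hEF p (Kept d.N) (cellE d.T d.Q) u v d.x₀ d.x₁ d.y₀ d.y₁ (v (d.x₀, d.y₀)) (2 * ω₁) d.r d.i₀ d.i₁
    d.B hp S.pair S.tile (d.hole hHK S) (by linarith) (by linarith) ?_ ?_ ?_ ?_
  · rw [i₀_r]; linarith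
  · rw [i₁_r]; linarith
  · intro i h0 h1
    refine ⟨d.B_conn hHK hER hES h0 h1, ?_, ?_, ?_, ?_⟩
    · intro x hx y hy
      exact d.osc_B hHK hDA hp hCE hmE hDE hν S hL2 h0 h1 hx hy
    · exact d.not_const hHK hDA hp S hL2 h0 h1
    · intro e he
      exact d.B_edge h0 h1 he
    · intro x h2 h3 h4
      exact d.B_side hHK h2 h3 h4
  · refine ⟨x, x', c1, c2, c3, c4, ?_⟩
    linarith

/-- everything for a point with the right sign -/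
theorem core (hHK : S_HK) (hDA : S_DA) {p q : ℝ} (hp : 1 < p) (hc : p.HolderConjugate q)
    {D : Dat p} {C₁ C₃ CJ εO : ℝ} {mO LO n : ℕ} (hC₁ : 1 ≤ C₁) (hC₃ : 1 ≤ C₃)
    (hCJ : 1 ≤ CJ) (hεO : 0 < εO) (hmO : (mO : ℤ) + 2 ≤ d.W)
    (hDD1 : ∀ (N T L : ℕ) (Q : Pt) (u v : Pt → ℝ), Sit p D N T L Q u v → ∀ t ≤ T, T ≤ t + L →
      ∀ q ∈ Kept (N - t), Deep 1 t T Q q → En p (Kept N) u (nb 1 t q) ≤ C₁ * D.mu (N - t) q)
    (hDD3 : ∀ (N T L : ℕ) (Q : Pt) (u v : Pt → ℝ), Sit p D N T L Q u v → ∀ t ≤ T, T ≤ t + L →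
      ∀ q ∈ Kept (N - t), Deep 3 t T Q q → En p (Kept N) u (nb 3 t q) ≤ C₃ * D.mu (N - t) q)
    (hDJ : ∀ (n : ℕ), ∀ f ∈ Kept (n + 1), D.mu n (up 1 f) ≤ CJ * D.mu (n + 1) f)
    (hmu : ∀ (n j : ℕ), ∀ f ∈ Kept (n + j), D.mu n (up j f) ≤ CJ ^ j * D.mu (n + j) f)
    (hDO : ∀ (N T L : ℕ) (Q : Pt) (u v : Pt → ℝ), Sit p D N T L Q u v → ∀ t ≤ T, T + LO ≤ t + L →
      ∀ q ∈ Kept (N - t), Deep mO t T Q q → ∀ E : Set Pt, Conn (Kept N) E →
      (∃ x ∈ E, x ∈ cellV t q) → (∃ x ∈ E, ∀ y ∈ cellV t q, (3 : ℤ) ^ t ≤ dis x y) →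
      ∃ x ∈ E, ∃ y ∈ E, εO * D.mu (N - t) q ^ (1 / p) ≤ |u x - u y|)
    {L : ℕ} {u v : Pt → ℝ} (S : Sit p D d.N d.T L d.Q u v) (hL : d.J + n + LO + 3 ≤ L)
    {i : ℤ} (h0 : d.i₀ ≤ i) (h1 : i ≤ d.i₁)
    (hpos : ∀ f ∈ outF d.x₀ d.x₁ d.y₀ d.y₁ (d.B i), v (d.x₀, d.y₀) < v f) :
    ∃ (T₀ T' : ℕ) (y : Pt) (u' w : Pt → ℝ), T₀ + n ≤ T' ∧ Flat d.N T' y ∧
      Half p q (2 * C₁ * CJ) (fun k => εO / (C₃ * CJ ^ (k + 1)) ^ (1 / p)) d.N T₀ T' y u' w ∧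
      ∀ s, T₀ ≤ s → s ≤ T' → 0 < En p (Kept d.N) u' (blk s y) := by
  have hLT : L ≤ d.T := S.LT
  have hT : d.T = d.J + d.T' + 1 := rfl
  refine ⟨d.T - L + LO + 1, d.T', d.pt i, u, fun f => v f - v (d.x₀, d.y₀), by omega,
    d.flat hHK h0 h1, ⟨d.blp hHK hDA hc S h0 h1 hpos, ?_, ?_⟩, ?_⟩
  · intro s hs1 hs2
    exact d.gro hHK hC₁ hCJ hDD1 hDJ S h0 h1 hs2 (by omega)
  · intro s k c hk hs hcs
    exact d.crs hDA hp hεO hC₃ hCJ hmO hDD3 hmu hDO S h0 h1 hk (by omega) (by omega) hcs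
  · intro s hs1 hs2
    exact d.cs_pos hHK S h0 h1 hs2 (by omega)

end Dt

theorem pow3_ge {m M : ℕ} (h : m ≤ M) : (m : ℤ) ≤ 3 ^ M := by
  have h1 : M < 3 ^ M := Nat.lt_pow_self (by norm_num)
  have h2 : ((3 ^ M : ℕ) : ℤ) = 3 ^ M := by push_cast; rfl
  rw [← h2]
  exact_mod_cast (by omega : m ≤ 3 ^ M)

/-- [BR] -/
theorem p_BR (hHK : S_HK) (hDA : S_DA) (hDD : S_DD) (hDE : S_DE) (hDJ : S_DJ) (hDO : S_DO) (hEF : S_EF)
    (hER : S_ER) (hES : S_ES) : S_BR := by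
  intro p q hp hp2 hpq D
  have hc : p.HolderConjugate q := by
    rw [Real.holderConjugate_iff]
    refine ⟨hp, ?_⟩
    rw [← one_div, ← one_div]
    exact hpq
  obtain ⟨CE, mE, hCE, hDE'⟩ := hDE p hp D
  obtain ⟨εO, mO, LO, hεO, hDO'⟩ := hDO p hp hp2 D
  obtain ⟨CJ, ν, hCJ, hν0, hν1, hDJ1, hDJ2⟩ := hDJ p hp.le D
  obtain ⟨C₁, hC₁, hDD1⟩ := hDD p hp D 1
  obtain ⟨C₃, hC₃, hDD3⟩ := hDD p hp D 3
  have hmu := mu_up hDA hCJ (fun n f hf => (hDJ1 n f hf).1)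
  have hCJ0 : 0 < CJ := by linarith
  have hC₃0 : 0 < C₃ := by linarith
  have hCE0 : 0 < CE := by linarith
  refine ⟨2 * C₁ * CJ, fun k => εO / (C₃ * CJ ^ (k + 1)) ^ (1 / p), fun k => by positivity, fun n => ?_⟩
  have hθ : 0 < (εO / 8) ^ p / (CE * CJ ^ (mO + 1 + 1)) := by positivity
  obtain ⟨J₁, hJ₁⟩ := exists_pow_lt_of_lt_one hθ hν1
  obtain ⟨J, hJ⟩ : ∃ J, J = J₁ + mE + mO + 5 := ⟨_, rfl⟩
  refine ⟨J + n + LO + mO + 6, fun N T L Q u v S hL => ?_⟩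
  have hLT := S.LT
  have hTN := S.TN
  obtain ⟨T', hT'⟩ : ∃ T', T = J + T' + 1 := ⟨T - J - 1, by omega⟩
  subst hT'
  obtain ⟨nn, hnn⟩ : ∃ nn, N = nn + 1 + (J + T') := ⟨N - (J + T' + 1), by omega⟩
  subst hnn
  have hQ : Q ∈ Kept nn := by
    have h := S.hQ
    have e : nn + 1 + (J + T') - (J + T' + 1) = nn := by omega
    rw [e] at h
    exact h
  let d : Dt := ⟨nn, J, T', Q, hQ, by omega⟩
  have S' : Sit p D d.N d.T L d.Q u v := S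
  have hdJ : d.J = J := rfl
  have hdT' : d.T' = T' := rfl
  have hdT : d.T = J + T' + 1 := rfl
  have hW1 : (mE : ℤ) + 2 ≤ d.W := by
    have := pow3_ge (m := mE + 2) (M := J) (by omega)
    push_cast at this
    exact this
  have hW2 : (mO : ℤ) + 2 ≤ d.W := by
    have := pow3_ge (m := mO + 2) (M := J) (by omega)
    push_cast at this
    exact this
  have hM : (mO : ℤ) + 1 ≤ 3 ^ (mO + 1) := by
    have := pow3_ge (m := mO + 1) (M := mO + 1) le_rfl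
    push_cast at this
    exact this
  have hsm : ν ^ (d.J + 1) < (εO / 8) ^ p / (CE * CJ ^ (mO + 1 + 1)) :=
    lt_of_le_of_lt (pow_le_pow_of_le_one hν0.le hν1.le (by omega)) hJ₁
  obtain ⟨i, h0, h1, hpos | hneg⟩ := d.choice hHK hDA hEF hER hES hp hCE hν0 hW1 hDE' hDJ2 hεO hCJ
    (M := mO + 1) (by omega) (by omega) hM hmu hDO' hsm S' (by omega) (by omega)
  · exact d.core hHK hDA hp hc hC₁ hC₃ hCJ hεO hW2 hDD1 hDD3 (fun n f hf => (hDJ1 n f hf).1) hmu hDO' S'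
      (by omega) h0 h1 hpos
  · exact d.core hHK hDA hp hc hC₁ hC₃ hCJ hεO hW2 hDD1 hDD3 (fun n f hf => (hDJ1 n f hf).1) hmu hDO'
      (sit_neg S') (by omega) h0 h1 (fun f hf => neg_lt_neg (hneg f hf))

end CarpetPI.Br
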