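import Pool.Agent.Lib.MP_1d263a_an.PI.StmBR
import Pool.Agent.Lib.MP_1d263a_an.GR.Bridge

/-!
# MP_1d263a_an, project PI: geometry for the bridge `S_BR`

`T = J + T' + 1`, `P = 3 ^ (J + T')` is the side of the central hole of the cell `Q` of size `3 ^ T`.
-/

open Finset
open scoped Classical

noncomputable section

namespace CarpetPI.Br

theorem mem_box {a b c d : ℤ} {f : Pt} : f ∈ box a b c d ↔ a ≤ f.1 ∧ f.1 < b ∧ c ≤ f.2 ∧ f.2 < d := by
  unfold box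
  rw [mem_product, mem_Ico, mem_Ico]
  tauto

theorem mem_cell {t : ℕ} {q f : Pt} : f ∈ cell t q ↔ q.1 * 3 ^ t ≤ f.1 ∧ f.1 < (q.1 + 1) * 3 ^ t ∧
    q.2 * 3 ^ t ≤ f.2 ∧ f.2 < (q.2 + 1) * 3 ^ t := mem_box

theorem mem_cellV {t : ℕ} {q x : Pt} : x ∈ cellV t q ↔ q.1 * 3 ^ t ≤ x.1 ∧ x.1 ≤ (q.1 + 1) * 3 ^ t ∧
    q.2 * 3 ^ t ≤ x.2 ∧ x.2 ≤ (q.2 + 1) * 3 ^ t := Iff.rfl

theorem pow_pos3 (t : ℕ) : (0 : ℤ) < 3 ^ t := by positivity

theorem one_le_pow3 (t : ℕ) : (1 : ℤ) ≤ 3 ^ t := pow_pos3 t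

theorem dis_le {x y : Pt} {m : ℤ} : dis x y ≤ m ↔ |x.1 - y.1| ≤ m ∧ |x.2 - y.2| ≤ m := by
  unfold dis; exact max_le_iff

/-! ### kept faces -/

theorem kept_one {c : Pt} (hc : c ∈ kids) : c ∈ Kept 1 := by
  unfold kids at hc
  rw [mem_erase, mem_box] at hc
  obtain ⟨hne, h1, h2, h3, h4⟩ := hc
  refine ⟨h1, by simpa using h2, h3, by simpa using h4, ?_⟩
  intro k hk
  have hk0 : k = 0 := by omega
  subst hk0
  rintro ⟨h5, h6⟩
  apply hne
  rw [pow_zero, Int.ediv_one] at h5 h6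
  ext <;> simp <;> omega

theorem not_kept_one : ((1, 1) : Pt) ∉ Kept 1 := by
  rintro ⟨-, -, -, -, h⟩
  exact h 0 (by norm_num) ⟨by norm_num, by norm_num⟩

theorem kid_mem_cell {Q c : Pt} (hc : c ∈ box 0 3 0 3) : kid Q c ∈ cell 1 Q := by
  rw [mem_box] at hc
  rw [mem_cell]
  unfold kid
  obtain ⟨h1, h2, h3, h4⟩ := hc
  refine ⟨?_, ?_, ?_, ?_⟩ <;> simp only [pow_one] <;> omega

theorem kid_kept (hHK : S_HK) {n : ℕ} {Q c : Pt} (hQ : Q ∈ Kept n) (hc : c ∈ kids) :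
    kid Q c ∈ Kept (n + 1) := by
  have hcb : c ∈ box 0 3 0 3 := (mem_erase.1 hc).2
  rw [hHK.1 n 1 Q (kid Q c) (kid_mem_cell hcb)]
  refine ⟨hQ, ?_⟩
  have : (((kid Q c).1 - Q.1 * 3 ^ 1, (kid Q c).2 - Q.2 * 3 ^ 1) : Pt) = c := by
    unfold kid; ext <;> simp <;> ring
  rw [this]
  exact kept_one hc

theorem kid_not_kept (hHK : S_HK) {n : ℕ} {Q : Pt} : kid Q (1, 1) ∉ Kept (n + 1) := by
  rw [hHK.1 n 1 Q (kid Q (1, 1)) (kid_mem_cell (by rw [mem_box]; norm_num))]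
  rintro ⟨-, h⟩
  have : (((kid Q (1, 1)).1 - Q.1 * 3 ^ 1, (kid Q (1, 1)).2 - Q.2 * 3 ^ 1) : Pt) = (1, 1) := by
    unfold kid; ext <;> simp <;> ring
  rw [this] at h
  exact not_kept_one h

/-- faces at the boundary of a kept cell are kept -/
theorem bdry_kept (hHK : S_HK) {n m : ℕ} {q f : Pt} (hq : q ∈ Kept n) (hf : f ∈ cell m q)
    (hb : f.1 = q.1 * 3 ^ m ∨ f.1 + 1 = (q.1 + 1) * 3 ^ m ∨ f.2 = q.2 * 3 ^ m ∨
      f.2 + 1 = (q.2 + 1) * 3 ^ m) : f ∈ Kept (n + m) := by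
  rw [hHK.1 n m q f hf]
  refine ⟨hq, ?_⟩
  rw [mem_cell] at hf
  obtain ⟨h1, h2, h3, h4⟩ := hf
  have e1 : (q.1 + 1) * 3 ^ m = q.1 * 3 ^ m + 3 ^ m := by ring
  have e2 : (q.2 + 1) * 3 ^ m = q.2 * 3 ^ m + 3 ^ m := by ring
  rw [e1, e2] at hb
  rw [e1] at h2
  rw [e2] at h4
  apply hHK.2.1 m
  · rw [mem_cell]
    refine ⟨?_, ?_, ?_, ?_⟩ <;> simp <;> linarith
  · rcases hb with hb | hb | hb | hb
    · left; simp; linarith
    · right; left; simp; linarith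
    · right; right; left; simp; linarith
    · right; right; right; simp; linarith

theorem hole_not_kept (hHK : S_HK) {n m : ℕ} {Q f : Pt} (hf : f ∈ cell m (kid Q (1, 1))) :
    f ∉ Kept (n + 1 + m) := by
  rw [hHK.1 (n + 1) m (kid Q (1, 1)) f hf]
  rintro ⟨h, -⟩
  exact kid_not_kept hHK h

theorem mem_kids {a b : ℤ} (ha : 0 ≤ a) (ha' : a < 3) (hb : 0 ≤ b) (hb' : b < 3)
    (h : ¬ (a = 1 ∧ b = 1)) : ((a, b) : Pt) ∈ kids := by
  unfold kids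
  rw [mem_erase, mem_box]
  refine ⟨?_, ha, ha', hb, hb'⟩
  intro hh
  apply h
  simpa using hh

/-! ### the hole -/

/-- data: the cell `Q` of size `3 ^ (J + T' + 1)`, `N = n + (J + T' + 1)` -/
structure Dt where
  n : ℕ
  J : ℕ
  T' : ℕ
  Q : Pt
  hQ : Q ∈ Kept n
  hJ : 2 ≤ J

namespace Dt

variable (d : Dt)

def N : ℕ := d.n + 1 + (d.J + d.T')
def T : ℕ := d.J + d.T' + 1
/-- side of the hole -/
def P : ℤ := 3 ^ (d.J + d.T')
/-- side of the blocks -/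
def r : ℤ := 3 ^ d.T'
def W : ℤ := 3 ^ d.J
def x₀ : ℤ := (3 * d.Q.1 + 1) * d.P
def x₁ : ℤ := (3 * d.Q.1 + 2) * d.P
def y₀ : ℤ := (3 * d.Q.2 + 1) * d.P
def y₁ : ℤ := (3 * d.Q.2 + 2) * d.P
/-- the number of the row of blocks above the hole -/
def Y : ℤ := (3 * d.Q.2 + 2) * d.W

theorem P_eq : d.P = d.W * d.r := by unfold P W r; rw [pow_add]
theorem r_pos : 1 ≤ d.r := one_le_pow3 _
theorem W_ge : 9 ≤ d.W := by
  unfold W
  calc (9 : ℤ) = 3 ^ 2 := by norm_num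
    _ ≤ 3 ^ d.J := pow_le_pow_right₀ (by norm_num) d.hJ
theorem P_pos : 0 < d.P := pow_pos3 _
theorem P_ge : 9 * d.r ≤ d.P := by
  rw [P_eq]
  have := d.W_ge
  have := d.r_pos
  nlinarith
theorem three_P : (3 : ℤ) ^ d.T = 3 * d.P := by unfold T P; rw [pow_succ]; ring
theorem Y_r : d.Y * d.r = d.y₁ := by unfold Y y₁; rw [P_eq]; ring
theorem x₁_eq : d.x₁ = d.x₀ + d.P := by unfold x₁ x₀; ring
theorem y₁_eq : d.y₁ = d.y₀ + d.P := by unfold y₁ y₀; ring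

/-- everything near the hole and the blocks above it is in the closed cell -/
theorem in_cellV {x : Pt} (h1 : d.x₀ - d.r ≤ x.1) (h2 : x.1 ≤ d.x₁ + d.r) (h3 : d.y₀ - d.r ≤ x.2)
    (h4 : x.2 ≤ d.y₁ + 2 * d.r) : x ∈ cellV d.T d.Q := by
  rw [mem_cellV, three_P]
  have hP := d.P_ge
  have hr := d.r_pos
  unfold x₀ at h1
  unfold x₁ at h2
  unfold y₀ at h3
  unfold y₁ at h4
  refine ⟨?_, ?_, ?_, ?_⟩ <;> linarith

theorem hole_face {f : Pt} : f ∈ box d.x₀ d.x₁ d.y₀ d.y₁ ↔ f ∈ cell (d.J + d.T') (kid d.Q (1, 1)) := by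
  rw [mem_box, mem_cell]
  unfold kid x₀ x₁ y₀ y₁ P
  constructor
  · rintro ⟨h1, h2, h3, h4⟩
    refine ⟨h1, ?_, h3, ?_⟩
    · simp only; linarith
    · simp only; linarith
  · rintro ⟨h1, h2, h3, h4⟩
    simp only at h1 h2 h3 h4
    refine ⟨h1, ?_, h3, ?_⟩ <;> linarith

theorem hole_not {f : Pt} (hHK : S_HK) (hf : f ∈ box d.x₀ d.x₁ d.y₀ d.y₁) : f ∉ Kept d.N :=
  hole_not_kept hHK (d.hole_face.1 hf)

/-- faces adjacent to the hole are kept -/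
theorem ring_kept (hHK : S_HK) {f : Pt}
    (h : (d.x₀ ≤ f.1 ∧ f.1 < d.x₁ ∧ (f.2 = d.y₁ ∨ f.2 + 1 = d.y₀)) ∨
      (d.y₀ ≤ f.2 ∧ f.2 < d.y₁ ∧ (f.1 = d.x₁ ∨ f.1 + 1 = d.x₀))) : f ∈ Kept d.N := by
  have hP := d.P_pos
  unfold x₀ x₁ y₀ y₁ at h
  have key : ∀ a b : ℤ, 0 ≤ a → a < 3 → 0 ≤ b → b < 3 → ¬ (a = 1 ∧ b = 1) →
      f ∈ cell (d.J + d.T') (kid d.Q (a, b)) →
      (f.1 = (kid d.Q (a, b)).1 * d.P ∨ f.1 + 1 = ((kid d.Q (a, b)).1 + 1) * d.P ∨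
        f.2 = (kid d.Q (a, b)).2 * d.P ∨ f.2 + 1 = ((kid d.Q (a, b)).2 + 1) * d.P) →
      f ∈ Kept d.N := fun a b ha ha' hb hb' hne hf hbd =>
    bdry_kept hHK (kid_kept hHK d.hQ (mem_kids ha ha' hb hb' hne)) hf hbd
  rcases h with ⟨h1, h2, h3 | h3⟩ | ⟨h1, h2, h3 | h3⟩
  · refine key 1 2 (by norm_num) (by norm_num) (by norm_num) (by norm_num) (by norm_num) ?_ ?_
    · rw [mem_cell]
      change (3 * d.Q.1 + 1) * d.P ≤ f.1 ∧ f.1 < (3 * d.Q.1 + 1 + 1) * d.P ∧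
        (3 * d.Q.2 + 2) * d.P ≤ f.2 ∧ f.2 < (3 * d.Q.2 + 2 + 1) * d.P
      refine ⟨h1, by linarith, by linarith, by linarith⟩
    · right; right; left; exact h3
  · refine key 1 0 (by norm_num) (by norm_num) (by norm_num) (by norm_num) (by norm_num) ?_ ?_
    · rw [mem_cell]
      change (3 * d.Q.1 + 1) * d.P ≤ f.1 ∧ f.1 < (3 * d.Q.1 + 1 + 1) * d.P ∧
        (3 * d.Q.2 + 0) * d.P ≤ f.2 ∧ f.2 < (3 * d.Q.2 + 0 + 1) * d.P
      refine ⟨h1, by linarith, by linarith, by linarith⟩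
    · right; right; right
      change f.2 + 1 = (3 * d.Q.2 + 0 + 1) * d.P
      linarith
  · refine key 2 1 (by norm_num) (by norm_num) (by norm_num) (by norm_num) (by norm_num) ?_ ?_
    · rw [mem_cell]
      change (3 * d.Q.1 + 2) * d.P ≤ f.1 ∧ f.1 < (3 * d.Q.1 + 2 + 1) * d.P ∧
        (3 * d.Q.2 + 1) * d.P ≤ f.2 ∧ f.2 < (3 * d.Q.2 + 1 + 1) * d.P
      refine ⟨by linarith, by linarith, h1, by linarith⟩
    · left; exact h3
  · refine key 0 1 (by norm_num) (by norm_num) (by norm_num) (by norm_num) (by norm_num) ?_ ?_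
    · rw [mem_cell]
      change (3 * d.Q.1 + 0) * d.P ≤ f.1 ∧ f.1 < (3 * d.Q.1 + 0 + 1) * d.P ∧
        (3 * d.Q.2 + 1) * d.P ≤ f.2 ∧ f.2 < (3 * d.Q.2 + 1 + 1) * d.P
      refine ⟨by linarith, by linarith, h1, by linarith⟩
    · right; left
      change f.1 + 1 = (3 * d.Q.1 + 0 + 1) * d.P
      linarith

/-- the cells of size `3^t` in the row above the hole are kept -/
theorem row_kept (hHK : S_HK) {t : ℕ} (ht : t ≤ d.J + d.T') {a : ℤ}
    (h1 : (3 * d.Q.1 + 1) * 3 ^ (d.J + d.T' - t) ≤ a) (h2 : a < (3 * d.Q.1 + 2) * 3 ^ (d.J + d.T' - t)) :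
    ((a, (3 * d.Q.2 + 2) * 3 ^ (d.J + d.T' - t)) : Pt) ∈ Kept (d.N - t) := by
  have hN : d.N - t = d.n + 1 + (d.J + d.T' - t) := by unfold N; omega
  rw [hN]
  have hp := pow_pos3 (d.J + d.T' - t)
  refine bdry_kept hHK (kid_kept hHK d.hQ (mem_kids (a := 1) (b := 2) (by norm_num) (by norm_num)
    (by norm_num) (by norm_num) (by norm_num))) ?_ ?_
  · rw [mem_cell]
    change (3 * d.Q.1 + 1) * 3 ^ (d.J + d.T' - t) ≤ a ∧ a < (3 * d.Q.1 + 1 + 1) * 3 ^ (d.J + d.T' - t) ∧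
      (3 * d.Q.2 + 2) * 3 ^ (d.J + d.T' - t) ≤ (3 * d.Q.2 + 2) * 3 ^ (d.J + d.T' - t) ∧
      (3 * d.Q.2 + 2) * 3 ^ (d.J + d.T' - t) < (3 * d.Q.2 + 2 + 1) * 3 ^ (d.J + d.T' - t)
    refine ⟨h1, by linarith, le_rfl, by linarith⟩
  · right; right; left; rfl

/-- deep cells: a cell (of size `3^t`, `t ≤ T'`) touching the row of blocks above the hole -/
theorem zone_deep {t m : ℕ} (ht : t ≤ d.T') (hm : (m : ℤ) + 2 ≤ d.W) {g x : Pt} (hx : x ∈ cellV t g)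
    (h1 : d.x₀ ≤ x.1) (h2 : x.1 ≤ d.x₁) (h3 : d.y₁ ≤ x.2) (h4 : x.2 ≤ d.y₁ + d.r) :
    Deep m t d.T d.Q g := by
  obtain ⟨b, hb⟩ := Nat.exists_eq_add_of_le ht
  have hTt : d.T - t = d.J + b + 1 := by unfold T; omega
  set X : ℤ := 3 ^ b with hX
  set S : ℤ := 3 ^ t with hS
  have hX1 : 1 ≤ X := one_le_pow3 b
  have hS1 : 0 < S := pow_pos3 t
  have hr : d.r = X * S := by unfold r; rw [hb, hX, hS, pow_add]; ring
  have hP : d.P = d.W * X * S := by rw [P_eq, hr]; ring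
  have hT : (3 : ℤ) ^ (d.T - t) = 3 * (d.W * X) := by
    rw [hTt, pow_succ, pow_add]; unfold W; rw [hX]; ring
  rw [mem_cellV] at hx
  obtain ⟨k1, k2, k3, k4⟩ := hx
  rw [← hS] at k1 k2 k3 k4
  unfold x₀ at h1
  unfold x₁ at h2
  unfold y₁ at h3 h4
  rw [hP] at h1 h2 h3 h4
  rw [hr] at h4
  have a1 : (3 * d.Q.1 + 1) * (d.W * X) ≤ g.1 + 1 := by
    have : (3 * d.Q.1 + 1) * (d.W * X) * S ≤ (g.1 + 1) * S := by linarith
    exact le_of_mul_le_mul_right this hS1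
  have a2 : g.1 ≤ (3 * d.Q.1 + 2) * (d.W * X) := by
    have : g.1 * S ≤ (3 * d.Q.1 + 2) * (d.W * X) * S := by linarith
    exact le_of_mul_le_mul_right this hS1
  have a3 : (3 * d.Q.2 + 2) * (d.W * X) ≤ g.2 + 1 := by
    have : (3 * d.Q.2 + 2) * (d.W * X) * S ≤ (g.2 + 1) * S := by linarith
    exact le_of_mul_le_mul_right this hS1
  have a4 : g.2 ≤ (3 * d.Q.2 + 2) * (d.W * X) + X := by
    have : g.2 * S ≤ ((3 * d.Q.2 + 2) * (d.W * X) + X) * S := by linarith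
    exact le_of_mul_le_mul_right this hS1
  have hWX : (m : ℤ) + 1 + X ≤ d.W * X := by nlinarith
  intro f hf
  rw [dis_le] at hf
  obtain ⟨f1, f2⟩ := hf
  rw [abs_le] at f1 f2
  rw [mem_cell, hT]
  refine ⟨?_, ?_, ?_, ?_⟩ <;> linarith

/-- the cell of size `3^t` at the left end of the upper side of the hole is deep -/
theorem row_deep {t m M : ℕ} (ht : t + M = d.J + d.T') (hm : (m : ℤ) + 1 ≤ 3 ^ M) :
    Deep m t d.T d.Q ((3 * d.Q.1 + 1) * 3 ^ M, (3 * d.Q.2 + 2) * 3 ^ M) := by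
  have hTt : d.T - t = M + 1 := by unfold T; omega
  have hT : (3 : ℤ) ^ (d.T - t) = 3 * 3 ^ M := by rw [hTt, pow_succ]; ring
  intro f hf
  rw [dis_le] at hf
  obtain ⟨f1, f2⟩ := hf
  rw [abs_le] at f1 f2
  simp only at f1 f2
  rw [mem_cell, hT]
  refine ⟨?_, ?_, ?_, ?_⟩ <;> linarith

end Dt

/-! ### edges -/

theorem ends_of_face {e : Ed} {f : Pt} (h : lf e = f ∨ rf e = f) :
    f.1 ≤ (tl e).1 ∧ (tl e).1 ≤ f.1 + 1 ∧ f.2 ≤ (tl e).2 ∧ (tl e).2 ≤ f.2 + 1 ∧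
      f.1 ≤ (hd e).1 ∧ (hd e).1 ≤ f.1 + 1 ∧ f.2 ≤ (hd e).2 ∧ (hd e).2 ≤ f.2 + 1 := by
  obtain ⟨b, x, y⟩ := e
  cases b
  · simp only [lf, rf, tl, hd, Bool.false_eq_true, if_false] at *
    rcases h with h | h <;> subst h <;> simp
  · simp only [lf, rf, tl, hd, if_true] at *
    rcases h with h | h <;> subst h <;> simp

theorem ends_of_vertex {e : Ed} {x : Pt} (h : tl e = x ∨ hd e = x) :
    x.1 - 1 ≤ (tl e).1 ∧ (tl e).1 ≤ x.1 + 1 ∧ x.2 - 1 ≤ (tl e).2 ∧ (tl e).2 ≤ x.2 + 1 ∧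
      x.1 - 1 ≤ (hd e).1 ∧ (hd e).1 ≤ x.1 + 1 ∧ x.2 - 1 ≤ (hd e).2 ∧ (hd e).2 ≤ x.2 + 1 := by
  obtain ⟨b, a, y⟩ := e
  cases b
  · simp only [tl, hd, Bool.false_eq_true, if_false] at *
    rcases h with h | h <;> subst h <;> simp <;> omega
  · simp only [tl, hd, if_true] at *
    rcases h with h | h <;> subst h <;> simp <;> omega

namespace Dt

variable (d : Dt)

/-- edges with an end, or a face, near the hole and the row above it -/
theorem edge_near {e : Ed} (ht : d.x₀ - d.r ≤ (tl e).1 ∧ (tl e).1 ≤ d.x₁ + d.r ∧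
      d.y₀ - d.r ≤ (tl e).2 ∧ (tl e).2 ≤ d.y₁ + 2 * d.r)
    (hh : d.x₀ - d.r ≤ (hd e).1 ∧ (hd e).1 ≤ d.x₁ + d.r ∧
      d.y₀ - d.r ≤ (hd e).2 ∧ (hd e).2 ≤ d.y₁ + 2 * d.r) : e ∈ cellE d.T d.Q :=
  ⟨d.in_cellV ht.1 ht.2.1 ht.2.2.1 ht.2.2.2, d.in_cellV hh.1 hh.2.1 hh.2.2.1 hh.2.2.2⟩

theorem edge_face {e : Ed} {f : Pt} (h : lf e = f ∨ rf e = f) (h1 : d.x₀ ≤ f.1) (h2 : f.1 < d.x₁)
    (h3 : d.y₀ ≤ f.2) (h4 : f.2 < d.y₁ + d.r) : e ∈ cellE d.T d.Q := by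
  have hr := d.r_pos
  obtain ⟨a1, a2, a3, a4, a5, a6, a7, a8⟩ := ends_of_face h
  exact d.edge_near ⟨by linarith, by linarith, by linarith, by linarith⟩
    ⟨by linarith, by linarith, by linarith, by linarith⟩

theorem edge_vertex {e : Ed} {x : Pt} (h : tl e = x ∨ hd e = x) (h1 : d.x₀ ≤ x.1) (h2 : x.1 ≤ d.x₁)
    (h3 : d.y₀ ≤ x.2) (h4 : x.2 ≤ d.y₁ + d.r) : e ∈ cellE d.T d.Q := by
  have hr := d.r_pos
  obtain ⟨a1, a2, a3, a4, a5, a6, a7, a8⟩ := ends_of_vertex h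
  exact d.edge_near ⟨by linarith, by linarith, by linarith, by linarith⟩
    ⟨by linarith, by linarith, by linarith, by linarith⟩

/-- horizontal and vertical steps between absent faces -/
theorem step {p : ℝ} {D : Dat p} {L : ℕ} {u v : Pt → ℝ} (S : Sit p D d.N d.T L d.Q u v) {e : Ed}
    (hl : lf e ∉ Kept d.N) (hr : rf e ∉ Kept d.N) (h1 : d.x₀ ≤ (lf e).1) (h2 : (lf e).1 < d.x₁)
    (h3 : d.y₀ ≤ (lf e).2) (h4 : (lf e).2 < d.y₁ + d.r) : v (lf e) = v (rf e) := by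
  have he := d.edge_face (e := e) (Or.inl rfl) h1 h2 h3 h4
  have hab : ¬ pres (Kept d.N) e := by
    rintro (h | h)
    · exact hl h
    · exact hr h
  have := (S.pair e he).2 hab
  unfold dv at this
  linarith

theorem hole_const (hHK : S_HK) {p : ℝ} {D : Dat p} {L : ℕ} {u v : Pt → ℝ}
    (S : Sit p D d.N d.T L d.Q u v) {f : Pt} (hf : f ∈ box d.x₀ d.x₁ d.y₀ d.y₁) :
    v f = v (d.x₀, d.y₀) := by
  have hr := d.r_pos
  have hP := d.P_pos
  have hx := d.x₁_eq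
  have hy := d.y₁_eq
  -- along the lowest row
  have row : ∀ i : ℤ, d.x₀ ≤ i → i < d.x₁ → v (i, d.y₀) = v (d.x₀, d.y₀) := by
    intro i hi
    induction i, hi using Int.le_induction with
    | base => intro _; rfl
    | succ i hi ih =>
      intro hi2
      rw [← ih (by linarith)]
      have h1 : ((i, d.y₀) : Pt) ∉ Kept d.N := d.hole_not hHK (mem_box.2 ⟨hi, by linarith, le_rfl, by simp only; linarith⟩)
      have h2 : ((i + 1, d.y₀) : Pt) ∉ Kept d.N :=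
        d.hole_not hHK (mem_box.2 ⟨by simp only; linarith, hi2, le_rfl, by simp only; linarith⟩)
      have e1 : lf (true, (i + 1, d.y₀)) = (i, d.y₀) := by simp [lf]
      have e2 : rf (true, (i + 1, d.y₀)) = (i + 1, d.y₀) := by simp [rf]
      have := d.step S (e := (true, (i + 1, d.y₀))) (by rw [e1]; exact h1) (by rw [e2]; exact h2)
        (by rw [e1]; exact hi) (by rw [e1]; simp only; linarith) (by rw [e1])
        (by rw [e1]; simp only; linarith)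
      rw [e1, e2] at this
      exact this.symm
  obtain ⟨i, j⟩ := f
  rw [mem_box] at hf
  obtain ⟨h1, h2, h3, h4⟩ := hf
  simp only at h1 h2 h3 h4
  rw [← row i h1 h2]
  clear row
  induction j, h3 using Int.le_induction with
  | base => rfl
  | succ j hj ih =>
    rw [← ih (by linarith)]
    have g1 : ((i, j) : Pt) ∉ Kept d.N := d.hole_not hHK (mem_box.2 ⟨h1, h2, hj, by simp only; linarith⟩)
    have g2 : ((i, j + 1) : Pt) ∉ Kept d.N :=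
      d.hole_not hHK (mem_box.2 ⟨h1, h2, by simp only; linarith, h4⟩)
    have e1 : lf (false, (i, j + 1)) = (i, j + 1) := by simp [lf]
    have e2 : rf (false, (i, j + 1)) = (i, j) := by simp [rf]
    have := d.step S (e := (false, (i, j + 1))) (by rw [e1]; exact g2) (by rw [e2]; exact g1)
      (by rw [e1]; exact h1) (by rw [e1]; exact h2) (by rw [e1]; simp only; linarith)
      (by rw [e1]; simp only; linarith)
    rw [e1, e2] at this
    exact this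

theorem hole (hHK : S_HK) {p : ℝ} {D : Dat p} {L : ℕ} {u v : Pt → ℝ}
    (S : Sit p D d.N d.T L d.Q u v) :
    Hole (Kept d.N) (cellE d.T d.Q) v d.x₀ d.x₁ d.y₀ d.y₁ (v (d.x₀, d.y₀)) := by
  have hr := d.r_pos
  have hP := d.P_pos
  have hx := d.x₁_eq
  have hy := d.y₁_eq
  refine ⟨by linarith, by linarith, fun f hf => ⟨d.hole_not hHK hf, d.hole_const hHK S hf⟩, ?_⟩
  intro e he
  obtain ⟨b, i, j⟩ := e
  cases b
  · -- horizontal edge: faces (i, j) and (i, j - 1)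
    simp only [lf, rf, Bool.false_eq_true, if_false, mem_box] at he
    by_cases h1 : d.x₀ ≤ i ∧ i < d.x₁ ∧ d.y₀ ≤ j ∧ j < d.y₁
    · obtain ⟨a1, a2, a3, a4⟩ := h1
      have h2 : ¬ (d.x₀ ≤ i ∧ i < d.x₁ ∧ d.y₀ ≤ j - 1 ∧ j - 1 < d.y₁) := by tauto
      have hj : j = d.y₀ := by
        by_contra hne
        apply h2
        refine ⟨a1, a2, ?_, by linarith⟩
        have : d.y₀ < j := lt_of_le_of_ne a3 (Ne.symm hne)
        linarith
      refine ⟨d.edge_face (f := (i, j)) (Or.inl (by simp [lf])) a1 a2 a3 (by simp only; linarith), ?_⟩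
      right
      apply d.ring_kept hHK
      left
      simp only [rf, Bool.false_eq_true, if_false]
      exact ⟨a1, a2, Or.inr (by linarith)⟩
    · have h2 : d.x₀ ≤ i ∧ i < d.x₁ ∧ d.y₀ ≤ j - 1 ∧ j - 1 < d.y₁ := by tauto
      obtain ⟨a1, a2, a3, a4⟩ := h2
      have hj : j = d.y₁ := by
        by_contra hne
        apply h1
        refine ⟨a1, a2, by linarith, ?_⟩
        have : j ≤ d.y₁ := by linarith
        exact lt_of_le_of_ne this hne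
      refine ⟨d.edge_face (f := (i, j - 1)) (Or.inr (by simp [rf])) a1 a2 a3
        (by simp only; linarith), ?_⟩
      left
      apply d.ring_kept hHK
      left
      simp only [lf, Bool.false_eq_true, if_false]
      exact ⟨a1, a2, Or.inl hj⟩
  · -- vertical edge: faces (i - 1, j) and (i, j)
    simp only [lf, rf, if_true, mem_box] at he
    by_cases h1 : d.x₀ ≤ i ∧ i < d.x₁ ∧ d.y₀ ≤ j ∧ j < d.y₁
    · obtain ⟨a1, a2, a3, a4⟩ := h1
      have h2 : ¬ (d.x₀ ≤ i - 1 ∧ i - 1 < d.x₁ ∧ d.y₀ ≤ j ∧ j < d.y₁) := by tauto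
      have hj : i = d.x₀ := by
        by_contra hne
        apply h2
        refine ⟨?_, by linarith, a3, a4⟩
        have : d.x₀ < i := lt_of_le_of_ne a1 (Ne.symm hne)
        linarith
      refine ⟨d.edge_face (f := (i, j)) (Or.inr (by simp [rf])) a1 a2 a3 (by simp only; linarith), ?_⟩
      left
      apply d.ring_kept hHK
      right
      simp only [lf, if_true]
      exact ⟨a3, a4, Or.inr (by linarith)⟩
    · have h2 : d.x₀ ≤ i - 1 ∧ i - 1 < d.x₁ ∧ d.y₀ ≤ j ∧ j < d.y₁ := by tauto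
      obtain ⟨a1, a2, a3, a4⟩ := h2
      have hj : i = d.x₁ := by
        by_contra hne
        apply h1
        refine ⟨by linarith, ?_, a3, a4⟩
        have : i ≤ d.x₁ := by linarith
        exact lt_of_le_of_ne this hne
      refine ⟨d.edge_face (f := (i - 1, j)) (Or.inl (by simp [lf])) a1 a2 a3
        (by simp only; linarith), ?_⟩
      right
      apply d.ring_kept hHK
      right
      simp only [rf, if_true]
      exact ⟨a3, a4, Or.inl hj⟩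

/-- the vertices on the upper side of the hole -/
theorem side_VK (hHK : S_HK) {x : ℤ} (h1 : d.x₀ ≤ x) (h2 : x ≤ d.x₁) :
    ((x, d.y₁) : Pt) ∈ VK (Kept d.N) := by
  have hP := d.P_pos
  have hx := d.x₁_eq
  rcases h2.lt_or_eq with h | h
  · exact ⟨(x, d.y₁), d.ring_kept hHK (Or.inl ⟨h1, h, Or.inl rfl⟩), Or.inl rfl, Or.inl rfl⟩
  · have e : x = x - 1 + 1 := by ring
    exact ⟨(x - 1, d.y₁), d.ring_kept hHK (Or.inl ⟨by simp only; linarith, by simp only; linarith,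
      Or.inl rfl⟩), Or.inr e, Or.inl rfl⟩

theorem side_pres (hHK : S_HK) {x : ℤ} (h1 : d.x₀ ≤ x) (h2 : x < d.x₁) :
    pres (Kept d.N) (false, (x, d.y₁)) := by
  have e : lf (false, (x, d.y₁)) = (x, d.y₁) := by simp [lf]
  left
  rw [e]
  exact d.ring_kept hHK (Or.inl ⟨h1, h2, Or.inl rfl⟩)

end Dt

end CarpetPI.Br
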