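import Pool.Agent.Lib.MP_1d263a_an.PI.StmC

/-! [CARPET CK] the combination for the extensions of a sequence. -/

open Finset
open scoped Classical

noncomputable section

namespace CarpetPI

private theorem ck_fe_nonneg (p : ℝ) (u : Pt → ℝ) (f : Pt) : 0 ≤ fe p u f :=
  Finset.sum_nonneg fun _ _ => Real.rpow_nonneg (abs_nonneg _) _

/-- grouping of faces by cells -/
private theorem ck_group (N m : ℕ) (R : Pt → Prop) (S : Finset Pt) (φ : Pt → ℝ) (hφ : ∀ g, 0 ≤ φ g)
    (hR : ∀ g ∈ Kept N, R g → ∃ Q ∈ S, g ∈ cell (N - m) Q) :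
    ∑ g ∈ ((cell N (0, 0)).filter (· ∈ Kept N)).filter R, φ g ≤
      ∑ Q ∈ S, ∑ g ∈ (cell (N - m) Q).filter (· ∈ Kept N), φ g := by
  have h1 : ∀ g ∈ ((cell N (0, 0)).filter (· ∈ Kept N)).filter R, φ g ≤
      ∑ Q ∈ S, (if g ∈ cell (N - m) Q then φ g else 0) := by
    intro g hg
    obtain ⟨hg1, hg2⟩ := Finset.mem_filter.1 hg
    obtain ⟨-, hg3⟩ := Finset.mem_filter.1 hg1
    obtain ⟨Q, hQ, hgQ⟩ := hR g hg3 hg2
    have h2 := Finset.single_le_sum (f := fun Q => if g ∈ cell (N - m) Q then φ g else 0)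
      (s := S) (fun Q _ => by split_ifs; exacts [hφ g, le_rfl]) hQ
    simpa only [if_pos hgQ] using h2
  refine (Finset.sum_le_sum h1).trans ?_
  rw [Finset.sum_comm]
  refine Finset.sum_le_sum fun Q _ => ?_
  rw [← Finset.sum_filter]
  refine Finset.sum_le_sum_of_subset_of_nonneg ?_ fun g _ _ => hφ g
  intro g hg
  obtain ⟨hg1, hg2⟩ := Finset.mem_filter.1 hg
  obtain ⟨hg3, -⟩ := Finset.mem_filter.1 hg1
  exact Finset.mem_filter.2 ⟨hg2, (Finset.mem_filter.1 hg3).2⟩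

theorem p_CK (hCA : S_CA) (_hCF : S_CF) (hCI : S_CI) (hCJ : S_CJ) : S_CK := by
  intro p D C C₀ k N n m f F B h Λ hp hk hC H
  obtain ⟨-, -, -, hA4, -, hA6, -⟩ := hCA
  have h00 : ((0, 0) : Pt) ∈ Kept 0 := by
    refine ⟨le_rfl, by norm_num, le_rfl, by norm_num, ?_⟩
    intro i hi
    omega
  -- the sets `A_j`
  obtain ⟨inA, hinA⟩ : ∃ inA : ℕ → Pt → Prop, ∀ j g, inA j g ↔
      ∃ Q ∈ Kept (m j), Q ∈ B j ∧ g ∈ cell (N - m j) Q := ⟨_, fun _ _ => Iff.rfl⟩
  obtain ⟨nA, hnA⟩ : ∃ nA : ℕ → Pt → Prop, ∀ j g, nA j g ↔ ¬ inA j g := ⟨_, fun _ _ => Iff.rfl⟩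
  obtain ⟨T, hT⟩ : ∃ T : Pt → ℕ → Prop, ∀ g j, T g j ↔ (nA j g ∨ ∃ i, j < i ∧ i < k ∧ inA i g) :=
    ⟨_, fun _ _ => Iff.rfl⟩
  have hTT : ∀ g, ∀ j < k, ∀ j' < k, ¬ T g j → ¬ T g j' → j = j' := by
    intro g j hj j' hj' h1 h2
    simp only [hT, hnA, not_or, not_not, not_exists, not_and] at h1 h2
    by_contra hne
    rcases Nat.lt_or_gt_of_ne hne with h3 | h3
    · exact h1.2 j' h3 hj' h2.1
    · exact h2.2 j h3 hj h1.1
  have hCJ' : ∀ g, fe p (fun x => (1 / (k : ℝ)) * ∑ j ∈ range k, F j x) g ≤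
      (1 / (k : ℝ)) ^ p * (2 : ℝ) ^ (p - 1) * (∑ j ∈ range k, fe p (F j) g +
        (k : ℝ) ^ (p - 1) * ∑ j ∈ (range k).filter (T g), fe p (F j) g) := fun g =>
    hCJ p k F (T g) g hp hk (hTT g)
  set Fc := (cell N (0, 0)).filter (· ∈ Kept N) with hFc
  -- first sum
  have hfirst : ∑ g ∈ Fc, ∑ j ∈ range k, fe p (F j) g ≤ k * (C * C₀) := by
    rw [Finset.sum_comm]
    have h1 : ∀ j ∈ range k, ∑ g ∈ Fc, fe p (F j) g ≤ C * C₀ := by
      intro j hj
      obtain ⟨H1, H2, H3, H4, H5, H6, H7, H8⟩ := H j (Finset.mem_range.1 hj)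
      have h2 := (hCI p D C (n j) N (f j) (F j) H2 hC H3).1 0 (Nat.zero_le _) (0, 0) h00
      have h3 : GN p N (F j) 0 (0, 0) = ∑ g ∈ Fc, fe p (F j) g := by
        unfold GN En
        rw [Nat.sub_zero]
      have h4 : GN p (n j) (f j) 0 (0, 0) = En p (Kept (n j)) (f j) (cell (n j) (0, 0)) := by
        unfold GN
        rw [Nat.sub_zero]
      rw [h3, h4] at h2
      exact h2.trans (mul_le_mul_of_nonneg_left H6 hC)
    refine (Finset.sum_le_sum h1).trans ?_
    rw [Finset.sum_const, Finset.card_range, nsmul_eq_mul]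
  -- second sum
  have hsecond : ∑ g ∈ Fc, ∑ j ∈ (range k).filter (T g), fe p (F j) g ≤
      ∑ j ∈ range k, (C * h j + ∑ i ∈ (range k).filter (fun i => j < i), C * Λ j * h i) := by
    have h0 : ∑ g ∈ Fc, ∑ j ∈ (range k).filter (T g), fe p (F j) g =
        ∑ j ∈ range k, ∑ g ∈ Fc.filter (fun g => T g j), fe p (F j) g := by
      simp only [Finset.sum_filter]
      rw [Finset.sum_comm]
    rw [h0]
    refine Finset.sum_le_sum fun j hj => ?_
    have hjk := Finset.mem_range.1 hj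
    obtain ⟨H1, H2, H3, H4, H5, H6, H7, H8⟩ := H j hjk
    obtain ⟨I1, I2⟩ := hCI p D C (n j) N (f j) (F j) H2 hC H3
    -- not in `A_j`
    have c1 : ∑ g ∈ Fc.filter (nA j), fe p (F j) g ≤ C * h j := by
      have e1 := ck_group N (m j) (nA j)
        ((cell (m j) (0, 0)).filter (fun Q => Q ∈ Kept (m j) ∧ Q ∉ B j)) (fe p (F j))
        (ck_fe_nonneg p (F j)) (by
          intro g hg hgn
          obtain ⟨Q, hQ, hgQ⟩ := hA4 (m j) (N - m j) g (by
            rwa [Nat.add_sub_cancel' (H1.trans H2)])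
          exact ⟨Q, Finset.mem_filter.2 ⟨hA6 _ Q hQ, hQ,
            fun hQB => (hnA j g).1 hgn ((hinA j g).2 ⟨Q, hQ, hQB, hgQ⟩)⟩, hgQ⟩)
      refine e1.trans ?_
      calc _ ≤ ∑ Q ∈ (cell (m j) (0, 0)).filter (fun Q => Q ∈ Kept (m j) ∧ Q ∉ B j),
            C * GN p (n j) (f j) (m j) Q := by
            refine Finset.sum_le_sum fun Q hQ => ?_
            exact I1 (m j) H1 Q (Finset.mem_filter.1 hQ).2.1
        _ = C * ∑ Q ∈ (cell (m j) (0, 0)).filter (fun Q => Q ∈ Kept (m j) ∧ Q ∉ B j),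
            GN p (n j) (f j) (m j) Q := by rw [Finset.mul_sum]
        _ ≤ C * h j := mul_le_mul_of_nonneg_left H7 hC
    -- in `A_i`
    have c2 : ∀ i ∈ (range k).filter (fun i => j < i),
        ∑ g ∈ Fc.filter (inA i), fe p (F j) g ≤ C * Λ j * h i := by
      intro i hi
      have hik := Finset.mem_range.1 (Finset.mem_filter.1 hi).1
      obtain ⟨G1, G2, G3, G4, G5, G6, G7, G8⟩ := H i hik
      have e1 := ck_group N (m i) (inA i)
        ((cell (m i) (0, 0)).filter (fun Q => Q ∈ Kept (m i) ∧ Q ∈ B i)) (fe p (F j))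
        (ck_fe_nonneg p (F j)) (by
          intro g _ hgi
          obtain ⟨Q, hQ, hQB, hgQ⟩ := (hinA i g).1 hgi
          exact ⟨Q, Finset.mem_filter.2 ⟨hA6 _ Q hQ, hQ, hQB⟩, hgQ⟩)
      refine e1.trans ?_
      calc _ ≤ ∑ Q ∈ (cell (m i) (0, 0)).filter (fun Q => Q ∈ Kept (m i) ∧ Q ∈ B i),
            C * Λ j * D.mu (m i) Q := by
            refine Finset.sum_le_sum fun Q hQ => ?_
            exact I2 (Λ j) H5 (m i) (G1.trans G2) Q (Finset.mem_filter.1 hQ).2.1
        _ = C * Λ j * ∑ Q ∈ (cell (m i) (0, 0)).filter (fun Q => Q ∈ Kept (m i) ∧ Q ∈ B i),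
            D.mu (m i) Q := by rw [Finset.mul_sum]
        _ ≤ C * Λ j * h i := mul_le_mul_of_nonneg_left G8 (mul_nonneg hC H4)
    -- together
    have c3 : ∑ g ∈ Fc.filter (fun g => T g j), fe p (F j) g ≤
        ∑ g ∈ Fc.filter (nA j), fe p (F j) g +
          ∑ i ∈ (range k).filter (fun i => j < i), ∑ g ∈ Fc.filter (inA i), fe p (F j) g := by
      have d1 : ∀ i, ∑ g ∈ Fc.filter (inA i), fe p (F j) g =
          ∑ g ∈ Fc, if inA i g then fe p (F j) g else 0 := fun i => Finset.sum_filter _ _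
      have d2 : ∑ g ∈ Fc.filter (nA j), fe p (F j) g =
          ∑ g ∈ Fc, if nA j g then fe p (F j) g else 0 := Finset.sum_filter _ _
      have d3 : ∑ g ∈ Fc.filter (fun g => T g j), fe p (F j) g =
          ∑ g ∈ Fc, if T g j then fe p (F j) g else 0 := Finset.sum_filter _ _
      simp only [d1]
      rw [d2, d3, Finset.sum_comm, ← Finset.sum_add_distrib]
      refine Finset.sum_le_sum fun g _ => ?_
      have hnn : 0 ≤ ∑ i ∈ (range k).filter (fun i => j < i), (if inA i g then fe p (F j) g else 0) :=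
        Finset.sum_nonneg fun i _ => by split_ifs; exacts [ck_fe_nonneg _ _ _, le_rfl]
      by_cases hTg : T g j
      · rw [if_pos hTg]
        rcases (hT g j).1 hTg with h1 | ⟨i, hi1, hi2, hi3⟩
        · rw [if_pos h1]
          linarith
        · have h2 := Finset.single_le_sum (f := fun i => if inA i g then fe p (F j) g else 0)
            (s := (range k).filter (fun i => j < i))
            (fun i _ => by split_ifs; exacts [ck_fe_nonneg _ _ _, le_rfl])
            (Finset.mem_filter.2 ⟨Finset.mem_range.2 hi2, hi1⟩)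
          simp only [if_pos hi3] at h2
          have h3 : 0 ≤ (if nA j g then fe p (F j) g else 0) := by
            split_ifs
            exacts [ck_fe_nonneg _ _ _, le_rfl]
          linarith
      · rw [if_neg hTg]
        have h3 : 0 ≤ (if nA j g then fe p (F j) g else 0) := by
          split_ifs
          exacts [ck_fe_nonneg _ _ _, le_rfl]
        linarith
    refine c3.trans (add_le_add c1 (Finset.sum_le_sum c2))
  -- conclusion
  have hk0 : (0 : ℝ) < k := by exact_mod_cast hk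
  calc En p (Kept N) (fun x => (1 / (k : ℝ)) * ∑ j ∈ range k, F j x) (cell N (0, 0))
      = ∑ g ∈ Fc, fe p (fun x => (1 / (k : ℝ)) * ∑ j ∈ range k, F j x) g := rfl
    _ ≤ ∑ g ∈ Fc, (1 / (k : ℝ)) ^ p * (2 : ℝ) ^ (p - 1) * (∑ j ∈ range k, fe p (F j) g +
        (k : ℝ) ^ (p - 1) * ∑ j ∈ (range k).filter (T g), fe p (F j) g) :=
        Finset.sum_le_sum fun g _ => hCJ' g
    _ = (1 / (k : ℝ)) ^ p * (2 : ℝ) ^ (p - 1) * (∑ g ∈ Fc, ∑ j ∈ range k, fe p (F j) g +
        (k : ℝ) ^ (p - 1) * ∑ g ∈ Fc, ∑ j ∈ (range k).filter (T g), fe p (F j) g) := by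
        rw [← Finset.mul_sum, Finset.sum_add_distrib, ← Finset.mul_sum]
    _ ≤ _ := by
        refine mul_le_mul_of_nonneg_left ?_ (by positivity)
        exact add_le_add hfirst (mul_le_mul_of_nonneg_left hsecond (by positivity))

end CarpetPI
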