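import Pool.Agent.Lib.MP_1d263a_an.PI.StmC

/-!
# MP_1d263a_an, project PI, part C: the exponent is less than two
-/

open Finset
open scoped Classical

noncomputable section

namespace CarpetPI

private theorem cz_kids_card : kids.card = 8 := by
  unfold kids box
  rw [Finset.card_erase_of_mem (by simp), Finset.card_product]
  simp

/-- number of descendants -/
theorem card_dsc (hCA : S_CA) (n t : ℕ) (q : Pt) (hq : q ∈ Kept n) : (dsc n t q).card = 8 ^ t := by
  induction t with
  | zero =>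
    have : dsc n 0 q = {q} := by
      unfold dsc
      rw [hCA.2.2.2.2.1 q]
      ext x
      simp only [Finset.mem_filter, Finset.mem_singleton, add_zero]
      constructor
      · exact fun h => h.1
      · rintro rfl; exact ⟨rfl, hq⟩
    rw [this]; simp
  | succ t ih =>
    have h1 := hCA.2.1 n t (t + 1) q (fun _ => (1 : ℝ)) (Nat.le_succ t)
    have h2 : ∀ q' ∈ dsc n t q, ∑ f ∈ (cell (t + 1 - t) q').filter (· ∈ Kept (n + (t + 1))), (1 : ℝ) = 8 := by
      intro q' hq'
      have hq'' : q' ∈ Kept (n + t) := (Finset.mem_filter.1 hq').2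
      have h3 := hCA.2.2.1 (n + t) q' hq''
      have h4 : (cell (t + 1 - t) q').filter (· ∈ Kept (n + (t + 1))) = dsc (n + t) 1 q' := by
        unfold dsc
        rw [show t + 1 - t = 1 by omega, show n + (t + 1) = n + t + 1 by omega]
      rw [h4, h3, Finset.sum_const, Finset.card_image_of_injective _ (fun c c' h => hCA.2.2.2.2.2.2 q' c c' h), cz_kids_card]
      norm_num
    rw [Finset.sum_congr rfl h2, Finset.sum_const, Finset.sum_const, ih] at h1
    have h5 : (((dsc n (t + 1) q).card : ℕ) : ℝ) = ((8 ^ t * 8 : ℕ) : ℝ) := by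
      unfold dsc
      simpa using h1
    have h6 := Nat.cast_injective (R := ℝ) h5
    rw [h6, pow_succ]

/-- the exponent of a `p`-PI metric in the gauge is less than two -/
theorem p_lt_two (hCA : S_CA) {p : ℝ} (D : Dat p) : p < 2 := by
  by_contra hp
  push Not at hp
  have hp0 : 0 < p := by linarith
  have key : ∀ t : ℕ, D.A⁻¹ ≤ 2 * (8 / 9 : ℝ) ^ t := by
    intro t
    have hc := D.cap t (fun x => (x.1 : ℝ) / 3 ^ t) (fun j => by simp) (fun j => by simp)
    refine hc.trans ?_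
    have h3 : (0 : ℝ) < 3 ^ t := by positivity
    have hfe : ∀ g : Pt, fe p (fun x => (x.1 : ℝ) / 3 ^ t) g = 2 * ((3 : ℝ) ^ t)⁻¹ ^ p := by
      intro g
      have e1 : ∀ x : Pt, |du (fun x => (x.1 : ℝ) / 3 ^ t) (false, x)| ^ p = ((3 : ℝ) ^ t)⁻¹ ^ p := by
        intro x
        have : du (fun x => (x.1 : ℝ) / 3 ^ t) (false, x) = ((3 : ℝ) ^ t)⁻¹ := by
          show ((x.1 + 1 : ℤ) : ℝ) / 3 ^ t - (x.1 : ℝ) / 3 ^ t = ((3 : ℝ) ^ t)⁻¹
          push_cast
          field_simp
          ring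
        rw [this, abs_of_pos (inv_pos.2 h3)]
      have e2 : ∀ x : Pt, |du (fun x => (x.1 : ℝ) / 3 ^ t) (true, x)| ^ p = 0 := by
        intro x
        have : du (fun x => (x.1 : ℝ) / 3 ^ t) (true, x) = 0 := by
          simp [du, hd, tl]
        rw [this, abs_zero, Real.zero_rpow hp0.ne']
      unfold fe sides
      rw [Finset.sum_insert, Finset.sum_insert, Finset.sum_insert, Finset.sum_singleton, e1, e1, e2, e2]
      · ring
      · simp [Prod.ext_iff]
      · simp
      · simp [Prod.ext_iff]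
    unfold En
    rw [Finset.sum_congr rfl (fun g _ => hfe g), Finset.sum_const]
    have hcard : ((cell t (0, 0)).filter (· ∈ Kept t)).card = 8 ^ t := by
      have h0 : ((0, 0) : Pt) ∈ Kept 0 := by
        refine ⟨le_rfl, by norm_num, le_rfl, by norm_num, fun k hk => absurd hk (Nat.not_lt_zero k)⟩
      have := card_dsc hCA 0 t (0, 0) h0
      unfold dsc at this
      rw [zero_add] at this
      exact this
    rw [hcard, nsmul_eq_mul]
    have h9 : ((3 : ℝ) ^ t)⁻¹ ^ p ≤ ((9 : ℝ) ^ t)⁻¹ := by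
      have h1 : ((3 : ℝ) ^ t)⁻¹ ≤ 1 := inv_le_one_of_one_le₀ (one_le_pow₀ (by norm_num))
      calc ((3 : ℝ) ^ t)⁻¹ ^ p ≤ ((3 : ℝ) ^ t)⁻¹ ^ (2 : ℝ) :=
            Real.rpow_le_rpow_of_exponent_ge (inv_pos.2 h3) h1 hp
        _ = ((9 : ℝ) ^ t)⁻¹ := by
            rw [Real.rpow_two, inv_pow, ← pow_mul, mul_comm t 2, pow_mul]
            norm_num
    calc ((8 ^ t : ℕ) : ℝ) * (2 * ((3 : ℝ) ^ t)⁻¹ ^ p) ≤ ((8 ^ t : ℕ) : ℝ) * (2 * ((9 : ℝ) ^ t)⁻¹) := by gcongr
      _ = 2 * (8 / 9 : ℝ) ^ t := by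
          push_cast
          rw [div_pow]
          ring
  have hlim : Filter.Tendsto (fun t : ℕ => 2 * (8 / 9 : ℝ) ^ t) Filter.atTop (nhds (2 * 0)) :=
    (tendsto_pow_atTop_nhds_zero_of_lt_one (by norm_num) (by norm_num)).const_mul 2
  have hle := ge_of_tendsto' hlim key
  have hA := D.hA
  have : 0 < D.A⁻¹ := inv_pos.2 (by linarith)
  linarith

end CarpetPI
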