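import Pool.Agent.Lib.MP_1d263a_an.PI.StmD

/-!
# MP_1d263a_an, project PI, piece DJ: decay of the measure
-/

open Finset
open scoped Classical

noncomputable section

namespace CarpetPI

theorem DJ_kids {c : Pt} (h : c ∈ kids) : 0 ≤ c.1 ∧ c.1 < 3 ∧ 0 ≤ c.2 ∧ c.2 < 3 ∧
    ¬ (c.1 = 1 ∧ c.2 = 1) := by
  unfold kids box at h
  rw [Finset.mem_erase, Finset.mem_product, Finset.mem_Ico, Finset.mem_Ico] at h
  obtain ⟨h0, ⟨h1, h2⟩, h3, h4⟩ := h
  refine ⟨h1, h2, h3, h4, ?_⟩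
  rintro ⟨h5, h6⟩
  exact h0 (Prod.ext h5 h6)

theorem DJ_mem_kids {a b : ℤ} (h1 : 0 ≤ a) (h2 : a < 3) (h3 : 0 ≤ b) (h4 : b < 3)
    (h5 : ¬ (a = 1 ∧ b = 1)) : ((a, b) : Pt) ∈ kids := by
  unfold kids box
  rw [Finset.mem_erase, Finset.mem_product, Finset.mem_Ico, Finset.mem_Ico]
  refine ⟨?_, ⟨h1, h2⟩, h3, h4⟩
  intro h
  rw [Prod.mk.injEq] at h
  exact h5 h

theorem DJ_div (a c : ℤ) (h1 : 0 ≤ c) (h2 : c < 3) (k : ℕ) :
    (3 * a + c) / 3 ^ (k + 1) = a / 3 ^ k := by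
  rw [pow_succ', ← Int.ediv_ediv_of_nonneg (by norm_num : (0 : ℤ) ≤ 3)]
  congr 1
  omega

/-- a child of a kept cell is kept -/
theorem DJ_kid_mem {n : ℕ} {q c : Pt} (hq : q ∈ Kept n) (hc : c ∈ kids) : kid q c ∈ Kept (n + 1) := by
  obtain ⟨h1, h2, h3, h4, h5⟩ := DJ_kids hc
  obtain ⟨g1, g2, g3, g4, g5⟩ := hq
  have e1 : (kid q c).1 = 3 * q.1 + c.1 := rfl
  have e2 : (kid q c).2 = 3 * q.2 + c.2 := rfl
  refine ⟨?_, ?_, ?_, ?_, ?_⟩
  · rw [e1]; omega
  · rw [e1, pow_succ]; omega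
  · rw [e2]; omega
  · rw [e2, pow_succ]; omega
  · intro k hk
    rw [e1, e2]
    cases k with
    | zero =>
      rw [pow_zero, Int.ediv_one, Int.ediv_one]
      intro h
      apply h5
      omega
    | succ k =>
      rw [DJ_div _ _ h1 h2, DJ_div _ _ h3 h4]
      exact g5 k (by omega)

/-- a kept face is a child of its parent -/
theorem DJ_eq_kid {n : ℕ} {f : Pt} (hf : f ∈ Kept (n + 1)) :
    ∃ c ∈ kids, f = kid (up 1 f) c := by
  obtain ⟨_, _, _, _, g5⟩ := hf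
  have h0 := g5 0 (by omega)
  rw [pow_zero, Int.ediv_one, Int.ediv_one] at h0
  refine ⟨(f.1 % 3, f.2 % 3), DJ_mem_kids (by omega) (by omega) (by omega) (by omega) h0, ?_⟩
  have e1 : (up 1 f).1 = f.1 / 3 := by
    show f.1 / 3 ^ 1 = f.1 / 3
    rw [pow_one]
  have e2 : (up 1 f).2 = f.2 / 3 := by
    show f.2 / 3 ^ 1 = f.2 / 3
    rw [pow_one]
  refine Prod.ext ?_ ?_
  · show f.1 = 3 * (up 1 f).1 + f.1 % 3
    rw [e1]; omega
  · show f.2 = 3 * (up 1 f).2 + f.2 % 3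
    rw [e2]; omega

theorem DJ_up_kid {q c : Pt} (hc : c ∈ kids) : up 1 (kid q c) = q := by
  obtain ⟨h1, h2, h3, h4, _⟩ := DJ_kids hc
  refine Prod.ext ?_ ?_
  · show (3 * q.1 + c.1) / 3 ^ 1 = q.1
    rw [pow_one]; omega
  · show (3 * q.2 + c.2) / 3 ^ 1 = q.2
    rw [pow_one]; omega

theorem DJ_vk0 {n : ℕ} {q : Pt} (hq : q ∈ Kept n) : q ∈ VK (Kept n) :=
  ⟨q, hq, Or.inl rfl, Or.inl rfl⟩

theorem DJ_vk1 {n : ℕ} {q : Pt} (hq : q ∈ Kept n) : ((q.1 + 1, q.2) : Pt) ∈ VK (Kept n) :=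
  ⟨q, hq, Or.inr rfl, Or.inl rfl⟩

/-- the distance of the two lower corners of the parent -/
theorem DJ_dist {p : ℝ} (D : Dat p) {n : ℕ} {q c : Pt} (hq : q ∈ Kept n) (hc : c ∈ kids) :
    D.d n q (q.1 + 1, q.2) ≤
      2 * D.η 3 * D.d (n + 1) (kid q c) ((kid q c).1 + 1, (kid q c).2) := by
  obtain ⟨h1, h2, h3, h4, _⟩ := DJ_kids hc
  have hk := DJ_kid_mem hq hc
  have hX := DJ_vk0 hk
  have hY := DJ_vk1 hk
  have hz : mulP 3 q ∈ VK (Kept (n + 1)) := by
    refine ⟨kid q (0, 0), DJ_kid_mem hq (DJ_mem_kids (by norm_num) (by norm_num) (by norm_num)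
      (by norm_num) (by norm_num)), Or.inl ?_, Or.inl ?_⟩
    · show 3 * q.1 = 3 * q.1 + 0
      ring
    · show 3 * q.2 = 3 * q.2 + 0
      ring
  have hz' : mulP 3 (q.1 + 1, q.2) ∈ VK (Kept (n + 1)) := by
    refine ⟨kid q (2, 0), DJ_kid_mem hq (DJ_mem_kids (by norm_num) (by norm_num) (by norm_num)
      (by norm_num) (by norm_num)), Or.inr ?_, Or.inl ?_⟩
    · show 3 * (q.1 + 1) = 3 * q.1 + 2 + 1
      ring
    · show 3 * q.2 = 3 * q.2 + 0
      ring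
  have hs := D.d_scale n q (DJ_vk0 hq) (q.1 + 1, q.2) (DJ_vk1 hq)
  have ht := D.d_tri (n + 1) _ hz _ hX _ hz'
  have hsy := D.d_symm (n + 1) (mulP 3 q) (kid q c)
  have hd : dis (kid q c) ((kid q c).1 + 1, (kid q c).2) = 1 := by
    show max |(kid q c).1 - ((kid q c).1 + 1)| |(kid q c).2 - (kid q c).2| = 1
    rw [sub_self, show (kid q c).1 - ((kid q c).1 + 1) = -1 by ring]
    norm_num
  have hd1 : dis (kid q c) (mulP 3 q) ≤ 3 := by
    show max |3 * q.1 + c.1 - 3 * q.1| |3 * q.2 + c.2 - 3 * q.2| ≤ 3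
    rw [max_le_iff, abs_le, abs_le]
    omega
  have hd2 : dis (kid q c) (mulP 3 (q.1 + 1, q.2)) ≤ 3 := by
    show max |3 * q.1 + c.1 - 3 * (q.1 + 1)| |3 * q.2 + c.2 - 3 * q.2| ≤ 3
    rw [max_le_iff, abs_le, abs_le]
    omega
  have q1 := D.qs (n + 1) _ hX _ hz _ hY 3 (by norm_num) (by
    rw [hd, Int.cast_one, mul_one]; exact_mod_cast hd1)
  have q2 := D.qs (n + 1) _ hX _ hz' _ hY 3 (by norm_num) (by
    rw [hd, Int.cast_one, mul_one]; exact_mod_cast hd2)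
  rw [← hs]
  linarith

theorem p_DJ (hA : S_DA) : S_DJ := by
  intro p hp D
  obtain ⟨hA1, _⟩ := hA
  have hp0 : 0 ≤ p := by linarith
  have hη : 0 ≤ D.η 3 := D.η_nonneg 3 (by norm_num)
  have hAp : 0 ≤ D.A := by linarith [D.hA]
  obtain ⟨C, hC⟩ : ∃ C, C = D.A * (2 * D.η 3) ^ p * D.A + 2 := ⟨_, rfl⟩
  have hr : 0 ≤ D.A * (2 * D.η 3) ^ p * D.A :=
    mul_nonneg (mul_nonneg hAp (Real.rpow_nonneg (by positivity) _)) hAp
  have hC2 : 2 ≤ C := by rw [hC]; linarith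
  have hC0 : 0 < C := by linarith
  -- (1) the lower bound for the children
  have key1 : ∀ (n : ℕ) (q c : Pt), q ∈ Kept n → c ∈ kids →
      D.mu n q ≤ C * D.mu (n + 1) (kid q c) := by
    intro n q c hq hc
    have hk := DJ_kid_mem hq hc
    have h1 := (D.ahl n q hq).1
    have h2 := (D.ahl (n + 1) (kid q c) hk).2
    have h3 := DJ_dist D hq hc
    have h4 := D.mu_pos (n + 1) (kid q c) hk
    have h5 : D.d n q (q.1 + 1, q.2) ^ p ≤
        (2 * D.η 3) ^ p * D.d (n + 1) (kid q c) ((kid q c).1 + 1, (kid q c).2) ^ p := by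
      rw [← Real.mul_rpow (by positivity) (D.d_nonneg _ _ _)]
      exact Real.rpow_le_rpow (D.d_nonneg _ _ _) h3 hp0
    have h6 : 0 ≤ (2 * D.η 3) ^ p := Real.rpow_nonneg (by positivity) _
    calc D.mu n q ≤ D.A * D.d n q (q.1 + 1, q.2) ^ p := h1
      _ ≤ D.A * ((2 * D.η 3) ^ p *
          D.d (n + 1) (kid q c) ((kid q c).1 + 1, (kid q c).2) ^ p) := by gcongr
      _ ≤ D.A * ((2 * D.η 3) ^ p * (D.A * D.mu (n + 1) (kid q c))) := by gcongr
      _ = D.A * (2 * D.η 3) ^ p * D.A * D.mu (n + 1) (kid q c) := by ring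
      _ ≤ C * D.mu (n + 1) (kid q c) := by
        apply mul_le_mul_of_nonneg_right _ h4.le
        rw [hC]; linarith
  -- (2) the upper bound
  have key2 : ∀ (n : ℕ) (q c : Pt), q ∈ Kept n → c ∈ kids →
      D.mu (n + 1) (kid q c) ≤ (1 - 1 / C) * D.mu n q := by
    intro n q c hq hc
    obtain ⟨c', hc', hne⟩ : ∃ c' ∈ kids, c' ≠ c := by
      by_cases h : c = ((0, 0) : Pt)
      · refine ⟨(2, 0), DJ_mem_kids (by norm_num) (by norm_num) (by norm_num)
          (by norm_num) (by norm_num), ?_⟩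
        rw [h]
        intro h'
        rw [Prod.mk.injEq] at h'
        omega
      · exact ⟨(0, 0), DJ_mem_kids (by norm_num) (by norm_num) (by norm_num)
          (by norm_num) (by norm_num), fun h' => h h'.symm⟩
    have hadd := D.mu_add n q hq
    have hsub : ∑ a ∈ ({c, c'} : Finset Pt), D.mu (n + 1) (kid q a) ≤
        ∑ a ∈ kids, D.mu (n + 1) (kid q a) := by
      apply Finset.sum_le_sum_of_subset_of_nonneg
      · intro a ha
        rw [Finset.mem_insert, Finset.mem_singleton] at ha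
        rcases ha with rfl | rfl
        · exact hc
        · exact hc'
      · intro a ha _
        exact (D.mu_pos (n + 1) (kid q a) (DJ_kid_mem hq ha)).le
    rw [Finset.sum_pair (fun h => hne h.symm), ← hadd] at hsub
    have h1 := key1 n q c' hq hc'
    have h2 : D.mu n q / C ≤ D.mu (n + 1) (kid q c') := by
      rw [div_le_iff₀ hC0]; linarith
    have h3 : (1 - 1 / C) * D.mu n q = D.mu n q - D.mu n q / C := by ring
    rw [h3]
    linarith
  have hstep : ∀ (n : ℕ), ∀ f ∈ Kept (n + 1), D.mu n (up 1 f) ≤ C * D.mu (n + 1) f ∧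
      D.mu (n + 1) f ≤ (1 - 1 / C) * D.mu n (up 1 f) := by
    intro n f hf
    have hq : up 1 f ∈ Kept n := by
      have := hA1 (n + 1) 1 (by omega) f hf
      rwa [Nat.add_sub_cancel] at this
    obtain ⟨c, hc, hfc⟩ := DJ_eq_kid hf
    have h1 := key1 n (up 1 f) c hq hc
    have h2 := key2 n (up 1 f) c hq hc
    rw [← hfc] at h1 h2
    exact ⟨h1, h2⟩
  have hν0 : 0 < 1 - 1 / C := by
    have : 1 / C ≤ 1 / 2 := one_div_le_one_div_of_le (by norm_num) hC2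
    linarith
  have hν1 : 1 - 1 / C < 1 := by
    have : 0 < 1 / C := one_div_pos.2 hC0
    linarith
  refine ⟨C, 1 - 1 / C, by linarith, hν0, hν1, hstep, ?_⟩
  intro n j
  induction j with
  | zero =>
    intro f hf
    have e : up 0 f = f := by
      refine Prod.ext ?_ ?_
      · show f.1 / 3 ^ 0 = f.1
        rw [pow_zero, Int.ediv_one]
      · show f.2 / 3 ^ 0 = f.2
        rw [pow_zero, Int.ediv_one]
    rw [pow_zero, one_mul, e, add_zero]
  | succ j ih =>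
    intro f hf
    have hq : up 1 f ∈ Kept (n + j) := by
      have := hA1 (n + (j + 1)) 1 (by omega) f hf
      rwa [show n + (j + 1) - 1 = n + j by omega] at this
    have h1 := (hstep (n + j) f hf).2
    have h2 := ih (up 1 f) hq
    have e : up j (up 1 f) = up (j + 1) f := by
      refine Prod.ext ?_ ?_
      · show f.1 / 3 ^ 1 / 3 ^ j = f.1 / 3 ^ (j + 1)
        rw [Int.ediv_ediv_of_nonneg (by norm_num), pow_one, pow_succ']
      · show f.2 / 3 ^ 1 / 3 ^ j = f.2 / 3 ^ (j + 1)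
        rw [Int.ediv_ediv_of_nonneg (by norm_num), pow_one, pow_succ']
    rw [e] at h2
    have h3 : n + (j + 1) = n + j + 1 := by omega
    rw [h3]
    calc D.mu (n + j + 1) f ≤ (1 - 1 / C) * D.mu (n + j) (up 1 f) := h1
      _ ≤ (1 - 1 / C) * ((1 - 1 / C) ^ j * D.mu n (up (j + 1) f)) := by gcongr
      _ = (1 - 1 / C) ^ (j + 1) * D.mu n (up (j + 1) f) := by ring

end CarpetPI
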