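import Pool.Agent.Lib.MP_1d263a_an.PI.StmF

/-!
# MP_1d263a_an, project PI, piece FH: Harnack inequality in a block
-/

open Finset
open scoped Classical

noncomputable section

namespace CarpetPI

theorem FH_clamp (a b : ℝ) : |max 0 (min 1 a) - max 0 (min 1 b)| ≤ |a - b| := by
  have h1 := abs_max_sub_max_le_abs (min 1 a) (min 1 b) 0
  rw [max_comm _ 0, max_comm _ 0] at h1
  have h2 := abs_min_sub_min_le_max 1 a 1 b
  rw [sub_self, abs_zero, max_eq_right (abs_nonneg _)] at h2
  exact h1.trans h2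

theorem FH_two_lt {p q : ℝ} (hp : 1 < p) (hp2 : p < 2) (hpq : 1 / p + 1 / q = 1) : 2 < q := by
  have h1 : 1 / p < 1 := by rw [div_lt_one (by linarith)]; exact hp
  have h2 : 1 / 2 < 1 / p := one_div_lt_one_div_of_lt (by linarith) hp2
  have h3 : 0 < 1 / q := by linarith
  have h4 : 0 < q := one_div_pos.1 h3
  have h5 : 1 / q < 1 / 2 := by linarith
  exact (one_div_lt_one_div h4 (by norm_num)).1 h5

theorem FH_inn_blk {s r : ℕ} {y f : Pt} (h : f ∈ inn s r y) : f ∈ blk s y := by
  have h3 : (0 : ℤ) < 3 ^ r := by positivity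
  simp only [inn, blk, box, Finset.mem_product, Finset.mem_Ico] at h ⊢
  omega

theorem p_FH (hFC : S_FC) (hFD : S_FD) (hFF : S_FF) : S_FH := by
  intro p q e₀ C₄ k hp hp2 hpq he hk hCut
  obtain ⟨C, hC, hF⟩ := hFF p q e₀ k hp hp2 hpq he hk
  have hq := FH_two_lt hp hp2 hpq
  set B : ℝ := 6 * C * (q - 1) * (max C₄ 0) ^ (2 / q) with hBdef
  have hB0 : 0 ≤ B := by
    have h1 : 0 ≤ (max C₄ 0) ^ (2 / q) := Real.rpow_nonneg (le_max_right _ _) _
    have h2 : 0 ≤ q - 1 := by linarith
    positivity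
  refine ⟨Real.exp (Real.sqrt B), Real.one_le_exp (Real.sqrt_nonneg B), ?_⟩
  intro t δ N s y u w u' w' ht hks hFl hB1 hB2 hcr1 hcr2 hpos f hf f' hf'
  have hCh : 1 ≤ Real.exp (Real.sqrt B) := Real.one_le_exp (Real.sqrt_nonneg B)
  set g : Pt → ℝ := fun x => w x - t * w' x + δ with hg
  have hgblk : ∀ x ∈ blk s y, 0 < g x := by
    intro x hx
    have h1 : ((false, x) : Ed) ∈ eT (blk s y) :=
      Finset.mem_biUnion.2 ⟨x, hx, by simp [sides]⟩
    have := (hpos _ h1).1
    simpa [lf] using this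
  have hm0 : 0 < g f' := hgblk f' (FH_inn_blk hf')
  have hM0 : 0 < g f := hgblk f (FH_inn_blk hf)
  change g f ≤ Real.exp (Real.sqrt B) * g f'
  rcases le_or_gt (g f) (g f') with hle | hlt
  · exact hle.trans (le_mul_of_one_le_left hm0.le hCh)
  set L : ℝ := Real.log (g f) - Real.log (g f') with hL
  have hL0 : 0 < L := sub_pos.2 (Real.log_lt_log hm0 hlt)
  suffices hLB : L ^ 2 ≤ B by
    have h1 : L ≤ Real.sqrt B := Real.le_sqrt_of_sq_le hLB
    calc g f = Real.exp L * g f' := by
          rw [hL, Real.exp_sub, Real.exp_log hM0, Real.exp_log hm0]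
          field_simp
      _ ≤ Real.exp (Real.sqrt B) * g f' :=
          mul_le_mul_of_nonneg_right (Real.exp_le_exp.2 h1) hm0.le
  obtain ⟨hlin, hlev⟩ := hFD q t hq ht N s y u w u' w' hB1 hB2
  obtain ⟨η, hη0, hη1, hηout, hηin, hηabs, hηsum⟩ := hCut N s y hFl hks
  set E := eB (Kept N) (blk s y) with hE
  have hET : ∀ e ∈ E, e ∈ eT (blk s y) := fun e he => (Finset.mem_filter.1 he).1
  have hgabs : ∀ e ∈ eT (blk s y), ¬ pres (Kept N) e → g (lf e) = g (rf e) := by
    intro e he hpr
    have h1 := (hB1.pr e he).2 hpr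
    have h2 := (hB2.pr e he).2 hpr
    have h1' : w (lf e) = w (rf e) := sub_eq_zero.1 h1
    have h2' : w' (lf e) = w' (rf e) := sub_eq_zero.1 h2
    simp only [hg, h1', h2']
  -- the logarithmic Caccioppoli inequality
  have htest := hlin (fun x => η x ^ 2 * (1 / g x)) (fun x hx => by simp [hηout x hx])
    (fun e he hpr => by
      have h1 : η (lf e) = η (rf e) := sub_eq_zero.1 (hηabs e he hpr)
      simp only [dv, h1, hgabs e he hpr, sub_self])
  have hcacc := Gr.log_cacc E lf rf (Gr.cw q t lf rf w w') g η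
    (fun e _ => Gr.cw_nonneg hq.le t lf rf w w' e) (fun e he => hpos e (hET e he)) hη0 (by
      refine (le_of_eq ?_)
      rw [← htest]
      refine Finset.sum_congr rfl fun e _ => ?_
      have : g (lf e) - g (rf e) = (w (lf e) - t * w' (lf e)) - (w (rf e) - t * w' (rf e)) := by
        simp only [hg]; ring
      rw [this])
  set S : ℝ := ∑ e ∈ E, Gr.sz t lf rf w w' e ^ q with hS
  have hup := Gr.cw_upper hq ht E lf rf w w' (fun e => dv η e)
  have hS0 : 0 < S := by
    obtain ⟨-, -, h3, h4⟩ := hFC p q hp hpq N s y u w hFl hB1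
    have h5 : 0 < ∑ e ∈ E, |dv w e| ^ q := by
      have : 0 < 2 * ∑ e ∈ E, |dv w e| ^ q := h4.trans_le h3
      linarith
    refine h5.trans_le (Finset.sum_le_sum fun e _ => ?_)
    refine Real.rpow_le_rpow (abs_nonneg _) ?_ (by linarith)
    unfold Gr.sz dv
    have : 0 ≤ t * |w' (lf e) - w' (rf e)| := by positivity
    linarith
  have hSa : 0 < S ^ ((q - 2) / q) := Real.rpow_pos_of_pos hS0 _
  have hsumη : (∑ e ∈ E, |dv η e| ^ q) ^ (2 / q) ≤ (max C₄ 0) ^ (2 / q) := by
    refine Real.rpow_le_rpow (Finset.sum_nonneg fun e _ => by positivity)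
      (hηsum.trans (le_max_left _ _)) (by positivity)
  have hX : ∑ e ∈ E, Gr.cw q t lf rf w w' e *
      (min (η (lf e)) (η (rf e)) ^ 2 * (Real.log (g (lf e)) - Real.log (g (rf e))) ^ 2) ≤
      6 * ((q - 1) * (S ^ ((q - 2) / q) * (max C₄ 0) ^ (2 / q))) := by
    refine hcacc.trans (mul_le_mul_of_nonneg_left (hup.trans ?_) (by norm_num))
    refine mul_le_mul_of_nonneg_left (mul_le_mul_of_nonneg_left hsumη hSa.le) (by linarith)
  -- the level sets
  obtain ⟨P', hP'c, hfP', hP'l, hP'o⟩ := hlev 1 (g f - δ) f (Or.inl rfl) (FH_inn_blk hf) (by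
    simp only [hg]; linarith)
  obtain ⟨P, hPc, hfP, hPl, hPo⟩ := hlev (-1) (-(g f' - δ)) f' (Or.inr rfl) (FH_inn_blk hf') (by
    simp only [hg]; linarith)
  set φ : Pt → ℝ := fun x =>
    if 0 < g x then max 0 (min 1 ((Real.log (g x) - Real.log (g f')) / L)) else 0 with hφ
  have hres := hF t N s y u w u' w' φ P P' ht hks hFl hB1 hB2 hcr1 hcr2 hPc hP'c ⟨f', hfP, hf'⟩ hPo
    ⟨f, hfP', hf⟩ hP'o (fun x hx => by
      have h1 := hPl x hx
      have h2 : g x ≤ g f' := by
        have : g x = w x - t * w' x + δ := rfl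
        linarith
      simp only [hφ]
      split_ifs with h3
      · have h4 : Real.log (g x) - Real.log (g f') ≤ 0 := by
          have := Real.log_le_log h3 h2
          linarith
        have h5 : (Real.log (g x) - Real.log (g f')) / L ≤ 0 :=
          div_nonpos_of_nonpos_of_nonneg h4 hL0.le
        exact max_le le_rfl ((min_le_right _ _).trans h5)
      · exact le_rfl) (fun x hx => by
      have h1 := hP'l x hx
      have h2 : g f ≤ g x := by
        have : g x = w x - t * w' x + δ := rfl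
        linarith
      have h3 : 0 < g x := hM0.trans_le h2
      simp only [hφ, if_pos h3]
      have h4 : 1 ≤ (Real.log (g x) - Real.log (g f')) / L := by
        rw [one_le_div hL0, hL]
        have := Real.log_le_log hM0 h2
        linarith
      rw [min_eq_left h4]
      exact le_max_right _ _) (fun e he hpr => by
      simp only [dv, hφ, hgabs e he hpr, sub_self])
  have hterm : ∑ e ∈ E.filter (fun e => lf e ∈ inn s (s - k) y ∧ rf e ∈ inn s (s - k) y),
      Gr.cw q t lf rf w w' e * (φ (lf e) - φ (rf e)) ^ 2 ≤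
      (L ^ 2)⁻¹ * ∑ e ∈ E, Gr.cw q t lf rf w w' e *
        (min (η (lf e)) (η (rf e)) ^ 2 * (Real.log (g (lf e)) - Real.log (g (rf e))) ^ 2) := by
    rw [Finset.mul_sum]
    refine (Finset.sum_le_sum fun e he => ?_).trans (Finset.sum_le_sum_of_subset_of_nonneg
      (Finset.filter_subset _ _) fun e _ _ => ?_)
    · obtain ⟨he1, he2, he3⟩ := Finset.mem_filter.1 he
      obtain ⟨h1, h2⟩ := hpos e (hET e he1)
      have h1' : 0 < g (lf e) := h1
      have h2' : 0 < g (rf e) := h2
      rw [hηin _ he2, hηin _ he3, min_self, one_pow, one_mul]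
      have h3 : (φ (lf e) - φ (rf e)) ^ 2 ≤
          (L ^ 2)⁻¹ * (Real.log (g (lf e)) - Real.log (g (rf e))) ^ 2 := by
        simp only [hφ, if_pos h1', if_pos h2']
        have h4 := FH_clamp ((Real.log (g (lf e)) - Real.log (g f')) / L)
          ((Real.log (g (rf e)) - Real.log (g f')) / L)
        have h5 : (Real.log (g (lf e)) - Real.log (g f')) / L -
            (Real.log (g (rf e)) - Real.log (g f')) / L =
            (Real.log (g (lf e)) - Real.log (g (rf e))) / L := by ring
        rw [h5] at h4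
        have h6 := sq_le_sq.2 h4
        rw [div_pow] at h6
        rw [← div_eq_inv_mul]
        exact h6
      have h7 := Gr.cw_nonneg hq.le t lf rf w w' e
      calc _ ≤ Gr.cw q t lf rf w w' e *
            ((L ^ 2)⁻¹ * (Real.log (g (lf e)) - Real.log (g (rf e))) ^ 2) :=
            mul_le_mul_of_nonneg_left h3 h7
        _ = _ := by ring
    · have h7 := Gr.cw_nonneg hq.le t lf rf w w' e
      positivity
  have hfin : S ^ ((q - 2) / q) ≤
      C * ((L ^ 2)⁻¹ * (6 * ((q - 1) * (S ^ ((q - 2) / q) * (max C₄ 0) ^ (2 / q))))) := by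
    refine hres.trans (mul_le_mul_of_nonneg_left (hterm.trans ?_) hC.le)
    exact mul_le_mul_of_nonneg_left hX (by positivity)
  have hL2 : 0 < L ^ 2 := by positivity
  have h8 : C * ((L ^ 2)⁻¹ * (6 * ((q - 1) * (S ^ ((q - 2) / q) * (max C₄ 0) ^ (2 / q))))) =
      S ^ ((q - 2) / q) * (B / L ^ 2) := by
    rw [hBdef]; field_simp
  rw [h8] at hfin
  have h9 : 1 ≤ B / L ^ 2 := by
    by_contra h
    push Not at h
    have : S ^ ((q - 2) / q) * (B / L ^ 2) < S ^ ((q - 2) / q) * 1 :=
      mul_lt_mul_of_pos_left h hSa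
    linarith
  rwa [one_le_div hL2] at h9

end CarpetPI
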