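import Pool.Agent.Lib.MP_1d263a_an.PI.StmF

/-!
# MP_1d263a_an, project PI, piece FU: the energy of `u - u'` is small if `w - w'` is small
-/

open Finset
open scoped Classical

noncomputable section

namespace CarpetPI

theorem FU_mem_eT {B : Finset Pt} {e : Ed} (h : e ∈ eT B) : lf e ∈ B ∨ rf e ∈ B := by
  simp only [eT, Finset.mem_biUnion] at h
  obtain ⟨f, hf, he⟩ := h
  simp only [sides, Finset.mem_insert, Finset.mem_singleton] at he
  rcases he with rfl | rfl | rfl | rfl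
  · left; simpa [lf] using hf
  · right; simpa [rf] using hf
  · right; simpa [rf] using hf
  · left; simpa [lf] using hf

theorem FU_faces (e : Ed) : (lf e).1 ≤ (rf e).1 ∧ (rf e).1 ≤ (lf e).1 + 1 ∧ (rf e).2 ≤ (lf e).2 ∧
    (lf e).2 ≤ (rf e).2 + 1 ∧ ((lf e).1 = (rf e).1 ∨ (lf e).2 = (rf e).2) := by
  obtain ⟨b, x⟩ := e
  cases b <;> simp [lf, rf]

theorem FU_side {f : Pt} {e : Ed} (h : e ∈ sides f) : f = lf e ∨ f = rf e := by
  simp only [sides, Finset.mem_insert, Finset.mem_singleton] at h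
  rcases h with rfl | rfl | rfl | rfl
  · left; simp [lf]
  · right; simp [rf]
  · right; simp [rf]
  · left; simp [lf]

theorem FU_mem_blk {s : ℕ} {y f : Pt} : f ∈ blk s y ↔
    (y.1 - 3 ^ s ≤ f.1 ∧ f.1 < y.1 + 3 ^ s) ∧ y.2 ≤ f.2 ∧ f.2 < y.2 + 3 ^ s := by
  simp only [blk, box, Finset.mem_product, Finset.mem_Ico]

theorem FU_mem_ins {s r : ℕ} {y f : Pt} : f ∈ ins s r y ↔
    (y.1 - 3 ^ s + 3 ^ r ≤ f.1 ∧ f.1 < y.1 + 3 ^ s - 3 ^ r) ∧ y.2 ≤ f.2 ∧
      f.2 < y.2 + 3 ^ s - 3 ^ r := by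
  simp only [ins, box, Finset.mem_product, Finset.mem_Ico]

theorem FU_near {s : ℕ} {y : Pt} {e : Ed} (he : e ∈ eT (blk s y)) {f : Pt}
    (hf : f = lf e ∨ f = rf e) :
    (y.1 - 3 ^ s - 1 ≤ f.1 ∧ f.1 < y.1 + 3 ^ s + 1) ∧ y.2 - 1 ≤ f.2 ∧ f.2 < y.2 + 3 ^ s + 1 ∧
    (f.2 < y.2 → y.1 - 3 ^ s ≤ f.1 ∧ f.1 < y.1 + 3 ^ s) := by
  have h1 := FU_faces e
  have h2 := FU_mem_eT he
  rw [FU_mem_blk, FU_mem_blk] at h2
  generalize (3 : ℤ) ^ s = P at *
  rcases hf with rfl | rfl <;> omega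

theorem FU_sub (s : ℕ) (y : Pt) : blk s y ⊆ blk (s + 1) y := by
  intro f hf
  rw [FU_mem_blk] at hf ⊢
  have hP : (0 : ℤ) < 3 ^ s := by positivity
  rw [pow_succ]
  generalize (3 : ℤ) ^ s = P at *
  omega

theorem FU_eT_sub (s : ℕ) (y : Pt) : eT (blk s y) ⊆ eT (blk (s + 1) y) :=
  Finset.biUnion_subset_biUnion_of_subset_left _ (FU_sub s y)

/-- every edge is counted at most twice -/
theorem FU_En_le (p : ℝ) (K : Set Pt) (u : Pt → ℝ) (B : Finset Pt) :
    En p K u B ≤ 2 * ∑ e ∈ eB K B, |du u e| ^ p := by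
  have hnn : ∀ e, 0 ≤ |du u e| ^ p := fun e => by positivity
  have h1 : ∀ f ∈ B.filter (· ∈ K), fe p u f ≤
      ∑ e ∈ eB K B, if (f = lf e ∨ f = rf e) then |du u e| ^ p else 0 := by
    intro f hf
    rw [Finset.mem_filter] at hf
    unfold fe
    rw [← Finset.sum_filter]
    apply Finset.sum_le_sum_of_subset_of_nonneg
    · intro e he
      have hside := FU_side he
      rw [Finset.mem_filter]
      refine ⟨?_, hside⟩
      unfold eB
      rw [Finset.mem_filter]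
      refine ⟨?_, ?_⟩
      · unfold eT
        exact Finset.mem_biUnion.2 ⟨f, hf.1, he⟩
      · rcases hside with h | h
        · left; rw [← h]; exact hf.2
        · right; rw [← h]; exact hf.2
    · intro e _ _
      exact hnn e
  calc En p K u B = ∑ f ∈ B.filter (· ∈ K), fe p u f := rfl
    _ ≤ ∑ f ∈ B.filter (· ∈ K), ∑ e ∈ eB K B,
          (if (f = lf e ∨ f = rf e) then |du u e| ^ p else 0) := Finset.sum_le_sum h1
    _ = ∑ e ∈ eB K B, ∑ f ∈ B.filter (· ∈ K),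
          (if (f = lf e ∨ f = rf e) then |du u e| ^ p else 0) := Finset.sum_comm
    _ ≤ ∑ e ∈ eB K B, 2 * |du u e| ^ p := by
        apply Finset.sum_le_sum
        intro e _
        rw [← Finset.sum_filter, Finset.sum_const, nsmul_eq_mul]
        apply mul_le_mul_of_nonneg_right _ (hnn e)
        have hsub : (B.filter (· ∈ K)).filter (fun f => f = lf e ∨ f = rf e) ⊆ {lf e, rf e} := by
          intro f hf
          rw [Finset.mem_filter] at hf
          simpa using hf.2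
        have := (Finset.card_le_card hsub).trans Finset.card_le_two
        exact_mod_cast this
    _ = 2 * ∑ e ∈ eB K B, |du u e| ^ p := by rw [Finset.mul_sum]

theorem FU_add_rpow {q a b : ℝ} (hq : 0 < q) (ha : 0 ≤ a) (hb : 0 ≤ b) :
    (a + b) ^ q ≤ 2 ^ q * (a ^ q + b ^ q) := by
  have h1 : (a + b) ^ q ≤ (2 * max a b) ^ q := by
    apply Real.rpow_le_rpow (by positivity) _ hq.le
    have := le_max_left a b
    have := le_max_right a b
    linarith
  rw [Real.mul_rpow (by norm_num) (le_max_of_le_left ha)] at h1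
  refine h1.trans (mul_le_mul_of_nonneg_left ?_ (by positivity))
  have ha' : 0 ≤ a ^ q := by positivity
  have hb' : 0 ≤ b ^ q := by positivity
  rcases le_total a b with h | h
  · rw [max_eq_right h]; linarith
  · rw [max_eq_left h]; linarith

theorem p_FU (_hFA : S_FA) (hFC : S_FC) (hFD : S_FD) (_hFR : S_FR) : S_FU := by
  intro p q C₃ hp hp2 hpq hcut
  have hp0 : 0 < p := by linarith
  have hq2 : 2 < q := by
    have h1 : 1 / 2 < 1 / p := one_div_lt_one_div_of_lt hp0 hp2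
    have h2 : 1 / p < 1 := by rw [div_lt_one hp0]; exact hp
    have h3 : 0 < 1 / q := by linarith
    have h4 : 0 < q := by
      by_contra hq
      have : 1 / q ≤ 0 := div_nonpos_of_nonneg_of_nonpos zero_le_one (not_lt.1 hq)
      linarith
    have h5 : 1 / q < 1 / 2 := by linarith
    exact (one_div_lt_one_div h4 (by norm_num)).1 h5
  have hq0 : 0 < q := by linarith
  have hq1 : 0 < q - 1 := by linarith
  have hHC : p.HolderConjugate q := by
    rw [Real.holderConjugate_iff]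
    exact ⟨hp, by rw [← one_div, ← one_div]; exact hpq⟩
  set M3 : ℝ := (max C₃ 0) ^ (2 / q) with hM3
  have hM30 : 0 ≤ M3 := Real.rpow_nonneg (le_max_right _ _) _
  set K₁ : ℝ := 8 * ((q - 1) * M3) with hK₁
  have hK₁0 : 0 ≤ K₁ := by positivity
  set C : ℝ := max 1 (2 * ((q - 1) ^ (p / 2) * (K₁ ^ (p / 2) * (2 ^ q) ^ (2 - p)))) with hC
  refine ⟨C, le_max_left _ _, ?_⟩
  intro N s y u w u' w' δ hFl hB hB' hδ hsm
  obtain ⟨η, hη0, hη1, hηout, hηbel, hηins, hηabs, hηsum⟩ := hcut N (s + 1) y hFl (by omega)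
  obtain ⟨-, hEu, -, hEup⟩ := hFC p q hp hpq N (s + 1) y u w hFl hB
  obtain ⟨-, hEu', -, hEup'⟩ := hFC p q hp hpq N (s + 1) y u' w' hFl hB'
  obtain ⟨hlin, -⟩ := hFD q 1 hq2 zero_le_one N (s + 1) y u w u' w' hB hB'
  set E₁ := En p (Kept N) u (blk (s + 1) y) with hE₁
  set E₂ := En p (Kept N) u' (blk (s + 1) y) with hE₂
  set Sz : ℝ := ∑ e ∈ eB (Kept N) (blk (s + 1) y), Gr.sz 1 lf rf w w' e ^ q with hSz
  have hsz0 : ∀ e, 0 ≤ Gr.sz 1 lf rf w w' e ^ q := fun e =>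
    Real.rpow_nonneg (Gr.sz_nonneg zero_le_one lf rf w w' e) _
  have hSz0 : 0 ≤ Sz := Finset.sum_nonneg fun e _ => hsz0 e
  -- the upper bound for Sz
  have hSzE : Sz ≤ 2 ^ q * (E₁ + E₂) := by
    have h1 : Sz ≤ ∑ e ∈ eB (Kept N) (blk (s + 1) y), 2 ^ q * (|dv w e| ^ q + |dv w' e| ^ q) := by
      apply Finset.sum_le_sum
      intro e _
      have := FU_add_rpow hq0 (abs_nonneg (dv w e)) (abs_nonneg (dv w' e))
      unfold Gr.sz
      rw [one_mul]
      exact this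
    rw [← Finset.mul_sum, Finset.sum_add_distrib] at h1
    refine h1.trans (mul_le_mul_of_nonneg_left ?_ (by positivity))
    linarith
  -- the faces of the edges touching the big block
  have hface : ∀ e ∈ eT (blk (s + 1) y), ∀ f : Pt, (f = lf e ∨ f = rf e) → f.2 < y.2 →
      w f = 0 ∧ w' f = 0 := by
    intro e he f hf hlt
    have hn := FU_near he hf
    have hP : (1 : ℤ) ≤ 3 ^ (s + 1) := one_le_pow₀ (by norm_num)
    have h3 := hn.2.2.2 hlt
    exact ⟨hB.hol f h3.1 h3.2 (by linarith [hn.2.1]) hlt,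
      hB'.hol f h3.1 h3.2 (by linarith [hn.2.1]) hlt⟩
  set ψ : Pt → ℝ := fun f => w f - 1 * w' f with hψ
  set φ : Pt → ℝ := fun f => if f ∈ blk (s + 1) y then ψ f * η f ^ 2 else 0 with hφ
  have hφeq : ∀ e ∈ eT (blk (s + 1) y), ∀ f : Pt, (f = lf e ∨ f = rf e) →
      φ f = ψ f * η f ^ 2 := by
    intro e he f hf
    by_cases hfb : f ∈ blk (s + 1) y
    · simp only [hφ, if_pos hfb]
    · simp only [hφ, if_neg hfb]
      rcases le_or_gt y.2 f.2 with h | h
      · rw [hηout f hfb h]; ring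
      · obtain ⟨h1, h2⟩ := hface e he f hf h
        simp only [hψ, h1, h2]; ring
  have hlin1 := hlin φ (fun f hf => by simp only [hφ, if_neg hf]) (by
    intro e he hne
    have h1 := (hB.pr e he).2 hne
    have h2 := (hB'.pr e he).2 hne
    have h3 := hηabs e he hne
    unfold dv at h1 h2 h3 ⊢
    rw [hφeq e he _ (Or.inl rfl), hφeq e he _ (Or.inr rfl)]
    simp only [hψ]
    rw [sub_eq_zero.1 h1, sub_eq_zero.1 h2, sub_eq_zero.1 h3]
    ring)
  have hlin2 : ∑ e ∈ eB (Kept N) (blk (s + 1) y), Gr.cw q 1 lf rf w w' e *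
      (ψ (lf e) - ψ (rf e)) * (ψ (lf e) * η (lf e) ^ 2 - ψ (rf e) * η (rf e) ^ 2) = 0 := by
    rw [← hlin1]
    apply Finset.sum_congr rfl
    intro e he
    have he' : e ∈ eT (blk (s + 1) y) := (Finset.mem_filter.1 he).1
    rw [hφeq e he' _ (Or.inl rfl), hφeq e he' _ (Or.inr rfl)]
  have hcw0 : ∀ e, 0 ≤ Gr.cw q 1 lf rf w w' e := fun e => Gr.cw_nonneg hq2.le 1 lf rf w w' e
  have hcacc := Gr.lin_cacc_t (eB (Kept N) (blk (s + 1) y)) lf rf (Gr.cw q 1 lf rf w w') ψ η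
    (fun e _ => hcw0 e) hη0 hlin2
  -- the right side
  have hR : ∑ e ∈ (eB (Kept N) (blk (s + 1) y)).filter (fun e => ψ (lf e) ≠ 0 ∧ ψ (rf e) ≠ 0),
        Gr.cw q 1 lf rf w w' e * (max |ψ (lf e)| |ψ (rf e)| ^ 2 * (η (lf e) - η (rf e)) ^ 2) ≤
      δ ^ 2 * ((q - 1) * (Sz ^ ((q - 2) / q) * M3)) := by
    have hsubs : (eB (Kept N) (blk (s + 1) y)).filter (fun e => ψ (lf e) ≠ 0 ∧ ψ (rf e) ≠ 0) ⊆
        (eB (Kept N) (blk (s + 1) y)).filter (fun e => y.2 ≤ (lf e).2 ∧ y.2 ≤ (rf e).2) := by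
      intro e he
      rw [Finset.mem_filter] at he ⊢
      obtain ⟨he1, h1, h2⟩ := he
      have he' : e ∈ eT (blk (s + 1) y) := (Finset.mem_filter.1 he1).1
      refine ⟨he1, ?_, ?_⟩
      · by_contra hlt
        obtain ⟨h3, h4⟩ := hface e he' _ (Or.inl rfl) (not_le.1 hlt)
        apply h1
        simp only [hψ, h3, h4]; ring
      · by_contra hlt
        obtain ⟨h3, h4⟩ := hface e he' _ (Or.inr rfl) (not_le.1 hlt)
        apply h2
        simp only [hψ, h3, h4]; ring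
    have h1 : ∑ e ∈ (eB (Kept N) (blk (s + 1) y)).filter (fun e => ψ (lf e) ≠ 0 ∧ ψ (rf e) ≠ 0),
        Gr.cw q 1 lf rf w w' e * (max |ψ (lf e)| |ψ (rf e)| ^ 2 * (η (lf e) - η (rf e)) ^ 2) ≤
        ∑ e ∈ (eB (Kept N) (blk (s + 1) y)).filter (fun e => ψ (lf e) ≠ 0 ∧ ψ (rf e) ≠ 0),
          δ ^ 2 * (Gr.cw q 1 lf rf w w' e * (dv η e) ^ 2) := by
      apply Finset.sum_le_sum
      intro e he
      have he' : e ∈ eT (blk (s + 1) y) := (Finset.mem_filter.1 (Finset.mem_filter.1 he).1).1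
      obtain ⟨h3, h4⟩ := hsm e he'
      have h5 : max |ψ (lf e)| |ψ (rf e)| ≤ δ := by
        apply max_le
        · simp only [hψ, one_mul]; exact h3
        · simp only [hψ, one_mul]; exact h4
      have h6 : max |ψ (lf e)| |ψ (rf e)| ^ 2 ≤ δ ^ 2 :=
        pow_le_pow_left₀ (le_max_of_le_left (abs_nonneg _)) h5 2
      unfold dv
      have h7 : max |ψ (lf e)| |ψ (rf e)| ^ 2 * (η (lf e) - η (rf e)) ^ 2 ≤
          δ ^ 2 * (η (lf e) - η (rf e)) ^ 2 := mul_le_mul_of_nonneg_right h6 (sq_nonneg _)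
      have h8 := mul_le_mul_of_nonneg_left h7 (hcw0 e)
      linarith
    rw [← Finset.mul_sum] at h1
    refine h1.trans (mul_le_mul_of_nonneg_left ?_ (sq_nonneg _))
    refine (Finset.sum_le_sum_of_subset_of_nonneg hsubs fun e _ _ =>
      mul_nonneg (hcw0 e) (sq_nonneg _)).trans ?_
    refine (Gr.cw_upper hq2 zero_le_one _ lf rf w w' (dv η)).trans ?_
    apply mul_le_mul_of_nonneg_left _ hq1.le
    have h9 : 0 ≤ (q - 2) / q := div_nonneg (by linarith) hq0.le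
    have h10 : 0 ≤ 2 / q := by positivity
    apply mul_le_mul
    · apply Real.rpow_le_rpow (Finset.sum_nonneg fun e _ => hsz0 e) _ h9
      exact Finset.sum_le_sum_of_subset_of_nonneg (Finset.filter_subset _ _) fun e _ _ => hsz0 e
    · apply Real.rpow_le_rpow (Finset.sum_nonneg fun e _ => by positivity) _ h10
      exact hηsum.trans (le_max_left _ _)
    · exact Real.rpow_nonneg (Finset.sum_nonneg fun e _ => by positivity) _
    · exact Real.rpow_nonneg hSz0 _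
  -- the left side
  have hL : ∑ e ∈ eB (Kept N) (blk s y), Gr.cw q 1 lf rf w w' e *
      ((w (lf e) - w' (lf e)) - (w (rf e) - w' (rf e))) ^ 2 ≤
      ∑ e ∈ eB (Kept N) (blk (s + 1) y), Gr.cw q 1 lf rf w w' e *
        (min (η (lf e)) (η (rf e)) ^ 2 * (ψ (lf e) - ψ (rf e)) ^ 2) := by
    have hone : ∀ e ∈ eT (blk s y), ∀ f : Pt, (f = lf e ∨ f = rf e) → η f = 1 := by
      intro e he f hf
      rcases lt_or_ge f.2 y.2 with h | h
      · exact hηbel f h
      · apply hηins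
        have hn := FU_near he hf
        rw [FU_mem_ins]
        have hP : (1 : ℤ) ≤ 3 ^ s := one_le_pow₀ (by norm_num)
        rw [Nat.add_sub_cancel, pow_succ]
        generalize (3 : ℤ) ^ s = P at *
        omega
    have h1 : ∑ e ∈ eB (Kept N) (blk s y), Gr.cw q 1 lf rf w w' e *
        ((w (lf e) - w' (lf e)) - (w (rf e) - w' (rf e))) ^ 2 =
        ∑ e ∈ eB (Kept N) (blk s y), Gr.cw q 1 lf rf w w' e *
        (min (η (lf e)) (η (rf e)) ^ 2 * (ψ (lf e) - ψ (rf e)) ^ 2) := by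
      apply Finset.sum_congr rfl
      intro e he
      have he' : e ∈ eT (blk s y) := (Finset.mem_filter.1 he).1
      rw [hone e he' _ (Or.inl rfl), hone e he' _ (Or.inr rfl)]
      simp only [hψ, min_self, one_pow, one_mul]
    rw [h1]
    apply Finset.sum_le_sum_of_subset_of_nonneg
    · intro e he
      unfold eB at he ⊢
      rw [Finset.mem_filter] at he ⊢
      exact ⟨FU_eT_sub s y he.1, he.2⟩
    · intro e _ _
      have := hcw0 e
      positivity
  have hX : ∑ e ∈ eB (Kept N) (blk s y), Gr.cw q 1 lf rf w w' e *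
      ((w (lf e) - w' (lf e)) - (w (rf e) - w' (rf e))) ^ 2 ≤
      δ ^ 2 * (K₁ * Sz ^ ((q - 2) / q)) := by
    have h1 := hL.trans (hcacc.trans (mul_le_mul_of_nonneg_left hR (by norm_num)))
    refine h1.trans (le_of_eq ?_)
    rw [hK₁]; ring
  -- the end estimate
  have hend := Gr.end_estimate hq2 hHC (eB (Kept N) (blk s y)) lf rf w w'
  have hSz' : ∑ e ∈ eB (Kept N) (blk s y), Gr.sz 1 lf rf w w' e ^ q ≤ Sz := by
    apply Finset.sum_le_sum_of_subset_of_nonneg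
    · intro e he
      unfold eB at he ⊢
      rw [Finset.mem_filter] at he ⊢
      exact ⟨FU_eT_sub s y he.1, he.2⟩
    · intro e _ _
      exact hsz0 e
  have hX0 : 0 ≤ ∑ e ∈ eB (Kept N) (blk s y), Gr.cw q 1 lf rf w w' e *
      ((w (lf e) - w' (lf e)) - (w (rf e) - w' (rf e))) ^ 2 :=
    Finset.sum_nonneg fun e _ => mul_nonneg (hcw0 e) (sq_nonneg _)
  have hbound : ∑ e ∈ eB (Kept N) (blk s y),
      |phi q (w (lf e) - w (rf e)) - phi q (w' (lf e) - w' (rf e))| ^ p ≤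
      (q - 1) ^ (p / 2) * (K₁ ^ (p / 2) * (2 ^ q) ^ (2 - p)) * (δ ^ p * (E₁ + E₂) ^ (2 - p)) := by
    refine hend.trans ?_
    have hp2' : 0 ≤ p / 2 := by positivity
    have h1p : 0 ≤ 1 - p / 2 := by linarith
    have h1 := Real.rpow_le_rpow hX0 hX hp2'
    have h2 := Real.rpow_le_rpow (Finset.sum_nonneg fun e _ => hsz0 e) hSz' h1p
    have hSq0 : 0 ≤ Sz ^ ((q - 2) / q) := Real.rpow_nonneg hSz0 _
    have h3 : (δ ^ 2 * (K₁ * Sz ^ ((q - 2) / q))) ^ (p / 2) =
        δ ^ p * (K₁ ^ (p / 2) * Sz ^ (1 - p / 2)) := by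
      rw [Real.mul_rpow (sq_nonneg _) (mul_nonneg hK₁0 hSq0), Real.mul_rpow hK₁0 hSq0,
        ← Real.rpow_natCast, ← Real.rpow_mul hδ, ← Real.rpow_mul hSz0]
      congr 2
      · push_cast; ring
      · congr 1
        have h4 : 1 / q = 1 - 1 / p := by linarith
        have h5 : (q - 2) / q = 1 - 2 * (1 / q) := by field_simp
        rw [h5, h4]
        field_simp
        ring
    rw [h3] at h1
    have h4 : (∑ e ∈ eB (Kept N) (blk s y), Gr.cw q 1 lf rf w w' e *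
        ((w (lf e) - w' (lf e)) - (w (rf e) - w' (rf e))) ^ 2) ^ (p / 2) *
        (∑ e ∈ eB (Kept N) (blk s y), Gr.sz 1 lf rf w w' e ^ q) ^ (1 - p / 2) ≤
        (δ ^ p * (K₁ ^ (p / 2) * Sz ^ (1 - p / 2))) * Sz ^ (1 - p / 2) := by
      apply mul_le_mul h1 h2
      · exact Real.rpow_nonneg (Finset.sum_nonneg fun e _ => hsz0 e) _
      · have := Real.rpow_nonneg hSz0 (1 - p / 2)
        have := Real.rpow_nonneg hK₁0 (p / 2)
        have := Real.rpow_nonneg hδ p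
        positivity
    have h5 : Sz ^ (1 - p / 2) * Sz ^ (1 - p / 2) = Sz ^ (2 - p) := by
      rw [← Real.rpow_add_of_nonneg hSz0 h1p h1p]
      congr 1
      ring
    have h6 : Sz ^ (2 - p) ≤ (2 ^ q) ^ (2 - p) * (E₁ + E₂) ^ (2 - p) := by
      rw [← Real.mul_rpow (by positivity) (by linarith)]
      exact Real.rpow_le_rpow hSz0 hSzE (by linarith)
    have h7 : 0 ≤ (q - 1) ^ (p / 2) := Real.rpow_nonneg hq1.le _
    have h8 : 0 ≤ δ ^ p * K₁ ^ (p / 2) :=
      mul_nonneg (Real.rpow_nonneg hδ _) (Real.rpow_nonneg hK₁0 _)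
    calc (q - 1) ^ (p / 2) * ((∑ e ∈ eB (Kept N) (blk s y), Gr.cw q 1 lf rf w w' e *
        ((w (lf e) - w' (lf e)) - (w (rf e) - w' (rf e))) ^ 2) ^ (p / 2) *
        (∑ e ∈ eB (Kept N) (blk s y), Gr.sz 1 lf rf w w' e ^ q) ^ (1 - p / 2))
        ≤ (q - 1) ^ (p / 2) *
          ((δ ^ p * (K₁ ^ (p / 2) * Sz ^ (1 - p / 2))) * Sz ^ (1 - p / 2)) :=
          mul_le_mul_of_nonneg_left h4 h7
      _ = (q - 1) ^ (p / 2) * ((δ ^ p * K₁ ^ (p / 2)) * (Sz ^ (1 - p / 2) * Sz ^ (1 - p / 2))) := by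
          ring
      _ = (q - 1) ^ (p / 2) * ((δ ^ p * K₁ ^ (p / 2)) * Sz ^ (2 - p)) := by rw [h5]
      _ ≤ (q - 1) ^ (p / 2) * ((δ ^ p * K₁ ^ (p / 2)) *
            ((2 ^ q) ^ (2 - p) * (E₁ + E₂) ^ (2 - p))) :=
          mul_le_mul_of_nonneg_left (mul_le_mul_of_nonneg_left h6 h8) h7
      _ = _ := by ring
  -- conclusion
  have hEn := FU_En_le p (Kept N) (fun x => u x - u' x) (blk s y)
  have hdu : ∑ e ∈ eB (Kept N) (blk s y), |du (fun x => u x - u' x) e| ^ p =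
      ∑ e ∈ eB (Kept N) (blk s y),
        |phi q (w (lf e) - w (rf e)) - phi q (w' (lf e) - w' (rf e))| ^ p := by
    apply Finset.sum_congr rfl
    intro e he
    unfold eB at he
    rw [Finset.mem_filter] at he
    have he' := FU_eT_sub s y he.1
    have h1 := (hB.pr e he').1 he.2
    have h2 := (hB'.pr e he').1 he.2
    unfold du dv at h1 h2
    unfold du
    congr 2
    linarith
  rw [hdu] at hEn
  have hD0 : 0 ≤ δ ^ p * (E₁ + E₂) ^ (2 - p) :=
    mul_nonneg (Real.rpow_nonneg hδ _) (Real.rpow_nonneg (by linarith) _)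
  calc En p (Kept N) (fun x => u x - u' x) (blk s y)
      ≤ 2 * ((q - 1) ^ (p / 2) * (K₁ ^ (p / 2) * (2 ^ q) ^ (2 - p)) *
          (δ ^ p * (E₁ + E₂) ^ (2 - p))) :=
        hEn.trans (mul_le_mul_of_nonneg_left hbound (by norm_num))
    _ = (2 * ((q - 1) ^ (p / 2) * (K₁ ^ (p / 2) * (2 ^ q) ^ (2 - p)))) *
          (δ ^ p * (E₁ + E₂) ^ (2 - p)) := by ring
    _ ≤ C * (δ ^ p * (E₁ + E₂) ^ (2 - p)) :=
        mul_le_mul_of_nonneg_right (le_max_right _ _) hD0

end CarpetPI
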