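import Pool.Agent.Lib.MP_1d263a_an.PI.StmX

/-!
# MP_1d263a_an, project PI, part D: size estimates in a near-constant cell, no concentration on continua

Every `S_Dx : Prop` is one piece; its complete proof is in the docstring. Files: `PI/Dx.lean`, theorem
`p_Dx : S_Dx` (with the pieces named after the word Uses as hypotheses, in this order).

Conventions. At level `N` a cell of size `3^t` (`t ≤ N`) is a `q ∈ Kept (N - t)`; its faces are
`cell t q`, its measure is `D.mu (N - t) q`. The cell `Q` of size `3^T` carries a pair `(u, v)` whose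
energy is comparable to the measure on all cells of size `3^t`, `T - L ≤ t ≤ T`, in `Q`.
-/

open Finset
open scoped Classical

noncomputable section

namespace CarpetPI

/-- the edges with both ends in the closed cell `Q` of size `3^T` -/
def cellE (T : ℕ) (Q : Pt) : Set Ed := {e | tl e ∈ cellV T Q ∧ hd e ∈ cellV T Q}

/-- the cell `q` of size `3^t` is in the cell `Q` of size `3^T`, and so are all squares of size `3^t` at
distance at most `m` from it -/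
def Deep (m t T : ℕ) (Q q : Pt) : Prop := ∀ f : Pt, dis f q ≤ m → f ∈ cell (T - t) Q

/-- the ancestor of size `3^t` of a face -/
def up (t : ℕ) (f : Pt) : Pt := (f.1 / 3 ^ t, f.2 / 3 ^ t)

/-- The situation: a pair `(u, v)` on the cell `Q` of size `3^T` of the level `N` network with the tile
property and near-constant energy to depth `L`. -/
structure Sit (p : ℝ) (D : Dat p) (N T L : ℕ) (Q : Pt) (u v : Pt → ℝ) : Prop where
  TN : T ≤ N
  LT : L ≤ T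
  hQ : Q ∈ Kept (N - T)
  pair : Pair p (Kept N) (cellE T Q) u v
  tile : Tile (Kept N) (cellE T Q) u v
  lo : ∀ t ≤ T, T ≤ t + L → ∀ q ∈ Kept (N - t), q ∈ cell (T - t) Q →
    D.mu (N - t) q ≤ 2 * En p (Kept N) u (cell t q)
  hi : ∀ t ≤ T, T ≤ t + L → ∀ q ∈ Kept (N - t), q ∈ cell (T - t) Q →
    En p (Kept N) u (cell t q) ≤ 2 * D.mu (N - t) q

/-- [DA] geometry of cells. Uses: nothing.
Proof. (1) the ternary digits of `f / 3^t` are the digits of `f` from place `t` on. (2) `f.1 / 3^t = q.1`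
iff `q.1 3^t ≤ f.1 < (q.1+1) 3^t`. (3) let `x ∈ nbV m t q`: the square `(q.1 - m, q.2)` of size `3^t` is in
`cell (T - t) Q`, so `Q.1 3^(T-t) ≤ q.1 - m` and `Q.1 3^T ≤ (q.1 - m) 3^t ≤ x.1`; in the same way
`q.1 + m + 1 ≤ (Q.1+1) 3^(T-t)`, and the second coordinate. (4) the same. (5) `nb m t q` is the disjoint
union of `cell t f`, `f` a lattice point with `dis f q ≤ m`, and a face in `Kept N` has its ancestor in
`Kept (N - t)`; so the sum over the kept faces in `nb m t q` is the double sum. (6) a corner `x` of the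
face `f`, `f ∈ nb m t q`, is in `nbV m t q`. (7) the four sides of a face have their ends among its
corners, and every present edge is a side of a kept face. -/
def S_DA : Prop :=
  (∀ (N t : ℕ), t ≤ N → ∀ f ∈ Kept N, up t f ∈ Kept (N - t)) ∧
  (∀ (t : ℕ) (f q : Pt), f ∈ cell t q ↔ up t f = q) ∧
  (∀ (m t T : ℕ) (Q q : Pt), t ≤ T → Deep m t T Q q → nbV m t q ⊆ cellV T Q) ∧
  (∀ (m t T : ℕ) (Q q : Pt), t ≤ T → Deep m t T Q q → nb m t q ⊆ cell T Q) ∧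
  (∀ (m N t : ℕ) (q : Pt) (φ : Pt → ℝ), t ≤ N → ∑ f ∈ (nb m t q).filter (· ∈ Kept N), φ f =
    ∑ g ∈ (nb m 0 q).filter (· ∈ Kept (N - t)), ∑ f ∈ (cell t g).filter (· ∈ Kept N), φ f) ∧
  (∀ (m t : ℕ) (q f x : Pt), f ∈ nb m t q → IsCor x f → x ∈ nbV m t q) ∧
  (∀ (f : Pt), ∀ e ∈ sides f, IsCor (tl e) f ∧ IsCor (hd e) f ∧ (lf e = f ∨ rf e = f)) ∧
  (∀ (K : Set Pt) (e : Ed), pres K e → ∃ f ∈ K, e ∈ sides f)

/-- [DB] the network is connected. Uses: nothing.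
Proof. Induction over `N`. `Kept 0 = {(0, 0)}`, the four corners are joined by the sides. Step: the
faces in `Kept (N + 1)` are the faces `3^N c + f`, `c ∈ kids`, `f ∈ Kept N` (the digit at place `N` is `c`, the
others are those of `f`). So the network of `Kept (N + 1)` is the union of eight translates of the network
of `Kept N`; each is connected; the translates for `c` and `c + (1, 0)` have the vertex
`3^N (c + (1, 0))` in common (`(3^N, 0)` is a corner of the face `(3^N - 1, 0) ∈ Kept N` and `(0, 0)` is a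
corner of `(0, 0) ∈ Kept N`), the same for `c` and `c + (0, 1)`, and the eight places of `kids` form a
cycle of such neighbours. -/
def S_DB : Prop := ∀ N : ℕ, Conn (Kept N) (VK (Kept N))

/-- [DC] simple properties of pairs. Uses: `S_DA`.
Proof. (1) `phi p t` has the sign of `t`, `phi p t = 0` iff `t = 0` (`p > 1`), `phi p t * t = |t|^p`,
`|phi p t|^r = |t|^p` as `(p - 1) r = p`. (2), (3) immediate. (4) each side of a kept face is
present; sum over the sides. (5) `(-u, -v)` (`phi` is odd). (6) is (1) again. -/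
def S_DC : Prop := ∀ (p r : ℝ), 1 < p → 1 / p + 1 / r = 1 → ∀ (K : Set Pt) (R : Set Ed) (u v : Pt → ℝ),
  Pair p K R u v →
  (∀ e ∈ R, ¬ pres K e → dv v e = 0) ∧
  (∀ e ∈ R, pres K e → |du u e| ^ p = |du u e| * |dv v e| ∧ |dv v e| ^ r = |du u e| ^ p) ∧
  (∀ e ∈ R, dv v e ≠ 0 → 0 < du u e * dv v e) ∧
  (∀ e ∈ R, pres K e → du u e ≠ 0 → 0 < du u e * dv v e) ∧
  (∀ G : Finset Pt, (∀ f ∈ G, f ∈ K → ∀ e ∈ sides f, e ∈ R) → EnD r K v G = En p K u G) ∧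
  Pair p K R (fun x => - u x) (fun x => - v x)

/-- [DD] the energy of a neighbourhood. Uses: `S_XJ`, `S_DA`.
Proof. By `S_DA` (5) with `φ = fe p u`: `En p (Kept N) u (nb m t q)` is the sum of
`En p (Kept N) u (cell t g)` over the `g ∈ Kept (N - t)` with `dis g q ≤ m` (that is
`g ∈ nb m 0 q`), these are in `cell (T - t) Q` (`Deep`), so each is at most
`2 mu (N - t) g ≤ 2 C mu (N - t) q` (`S_XJ` (2)); there are at most `(2 m + 1)^2` of them. -/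
def S_DD : Prop := ∀ (p : ℝ), 1 < p → ∀ (D : Dat p) (m : ℕ), ∃ C : ℝ, 1 ≤ C ∧
  ∀ (N T L : ℕ) (Q : Pt) (u v : Pt → ℝ), Sit p D N T L Q u v → ∀ t ≤ T, T ≤ t + L →
  ∀ q ∈ Kept (N - t), Deep m t T Q q → En p (Kept N) u (nb m t q) ≤ C * D.mu (N - t) q

/-- [DE] the oscillation of `u` on a cell. Uses: `S_XI`, `S_DA`, `S_DB`, `S_DC`, `S_DD`.
Proof. `m = κ + 1`. Let `u x > u y`, `α = u y`, `β = u x`. Let `B` be the finite set of the lattice points at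
distance less than `3^t` from `cellV t q` (the interior of `nbV 1 t q`); all edges with an end in `B` are in
`cellE T Q` (`S_DA` (3)). `S_XI` with `(z, φ) = (u, v)`, `M = β`, `x₀ = x` (`X = VK (Kept N)`, `S_DB`; it
contains the corner `mulP (3^T) Q` of the cell `Q` (a corner of the face `3^T Q`), which is not in the
interior of `cellV T Q ⊇ nbV 1 t q`, so not in `B`) gives a connected set `K₁` on which `u ≥ β`,
containing `x` and a point at distance at least `3^t` from all points of `cellV t q`. In the same way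
with `(-u, -v)` a connected set `K₂` on which `u ≤ α`, from `y`. `Dat.lw`:
`(β - α)^p ≤ A En p (Kept N) u (nb κ t q)` and `S_DD` (with `m := κ`). -/
def S_DE : Prop := ∀ (p : ℝ), 1 < p → ∀ (D : Dat p), ∃ (C : ℝ) (m : ℕ), 1 ≤ C ∧
  ∀ (N T L : ℕ) (Q : Pt) (u v : Pt → ℝ), Sit p D N T L Q u v → ∀ t ≤ T, T ≤ t + L →
  ∀ q ∈ Kept (N - t), Deep m t T Q q → ∀ x ∈ VK (Kept N), ∀ y ∈ VK (Kept N), x ∈ cellV t q →
  y ∈ cellV t q → |u x - u y| ^ p ≤ C * D.mu (N - t) q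

/-- [DF] the oscillation of `v` near a cell. Uses: `S_XH`, `S_XL`, `S_DA`, `S_DC`, `S_DD`.
Proof. `m = R + 1`. Let `v f > v g`, `f, g ∈ nb R t q`, `B = nb (R + 1) t q` (faces). All edges with a face in
`B` are in `cellE T Q` (`S_DA` (4): the face is in `cell T Q`). `S_XH` with `(z, φ) = (u, v)`, `M = v f`: a
connected set `P'` of faces with `v ≥ v f`, from `f` to a face `f' ∉ nb (R+1) t q`; the lower left
corner of `f` is in `nbV R t q`, and `f'` has a corner which is not in the interior of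
`nbV (R+1) t q` (the lower left or the upper right one). With `(-u, -v)`: `P` from `g` with `v ≤ v g`. `S_XL`:
`(v f - v g)^r ≤ C EnD r (Kept N) v (nb (R+1) t q) = C En p (Kept N) u (nb (R+1) t q)` (`S_DC` (5)),
and `S_DD`. -/
def S_DF : Prop := ∀ (p r : ℝ), 1 < p → 1 / p + 1 / r = 1 → ∀ (D : Dat p) (R : ℕ), ∃ C : ℝ, 1 ≤ C ∧
  ∀ (N T L : ℕ) (Q : Pt) (u v : Pt → ℝ), Sit p D N T L Q u v → ∀ t ≤ T, T ≤ t + L →
  ∀ q ∈ Kept (N - t), Deep (R + 1) t T Q q → ∀ f ∈ nb R t q, ∀ g ∈ nb R t q,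
  |v f - v g| ^ r ≤ C * D.mu (N - t) q

/-- [DG] area of tiles. Uses: nothing.
Proof. The open rectangles `Ioo (min (u tl) (u hd)) (max …) ×ˢ Ioo (min (v lf) (v rf)) (max …)` of the
different edges `e ∈ E` are disjoint (`Tile`) and contained in `[U₀, U₁] × [V₀, V₁]`; the area of the
rectangle of `e` is `|du u e| |dv v e|` (volume in `ℝ × ℝ`, `MeasureTheory.measure_biUnion_finset`). -/
def S_DG : Prop := ∀ (K : Set Pt) (R : Set Ed) (u v : Pt → ℝ), Tile K R u v →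
  ∀ (E : Finset Ed) (U₀ U₁ V₀ V₁ : ℝ), U₀ ≤ U₁ → V₀ ≤ V₁ → (∀ e ∈ E, e ∈ R ∧ pres K e) →
  (∀ e ∈ E, U₀ ≤ u (tl e) ∧ u (tl e) ≤ U₁ ∧ U₀ ≤ u (hd e) ∧ u (hd e) ≤ U₁ ∧
    V₀ ≤ v (lf e) ∧ v (lf e) ≤ V₁ ∧ V₀ ≤ v (rf e) ∧ v (rf e) ≤ V₁) →
  ∑ e ∈ E, |du u e| * |dv v e| ≤ (U₁ - U₀) * (V₁ - V₀)

/-- [DH] the energy of a set of faces. Uses: `S_DA`, `S_DC`, `S_DG`.
Proof. Let `E` be the finite set of all sides of the faces in `G ∩ Kept N`; they are present, in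
`cellE T Q`, each is a side of at most two faces, so
`En = ∑_{f} ∑_{e ∈ sides f} |du u e|^p ≤ 2 ∑_{e ∈ E} |du u e|^p = 2 ∑_{e ∈ E} |du u e| |dv v e|`, and `S_DG`. -/
def S_DH : Prop := ∀ (p : ℝ), 1 < p → ∀ (D : Dat p) (N T L : ℕ) (Q : Pt) (u v : Pt → ℝ),
  Sit p D N T L Q u v → ∀ (G : Finset Pt) (U₀ U₁ V₀ V₁ : ℝ), U₀ ≤ U₁ → V₀ ≤ V₁ → G ⊆ cell T Q →
  (∀ f ∈ G, f ∈ Kept N → ∀ x, IsCor x f → U₀ ≤ u x ∧ u x ≤ U₁) →
  (∀ f ∈ G, f ∈ Kept N → ∀ g : Pt, dis f g ≤ 1 → V₀ ≤ v g ∧ v g ≤ V₁) →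
  En p (Kept N) u G ≤ 2 * (U₁ - U₀) * (V₁ - V₀)

/-- [DI] lower bounds for the oscillations. Uses: `S_DA`, `S_DE`, `S_DF`, `S_DH`.
Proof. Apply `S_DH` to `G = cell t q` with `U₀, U₁` the minimum and the maximum of `u` over the vertices of
the network in `cellV t q` (finite, nonempty) and `V₀, V₁` those of `v` over `nb 1 t q` (it contains all
faces at distance at most `1` from the faces in `cell t q`). With `μ = D.mu (N - t) q`:
`μ / 2 ≤ En ≤ 2 (U₁ - U₀) (V₁ - V₀)` (`Sit.lo`), `(U₁ - U₀)^p ≤ C μ` (`S_DE`), `(V₁ - V₀)^r ≤ C μ` (`S_DF`,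
`R = 1`); so `U₁ - U₀ ≥ μ / (4 (V₁ - V₀)) ≥ μ^(1 - 1/r) / (4 C^(1/r)) = μ^(1/p) / (4 C^(1/r))`, and the same
for `V₁ - V₀`. -/
def S_DI : Prop := ∀ (p r : ℝ), 1 < p → 1 / p + 1 / r = 1 → ∀ (D : Dat p), ∃ (C : ℝ) (m : ℕ), 1 ≤ C ∧
  ∀ (N T L : ℕ) (Q : Pt) (u v : Pt → ℝ), Sit p D N T L Q u v → ∀ t ≤ T, T ≤ t + L →
  ∀ q ∈ Kept (N - t), Deep m t T Q q →
  (∃ x ∈ VK (Kept N), ∃ y ∈ VK (Kept N), x ∈ cellV t q ∧ y ∈ cellV t q ∧
    D.mu (N - t) q ≤ C * |u x - u y| ^ p) ∧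
  (∃ f ∈ nb 1 t q, ∃ g ∈ nb 1 t q, D.mu (N - t) q ≤ C * |v f - v g| ^ r)

/-- [DJ] decay of the measure. Uses: `S_DA`.
Proof. (1) `q' = kid q c`: the points `z = mulP 3 q`, `z' = mulP 3 (q.1+1, q.2)`, `x = q'`,
`y = q' + (1,0)` at level `n + 1` satisfy `dis z x, dis z' x ≤ 3 = 3 dis x y`, so
`d n q (q+(1,0)) = d (n+1) z z' ≤ 2 η 3 d (n+1) x y` (`d_scale`, `qs`), and
`mu n q ≤ A (2 η 3)^p A mu (n+1) q'` (`ahl`). (2) `mu n q = ∑ mu (kids) ≥ mu (n+1) q' + mu (n+1) q''` for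
another kid `q''`, so `mu (n+1) q' ≤ (1 - 1/C) mu n q`. (3), (4) by induction over `j`: for `f ∈ Kept (n+j)`
the ancestor `up j f` is in `Kept n`, and `up (j+1) f` is the parent of `up j f`. -/
def S_DJ : Prop := ∀ (p : ℝ), 1 ≤ p → ∀ (D : Dat p), ∃ C ν : ℝ, 1 ≤ C ∧ 0 < ν ∧ ν < 1 ∧
  (∀ (n : ℕ), ∀ f ∈ Kept (n + 1), D.mu n (up 1 f) ≤ C * D.mu (n + 1) f ∧
    D.mu (n + 1) f ≤ ν * D.mu n (up 1 f)) ∧
  (∀ (n j : ℕ), ∀ f ∈ Kept (n + j), D.mu (n + j) f ≤ ν ^ j * D.mu n (up j f))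

/-- [DK] stopping cells. Uses: `S_DA`, `S_DJ`, `S_XJ`.
Let `0 < τ ≤ 1`. Proof. Let `C, ν` be from `S_DJ`, `C₂` from `S_XJ` (2) with `m = 2`, and let `L₀` be such that
`ν^(L₀) C₂ ≤ τ / (2 C₂)`; put `τ' = τ / (2 C₂)`. Let `f ∈ Kept N ∩ nb 2 t q`, `μ_j = mu (N - j) (up j f)` for
`j ≤ t`; `μ_j` is nondecreasing in `j` (`S_DJ`, `ν < 1`), `dis (up t f) q ≤ 2`, so
`mu q / C₂ ≤ μ_t ≤ C₂ mu q`; `μ_t > τ' mu q`; and `μ_(t-L₀) ≤ ν^(L₀) μ_t ≤ τ' mu q`. Let `j f` be the largest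
`j ≤ t` with `μ_j ≤ τ' mu q`. Then `t - L₀ ≤ j f < t` and
`μ_(j f) ≥ μ_(j f + 1) / C > τ' mu q / C`. Two faces `f, f'` with
`j f ≤ j f'` and `up (j f') f = up (j f') f'`: then `μ_(j f')(f) = μ_(j f')(f') ≤ τ' mu q`, so
`j f ≥ j f'`, so `j f = j f'`. (The constant `C` of the statement is `2 C C₂`.) -/
def S_DK : Prop := ∀ (p : ℝ), 1 ≤ p → ∀ (D : Dat p), ∃ C : ℝ, 1 ≤ C ∧ ∀ τ : ℝ, 0 < τ → τ ≤ 1 →
  ∃ L₀ : ℕ, ∀ (N t : ℕ), t ≤ N → L₀ ≤ t → ∀ q ∈ Kept (N - t), ∃ j : Pt → ℕ,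
  (∀ f ∈ Kept N, f ∈ nb 2 t q → j f ≤ t ∧ t ≤ j f + L₀ ∧
    D.mu (N - j f) (up (j f) f) ≤ τ * D.mu (N - t) q ∧
    τ * D.mu (N - t) q ≤ C * D.mu (N - j f) (up (j f) f)) ∧
  (∀ f ∈ Kept N, f ∈ nb 2 t q → ∀ f' ∈ Kept N, f' ∈ nb 2 t q →
    Disjoint (cell (j f) (up (j f) f)) (cell (j f') (up (j f') f')) ∨
    (j f = j f' ∧ up (j f) f = up (j f') f'))

/-- [DL] chain lemma (loop erasure). Uses: nothing.
`x 0, …, x m` are points, the step from `x i` to `x (i+1)` has the label `g i`.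
Proof. Strong induction on `m`. `m = 0`: `dd (x 0) (x 0) = 0 ≤` the sum. Let `i < m` be the largest index
with `g i = g 0`. Then `dd (x 0) (x (i+1)) ≤ w (g 0)`, and the sequence `x (i+1), …, x m` has labels
different from `g 0`; by induction `dd (x (i+1)) (x m) ≤ ∑ w` over the labels of the steps `> i`; the
triangle inequality. -/
def S_DL : Prop := ∀ (dd : Pt → Pt → ℝ) (m : ℕ) (x : ℕ → Pt) (g : ℕ → ℕ × Pt) (w : ℕ × Pt → ℝ),
  (∀ a, dd a a = 0) →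
  (∀ i ≤ m, ∀ j ≤ m, ∀ k ≤ m, dd (x i) (x k) ≤ dd (x i) (x j) + dd (x j) (x k)) →
  (∀ a, 0 ≤ w a) → (∀ i < m, ∀ j < m, i ≤ j → g i = g j → dd (x i) (x (j + 1)) ≤ w (g i)) →
  dd (x 0) (x m) ≤ ∑ a ∈ (range m).image g, w a

/-- [DM] a path in a connected set. Uses: nothing.
Proof. Take a chain in `E` from `x ∈ cellV t q` to `y` (`Relation.ReflTransGen`), as a sequence
`x 0 = x, …, x m'`, and cut it at the first index `m` for which `x m` is at distance at least `3^t` from all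
points of `cellV t q` (equivalently: not in the interior of `nbV 1 t q`). All `x i`, `i ≤ m`, are in
`nbV 1 t q` (the step before the first exit starts in the interior and `dis (x i) (x (i+1)) = 1`). Each
step is a present edge, a side of a kept face `b i`, which has a corner in `nbV 1 t q`, so
`b i ∈ nb 2 t q`. -/
def S_DM : Prop := ∀ (N t : ℕ) (q : Pt) (E : Set Pt), Conn (Kept N) E →
  (∃ x ∈ E, x ∈ cellV t q) → (∃ x ∈ E, ∀ y ∈ cellV t q, (3 : ℤ) ^ t ≤ dis x y) →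
  ∃ (m : ℕ) (x : ℕ → Pt) (b : ℕ → Pt), (∀ i ≤ m, x i ∈ E ∧ x i ∈ nbV 1 t q) ∧ x 0 ∈ cellV t q ∧
    (∀ y ∈ cellV t q, (3 : ℤ) ^ t ≤ dis (x m) y) ∧
    ∀ i < m, b i ∈ Kept N ∧ b i ∈ nb 2 t q ∧ IsCor (x i) (b i) ∧ IsCor (x (i + 1)) (b i)

/-- [DN] many stopping cells along a connected set. Uses: `S_DA`, `S_DK`, `S_DL`, `S_DM`, `S_XJ`.
Proof. Let `C` be from `S_DK`. Take the path of `S_DM` and `j` from `S_DK`, labels `g i = (j (b i), up (j (b i)) (b i))`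
(a cell of size `3^j`), `dd = D.d N`. If two steps `i ≤ k` have the same label, the points
`x i`, `x (k+1)` are both in the closed cell `cellV j g` of size `3^j` (corners of faces in the cell), so
their `dis` is at most `3^j`; the corners `z = mulP (3^j) g`, `z' = mulP (3^j) (g.1+1, g.2)` have
`dis = 3^j`, so `d x z ≤ η 1 d z z'` for `x` in the closed cell (`qs` at `z`) and
`d (x i) (x (k+1)) ≤ 2 η 1 ρ(g)`, where `ρ(g) = d (N - j) g (g.1+1, g.2)` (`d_scale` iterated) and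
`ρ(g)^p ≤ A mu(g) ≤ A τ mu q`. So `w = 2 η 1 (A τ mu q)^(1/p)` for all labels, and by `S_DL`
`d (x 0) (x m) ≤ n w`, `n` the number of different labels. Also `dis (x 0) (x m) ≥ 3^t`, so with the corners
`z, z'` of the cell `q` (`dis (x 0) z, dis (x 0) z' ≤ 3^t`): `ρ(q) ≤ 2 η 1 d (x 0) (x m)`, and
`mu q ≤ A ρ(q)^p`. Hence `mu q ^ (1/p) ≤ C' n τ^(1/p) mu q ^ (1/p)`, so `n ≥ τ^(-1/p) / C'`. Let `G` be a set of
faces `b i` with one face for each label. By `S_DK` different labels have disjoint cells, and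
`∑_{b ∈ G} mu (cell of b) ≥ n τ mu q / C ≥ τ^(1 - 1/p) mu q / (C C')`. -/
def S_DN : Prop := ∀ (p : ℝ), 1 < p → ∀ (D : Dat p), ∃ C : ℝ, 1 ≤ C ∧ ∀ τ : ℝ, 0 < τ → τ ≤ 1 →
  ∃ L₀ : ℕ, ∀ (N t : ℕ), t ≤ N → L₀ ≤ t → ∀ q ∈ Kept (N - t), ∀ E : Set Pt, Conn (Kept N) E →
  (∃ x ∈ E, x ∈ cellV t q) → (∃ x ∈ E, ∀ y ∈ cellV t q, (3 : ℤ) ^ t ≤ dis x y) →
  ∃ (G : Finset Pt) (j : Pt → ℕ), (∀ b ∈ G, b ∈ Kept N ∧ b ∈ nb 2 t q ∧ j b ≤ t ∧ t ≤ j b + L₀ ∧
      (∃ x ∈ E, IsCor x b) ∧ D.mu (N - j b) (up (j b) b) ≤ τ * D.mu (N - t) q) ∧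
    (∀ b ∈ G, ∀ b' ∈ G, b ≠ b' → Disjoint (cell (j b) (up (j b) b)) (cell (j b') (up (j b') b'))) ∧
    τ ^ (1 - 1 / p) * D.mu (N - t) q ≤ C * ∑ b ∈ G, D.mu (N - j b) (up (j b) b)

/-- [DO] NO CONCENTRATION ON CONTINUA (III'). Uses: `S_DA`, `S_DE`, `S_DF`, `S_DH`, `S_DN`.
Proof. Let `μ = D.mu (N - t) q`, `ω` the supremum of `|u x - u y|` over `x, y ∈ E` if it is at most
`ε μ^(1/p)` (otherwise we are done); then all `u x`, `x ∈ E`, are in an interval `[a, a + ε μ^(1/p)]`.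
Take `G`, `j` from `S_DN` for `τ` (to be chosen) and let `G'` be the union of the cells
`cell (j b) (up (j b) b)`, `b ∈ G` (disjoint). For `b ∈ G` the closed cell contains a point of `E` (a corner
of `b`), so by `S_DE` (for the cell `up (j b) b`, which is deep enough if `q` is: it is in `nb 2 t q` and
smaller) the values of `u` at the vertices of the network in the closed cell are in
`[a - (C τ μ)^(1/p), a + ε μ^(1/p) + (C τ μ)^(1/p)]`. The faces at distance at most `1` from `G'` are in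
`nb 3 t q`, so `v` has values in an interval of length `(C μ)^(1/r)` there (`S_DF`, `R = 3`). By `S_DH`:
`∑_{b ∈ G} En p (Kept N) u (cell …) = En p (Kept N) u G' ≤ 2 (ε + 2 (C τ)^(1/p)) μ^(1/p) (C μ)^(1/r)`, and by
`Sit.lo` and `S_DN` the left side is at least `(1/2) ∑ mu ≥ τ^(1 - 1/p) μ / (2 C)`. So
`τ^(1 - 1/p) ≤ C₁ (ε + τ^(1/p))` with `C₁` depending only on `p`, `D`. As `p < 2`, `1 - 1/p < 1/p`, so there is
`τ ∈ (0, 1]` with `C₁ τ^(1/p) ≤ τ^(1 - 1/p) / 2`; then `ε ≥ τ^(1 - 1/p) / (2 C₁)`: so the statement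
holds with `ε₀ = τ^(1 - 1/p) / (4 C₁)` (and `ε₀ ≤ 1`). `m` is the `m` of `S_DE` plus `4`. -/
def S_DO : Prop := ∀ (p : ℝ), 1 < p → p < 2 → ∀ (D : Dat p), ∃ (ε : ℝ) (m L₀ : ℕ), 0 < ε ∧
  ∀ (N T L : ℕ) (Q : Pt) (u v : Pt → ℝ), Sit p D N T L Q u v → ∀ t ≤ T, T + L₀ ≤ t + L →
  ∀ q ∈ Kept (N - t), Deep m t T Q q → ∀ E : Set Pt, Conn (Kept N) E →
  (∃ x ∈ E, x ∈ cellV t q) → (∃ x ∈ E, ∀ y ∈ cellV t q, (3 : ℤ) ^ t ≤ dis x y) →
  ∃ x ∈ E, ∃ y ∈ E, ε * D.mu (N - t) q ^ (1 / p) ≤ |u x - u y|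

end CarpetPI
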