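import Pool.Agent.Lib.MP_1d263a_an.PI.StmC
import Pool.Agent.Lib.MP_1d263a_an.PI.StmD
import Pool.Agent.Lib.MP_1d263a_an.PI.B

open Finset
open scoped Classical

noncomputable section

namespace CarpetPI.PB

theorem sum_le_sides (a : Ed → ℝ) (ha : ∀ e, 0 ≤ a e) (B : Finset Pt) (T : Finset Ed)
    (h : ∀ e ∈ T, ∃ f ∈ B, e ∈ sides f) : ∑ e ∈ T, a e ≤ ∑ f ∈ B, ∑ e ∈ sides f, a e := by
  have e1 : ∑ e ∈ T, a e ≤ ∑ e ∈ T, ∑ f ∈ B, if e ∈ sides f then a e else 0 := by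
    refine Finset.sum_le_sum fun e he => ?_
    obtain ⟨f, hf, hef⟩ := h e he
    have := Finset.single_le_sum (f := fun f => if e ∈ sides f then a e else 0) (s := B)
      (fun g _ => by
        split_ifs
        · exact ha e
        · exact le_rfl) hf
    simp only [if_pos hef] at this
    exact this
  refine e1.trans ?_
  rw [Finset.sum_comm]
  refine Finset.sum_le_sum fun f _ => ?_
  rw [← Finset.sum_filter]
  refine Finset.sum_le_sum_of_subset_of_nonneg ?_ (fun e _ _ => ha e)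
  intro e he
  exact (Finset.mem_filter.1 he).2

/-- the global pairs -/
theorem glob (hG : S_CG) {p : ℝ} (hp : 1 < p) (D : Dat p) :
    ∃ C₀ : ℝ, ∃ (u v : ℕ → Pt → ℝ) (I : ℕ → ℝ), ∀ N : ℕ,
      RPot p (Kept N) (3 ^ N) (3 ^ N) (u N) (v N) (I N) ∧
      En p (Kept N) (u N) (cell N (0, 0)) ≤ C₀ := by
  obtain ⟨C, hC⟩ := hG p hp D
  have hW : ∀ N : ℕ, (1:ℤ) ≤ 3 ^ N := fun N => one_le_pow₀ (by norm_num)
  have hex : ∀ N : ℕ, ∃ (u v : Pt → ℝ) (I : ℝ), RPot p (Kept N) (3 ^ N) (3 ^ N) u v I :=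
    fun N => t_BRC p hp (Kept N) (3 ^ N) (3 ^ N) (hW N) (by positivity)
  choose u v I hP using hex
  refine ⟨2 * C, u, v, I, fun N => ⟨hP N, ?_⟩⟩
  obtain ⟨w, hw0, hw1, hwE⟩ := hC N
  have h1 := (hP N).minim w hw0 hw1
  have hmem : ∀ f : Pt, f ∈ (cell N (0, 0)).filter (· ∈ Kept N) ↔ f ∈ Kept N := by
    intro f
    rw [Finset.mem_filter]
    refine ⟨fun h => h.2, fun h => ⟨?_, h⟩⟩
    simp only [cell, box, Finset.mem_product, Finset.mem_Ico, zero_mul, zero_add, one_mul]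
    exact ⟨⟨h.1, h.2.1⟩, ⟨h.2.2.1, h.2.2.2.1⟩⟩
  have h2 : ∑ e ∈ (RE (3 ^ N) (3 ^ N)).filter (pres (Kept N)), |du w e| ^ p ≤
      En p (Kept N) w (cell N (0, 0)) := by
    unfold En fe
    refine sum_le_sides (fun e => |du w e| ^ p) (fun e => Real.rpow_nonneg (abs_nonneg _) _) _ _ ?_
    intro e he
    rcases (Finset.mem_filter.1 he).2 with h | h
    · exact ⟨lf e, (hmem _).2 h, (mem_sides_iff e _).2 (Or.inl rfl)⟩
    · exact ⟨rf e, (hmem _).2 h, (mem_sides_iff e _).2 (Or.inr rfl)⟩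
  have h3 : En p (Kept N) (u N) (cell N (0, 0)) ≤ 2 * I N := by
    rw [(hP N).energy]
    unfold En fe
    refine sum_sides_le_two (fun e => |du (u N) e| ^ p) (fun e => Real.rpow_nonneg (abs_nonneg _) _) _ _ ?_
    intro f hf
    have hf' := (hmem f).1 hf
    exact sides_subset_RE hf'.1 hf'.2.1 hf'.2.2.1 hf'.2.2.2.1 hf'
  linarith

theorem cellE_sub (N T : ℕ) (hT : T ≤ N) (Q : Pt) (hQ : Q ∈ Kept (N - T)) :
    cellE T Q ⊆ (↑(RE (3 ^ N) (3 ^ N)) : Set Ed) := by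
  rintro ⟨b, i, j⟩ ⟨h1, h2⟩
  obtain ⟨q0, q1, q2, q3, -⟩ := hQ
  have hpos : (0:ℤ) < 3 ^ T := by positivity
  have hN : (3:ℤ) ^ (N - T) * 3 ^ T = 3 ^ N := by
    rw [← pow_add]; congr 1; omega
  have a1 : (Q.1 + 1) * 3 ^ T ≤ 3 ^ N := by
    rw [← hN]; exact mul_le_mul_of_nonneg_right (by omega) hpos.le
  have a2 : (Q.2 + 1) * 3 ^ T ≤ 3 ^ N := by
    rw [← hN]; exact mul_le_mul_of_nonneg_right (by omega) hpos.le
  have a3 : 0 ≤ Q.1 * 3 ^ T := mul_nonneg q0 hpos.le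
  have a4 : 0 ≤ Q.2 * 3 ^ T := mul_nonneg q2 hpos.le
  obtain ⟨b1, b2, b3, b4⟩ := h1
  obtain ⟨c1, c2, c3, c4⟩ := h2
  cases b
  · simp only [tl_h, hd_h] at b1 b2 b3 b4 c1 c2 c3 c4
    rw [Finset.mem_coe, mem_RE_h]
    simp only
    omega
  · simp only [tl_v, hd_v] at b1 b2 b3 b4 c1 c2 c3 c4
    rw [Finset.mem_coe, mem_RE_v]
    simp only
    omega

/-- existence of a near-constant situation -/
theorem sit_exists (hG : S_CG) (hQ : S_CQ) {p : ℝ} (hp : 1 < p) (D : Dat p) (L : ℕ) :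
    ∃ (N T : ℕ) (Q : Pt) (u v : Pt → ℝ), Sit p D N T L Q u v := by
  obtain ⟨C₀, u, v, I, hglob⟩ := glob hG hp D
  have hw0 : ∀ (n : ℕ) (j : ℤ), u n (0, j) = 0 := fun n j => (hglob n).1.u_left (0, j) le_rfl
  have hw1 : ∀ (n : ℕ) (j : ℤ), u n (3 ^ n, j) = 1 := fun n j => (hglob n).1.u_right (3 ^ n, j) le_rfl
  obtain ⟨N, n, Q, θ, hnL, hQK, hθ, hnear⟩ := hQ p hp D u C₀ hw0 hw1 (fun n => (hglob n).2) L 2 (by norm_num)
  have hR := (hglob N).1
  have hW : (1:ℤ) ≤ 3 ^ N := one_le_pow₀ (by norm_num)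
  obtain ⟨-, hTile⟩ := t_BRD p hp (Kept N) (3 ^ N) (3 ^ N) hW (by positivity) (u N) (v N) (I N) hR
  have hT : N - n ≤ N := Nat.sub_le _ _
  have hNT : N - (N - n) = n := by omega
  have hsub := cellE_sub N (N - n) hT Q (by rw [hNT]; exact hQK)
  set l : ℝ := θ ^ (-(1 / p)) with hl
  have hl0 : 0 < l := Real.rpow_pos_of_pos hθ _
  have hlp : l ^ p = θ⁻¹ := by
    rw [hl, ← Real.rpow_mul hθ.le, neg_mul, one_div, inv_mul_cancel₀ (by linarith), Real.rpow_neg_one]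
  obtain ⟨-, -, hsc, hsct, -, -⟩ := (t_BSB p hp).2 (Kept N) (cellE (N - n) Q) (u N) (v N)
  have hpair : Pair p (Kept N) (cellE (N - n) Q) (u N) (v N) := fun e he => hR.pair e (hsub he)
  have htile : Tile (Kept N) (cellE (N - n) Q) (u N) (v N) :=
    fun e he e' he' => hTile e (hsub he) e' (hsub he')
  have hEn : ∀ G : Finset Pt, En p (Kept N) (fun x => l * u N x) G = θ⁻¹ * En p (Kept N) (u N) G := by
    intro G
    unfold En fe
    rw [Finset.mul_sum]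
    refine Finset.sum_congr rfl fun f _ => ?_
    rw [Finset.mul_sum]
    refine Finset.sum_congr rfl fun e _ => ?_
    have : du (fun x => l * u N x) e = l * du (u N) e := by unfold du; ring
    rw [this, abs_mul, abs_of_pos hl0, Real.mul_rpow hl0.le (abs_nonneg _), hlp]
  refine ⟨N, N - n, Q, fun x => l * u N x, fun f => l ^ (p - 1) * v N f, ⟨hT, by omega, by rw [hNT]; exact hQK,
    hsc l hl0.le hpair, hsct l (l ^ (p - 1)) hl0 (Real.rpow_pos_of_pos hl0 _) htile, ?_, ?_⟩⟩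
  · intro t ht htL q hq hqc
    have hs : N - n - t ≤ L := by omega
    have hst : n + (N - n - t) = N - t := by omega
    have h := (hnear (N - n - t) hs q (by rw [hst]; exact hq) hqc).1
    rw [hst] at h
    have hNt : N - (N - t) = t := by omega
    rw [hNt] at h
    rw [hEn]
    have : D.mu (N - t) q = θ⁻¹ * (2 * (θ / 2 * D.mu (N - t) q)) := by field_simp
    rw [this]
    calc θ⁻¹ * (2 * (θ / 2 * D.mu (N - t) q)) ≤ θ⁻¹ * (2 * En p (Kept N) (u N) (cell t q)) := by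
          gcongr
      _ = 2 * (θ⁻¹ * En p (Kept N) (u N) (cell t q)) := by ring
  · intro t ht htL q hq hqc
    have hs : N - n - t ≤ L := by omega
    have hst : n + (N - n - t) = N - t := by omega
    have h := (hnear (N - n - t) hs q (by rw [hst]; exact hq) hqc).2
    rw [hst] at h
    have hNt : N - (N - t) = t := by omega
    rw [hNt] at h
    rw [hEn]
    calc θ⁻¹ * En p (Kept N) (u N) (cell t q) ≤ θ⁻¹ * (2 * θ * D.mu (N - t) q) := by gcongr
      _ = 2 * D.mu (N - t) q := by field_simp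

end CarpetPI.PB
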