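import Pool.Agent.Lib.MP_1d263a_an.PI.StmX

/-!
# MP_1d263a_an, project PI, part E: the choice of the point on the flat side; part G: the end game inequality

Every `S_Ex : Prop` (`S_Gx`) is one piece; its complete proof is in the docstring. Files: `PI/Ex.lean`, theorem
`p_Ex : S_Ex` (with the pieces named after the word Uses as hypotheses, in this order).

`(u, v)` is a conjugate pair with the tile property, `box x₀ x₁ y₀ y₁` is a hole `H` (a square of absent faces on which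
`v = h`). Claim: if a connected set `B` of vertices has `u z₀ < u < u z₁` for two boundary vertices `z₀`, `z₁` of `H`,
then `v - h` has one strict sign at all the faces outside `H` which touch `B`. Only the tile property is used.
-/

open Finset
open scoped Classical

noncomputable section

namespace CarpetPI

/-- the boundary vertices of the box -/
def bdV (x₀ x₁ y₀ y₁ : ℤ) : Set Pt :=
  {x | x₀ ≤ x.1 ∧ x.1 ≤ x₁ ∧ y₀ ≤ x.2 ∧ x.2 ≤ y₁ ∧ (x.1 = x₀ ∨ x.1 = x₁ ∨ x.2 = y₀ ∨ x.2 = y₁)}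

/-- `H = box x₀ x₁ y₀ y₁` is a hole: its faces are absent, its sides are present edges in `R`, and `v = h` on it -/
def Hole (K : Set Pt) (R : Set Ed) (v : Pt → ℝ) (x₀ x₁ y₀ y₁ : ℤ) (h : ℝ) : Prop :=
  x₀ < x₁ ∧ y₀ < y₁ ∧ (∀ f ∈ box x₀ x₁ y₀ y₁, f ∉ K ∧ v f = h) ∧
    ∀ e : Ed, ¬ (lf e ∈ box x₀ x₁ y₀ y₁ ↔ rf e ∈ box x₀ x₁ y₀ y₁) → e ∈ R ∧ pres K e

/-- the faces outside the box which touch `B` -/
def outF (x₀ x₁ y₀ y₁ : ℤ) (B : Set Pt) : Set Pt := {f | f ∉ box x₀ x₁ y₀ y₁ ∧ ∃ x ∈ B, IsCor x f}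

/-- [EA] a value is crossed in both directions on the boundary of a box. Uses: nothing.
The boundary edges `e` with `lf e` in the box are the bottom edges `(false, (x, y₀))`, `x₀ ≤ x < x₁`, and the right
edges `(true, (x₁, y))`, `y₀ ≤ y < y₁`; those with `rf e` in the box are the top edges `(false, (x, y₁))` and the
left edges `(true, (x₀, y))`. Counterclockwise one goes along the first two from tail to head, along the
last two from head to tail.
Proof of the first claim. Suppose that there is no such edge. Then for every counterclockwise boundary step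
from `x` to `x'`: `u x < a` implies `u x' < a` (as `u x' ≠ a`). Start at `z₀`: by induction along its side the end corner
of its side has `u < a`, so, going around, all four corners, and then all the boundary vertices (each one is reached
from the first corner of its side): `u z₁ < a`, contradiction. Second claim: start at `z₁` with `a < u`, or apply the
first claim to `-u`, `-a`, `z₁`, `z₀`. -/
def S_EA : Prop := ∀ (u : Pt → ℝ) (x₀ x₁ y₀ y₁ : ℤ) (a : ℝ), x₀ < x₁ → y₀ < y₁ →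
  (∀ x ∈ bdV x₀ x₁ y₀ y₁, u x ≠ a) → ∀ z₀ ∈ bdV x₀ x₁ y₀ y₁, ∀ z₁ ∈ bdV x₀ x₁ y₀ y₁, u z₀ < a → a < u z₁ →
  (∃ e : Ed, (lf e ∈ box x₀ x₁ y₀ y₁ ∧ rf e ∉ box x₀ x₁ y₀ y₁ ∧ u (tl e) < a ∧ a < u (hd e)) ∨
    (rf e ∈ box x₀ x₁ y₀ y₁ ∧ lf e ∉ box x₀ x₁ y₀ y₁ ∧ u (hd e) < a ∧ a < u (tl e))) ∧
  (∃ e : Ed, (lf e ∈ box x₀ x₁ y₀ y₁ ∧ rf e ∉ box x₀ x₁ y₀ y₁ ∧ u (hd e) < a ∧ a < u (tl e)) ∨
    (rf e ∈ box x₀ x₁ y₀ y₁ ∧ lf e ∉ box x₀ x₁ y₀ y₁ ∧ u (tl e) < a ∧ a < u (hd e)))

/-- [EB] KEY: tiles at the levels between two values on the boundary of the hole do not touch the level `h`, except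
those of the sides of the hole. Uses: `S_EA`.
Proof. `bdV` is finite, so in the nonempty open interval `(max (u z₀) (min ..), min (u z₁) (max ..)) ∋ a` there is
`a'` which is not a value of `u` on `bdV`; replace `a` by `a'`. Let `e₁`, `e₂` be the two edges of `S_EA`. They are
present and in `R` (`Hole`), so `dv v = phi p (du u)` has the sign of `du u`. For `e₁`: if `lf e₁` is in the hole,
`du > 0`, `h - v (rf e₁) > 0`; if `rf e₁` is in the hole, `du < 0`, `v (lf e₁) - h < 0`: in both cases the outer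
face `f₁` has `v f₁ < h`. For `e₂` in the same way the outer face `f₂` has `v f₂ > h`. Now suppose that `h` is in the
closed `v`-interval of `e`. As `du u e ≠ 0`, `dv v e ≠ 0`, so the interval is not a point. If its maximum `c₂` is
`> h`, choose `c` with `h < c < min c₂ (v f₂)`: `(a', c)` is in the open tiles of `e` and of `e₂`, and `e ≠ e₂`
(no face of `e` is in the hole): contradiction to `Tile`. Otherwise the minimum `c₁` is `< h`: choose
`max c₁ (v f₁) < c < h`, and use `e₁`. -/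
def S_EB : Prop := ∀ (p : ℝ) (K : Set Pt) (R : Set Ed) (u v : Pt → ℝ) (x₀ x₁ y₀ y₁ : ℤ) (h : ℝ), 1 < p →
  Pair p K R u v → Tile K R u v → Hole K R v x₀ x₁ y₀ y₁ h →
  ∀ z₀ ∈ bdV x₀ x₁ y₀ y₁, ∀ z₁ ∈ bdV x₀ x₁ y₀ y₁, ∀ e ∈ R, pres K e →
  lf e ∉ box x₀ x₁ y₀ y₁ → rf e ∉ box x₀ x₁ y₀ y₁ → ∀ a : ℝ, u z₀ < a → a < u z₁ →
  min (u (hd e)) (u (tl e)) < a → a < max (u (hd e)) (u (tl e)) →
  ¬ (min (v (lf e)) (v (rf e)) ≤ h ∧ h ≤ max (v (lf e)) (v (rf e)))

/-- [EC] propagation of the sign of `v - h`. Uses: `S_EB`.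
Proof. (i) Let `x ∈ B` and let `e` be an edge at `x` (`tl e = x` or `hd e = x`) with both faces outside the box. Then
`v - h` has the same sign (`-`, `0`, `+`) at its two faces: if `e` is absent or `du u e = 0`, then `dv v e = 0`
(`phi p 0 = 0`); otherwise `u x` is an end point of the nonempty open `u`-interval of `e` and
`u z₀ < u x < u z₁`, so there is `a` in this interval with `u z₀ < a < u z₁`, and by `S_EB` `h` is not between the
two values. (ii) At a point `x = (i, j) ∈ B` the four faces are, in cyclic order, `(i-1, j-1)`, `(i, j-1)`, `(i, j)`,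
`(i-1, j)`; consecutive ones are separated by an edge at `x`. Those in the box form a product set
`{i-1, i} × {j-1, j} ∩ box`, which has `0`, `1` or `2` elements (`2`: neighbours), or `4`; `4` is impossible since
`x ∈ VK K` is a corner of a face in `K`, which is not in the box. So the faces at `x` outside the box are
consecutive, and have the same sign by (i). (iii) If `x, x' ∈ B` are joined by a present edge, a face of this
edge is in `K`, so outside the box, and it has both corners `x`, `x'`. Now go along a path in `B` (`Conn`). -/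
def S_EC : Prop := ∀ (p : ℝ) (K : Set Pt) (R : Set Ed) (u v : Pt → ℝ) (x₀ x₁ y₀ y₁ : ℤ) (h : ℝ), 1 < p →
  Pair p K R u v → Tile K R u v → Hole K R v x₀ x₁ y₀ y₁ h →
  ∀ z₀ ∈ bdV x₀ x₁ y₀ y₁, ∀ z₁ ∈ bdV x₀ x₁ y₀ y₁, ∀ B : Set Pt, Conn K B →
  (∀ x ∈ B, u z₀ < u x ∧ u x < u z₁) → (∀ e : Ed, (tl e ∈ B ∨ hd e ∈ B) → e ∈ R) →
  ∀ f ∈ outF x₀ x₁ y₀ y₁ B, ∀ g ∈ outF x₀ x₁ y₀ y₁ B, (h < v f ↔ h < v g) ∧ (v f < h ↔ v g < h)

/-- [ED] one strict sign. Uses: `S_EC`.
Proof. By `S_EC` the signs at all faces of `outF B` agree. Suppose that they are all `0`. Let `e` be a present edge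
with both ends in `B`: each of its faces is in the box (`v = h`) or in `outF B` (`v = h`), so `dv v e = 0`, so
`phi p (du u e) = 0`, so `du u e = 0`. Hence `u` is constant on `B` (`Conn`), contradiction to `u x ≠ u x'`. -/
def S_ED : Prop := ∀ (p : ℝ) (K : Set Pt) (R : Set Ed) (u v : Pt → ℝ) (x₀ x₁ y₀ y₁ : ℤ) (h : ℝ), 1 < p →
  Pair p K R u v → Tile K R u v → Hole K R v x₀ x₁ y₀ y₁ h →
  ∀ z₀ ∈ bdV x₀ x₁ y₀ y₁, ∀ z₁ ∈ bdV x₀ x₁ y₀ y₁, ∀ B : Set Pt, Conn K B →
  (∀ x ∈ B, u z₀ < u x ∧ u x < u z₁) → (∀ e : Ed, (tl e ∈ B ∨ hd e ∈ B) → e ∈ R) →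
  (∃ x ∈ B, ∃ x' ∈ B, u x ≠ u x') →
  (∀ f ∈ outF x₀ x₁ y₀ y₁ B, h < v f) ∨ (∀ f ∈ outF x₀ x₁ y₀ y₁ B, v f < h)

/-- [EE] discrete intermediate value. Uses: nothing.
Proof. Let `α + 4 ω < β`, `|g i - α| ≤ ω`, `|g j - β| ≤ ω`. Among the indices between `i` and `j`, going from `i` to `j`,
let `k` be the first one with `g k > α + ω` (`j` is one of them, `i` is not); the one before has `g ≤ α + ω`, so
`g k ≤ α + 2 ω < β - 2 ω`. -/
def S_EE : Prop := ∀ (g : ℤ → ℝ) (i₀ i₁ i j : ℤ) (α β ω : ℝ), 0 ≤ ω → α + 4 * ω < β →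
  (∀ k, i₀ ≤ k → k < i₁ → |g (k + 1) - g k| ≤ ω) → i₀ ≤ i → i ≤ i₁ → i₀ ≤ j → j ≤ i₁ →
  |g i - α| ≤ ω → |g j - β| ≤ ω → ∃ k, i₀ ≤ k ∧ k ≤ i₁ ∧ α + ω < g k ∧ g k < β - ω

/-- [EF] the point on the flat side. Uses: `S_ED`, `S_EE`.
Setting: the hole `H = box x₀ x₁ y₀ y₁`; the points `(i r, y₁)`, `i₀ ≤ i ≤ i₁`, lie on its upper side; for each of them
`B i` is a connected set of vertices (later: the vertices of the block of the two cells of size `r` above the
flat side with common corner `(i r, y₁)`) with `u`-oscillation at most `ω`, and `u` is not constant on it; `B i`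
contains all the points `(x, y₁)` with `|x - i r| ≤ r`, `x₀ ≤ x ≤ x₁`. If the `u`-oscillation on the segment between
`(i₀ r, y₁)` and `(i₁ r, y₁)` is more than `4 ω`, then for some `i` the function `v - h` has one strict sign at the faces
touching `B i` outside `H`.
Proof. Let `z = (x, y₁)`, `z' = (x', y₁)` be the two points, `u z' > u z + 4 ω` after exchanging them, and
`g i = u (i r, y₁)`. With `i = x / r` (if `x / r < i₁`; otherwise `x = i₁ r`) the point `z` is in `B i`, so `|g i - u z| ≤ ω`;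
the same for `z'`; consecutive points are in a common `B i`, so `|g (i+1) - g i| ≤ ω`. `S_EE` gives `k` with
`u z + ω < g k < u z' - ω`, so `u z < u < u z'` on `B k`. Now `S_ED` with `z₀ = z`, `z₁ = z'`. -/
def S_EF : Prop := ∀ (p : ℝ) (K : Set Pt) (R : Set Ed) (u v : Pt → ℝ) (x₀ x₁ y₀ y₁ : ℤ) (h ω : ℝ)
  (r i₀ i₁ : ℤ) (B : ℤ → Set Pt), 1 < p →
  Pair p K R u v → Tile K R u v → Hole K R v x₀ x₁ y₀ y₁ h → 0 < r → 0 ≤ ω → x₀ ≤ i₀ * r → i₁ * r ≤ x₁ →
  (∀ i, i₀ ≤ i → i ≤ i₁ → Conn K (B i) ∧ (∀ x ∈ B i, ∀ x' ∈ B i, |u x - u x'| ≤ ω) ∧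
    (∃ x ∈ B i, ∃ x' ∈ B i, u x ≠ u x') ∧ (∀ e : Ed, (tl e ∈ B i ∨ hd e ∈ B i) → e ∈ R) ∧
    ∀ x : ℤ, x₀ ≤ x → x ≤ x₁ → |x - i * r| ≤ r → ((x, y₁) : Pt) ∈ B i) →
  (∃ x x' : ℤ, i₀ * r ≤ x ∧ x ≤ i₁ * r ∧ i₀ * r ≤ x' ∧ x' ≤ i₁ * r ∧ u (x, y₁) + 4 * ω < u (x', y₁)) →
  ∃ i, i₀ ≤ i ∧ i ≤ i₁ ∧ ((∀ f ∈ outF x₀ x₁ y₀ y₁ (B i), h < v f) ∨ (∀ f ∈ outF x₀ x₁ y₀ y₁ (B i), v f < h))

/-- [GA] the end game: the difference of two potentials has the maximum principle, so its values at two points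
of a cell are controlled by its energy near the cell. Uses: `S_XI`.
Here `z = u - u'` and `φ` is the difference of the two stream functions.
Proof. If `z x = z y` the claim is clear (`En ≥ 0`, `0 ^ p = 0`). Let `β = z x > z y = α` (otherwise exchange). Let `B`
be the finite set of the lattice points `w` with `dis w y' < 3^t` for some `y' ∈ cellV t q` (the lattice points of the
open box of side `3 · 3^t`). `S_XI` with `M = β`, `x₀ = x` gives a connected set `Z₁ ∋ x` with `z ≥ β` which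
contains a point `w ∉ B`; `S_XI` for `-z`, `-φ` (`du` and `dv` change the sign, the product does not), `M = -α`, `x₀ = y`
gives `Z₂ ∋ y` with `z ≤ α` and a point outside `B`. A point outside `B` has distance at least `3^t` from all points of
`cellV t q`. So `D.lw` applies with `K₁ = Z₁`, `K₂ = Z₂`: `(β - α)^p ≤ A En(z)`. -/
def S_GA : Prop := ∀ (p : ℝ) (D : Dat p), 1 < p → ∀ (N t : ℕ), t ≤ N → ∀ q ∈ Kept (N - t), ∀ (z φ : Pt → ℝ),
  (∀ e : Ed, (tl e ∈ nbV 1 t q ∧ hd e ∈ nbV 1 t q) → ¬ pres (Kept N) e → dv φ e = 0) →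
  (∀ e : Ed, (tl e ∈ nbV 1 t q ∧ hd e ∈ nbV 1 t q) → pres (Kept N) e → du z e ≠ 0 → 0 < du z e * dv φ e) →
  (∃ w ∈ VK (Kept N), ∀ y ∈ cellV t q, (3 : ℤ) ^ t ≤ dis w y) → Conn (Kept N) (VK (Kept N)) →
  ∀ x ∈ VK (Kept N), x ∈ cellV t q → ∀ y ∈ VK (Kept N), y ∈ cellV t q →
  |z x - z y| ^ p ≤ D.A * En p (Kept N) z (nb D.κ t q)

/-- [GB] the mirror: `u + u ∘ σ` on the axis. Uses: `S_GA`.
`σ` is the reflection in the vertical line through `X` (`(x, y) ↦ (2 X - x, y)` on the vertices,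
`(x, y) ↦ (2 X - 1 - x, y)` on the faces); `z = u + u ∘ σ`, `φ = v - v ∘ σ`. On the axis `z = 2 u`.
Proof. (1) For an edge `e` let `e'` be its mirror image: for `e = (true, (x, y))`, `e' = (true, (2X - x, y))`,
`du (u ∘ σ) e = du u e'`, and the left face of `e` is mapped to the right face of `e'`: `dv (v ∘ σ) e = - dv v e'`. For
`e = (false, (x, y))`, `e' = (false, (2X - 1 - x, y))`, `du (u ∘ σ) e = - du u e'`, `dv (v ∘ σ) e = dv v e'`. So in both cases
`(u ∘ σ, -(v ∘ σ))` satisfies the pair relation at `e` if `(u, v)` does at `e'` (`phi p (-t) = - phi p t`).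
(2) if `dv v e = phi p (du u e)` and `dv v₂ e = phi p (du u₂ e)` with `v₂ = -(v ∘ σ)`, `u₂ = u ∘ σ`, then
`dv (v + v₂) = phi p (du u) + phi p (du u₂) = phi p (du u) - phi p (- du u₂)`, which has the sign of `du u + du u₂`
(`phi p` is odd and strictly increasing). (3) `S_GA` with `z`, `φ`, for the two points on the axis (`z = 2 u` there). -/
def S_GB : Prop := ∀ (p : ℝ) (D : Dat p), 1 < p → ∀ (N t : ℕ), t ≤ N → ∀ q ∈ Kept (N - t), ∀ (u v : Pt → ℝ) (X : ℤ),
  (∀ e : Ed, (tl e ∈ nbV 1 t q ∧ hd e ∈ nbV 1 t q) → (pres (Kept N) e → dv v e = phi p (du u e) ∧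
    dv (fun f => - v (2 * X - 1 - f.1, f.2)) e = phi p (du (fun x => u (2 * X - x.1, x.2)) e)) ∧
    (¬ pres (Kept N) e → dv v e = 0 ∧ dv (fun f => - v (2 * X - 1 - f.1, f.2)) e = 0)) →
  (∃ w ∈ VK (Kept N), ∀ y ∈ cellV t q, (3 : ℤ) ^ t ≤ dis w y) → Conn (Kept N) (VK (Kept N)) →
  ∀ x ∈ VK (Kept N), x ∈ cellV t q → x.1 = X → ∀ y ∈ VK (Kept N), y ∈ cellV t q → y.1 = X →
  (2 * |u x - u y|) ^ p ≤ D.A * En p (Kept N) (fun x => u x + u (2 * X - x.1, x.2)) (nb D.κ t q)

/-- [ER] the network in a kept cell is connected. Uses: `S_HK` (StmH: digits; only (1), (2) are needed).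
Proof. Induction on `t`. `t = 0`: `cell 0 q = {q}`, `q ∈ Kept N`, the points of `VK (Kept N)` in `cellV 0 q` are the four
corners of `q`, which are joined by its sides. Step: let `q ∈ Kept (N - (t+1))`. (a) the eight children `kid q c`,
`c ∈ kids`, are in `Kept (N - t)` (new digit `c`, not `(1, 1)`). (b) every `x ∈ VK (Kept N)` in `cellV (t+1) q` is in
`cellV t (kid q c)` for some `c ∈ kids`: otherwise `x` is in the open central cell
`(3 q.1 + 1) 3^t < x.1 < (3 q.1 + 2) 3^t`, `(3 q.2 + 1) 3^t < x.2 < (3 q.2 + 2) 3^t`, all faces at `x` are in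
`cell t (3 q.1 + 1, 3 q.2 + 1)` and have digits `(1, 1)` at the place `t`, so they are not kept. (c) two children
whose places differ by `1` in one coordinate have a common corner (a lattice point in both `cellV`s), which is in
`VK (Kept N)`: a corner of the cell `kid q c` is a corner of a face of this cell in a corner of the cell, which is
kept (`S_HK` (1), (2)). The eight places form a cycle of such neighbours. So the union of the eight connected sets
is connected. -/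
def S_ER : Prop := ∀ (N t : ℕ), t ≤ N → ∀ q ∈ Kept (N - t), Conn (Kept N) {x | x ∈ VK (Kept N) ∧ x ∈ cellV t q}

/-- [ES] straight segments are connected. Uses: nothing. (Walk along the segment; every point of it is an end of a
present edge of it, so in `VK K`.) -/
def S_ES : Prop := (∀ (K : Set Pt) (a b Y : ℤ), a < b → (∀ x, a ≤ x → x < b → pres K (false, (x, Y))) →
    Conn K {z | a ≤ z.1 ∧ z.1 ≤ b ∧ z.2 = Y}) ∧
  (∀ (K : Set Pt) (a b X : ℤ), a < b → (∀ y, a ≤ y → y < b → pres K (true, (X, y))) →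
    Conn K {z | a ≤ z.2 ∧ z.2 ≤ b ∧ z.1 = X}) ∧
  (∀ (K A B : Set Pt), Conn K A → Conn K B → (∃ x ∈ A, x ∈ B) → Conn K (A ∪ B))

end CarpetPI
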