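import Pool.Agent.Lib.MP_1d263a_an.PI.StmD
import Pool.Agent.Lib.MP_1d263a_an.PI.StmE
import Pool.Agent.Lib.MP_1d263a_an.PI.StmH
import Pool.Agent.Lib.MP_1d263a_an.PI.DefsF
import Pool.Agent.Lib.MP_1d263a_an.PI.B

open Finset
open scoped Classical

noncomputable section

namespace CarpetPI.PB

theorem mem_blk {s : ℕ} {y f : Pt} : f ∈ blk s y ↔
    (y.1 - 3 ^ s ≤ f.1 ∧ f.1 < y.1 + 3 ^ s) ∧ (y.2 ≤ f.2 ∧ f.2 < y.2 + 3 ^ s) := by
  simp only [blk, box, Finset.mem_product, Finset.mem_Ico]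

theorem mem_eT {e : Ed} {B : Finset Pt} : e ∈ eT B ↔ lf e ∈ B ∨ rf e ∈ B := by
  simp only [eT, Finset.mem_biUnion, mem_sides_iff]
  constructor
  · rintro ⟨f, hf, h | h⟩
    · exact Or.inl (h ▸ hf)
    · exact Or.inr (h ▸ hf)
  · rintro (h | h)
    · exact ⟨_, h, Or.inl rfl⟩
    · exact ⟨_, h, Or.inr rfl⟩

/-- the faces to the right of the axis -/
theorem flat_right (hHK : S_HK) {N T : ℕ} {y : Pt} (hF : Flat N T y) {f : Pt}
    (h1 : y.1 ≤ f.1) (h2 : f.1 < y.1 + 3 ^ T) (h3 : y.2 ≤ f.2) (h4 : f.2 < y.2 + 3 ^ T) :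
    f ∈ Kept N ↔ ((f.1 - y.1, f.2 - y.2) : Pt) ∈ Kept T := by
  have e1 : y.1 / 3 ^ T * 3 ^ T = y.1 := Int.ediv_mul_cancel hF.d1
  have e2 : y.2 / 3 ^ T * 3 ^ T = y.2 := Int.ediv_mul_cancel hF.d2
  have hc : f ∈ cell T (y.1 / 3 ^ T, y.2 / 3 ^ T) := by
    simp only [cell, box, Finset.mem_product, Finset.mem_Ico, add_mul, one_mul, e1, e2]
    exact ⟨⟨h1, h2⟩, ⟨h3, h4⟩⟩
  have := hHK.1 (N - T) T (y.1 / 3 ^ T, y.2 / 3 ^ T) f hc
  rw [Nat.sub_add_cancel hF.hT] at this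
  rw [this]
  simp only [e1, e2]
  exact ⟨fun h => h.2, fun h => ⟨hF.cR, h⟩⟩

/-- the faces to the left of the axis -/
theorem flat_left (hHK : S_HK) {N T : ℕ} {y : Pt} (hF : Flat N T y) {f : Pt}
    (h1 : y.1 - 3 ^ T ≤ f.1) (h2 : f.1 < y.1) (h3 : y.2 ≤ f.2) (h4 : f.2 < y.2 + 3 ^ T) :
    f ∈ Kept N ↔ ((f.1 - y.1 + 3 ^ T, f.2 - y.2) : Pt) ∈ Kept T := by
  have e1 : y.1 / 3 ^ T * 3 ^ T = y.1 := Int.ediv_mul_cancel hF.d1
  have e2 : y.2 / 3 ^ T * 3 ^ T = y.2 := Int.ediv_mul_cancel hF.d2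
  have hc : f ∈ cell T (y.1 / 3 ^ T - 1, y.2 / 3 ^ T) := by
    simp only [cell, box, Finset.mem_product, Finset.mem_Ico, add_mul, sub_mul, one_mul, e1, e2]
    exact ⟨⟨h1, by linarith⟩, ⟨h3, h4⟩⟩
  have := hHK.1 (N - T) T (y.1 / 3 ^ T - 1, y.2 / 3 ^ T) f hc
  rw [Nat.sub_add_cancel hF.hT] at this
  rw [this]
  simp only [sub_mul, one_mul, e1, e2]
  rw [show f.1 - (y.1 - 3 ^ T) = f.1 - y.1 + 3 ^ T by ring]
  exact ⟨fun h => h.2, fun h => ⟨hF.cL, h⟩⟩

/-- the network is symmetric about the axis -/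
theorem flat_mirror (hHK : S_HK) {N T : ℕ} {y : Pt} (hF : Flat N T y) {f : Pt}
    (hf : f ∈ blk T y) : f ∈ Kept N ↔ rfc y f ∈ Kept N := by
  obtain ⟨⟨h1, h2⟩, h3, h4⟩ := mem_blk.1 hf
  have key : ∀ r : Pt, r ∈ Kept T ↔ ((3 ^ T - 1 - r.1, r.2) : Pt) ∈ Kept T := by
    intro r
    refine ⟨fun h => (hHK.2.2 T r h).2.1, fun h => ?_⟩
    have := (hHK.2.2 T _ h).2.1
    simp only at this
    rw [show (3:ℤ) ^ T - 1 - (3 ^ T - 1 - r.1) = r.1 by ring] at this
    exact this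
  rcases lt_or_ge f.1 y.1 with h | h
  · rw [flat_left hHK hF h1 h h3 h4, flat_right hHK hF (f := rfc y f) (by simp only [rfc]; omega)
      (by simp only [rfc]; omega) h3 h4, key]
    simp only [rfc]
    rw [show (3:ℤ) ^ T - 1 - (f.1 - y.1 + 3 ^ T) = 2 * y.1 - 1 - f.1 - y.1 by ring]
  · rw [flat_right hHK hF h h2 h3 h4, flat_left hHK hF (f := rfc y f) (by simp only [rfc]; omega)
      (by simp only [rfc]; omega) h3 h4, key]
    simp only [rfc]
    rw [show (3:ℤ) ^ T - 1 - (f.1 - y.1) = 2 * y.1 - 1 - f.1 - y.1 + 3 ^ T by ring]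

/-- the faces in the column to the right of the axis are kept -/
theorem flat_col (hHK : S_HK) {N T : ℕ} {y : Pt} (hF : Flat N T y) {j : ℤ}
    (h3 : y.2 ≤ j) (h4 : j < y.2 + 3 ^ T) : ((y.1, j) : Pt) ∈ Kept N := by
  have hpos : (0:ℤ) < 3 ^ T := by positivity
  rw [flat_right hHK hF (f := (y.1, j)) le_rfl (by simp only; linarith) h3 h4]
  refine hHK.2.1 T _ ?_ (Or.inl (by simp))
  simp only [cell, box, Finset.mem_product, Finset.mem_Ico]
  refine ⟨⟨by simp, by simp⟩, ⟨by simp only [zero_mul]; linarith, ?_⟩⟩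
  simp only [zero_add, one_mul]; linarith

theorem En_mono {p : ℝ} {K : Set Pt} {u : Pt → ℝ} {G G' : Finset Pt} (h : G ⊆ G') :
    En p K u G ≤ En p K u G' := by
  unfold En
  refine Finset.sum_le_sum_of_subset_of_nonneg (Finset.filter_subset_filter _ h) ?_
  intro f _ _
  exact Finset.sum_nonneg fun e _ => Real.rpow_nonneg (abs_nonneg _) _

theorem no_half (hF : S_Ffinal) (hGB : S_GB) (hDB : S_DB) (hHK : S_HK) (hES : S_ES) {p q : ℝ}
    (hp : 1 < p) (hp2 : p < 2) (hpq : 1 / p + 1 / q = 1) (D : Dat p) (A : ℝ) (ε : ℕ → ℝ)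
    (hε : ∀ k, 0 < ε k) :
    ∃ n : ℕ, ∀ (N T₀ T : ℕ) (y : Pt) (u w : Pt → ℝ), T₀ + n ≤ T → Flat N T y →
      Half p q A ε N T₀ T y u w → False := by
  have hApos : 0 < D.A := by linarith [D.hA]
  set κ : ℕ := D.κ with hκ
  set K : ℕ := 2 * κ + 5 with hK
  have hKpow : (2 * (κ : ℤ) + 5) < 3 ^ K := by
    have : K < 3 ^ K := Nat.lt_pow_self (by norm_num)
    have h2 : ((2 * κ + 5 : ℕ) : ℤ) < 3 ^ K := by exact_mod_cast this
    push_cast at h2
    exact h2
  have hq : q = p / (p - 1) := by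
    have hp0 : p ≠ 0 := by linarith
    have hp1 : p - 1 ≠ 0 := by linarith
    have hq0 : q ≠ 0 := by
      intro h
      rw [h] at hpq
      simp at hpq
      rw [← hpq] at hp
      norm_num at hp
    field_simp at hpq ⊢
    linarith
  set δ : ℝ := ε K ^ p / D.A with hδ
  have hδ0 : 0 < δ := div_pos (Real.rpow_pos_of_pos (hε K) _) hApos
  obtain ⟨n, hn⟩ := hF p q hp hp2 hpq D A ε hε δ hδ0
  refine ⟨n + K, ?_⟩
  intro N T₀ T y u w hT hFl hH
  have hH' : Half p q A ε N (T₀ + K) T y u w :=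
    ⟨hH.bl, fun s h1 h2 => hH.gro s (by omega) h2, fun s k c h1 h2 h3 => hH.crs s k c h1 (by omega) h3⟩
  obtain ⟨s, hs1, hs2, hsmall⟩ := hn N (T₀ + K) T y u w (by omega) hFl hH'
  set t : ℕ := s - K with ht
  have hst : s = t + K := by omega
  have hP : (0:ℤ) < 3 ^ t := by positivity
  have h3s : (3:ℤ) ^ s = 3 ^ t * 3 ^ K := by rw [hst, pow_add]
  have h3sT : (3:ℤ) ^ s ≤ 3 ^ T := pow_le_pow_right₀ (by norm_num) hs2
  have hbig : (2 * (κ : ℤ) + 5) * 3 ^ t < 3 ^ s := by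
    rw [h3s, mul_comm ((3:ℤ) ^ t)]
    exact mul_lt_mul_of_pos_right hKpow hP
  have hκ0 : (0:ℤ) ≤ κ := by positivity
  have hκt : 0 ≤ (κ : ℤ) * 3 ^ t := mul_nonneg hκ0 hP.le
  have hbig' : 2 * ((κ : ℤ) * 3 ^ t) + 5 * 3 ^ t < 3 ^ s := by
    have : (2 * (κ : ℤ) + 5) * 3 ^ t = 2 * ((κ : ℤ) * 3 ^ t) + 5 * 3 ^ t := by ring
    linarith
  have htT : t ≤ T := by omega
  have htN : t ≤ N := le_trans htT hFl.hT
  have hd1 : (3:ℤ) ^ t ∣ y.1 := (pow_dvd_pow 3 htT).trans hFl.d1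
  have hd2 : (3:ℤ) ^ t ∣ y.2 := (pow_dvd_pow 3 htT).trans hFl.d2
  have e1 : y.1 / 3 ^ t * 3 ^ t = y.1 := Int.ediv_mul_cancel hd1
  have e2 : y.2 / 3 ^ t * 3 ^ t = y.2 := Int.ediv_mul_cancel hd2
  set q0 : Pt := (y.1 / 3 ^ t, y.2 / 3 ^ t + κ + 1) with hq0
  have q01 : q0.1 * 3 ^ t = y.1 := e1
  have q02 : q0.2 * 3 ^ t = y.2 + κ * 3 ^ t + 3 ^ t := by
    simp only [hq0]
    rw [add_mul, add_mul, e2, one_mul]
  -- the cell `q0` is kept
  have hq0K : q0 ∈ Kept (N - t) := by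
    have hTt : (3:ℤ) ^ T = 3 ^ (T - t) * 3 ^ t := by rw [← pow_add]; congr 1; omega
    have e3 : y.1 / 3 ^ T * 3 ^ (T - t) = y.1 / 3 ^ t := by
      obtain ⟨a, ha⟩ := hFl.d1
      rw [ha, Int.mul_ediv_cancel_left _ (by positivity), hTt,
        show (3:ℤ) ^ (T - t) * 3 ^ t * a = 3 ^ t * (a * 3 ^ (T - t)) by ring,
        Int.mul_ediv_cancel_left _ hP.ne']
    have e4 : y.2 / 3 ^ T * 3 ^ (T - t) = y.2 / 3 ^ t := by
      obtain ⟨a, ha⟩ := hFl.d2
      rw [ha, Int.mul_ediv_cancel_left _ (by positivity), hTt,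
        show (3:ℤ) ^ (T - t) * 3 ^ t * a = 3 ^ t * (a * 3 ^ (T - t)) by ring,
        Int.mul_ediv_cancel_left _ hP.ne']
    have hKT : (3:ℤ) ^ K ≤ 3 ^ (T - t) := pow_le_pow_right₀ (by norm_num) (by omega)
    have hTp : (0:ℤ) < 3 ^ (T - t) := by positivity
    have hc : q0 ∈ cell (T - t) (y.1 / 3 ^ T, y.2 / 3 ^ T) := by
      simp only [cell, box, Finset.mem_product, Finset.mem_Ico, add_mul, one_mul, e3, e4, hq0]
      refine ⟨⟨le_rfl, by linarith⟩, ⟨by linarith, by linarith⟩⟩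
    have h := (hHK.1 (N - T) (T - t) (y.1 / 3 ^ T, y.2 / 3 ^ T) q0 hc).2 ⟨hFl.cR, ?_⟩
    · have : N - T + (T - t) = N - t := by have := hFl.hT; omega
      rwa [this] at h
    · refine hHK.2.1 (T - t) _ ?_ (Or.inl ?_)
      · simp only [cell, box, Finset.mem_product, Finset.mem_Ico, e3, e4, hq0, zero_mul, zero_add, one_mul]
        refine ⟨⟨by linarith, by linarith⟩, ⟨by linarith, by linarith⟩⟩
      · simp only [e3, hq0]; ring
  -- edges near q0
  have hcond : ∀ e : Ed, (tl e ∈ nbV 1 t q0 ∧ hd e ∈ nbV 1 t q0) →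
      (pres (Kept N) e → dv w e = phi p (du u e) ∧
        dv (fun f => - w (2 * y.1 - 1 - f.1, f.2)) e = phi p (du (fun x => u (2 * y.1 - x.1, x.2)) e)) ∧
      (¬ pres (Kept N) e → dv w e = 0 ∧ dv (fun f => - w (2 * y.1 - 1 - f.1, f.2)) e = 0) := by
    have hinv : ∀ x, phi p (phi q x) = x := by
      intro x
      have := (t_BPA p hp).2.2.2.2.2.2.2.2.1 x
      rw [← hq] at this
      exact this
    have hneg := (t_BPA p hp).2.1
    -- mirror edges
    have hprs : ∀ e e' : Ed, lf e ∈ blk T y → rf e ∈ blk T y →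
        ((rfc y (lf e) = lf e' ∧ rfc y (rf e) = rf e') ∨ (rfc y (lf e) = rf e' ∧ rfc y (rf e) = lf e')) →
        (pres (Kept N) e ↔ pres (Kept N) e') := by
      intro e e' h1 h2 h3
      unfold pres
      rw [flat_mirror hHK hFl h1, flat_mirror hHK hFl h2]
      rcases h3 with ⟨a, b⟩ | ⟨a, b⟩
      · rw [a, b]
      · rw [a, b]; exact or_comm
    rintro ⟨b, i, j⟩ ⟨he1, he2⟩
    obtain ⟨a1, a2, a3, a4⟩ := he1
    obtain ⟨b1, b2, b3, b4⟩ := he2
    have c1 : (q0.1 - ((1 : ℕ) : ℤ)) * 3 ^ t = y.1 - 3 ^ t := by push_cast; rw [sub_mul, q01]; ring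
    have c2 : (q0.1 + ((1 : ℕ) : ℤ) + 1) * 3 ^ t = y.1 + 2 * 3 ^ t := by
      push_cast; rw [add_mul, add_mul, q01]; ring
    have c3 : (q0.2 - ((1 : ℕ) : ℤ)) * 3 ^ t = y.2 + κ * 3 ^ t := by
      push_cast; rw [sub_mul, q02]; ring
    have c4 : (q0.2 + ((1 : ℕ) : ℤ) + 1) * 3 ^ t = y.2 + κ * 3 ^ t + 3 * 3 ^ t := by
      push_cast; rw [add_mul, add_mul, q02]; ring
    rw [c1] at a1 b1
    rw [c2] at a2 b2
    rw [c3] at a3 b3
    rw [c4] at a4 b4
    cases b
    · simp only [tl_h, hd_h] at a1 a2 a3 a4 b1 b2 b3 b4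
      by_cases hbot : y.2 < j
      · have m1 : lf (false, (i, j)) ∈ blk T y := by rw [mem_blk]; simp only [lf_h]; omega
        have m2 : rf (false, (i, j)) ∈ blk T y := by rw [mem_blk]; simp only [rf_h]; omega
        have m3 : lf (false, (2 * y.1 - 1 - i, j)) ∈ blk T y := by rw [mem_blk]; simp only [lf_h]; omega
        have hpe := hprs (false, (i, j)) (false, (2 * y.1 - 1 - i, j)) m1 m2 (Or.inl ⟨rfl, rfl⟩)
        have r1 := hH.bl.pr (false, (i, j)) (mem_eT.2 (Or.inl m1))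
        have r2 := hH.bl.pr (false, (2 * y.1 - 1 - i, j)) (mem_eT.2 (Or.inl m3))
        have d1 : dv (fun f => - w (2 * y.1 - 1 - f.1, f.2)) (false, (i, j)) =
            - dv w (false, (2 * y.1 - 1 - i, j)) := by
          simp only [dv, lf_h, rf_h]; ring
        have d2 : du (fun x => u (2 * y.1 - x.1, x.2)) (false, (i, j)) =
            - du u (false, (2 * y.1 - 1 - i, j)) := by
          simp only [du, hd_h, tl_h]
          rw [show 2 * y.1 - (i + 1) = 2 * y.1 - 1 - i by ring,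
            show 2 * y.1 - i = 2 * y.1 - 1 - i + 1 by ring]
          ring
        refine ⟨fun hpr => ⟨?_, ?_⟩, fun hpr => ⟨r1.2 hpr, ?_⟩⟩
        · rw [r1.1 hpr, hinv]
        · rw [d1, d2, hneg, r2.1 (hpe.1 hpr), hinv]
        · rw [d1, r2.2 (fun h => hpr (hpe.2 h)), neg_zero]
      · -- `κ = 0` is possible: the edge lies on the side of the hole
        have hj : j = y.2 := by omega
        subst hj
        have m1 : lf (false, (i, y.2)) ∈ blk T y := by rw [mem_blk]; simp only [lf_h]; omega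
        have m3 : lf (false, (2 * y.1 - 1 - i, y.2)) ∈ blk T y := by rw [mem_blk]; simp only [lf_h]; omega
        have n1 : ((i, y.2 - 1) : Pt) ∉ Kept N :=
          hFl.hol (i, y.2 - 1) (by simp only; omega) (by simp only; omega) (by simp only; omega) (by simp only; omega)
        have n2 : ((2 * y.1 - 1 - i, y.2 - 1) : Pt) ∉ Kept N :=
          hFl.hol _ (by simp only; omega) (by simp only; omega) (by simp only; omega) (by simp only; omega)
        have hpe : pres (Kept N) (false, (i, y.2)) ↔ pres (Kept N) (false, (2 * y.1 - 1 - i, y.2)) := by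
          unfold pres
          simp only [lf_h, rf_h]
          simp only [lf_h] at m1
          have := flat_mirror hHK hFl m1
          simp only [rfc] at this
          rw [this]
          constructor
          · rintro (h | h)
            · exact Or.inl h
            · exact absurd h n1
          · rintro (h | h)
            · exact Or.inl h
            · exact absurd h n2
        have r1 := hH.bl.pr (false, (i, y.2)) (mem_eT.2 (Or.inl m1))
        have r2 := hH.bl.pr (false, (2 * y.1 - 1 - i, y.2)) (mem_eT.2 (Or.inl m3))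
        have d1 : dv (fun f => - w (2 * y.1 - 1 - f.1, f.2)) (false, (i, y.2)) =
            - dv w (false, (2 * y.1 - 1 - i, y.2)) := by
          simp only [dv, lf_h, rf_h]; ring
        have d2 : du (fun x => u (2 * y.1 - x.1, x.2)) (false, (i, y.2)) =
            - du u (false, (2 * y.1 - 1 - i, y.2)) := by
          simp only [du, hd_h, tl_h]
          rw [show 2 * y.1 - (i + 1) = 2 * y.1 - 1 - i by ring,
            show 2 * y.1 - i = 2 * y.1 - 1 - i + 1 by ring]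
          ring
        refine ⟨fun hpr => ⟨?_, ?_⟩, fun hpr => ⟨r1.2 hpr, ?_⟩⟩
        · rw [r1.1 hpr, hinv]
        · rw [d1, d2, hneg, r2.1 (hpe.1 hpr), hinv]
        · rw [d1, r2.2 (fun h => hpr (hpe.2 h)), neg_zero]
    · simp only [tl_v, hd_v] at a1 a2 a3 a4 b1 b2 b3 b4
      have m1 : lf (true, (i, j)) ∈ blk T y := by rw [mem_blk]; simp only [lf_v]; omega
      have m2 : rf (true, (i, j)) ∈ blk T y := by rw [mem_blk]; simp only [rf_v]; omega
      have m3 : rf (true, (2 * y.1 - i, j)) ∈ blk T y := by rw [mem_blk]; simp only [rf_v]; omega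
      have hpe := hprs (true, (i, j)) (true, (2 * y.1 - i, j)) m1 m2 (Or.inr ⟨by
        simp only [rfc, lf_v, rf_v]; ext <;> simp only; ring, by
        simp only [rfc, lf_v, rf_v]; ext <;> simp only; ring⟩)
      have r1 := hH.bl.pr (true, (i, j)) (mem_eT.2 (Or.inl m1))
      have r2 := hH.bl.pr (true, (2 * y.1 - i, j)) (mem_eT.2 (Or.inr m3))
      have d1 : dv (fun f => - w (2 * y.1 - 1 - f.1, f.2)) (true, (i, j)) =
          dv w (true, (2 * y.1 - i, j)) := by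
        simp only [dv, lf_v, rf_v]
        rw [show 2 * y.1 - 1 - (i - 1) = 2 * y.1 - i by ring,
          show 2 * y.1 - 1 - i = 2 * y.1 - i - 1 by ring]
        ring
      have d2 : du (fun x => u (2 * y.1 - x.1, x.2)) (true, (i, j)) =
          du u (true, (2 * y.1 - i, j)) := by
        simp only [du, hd_v, tl_v]
      refine ⟨fun hpr => ⟨?_, ?_⟩, fun hpr => ⟨r1.2 hpr, ?_⟩⟩
      · rw [r1.1 hpr, hinv]
      · rw [d1, d2, r2.1 (hpe.1 hpr), hinv]
      · rw [d1, r2.2 (fun h => hpr (hpe.2 h))]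
  -- the segment on the axis
  set a : ℤ := q0.2 * 3 ^ t with ha
  set b : ℤ := (q0.2 + 1) * 3 ^ t with hb
  have hba : b = a + 3 ^ t := by rw [hb, ha]; ring
  have hseg : Conn (Kept N) {z | a ≤ z.2 ∧ z.2 ≤ b ∧ z.1 = y.1} := by
    refine hES.2.1 (Kept N) a b y.1 (by linarith) ?_
    intro j hj1 hj2
    refine Or.inr ?_
    simp only [rf_v]
    refine flat_col hHK hFl ?_ ?_
    · linarith
    · have : b = y.2 + κ * 3 ^ t + 2 * 3 ^ t := by rw [hba, q02]; ring
      linarith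
  have hcrs := hH.crs s K 0 (by omega) (by omega) (by simpa using h3sT)
  rw [zero_mul, add_zero] at hcrs
  obtain ⟨x, hx, z, hz, hxz⟩ := hcrs _ hseg (by
    rintro g ⟨g1, g2, g3⟩
    refine ⟨?_, ?_, ?_, ?_⟩ <;> simp only <;> linarith)
    ⟨(y.1, a), ⟨le_rfl, by simp only; linarith, rfl⟩, (y.1, b), ⟨by simp only; linarith, le_rfl, rfl⟩, by
      rw [← ht]
      simp only [dis]
      refine le_trans ?_ (le_max_right _ _)
      rw [hba, show a - (a + 3 ^ t) = -3 ^ t by ring, abs_neg, abs_of_pos hP]⟩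
  have hxV : x ∈ VK (Kept N) := hseg.1 hx
  have hzV : z ∈ VK (Kept N) := hseg.1 hz
  have hcV : ∀ g : Pt, a ≤ g.2 ∧ g.2 ≤ b ∧ g.1 = y.1 → g ∈ cellV t q0 := by
    rintro g ⟨g1, g2, g3⟩
    refine ⟨?_, ?_, g1, g2⟩
    · rw [q01, g3]
    · rw [add_mul, q01, g3]; linarith
  have hpt : ∃ g ∈ VK (Kept N), ∀ g' ∈ cellV t q0, (3:ℤ) ^ t ≤ dis g g' := by
    refine ⟨y, ⟨y, flat_col hHK hFl le_rfl (by have : (0:ℤ) < 3 ^ T := by positivity
                                               linarith), ⟨Or.inl rfl, Or.inl rfl⟩⟩, ?_⟩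
    rintro g ⟨-, -, g3, -⟩
    rw [← ha, q02] at g3
    simp only [dis]
    refine le_trans ?_ (le_max_right _ _)
    rw [abs_sub_comm]
    refine le_trans ?_ (le_abs_self _)
    linarith
  have hgb := hGB p D hp N t htN q0 hq0K u w y.1 hcond hpt (hDB N) x hxV (hcV x hx) hx.2.2 z hzV
    (hcV z hz) hz.2.2
  -- the neighbourhood is in the block
  have hsub : nb κ t q0 ⊆ blk s y := by
    intro f hf
    simp only [nb, box, Finset.mem_product, Finset.mem_Ico] at hf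
    obtain ⟨⟨f1, f2⟩, f3, f4⟩ := hf
    have c1 : (q0.1 - (κ : ℤ)) * 3 ^ t = y.1 - κ * 3 ^ t := by rw [sub_mul, q01]
    have c2 : (q0.1 + (κ : ℤ) + 1) * 3 ^ t = y.1 + κ * 3 ^ t + 3 ^ t := by
      rw [add_mul, add_mul, q01]; ring
    have c3 : (q0.2 - (κ : ℤ)) * 3 ^ t = y.2 + 3 ^ t := by
      rw [sub_mul, ← ha, q02]; ring
    have c4 : (q0.2 + (κ : ℤ) + 1) * 3 ^ t = y.2 + 2 * (κ * 3 ^ t) + 2 * 3 ^ t := by
      rw [add_mul, add_mul, ← ha, q02]; ring
    rw [c1] at f1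
    rw [c2] at f2
    rw [c3] at f3
    rw [c4] at f4
    rw [mem_blk]
    refine ⟨⟨?_, ?_⟩, ⟨?_, ?_⟩⟩ <;> linarith
  set E : ℝ := En p (Kept N) u (blk s y) with hE
  have hEpos : 0 < E := by
    have hsT : (0:ℤ) < 3 ^ s := by positivity
    have hTT : (0:ℤ) < 3 ^ T := by positivity
    have hyb : y ∈ blk s y := by rw [mem_blk]; refine ⟨⟨by linarith, by linarith⟩, ⟨le_rfl, by linarith⟩⟩
    have hybT : y ∈ blk T y := by rw [mem_blk]; refine ⟨⟨by linarith, by linarith⟩, ⟨le_rfl, by linarith⟩⟩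
    have hyK : y ∈ Kept N := flat_col hHK hFl le_rfl (by linarith)
    have hle : fe p u y ≤ E := by
      rw [hE]
      unfold En
      exact Finset.single_le_sum (f := fun f => fe p u f)
        (fun f _ => Finset.sum_nonneg fun e _ => Real.rpow_nonneg (abs_nonneg _) _)
        (Finset.mem_filter.2 ⟨hyb, hyK⟩)
    have hle2 : |du u (false, y)| ^ p ≤ fe p u y := by
      unfold fe
      exact Finset.single_le_sum (f := fun e => |du u e| ^ p)
        (fun e _ => Real.rpow_nonneg (abs_nonneg _) _) (by simp [sides])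
    have hne : 0 < |du u (false, y)| ^ p := by
      refine Real.rpow_pos_of_pos (abs_pos.2 ?_) _
      rw [(hH.bl.pr (false, y) (mem_eT.2 (Or.inl hybT))).1 (Or.inl hyK)]
      have hq1 : 1 < q := by
        rw [hq, lt_div_iff₀ (by linarith)]; linarith
      rw [Ne, (t_BPA q hq1).2.2.2.2.2.2.2.2.2.2.2.2]
      have h1 := hH.bl.pos y hybT
      have h2 := hH.bl.hol (y.1, y.2 - 1) (by simp only; linarith) (by simp only; linarith)
        (by simp only; linarith) (by simp only; linarith)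
      simp only [dv, lf_h, rf_h]
      rw [h2]
      intro h
      linarith
    linarith
  have hfin : (2 * |u x - u z|) ^ p ≤ D.A * (δ * E) := by
    refine hgb.trans (mul_le_mul_of_nonneg_left ?_ hApos.le)
    exact (En_mono hsub).trans hsmall
  have hp0 : 0 < p := by linarith
  have hlow : (2 * (ε K * E ^ (1 / p))) ^ p ≤ (2 * |u x - u z|) ^ p := by
    refine Real.rpow_le_rpow ?_ (mul_le_mul_of_nonneg_left hxz (by norm_num)) hp0.le
    exact mul_nonneg (by norm_num) (mul_nonneg (hε K).le (Real.rpow_nonneg hEpos.le _))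
  have hexp : (2 * (ε K * E ^ (1 / p))) ^ p = 2 ^ p * (ε K ^ p * E) := by
    rw [Real.mul_rpow (by norm_num) (mul_nonneg (hε K).le (Real.rpow_nonneg hEpos.le _)),
      Real.mul_rpow (hε K).le (Real.rpow_nonneg hEpos.le _), ← Real.rpow_mul hEpos.le,
      one_div, inv_mul_cancel₀ hp0.ne', Real.rpow_one]
  have hAδ : D.A * (δ * E) = ε K ^ p * E := by
    rw [hδ]; field_simp
  rw [hexp] at hlow
  rw [hAδ] at hfin
  have h2p : (1:ℝ) < 2 ^ p := Real.one_lt_rpow (by norm_num) hp0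
  have hX : 0 < ε K ^ p * E := mul_pos (Real.rpow_pos_of_pos (hε K) _) hEpos
  nlinarith

end CarpetPI.PB
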