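import Pool.Agent.Lib.MP_1d263a_an.PI.AllC
import Pool.Agent.Lib.MP_1d263a_an.PI.AllD
import Pool.Agent.Lib.MP_1d263a_an.PI.AllE
import Pool.Agent.Lib.MP_1d263a_an.PI.AllH
import Pool.Agent.Lib.MP_1d263a_an.PI.AllX
import Pool.Agent.Lib.MP_1d263a_an.PI.IB
import Pool.Agent.Lib.MP_1d263a_an.PI.IC
import Pool.Agent.Lib.MP_1d263a_an.PI.Br
import Pool.Agent.Lib.MP_1d263a_an.PI.F
import Pool.Agent.Lib.MP_1d263a_an.PI.FA
import Pool.Agent.Lib.MP_1d263a_an.PI.FB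
import Pool.Agent.Lib.MP_1d263a_an.PI.FC
import Pool.Agent.Lib.MP_1d263a_an.PI.FD
import Pool.Agent.Lib.MP_1d263a_an.PI.FE
import Pool.Agent.Lib.MP_1d263a_an.PI.FF
import Pool.Agent.Lib.MP_1d263a_an.PI.FG
import Pool.Agent.Lib.MP_1d263a_an.PI.FH
import Pool.Agent.Lib.MP_1d263a_an.PI.FI
import Pool.Agent.Lib.MP_1d263a_an.PI.FJ
import Pool.Agent.Lib.MP_1d263a_an.PI.FK
import Pool.Agent.Lib.MP_1d263a_an.PI.FL
import Pool.Agent.Lib.MP_1d263a_an.PI.FR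
import Pool.Agent.Lib.MP_1d263a_an.PI.FS
import Pool.Agent.Lib.MP_1d263a_an.PI.FT1
import Pool.Agent.Lib.MP_1d263a_an.PI.FT2
import Pool.Agent.Lib.MP_1d263a_an.PI.FT3
import Pool.Agent.Lib.MP_1d263a_an.PI.FT4
import Pool.Agent.Lib.MP_1d263a_an.PI.FU
import Pool.Agent.Lib.MP_1d263a_an.PI.FV

/-!
# MP_1d263a_an, project PI: all parts together: there is no `Dat p` with `1 < p`
-/

set_option autoImplicit false

open Finset
open scoped Classical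

namespace CarpetPI

namespace NoDat

theorem t_BR : S_BR := Br.p_BR t_HK t_DA t_DD t_DE t_DJ t_DO t_EF t_ER t_ES

theorem t_FA : S_FA := p_FA
theorem t_FB : S_FB := p_FB
theorem t_FC : S_FC := p_FC t_FB
theorem t_FR : S_FR := p_FR t_FA
theorem t_FD : S_FD := p_FD t_XG t_XH
theorem t_FE : S_FE := p_FE
theorem t_FF : S_FF := p_FF t_FC t_FE t_XE
theorem t_FG : S_FG := p_FG t_FB t_FC t_FE t_XE
theorem t_FH : S_FH := p_FH t_FC t_FD t_FF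
theorem t_FI : S_FI := p_FI t_FB t_FC t_FD t_FG
theorem t_FJ : S_FJ := p_FJ
theorem t_FK : S_FK := p_FK t_FA t_FD t_XL
theorem t_FL : S_FL := p_FL t_FA t_FC t_FD t_FR
theorem t_FU : S_FU := p_FU t_FA t_FC t_FD t_FR
theorem t_FV : S_FV := p_FV t_FB
theorem t_FT1 : S_FT1 := p_FT1
theorem t_FT2 : S_FT2 := p_FT2
theorem t_FT3 : S_FT3 := p_FT3
theorem t_FT4 : S_FT4 := p_FT4 t_FT1 t_FT2 t_FT3
theorem t_FS : S_FS := p_FS t_FA t_FC t_FR t_FV t_FH t_FI t_FJ t_FK t_FL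
theorem t_Ffinal : S_Ffinal := p_Ffinal t_Hfinal t_FA t_FC t_FR t_FU t_FV t_FS t_FT4

end NoDat

open NoDat in
/-- there is no `Dat p` -/
theorem no_dat {p : ℝ} (hp : 1 < p) (D : Dat p) : False := by
  have hp2 : p < 2 := t_lt_two D
  have hp0 : 0 < p := by linarith
  have hp1 : 0 < p - 1 := by linarith
  have hpq : 1 / p + 1 / (p / (p - 1)) = 1 := by
    rw [one_div_div]
    field_simp
    ring
  obtain ⟨A, ε, hε, hn⟩ := t_BR p (p / (p - 1)) hp hp2 hpq D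
  obtain ⟨n, hno⟩ := PB.no_half t_Ffinal t_GB t_DB t_HK t_ES hp hp2 hpq D A ε hε
  obtain ⟨L₁, hL⟩ := hn n
  obtain ⟨N, T, Q, u, v, hS⟩ := PB.sit_exists t_CG t_CQ hp D L₁
  obtain ⟨T₀, T', y, u', w, h1, h2, h3, h4⟩ := hL N T L₁ Q u v hS le_rfl
  exact hno N T₀ T' y u' w h1 h2 h3

end CarpetPI
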