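import Pool.Agent.Lib.MP_1d263a_an.PI.StmE

/-!
# MP_1d263a_an, project PI, piece GB: the mirror, `u + u ∘ σ` on the axis
-/

open Finset
open scoped Classical

noncomputable section

namespace CarpetPI

private theorem GB_phi_nonneg {p t : ℝ} (hp : 1 < p) (ht : 0 ≤ t) : phi p t = t ^ (p - 1) := by
  rcases ht.eq_or_lt with h | h
  · rw [← h, phi, Real.sign_zero, zero_mul, Real.zero_rpow (by linarith : p - 1 ≠ 0)]
  · rw [phi, Real.sign_of_pos h, one_mul, abs_of_pos h]

private theorem GB_phi_nonpos {p t : ℝ} (hp : 1 < p) (ht : t ≤ 0) : phi p t = -(-t) ^ (p - 1) := by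
  rcases ht.eq_or_lt with h | h
  · rw [h, phi, Real.sign_zero, zero_mul, neg_zero, Real.zero_rpow (by linarith : p - 1 ≠ 0), neg_zero]
  · rw [phi, Real.sign_of_neg h, neg_one_mul, abs_of_neg h]

private theorem GB_pos_aux {p s t : ℝ} (hp : 1 < p) (hs : 0 ≤ s) (h : 0 < s + t) :
    0 < phi p s + phi p t := by
  rw [GB_phi_nonneg hp hs]
  have h1 : (0 : ℝ) < p - 1 := by linarith
  rcases le_total 0 t with ht | ht
  · rw [GB_phi_nonneg hp ht]
    rcases hs.eq_or_lt with h0 | h0
    · have h2 : 0 < t := by linarith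
      have h3 := Real.rpow_pos_of_pos h2 (p - 1)
      have h4 := Real.rpow_nonneg hs (p - 1)
      linarith
    · have h3 := Real.rpow_pos_of_pos h0 (p - 1)
      have h4 := Real.rpow_nonneg ht (p - 1)
      linarith
  · rw [GB_phi_nonpos hp ht]
    have h2 : (-t) ^ (p - 1) < s ^ (p - 1) :=
      Real.rpow_lt_rpow (by linarith) (by linarith) h1
    linarith

private theorem GB_pos {p s t : ℝ} (hp : 1 < p) (h : 0 < s + t) : 0 < phi p s + phi p t := by
  rcases le_total 0 s with hs | hs
  · exact GB_pos_aux hp hs h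
  · have ht : 0 ≤ t := by linarith
    have := GB_pos_aux hp ht (by linarith : 0 < t + s)
    linarith

private theorem GB_neg_phi {p t : ℝ} (hp : 1 < p) : phi p (-t) = -phi p t := by
  rcases le_total 0 t with ht | ht
  · rw [GB_phi_nonneg hp ht, GB_phi_nonpos hp (by linarith : -t ≤ 0), neg_neg]
  · rw [GB_phi_nonpos hp ht, GB_phi_nonneg hp (by linarith : 0 ≤ -t), neg_neg]

private theorem GB_mul_pos {p s t : ℝ} (hp : 1 < p) (h : s + t ≠ 0) :
    0 < (s + t) * (phi p s + phi p t) := by
  rcases lt_or_gt_of_ne h with h0 | h0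
  · have h1 : 0 < phi p (-s) + phi p (-t) := GB_pos hp (by linarith)
    rw [GB_neg_phi hp, GB_neg_phi hp] at h1
    exact mul_pos_of_neg_of_neg h0 (by linarith)
  · exact mul_pos h0 (GB_pos hp h0)

/-- [GB] the mirror: `u + u ∘ σ` on the axis. -/
theorem p_GB : S_GA → S_GB := by
  intro hGA p D hp N t ht q hq u v X hpair hw hconn x hx hxc hxX y hy hyc hyX
  have hz : ∀ w : Pt, w.1 = X → u w + u (2 * X - w.1, w.2) = 2 * u w := by
    intro w hwX
    have e : ((2 * X - w.1, w.2) : Pt) = w := by
      apply Prod.ext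
      · change 2 * X - w.1 = w.1
        omega
      · rfl
    rw [e]
    ring
  have key := hGA p D hp N t ht q hq (fun x => u x + u (2 * X - x.1, x.2))
    (fun f => v f + -v (2 * X - 1 - f.1, f.2))
    (by
      intro e he hpres
      obtain ⟨h1, h2⟩ := (hpair e he).2 hpres
      unfold dv at h1 h2 ⊢
      linarith)
    (by
      intro e he hpres hne
      obtain ⟨h1, h2⟩ := (hpair e he).1 hpres
      have e1 : du (fun x => u x + u (2 * X - x.1, x.2)) e =
          du u e + du (fun x => u (2 * X - x.1, x.2)) e := by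
        unfold du
        ring
      have e2 : dv (fun f => v f + -v (2 * X - 1 - f.1, f.2)) e =
          dv v e + dv (fun f => -v (2 * X - 1 - f.1, f.2)) e := by
        unfold dv
        ring
      rw [e1] at hne ⊢
      rw [e2, h1, h2]
      exact GB_mul_pos hp hne)
    hw hconn x hx hxc y hy hyc
  have e3 : |(u x + u (2 * X - x.1, x.2)) - (u y + u (2 * X - y.1, y.2))| = 2 * |u x - u y| := by
    rw [hz x hxX, hz y hyX, ← mul_sub, abs_mul, abs_of_pos (by norm_num : (0 : ℝ) < 2)]
  have key' : |(u x + u (2 * X - x.1, x.2)) - (u y + u (2 * X - y.1, y.2))| ^ p ≤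
      D.A * En p (Kept N) (fun x => u x + u (2 * X - x.1, x.2)) (nb D.κ t q) := key
  rw [e3] at key'
  exact key'

end CarpetPI
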