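import Pool.Agent.Lib.MP_1d263a_an.PI.StmH2

/-!
# MP_1d263a_an, project PI, piece HS: the pattern in a kept cell of a region
-/

set_option autoImplicit false

open Finset
open scoped Classical

noncomputable section

namespace CarpetPI

private theorem HS_low (c r : ℤ) (m k : ℕ) (h : k < m) :
    (r + c * 3 ^ m) / 3 ^ k % 3 = r / 3 ^ k % 3 := by
  have hk : (3 : ℤ) ^ k ≠ 0 := by positivity
  have h1 : c * 3 ^ m = 3 ^ k * (3 * (3 ^ (m - k - 1) * c)) := by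
    have h2 : (3 : ℤ) ^ m = 3 ^ k * (3 * 3 ^ (m - k - 1)) := by
      rw [← pow_succ', ← pow_add]
      congr 1
      omega
    rw [h2]
    ring
  rw [h1, Int.add_mul_ediv_left _ _ hk, Int.add_mul_emod_self_left]

private theorem HS_div (c h : ℤ) (m : ℕ) (h1 : c * 3 ^ m ≤ h) (h2 : h < (c + 1) * 3 ^ m) :
    h / 3 ^ m = c := by
  have hm : (0 : ℤ) < 3 ^ m := by positivity
  refine le_antisymm ?_ ?_
  · have := Int.ediv_lt_of_lt_mul hm h2
    omega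
  · exact Int.le_ediv_of_mul_le hm h1

private theorem HS_high (c h : ℤ) (m k : ℕ) (hk : m ≤ k) (h1 : c * 3 ^ m ≤ h)
    (h2 : h < (c + 1) * 3 ^ m) : h / 3 ^ k = c / 3 ^ (k - m) := by
  have hm : (0 : ℤ) ≤ 3 ^ m := by positivity
  have e : (3 : ℤ) ^ k = 3 ^ m * 3 ^ (k - m) := by
    rw [← pow_add]
    congr 1
    omega
  rw [e, ← Int.ediv_ediv_of_nonneg hm, HS_div c h m h1 h2]

theorem p_HS : S_HS := by
  intro T 𝒦 K hP m hm c hc f hf
  obtain ⟨g, hgK, hg⟩ := hc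
  unfold cell box at hf hg
  rw [Finset.mem_product, Finset.mem_Ico, Finset.mem_Ico] at hf hg
  obtain ⟨⟨f1, f2⟩, f3, f4⟩ := hf
  obtain ⟨⟨g1, g2⟩, g3, g4⟩ := hg
  obtain ⟨hgP, hgT⟩ := (hP g).mp hgK
  have tops : ∀ k : ℕ, m ≤ k → f.1 / 3 ^ k = g.1 / 3 ^ k ∧ f.2 / 3 ^ k = g.2 / 3 ^ k := by
    intro k hk
    rw [HS_high _ _ m k hk f1 f2, HS_high _ _ m k hk f3 f4, HS_high _ _ m k hk g1 g2,
      HS_high _ _ m k hk g3 g4]
    exact ⟨rfl, rfl⟩
  have low : ∀ k : ℕ, k < m → (f.1 / 3 ^ k % 3 = (f.1 - c.1 * 3 ^ m) / 3 ^ k % 3 ∧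
      f.2 / 3 ^ k % 3 = (f.2 - c.2 * 3 ^ m) / 3 ^ k % 3) := by
    intro k hk
    have h1 := HS_low c.1 (f.1 - c.1 * 3 ^ m) m k hk
    have h2 := HS_low c.2 (f.2 - c.2 * 3 ^ m) m k hk
    rw [sub_add_cancel] at h1 h2
    exact ⟨h1, h2⟩
  rw [hP f]
  constructor
  · rintro ⟨h1, -⟩
    refine ⟨?_, ?_, ?_, ?_, ?_⟩
    · show 0 ≤ f.1 - c.1 * 3 ^ m
      linarith
    · show f.1 - c.1 * 3 ^ m < 3 ^ m
      linarith
    · show 0 ≤ f.2 - c.2 * 3 ^ m
      linarith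
    · show f.2 - c.2 * 3 ^ m < 3 ^ m
      linarith
    · intro k hk
      have h2 := h1 k (lt_of_lt_of_le hk hm)
      rw [(low k hk).1, (low k hk).2] at h2
      exact h2
  · rintro ⟨-, -, -, -, h1⟩
    refine ⟨?_, ?_⟩
    · intro k hk
      rcases Nat.lt_or_ge k m with h | h
      · rw [(low k h).1, (low k h).2]
        exact h1 k h
      · rw [(tops k h).1, (tops k h).2]
        exact hgP k hk
    · rw [(tops T hm).1, (tops T hm).2]
      exact hgT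

end CarpetPI
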