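import Pool.Agent.Lib.MP_1d263a_an.PI.StmC
import Pool.Agent.Lib.MP_1d263a_an.PI.B

open Finset
open scoped Classical

noncomputable section

namespace CarpetPI.PB

theorem cell0_eq (t : ℕ) : cell t (0, 0) = Finset.Ico (0:ℤ) (3 ^ t) ×ˢ Finset.Ico (0:ℤ) (3 ^ t) := by
  simp [cell, box]

/-- number of the cells -/
theorem card_kept (hA : S_CA) (t : ℕ) :
    (((cell t (0, 0)).filter (· ∈ Kept t)).card : ℝ) ≤ 8 ^ t := by
  induction t with
  | zero =>
    have h1 : ((cell 0 (0, 0)).filter (· ∈ Kept 0)).card ≤ (cell 0 (0, 0)).card :=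
      Finset.card_filter_le _ _
    rw [hA.2.2.2.2.1 (0, 0), Finset.card_singleton] at h1
    rw [pow_zero]
    rw [hA.2.2.2.2.1 (0, 0)]
    exact_mod_cast h1
  | succ t ih =>
    obtain ⟨-, h2, h3, -⟩ := hA
    have e1 := h2 0 t (t + 1) (0, 0) (fun _ => (1:ℝ)) (by omega)
    simp only [zero_add, Finset.sum_const, nsmul_eq_mul, mul_one] at e1
    rw [e1]
    have e2 : ∀ q' ∈ dsc 0 t (0, 0), (((cell (t + 1 - t) q').filter (· ∈ Kept (t + 1))).card : ℝ) ≤ 8 := by
      intro q' hq'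
      have hq : q' ∈ Kept t := by
        have := (Finset.mem_filter.1 hq').2
        rwa [zero_add] at this
      have e3 := h3 t q' hq
      rw [show t + 1 - t = 1 by omega]
      have e4 : (cell 1 q').filter (· ∈ Kept (t + 1)) = dsc t 1 q' := rfl
      rw [e4, e3]
      have e5 : (kids.image (kid q')).card ≤ kids.card := Finset.card_image_le
      have e6 : kids.card = 8 := by decide
      rw [e6] at e5
      exact_mod_cast e5
    refine (Finset.sum_le_sum e2).trans ?_
    rw [Finset.sum_const, nsmul_eq_mul]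
    have e7 : dsc 0 t (0, 0) = (cell t (0, 0)).filter (· ∈ Kept t) := by
      unfold dsc; rw [zero_add]
    rw [e7]
    calc _ ≤ (8:ℝ) ^ t * 8 := mul_le_mul_of_nonneg_right ih (by norm_num)
      _ = 8 ^ (t + 1) := by ring

theorem p_lt_two (hA : S_CA) {p : ℝ} (hp : 1 < p) (D : Dat p) : p < 2 := by
  by_contra hc
  push Not at hc
  have hApos : 0 < D.A := by linarith [D.hA]
  have key : ∀ t : ℕ, D.A⁻¹ ≤ 2 * (8 / 9 : ℝ) ^ t := by
    intro t
    have h1 := D.cap t (fun x => (x.1 : ℝ) / 3 ^ t) (by intro j; simp) (by intro j; simp)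
    refine h1.trans ?_
    unfold En
    have h2 : ∀ f ∈ (cell t (0, 0)).filter (· ∈ Kept t), fe p (fun x : Pt => (x.1 : ℝ) / 3 ^ t) f ≤
        2 * (1 / 9 : ℝ) ^ t := by
      rintro ⟨x, y⟩ _
      rw [fe_expand]
      have h3 : (3:ℝ) ^ t ≠ 0 := by positivity
      have e1 : (((x + 1 : ℤ) : ℝ)) / 3 ^ t - (x : ℝ) / 3 ^ t = 1 / 3 ^ t := by
        push_cast; field_simp; ring
      simp only
      rw [e1, sub_self, sub_self, abs_zero, Real.zero_rpow (by linarith), add_zero, add_zero,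
        abs_of_pos (by positivity)]
      have h4 : (1 / (3:ℝ) ^ t) ^ p ≤ (1 / 9 : ℝ) ^ t := by
        have h5 : (1 / (3:ℝ) ^ t) ^ p ≤ (1 / (3:ℝ) ^ t) ^ (2:ℝ) := by
          refine Real.rpow_le_rpow_of_exponent_ge (by positivity) ?_ hc
          rw [div_le_one (by positivity)]
          exact one_le_pow₀ (by norm_num)
        refine h5.trans (le_of_eq ?_)
        rw [show (2:ℝ) = ((2:ℕ) : ℝ) by norm_num, Real.rpow_natCast, div_pow, div_pow, one_pow, one_pow,
          ← pow_mul, mul_comm t 2, pow_mul]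
        norm_num
      linarith
    refine (Finset.sum_le_sum h2).trans ?_
    rw [Finset.sum_const, nsmul_eq_mul]
    have h3 := card_kept hA t
    calc _ ≤ (8:ℝ) ^ t * (2 * (1 / 9 : ℝ) ^ t) := mul_le_mul_of_nonneg_right h3 (by positivity)
      _ = 2 * (8 / 9 : ℝ) ^ t := by
        rw [show (8 / 9 : ℝ) = 8 * (1 / 9) by norm_num, mul_pow]; ring
  have hlim : Filter.Tendsto (fun t : ℕ => 2 * (8 / 9 : ℝ) ^ t) Filter.atTop (nhds (2 * 0)) :=
    (tendsto_pow_atTop_nhds_zero_of_lt_one (by norm_num) (by norm_num)).const_mul 2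
  rw [mul_zero] at hlim
  have := ge_of_tendsto' hlim key
  have h0 : 0 < D.A⁻¹ := inv_pos.2 hApos
  linarith

end CarpetPI.PB
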