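import Pool.Agent.Lib.MP_1d263a_an.PI.Defs

/-!
# MP_1d263a_an, project PI, part B: planar duality

Every `S_Bx : Prop` is one piece; its complete proof is in the docstring. Files: `PI/Bx.lean`, theorem `p_Bx : S_Bx`
(with the pieces named in the docstring as hypotheses, in this order).
-/

open Finset
open scoped Classical

noncomputable section

namespace CarpetPI

/-! ### edges, small lemmas -/

@[simp] theorem tl_h (x : Pt) : tl (false, x) = x := rfl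
@[simp] theorem tl_v (x : Pt) : tl (true, x) = x := rfl
@[simp] theorem hd_h (x : Pt) : hd (false, x) = (x.1 + 1, x.2) := rfl
@[simp] theorem hd_v (x : Pt) : hd (true, x) = (x.1, x.2 + 1) := rfl
@[simp] theorem lf_h (x : Pt) : lf (false, x) = x := rfl
@[simp] theorem lf_v (x : Pt) : lf (true, x) = (x.1 - 1, x.2) := rfl
@[simp] theorem rf_h (x : Pt) : rf (false, x) = (x.1, x.2 - 1) := rfl
@[simp] theorem rf_v (x : Pt) : rf (true, x) = x := rfl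

/-- the edges of the rectangle `[0, W] × [0, H]` -/
def RE (W H : ℤ) : Finset Ed :=
  (Finset.Ico 0 W ×ˢ Finset.Icc 0 H).image (fun x => ((false, x) : Ed)) ∪
    (Finset.Icc 0 W ×ˢ Finset.Ico 0 H).image (fun x => ((true, x) : Ed))

theorem mem_RE_h {W H : ℤ} {x : Pt} : ((false, x) : Ed) ∈ RE W H ↔
    (0 ≤ x.1 ∧ x.1 < W) ∧ 0 ≤ x.2 ∧ x.2 ≤ H := by
  simp [RE, Finset.mem_product]

theorem mem_RE_v {W H : ℤ} {x : Pt} : ((true, x) : Ed) ∈ RE W H ↔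
    (0 ≤ x.1 ∧ x.1 ≤ W) ∧ 0 ≤ x.2 ∧ x.2 < H := by
  simp [RE, Finset.mem_product]

theorem sum_RE (W H : ℤ) (F : Ed → ℝ) : ∑ e ∈ RE W H, F e =
    ∑ i ∈ Finset.Ico 0 W, ∑ j ∈ Finset.Icc 0 H, F (false, (i, j)) +
      ∑ i ∈ Finset.Icc 0 W, ∑ j ∈ Finset.Ico 0 H, F (true, (i, j)) := by
  unfold RE
  rw [Finset.sum_union, Finset.sum_image, Finset.sum_image, Finset.sum_product, Finset.sum_product]
  · intro x _ y _ h; simpa using h
  · intro x _ y _ h; simpa using h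
  · rw [Finset.disjoint_left]
    rintro e h1 h2
    simp only [Finset.mem_image] at h1 h2
    obtain ⟨x, -, rfl⟩ := h1
    obtain ⟨y, -, h⟩ := h2
    simp at h

/-! ### Green's formula -/

/-- [BGA] Green's formula with a finitely supported factor.
Proof: (1) `∑_{e ∈ S} du U e·dv V e = ∑_{e∈S} U (hd e)·dv V e - ∑_{e∈S} U (tl e)·dv V e`. Let `X` be the support of `U`; it is finite (`x ∈ X` implies `(false, x) ∈ S`, `tl (false,x) = x`). The first sum is `∑_{x∈X} U x·(dv V (false,(x.1-1,x.2)) + dv V (true,(x.1,x.2-1)))` (the two edges with head `x` are in `S`; group by `hd e`; alternatively use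
`finsum` over all edges and its invariance under translations), the second one `∑_{x∈X} U x·(dv V (false,x) + dv V (true,x))`. For every `x = (i,j)`: `dv V (false,x) + dv V (true,x) - dv V (false,(i-1,j)) - dv V (true,(i,j-1)) = [V(i,j)-V(i,j-1)] + [V(i-1,j)-V(i,j)] - [V(i-1,j)-V(i-1,j-1)] - [V(i-1,j-1)-V(i,j-1)] = 0`.
(2) the same with faces: the edges with `lf e = (i,j)` are `(false,(i,j))`, `(true,(i+1,j))`, those with `rf e = (i,j)` are `(false,(i,j+1))`, `(true,(i,j))`, and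
`du U (false,(i,j)) + du U (true,(i+1,j)) - du U (false,(i,j+1)) - du U (true,(i,j)) = 0`. -/
def S_BGA : Prop :=
  (∀ (S : Finset Ed) (U V : Pt → ℝ), (∀ e, e ∉ S → U (hd e) = 0 ∧ U (tl e) = 0) →
    ∑ e ∈ S, du U e * dv V e = 0) ∧
  (∀ (S : Finset Ed) (U V : Pt → ℝ), (∀ e, e ∉ S → V (lf e) = 0 ∧ V (rf e) = 0) →
    ∑ e ∈ S, du U e * dv V e = 0)

/-- [BGB] Green's formula on a rectangle.
Proof: `sum_RE`; for `W, H ≥ 0` group by `V`: the coefficient of `V (i,j)`, `0 ≤ i < W`, `0 ≤ j < H`, is `du U (false,(i,j)) + du U (true,(i+1,j)) - du U (false,(i,j+1)) - du U (true,(i,j)) = 0`; the remaining terms are the boundary terms. In Lean: e.g. induction on `W` and `H` (as natural numbers), or two shifts of the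
summation index (`Finset.sum_Ico_add'`-like lemmas after passing to `Finset.range`): `∑_{j∈Icc 0 H} a_j (V_j - V_{j-1}) = a_H V_H - a_0 V_{-1} - ∑_{j∈Ico 0 H}(a_{j+1}-a_j)V_j` for `H ≥ 0` (induction on `H`) for each column `i` (`a_j = du U (false,(i,j))`, `V_j = V (i,j)`), and the analogous formula in the variable `i` for the vertical edges:
`∑_{i∈Icc 0 W} b_i (V_{i-1} - V_i) = b_0V_{-1} - b_WV_W + ∑_{i∈Ico 0 W}(b_{i+1}-b_i)V_i` for each row `j` (`b_i = du U (true,(i,j))`); then `a_{j+1} - a_j = b_{i+1} - b_i` at the face `(i,j)`. -/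
def S_BGB : Prop := ∀ (W H : ℤ) (U V : Pt → ℝ), 0 ≤ W → 0 ≤ H →
  ∑ e ∈ RE W H, du U e * dv V e =
    ∑ i ∈ Finset.Ico 0 W, (V (i, H) * du U (false, (i, H)) - V (i, -1) * du U (false, (i, 0))) +
      ∑ j ∈ Finset.Ico 0 H, (V (-1, j) * du U (true, (0, j)) - V (W, j) * du U (true, (W, j)))

/-! ### the function `phi` -/

/-- [BPA] algebra of `phi`.
Proof: cases on the sign of `t`; `Real.sign`; `Real.rpow_mul`, `(p-1)(q-1) = 1`; monotonicity from `Real.rpow_lt_rpow`; continuity: `phi p t = t·|t|^(p-2)` is continuous away from `0`, and `|phi p t| = |t|^(p-1) → 0` at `0`; or: `phi p t = (max t 0)^(p-1) - (max (-t) 0)^(p-1)`, which is clearly continuous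
(`Real.continuous_rpow_const` with `0 ≤ p-1`). -/
def S_BPA : Prop := ∀ (p : ℝ), 1 < p →
  (phi p 0 = 0) ∧ (∀ t, phi p (-t) = -phi p t) ∧ (∀ t, |phi p t| = |t| ^ (p - 1)) ∧ (∀ t, t * phi p t = |t| ^ p) ∧
  (∀ l t, 0 ≤ l → phi p (l * t) = l ^ (p - 1) * phi p t) ∧ StrictMono (phi p) ∧ Continuous (phi p) ∧
  (∀ t, phi (p / (p - 1)) (phi p t) = t) ∧ (∀ t, phi p (phi (p / (p - 1)) t) = t) ∧
  (∀ t, |phi p t| ^ (p / (p - 1)) = |t| ^ p) ∧
  (∀ t, 0 < phi p t ↔ 0 < t) ∧ (∀ t, phi p t < 0 ↔ t < 0) ∧ (∀ t, phi p t = 0 ↔ t = 0)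

/-- [BPB] Lipschitz type bounds of `phi` (take `S_BPA` as hypothesis).
Proof: by symmetry (`x ↔ y`, oddness) `x = max (|x|,|y|) > 0` (if it is `0` all terms vanish), and by homogeneity `x = 1`, `y = s ∈ [-1,1]`.
`q ≥ 2`: upper bound: for `s ≥ 0`, `1 - s^(q-1) ≤ (q-1)(1-s)` (Bernoulli: `one_add_mul_self_le_rpow_one_add`); for `s < 0`, `1 + |s|^(q-1) ≤ 1 + |s| ≤ (q-1)(1+|s|)`. Lower bound: `s ≥ 0`: `1 - s^(q-1) ≥ 1 - s`; `s < 0`: `1 + |s|^(q-1) ≥ 1 ≥ (1+|s|)/2`.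
`1 < p ≤ 2`: `s ≥ 0`: `(p-1)(1-s) ≤ 1 - s^(p-1) ≤ 1 - s` (Bernoulli for exponents `≤ 1`: `rpow_one_add_le_one_add_mul_self`); `s < 0`: `(p-1)(1+|s|) ≤ 1+|s| ≤ 1 + |s|^(p-1) ≤ 2 ≤ 2(1+|s|)`. -/
def S_BPB : Prop :=
  (∀ (q : ℝ), 2 ≤ q → ∀ x y : ℝ, |phi q x - phi q y| ≤ (q - 1) * max |x| |y| ^ (q - 2) * |x - y| ∧
    (1 / 2) * max |x| |y| ^ (q - 2) * |x - y| ≤ |phi q x - phi q y|) ∧
  (∀ (p : ℝ), 1 < p → p ≤ 2 → ∀ x y : ℝ, |phi p x - phi p y| ≤ 2 * max |x| |y| ^ (p - 2) * |x - y| ∧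
    (p - 1) * max |x| |y| ^ (p - 2) * |x - y| ≤ |phi p x - phi p y|)

/-- [BPC] powers for a pair (take `S_BPA` as hypothesis). Proof: clear from BPA; also in the dual form `du = phi q (dv)`. -/
def S_BPC : Prop := ∀ (p : ℝ), 1 < p → ∀ (K : Set Pt) (R : Set Ed) (u v : Pt → ℝ), Pair p K R u v → ∀ e ∈ R,
  (pres K e → du u e = phi (p / (p - 1)) (dv v e) ∧ |dv v e| ^ (p / (p - 1)) = |du u e| ^ p ∧
    du u e * dv v e = |du u e| ^ p ∧ |du u e| * |dv v e| = |du u e| ^ p ∧ (du u e = 0 ↔ dv v e = 0)) ∧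
  0 ≤ du u e * dv v e ∧ (dv v e ≠ 0 → 0 < du u e * dv v e)

/-! ### the potential of a rectangle -/

/-- `u` is the potential from the left side to the right side of the rectangle `[0,W] × [0,H]` and `v` its stream function, for the network of the faces in `K` -/
structure RPot (p : ℝ) (K : Set Pt) (W H : ℤ) (u v : Pt → ℝ) (I : ℝ) : Prop where
  u_left : ∀ x : Pt, x.1 ≤ 0 → u x = 0
  u_right : ∀ x : Pt, W ≤ x.1 → u x = 1
  u_nonneg : ∀ x, 0 ≤ u x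
  u_le : ∀ x, u x ≤ 1
  v_bot : ∀ f : Pt, f.2 < 0 → v f = 0
  v_top : ∀ f : Pt, H ≤ f.2 → v f = I
  v_left : ∀ f : Pt, f.1 < 0 → v f = v (0, f.2)
  v_right : ∀ f : Pt, W ≤ f.1 → v f = v (W - 1, f.2)
  pair : Pair p K (↑(RE W H)) u v
  I_nonneg : 0 ≤ I
  energy : I = ∑ e ∈ (RE W H).filter (pres K), |du u e| ^ p
  minim : ∀ f : Pt → ℝ, (∀ j, f (0, j) = 0) → (∀ j, f (W, j) = 1) →
    I ≤ ∑ e ∈ (RE W H).filter (pres K), |du f e| ^ p

/-- [BRA] the minimiser.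
Proof: `C = {u | ∀ x, u x ∈ s x}`, `s x = {0}` if `x.1 ≤ 0`, `{1}` if `W ≤ x.1`, `[0,1]` otherwise, is compact in the product topology (`isCompact_univ_pi`) and nonempty; the energy `E u = ∑_{e ∈ RE, pres} |du u e|^p` is continuous (finite sum), so it has a minimiser `u` on `C` (`IsCompact.exists_isMinOn`). For `f` as in (2) let `g x` be `0` if `x.1 ≤ 0`, `1` if
`W ≤ x.1`, and `max 0 (min 1 (f x))` otherwise; on the vertices of the rectangle `g = max 0 (min 1 f)` (also for `x.1 = 0`, `W`; `1 ≤ W`), so `|du g e| ≤ |du f e|` for `e ∈ RE`, and `E u ≤ E g ≤ E f`. (3) let `h = 0` for `x.1 = 0` and `x.1 = W`. For every real `t` the function `u + t·h` is admissible in (2), so `t ↦ E(u + t h)` has a minimum at `0`, and its derivative at `0`,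
`∑ p·|du u e|^(p-2)·du u e·du h e` (`hasDerivAt_abs_rpow`), is `0` (`IsLocalMin.hasDerivAt_eq_zero`). `|a|^(p-2)·a = phi p a`. -/
def S_BRA : Prop := ∀ (p : ℝ), 1 < p → ∀ (K : Set Pt) (W H : ℤ), 1 ≤ W → ∃ u : Pt → ℝ,
  ((∀ x : Pt, x.1 ≤ 0 → u x = 0) ∧ (∀ x : Pt, W ≤ x.1 → u x = 1) ∧ ∀ x, 0 ≤ u x ∧ u x ≤ 1) ∧
  (∀ f : Pt → ℝ, (∀ j, f (0, j) = 0) → (∀ j, f (W, j) = 1) →
    ∑ e ∈ (RE W H).filter (pres K), |du u e| ^ p ≤ ∑ e ∈ (RE W H).filter (pres K), |du f e| ^ p) ∧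
  (∀ h : Pt → ℝ, (∀ j, h (0, j) = 0) → (∀ j, h (W, j) = 0) →
    ∑ e ∈ (RE W H).filter (pres K), phi p (du u e) * du h e = 0)

/-- [BRB] the stream function, from a current.
Let `J` be a function on the edges, `J e = 0` for `e ∉ RE W H`, such that the weak equation holds. Proof: for a vertex `x = (i,j)` with `0 < i < W` take `h` = the indicator function of `x`: `J (false,(i-1,j)) + J (true,(i,j-1)) - J (false,(i,j)) - J (true,(i,j)) = 0` (the edges not in `RE W H` have `J = 0`; for `j < 0` or `j > H` all four edges are outside, so the identity holds for all `j`).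
Define for `0 ≤ i < W`: `v (i,j) = ∑_{j' ∈ Icc 0 j} J (false,(i,j'))`, `v (i,j) = v (0,j)` for `i < 0` and `v (i,j) = v (W-1,j)` for `i ≥ W` (i.e. with `max 0 (min (W-1) i)` in place of `i`). `v (i,j) = 0` for `j < 0`. Horizontal edges `(false,(i,j))`, `0 ≤ i < W`, all `j ≥ 0`: `v (i,j) - v (i,j-1) = J (false,(i,j))`. Vertical edges `(true,(i,j))` with `0 < i < W`, `j ≥ 0`:
`v (i-1,j) - v (i,j) = ∑_{j'=0}^j (J (false,(i-1,j')) - J (false,(i,j'))) = ∑_{j'=0}^j (J (true,(i,j')) - J (true,(i,j'-1))) = J (true,(i,j)) - J (true,(i,-1)) = J (true,(i,j))`. For `j ≥ H` this is `0`, so `v (i,j)`, `j ≥ H`, does not depend on `i`; and it does not depend on `j ≥ H` since `J (false,(i,j)) = 0` for `j > H`. Call it `I`. For vertical edges with `i = 0` or `i = W`: `dv v = 0 = J`.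
`I = ∑_{j'∈Icc 0 H} J (false,(0,j'))`: for `U` with `U (0,j) = 0`, `U (W,j) = 1` for all `j` let `k x = 1` if `1 ≤ x.1` and `0` otherwise, `h = U - k` vanishes at `x.1 = 0` and `x.1 = W`, so `∑ J e·du U e = ∑ J e·du k e = ∑_{j ∈ Icc 0 H} J (false,(0,j)) = I`. -/
def S_BRB : Prop := ∀ (W H : ℤ) (J : Ed → ℝ), 1 ≤ W → 0 ≤ H → (∀ e, e ∉ RE W H → J e = 0) →
  (∀ j, J (true, (0, j)) = 0) → (∀ j, J (true, (W, j)) = 0) →
  (∀ h : Pt → ℝ, (∀ j, h (0, j) = 0) → (∀ j, h (W, j) = 0) → ∑ e ∈ RE W H, J e * du h e = 0) →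
  ∃ (v : Pt → ℝ) (I : ℝ), (∀ f : Pt, f.2 < 0 → v f = 0) ∧ (∀ f : Pt, H ≤ f.2 → v f = I) ∧
    (∀ f : Pt, f.1 < 0 → v f = v (0, f.2)) ∧ (∀ f : Pt, W ≤ f.1 → v f = v (W - 1, f.2)) ∧
    (∀ e ∈ RE W H, dv v e = J e) ∧
    (∀ U : Pt → ℝ, (∀ j, U (0, j) = 0) → (∀ j, U (W, j) = 1) → ∑ e ∈ RE W H, J e * du U e = I)

/-- [BRC] existence of the potential (take `S_BPA`, `S_BRA`, `S_BRB` as hypotheses).
Proof: `u` from BRA; `J e = phi p (du u e)` if `e ∈ RE W H` and `pres K e`, and `0` otherwise. (`J (true,(0,j)) = 0` as `u = 0` for `x.1 = 0`, `J (true,(W,j)) = 0` as `u = 1` for `x.1 = W`.) `v`, `I` from BRB. `I = ∑ J e·du u e = ∑_{pres} |du u e|^p ≥ 0` (BPA). -/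
def S_BRC : Prop := ∀ (p : ℝ), 1 < p → ∀ (K : Set Pt) (W H : ℤ), 1 ≤ W → 0 ≤ H →
  ∃ (u v : Pt → ℝ) (I : ℝ), RPot p K W H u v I

/-- [BRD] bounds for `v`, and the Tile property (take `S_BGB`, `S_BPA` as hypotheses).
Proof: (1) let `V f = max 0 (v f - I)`. `V = 0` for `f.2 < 0` (`I ≥ 0`) and for `H ≤ f.2`; `du u (true,(0,j)) = 0 = du u (true,(W,j))`. By BGB `∑_{RE} du u e·dv V e = 0`. Every term is `≥ 0`: if `dv V e ≠ 0` then `dv v e` has the same sign (`max 0 (· - I)` is nondecreasing), so `e` is present and `du u e` has the same sign, and the term is `> 0`. Hence `dv V e = 0` for all `e ∈ RE`. Induction downwards on `j`: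
`V (i,j-1) = V (i,j) - dv V (false,(i,j)) = V(i,j)` for `0 ≤ i < W`, `0 ≤ j ≤ H`, starting from `V (i,H) = 0`. For `i < 0`, `i ≥ W` use `v_left`, `v_right`. The same with `V f = max 0 (-v f)` (from below; `V = 0` for `f.2 < 0` and `H ≤ f.2`, `-V` is nondecreasing in `v`).
(2) Let `e ≠ e'` be present edges of `RE W H`, `a`, `c` in their open intervals. Then `0 < a < 1` since `0 ≤ u ≤ 1`. Let `s x = 1` if `u x < a`, else `0`; `t f = 1` if `v f < c`, else `0`. For every `e'' ∈ RE`, `du s e''·dv t e'' ≥ 0`: if `dv t ≠ 0` then `dv v ≠ 0` has the opposite sign, so `e''` is present and `du u` has the sign of `dv v`, and `du s` is `0` or has the opposite sign. For `e''` equal to `e` or `e'` it is `1`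
(`du u e ≠ 0` since its interval is nonempty; if `du u e > 0`, then `u (tl e) < a < u (hd e)`, `du s e = -1`, and `v (rf e) < c < v (lf e)` as `dv v e > 0`, `dv t e = -1`; if `du u e < 0`, both are `1`). So the sum over `RE` is `≥ 2`. By BGB it is `∑_{i∈Ico 0 W} (t(i,H) du s(false,(i,H)) - t(i,-1) du s (false,(i,0)))`, as `s` is constant on `x.1 = 0` and on `x.1 = W`; `t (i,H) = [I < c] =: t₁`, `t (i,-1) = [0 < c] =: t₀`, and
`∑_i du s (false,(i,j)) = s (W,j) - s (0,j) = -1`. So the sum is `t₀ - t₁ ≤ 1`, a contradiction. -/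
def S_BRD : Prop := ∀ (p : ℝ), 1 < p → ∀ (K : Set Pt) (W H : ℤ), 1 ≤ W → 0 ≤ H → ∀ (u v : Pt → ℝ) (I : ℝ),
  RPot p K W H u v I → (∀ f, 0 ≤ v f ∧ v f ≤ I) ∧ Tile K (↑(RE W H)) u v

/-! ### layer cake lemmas -/

/-- [BLA] Proof: integrate over `b ∈ (a₀, a₁)`: the function `g b = ∑_{e ∈ S} w e·1_{(l e, r e)}(b)` is `≥ M` outside the finite set `Z` (of measure `0`), and `∫_{a₀}^{a₁} 1_{(l,r)}(b) db ≤ r - l` for `l ≤ r`. -/
def S_BLA : Prop := ∀ (ι : Type) (S : Finset ι) (l r w : ι → ℝ) (a₀ a₁ M : ℝ) (Z : Finset ℝ),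
  (∀ e ∈ S, l e ≤ r e ∧ 0 ≤ w e) → a₀ ≤ a₁ →
  (∀ b, a₀ < b → b < a₁ → b ∉ Z → M ≤ ∑ e ∈ S.filter (fun e => l e < b ∧ b < r e), w e) →
  M * (a₁ - a₀) ≤ ∑ e ∈ S, w e * (r e - l e)

/-- [BLB] Proof: the measure of the union of the pairwise disjoint open rectangles (those with `l e < r e`, `l' e < r' e`; the others contribute `0`) is the sum of the areas, and the union is contained in `[U₀,U₁] × [V₀,V₁]` (`measure_biUnion_finset`, `Measure.prod_prod`, `Real.volume_Ioo`; if `S` is empty use `U₀ ≤ U₁`, `V₀ ≤ V₁`). -/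
def S_BLB : Prop := ∀ (ι : Type) (S : Finset ι) (l r l' r' : ι → ℝ) (U₀ U₁ V₀ V₁ : ℝ), U₀ ≤ U₁ → V₀ ≤ V₁ →
  (∀ e ∈ S, U₀ ≤ l e ∧ l e ≤ r e ∧ r e ≤ U₁ ∧ V₀ ≤ l' e ∧ l' e ≤ r' e ∧ r' e ≤ V₁) →
  (∀ e ∈ S, ∀ e' ∈ S, e ≠ e' → ∀ a c : ℝ, ¬ ((l e < a ∧ a < r e ∧ l' e < c ∧ c < r' e) ∧
    (l e' < a ∧ a < r e' ∧ l' e' < c ∧ c < r' e'))) →
  ∑ e ∈ S, (r e - l e) * (r' e - l' e) ≤ (U₁ - U₀) * (V₁ - V₀)

/-- [BLC] area bound for a pair with the Tile property (take `S_BLB` as hypothesis).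
Proof: BLB with `l e = min (u (hd e)) (u (tl e))`, `r e = max ..`, `l' e = min (v (lf e)) (v (rf e))`, `r' e = max ..`; `r e - l e = |du u e|`, `r' e - l' e = |dv v e|`. -/
def S_BLC : Prop := ∀ (K : Set Pt) (R : Set Ed) (u v : Pt → ℝ) (S : Finset Ed) (U₀ U₁ V₀ V₁ : ℝ), Tile K R u v →
  (∀ e ∈ S, e ∈ R ∧ pres K e) → U₀ ≤ U₁ → V₀ ≤ V₁ →
  (∀ e ∈ S, (U₀ ≤ u (hd e) ∧ u (hd e) ≤ U₁) ∧ (U₀ ≤ u (tl e) ∧ u (tl e) ≤ U₁) ∧
    (V₀ ≤ v (lf e) ∧ v (lf e) ≤ V₁) ∧ (V₀ ≤ v (rf e) ∧ v (rf e) ≤ V₁)) →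
  ∑ e ∈ S, |du u e| * |dv v e| ≤ (U₁ - U₀) * (V₁ - V₀)

/-! ### symmetries -/

/-- `σ` (on vertices), `τ` (on faces) and `ρ` (on edges) form a symmetry of the lattice, which preserves the orientation if `ε = 1` and reverses it if `ε = -1` -/
structure IsSym (ε : ℝ) (σ τ : Pt ≃ Pt) (ρ : Ed ≃ Ed) : Prop where
  eps : ε = 1 ∨ ε = -1
  vert : ∀ e, (σ (tl e) = tl (ρ e) ∧ σ (hd e) = hd (ρ e) ∧
      ((ε = 1 ∧ τ (lf e) = lf (ρ e) ∧ τ (rf e) = rf (ρ e)) ∨ (ε = -1 ∧ τ (lf e) = rf (ρ e) ∧ τ (rf e) = lf (ρ e)))) ∨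
    (σ (tl e) = hd (ρ e) ∧ σ (hd e) = tl (ρ e) ∧
      ((ε = -1 ∧ τ (lf e) = lf (ρ e) ∧ τ (rf e) = rf (ρ e)) ∨ (ε = 1 ∧ τ (lf e) = rf (ρ e) ∧ τ (rf e) = lf (ρ e))))

/-- translations -/
def trP (a : Pt) : Pt ≃ Pt where
  toFun x := (x.1 + a.1, x.2 + a.2)
  invFun x := (x.1 - a.1, x.2 - a.2)
  left_inv x := by ext <;> simp
  right_inv x := by ext <;> simp

/-- translations of edges -/
def trE (a : Pt) : Ed ≃ Ed where
  toFun e := (e.1, (e.2.1 + a.1, e.2.2 + a.2))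
  invFun e := (e.1, (e.2.1 - a.1, e.2.2 - a.2))
  left_inv x := by ext <;> simp
  right_inv x := by ext <;> simp

/-- rotation by 90 degrees, vertices -/
def roV : Pt ≃ Pt where
  toFun x := (-x.2, x.1)
  invFun x := (x.2, -x.1)
  left_inv x := by ext <;> simp
  right_inv x := by ext <;> simp

/-- rotation by 90 degrees, faces -/
def roF : Pt ≃ Pt where
  toFun x := (-x.2 - 1, x.1)
  invFun x := (x.2, -x.1 - 1)
  left_inv x := by ext <;> simp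
  right_inv x := by ext <;> simp

/-- rotation by 90 degrees, edges: `(false, (i,j)) ↦ (true, (-j,i))`, `(true, (i,j)) ↦ (false, (-j-1,i))` -/
def roE : Ed ≃ Ed where
  toFun e := if e.1 then (false, (-e.2.2 - 1, e.2.1)) else (true, (-e.2.2, e.2.1))
  invFun e := if e.1 then (false, (e.2.2, -e.2.1)) else (true, (e.2.2, -e.2.1 - 1))
  left_inv := by rintro ⟨b, i, j⟩; cases b <;> simp
  right_inv := by rintro ⟨b, i, j⟩; cases b <;> simp

/-- mirror, vertices -/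
def miV : Pt ≃ Pt where
  toFun x := (-x.1, x.2)
  invFun x := (-x.1, x.2)
  left_inv x := by ext <;> simp
  right_inv x := by ext <;> simp

/-- mirror, faces -/
def miF : Pt ≃ Pt where
  toFun x := (-x.1 - 1, x.2)
  invFun x := (-x.1 - 1, x.2)
  left_inv x := by ext <;> simp
  right_inv x := by ext <;> simp

/-- mirror, edges: `(false, (i,j)) ↦ (false, (-i-1,j))`, `(true, (i,j)) ↦ (true, (-i,j))` -/
def miE : Ed ≃ Ed where
  toFun e := if e.1 then (true, (-e.2.1, e.2.2)) else (false, (-e.2.1 - 1, e.2.2))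
  invFun e := if e.1 then (true, (-e.2.1, e.2.2)) else (false, (-e.2.1 - 1, e.2.2))
  left_inv := by rintro ⟨b, i, j⟩; cases b <;> simp
  right_inv := by rintro ⟨b, i, j⟩; cases b <;> simp

/-- [BSA] the symmetries. Proof: check both kinds of edges; composition: cases. -/
def S_BSA : Prop :=
  (∀ a : Pt, IsSym 1 (trP a) (trP a) (trE a)) ∧ IsSym 1 roV roF roE ∧ IsSym (-1) miV miF miE ∧
  (∀ (ε ε' : ℝ) (σ τ σ' τ' : Pt ≃ Pt) (ρ ρ' : Ed ≃ Ed), IsSym ε σ τ ρ → IsSym ε' σ' τ' ρ' →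
    IsSym (ε * ε') (σ.trans σ') (τ.trans τ') (ρ.trans ρ')) ∧
  (∀ (ε : ℝ) (σ τ : Pt ≃ Pt) (ρ : Ed ≃ Ed), IsSym ε σ τ ρ → IsSym ε σ.symm τ.symm ρ.symm)

/-- [BSB] transport of pairs (take `S_BPA` as hypothesis).
Proof: with the sign `s = 1` in the first and `s = -1` in the second case of `IsSym.vert`: `du (u ∘ σ) e = s·du u (ρ e)`, `dv (v ∘ τ) e = ε·s·dv v (ρ e)`, and `pres (τ ⁻¹' K) e ↔ pres K (ρ e)`. `phi p` is odd. The intervals of `e` for `(ε u ∘ σ, v ∘ τ)` are those of `ρ e` for `(ε u, v)`. (5), (6), (7) clear (`phi` is odd and homogeneous). -/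
def S_BSB : Prop := ∀ (p : ℝ), 1 < p →
  (∀ (ε : ℝ) (σ τ : Pt ≃ Pt) (ρ : Ed ≃ Ed), IsSym ε σ τ ρ → ∀ (K : Set Pt) (R : Set Ed) (u v : Pt → ℝ),
    (∀ e, pres (τ ⁻¹' K) e ↔ pres K (ρ e)) ∧ (∀ e, |du (u ∘ σ) e| = |du u (ρ e)|) ∧ (∀ e, |dv (v ∘ τ) e| = |dv v (ρ e)|) ∧
    (Pair p K R u v → Pair p (τ ⁻¹' K) (ρ ⁻¹' R) (fun x => ε * u (σ x)) (v ∘ τ)) ∧
    (Tile K R u v → Tile (τ ⁻¹' K) (ρ ⁻¹' R) (fun x => ε * u (σ x)) (v ∘ τ))) ∧
  (∀ (K : Set Pt) (R : Set Ed) (u v : Pt → ℝ),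
    (Pair p K R u v → Pair p K R (fun x => -u x) (fun f => -v f)) ∧
    (Tile K R u v → Tile K R (fun x => -u x) (fun f => -v f)) ∧
    (∀ l : ℝ, 0 ≤ l → Pair p K R u v → Pair p K R (fun x => l * u x) (fun f => l ^ (p - 1) * v f)) ∧
    (∀ l l' : ℝ, 0 < l → 0 < l' → Tile K R u v → Tile K R (fun x => l * u x) (fun f => l' * v f)) ∧
    (∀ a b : ℝ, Pair p K R u v → Pair p K R (fun x => u x + a) (fun f => v f + b)) ∧
    (∀ a b : ℝ, Tile K R u v → Tile K R (fun x => u x + a) (fun f => v f + b)))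

/-- [BSC] transport of the energy.
Proof: the sides of a face `f` are the edges `e` with `lf e = f` or `rf e = f` (`e ∈ sides f ↔ lf e = f ∨ rf e = f`), so `ρ` maps the sides of `f` onto the sides of `τ f`, and `fe p (u ∘ σ) f = fe p u (τ f)` (`Finset.sum_nbij`, `|du (u∘σ) e| = |du u (ρ e)|`). Sum over the faces (`Finset.sum_map` or `sum_nbij`). The corners: the edges with `lf e = f` or `rf e = f` have their
ends at the corners of `f`, and every corner is such an end. Connected sets: `x`, `y` adjacent iff `σ x`, `σ y` adjacent. -/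
def S_BSC : Prop := ∀ (p ε : ℝ) (σ τ : Pt ≃ Pt) (ρ : Ed ≃ Ed), IsSym ε σ τ ρ →
  (∀ f : Pt, (sides f).map ρ.toEmbedding = sides (τ f)) ∧
  (∀ (u : Pt → ℝ) (f : Pt), fe p (u ∘ σ) f = fe p u (τ f)) ∧
  (∀ (K : Set Pt) (u : Pt → ℝ) (G : Finset Pt), En p (τ ⁻¹' K) (u ∘ σ) G = En p K u (G.map τ.toEmbedding)) ∧
  (∀ x f : Pt, IsCor x f ↔ IsCor (σ x) (τ f)) ∧
  (∀ (K : Set Pt) (x y : Pt), adj (τ ⁻¹' K) x y ↔ adj K (σ x) (σ y)) ∧
  (∀ (K A : Set Pt), Conn K A → Conn (τ ⁻¹' K) (σ ⁻¹' A))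

/-! ### strips of cells -/

/-- [BTA] folding. `fold` of period `2L`, `L ≥ 1`.
Proof: for an integer `y` let `y = 2L·k + r`, `0 ≤ r < 2L`; `F y = r` if `r ≤ L` and `2L - r` if `r ≥ L` (vertices), `G y = r` if `r < L` and `2L - 1 - r` if `r ≥ L` (faces). (3) the face `y` between the vertices `y`, `y+1`: if `r < L`: `F y = r = G y`, `F (y+1) = r+1`; if `r ≥ L`: `F y = 2L - r = G y + 1` and `F (y+1) = 2L - r - 1 = G y` (for `r = 2L-1`, `F (y+1) = F (2L(k+1)) = 0`).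
(5) for `L = 3^t`, `0 ≤ r < 3^t`: the ternary digits of `3^t - 1 - r` are `2` minus those of `r`: by induction on `k`, `(3^t - 1 - r)/3^k % 3 = 2 - r/3^k % 3` for `k < t` (write `3^t - 1 - r = 3^k·(3^(t-k) - 1 - r/3^k) + (3^k - 1 - r % 3^k)` and `0 ≤ 3^k - 1 - r % 3^k < 3^k`), and the digits of `y` at places `k < t` are those of `y % 3^t`
(`r` or `r - 3^t`). So `y/3^k % 3 = 1 ↔ G y/3^k % 3 = 1`. (6) on each interval `[a L, (a+1)L)` `G` is a bijection onto `[0, L)`, and there are `n` such intervals in `[0, nL)`. -/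
def S_BTA : Prop := ∀ L : ℤ, 1 ≤ L → ∃ F G : ℤ → ℤ,
  (∀ y, 0 ≤ F y ∧ F y ≤ L) ∧ (∀ y, 0 ≤ G y ∧ G y < L) ∧
  (∀ y, (F y = G y ∧ F (y + 1) = G y + 1) ∨ (F y = G y + 1 ∧ F (y + 1) = G y)) ∧
  (∀ y, 0 ≤ y → y < L → G y = y) ∧
  (∀ (t : ℕ), L = 3 ^ t → ∀ y : ℤ, ∀ k : ℕ, k < t → (y / 3 ^ k % 3 = 1 ↔ G y / 3 ^ k % 3 = 1)) ∧
  (∀ (n : ℕ) (g : ℤ → ℝ), ∑ y ∈ Finset.Ico 0 ((n : ℤ) * L), g (G y) = n * ∑ y ∈ Finset.Ico 0 L, g y)

/-- [BTB] capacity of a strip (take `S_BTA` as hypothesis).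
Proof: let `3^l ≥ m`, `L = 3^t`, `f` given with `f (0,j) = 0`, `f (m L, j) = 1`. `f' (x,y) = f (x, F y)` for `x ≤ mL` and `1` for `x > mL`. Then `f' (0,j) = 0`, `f' (3^(t+l), j) = 1` (`3^(t+l) ≥ m 3^t`). For a face `(x,y)` with `x < mL`: `fe p f' (x,y) = fe p f (x, G y)` (BTA (3): the bottom and top sides are mapped to the bottom and top sides in some order, the left side to the left side), and for `x ≥ mL` it is `0`.
`Pat (t+l) (x,y)` implies `Pat t (x,y)`, which is equivalent to `Pat t (x, G y)`. So by `cap`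
`A⁻¹ ≤ En p (Kept (t+l)) f' (cell (t+l) (0,0)) ≤ ∑_{x∈[0,mL)} ∑_{y ∈ [0,3^l L)} [Pat t (x, G y)] fe p f (x, G y) = 3^l ∑_{x ∈ [0,mL)}∑_{y∈[0,L)}[Pat t (x,y)] fe p f (x,y)`, and every edge is a side of at most two faces (`e ∈ sides f' ↔ lf e = f' ∨ rf e = f'`); the sides of the faces in the rectangle are edges of the rectangle: the last sum is `≤ 2∑_{e∈RE, pres}|du f e|^p`. So `c = 1/(2·3^l·A)`. -/
def S_BTB : Prop := ∀ (p : ℝ), 1 < p → ∀ (_ : Dat p) (m : ℕ), 1 ≤ m → ∃ c : ℝ, 0 < c ∧ ∀ (t : ℕ) (f : Pt → ℝ),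
  (∀ j, f (0, j) = 0) → (∀ j, f (m * 3 ^ t, j) = 1) →
  c ≤ ∑ e ∈ (RE (m * 3 ^ t) (3 ^ t)).filter (pres {g | Pat t g}), |du f e| ^ p

/-- [BTC] dual functions of bounded energy in a strip (take `S_BPA`, `S_BPC`, `S_BRC`, `S_BRD`, `S_BTB` as hypotheses).
Proof: `(u,v,I)` from BRC with `K = {g | Pat t g}`, `W = m 3^t`, `H = 3^t`; `I ≥ c` by BTB applied to `u` (`RPot.energy`). `ω = v/I`. `∑_{pres}|dv ω|^q = I^{-q}∑|du u|^p = I^{1-q} ≤ c^{1-q}` (BPC: `|dv v|^q = |du u|^p`). -/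
def S_BTC : Prop := ∀ (p : ℝ), 1 < p → ∀ (_ : Dat p) (m : ℕ), 1 ≤ m → ∃ C : ℝ, 0 < C ∧ ∀ (t : ℕ), ∃ ω : Pt → ℝ,
  (∀ f, 0 ≤ ω f ∧ ω f ≤ 1) ∧ (∀ f : Pt, f.2 < 0 → ω f = 0) ∧ (∀ f : Pt, 3 ^ t ≤ f.2 → ω f = 1) ∧
  (∀ f : Pt, f.1 < 0 → ω f = ω (0, f.2)) ∧ (∀ f : Pt, (m : ℤ) * 3 ^ t ≤ f.1 → ω f = ω ((m : ℤ) * 3 ^ t - 1, f.2)) ∧
  (∀ e ∈ RE (m * 3 ^ t) (3 ^ t), ¬ pres {g | Pat t g} e → dv ω e = 0) ∧
  ∑ e ∈ (RE (m * 3 ^ t) (3 ^ t)).filter (pres {g | Pat t g}), |dv ω e| ^ (p / (p - 1)) ≤ C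

end CarpetPI
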