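import Pool.Agent.Lib.MP_1d263a_an.PI.StmD
import Pool.Agent.Lib.MP_1d263a_an.PI.StmE
import Pool.Agent.Lib.MP_1d263a_an.PI.StmH
import Pool.Agent.Lib.MP_1d263a_an.PI.DefsF

/-!
# MP_1d263a_an, project PI: the bridge from part D (`Sit`) and part E to the last step (`Flat`, `Half`)

[BR] Uses: `S_HK`, `S_DA`, `S_DD`, `S_DE`, `S_DJ`, `S_DO`, `S_EF`, `S_ER`, `S_ES`.

The point `y` is on the upper side of the central hole of `Q`, found by `S_EF`.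
-/

open Finset
open scoped Classical

noncomputable section

namespace CarpetPI

/-- [BR] from a near-constant cell to the half disc at a point of a flat side -/
def S_BR : Prop := ∀ (p q : ℝ), 1 < p → p < 2 → 1 / p + 1 / q = 1 → ∀ D : Dat p,
  ∃ (A : ℝ) (ε : ℕ → ℝ), (∀ k, 0 < ε k) ∧ ∀ n : ℕ, ∃ L₁ : ℕ,
  ∀ (N T L : ℕ) (Q : Pt) (u v : Pt → ℝ), Sit p D N T L Q u v → L₁ ≤ L →
  ∃ (T₀ T' : ℕ) (y : Pt) (u' w : Pt → ℝ), T₀ + n ≤ T' ∧ Flat N T' y ∧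
    Half p q A ε N T₀ T' y u' w ∧ ∀ s, T₀ ≤ s → s ≤ T' → 0 < En p (Kept N) u' (blk s y)

/-- [NS] no near-constant cell of large depth. Uses: `S_BR`, `S_Ffinal`, `S_GB`, `S_DB`, `S_ES`, `S_HK`. -/
def S_NS : Prop := ∀ (p : ℝ), 1 < p → p < 2 → ∀ D : Dat p, ∃ L₂ : ℕ,
  ∀ (N T L : ℕ) (Q : Pt) (u v : Pt → ℝ), Sit p D N T L Q u v → L₂ ≤ L → False

end CarpetPI
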