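import Pool.Agent.Lib.MP_1d263a_an.PI.Defs

/-!
# MP_1d263a_an, project PI, part C: near-constancy of the energy

Every `S_Cx : Prop` is one piece; its complete proof is in the docstring. Files: `PI/Cx.lean`, theorem `p_Cx : S_Cx`
(with the pieces named in the docstring as hypotheses, in this order).

A cell `q' ∈ Kept (n + s)` lies in the cell `q` of level `n` iff `q' ∈ cell s q`.
-/

open Finset
open scoped Classical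

noncomputable section

namespace CarpetPI

/-- the cells of level `n + s` in the cell `q` of level `n` -/
def dsc (n s : ℕ) (q : Pt) : Finset Pt := (cell s q).filter (· ∈ Kept (n + s))

/-- `ρ_n(q)` -/
def rho {p : ℝ} (D : Dat p) (n : ℕ) (q : Pt) : ℝ := D.d n q (q.1 + 1, q.2)

/-- the energy at level `N` in the cell `q` of level `n` -/
def GN (p : ℝ) (N : ℕ) (u : Pt → ℝ) (n : ℕ) (q : Pt) : ℝ := En p (Kept N) u (cell (N - n) q)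

/-- `H_m(N) = ∑_{Q ∈ Kept m} (μ(Q) G_N(Q))^{1/2}` -/
def HH {p : ℝ} (D : Dat p) (w : ℕ → Pt → ℝ) (m N : ℕ) : ℝ :=
  ∑ Q ∈ (cell m (0, 0)).filter (· ∈ Kept m), Real.sqrt (D.mu m Q * GN p N (w N) m Q)

/-- `F` (a function at level `N`) extends `f` (at level `n`) with constant `C` -/
def Ext {p : ℝ} (D : Dat p) (C : ℝ) (n N : ℕ) (f F : Pt → ℝ) : Prop :=
  ∀ q ∈ Kept n, ∀ a : ℕ, n + a ≤ N → ∀ q' ∈ Kept (n + a), q' ∈ cell a q →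
    GN p N F (n + a) q' ≤ C * fe p f q * (D.mu (n + a) q' / D.mu n q)

/-- [CA] combinatorics of the cells.
Proof: for `f ∈ ℤ × ℤ` let `f / 3^t` be the pair of floors of the quotients. `f ∈ cell t q` iff `f / 3^t = q` (`Int.ediv`, `3^t > 0`). If `f ∈ Kept (n+t)` then `f / 3^t ∈ Kept n`: the ternary digits of `f / 3^t` at the place `k` are those of `f` at `k + t` (`f/3^t/3^k = f/3^(t+k)`), and the range conditions divide by `3^t`.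
(1) the digits of `kid q c = 3q + c` are `c` at place `0` (not both `1`) and those of `q` shifted. (2) `(f/3^(t-s))/3^s = f/3^t`: the faces `f` of the left side are grouped by `q' = f/3^(t-s)` (`Finset.sum_fiberwise_of_maps_to` or `sum_biUnion`). (3) from (1) and digits. (4) `q = f/3^t`. (5), (6) clear. -/
def S_CA : Prop := (∀ (n : ℕ), ∀ q ∈ Kept n, ∀ c ∈ kids, kid q c ∈ Kept (n + 1)) ∧
  (∀ (n s t : ℕ) (q : Pt) (φ : Pt → ℝ), s ≤ t →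
    ∑ f ∈ (cell t q).filter (· ∈ Kept (n + t)), φ f =
      ∑ q' ∈ dsc n s q, ∑ f ∈ (cell (t - s) q').filter (· ∈ Kept (n + t)), φ f) ∧
  (∀ (n : ℕ), ∀ q ∈ Kept n, dsc n 1 q = kids.image (kid q)) ∧
  (∀ (n t : ℕ), ∀ f ∈ Kept (n + t), ∃ q ∈ Kept n, f ∈ cell t q) ∧
  (∀ q : Pt, cell 0 q = {q}) ∧ (∀ (n : ℕ), ∀ f ∈ Kept n, f ∈ cell n (0, 0)) ∧
  (∀ q c c' : Pt, kid q c = kid q c' → c = c')

/-- [CB] vertices (take `S_CA` as hypothesis).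
Proof: (1) `Kept N` is finite and every face has four corners. (2) if `x` is a corner of `f ∈ Kept n`, `x = f + (i,j)`, `i, j ∈ {0,1}`, then `3^t x` is a corner of the face `3^t f + (i(3^t-1), j(3^t-1))`, whose last `t` ternary digits are `0` or `2` in each coordinate and the others are those of `f`; so it is in `Kept (n+t)`. (3) induction on `t` with `d_scale` and (2)
(`mulP 3 (mulP (3^t) x) = mulP (3^(t+1)) x`). (4) `x` is a corner of `f ∈ Kept (n+t)`, `f ∈ cell t q` (CA (4)). (5) `x.1 ∈ [3^t q.1, 3^t(q.1+1)]` and `|x.1 - 3^t P.1| < 3^t` imply `P.1 ∈ {q.1, q.1+1}`; the same for the second coordinate. (6) choose `P.1 = q.1` if `x.1 - 3^t q.1 ≤ 3^t/2` and `q.1+1` otherwise. (7) clear. -/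
def S_CB : Prop := (∀ N : ℕ, (VK (Kept N)).Finite) ∧
  (∀ n t : ℕ, ∀ x ∈ VK (Kept n), mulP (3 ^ t) x ∈ VK (Kept (n + t))) ∧
  (∀ (p : ℝ) (D : Dat p) (n t : ℕ), ∀ x ∈ VK (Kept n), ∀ y ∈ VK (Kept n), D.d (n + t) (mulP (3 ^ t) x) (mulP (3 ^ t) y) = D.d n x y) ∧
  (∀ n t : ℕ, ∀ x ∈ VK (Kept (n + t)), ∃ q ∈ Kept n, x ∈ cellV t q) ∧
  (∀ (t : ℕ) (q x P : Pt), x ∈ cellV t q → dis x (mulP (3 ^ t) P) < 3 ^ t → IsCor P q) ∧
  (∀ (t : ℕ) (q x : Pt), x ∈ cellV t q → ∃ P, IsCor P q ∧ 2 * dis x (mulP (3 ^ t) P) ≤ 3 ^ t) ∧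
  (∀ (t : ℕ) (q f x : Pt), f ∈ cell t q → IsCor x f → x ∈ cellV t q)

/-- [CC] distances and measures at one scale (take `S_CA`, `S_CB` as hypotheses).
Proof: (1) let `a = g`, `b = g+(1,0)`, both corners; all corners of `g` are at distance `dis ≤ 1`, and distinct ones at distance `1`. For a corner `x ≠ a`: `d a x ≤ η(1) d a b` (qs with `t = 1`). For two corners `x, y ≠ a`: `d x y ≤ d x a + d a y ≤ 2η(1)d a b`. So `C₁ = 2η(1)+1`. (2) let `g = kid q c`, `a = (g at level n+1)`, `b = g+(1,0)`,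
`z = mulP 3 q`, `z' = mulP 3 (q+(1,0))`, all in `VK (Kept (n+1))`; `rho n q = d_{n+1}(z,z')` (`d_scale`); the distances `dis a z`, `dis a z'` are at most `3`, `dis a b = 1`: `rho n q ≤ d z a + d a z' ≤ 2η(3)d a b = 2η(3)rho (n+1) g`; with `ahl` (`p ≥ 0`): `mu n q ≤ A rho n q^p ≤ A(2η(3))^p rho (n+1) g^p ≤ A²(2η(3))^p mu (n+1) g`.
(3) induction on `L` (a cell of level `n+L+1` in `q` is a child of a cell of level `n+L` in `q`). -/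
def S_CC : Prop := ∀ (p : ℝ), 1 < p → ∀ D : Dat p, ∃ C : ℝ, 1 ≤ C ∧
  (∀ (N : ℕ), ∀ g ∈ Kept N, ∀ x y : Pt, IsCor x g → IsCor y g → D.d N x y ≤ C * rho D N g) ∧
  (∀ (n : ℕ), ∀ q ∈ Kept n, ∀ c ∈ kids, D.mu n q ≤ C * D.mu (n + 1) (kid q c)) ∧
  (∀ (L n : ℕ), ∀ q ∈ Kept n, ∀ q' ∈ dsc n L q, D.mu n q ≤ C ^ L * D.mu (n + L) q') ∧
  (∀ (N : ℕ), ∀ g ∈ Kept N, 0 < rho D N g)

/-- [CD] the bump functions (take `S_CB` as hypothesis).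
Proof: `b x = min {d (n+t) x y : y ∈ VK (Kept (n+t)), 3^t ≤ dis y (3^t P)}`, a minimum over a finite set, nonempty: `P` is a corner of some cell of `Kept n`, whose opposite corner `P'` has `dis P P' = 1`, `y = 3^t P'` (CB (2)). `b ≥ 0`; `b x = 0` if `x` itself is in the set (`d_self`); `|b x - b y| ≤ d x y` by the triangle inequality. Lower bound: let `x` be as in the last claim
and `y` in the set: `dis x y ≥ 3^t - 3^t/2`. The points `z = 3^t q`, `z' = 3^t(q+(1,0))` are in `VK (Kept (n+t))` and `dis x z, dis x z' ≤ 3^t ≤ 2 dis x y` (`x ∈ cellV t q`), so by `qs` (`t = 2`) `rho n q = d (n+t) z z' ≤ d z x + d x z' ≤ 2η(2)d x y`. So `C = 2η(2)+1`. -/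
def S_CD : Prop := ∀ (p : ℝ) (D : Dat p), ∃ C : ℝ, 1 ≤ C ∧ ∀ (n t : ℕ), ∀ P ∈ VK (Kept n), ∃ b : Pt → ℝ,
  (∀ x, 0 ≤ b x) ∧ (∀ x ∈ VK (Kept (n + t)), 3 ^ t ≤ dis x (mulP (3 ^ t) P) → b x = 0) ∧
  (∀ x ∈ VK (Kept (n + t)), ∀ y ∈ VK (Kept (n + t)), |b x - b y| ≤ D.d (n + t) x y) ∧
  (∀ q ∈ Kept n, IsCor P q → ∀ x ∈ VK (Kept (n + t)), x ∈ cellV t q → 2 * dis x (mulP (3 ^ t) P) ≤ 3 ^ t → rho D n q ≤ C * b x)

/-- [CE] the extension operator (take `S_CA`, `S_CB`, `S_CC`, `S_CD`, `S_CF` as hypotheses).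
Proof: `N = n+t`, bumps `b_P`, `P ∈ VK (Kept n)`, from CD. For `x ∈ VK (Kept N)` let `F x = ∑_P f(P)b_P(x)/S(x)`, `S(x) = ∑_P b_P(x)`, the sums over the finite set of `P ∈ VK (Kept n)` (CB (1)); for `x ∉ VK (Kept N)` let `F x = 1` if `x.1 = 3^N` and `0` otherwise. If `x ∈ cellV t q`, `q ∈ Kept n`, then `b_P(x) = 0` unless `P` is one of the four corners of `q` (CD (2) and CB (5)), and
`S(x) ≥ rho n q/C > 0` (CB (6), CD (4)). (a) if `x.1 = 0` and `b_P(x) ≠ 0` then `|3^tP.1| < 3^t`, so `P.1 = 0`, `f(P) = 0`; if `x.1 = 3^N` and `b_P(x) ≠ 0`, then `P.1 = 3^n` (`|3^N - 3^tP.1| < 3^t`), `f(P) = 1` and `F x = S/S = 1`. (b) let `g ∈ Kept N` be a face in `cell t q`, `x, y` the ends of a side of `g`: both in `cellV t q` (CB (7)) and in `VK (Kept N)`. With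
`w_P = b_P/S` (the four corners `P` of `q`; `∑ w_P = 1`): `|w_P(x) - w_P(y)| ≤ |b_P(x)-b_P(y)|/S(x) + w_P(y)|S(x)-S(y)|/S(x) ≤ 5d(x,y)/S(x)`, so `|F(x)-F(y)| = |∑_P (f(P)-f(q))(w_P(x)-w_P(y))| ≤ 20·M·d(x,y)/S(x)`, `M = max_P|f(P)-f(q)|`, `M^p ≤ 2^p fe p f q` (each corner is joined to `q` by at most two sides of `q`). `d(x,y) ≤ C rho N g` (CC), so
`fe p F g ≤ C' fe p f q (rho N g/rho n q)^p ≤ C'A² fe p f q·mu N g/mu n q` (`ahl`). Sum over the faces `g ∈ Kept N` in `cell (N-(n+a)) q'` (they are in `cell t q`): `∑ mu N g = mu (n+a) q'` (CF (1)). -/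
def S_CE : Prop := ∀ (p : ℝ), 1 < p → ∀ D : Dat p, ∃ C : ℝ, 1 ≤ C ∧ ∀ (n t : ℕ) (f : Pt → ℝ), ∃ F : Pt → ℝ,
  ((∀ j, f (0, j) = 0) → ∀ j, F (0, j) = 0) ∧ ((∀ j, f (3 ^ n, j) = 1) → ∀ j, F (3 ^ (n + t), j) = 1) ∧
  Ext D C n (n + t) f F

/-- [CF] additivity (take `S_CA` as hypothesis).
Proof: (1) induction on `s`: `mu_add`, CA (3) (the map `kid q` is injective, CA (7)), and CA (2) with `φ = mu (n+s+1)` to regroup (`dsc n (s+1) q` is the union of the `dsc (n+s) 1 q'`, `q' ∈ dsc n s q`; or group by the first child). (2) is CA (2) with `N = n + t`, `φ = fe p u` (unfold `GN`, `En`; `N - (n+s) = t - s`). (3) sums of nonnegative terms. -/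
def S_CF : Prop := (∀ (p : ℝ) (D : Dat p) (n s : ℕ), ∀ q ∈ Kept n, D.mu n q = ∑ q' ∈ dsc n s q, D.mu (n + s) q') ∧
  (∀ (p : ℝ) (N n s : ℕ) (u : Pt → ℝ) (q : Pt), n + s ≤ N → GN p N u n q = ∑ q' ∈ dsc n s q, GN p N u (n + s) q') ∧
  (∀ (p : ℝ) (N n : ℕ) (u : Pt → ℝ) (q : Pt), 0 ≤ GN p N u n q)

/-- [CG] test functions (take `S_CE` as hypothesis). Proof: CE with `n = 0`, `f x = x.1` (so `f (3^0, j) = 1`), `fe p f (0,0) = 2`, and `Ext` for `q = q' = (0,0)`, `a = n`…: take in `Ext` the cell `q = (0,0) ∈ Kept 0`, `a = 0`, `q' = (0,0)`: `GN p N F 0 (0,0) ≤ C·2·1`; `cell (N-0) (0,0) = cell N (0,0)`. -/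
def S_CG : Prop := ∀ (p : ℝ), 1 < p → ∀ D : Dat p, ∃ C : ℝ, ∀ N : ℕ, ∃ w : Pt → ℝ, (∀ j, w (0, j) = 0) ∧ (∀ j, w (3 ^ N, j) = 1) ∧
  En p (Kept N) w (cell N (0, 0)) ≤ C

/-- [CH] monotonicity of `H` (take `S_CA`, `S_CF` as hypotheses).
Proof: (1) Cauchy-Schwarz: `∑_{Q'}√(mu Q' · G Q') ≤ √(∑ mu Q' · ∑ G Q')` (`Finset.sum_sqrt_mul_sqrt_le` or `inner_mul_le_norm_mul_norm`) and CF. (2) grouping of `dsc 0 (n+L) (0,0)`, i.e. of the cells of level `n+L`, by their ancestors of level `n` (CA (2) with `n := 0`, `t := n+L`, `s := n`, `q = (0,0)`; the inner sum over `(cell L Q).filter (· ∈ Kept (n+L))`).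
(3) from (1), (2). (4) `HH 0 N ≤ √(mu 0 (0,0)·C₀)`: `cell 0 (0,0) = {(0,0)}`, `GN p N (w N) 0 (0,0)` is the total energy; then (3). -/
def S_CH : Prop :=
  (∀ (p : ℝ) (D : Dat p) (N n L : ℕ) (u : Pt → ℝ), n + L ≤ N → ∀ Q ∈ Kept n,
    ∑ Q' ∈ dsc n L Q, Real.sqrt (D.mu (n + L) Q' * GN p N u (n + L) Q') ≤ Real.sqrt (D.mu n Q * GN p N u n Q)) ∧
  (∀ (p : ℝ) (D : Dat p) (w : ℕ → Pt → ℝ) (N n L : ℕ), n + L ≤ N → HH D w (n + L) N =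
    ∑ Q ∈ (cell n (0, 0)).filter (· ∈ Kept n), ∑ Q' ∈ dsc n L Q, Real.sqrt (D.mu (n + L) Q' * GN p N (w N) (n + L) Q')) ∧
  (∀ (p : ℝ) (D : Dat p) (w : ℕ → Pt → ℝ) (N n L : ℕ), n + L ≤ N → HH D w (n + L) N ≤ HH D w n N) ∧
  (∀ (p : ℝ) (D : Dat p) (w : ℕ → Pt → ℝ) (C₀ : ℝ) (N m : ℕ), m ≤ N → En p (Kept N) (w N) (cell N (0, 0)) ≤ C₀ →
    HH D w m N ≤ Real.sqrt (D.mu 0 (0, 0) * C₀))

/-- [CI] energy of an extension in the cells (take `S_CA`, `S_CF` as hypotheses).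
Proof: (1) `m ≤ n`: by CF (2) `GN p N F m Q = ∑_{P ∈ dsc m (n-m) Q} GN p N F n P ≤ C∑_P fe p f P` (Ext with `q = q' = P`, `a = 0`: the quotient of the measures is `1`, `mu_pos`), and `∑_P fe p f P = GN p n f m Q` (the definition: `cell (n-m) Q` filtered by `Kept n`). (2) `fe p f P ≤ Λ mu n P`. If `m ≤ n`: as in (1), `≤ C∑_PΛ mu n P = CΛ mu m Q` (CF (1)).
If `n < m`: `Q` is in `cell (m-n) q` for some `q ∈ Kept n` (CA (4)), so Ext gives `GN p N F m Q ≤ C fe p f q·mu m Q/mu n q ≤ CΛ mu m Q`. -/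
def S_CI : Prop := ∀ (p : ℝ) (D : Dat p) (C : ℝ) (n N : ℕ) (f F : Pt → ℝ), n ≤ N → 0 ≤ C → Ext D C n N f F →
  (∀ m : ℕ, m ≤ n → ∀ Q ∈ Kept m, GN p N F m Q ≤ C * GN p n f m Q) ∧
  (∀ Λ : ℝ, (∀ P ∈ Kept n, fe p f P ≤ Λ * D.mu n P) → ∀ m : ℕ, m ≤ N → ∀ Q ∈ Kept m, GN p N F m Q ≤ C * Λ * D.mu m Q)

/-- [CJ] the combination inequality.
Proof: let `e` be a side of `g` and `a_j = du (F j) e`. If there is `j₀ < k` with `¬ T j₀` then all other `j < k` satisfy `T`: `|∑a_j|^p ≤ 2^{p-1}(|a_{j₀}|^p + |∑_{j≠j₀}a_j|^p)` and `|∑_{j≠j₀}a_j|^p ≤ k^{p-1}∑_{T j}|a_j|^p` (power mean inequality, `Real.rpow_arith_mean_le_arith_mean_rpow` or `Real.inner_le_Lp_mul_Lq`). If there is no such `j₀`: `|∑a_j|^p ≤ k^{p-1}∑|a_j|^p`.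
`du` of `x ↦ (1/k)∑F j x` is `(1/k)∑a_j`. Sum over the four sides. -/
def S_CJ : Prop := ∀ (p : ℝ) (k : ℕ) (F : ℕ → Pt → ℝ) (T : ℕ → Prop) (g : Pt), 1 ≤ p → 1 ≤ k →
  (∀ j < k, ∀ j' < k, ¬ T j → ¬ T j' → j = j') →
  fe p (fun x => (1 / (k : ℝ)) * ∑ j ∈ range k, F j x) g ≤
    (1 / (k : ℝ)) ^ p * (2 : ℝ) ^ (p - 1) * (∑ j ∈ range k, fe p (F j) g +
      (k : ℝ) ^ (p - 1) * ∑ j ∈ (range k).filter T, fe p (F j) g)

/-- [CK] the combination for the extensions of a sequence (take `S_CA`, `S_CF`, `S_CI`, `S_CJ` as hypotheses).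
Setting: levels `n_j ≤ N`, `m_j ≤ n_j` (`j < k`), `F_j` extends `f_j` from level `n_j` to `N`, sets `B_j` of cells of level `m_j`; a face `g` of level `N` is `in A_j` if `g ∈ cell (N-m_j) Q` for some `Q ∈ Kept m_j ∩ B_j`.
Proof: CJ with `T j = (g not in A_j) ∨ (∃ i, j < i, i < k, g in A_i)`: two different `j < j'` with `¬T` are impossible (`¬T j'` gives `g in A_{j'}`, so `T j`). Sum over the faces `g ∈ Kept N` (`En p (Kept N) (cell N (0,0))`): `∑_g ∑_{j: T j}fe p (F_j) g ≤ ∑_j[∑_{Q ∈ Kept m_j \ B_j}GN p N F_j m_j Q + ∑_{i>j}∑_{Q ∈ Kept m_i ∩ B_i}GN p N F_j m_i Q]`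
(the faces are grouped by the cells of level `m_j` resp. `m_i`: CA (2), (4)). By CI (1) with `m = m_j ≤ n_j`: `∑_{Q ∉ B_j}GN p N F_j m_j Q ≤ C∑_{Q∉B_j}GN p n_j f_j m_j Q ≤ C h_j`; by CI (2): `∑_{Q∈B_i}GN p N F_j m_i Q ≤ CΛ_j∑_{Q ∈ B_i}mu m_i Q ≤ CΛ_jh_i`; and `∑_g fe p (F_j) g = GN p N F_j 0 (0,0) ≤ C GN p n_j f_j 0 (0,0) ≤ C C₀` (CI (1), `m = 0`). -/
def S_CK : Prop := ∀ (p : ℝ) (D : Dat p) (C C₀ : ℝ) (k N : ℕ) (n m : ℕ → ℕ) (f F : ℕ → Pt → ℝ) (B : ℕ → Set Pt) (h Λ : ℕ → ℝ),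
  1 ≤ p → 1 ≤ k → 0 ≤ C → (∀ j < k, m j ≤ n j ∧ n j ≤ N ∧ Ext D C (n j) N (f j) (F j) ∧ 0 ≤ Λ j ∧
    (∀ P ∈ Kept (n j), fe p (f j) P ≤ Λ j * D.mu (n j) P) ∧
    En p (Kept (n j)) (f j) (cell (n j) (0, 0)) ≤ C₀ ∧
    ∑ Q ∈ (cell (m j) (0, 0)).filter (fun Q => Q ∈ Kept (m j) ∧ Q ∉ B j), GN p (n j) (f j) (m j) Q ≤ h j ∧
    ∑ Q ∈ (cell (m j) (0, 0)).filter (fun Q => Q ∈ Kept (m j) ∧ Q ∈ B j), D.mu (m j) Q ≤ h j) →
  En p (Kept N) (fun x => (1 / (k : ℝ)) * ∑ j ∈ range k, F j x) (cell N (0, 0)) ≤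
    (1 / (k : ℝ)) ^ p * (2 : ℝ) ^ (p - 1) * (k * (C * C₀) +
      (k : ℝ) ^ (p - 1) * ∑ j ∈ range k, (C * h j + ∑ i ∈ (range k).filter (fun i => j < i), C * Λ j * h i))

/-- [CL] the energy does not become singular (take `S_CA`, `S_CE`, `S_CF`, `S_CK` as hypotheses).
Proof: `C` from CE, `C₀ ≥ 0` without loss of generality. Suppose the claim fails: (*) for every `h > 0` there is `m` such that for every `N₀` there is `N ≥ N₀` with `HH D w m N < h`. For `n` let `Λ(n) ≥ 0` be such that `fe p (w j) Q ≤ Λ(n) mu j Q` for all `j ≤ n`, `Q ∈ Kept j` (finitely many, `mu_pos`), nondecreasing in `n` (e.g. a sum over `j ≤ n` and `Q`). Let `k ≥ 1`. By recursion choose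
pairs `(m_i, n_i)`, `i = 0, 1, 2, …`: with `h_i = 1/(k²(1+Λ(n_{i-1})))` (`h_0 = 1/k²`) take `m_i` from (*) and `n_i > n_{i-1}`, `n_i ≥ m_i` with `HH D w m_i n_i < h_i`. Let `B_i = {Q : mu m_i Q ≤ GN p n_i (w n_i) m_i Q}`. For `Q ∈ B_i`, `mu ≤ √(mu·G)`, and for `Q ∉ B_i`, `G ≤ √(mu·G)`; so both sums in CK are `≤ HH D w m_i n_i ≤ h_i`. `N = n_{k-1}`, `F_j` the extension (CE, `t = N - n_j`) of `f_j = w n_j`,
`Λ_j = Λ(n_j)`: for `i > j`, `Λ_jh_i ≤ 1/k²`. CK: with `f = (1/k)∑F_j`, `f (0,·) = 0`, `f (3^N,·) = 1`: `A⁻¹ ≤ En f ≤ k^{-p}2^{p-1}(kCC₀ + k^{p-1}·k·(C/k² + k·C/k²)) ≤ 2^{p-1}(CC₀k^{1-p} + 2C/k)` by `D.cap`. For `k` large this is a contradiction (`p > 1`). -/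
def S_CL : Prop := ∀ (p : ℝ), 1 < p → ∀ (D : Dat p) (w : ℕ → Pt → ℝ) (C₀ : ℝ), (∀ n j, w n (0, j) = 0) → (∀ (n : ℕ) (j : ℤ), w n (3 ^ n, j) = 1) →
  (∀ n, En p (Kept n) (w n) (cell n (0, 0)) ≤ C₀) → ∃ h₀ : ℝ, 0 < h₀ ∧ ∀ m : ℕ, ∃ N₀ : ℕ, ∀ N : ℕ, N₀ ≤ N → h₀ ≤ HH D w m N

/-- [CP] pigeonhole (take `S_CH`, `S_CL` as hypotheses).
Proof: `h₀` from CL, `H₀ = √(mu 0 (0,0)·C₀)`, `r ≥ 1` with `H₀/r ≤ εh₀`. Let `N ≥ max(N₀(rL), rL)`. Then `HH (rL) N ≥ h₀`, and `∑_{i<r}(HH (iL) N - HH ((i+1)L) N) = HH 0 N - HH (rL) N ≤ H₀` (telescoping, CH (4)), so some `i < r` has `HH (iL) N - HH ((i+1)L) N ≤ H₀/r ≤ εh₀ ≤ εHH (iL) N` (`HH (iL) N ≥ HH (rL) N`, CH (3)). With `n = iL`, CH (2):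
`∑_{Q ∈ Kept n}[√(mu G)(Q) - ∑_{Q'}√(mu G)(Q')] ≤ ε∑_Q√(mu G)(Q)`. If every `Q` with `GN > 0` had bracket `> ε√(mu G)(Q)`, then, as the other brackets are `≥ 0` (CH (1)) `= ε·0`, and at least one `Q` has `GN > 0` (`∑√(mu G) ≥ h₀ > 0`), the sum would be `> ε∑`; contradiction. -/
def S_CP : Prop := ∀ (p : ℝ), 1 < p → ∀ (D : Dat p) (w : ℕ → Pt → ℝ) (C₀ : ℝ), (∀ n j, w n (0, j) = 0) → (∀ (n : ℕ) (j : ℤ), w n (3 ^ n, j) = 1) →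
  (∀ n, En p (Kept n) (w n) (cell n (0, 0)) ≤ C₀) → ∀ (L : ℕ) (ε : ℝ), 1 ≤ L → 0 < ε → ∃ (N n : ℕ) (Q : Pt), n + L ≤ N ∧ Q ∈ Kept n ∧
    0 < GN p N (w N) n Q ∧
    Real.sqrt (D.mu n Q * GN p N (w N) n Q) - ∑ Q' ∈ dsc n L Q, Real.sqrt (D.mu (n + L) Q' * GN p N (w N) (n + L) Q') ≤
      ε * Real.sqrt (D.mu n Q * GN p N (w N) n Q)

/-- [CQ] near-constancy (take `S_CA`, `S_CC`, `S_CF`, `S_CP` as hypotheses).
Proof: we may assume `L ≥ 1`. `C` from CC, `c = C^{-L} > 0`: `mu (n+L) Q' ≥ c mu n Q` (CC (3)). Given `λ > 1` let `δ ∈ (0,1)` with `(1+δ)² ≤ λ` and `(1-δ)² ≥ 1/λ`, and `ε = cδ²/2`. Take `N, n, Q` from CP. For `Q' ∈ dsc n L Q` let `m' = mu Q'/mu Q`, `g' = G(Q')/G(Q)`: `∑m' = ∑g' = 1` (CF (1), (2)), and dividing the inequality of CP by `√(mu Q·G Q) > 0`: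
`∑√(m'g') ≥ 1-ε`. So `∑(√m'-√g')² = 2 - 2∑√(m'g') ≤ 2ε = cδ²`, hence `|√g'-√m'| ≤ δ√c ≤ δ√m'` for each `Q'`, and `(1-δ)²m' ≤ g' ≤ (1+δ)²m'`. With `θ = G(Q)/mu(Q)`: `θ/λ·mu Q' ≤ G(Q') ≤ λθ mu Q'` for `Q' ∈ dsc n L Q`, and for `q' ∈ dsc n s Q`, `s ≤ L`, sum over `dsc (n+s) (L-s) q' ⊆ dsc n L Q` (CF (1), (2)). -/
def S_CQ : Prop := ∀ (p : ℝ), 1 < p → ∀ (D : Dat p) (w : ℕ → Pt → ℝ) (C₀ : ℝ), (∀ n j, w n (0, j) = 0) → (∀ (n : ℕ) (j : ℤ), w n (3 ^ n, j) = 1) →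
  (∀ n, En p (Kept n) (w n) (cell n (0, 0)) ≤ C₀) → ∀ (L : ℕ) (lam : ℝ), 1 < lam → ∃ (N n : ℕ) (q : Pt) (θ : ℝ), n + L ≤ N ∧ q ∈ Kept n ∧ 0 < θ ∧
    ∀ s : ℕ, s ≤ L → ∀ q' ∈ Kept (n + s), q' ∈ cell s q →
      θ / lam * D.mu (n + s) q' ≤ En p (Kept N) (w N) (cell (N - (n + s)) q') ∧
      En p (Kept N) (w N) (cell (N - (n + s)) q') ≤ lam * θ * D.mu (n + s) q'

end CarpetPI
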