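import Pool.Agent.Lib.MP_1d263a_an.PI.DefsF
import Pool.Agent.Lib.MP_1d263a_an.GR.Hol
import Pool.Agent.Lib.MP_1d263a_an.GR.Tst

/-!
# MP_1d263a_an, project PI, part F: the last step (comparison of `w` with the multiples `t w'`)

Every `S_Fx : Prop` is one piece; its complete proof is in the docstring. Files: `PI/Fx.lean`, theorem
`p_Fx : S_Fx` (with the pieces named after the word Uses as hypotheses, in this order).
`Gr` = `CarpetPI.Gr` (files GR/Edge, Lin, Tst, Hol, proved). `dv w e` is by definition `w (lf e) - w (rf e)`.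
Throughout `1 < p < 2`, `1 / p + 1 / q = 1`, so `q > 2`, `(p - 1) (q - 1) = 1`, `(q - 1) p = q`,
`(q - 2) / q = (2 - p) / p = 2 / p - 1`. `E(u)` = `En p (Kept N) u (blk s y)`.
-/

open Finset
open scoped Classical

noncomputable section

namespace CarpetPI

/-! ### geometry of the blocks -/

/-- [FA] sub-blocks are flat. Uses: nothing.
Proof. `y = (a 3^T, b 3^T)`, `m = T - s`, `y' = (a' 3^s, b' 3^s)`, `a' = a 3^m + c`, `b' = b 3^m`. Let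
`e ∈ {a', a' - 1}`; `|c| + 1 ≤ 3^m` (divide the hypothesis by `3^s`), so `e / 3^m ∈ {a - 1, a}`. `(e, b')` is in
`Kept (N - s)`: range from the range of `(e / 3^m, b) ∈ Kept (N - T)`; pattern: for `k < m`
`b' / 3^k % 3 = 0`, for `k ≥ m`, `e / 3^k = (e / 3^m) / 3^(k-m)`, `b' / 3^k = b / 3^(k-m)` and the pattern of
`(e / 3^m, b)` at the place `k - m`. `hol` and the inclusion of the blocks: `y.1 - 3^T ≤ y'.1 - 3^s`,
`y'.1 + 3^s ≤ y.1 + 3^T` (`c ≤ |c|`, `-c ≤ |c|`). -/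
def S_FA : Prop := ∀ (N T : ℕ) (y : Pt), Flat N T y → ∀ (s : ℕ) (c : ℤ), s ≤ T →
  |c| * 3 ^ s + 3 ^ s ≤ 3 ^ T →
  Flat N s (y.1 + c * 3 ^ s, y.2) ∧ blk s (y.1 + c * 3 ^ s, y.2) ⊆ blk T y

/-- [FB] faces at the boundary of a block are kept. Uses: nothing.
Proof. (1) `f ∈ blk s y` is in one of the two cells `(a, b) ∈ Kept (N - s)`: `f = (a 3^s + i, b 3^s + j)` with
`0 ≤ i, j < 3^s`. Pattern of `f`: for `k < s` the digits are those of `i`, `j`; for `k ≥ s` those of `a`, `b` at the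
place `k - s`. If `j = 0` or `i = 0` the digits are `0`, if `j = 3^s - 1` or `i = 3^s - 1` they are `2`. The
left and right columns of the block are outer columns of the two cells. (2) and (3): an edge of
`eT (blk s y)` with a face outside the block has its face in the block in the first or last row or
column, so this face is kept; an edge of `eB` with both faces in the block has a kept one. -/
def S_FB : Prop := ∀ (N s : ℕ) (y : Pt), Flat N s y →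
  (∀ f ∈ blk s y, (f.1 = y.1 - 3 ^ s ∨ f.1 = y.1 + 3 ^ s - 1 ∨ f.2 = y.2 ∨ f.2 = y.2 + 3 ^ s - 1) →
    f ∈ Kept N) ∧
  (∀ e ∈ eB (Kept N) (blk s y), ∃ f ∈ blk s y, f ∈ Kept N ∧ e ∈ sides f) ∧
  (∀ e ∈ eT (blk s y), (lf e ∉ blk s y ∨ rf e ∉ blk s y) → pres (Kept N) e)

/-- [FC] energies of `u` and of `w`. Uses: `S_FB`.
Proof. For `e ∈ eB`, `|du u e| = |dv w e|^(q-1)` (`Gr.abs_phi`) and `(q - 1) p = q`. Every edge of `eB` is a side of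
a kept face of the block (`S_FB`), and it is a side of at most two faces: both sums are sums over the
same edges, in `En` every edge is counted once or twice. Positive: the edge `(false, y)` (`lf` is the face
`y`, kept by `S_FB`, `w y > 0`; `rf` is `(y.1, y.2 - 1)` in the hole, `w = 0`). -/
def S_FC : Prop := ∀ (p q : ℝ), 1 < p → 1 / p + 1 / q = 1 → ∀ (N s : ℕ) (y : Pt) (u w : Pt → ℝ),
  Flat N s y → BlP q N s y u w →
  (∀ e ∈ eB (Kept N) (blk s y), |dv w e| ^ q = |du u e| ^ p) ∧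
  ∑ e ∈ eB (Kept N) (blk s y), |dv w e| ^ q ≤ En p (Kept N) u (blk s y) ∧
  En p (Kept N) u (blk s y) ≤ 2 * ∑ e ∈ eB (Kept N) (blk s y), |dv w e| ^ q ∧
  0 < En p (Kept N) u (blk s y)

/-- [FR] restriction to sub-blocks, and monotonicity of the energy. Uses: `S_FA`.
Proof. Inclusions of the blocks and of the parts of the hole. -/
def S_FR : Prop := ∀ (p q : ℝ) (N T : ℕ) (y : Pt) (u w : Pt → ℝ), Flat N T y → BlP q N T y u w →
  ∀ (s : ℕ) (c : ℤ), s ≤ T → |c| * 3 ^ s + 3 ^ s ≤ 3 ^ T →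
  BlP q N s (y.1 + c * 3 ^ s, y.2) u w ∧
  En p (Kept N) u (blk s (y.1 + c * 3 ^ s, y.2)) ≤ En p (Kept N) u (blk T y)

/-- [FD] the linear equation for `w - t w'`, and its level sets. Uses: `S_XG`, `S_XH`.
Proof. `z = u - t^(q-1) u'`. On a present edge touching the block
`du z e = phi q (dv w e) - phi q (t dv w' e) = Gr.cw q t lf rf w w' e * (dv w e - t dv w' e)` (`Gr.phi_smul`,
`Gr.cst_mul`, `Gr.cw`). (i) `S_XG` (second part) for `z`, `φ`, `B = blk s y`, `E = eT (blk s y)`; the absent edges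
contribute `0`. (ii) `S_XH` for `σ z` and `σ (w - t w')`: on present edges with
`dv w e ≠ t dv w' e`, `du z e * (dv w e - t dv w' e) = cw * (...)^2 > 0` (`Gr.cw_pos`); on absent edges both
`dv` vanish. -/
def S_FD : Prop := ∀ (q t : ℝ), 2 < q → 0 ≤ t → ∀ (N s : ℕ) (y : Pt) (u w u' w' : Pt → ℝ),
  BlP q N s y u w → BlP q N s y u' w' →
  (∀ φ : Pt → ℝ, (∀ f, f ∉ blk s y → φ f = 0) →
    (∀ e ∈ eT (blk s y), ¬ pres (Kept N) e → dv φ e = 0) →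
    ∑ e ∈ eB (Kept N) (blk s y), Gr.cw q t lf rf w w' e *
      ((w (lf e) - t * w' (lf e)) - (w (rf e) - t * w' (rf e))) * (φ (lf e) - φ (rf e)) = 0) ∧
  (∀ (σ M : ℝ) (f₀ : Pt), (σ = 1 ∨ σ = -1) → f₀ ∈ blk s y → M ≤ σ * (w f₀ - t * w' f₀) →
    ∃ P : Set Pt, FConn P ∧ f₀ ∈ P ∧ (∀ f ∈ P, M ≤ σ * (w f - t * w' f)) ∧ ∃ f ∈ P, f ∉ blk s y)

/-- [FE] trimming a connected vertex set. Uses: nothing.
Proof. Let `W` be the set of the points reachable from `x₀` by steps `adj K` inside `Z ∩ opB`. On a chain in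
`Z` from `x₀` to a point outside `opB` let `b` be the first point outside `opB`; the point before it is in
`W`. `Z' = W ∪ {b}`. `b ∈ clB A B C D`: the ends of an edge differ by `1` in one coordinate. -/
def S_FE : Prop := ∀ (K : Set Pt) (a b c d A B C D : ℤ) (Z : Set Pt), clB a b c d ⊆ opB A B C D →
  Conn K Z → ∀ x₀ ∈ Z, x₀ ∈ clB a b c d → (∃ x ∈ Z, x ∉ opB A B C D) →
  ∃ Z' : Set Pt, Z' ⊆ Z ∧ Conn K Z' ∧ x₀ ∈ Z' ∧ Z' ⊆ clB A B C D ∧ ∃ x ∈ Z', x ∉ opB A B C D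

/-! ### lower bounds for the energy of functions on the faces -/

/-- [FF] LOWER CAPACITY BOUND, four sides. Uses: `S_FC`, `S_FE`, `S_XE`.
Proof. `r = s - k`, `S = ∑ sz^q` (`sz = |dv w| + t |dv w'|`), `E₁ = E(u)`, `E₂ = E(u')`,
`m = e₀ max (E₁^(1/p), t^(q-1) E₂^(1/p))`. (1) `S ≤ 2^(q-1) ∑ (|dv w|^q + t^q |dv w'|^q) ≤ 2^(q-1) (E₁ + t^q E₂)`
(`S_FC`), `(t^(q-1))^p = t^q`, so `S ≤ 2^q e₀^(-p) m^p`; `S > 0` by `S_FC` (the sum for `w` is positive).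
(2) `S_XE` with `K = Kept N`, `clB` = the closed box of the points at distance `≥ 3^(r+1)` from the four
sides of the closed block, `opB` = the open box of the points at distance `> 3^r`, the functions `u` and
`u'' = t^(q-1) u'`, `E` = the edges of `eT (blk s y)` with both faces in `inn s r y` (every edge with an end in
`opB` is one of them). Its hypothesis on `Z`: let `x₀ ∈ Z ∩ clB`; trim `Z` (`S_FE`) to `Z' ⊆ closed box ⊆`
closed block with a point `x₁ ∉ opB`, `dis x₀ x₁ ≥ 3^(r+1) - 3^r ≥ 3^r = 3^(s-k)`; `Crs` for `u` or for `u'` (the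
one with the bigger term in `m`) gives two points of `Z'` with `m ≤ |u x - u z| + |u'' x - u'' z|`. `P`, `P'` cross:
a face in `inn s (r+1) y` has its lower left corner in `clB`, a face outside the block has it outside
`opB`. So `m ≤ ∑ (|du u e| + |du u'' e|) |dv φ e|` over the present edges of `E`. (3) On these edges
`|du u e| + |du u'' e| = |dv w e|^(q-1) + t^(q-1) |dv w' e|^(q-1)`, `Gr.cw_lower` gives
`m^2 ≤ (4 / cL q) X S` with `X` the sum on the right side of the claim. (4) `m^2 ≥ (2^(-q) e₀^p S)^(2/p)`, so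
`X ≥ (cL q / 4) (2^(-q) e₀^p)^(2/p) S^(2/p - 1)` and `2/p - 1 = (q-2)/q`. -/
def S_FF : Prop := ∀ (p q e₀ : ℝ) (k : ℕ), 1 < p → p < 2 → 1 / p + 1 / q = 1 → 0 < e₀ → 1 ≤ k →
  ∃ C : ℝ, 0 < C ∧ ∀ (t : ℝ) (N s : ℕ) (y : Pt) (u w u' w' φ : Pt → ℝ) (P P' : Set Pt),
  0 ≤ t → k ≤ s → Flat N s y → BlP q N s y u w → BlP q N s y u' w' →
  Crs p e₀ k N s y u → Crs p e₀ k N s y u' → FConn P → FConn P' →
  (∃ f ∈ P, f ∈ inn s (s - k + 1) y) → (∃ f ∈ P, f ∉ blk s y) →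
  (∃ f ∈ P', f ∈ inn s (s - k + 1) y) → (∃ f ∈ P', f ∉ blk s y) →
  (∀ f ∈ P, φ f ≤ 0) → (∀ f ∈ P', 1 ≤ φ f) →
  (∀ e ∈ eT (blk s y), ¬ pres (Kept N) e → dv φ e = 0) →
  (∑ e ∈ eB (Kept N) (blk s y), Gr.sz t lf rf w w' e ^ q) ^ ((q - 2) / q) ≤
    C * ∑ e ∈ (eB (Kept N) (blk s y)).filter (fun e => lf e ∈ inn s (s - k) y ∧
      rf e ∈ inn s (s - k) y), Gr.cw q t lf rf w w' e * (φ (lf e) - φ (rf e)) ^ 2

/-- [FG] LOWER CAPACITY BOUND, three sides; the hole is the second crossing set.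
Uses: `S_FB`, `S_FC`, `S_FE`, `S_XE`.
Proof. As `S_FF` with `clB = [y.1 - 3^s + 3^(r+1), y.1 + 3^s - 3^(r+1)] × [y.2, y.2 + 3^s - 3^(r+1)]`,
`opB = (y.1 - 3^s + 3^r, y.1 + 3^s - 3^r) × (y.2 - 1, y.2 + 3^s - 3^r)`, `P'` = the row of the faces
`f.2 = y.2 - 1`, `y.1 - 3^s ≤ f.1 < y.1 + 3^s` of the hole (`φ = 1`; its corner `y` is in `clB`, its left end
is outside `opB`), `E` = the edges with an end in `opB`: an absent one has both faces in the block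
(`S_FB` (3)) or both faces in the hole (there `φ = 1`), so `dv φ e = 0`; a present one has a face in the block,
and each of its faces is in `ins s r y` or in the hole. Hypothesis on `Z`: a vertex of the network with
`|x.1 - y.1| < 3^s` has `x.2 ≥ y.2` or `x.2 < y.2 - 1` (the four faces at a point of height `y.2 - 1` are in
the hole, `3^s ≥ 2`), so the trimmed set `Z'` (in the closed box of `opB`) is in the closed block, and its
point outside `opB` has distance `≥ 3^(r+1) - 3^r` from `x₀` (it is on the left, right or upper side). -/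
def S_FG : Prop := ∀ (p q e₀ : ℝ) (k : ℕ), 1 < p → p < 2 → 1 / p + 1 / q = 1 → 0 < e₀ → 1 ≤ k →
  ∃ C : ℝ, 0 < C ∧ ∀ (t : ℝ) (N s : ℕ) (y : Pt) (u w u' w' φ : Pt → ℝ) (P : Set Pt),
  0 ≤ t → k ≤ s → Flat N s y → BlP q N s y u w → BlP q N s y u' w' →
  Crs p e₀ k N s y u → Crs p e₀ k N s y u' → FConn P →
  (∃ f ∈ P, f ∈ ins s (s - k + 1) y) → (∃ f ∈ P, f ∉ blk s y ∧ y.2 ≤ f.2) →
  (∀ f ∈ P, φ f ≤ 0) →
  (∀ f : Pt, y.1 - 3 ^ s ≤ f.1 → f.1 < y.1 + 3 ^ s → y.2 - 3 ^ s ≤ f.2 → f.2 < y.2 → φ f = 1) →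
  (∀ e ∈ eT (blk s y), ¬ pres (Kept N) e → dv φ e = 0) →
  (∑ e ∈ eB (Kept N) (blk s y), Gr.sz t lf rf w w' e ^ q) ^ ((q - 2) / q) ≤
    C * ∑ e ∈ (eB (Kept N) (blk s y)).filter (fun e =>
      (lf e ∈ ins s (s - k) y ∨ (lf e).2 < y.2) ∧ (rf e ∈ ins s (s - k) y ∨ (rf e).2 < y.2)),
      Gr.cw q t lf rf w w' e * (φ (lf e) - φ (rf e)) ^ 2

/-! ### Harnack inequality and decay at the flat side -/

/-- [FH] HARNACK INEQUALITY in a block. Uses: `S_FC`, `S_FD`, `S_FF`.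
Proof. `g = w - t w' + δ`, `M = g f`, `m = g f' > 0`; let `M > m` (otherwise `Ch ≥ 1` does it). `η` from `Cut4`.
(1) The function `η^2 / g` on the block (`0` outside; the values at the ends of the edges of `eT` are
`η^2 / g` everywhere, because `η = 0` outside the block) has no jump across absent edges, so by `S_FD` (i)
`∑ cw (dg) d(η^2/g) = 0`, and `Gr.log_cacc` (with `E = eB`) and `Gr.cw_upper` give
`∑ cw min(η)^2 (d log g)^2 ≤ 6 ∑ cw (dη)^2 ≤ 6 (q-1) S^((q-2)/q) (max C₄ 0)^(2/q)`, `S = ∑ sz^q`.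
(2) `S_FD` (ii): `P' ∋ f` with `g ≥ M`, `P ∋ f'` with `g ≤ m` (`σ = -1`), both leave the block.
`φ = 0` where `g ≤ m`, `1` where `g ≥ M`, `(log g - log m) / (log M - log m)` otherwise: `|dφ| ≤
|d log g| / (log M - log m)` on the edges of `eT` (`g > 0` at both ends; `φ` is `log g` cut at two levels), no
jump across absent edges. `S_FF` and `η = 1` on `inn s (s-k) y`:
`S^((q-2)/q) ≤ C (log M - log m)^(-2) ∑ cw min(η)^2 (d log g)^2`. As `S > 0` (`S_FC`),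
`(log M - log m)^2 ≤ 6 C (q-1) (max C₄ 0)^(2/q)`. -/
def S_FH : Prop := ∀ (p q e₀ C₄ : ℝ) (k : ℕ), 1 < p → p < 2 → 1 / p + 1 / q = 1 → 0 < e₀ → 1 ≤ k →
  Cut4 q k C₄ → ∃ Ch : ℝ, 1 ≤ Ch ∧ ∀ (t δ : ℝ) (N s : ℕ) (y : Pt) (u w u' w' : Pt → ℝ),
  0 ≤ t → k ≤ s → Flat N s y → BlP q N s y u w → BlP q N s y u' w' →
  Crs p e₀ k N s y u → Crs p e₀ k N s y u' →
  (∀ e ∈ eT (blk s y), 0 < w (lf e) - t * w' (lf e) + δ ∧ 0 < w (rf e) - t * w' (rf e) + δ) →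
  ∀ f ∈ inn s (s - k + 1) y, ∀ f' ∈ inn s (s - k + 1) y,
    w f - t * w' f + δ ≤ Ch * (w f' - t * w' f' + δ)

/-- [FI] DECAY AT THE FLAT SIDE, one step. Uses: `S_FB`, `S_FC`, `S_FD`, `S_FG`.
Proof. `ψ = σ (w - t w')`, `f₀ ∈ ins s (s-1) y` with `ψ f₀ = (1 - τ) M`, `τ < 1/4` (otherwise nothing to prove if
`c ≤ 1/4`); `0 ≤ τ` by hypothesis (a face in `ins` is a face of an edge of `eT`); let first `τ > 0`.
`M' = (1 + τ) M`, `g = M' - max ψ 0`: on the faces of the edges of `eT (blk s y)`, `τ M ≤ g ≤ M'` and `ψ < M'`;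
`g = M'` in the hole. `η` from `Cut3` (`k = 2`). Test function `φ₁ = η^2 (1/g - 1/M')` on the block, `0` outside:
at the faces outside the block of edges of `eT`: above the line `η = 0`, below the line `g = M'`
(`BlP.hol`); no jump across absent edges. `S_FD` (i) (times `σ`), `Gr.log_test_M_t`, `Gr.log_cacc_M`, `Gr.cw_upper`:
`∑ cw min(η)^2 (d log g)^2 ≤ 6 ∑ cw (dη)^2 ≤ 6 (q-1) S^((q-2)/q) (max C₃ 0)^(2/q)`, where the middle sum is over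
the edges of `eB` with `g < M'` at both ends; they have both faces at height `≥ y.2` (a face of an edge of
`eT (blk s y)` below the line is in the part of the hole where `w = w' = 0`).
`S_FD` (ii): `P ∋ f₀` with `ψ ≥ (1 - τ) M > 0`, leaves the block, at a face `f ∉ blk` with `y.2 ≤ f.2`: take the
set of `S_FD` and note that a face below the line adjacent to the block has `ψ = 0`; precisely: let `P₁` be
the set from `S_FD`; on a chain in `P₁` from `f₀` to a face outside the block let `f` be the first face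
outside, it is adjacent to a face of the block; `ψ f > 0`, so it is not below the line (the faces below
the line adjacent to the block are in the hole); `P` = the part of the chain up to `f` (the set of its
faces). `φ = log (g / (2τM)) / log (M' / (2τM))` cut at `0` and `1` (`2τM < M'` as `τ < 1/4`); on `P`:
`g ≤ M' - (1-τ) M = 2τM`, `φ = 0`; in the hole `φ = 1`. For faces not belonging to an edge of `eT` define
`φ = 1` if below the line, `φ = 0` otherwise. `S_FG` (`k = 2`, `s - k + 1 = s - 1`), `η = 1` on `ins s (s-2) y`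
and below the line: `S^((q-2)/q) ≤ C (log (M'/(2τM)))^(-2) ∑ cw min(η)^2 (d log g)^2`. With `S > 0`:
`(log (1/(2τ)))^2 ≤ 6 C (q-1) (max C₃ 0)^(2/q) =: B^2`, so `τ ≥ exp(-B)/2 =: 2c`-ish; take
`c = min (1/4) (exp(-B)/2) / 2`. If `τ = 0` apply this to `M₁ = M (1 + ρ)` instead of `M` for small
`ρ > 0` (then `ψ f₀ = (1 - τ₁) M₁`, `τ₁ = ρ/(1+ρ) < 2c`): contradiction. -/
def S_FI : Prop := ∀ (p q e₀ C₃ : ℝ), 1 < p → p < 2 → 1 / p + 1 / q = 1 → 0 < e₀ → Cut3 q 2 C₃ →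
  ∃ c : ℝ, 0 < c ∧ c < 1 ∧ ∀ (t σ M : ℝ) (N s : ℕ) (y : Pt) (u w u' w' : Pt → ℝ),
  0 ≤ t → (σ = 1 ∨ σ = -1) → 2 ≤ s → Flat N s y → BlP q N s y u w → BlP q N s y u' w' →
  Crs p e₀ 2 N s y u → Crs p e₀ 2 N s y u' → 0 < M →
  (∀ e ∈ eT (blk s y), σ * (w (lf e) - t * w' (lf e)) ≤ M ∧ σ * (w (rf e) - t * w' (rf e)) ≤ M) →
  ∀ f ∈ ins s (s - 1) y, σ * (w f - t * w' f) ≤ (1 - c) * M

/-- [FJ] iteration of the decay. Uses: nothing (no network).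
Proof. Induction on `l`. `l = 0`: `f` is in the region of the hypothesis (`|2 f.1 + 1 - 2 (y.1 + a 3^i)| ≤ 3^i`).
Step `l + 1`: `v = 3^(i-2)`, `3^i = 9 v`, `3^(i-1) = 3 v` (`i ≥ 2`). The hypothesis on `ψ` gives
`ψ ≤ (1 - c) M` on `ins i (i-1) (y.1 + a 3^i, y.2)` = `[y.1 + 9 a v - 6 v, y.1 + 9 a v + 6 v) × [y.2, y.2 + 6 v)`.
There is `a'` with `|a' - 9 a| ≤ 4` and `|2 f.1 + 1 - 2 (y.1 + a' v)| ≤ v` (for an integer `x`, `|x| ≤ 9 v`, there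
is `b`, `|b| ≤ 4`, `|x - 2 b v| ≤ v`: nine cases). The region of `(i - 2, a')` is inside the `ins` above
(`5 v + 1 ≤ 6 v`), `|a'| v + v ≤ |a| 9 v + 9 v`. Apply the induction hypothesis to `i - 2`, `a'`,
`(1 - c) M`. -/
def S_FJ : Prop := ∀ (y : Pt) (T₀ T : ℕ) (c : ℝ) (ψ : Pt → ℝ), 0 < c → c < 1 →
  (∀ (i : ℕ) (a : ℤ) (M : ℝ), T₀ + 2 ≤ i → |a| * 3 ^ i + 3 ^ i ≤ (3 : ℤ) ^ T → 0 < M →
    (∀ f : Pt, y.1 + a * 3 ^ i - 3 ^ i - 1 ≤ f.1 → f.1 ≤ y.1 + a * 3 ^ i + 3 ^ i → y.2 ≤ f.2 →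
      f.2 ≤ y.2 + 3 ^ i → ψ f ≤ M) →
    ∀ f ∈ ins i (i - 1) (y.1 + a * 3 ^ i, y.2), ψ f ≤ (1 - c) * M) →
  ∀ (l i : ℕ) (a : ℤ) (M : ℝ), T₀ + 2 * l ≤ i → |a| * 3 ^ i + 3 ^ i ≤ (3 : ℤ) ^ T → 0 < M →
    (∀ f : Pt, y.1 + a * 3 ^ i - 3 ^ i - 1 ≤ f.1 → f.1 ≤ y.1 + a * 3 ^ i + 3 ^ i → y.2 ≤ f.2 →
      f.2 ≤ y.2 + 3 ^ i → ψ f ≤ M) →
    ∀ f : Pt, |2 * f.1 + 1 - 2 * (y.1 + a * 3 ^ i)| ≤ 3 ^ i → y.2 ≤ f.2 →
      f.2 < y.2 + 3 ^ (i - 2 * l) → ψ f ≤ (1 - c) ^ l * M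

/-! ### size of `w` -/

/-- [FK] upper bound for `w`. Uses: `S_FA`, `S_FD`, `S_XL`.
Proof. `S_FA` (`c = 0`, scale `s`): the two cells `a` of size `3^s` above `y` are in `Kept (N - s)`; `f` is in
one of them. `S_XL` with `r = q`, the cell `a`, `φ = w`, `α = 0`, `β = w f`, `P` = the faces
`g.2 = y.2 - 1`, `y.1 - 3^(s+1) ≤ g.1 < y.1 + 3^(s+1)` of the hole (`w = 0`; corners `(·, y.2)` on the lower side
of the cell and outside `nb 1`), `P'` from `S_FD` (ii) (`t = 0`, `σ = 1`, block `s + 1`) started at `f`: it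
contains a face outside `blk (s+1) y`, which has a corner outside the open box of `nbV 1 s a` (take the
first face outside as in `S_FI`: it is adjacent to the block and not below the line). Absent edges with both
ends in `nbV 1 s a`: both faces in the part of the hole where `w = 0`, or a face in the block `s + 1`
(`BlP.pr`). `EnD q (Kept N) w (nb 1 s a) ≤ En p (Kept N) u (blk (s+1) y)`: kept faces of `nb 1 s a` are not
below the line, so they are in the block, and `|dv w e|^q = |du u e|^p` on their sides. -/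
def S_FK : Prop := ∀ (p q : ℝ), 1 < p → p < 2 → 1 / p + 1 / q = 1 → Dat p → ∃ C : ℝ, 1 ≤ C ∧
  ∀ (N s : ℕ) (y : Pt) (u w : Pt → ℝ), Flat N (s + 1) y → BlP q N (s + 1) y u w →
  ∀ f ∈ blk s y, w f ^ q ≤ C * En p (Kept N) u (blk (s + 1) y)

/-- [FL] Caccioppoli inequality for `w`. Uses: `S_FA`, `S_FC`, `S_FD`, `S_FR`.
Proof. `η` from `Cut3` (`k = 1`, scale `s + 1`): `η = 1` on `ins (s+1) s y`, which contains `blk s y` and the
faces above the line adjacent to it, and below the line. Test function `w η^2` on the block `s + 1`, `0`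
outside; at outer faces of edges of `eT` the function `w η^2` is `0` (`η = 0` above the line, `w = 0` below).
`S_FD` (i) with `t = 0` (`u' = u`, `w' = w`), `Gr.lin_cacc_t`:
`∑ cw min(η)^2 (dw)^2 ≤ 8 ∑_{w ≠ 0 at both ends} cw max|w|^2 (dη)^2 ≤ 8 S^2 (q-1) (∑ |dw|^q)^((q-2)/q)
(max C₃ 0)^(2/q)` (`Gr.cw_upper`; the edges with `w ≠ 0` at both ends have both faces at height `≥ y.2`). For
`t = 0` `cw (dw)^2 = phi q (dw) dw = |dw|^q`, `sz = |dw|`. The left side is at least the sum over `eB (blk s y)`,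
which is at least half of `En p (Kept N) u (blk s y)` (`S_FC` for the block `s`). -/
def S_FL : Prop := ∀ (p q C₃ : ℝ), 1 < p → p < 2 → 1 / p + 1 / q = 1 → Cut3 q 1 C₃ →
  ∃ C : ℝ, 1 ≤ C ∧ ∀ (N s : ℕ) (y : Pt) (u w : Pt → ℝ) (S : ℝ),
  Flat N (s + 1) y → BlP q N (s + 1) y u w → 0 ≤ S →
  (∀ e ∈ eT (blk (s + 1) y), |w (lf e)| ≤ S ∧ |w (rf e)| ≤ S) →
  En p (Kept N) u (blk s y) ≤
    C * (S ^ 2 * En p (Kept N) u (blk (s + 1) y) ^ ((q - 2) / q))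

/-- [FU] the energy of `u - u'` is small if `w - w'` is small. Uses: `S_FA`, `S_FC`, `S_FD`, `S_FR`.
Proof. As `S_FL` with `t = 1`, `ψ = w - w'`, test function `ψ η^2`: with `Sz = ∑ sz^q` over `eB (blk (s+1) y)`,
`Sz ≤ 2^q (E(u) + E(u'))` (block `s + 1`): `∑_{eB (blk s y)} cw (dψ)^2 ≤ 8 δ^2 (q-1) Sz^((q-2)/q)
(max C₃ 0)^(2/q)`. `Gr.end_estimate` over `eB (blk s y)`: `∑ |phi q dw - phi q dw'|^p ≤ (q-1)^(p/2) (8 δ^2 (q-1)
Sz^((q-2)/q) (..)^(2/q))^(p/2) Sz^(1-p/2) = C δ^p Sz^(2-p)` as `(q-2)/q · p/2 + 1 - p/2 = 2 - p`. On present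
edges `phi q (dv w e) - phi q (dv w' e) = du (u - u') e`, and `En` counts every edge at most twice. -/
def S_FU : Prop := ∀ (p q C₃ : ℝ), 1 < p → p < 2 → 1 / p + 1 / q = 1 → Cut3 q 1 C₃ →
  ∃ C : ℝ, 1 ≤ C ∧ ∀ (N s : ℕ) (y : Pt) (u w u' w' : Pt → ℝ) (δ : ℝ),
  Flat N (s + 1) y → BlP q N (s + 1) y u w → BlP q N (s + 1) y u' w' → 0 ≤ δ →
  (∀ e ∈ eT (blk (s + 1) y), |w (lf e) - w' (lf e)| ≤ δ ∧ |w (rf e) - w' (rf e)| ≤ δ) →
  En p (Kept N) (fun x => u x - u' x) (blk s y) ≤ C * (δ ^ p *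
    (En p (Kept N) u (blk (s + 1) y) + En p (Kept N) u' (blk (s + 1) y)) ^ (2 - p))

/-! ### reflection -/

/-- [FV] the reflected pair. Uses: `S_FB`.
Proof. Edges: `re (false, x) = (false, (2 y.1 - 1 - x.1, x.2))`, `re (true, x) = (true, rv y x)`. For
`u' = -u ∘ rv y`, `w' = w ∘ rfc y`: on horizontal edges `du u' e = du u (re e)`, `dv w' e = dv w (re e)`, on vertical
ones both change sign; `phi` is odd; `|du u' e| = |du u (re e)|` always. `f ∈ Kept N ↔ rfc y f ∈ Kept N` for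
`f ∈ blk T y`: both are in one of the two cells (which are exchanged) and the pattern inside the cell is
decided by the digits `< T`; `3^T ∣ y.1`, so the digits of `2 y.1 - 1 - f.1` at the places `< T` are
`2 -` (digits of `f.1`) and `d = 1 ↔ 2 - d = 1`. So `pres (Kept N) (re e) ↔ pres (Kept N) e` for
`e ∈ eT (blk T y)` (with a face outside the block: both present, `S_FB` (3)). `En` of `u'` in the block
`(s, y + c)` is `En` of `u` in the block `(s, y - c)`; `rv y` maps `Conn` sets in the closed block `(s, y + c)` to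
such sets in `(s, y - c)` and preserves `dis`. -/
def S_FV : Prop := ∀ (p q A : ℝ) (ε : ℕ → ℝ) (N T₀ T : ℕ) (y : Pt) (u w : Pt → ℝ), 1 < p →
  1 / p + 1 / q = 1 → Flat N T y → Half p q A ε N T₀ T y u w →
  Half p q A ε N T₀ T y (fun x => - u (rv y x)) (fun f => w (rfc y f)) ∧
  ∀ s : ℕ, s ≤ T → En p (Kept N) (fun x => - u (rv y x)) (blk s y) = En p (Kept N) u (blk s y)

/-! ### the final argument, without network -/

/-- The facts used in the final argument: `m s` is the size of `w` in the block `s`. -/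
structure Endg (c K C : ℝ) (Ch : ℕ → ℝ) (T₀ T : ℕ) (y : Pt) (w : Pt → ℝ) (m : ℕ → ℝ) : Prop where
  m_pos : ∀ s, T₀ ≤ s → s ≤ T → 0 < m s
  m_up : ∀ s, T₀ ≤ s → s < T → m s ≤ m (s + 1) ∧ m (s + 1) ≤ K * m s
  pos : ∀ f ∈ blk T y, 0 < w f
  sup : ∀ s, T₀ ≤ s → s < T → ∀ f ∈ blk s y, w f ≤ C * m s
  low : ∀ s, T₀ ≤ s → s + 3 ≤ T → ∃ f ∈ blk (s + 2) y, m s ≤ C * w f
  har : ∀ (k s : ℕ) (t δ : ℝ), 1 ≤ k → T₀ + k ≤ s → s + 1 ≤ T → 0 ≤ t → t ≤ 1 → 0 < δ →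
    (∀ f ∈ blk (s + 1) y, 0 < w f - t * w (rfc y f) + δ) →
    ∀ f ∈ inn s (s - k + 1) y, ∀ f' ∈ inn s (s - k + 1) y,
      w f - t * w (rfc y f) + δ ≤ Ch k * (w f' - t * w (rfc y f') + δ)
  bd : ∀ (l s : ℕ) (t σ M : ℝ), T₀ + 2 * l ≤ s → T₀ + 2 ≤ s → s + 1 ≤ T → 0 ≤ t → t ≤ 1 →
    (σ = 1 ∨ σ = -1) → 0 < M → (∀ f ∈ blk (s + 1) y, σ * (w f - t * w (rfc y f)) ≤ M) →
    ∀ f ∈ blk s y, f.2 < y.2 + 3 ^ (s - 2 * l) → σ * (w f - t * w (rfc y f)) ≤ (1 - c) ^ l * M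

/-- [FS] the facts `Endg` for a pair. Uses: `S_FA`, `S_FC`, `S_FR`, `S_FV`, `S_FH`, `S_FI`, `S_FJ`, `S_FK`,
`S_FL`.
Proof. `m s = En p (Kept N) u (blk s y) ^ (1/q)`. The pair `(u', w')` is that of `S_FV`; `c` from `S_FI` for
`e₀ = ε 2`; `Ch k` from `S_FH` for `e₀ = ε k` and `Cut4 q k C₄` (`S_Hfinal`); `K = A^(1/q)` (at least `1`:
take `max A 1`). `m_pos`: `S_FC` and `S_FR` (`c = 0`); `m_up`: `S_FR`-monotonicity and `gro`. `sup`: `S_FK` at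
`s` (block `s + 1 ≤ T`), `w f ≤ (C E(s+1))^(1/q) ≤ C' m s`. `low`: `S_FL` at the scale `s` with
`S = max of w over blk (s+2) y` (attained; the faces of the edges of `eT (blk (s+1) y)` are in `blk (s+2) y` or
in the hole, where `w = 0`), `E(s) ≤ C S^2 (A E(s))^((q-2)/q)`, so `E(s)^(2/q) ≤ C' S^2`. `har`: `S_FH` in the
block `s` (`S_FR`, `crs` with `c = 0`): the faces of the edges of `eT (blk s y)` are in `blk (s+1) y` or in the
hole, where `w = w' = 0` and `δ > 0`. `bd`: `S_FJ` for `ψ = σ (w - t w')` and `T₀`: its hypothesis is `S_FI` in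
the block `(i, y + (a 3^i, 0))` (`S_FA`, `S_FR`, `crs` with `k = 2`, `T₀ + 2 ≤ i`; faces of edges of `eT` of this
block are in the region or in the hole with `ψ = 0 ≤ M`). For `f ∈ blk s y` choose `a ∈ {-1, 0, 1}` with
`|2 f.1 + 1 - 2 (y.1 + a 3^s)| ≤ 3^s`; the region of `(s, a)` is inside `blk (s+1) y`. If `l = 0` the claim is
trivial. -/
def S_FS : Prop := ∀ (p q : ℝ), 1 < p → p < 2 → 1 / p + 1 / q = 1 → Dat p → S_Hfinal →
  ∀ (A : ℝ) (ε : ℕ → ℝ), (∀ k, 0 < ε k) → ∃ (c K C : ℝ) (Ch : ℕ → ℝ), 0 < c ∧ c < 1 ∧ 1 ≤ K ∧ 1 ≤ C ∧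
  (∀ k, 1 ≤ Ch k) ∧ ∀ (N T₀ T : ℕ) (y : Pt) (u w : Pt → ℝ), Flat N T y → Half p q A ε N T₀ T y u w →
  Endg c K C Ch T₀ T y w (fun s => En p (Kept N) u (blk s y) ^ (1 / q))

/-- [FT1] lower bound for `w` away from the flat side. Uses: nothing.
Proof. Choose `l₀ ≥ 1` with `(1 - c)^l₀ C^2 K^4 < 1`. Given `k` put `k₁ = k + 2 l₀ + 4`, `n = k₁ + 2 l₀ + 10`. Let
`T₀ + n ≤ s`, `s + 5 ≤ T`. `low`: `f₁ ∈ blk (s+2) y`, `m s ≤ C w f₁`. If `f₁.2 < y.2 + 3^(s+2-2l₀)`, `bd` (`t = 0`,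
`σ = 1`, scale `s + 2`, `M = C m (s+3)` by `sup`) gives `w f₁ ≤ (1-c)^l₀ C m (s+3) ≤ (1-c)^l₀ C K^3 m s < m s / C`,
contradiction. `har` (`t = 0`, scale `s + 3`, `k₁`, any `δ > 0`) for `f₁` and `f ∈ blk (s+2) y` with
`y.2 + 3^(s-k) ≤ f.2`: both are in `inn (s+3) (s+3-k₁+1) y` (`s + 4 - k₁ ≤ s - k`, `≤ s + 2 - 2 l₀`, and
`3^(s+3) - 3^(s+2) ≥ 3^(s+4-k₁)`). `w f₁ + δ ≤ Ch k₁ (w f + δ)` for all `δ > 0`, so `w f₁ ≤ Ch k₁ w f` and
`w f ≥ m s / (C Ch k₁)`. -/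
def S_FT1 : Prop := ∀ (c K C : ℝ) (Ch : ℕ → ℝ), 0 < c → c < 1 → 1 ≤ K → 1 ≤ C → (∀ k, 1 ≤ Ch k) →
  ∀ k : ℕ, ∃ (c₁ : ℝ) (n : ℕ), 0 < c₁ ∧ ∀ (T₀ T : ℕ) (y : Pt) (w : Pt → ℝ) (m : ℕ → ℝ),
  Endg c K C Ch T₀ T y w m → ∀ s, T₀ + n ≤ s → s + 5 ≤ T → ∀ f ∈ blk (s + 2) y,
    y.2 + 3 ^ (s - k) ≤ f.2 → c₁ * m s ≤ w f

/-- [FT2] pigeonhole. Uses: nothing.
Proof. Start with `j₀ = s₀`; as long as there is `i ∈ [j_k, j_k + m₀]` with `a i < a j_k - ε` put `j_{k+1} = i`. Then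
`a j_k < 1 - k ε`, so `k < 1/ε + 1 ≤ r`; `j_k ≤ s₀ + r m₀`. (Or: strong induction; or: by contradiction
with `a j_r < 0`.) -/
def S_FT2 : Prop := ∀ (ε : ℝ) (m₀ r : ℕ), 0 < ε → 1 / ε + 1 ≤ r → ∀ (s₀ : ℕ) (a : ℕ → ℝ),
  (∀ i, s₀ ≤ i → i ≤ s₀ + (r + 1) * m₀ → 0 ≤ a i ∧ a i ≤ 1) →
  ∃ j, s₀ ≤ j ∧ j ≤ s₀ + r * m₀ ∧ ∀ i, j ≤ i → i ≤ j + m₀ → a j - ε ≤ a i

/-- [FT3] one-sided bound in a window. Uses: nothing.
Proof. For `i` in the window let `Ψ i = max 0 (max over f ∈ blk i y of (a w (rfc y f) - w f))`. `Ψ i ≤ (1-c)^l Ψ (i+1)` for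
`j ≤ i < j + m₀`: if `f ∈ blk i y` has `a w (rfc y f) - w f > 0` then `f.2 < y.2 + 3^(i-2l)` by hypothesis, and `bd` with
`σ = -1`, `t = a`, `M = Ψ (i+1)` (it is positive since `f ∈ blk (i+1) y`) gives the bound. So
`Ψ (j+3) ≤ (1-c)^(l (m₀-3)) Ψ (j+m₀)`, `Ψ (j+m₀) ≤ max w ≤ C m (j+m₀) ≤ C K^m₀ m j` (`rfc y` maps the block to
itself, `a ≤ 1`), and `((1-c)^l K)^(m₀-3) ≤ 2^-(m₀-3)`. -/
def S_FT3 : Prop := ∀ (c K C a : ℝ) (Ch : ℕ → ℝ) (l m₀ T₀ T j : ℕ) (y : Pt) (w : Pt → ℝ) (m : ℕ → ℝ),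
  0 < c → c < 1 → 1 ≤ K → 1 ≤ C → Endg c K C Ch T₀ T y w m → (1 - c) ^ l * K ≤ 1 / 2 → 3 ≤ m₀ →
  T₀ + 2 * l + 2 ≤ j → j + m₀ + 1 ≤ T → 0 ≤ a → a ≤ 1 →
  (∀ i, j ≤ i → i ≤ j + m₀ → ∀ f ∈ blk i y, y.2 + 3 ^ (i - 2 * l) ≤ f.2 →
    a * w (rfc y f) ≤ w f) →
  ∀ f ∈ blk (j + 3) y, a * w (rfc y f) - w f ≤ C * K ^ 3 * (1 / 2) ^ (m₀ - 3) * m j

/-- [FT4] THE FINAL ARGUMENT. Uses: `S_FT1`, `S_FT2`, `S_FT3`.
Proof. Write `w' f = w (rfc y f)`; `rfc y (rfc y f) = f`, `rfc y` preserves blocks (centre `y`) and the height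
`h f = f.2 - y.2`. Let `k` be so large that `(1-c)^((k+1)/2) C K^2 ≤ δ₀` (natural division) and `2 l ≤ k`, where
`l ≥ 1`, `(1-c)^l K ≤ 1/2`; `c₁` = the minimum of the constants of `S_FT1` for `k` and for `2 l`;
`t₀ = c₁ / (C + 1)`. Choose `ε₀ ≤ t₀ / 2`, `m₀ ≥ 4` with `B (1 + C K / c₁) ≤ δ₀`, where `δ' = C K^3 (1/2)^(m₀-3)`,
`B = Ch (k+3) (ε₀ C + 2 δ') + 2 δ'`; `r ≥ 1/ε₀ + 1`; `n` large.
(1) `F s = {f ∈ blk s y : h f ≥ 3^(s-2l)}` is nonempty, finite, `rfc`-invariant; `a s` = min over `F s` of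
`w f / w' f`. `a s ≤ 1` (`f` and `rfc y f`), `a s ≥ c₁ m s / (C m s) ≥ t₀`. (2) `S_FT2`: `j` with
`a i ≥ a j - ε₀` for `j ≤ i ≤ j + m₀`; `a = a j - ε₀ ∈ [0, 1]`. (3) `S_FT3`: `w - a w' ≥ -δ' m j` on
`blk (j+3) y`. (4) `har` in the block `j + 2` with `t = a`, `δ = 2 δ' m j`, `k + 3`: the minimiser `x ∈ F j` of
`w / w'` and every `f ∈ blk (j+1) y` with `h f ≥ 3^(j-k)` are in `inn (j+2) (j+2-(k+3)+1) y`, `w x - a w' x =
ε₀ w' x ≤ ε₀ C m j`, so `w f - a w' f + δ ≤ Ch (k+3) (ε₀ C + 2δ') m j`: `|w f - a w' f| ≤ B m j`. (5) The same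
for `rfc y f`: `|w' f - a w f| ≤ B m j`; the sum of the two: `(1-a) (w f + w' f) ≤ 2 B m j`, and `w f, w' f ≥ c₁ m j`
(`S_FT1`), so `1 - a ≤ B / c₁`, `|w f - w' f| ≤ |w f - a w' f| + (1-a) w' f ≤ B m j + (B/c₁) C K m j ≤ δ₀ m j`
(`w' f ≤ C m (j+1) ≤ C K m j`). (6) `f ∈ blk (j+1) y`, `h f < 3^(j-k)`: `bd` with `t = 0`, `σ = 1`, scale `j + 1`,
`l' = (k+1)/2`, `M = C m (j+2)`: `w f, w' f ≤ (1-c)^l' C K^2 m j ≤ δ₀ m j`, and `|w - w'| ≤ max (w, w')`. -/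
def S_FT4 : Prop := ∀ (c K C : ℝ) (Ch : ℕ → ℝ), 0 < c → c < 1 → 1 ≤ K → 1 ≤ C → (∀ k, 1 ≤ Ch k) →
  ∀ δ₀ : ℝ, 0 < δ₀ → ∃ n : ℕ, ∀ (T₀ T : ℕ) (y : Pt) (w : Pt → ℝ) (m : ℕ → ℝ),
  Endg c K C Ch T₀ T y w m → T₀ + n ≤ T → ∃ j, T₀ + 1 ≤ j ∧ j + 2 ≤ T ∧
    ∀ f ∈ blk (j + 1) y, |w f - w (rfc y f)| ≤ δ₀ * m j

end CarpetPI
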