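import Pool.Agent.Lib.MP_1d263a_an.PI.StmB
import Pool.Agent.Lib.MP_1d263a_an.PI.StmH

/-!
# MP_1d263a_an, project PI: existence of the cell profile of part H
-/

open Finset
open scoped Classical

noncomputable section

namespace CarpetPI

/-- [HP] existence of the profile (take `S_BTC` as hypothesis).
Proof: `ω` from BTC with `m = 1`, `T = 3^t`: `V (a, b) = (ω (b % T, a) + ω (T - 1 - b % T, a)) / 2`. The seam condition holds because of the average with the reflection. The pattern is invariant under the transposition and the reflection, so `V` does not jump across the absent edges inside the cell. every edge of `cellEd t` gives two edges of `RE T T`, and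
`|(x + y)/2|^q ≤ |x|^q + |y|^q`; so the energy is `≤ 2 C`. -/
def S_HP : Prop := ∀ p : ℝ, 1 < p → ∀ _ : Dat p, ∃ C : ℝ, 0 < C ∧ ∀ t : ℕ, ∃ V : Pt → ℝ,
  Prof (p / (p - 1)) t C V

end CarpetPI
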