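import Pool.Agent.Lib.MP_1d263a_an.PI.Defs

/-!
# MP_1d263a_an, project PI, part X: crossing inequality, Loewner inequalities on the lattice, level sets

Every `S_Xx : Prop` is one piece; its complete proof is in the docstring. Files: `PI/Xx.lean`, theorem
`p_Xx : S_Xx` (with the pieces named after the word Uses as hypotheses, in this order).

No Jordan curve theorem is used: the topological input is that a closed cochain on `ℤ × ℤ` is exact.
-/

open Finset
open scoped Classical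

noncomputable section

namespace CarpetPI

/-- a closed box of lattice points -/
def clB (a b c d : ℤ) : Set Pt := {x | a ≤ x.1 ∧ x.1 ≤ b ∧ c ≤ x.2 ∧ x.2 ≤ d}

/-- an open box of lattice points -/
def opB (a b c d : ℤ) : Set Pt := {x | a < x.1 ∧ x.1 < b ∧ c < x.2 ∧ x.2 < d}

/-- two faces with a common side (present in the network or not) -/
def fadj (f g : Pt) : Prop := ∃ e : Ed, (lf e = f ∧ rf e = g) ∨ (lf e = g ∧ rf e = f)

/-- a connected set of faces -/
def FConn (P : Set Pt) : Prop :=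
  ∀ f ∈ P, ∀ g ∈ P, Relation.ReflTransGen (fun a b => fadj a b ∧ a ∈ P ∧ b ∈ P) f g

/-- `P` (a set of faces) goes from the set `A` of vertices to the complement of the set `B` of vertices -/
def Cross (P A B : Set Pt) : Prop :=
  FConn P ∧ (∃ f ∈ P, ∃ x ∈ A, IsCor x f) ∧ (∃ f ∈ P, ∃ x, x ∉ B ∧ IsCor x f)

/-- the sides of a face `f`, with signs: the sum of `k` around `f` -/
def curl (k : Ed → ℝ) (f : Pt) : ℝ :=
  k (false, f) + k (true, (f.1 + 1, f.2)) - k (false, (f.1, f.2 + 1)) - k (true, f)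

/-- energy of a function on the faces, on the sides of the faces in `G ∩ K` -/
def EnD (q : ℝ) (K : Set Pt) (v : Pt → ℝ) (G : Finset Pt) : ℝ :=
  ∑ f ∈ G.filter (· ∈ K), ∑ e ∈ sides f, |dv v e| ^ q

/-- [XA] a closed cochain is exact. Uses: nothing.
Proof. For `g : ℤ → ℝ` there is `G : ℤ → ℝ` with `G 0 = 0`, `G (i + 1) - G i = g i` for all `i ∈ ℤ`
(`G i = ∑ j ∈ Ico 0 i, g j - ∑ j ∈ Ico i 0, g j`). Take `G` for `g i = k (false, (i, 0))` and for
every `i` take `V i` for `j ↦ k (true, (i, j))`; `σ (i, j) = G i + V i j`. Vertical edges: clear.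
Horizontal edges: `E j = σ (i+1, j) - σ (i, j) - k (false, (i, j))` satisfies `E 0 = 0` and
`E (j+1) - E j = k (true, (i+1, j)) - k (true, (i, j)) - k (false, (i, j+1)) + k (false, (i, j)) =
curl k (i, j) = 0`, so `E = 0` (`Int.induction_on`). -/
def S_XA : Prop := ∀ k : Ed → ℝ, (∀ f, curl k f = 0) → ∃ σ : Pt → ℝ, ∀ e, du σ e = k e

/-- [XB] the topological crossing lemma. Uses: `S_XA`.
Proof. Suppose that for every edge `e` the two ends are on the same side of `S` or the two faces are on the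
same side of `F`. Let `s = 1_S` on the vertices and `k e = du s e` if `lf e ∈ F`, `k e = 0` otherwise.
`k` is closed: let `f` be a face. If `f ∈ F`, then for each of its sides `e`, `k e = du s e` (if
`du s e = 0`, both are `0`; otherwise the two faces of `e`, one of which is `f ∈ F`, are both in `F`), so
`curl k f = curl (du s) f = 0`. If `f ∉ F`: `k e = 0` for each side (if `du s e ≠ 0` then `lf e ∉ F`). Let
`du σ = k` (`S_XA`). (1) `σ` is constant on `clB a b c d ⊆ S`: neighbours in the box are joined by an edge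
with `du s = 0`; two induction steps (along a row, along a column). (2) `σ` is constant outside the
open box: if `i ≤ A` or `i ≥ B` the whole column `i` is outside, if `j ≤ C` or `j ≥ D` the whole row `j` is
outside; outside `s = 0` (`S ⊆ opB`), so `σ` is constant on these rows and columns; all of them are
connected to the point `(A, D)`. (3) If `f ∈ P` and `x`, `y` are corners of `f`, then
`σ x - s x = σ y - s y` (the sides of `f` have `k = du s`, as above); two adjacent faces have a common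
corner; so `σ - s` is constant on the corners of the faces of `P` (`FConn`). With `x₀` in the closed
box and `x₁` outside the open box: `σ x₁ - σ x₀ = s x₁ - s x₀ = -1`. (4) In the same way `σ` is constant
on the corners of the faces of `P'` (disjoint from `F`), so `σ y₁ = σ y₀`. By (1), (2)
`σ x₀ = σ y₀`, `σ x₁ = σ y₁`. Contradiction. -/
def S_XB : Prop := ∀ (a b c d A B C D : ℤ) (S F P P' : Set Pt), A ≤ B → C ≤ D →
  clB a b c d ⊆ S → S ⊆ opB A B C D → P ⊆ F → Disjoint P' F →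
  Cross P (clB a b c d) (opB A B C D) → Cross P' (clB a b c d) (opB A B C D) →
  ∃ e : Ed, ¬ (tl e ∈ S ↔ hd e ∈ S) ∧ ¬ (lf e ∈ F ↔ rf e ∈ F)

/-- [XC] area of a cover of the unit square by rectangles. Uses: nothing.
Proof. `Set.Ioo 0 1 ×ˢ Set.Ioo 0 1 ⊆ ⋃ i ∈ E, Set.uIcc (l i) (r i) ×ˢ Set.uIcc (l' i) (r' i)` in `ℝ × ℝ`;
the volume of the left side is `1`, the volume of a rectangle on the right is
`ofReal |r i - l i| * ofReal |r' i - l' i|` (`Real.volume_uIcc` or `Real.volume_Icc`,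
`MeasureTheory.Measure.prod_prod`, `Measure.volume_eq_prod`); `measure_biUnion_finset_le`. -/
def S_XC : Prop := ∀ (E : Finset Ed) (l r l' r' : Ed → ℝ),
  (∀ s : ℝ, 0 < s → s < 1 → ∀ t : ℝ, 0 < t → t < 1 → ∃ i ∈ E,
    min (l i) (r i) ≤ s ∧ s ≤ max (l i) (r i) ∧ min (l' i) (r' i) ≤ t ∧ t ≤ max (l' i) (r' i)) →
  1 ≤ ∑ i ∈ E, |r i - l i| * |r' i - l' i|

/-- [XD] CROSSING INEQUALITY. Uses: `S_XB`, `S_XC`.
Proof. `S_XC` with the values of `χ` at `tl e`, `hd e` and of `φ` at `rf e`, `lf e`. For `s, t ∈ (0, 1)`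
apply `S_XB` to `S = {χ < s}` and `F = {φ < t}`: `clB ⊆ S` (`χ ≤ 0`), `S ⊆ opB` (`χ ≥ 1` outside),
`P ⊆ F`, `P'` disjoint from `F`. The edge `e` has one end with `χ < s` and the other one with `χ ≥ s`, one face
with `φ < t` and the other one with `φ ≥ t`; one end is in `S ⊆ opB`, so `e ∈ E`. -/
def S_XD : Prop := ∀ (a b c d A B C D : ℤ) (χ φ : Pt → ℝ) (P P' : Set Pt) (E : Finset Ed),
  A ≤ B → C ≤ D → (∀ x ∈ clB a b c d, χ x ≤ 0) → (∀ x, x ∉ opB A B C D → 1 ≤ χ x) →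
  (∀ f ∈ P, φ f ≤ 0) → (∀ f ∈ P', 1 ≤ φ f) →
  Cross P (clB a b c d) (opB A B C D) → Cross P' (clB a b c d) (opB A B C D) →
  (∀ e : Ed, tl e ∈ opB A B C D ∨ hd e ∈ opB A B C D → e ∈ E) →
  1 ≤ ∑ e ∈ E, |du χ e| * |dv φ e|

/-- [XE] LENGTH-CROSSING INEQUALITY (K-Loewner, first half). Uses: `S_XD`.
Here `ℓ e = |du u e| + |du u' e|`; every connected vertex set of the network which goes from the closed box
to the outside of the open box has `u, u'`-oscillation at least `m`.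
Proof. `m = 0` is clear (`0 ≤` sum). Let `m > 0`. Define inductively the relation `W x r` (there is a
walk in the network from the closed box to `x` of length `r`): `W x 0` for `x ∈ VK K ∩ clB`; `W x r`, `e` present
(`pres K e`) with ends `x`, `y` implies `W y (r + ℓ e)`. By induction: `W x r` implies `0 ≤ r`, `x ∈ VK K`,
and there is a set `Z` with `Conn K Z`, `x ∈ Z`, some point of `Z` in `clB`, and
`|u z - u z'| + |u' z - u' z'| ≤ r` for all `z, z' ∈ Z` (add the new point). Let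
`L x = sInf {r | W x r}`; if `W x r` for some `r` then `0 ≤ L x`, and for a present edge `e` from `x` to `y`:
`W y _` for some value as well and `|L x - L y| ≤ ℓ e`. If `W x r` and `x ∉ opB` then `r ≥ m` by the hypothesis
(the set `Z`), so `L x ≥ m`. Put `χ x = min 1 (L x / m)` if `x ∈ VK K` and `W x r` for some `r`;
`χ x = 1` if `x ∈ VK K` and there is no such `r`; for `x ∉ VK K`: `χ x = 0` if `x ∈ opB`, `χ x = 1` otherwise.
Then `χ ≤ 0` on `clB` (`clB ⊆ opB` by hypothesis; `L x = 0` for `x ∈ VK K ∩ clB`), `χ ≥ 1` outside `opB`,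
and `|du χ e| ≤ ℓ e / m` for present `e` (both ends are in `VK K`, both or none are reached by walks). For
absent edges `dv φ e = 0`. So `S_XD` gives `1 ≤ ∑ e ∈ E, |du χ e| |dv φ e| ≤ (1/m) ∑_{present} ℓ e |dv φ e|`. -/
def S_XE : Prop := ∀ (K : Set Pt) (a b c d A B C D : ℤ) (u u' φ : Pt → ℝ) (m : ℝ) (P P' : Set Pt)
  (E : Finset Ed), A ≤ B → C ≤ D → clB a b c d ⊆ opB A B C D → 0 ≤ m →
  (∀ Z : Set Pt, Conn K Z → (∃ x ∈ Z, x ∈ clB a b c d) → (∃ x ∈ Z, x ∉ opB A B C D) →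
    ∃ x ∈ Z, ∃ y ∈ Z, m ≤ |u x - u y| + |u' x - u' y|) →
  (∀ f ∈ P, φ f ≤ 0) → (∀ f ∈ P', 1 ≤ φ f) →
  Cross P (clB a b c d) (opB A B C D) → Cross P' (clB a b c d) (opB A B C D) →
  (∀ e : Ed, tl e ∈ opB A B C D ∨ hd e ∈ opB A B C D → e ∈ E) →
  (∀ e ∈ E, ¬ pres K e → dv φ e = 0) →
  m ≤ ∑ e ∈ E.filter (fun e => pres K e), (|du u e| + |du u' e|) * |dv φ e|

/-- [XF] K-LOEWNER. Uses: `S_XE`.
Weights `w e ≥ 0` on the present edges with `(|du u e| + |du u' e|)^2 ≤ C w e (|dv v e| + |dv v' e|)^q` (for the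
operator of the last step: `w ~ (|dv v| + |dv v'|)^(q-2)`, `|du u| = |dv v|^(q-1)`).
Proof. `m ≤ ∑ ℓ |dv φ|` (`S_XE`), `ℓ |dv φ| ≤ (C (|dv v|+|dv v'|)^q)^(1/2) (w |dv φ|^2)^(1/2)`, Cauchy-Schwarz:
`m^2 ≤ C (∑ (|dv v|+|dv v'|)^q) (∑ w |dv φ|^2)`. -/
def S_XF : Prop := ∀ (q Cc : ℝ) (K : Set Pt) (a b c d A B C D : ℤ) (u u' v v' φ : Pt → ℝ) (w : Ed → ℝ)
  (m : ℝ) (P P' : Set Pt) (E : Finset Ed), 0 ≤ Cc → A ≤ B → C ≤ D → clB a b c d ⊆ opB A B C D → 0 ≤ m →
  (∀ Z : Set Pt, Conn K Z → (∃ x ∈ Z, x ∈ clB a b c d) → (∃ x ∈ Z, x ∉ opB A B C D) →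
    ∃ x ∈ Z, ∃ y ∈ Z, m ≤ |u x - u y| + |u' x - u' y|) →
  (∀ f ∈ P, φ f ≤ 0) → (∀ f ∈ P', 1 ≤ φ f) →
  Cross P (clB a b c d) (opB A B C D) → Cross P' (clB a b c d) (opB A B C D) →
  (∀ e : Ed, tl e ∈ opB A B C D ∨ hd e ∈ opB A B C D → e ∈ E) →
  (∀ e ∈ E, ¬ pres K e → dv φ e = 0) → (∀ e ∈ E, pres K e → 0 ≤ w e) →
  (∀ e ∈ E, pres K e → (|du u e| + |du u' e|) ^ 2 ≤ Cc * w e * (|dv v e| + |dv v' e|) ^ q) →
  m ^ 2 ≤ Cc * (∑ e ∈ E.filter (fun e => pres K e), (|dv v e| + |dv v' e|) ^ q) *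
    ∑ e ∈ E.filter (fun e => pres K e), w e * |dv φ e| ^ 2

/-- [XG] Green's identity. Uses: nothing.
Proof. (1) `∑ e, du s e * dv v e` over all edges touching the support is
`∑ x, s x ((dv v)(edges with head x) - (dv v)(edges with tail x))`, and for every vertex `x = (i, j)`:
`dv v (false,(i-1,j)) + dv v (true,(i,j-1)) - dv v (false,(i,j)) - dv v (true,(i,j)) = 0`. The edges of `E`
touching no point of `B` contribute `0`; `s` is a finite linear combination of indicators of points, so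
it is enough to treat `s = 1_{x}` (linearity; the sum over `E` has four nonzero terms). (2) The same
with `t = 1_{f}` and `curl (du z) f = 0`: the four sides of `f` have `dv 1_f = 1` for `(false, f)` and for
`(true, (f.1+1, f.2))` (where `f` is on the left) and `-1` for the other two. -/
def S_XG : Prop :=
  (∀ (s v : Pt → ℝ) (B : Finset Pt) (E : Finset Ed), (∀ x, x ∉ B → s x = 0) →
    (∀ e : Ed, tl e ∈ B ∨ hd e ∈ B → e ∈ E) → ∑ e ∈ E, du s e * dv v e = 0) ∧
  (∀ (z t : Pt → ℝ) (B : Finset Pt) (E : Finset Ed), (∀ f, f ∉ B → t f = 0) →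
    (∀ e : Ed, lf e ∈ B ∨ rf e ∈ B → e ∈ E) → ∑ e ∈ E, du z e * dv t e = 0)

/-- [XH] components of the level sets of a function on the faces reach the boundary. Uses: `S_XG`.
Proof. Let `Z` be the set of the faces reachable from `f₀` by steps `fadj` inside `{φ ≥ M} ∩ B`. If some face
`g ∉ B` with `φ g ≥ M` is adjacent to a face of `Z`, take `P = Z ∪ {g}`. Otherwise `Z ⊆ B` is finite,
nonempty, and every face adjacent to a face of `Z` and not in `Z` has `φ < M`. Let `t = 1_Z`. By `S_XG` (2)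
`∑ du z e * dv t e = 0` over the edges with a face in `Z`. If `dv t e ≠ 0`, one face of `e` is in `Z` and the
other one has `φ < M`, so `dv φ e` is not `0` and has the sign of `dv t e`; the face in `Z` is in `B`, so by
hypothesis `du z e * dv φ e > 0`, so `du z e * dv t e > 0`. There is such an edge (the lower side of a
face of `Z` with minimal second coordinate). Contradiction. -/
def S_XH : Prop := ∀ (z φ : Pt → ℝ) (B : Finset Pt) (M : ℝ) (f₀ : Pt), f₀ ∈ B → M ≤ φ f₀ →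
  (∀ e : Ed, lf e ∈ B ∨ rf e ∈ B → dv φ e ≠ 0 → 0 < du z e * dv φ e) →
  ∃ P : Set Pt, FConn P ∧ f₀ ∈ P ∧ (∀ f ∈ P, M ≤ φ f) ∧ ∃ f ∈ P, f ∉ B

/-- [XI] components of the level sets of a function on the vertices reach the boundary. Uses: `S_XG`.
Proof. Let `Z` be the set of the vertices reachable from `x₀` by steps `adj K` inside `{z ≥ M} ∩ B`. If some
`y ∉ B` with `z y ≥ M` is joined to a point of `Z` by a present edge, take `Z ∪ {y}`. Otherwise let `s = 1_Z`
(finite support). By `S_XG` (1) `∑ du s e * dv φ e = 0`. If `du s e ≠ 0` and `e` is absent then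
`dv φ e = 0` by hypothesis. If `e` is present, one end is in `Z ⊆ B` and the other end `y` is not in `Z`, so
`z y < M`; `du z e ≠ 0` has the sign of `du s e` and `du z e * dv φ e > 0`, so the term is positive. So there is
no present edge from `Z` to its complement; but the connected set `X` goes from `x₀ ∈ Z` to a point
outside `B`, contradiction. `Z ⊆ VK K` because `x₀ ∈ X ⊆ VK K` and ends of present edges are in `VK K`. -/
def S_XI : Prop := ∀ (K : Set Pt) (z φ : Pt → ℝ) (B : Finset Pt) (M : ℝ) (x₀ : Pt), x₀ ∈ B → M ≤ z x₀ →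
  (∃ X : Set Pt, Conn K X ∧ x₀ ∈ X ∧ ∃ x ∈ X, x ∉ B) →
  (∀ e : Ed, tl e ∈ B ∨ hd e ∈ B → ¬ pres K e → dv φ e = 0) →
  (∀ e : Ed, tl e ∈ B ∨ hd e ∈ B → pres K e → du z e ≠ 0 → 0 < du z e * dv φ e) →
  ∃ Z : Set Pt, Conn K Z ∧ x₀ ∈ Z ∧ (∀ x ∈ Z, M ≤ z x) ∧ ∃ x ∈ Z, x ∉ B

/-- [XJ] comparison of the masses of near cells, and the distances at the lattice scale. Uses: nothing.
Proof. (1) corners of `g ∈ Kept N`: `dis ≤ 1`; `a = g`, `b = g + (1, 0)`; `d a x ≤ η 1 d a b` for a corner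
`x` (`qs`, `t = 1`), `d x y ≤ d x a + d a y ≤ 2 η 1 d a b`, and `(d a b)^p ≤ A mu N g` (`ahl`): so
`d x y ^ p ≤ (2 η 1)^p A mu N g`. (2) for `q, q' ∈ Kept n` with `dis q q' ≤ m`: the points `z = q`,
`z' = q + (1,0)`, `x = q'`, `y = q' + (1,0)` satisfy `dis z x, dis z y ≤ m + 1 = (m+1) dis z z'`, so
`d x y ≤ 2 η (m+1) d z z'` and `mu n q' ≤ A (d x y)^p ≤ A (2 η (m+1))^p A mu n q`. -/
def S_XJ : Prop := ∀ (p : ℝ) (D : Dat p), 1 ≤ p → ∀ m : ℕ, ∃ C : ℝ, 1 ≤ C ∧
  (∀ N : ℕ, ∀ g ∈ Kept N, ∀ x y : Pt, IsCor x g → IsCor y g → D.d N x y ^ p ≤ C * D.mu N g) ∧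
  (∀ n : ℕ, ∀ q ∈ Kept n, ∀ q' ∈ Kept n, dis q q' ≤ m → D.mu n q' ≤ C * D.mu n q)

/-- [XK] cutoff functions on the vertices. Uses: `S_XJ`.
Let `q ∈ Kept (N - t)` be a cell of size `3^t`, `nbV R t q` the closed box of the points at distance at
most `R 3^t` from it and `opB` the interior of `nbV (R+1) t q`.
Proof. `n = N - t`. For `x ∈ VK (Kept N)` let `δ x = min {d N x y : y ∈ VK (Kept N) ∩ nbV R t q}` (a finite
nonempty set: it contains the corners of the cell `q`, that is `mulP (3^t) q` and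
`mulP (3^t) (q.1+1, q.2)`; these points are in `VK (Kept N)` and their distance is
`ρ = d n q (q.1+1, q.2)` by iterating `d_scale`), `|δ x - δ y| ≤ d N x y`, `δ = 0` on `nbV R t q`. If `x` is not in
the interior of `nbV (R+1) t q` then `dis x y ≥ 3^t` for all `y ∈ nbV R t q`, and `dis y z ≤ (R+1) 3^t` for
`z ∈ cellV t q`, so by `qs` `d y z ≤ η (R+1) d y x`; with `z` the two corners: `ρ ≤ 2 η (R+1) d y x`, so
`δ x ≥ ρ / (2 η (R+1))` (`η (R+1) > 0`, as `ρ > 0`).
`χ x = min 1 (2 η (R+1) δ x / ρ)` for `x ∈ VK (Kept N)`, and for the other `x`: `0` in the interior of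
`nbV (R+1) t q`, `1` outside. For a side `e` of a kept face `g`:
`|du χ e|^p ≤ (2 η (R+1) / ρ)^p (d N (tl e) (hd e))^p ≤ C mu N g / mu n q` (`S_XJ` (1), `ahl`). The present
edges with an end in the interior of `nbV (R+1) t q` are sides of kept faces in `nb (R+1) t q`; so the
sum of `|du χ e|^p` over these edges is at most `4 ∑ C mu N g / mu n q` over the kept faces `g` in
`nb (R+1) t q`, and the sum of `mu N g` over these faces is the sum of `mu n q'` over the cells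
`q' ∈ Kept n` with `dis q q' ≤ R+1` (additivity; every kept face of level `N` is in the cell of its
ancestor), at most `(2 R + 3)^2 C mu n q` (`S_XJ` (2)). -/
def S_XK : Prop := ∀ (p : ℝ) (D : Dat p), 1 ≤ p → ∀ R : ℕ, ∃ C : ℝ, 1 ≤ C ∧ ∀ (N t : ℕ), t ≤ N →
  ∀ q ∈ Kept (N - t), ∃ χ : Pt → ℝ, (∀ x ∈ nbV R t q, χ x ≤ 0) ∧
    (∀ x, x ∉ opB ((q.1 - (R + 1)) * 3 ^ t) ((q.1 + (R + 2)) * 3 ^ t) ((q.2 - (R + 1)) * 3 ^ t)
      ((q.2 + (R + 2)) * 3 ^ t) → 1 ≤ χ x) ∧
    ∀ E : Finset Ed, (∀ e ∈ E, pres (Kept N) e ∧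
      (tl e ∈ opB ((q.1 - (R + 1)) * 3 ^ t) ((q.1 + (R + 2)) * 3 ^ t) ((q.2 - (R + 1)) * 3 ^ t)
        ((q.2 + (R + 2)) * 3 ^ t) ∨
      hd e ∈ opB ((q.1 - (R + 1)) * 3 ^ t) ((q.1 + (R + 2)) * 3 ^ t) ((q.2 - (R + 1)) * 3 ^ t)
        ((q.2 + (R + 2)) * 3 ^ t))) → ∑ e ∈ E, |du χ e| ^ p ≤ C

/-- [XL] DUAL LOEWNER INEQUALITY. Uses: `S_XD`, `S_XK`.
Proof. `β = α` is clear; let `β > α`. Apply `S_XD` to `χ` from `S_XK`, the function
`φ' = (φ - α) / (β - α)` on the faces and the finite set `E` of the edges with an end in the open box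
(absent edges have `dv φ = 0`): `β - α ≤ ∑ |du χ e| |dv φ e|` over the present edges with an end in the open box,
`≤ C^(1/p) (∑ |dv φ e|^r)^(1/r)` by Hoelder (`1/p + 1/r = 1`), and every such edge is a side of a kept
face in `nb (R+1) t q`. So `(β - α)^r ≤ C^(r/p) EnD r (Kept N) φ (nb (R+1) t q)`. (`nbV R t q` is the closed
box `clB ((q.1 - R) 3^t) ((q.1 + R + 1) 3^t) …`.) -/
def S_XL : Prop := ∀ (p r : ℝ) (D : Dat p), 1 < p → 1 / p + 1 / r = 1 → ∀ R : ℕ, ∃ C : ℝ, 1 ≤ C ∧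
  ∀ (N t : ℕ), t ≤ N → ∀ q ∈ Kept (N - t), ∀ (φ : Pt → ℝ) (P P' : Set Pt) (α β : ℝ), α ≤ β →
  (∀ e : Ed, ¬ pres (Kept N) e → (tl e ∈ nbV (R + 1) t q ∧ hd e ∈ nbV (R + 1) t q) → dv φ e = 0) →
  (∀ f ∈ P, φ f ≤ α) → (∀ f ∈ P', β ≤ φ f) →
  Cross P (nbV R t q) (opB ((q.1 - (R + 1)) * 3 ^ t) ((q.1 + (R + 2)) * 3 ^ t)
    ((q.2 - (R + 1)) * 3 ^ t) ((q.2 + (R + 2)) * 3 ^ t)) →
  Cross P' (nbV R t q) (opB ((q.1 - (R + 1)) * 3 ^ t) ((q.1 + (R + 2)) * 3 ^ t)
    ((q.2 - (R + 1)) * 3 ^ t) ((q.2 + (R + 2)) * 3 ^ t)) →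
  (β - α) ^ r ≤ C * EnD r (Kept N) φ (nb (R + 1) t q)

end CarpetPI
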