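import Pool.Agent.Lib.MP_1d263a_an.PI.StmX

/-!
# MP_1d263a_an, project PI, piece XA: a closed cochain on the lattice is exact
-/

open Finset
open scoped Classical

noncomputable section

namespace CarpetPI

theorem XA_int (g : ℤ → ℝ) : ∃ G : ℤ → ℝ, G 0 = 0 ∧ ∀ i, G (i + 1) - G i = g i := by
  refine ⟨fun i => ∑ j ∈ Finset.Ico 0 i, g j - ∑ j ∈ Finset.Ico i 0, g j, by simp, ?_⟩
  intro i
  rcases le_or_gt 0 i with h | h
  · have h1 : Finset.Ico 0 (i + 1) = insert i (Finset.Ico 0 i) := by
      ext j
      simp only [Finset.mem_Ico, Finset.mem_insert]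
      omega
    have h2 : i ∉ Finset.Ico 0 i := by simp
    have h3 : Finset.Ico (i + 1) 0 = ∅ := Finset.Ico_eq_empty (by omega)
    have h4 : Finset.Ico i 0 = ∅ := Finset.Ico_eq_empty (by omega)
    simp only [h1, h3, h4, Finset.sum_insert h2, Finset.sum_empty]
    ring
  · have h1 : Finset.Ico i 0 = insert i (Finset.Ico (i + 1) 0) := by
      ext j
      simp only [Finset.mem_Ico, Finset.mem_insert]
      omega
    have h2 : i ∉ Finset.Ico (i + 1) 0 := by simp
    have h3 : Finset.Ico 0 (i + 1) = ∅ := Finset.Ico_eq_empty (by omega)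
    have h4 : Finset.Ico 0 i = ∅ := Finset.Ico_eq_empty (by omega)
    simp only [h1, h3, h4, Finset.sum_insert h2, Finset.sum_empty]
    ring

theorem XA_const (E : ℤ → ℝ) (h0 : E 0 = 0) (h : ∀ j, E (j + 1) = E j) : ∀ j, E j = 0 := by
  intro j
  induction j using Int.induction_on with
  | zero => exact h0
  | succ i hi => rw [h, hi]
  | pred i hi =>
    have h1 := h (-(i : ℤ) - 1)
    rw [sub_add_cancel] at h1
    rw [← h1, hi]

theorem p_XA : S_XA := by
  intro k hk
  obtain ⟨G, hG0, hG⟩ := XA_int (fun i => k (false, (i, 0)))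
  choose V hV0 hV using fun i : ℤ => XA_int (fun j => k (true, (i, j)))
  refine ⟨fun x => G x.1 + V x.1 x.2, ?_⟩
  rintro ⟨b, i, j⟩
  cases b with
  | true =>
    simp only [du, hd, tl, if_true]
    have h1 := hV i j
    linarith
  | false =>
    simp only [du, hd, tl, Bool.false_eq_true, if_false]
    have key := XA_const (fun j => (G (i + 1) + V (i + 1) j) - (G i + V i j) - k (false, (i, j)))
      (by
        simp only [hV0]
        have h1 := hG i
        linarith)
      (by
        intro j
        have h1 := hV (i + 1) j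
        have h2 := hV i j
        have h3 := hk (i, j)
        simp only [curl] at h3
        linarith) j
    linarith

end CarpetPI
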