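import Pool.Agent.Lib.MP_1d263a_an.PI.StmX

/-!
# MP_1d263a_an, project PI, piece XK: cutoff functions on the vertices
-/

open Finset
open scoped Classical

noncomputable section

namespace CarpetPI

private def XK_par (t : ℕ) (g : Pt) : Pt := (g.1 / 3 ^ t, g.2 / 3 ^ t)

private theorem XK_mem_kids {c : Pt} : c ∈ kids ↔
    c ≠ (1, 1) ∧ (0 ≤ c.1 ∧ c.1 < 3) ∧ 0 ≤ c.2 ∧ c.2 < 3 := by
  simp only [kids, box, Finset.mem_erase, Finset.mem_product, Finset.mem_Ico]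

private theorem XK_div (a c : ℤ) (h0 : 0 ≤ c) (h3 : c < 3) (k : ℕ) :
    (3 * a + c) / 3 ^ (k + 1) = a / 3 ^ k := by
  rw [pow_succ', ← Int.ediv_ediv_of_nonneg (by norm_num)]
  congr 1
  omega

private theorem XK_kept_kid {n : ℕ} {q c : Pt} (hq : q ∈ Kept n) (hc : c ∈ kids) :
    kid q c ∈ Kept (n + 1) := by
  obtain ⟨q1, q2, q3, q4, q5⟩ := hq
  obtain ⟨c1, ⟨c2, c3⟩, c4, c5⟩ := XK_mem_kids.1 hc
  refine ⟨?_, ?_, ?_, ?_, ?_⟩
  · show 0 ≤ 3 * q.1 + c.1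
    omega
  · show 3 * q.1 + c.1 < 3 ^ (n + 1)
    rw [pow_succ]
    omega
  · show 0 ≤ 3 * q.2 + c.2
    omega
  · show 3 * q.2 + c.2 < 3 ^ (n + 1)
    rw [pow_succ]
    omega
  · intro k hk
    show ¬ ((3 * q.1 + c.1) / 3 ^ k % 3 = 1 ∧ (3 * q.2 + c.2) / 3 ^ k % 3 = 1)
    rcases k with - | k
    · rw [pow_zero, Int.ediv_one, Int.ediv_one]
      rintro ⟨h1, h2⟩
      apply c1
      have e1 : c.1 = 1 := by omega
      have e2 : c.2 = 1 := by omega
      exact Prod.ext e1 e2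
    · rw [XK_div _ _ c2 c3, XK_div _ _ c4 c5]
      exact q5 k (by omega)

private theorem XK_kept_par {n : ℕ} {g : Pt} (hg : g ∈ Kept (n + 1)) :
    ((g.1 / 3, g.2 / 3) : Pt) ∈ Kept n ∧ ((g.1 % 3, g.2 % 3) : Pt) ∈ kids ∧
      kid (g.1 / 3, g.2 / 3) (g.1 % 3, g.2 % 3) = g := by
  obtain ⟨q1, q2, q3, q4, q5⟩ := hg
  rw [pow_succ] at q2 q4
  refine ⟨⟨?_, ?_, ?_, ?_, ?_⟩, ?_, ?_⟩
  · show 0 ≤ g.1 / 3
    omega
  · show g.1 / 3 < 3 ^ n
    omega
  · show 0 ≤ g.2 / 3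
    omega
  · show g.2 / 3 < 3 ^ n
    omega
  · intro k hk
    have := q5 (k + 1) (by omega)
    rw [pow_succ', ← Int.ediv_ediv_of_nonneg (by norm_num), ← Int.ediv_ediv_of_nonneg (by norm_num)] at this
    exact this
  · rw [XK_mem_kids]
    refine ⟨?_, ⟨by show 0 ≤ g.1 % 3; omega, by show g.1 % 3 < 3; omega⟩,
      by show 0 ≤ g.2 % 3; omega, by show g.2 % 3 < 3; omega⟩
    intro h
    have h1 : g.1 % 3 = 1 := congrArg Prod.fst h
    have h2 : g.2 % 3 = 1 := congrArg Prod.snd h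
    have := q5 0 (by omega)
    rw [pow_zero, Int.ediv_one, Int.ediv_one] at this
    exact this ⟨h1, h2⟩
  · show ((3 * (g.1 / 3) + g.1 % 3, 3 * (g.2 / 3) + g.2 % 3) : Pt) = g
    apply Prod.ext
    · show 3 * (g.1 / 3) + g.1 % 3 = g.1
      omega
    · show 3 * (g.2 / 3) + g.2 % 3 = g.2
      omega

private theorem XK_step {p : ℝ} (D : Dat p) (M : ℕ) (G : Finset Pt) (hG : ∀ g ∈ G, g ∈ Kept (M + 1)) :
    ∑ g ∈ G, D.mu (M + 1) g ≤ ∑ g' ∈ G.image (fun g => ((g.1 / 3, g.2 / 3) : Pt)), D.mu M g' := by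
  rw [← Finset.sum_fiberwise_of_maps_to (t := G.image (fun g => ((g.1 / 3, g.2 / 3) : Pt)))
    (g := fun g => ((g.1 / 3, g.2 / 3) : Pt)) (fun g hg => Finset.mem_image_of_mem _ hg)]
  refine Finset.sum_le_sum fun g' hg' => ?_
  obtain ⟨g₀, hg₀, rfl⟩ := Finset.mem_image.1 hg'
  have hk := (XK_kept_par (hG g₀ hg₀)).1
  rw [D.mu_add M _ hk]
  have hinj : Set.InjOn (kid (g₀.1 / 3, g₀.2 / 3)) (kids : Set Pt) := by
    intro a _ b _ hab
    have h1 : 3 * (g₀.1 / 3) + a.1 = 3 * (g₀.1 / 3) + b.1 := congrArg Prod.fst hab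
    have h2 : 3 * (g₀.2 / 3) + a.2 = 3 * (g₀.2 / 3) + b.2 := congrArg Prod.snd hab
    exact Prod.ext (by omega) (by omega)
  rw [← Finset.sum_image (f := fun g => D.mu (M + 1) g) hinj]
  refine Finset.sum_le_sum_of_subset_of_nonneg ?_ ?_
  · intro g hg
    obtain ⟨h1, h2⟩ := Finset.mem_filter.1 hg
    obtain ⟨-, e2, e3⟩ := XK_kept_par (hG g h1)
    refine Finset.mem_image.2 ⟨(g.1 % 3, g.2 % 3), e2, ?_⟩
    rw [← h2]
    exact e3
  · intro g hg _
    obtain ⟨c, hc, rfl⟩ := Finset.mem_image.1 hg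
    exact (D.mu_pos _ _ (XK_kept_kid hk hc)).le

private theorem XK_iter {p : ℝ} (D : Dat p) (n : ℕ) : ∀ (t : ℕ) (G : Finset Pt),
    (∀ g ∈ G, g ∈ Kept (n + t)) → (∀ g ∈ G, XK_par t g ∈ Kept n) ∧
      ∑ g ∈ G, D.mu (n + t) g ≤ ∑ g' ∈ G.image (XK_par t), D.mu n g' := by
  intro t
  induction t with
  | zero =>
    intro G hG
    have e : XK_par 0 = id := by
      funext g
      simp [XK_par]
    rw [e, Finset.image_id]
    exact ⟨hG, le_rfl⟩
  | succ t ih =>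
    intro G hG
    have hG' : ∀ g ∈ G, g ∈ Kept ((n + t) + 1) := hG
    have h1 := XK_step D (n + t) G hG'
    have e : ∀ g : Pt, XK_par t (g.1 / 3, g.2 / 3) = XK_par (t + 1) g := by
      intro g
      apply Prod.ext
      · show g.1 / 3 / 3 ^ t = g.1 / 3 ^ (t + 1)
        rw [pow_succ', ← Int.ediv_ediv_of_nonneg (by norm_num)]
      · show g.2 / 3 / 3 ^ t = g.2 / 3 ^ (t + 1)
        rw [pow_succ', ← Int.ediv_ediv_of_nonneg (by norm_num)]
    obtain ⟨i1, i2⟩ := ih (G.image (fun g => ((g.1 / 3, g.2 / 3) : Pt))) (by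
      intro g' hg'
      obtain ⟨g, hg, rfl⟩ := Finset.mem_image.1 hg'
      exact (XK_kept_par (hG' g hg)).1)
    refine ⟨fun g hg => ?_, ?_⟩
    · rw [← e g]
      exact i1 _ (Finset.mem_image_of_mem _ hg)
    · refine (h1.trans i2).trans (le_of_eq ?_)
      congr 1
      rw [Finset.image_image]
      exact Finset.image_congr (fun g _ => e g)

private theorem XK_vk {n : ℕ} {x : Pt} (hx : x ∈ VK (Kept n)) : mulP 3 x ∈ VK (Kept (n + 1)) := by
  obtain ⟨f, hf, h1, h2⟩ := hx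
  refine ⟨kid f (if x.1 = f.1 then 0 else 2, if x.2 = f.2 then 0 else 2), XK_kept_kid hf ?_, ?_, ?_⟩
  · rw [XK_mem_kids]
    refine ⟨?_, ⟨?_, ?_⟩, ?_, ?_⟩
    · intro h
      have h3 := congrArg Prod.fst h
      simp only at h3
      split_ifs at h3 <;> omega
    all_goals
      simp only
      split_ifs <;> norm_num
  · show 3 * x.1 = 3 * f.1 + (if x.1 = f.1 then 0 else 2) ∨
      3 * x.1 = 3 * f.1 + (if x.1 = f.1 then 0 else 2) + 1
    split_ifs with h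
    · left; omega
    · right; omega
  · show 3 * x.2 = 3 * f.2 + (if x.2 = f.2 then 0 else 2) ∨
      3 * x.2 = 3 * f.2 + (if x.2 = f.2 then 0 else 2) + 1
    split_ifs with h
    · left; omega
    · right; omega

private theorem XK_scale {p : ℝ} (D : Dat p) (n : ℕ) {x y : Pt} (hx : x ∈ VK (Kept n))
    (hy : y ∈ VK (Kept n)) : ∀ t : ℕ, mulP (3 ^ t) x ∈ VK (Kept (n + t)) ∧
      mulP (3 ^ t) y ∈ VK (Kept (n + t)) ∧
      D.d (n + t) (mulP (3 ^ t) x) (mulP (3 ^ t) y) = D.d n x y := by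
  have e : ∀ (t : ℕ) (z : Pt), mulP (3 ^ (t + 1)) z = mulP 3 (mulP (3 ^ t) z) := by
    intro t z
    apply Prod.ext
    · show 3 ^ (t + 1) * z.1 = 3 * (3 ^ t * z.1)
      ring
    · show 3 ^ (t + 1) * z.2 = 3 * (3 ^ t * z.2)
      ring
  intro t
  induction t with
  | zero =>
    have e0 : ∀ z : Pt, mulP (3 ^ 0) z = z := by
      intro z
      simp [mulP]
    rw [e0, e0]
    exact ⟨hx, hy, rfl⟩
  | succ t ih =>
    obtain ⟨i1, i2, i3⟩ := ih
    rw [e, e]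
    refine ⟨XK_vk i1, XK_vk i2, ?_⟩
    rw [← i3]
    exact D.d_scale (n + t) _ i1 _ i2

private theorem XK_pres_side {K : Set Pt} {e : Ed} (h : pres K e) : ∃ g ∈ K, e ∈ sides g ∧
    IsCor (tl e) g ∧ IsCor (hd e) g := by
  obtain ⟨b, x⟩ := e
  rcases h with h | h
  · refine ⟨_, h, ?_, ?_, ?_⟩
    · rcases b with - | -
      · simp [sides, lf]
      · simp [sides, lf]
    · rcases b with - | - <;> simp [IsCor, tl, lf]
    · rcases b with - | - <;> simp [IsCor, hd, lf]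
  · refine ⟨_, h, ?_, ?_, ?_⟩
    · rcases b with - | -
      · simp [sides, rf]
      · simp [sides, rf]
    · rcases b with - | - <;> simp [IsCor, tl, rf]
    · rcases b with - | - <;> simp [IsCor, hd, rf]

private theorem XK_side_cor {e : Ed} {g : Pt} (h : e ∈ sides g) : IsCor (tl e) g ∧ IsCor (hd e) g := by
  simp only [sides, Finset.mem_insert, Finset.mem_singleton] at h
  rcases h with rfl | rfl | rfl | rfl <;> simp [IsCor, tl, hd]

private theorem XK_main {p : ℝ} (hp : 1 ≤ p) (D : Dat p) (R : ℕ) {C₁ C₂ : ℝ} (hC₁ : 1 ≤ C₁)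
    (hC₂ : 1 ≤ C₂)
    (h1 : ∀ N : ℕ, ∀ g ∈ Kept N, ∀ x y : Pt, IsCor x g → IsCor y g → D.d N x y ^ p ≤ C₁ * D.mu N g)
    (h2 : ∀ n : ℕ, ∀ q ∈ Kept n, ∀ q' ∈ Kept n, dis q q' ≤ (R : ℤ) + 1 → D.mu n q' ≤ C₂ * D.mu n q)
    (n t : ℕ) (q : Pt) (hq : q ∈ Kept n) : ∃ χ : Pt → ℝ, (∀ x ∈ nbV R t q, χ x ≤ 0) ∧
    (∀ x, x ∉ opB ((q.1 - (R + 1)) * 3 ^ t) ((q.1 + (R + 2)) * 3 ^ t) ((q.2 - (R + 1)) * 3 ^ t)
      ((q.2 + (R + 2)) * 3 ^ t) → 1 ≤ χ x) ∧
    ∀ E : Finset Ed, (∀ e ∈ E, pres (Kept (n + t)) e ∧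
      (tl e ∈ opB ((q.1 - (R + 1)) * 3 ^ t) ((q.1 + (R + 2)) * 3 ^ t) ((q.2 - (R + 1)) * 3 ^ t)
        ((q.2 + (R + 2)) * 3 ^ t) ∨
      hd e ∈ opB ((q.1 - (R + 1)) * 3 ^ t) ((q.1 + (R + 2)) * 3 ^ t) ((q.2 - (R + 1)) * 3 ^ t)
        ((q.2 + (R + 2)) * 3 ^ t))) →
      ∑ e ∈ E, |du χ e| ^ p ≤ 4 * (2 * R + 3) ^ 2 * ((2 * D.η (R + 1)) ^ p * C₁ * D.A * C₂) := by
  have hp0 : 0 < p := by linarith
  have T0 : (0 : ℤ) < 3 ^ t := by positivity
  obtain ⟨T, hT⟩ : ∃ T : ℤ, T = 3 ^ t := ⟨_, rfl⟩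
  have R0 : (0 : ℤ) ≤ R := by positivity
  have cq : q ∈ VK (Kept n) := ⟨q, hq, Or.inl rfl, Or.inl rfl⟩
  have cq' : ((q.1 + 1, q.2) : Pt) ∈ VK (Kept n) := ⟨q, hq, Or.inr rfl, Or.inl rfl⟩
  have hne : q ≠ ((q.1 + 1, q.2) : Pt) := by
    intro h
    have := congrArg Prod.fst h
    simp at this
  have hρ : 0 < D.d n q (q.1 + 1, q.2) := D.d_pos n _ cq _ cq' hne
  obtain ⟨ρ, hρe⟩ : ∃ ρ, ρ = D.d n q (q.1 + 1, q.2) := ⟨_, rfl⟩
  rw [← hρe] at hρ
  obtain ⟨s1, s2, s3⟩ := XK_scale D n cq cq' t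
  obtain ⟨P, hP⟩ : ∃ P, P = mulP (3 ^ t) q := ⟨_, rfl⟩
  obtain ⟨P', hP'⟩ : ∃ P', P' = mulP (3 ^ t) ((q.1 + 1, q.2) : Pt) := ⟨_, rfl⟩
  rw [← hP] at s1 s3
  rw [← hP'] at s2 s3
  rw [← hρe] at s3
  have P1 : P.1 = T * q.1 := by rw [hP, hT]; rfl
  have P2 : P.2 = T * q.2 := by rw [hP, hT]; rfl
  have P'1 : P'.1 = T * (q.1 + 1) := by rw [hP', hT]; rfl
  have P'2 : P'.2 = T * q.2 := by rw [hP', hT]; rfl
  rw [← hT] at T0
  have RT : 0 ≤ (R : ℤ) * T := mul_nonneg R0 T0.le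
  obtain ⟨h, hh⟩ : ∃ h : ℝ, h = D.η (R + 1) := ⟨_, rfl⟩
  have hη : 1 ≤ h := by
    have := D.qs (n + t) P s1 P' s2 P' s2 1 (by norm_num) (by rw [one_mul])
    rw [s3] at this
    have h3 : 1 ≤ D.η 1 := by
      by_contra hcon
      push Not at hcon
      nlinarith
    rw [hh]
    refine h3.trans (D.η_mono _ _ (by norm_num) ?_)
    have : (0 : ℝ) ≤ R := by positivity
    linarith
  have hη0 : 0 < h := by linarith
  -- the distance to the cell
  obtain ⟨S, hS⟩ : ∃ S : Set Pt, S = {y | y ∈ VK (Kept (n + t)) ∧ y ∈ nbV R t q} := ⟨_, rfl⟩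
  have mcell : ∀ y : Pt, y ∈ nbV R t q ↔ (q.1 * T - R * T ≤ y.1 ∧ y.1 ≤ q.1 * T + R * T + T ∧
      q.2 * T - R * T ≤ y.2 ∧ y.2 ≤ q.2 * T + R * T + T) := by
    intro y
    rw [hT]
    have e : y ∈ nbV R t q ↔ ((q.1 - R) * 3 ^ t ≤ y.1 ∧ y.1 ≤ (q.1 + R + 1) * 3 ^ t ∧
      (q.2 - R) * 3 ^ t ≤ y.2 ∧ y.2 ≤ (q.2 + R + 1) * 3 ^ t) := Iff.rfl
    rw [e]
    have r1 : (q.1 - R) * 3 ^ t = q.1 * 3 ^ t - R * 3 ^ t := by ring
    have r2 : (q.1 + R + 1) * 3 ^ t = q.1 * 3 ^ t + R * 3 ^ t + 3 ^ t := by ring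
    have r3 : (q.2 - R) * 3 ^ t = q.2 * 3 ^ t - R * 3 ^ t := by ring
    have r4 : (q.2 + R + 1) * 3 ^ t = q.2 * 3 ^ t + R * 3 ^ t + 3 ^ t := by ring
    rw [r1, r2, r3, r4]
  have mop : ∀ y : Pt, y ∈ opB ((q.1 - (R + 1)) * 3 ^ t) ((q.1 + (R + 2)) * 3 ^ t)
      ((q.2 - (R + 1)) * 3 ^ t) ((q.2 + (R + 2)) * 3 ^ t) ↔
      (q.1 * T - R * T - T < y.1 ∧ y.1 < q.1 * T + R * T + 2 * T ∧
      q.2 * T - R * T - T < y.2 ∧ y.2 < q.2 * T + R * T + 2 * T) := by
    intro y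
    rw [hT]
    have e : y ∈ opB ((q.1 - (R + 1)) * 3 ^ t) ((q.1 + (R + 2)) * 3 ^ t)
      ((q.2 - (R + 1)) * 3 ^ t) ((q.2 + (R + 2)) * 3 ^ t) ↔
      ((q.1 - (R + 1)) * 3 ^ t < y.1 ∧ y.1 < (q.1 + (R + 2)) * 3 ^ t ∧
      (q.2 - (R + 1)) * 3 ^ t < y.2 ∧ y.2 < (q.2 + (R + 2)) * 3 ^ t) := Iff.rfl
    rw [e]
    have r1 : (q.1 - (R + 1)) * 3 ^ t = q.1 * 3 ^ t - R * 3 ^ t - 3 ^ t := by ring
    have r2 : (q.1 + (R + 2)) * 3 ^ t = q.1 * 3 ^ t + R * 3 ^ t + 2 * 3 ^ t := by ring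
    have r3 : (q.2 - (R + 1)) * 3 ^ t = q.2 * 3 ^ t - R * 3 ^ t - 3 ^ t := by ring
    have r4 : (q.2 + (R + 2)) * 3 ^ t = q.2 * 3 ^ t + R * 3 ^ t + 2 * 3 ^ t := by ring
    rw [r1, r2, r3, r4]
  have hPS : P ∈ S := by
    rw [hS]
    refine ⟨s1, (mcell P).2 ⟨?_, ?_, ?_, ?_⟩⟩
    · rw [P1]; linarith
    · rw [P1]; linarith
    · rw [P2]; linarith
    · rw [P2]; linarith
  have hP'S : P' ∈ S := by
    rw [hS]
    refine ⟨s2, (mcell P').2 ⟨?_, ?_, ?_, ?_⟩⟩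
    · rw [P'1]; linarith
    · rw [P'1]; linarith
    · rw [P'2]; linarith
    · rw [P'2]; linarith
  obtain ⟨δ, hδ⟩ : ∃ δ : Pt → ℝ, ∀ x, δ x = sInf ((fun y => D.d (n + t) x y) '' S) := ⟨_, fun _ => rfl⟩
  have hbb : ∀ x, BddBelow ((fun y => D.d (n + t) x y) '' S) := by
    intro x
    refine ⟨0, ?_⟩
    rintro _ ⟨y, _, rfl⟩
    exact D.d_nonneg _ _ _
  have hnem : ∀ x, ((fun y => D.d (n + t) x y) '' S).Nonempty := fun x => ⟨_, P, hPS, rfl⟩
  have δ_le : ∀ x, ∀ y ∈ S, δ x ≤ D.d (n + t) x y := by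
    intro x y hy
    rw [hδ]
    exact csInf_le (hbb x) ⟨y, hy, rfl⟩
  have le_δ : ∀ x a, (∀ y ∈ S, a ≤ D.d (n + t) x y) → a ≤ δ x := by
    intro x a h
    rw [hδ]
    refine le_csInf (hnem x) ?_
    rintro _ ⟨y, hy, rfl⟩
    exact h y hy
  have δ_lip : ∀ x ∈ VK (Kept (n + t)), ∀ x' ∈ VK (Kept (n + t)), δ x ≤ D.d (n + t) x x' + δ x' := by
    intro x hx x' hx'
    have : δ x - D.d (n + t) x x' ≤ δ x' := by
      refine le_δ _ _ fun y hy => ?_
      have h3 := δ_le x y hy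
      rw [hS] at hy
      have h4 := D.d_tri (n + t) x hx x' hx' y hy.1
      linarith
    linarith
  -- outside of the open box
  have far : ∀ x ∈ VK (Kept (n + t)), x ∉ opB ((q.1 - (R + 1)) * 3 ^ t) ((q.1 + (R + 2)) * 3 ^ t)
      ((q.2 - (R + 1)) * 3 ^ t) ((q.2 + (R + 2)) * 3 ^ t) → ρ / (2 * h) ≤ δ x := by
    intro x hx hxo
    refine le_δ _ _ fun y hy => ?_
    rw [hS] at hy
    obtain ⟨hy1, hy2⟩ := hy
    rw [mcell] at hy2
    rw [mop] at hxo
    have hdx : T ≤ dis y x := by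
      unfold dis
      by_contra hcon
      push Not at hcon
      obtain ⟨g1, g2⟩ := max_lt_iff.1 hcon
      rw [abs_lt] at g1 g2
      apply hxo
      refine ⟨?_, ?_, ?_, ?_⟩
      · linarith [hy2.1]
      · linarith [hy2.2.1]
      · linarith [hy2.2.2.1]
      · linarith [hy2.2.2.2]
    have hdP : dis y P ≤ (R + 1) * T := by
      unfold dis
      rw [P1, P2]
      refine max_le (abs_le.2 ⟨?_, ?_⟩) (abs_le.2 ⟨?_, ?_⟩)
      · linarith [hy2.1]
      · linarith [hy2.2.1]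
      · linarith [hy2.2.2.1]
      · linarith [hy2.2.2.2]
    have hdP' : dis y P' ≤ (R + 1) * T := by
      unfold dis
      rw [P'1, P'2]
      refine max_le (abs_le.2 ⟨?_, ?_⟩) (abs_le.2 ⟨?_, ?_⟩)
      · linarith [hy2.1]
      · linarith [hy2.2.1]
      · linarith [hy2.2.2.1]
      · linarith [hy2.2.2.2]
    have hRT : ((R : ℤ) + 1) * T ≤ (R + 1) * dis y x := mul_le_mul_of_nonneg_left hdx (by linarith)
    have e1 := D.qs (n + t) y hy1 P s1 x hx (R + 1) (by positivity) (by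
      exact_mod_cast hdP.trans hRT)
    have e2 := D.qs (n + t) y hy1 P' s2 x hx (R + 1) (by positivity) (by
      exact_mod_cast hdP'.trans hRT)
    have e3 := D.d_tri (n + t) P s1 y hy1 P' s2
    rw [s3, D.d_symm (n + t) P y] at e3
    rw [← hh] at e1 e2
    rw [div_le_iff₀ (by positivity), D.d_symm (n + t) x y]
    linarith
  refine ⟨fun x => if x ∈ VK (Kept (n + t)) then min 1 (2 * h / ρ * δ x) else
    if x ∈ opB ((q.1 - (R + 1)) * 3 ^ t) ((q.1 + (R + 2)) * 3 ^ t) ((q.2 - (R + 1)) * 3 ^ t)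
      ((q.2 + (R + 2)) * 3 ^ t) then 0 else 1, ?_, ?_, ?_⟩
  · intro x hx
    show (if x ∈ VK (Kept (n + t)) then min 1 (2 * h / ρ * δ x) else _) ≤ 0
    by_cases hxV : x ∈ VK (Kept (n + t))
    · rw [if_pos hxV]
      have hxS : x ∈ S := by
        rw [hS]
        exact ⟨hxV, hx⟩
      have h3 := δ_le x x hxS
      rw [D.d_self] at h3
      have h4 : 0 ≤ 2 * h / ρ := by positivity
      exact (min_le_right _ _).trans (mul_nonpos_of_nonneg_of_nonpos h4 h3)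
    · rw [if_neg hxV, if_pos]
      rw [mop]
      rw [mcell] at hx
      refine ⟨?_, ?_, ?_, ?_⟩
      · linarith [hx.1]
      · linarith [hx.2.1]
      · linarith [hx.2.2.1]
      · linarith [hx.2.2.2]
  · intro x hx
    show 1 ≤ (if x ∈ VK (Kept (n + t)) then min 1 (2 * h / ρ * δ x) else _)
    by_cases hxV : x ∈ VK (Kept (n + t))
    · rw [if_pos hxV]
      refine le_min le_rfl ?_
      have h3 := far x hxV hx
      rw [div_le_iff₀ (by positivity)] at h3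
      rw [div_mul_eq_mul_div, le_div_iff₀ hρ]
      linarith
    · rw [if_neg hxV, if_neg hx]
  · intro E hE
    obtain ⟨χ, hχ⟩ : ∃ χ : Pt → ℝ, χ = fun x => if x ∈ VK (Kept (n + t)) then
        min 1 (2 * h / ρ * δ x) else
        if x ∈ opB ((q.1 - (R + 1)) * 3 ^ t) ((q.1 + (R + 2)) * 3 ^ t) ((q.2 - (R + 1)) * 3 ^ t)
          ((q.2 + (R + 2)) * 3 ^ t) then 0 else 1 := ⟨_, rfl⟩
    rw [← hχ]
    obtain ⟨B, hB⟩ : ∃ B : ℝ, B = (2 * h) ^ p * C₁ * D.A := ⟨_, rfl⟩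
    have hA := D.hA
    have hpow : 0 < (2 * h) ^ p := Real.rpow_pos_of_pos (by linarith) _
    have hB0 : 0 < B := by
      rw [hB]
      positivity
    have hmq := D.mu_pos n q hq
    -- one edge
    have edge : ∀ g ∈ Kept (n + t), ∀ e ∈ sides g, |du χ e| ^ p ≤ B * D.mu (n + t) g / D.mu n q := by
      intro g hg e he
      obtain ⟨c1, c2⟩ := XK_side_cor he
      have v1 : tl e ∈ VK (Kept (n + t)) := ⟨g, hg, c1⟩
      have v2 : hd e ∈ VK (Kept (n + t)) := ⟨g, hg, c2⟩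
      have hd1 : |du χ e| ≤ 2 * h / ρ * D.d (n + t) (tl e) (hd e) := by
        have f1 : χ (hd e) = min 1 (2 * h / ρ * δ (hd e)) := by
          rw [hχ]
          show (if hd e ∈ VK (Kept (n + t)) then min 1 (2 * h / ρ * δ (hd e)) else _) = _
          rw [if_pos v2]
        have f2 : χ (tl e) = min 1 (2 * h / ρ * δ (tl e)) := by
          rw [hχ]
          show (if tl e ∈ VK (Kept (n + t)) then min 1 (2 * h / ρ * δ (tl e)) else _) = _
          rw [if_pos v1]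
        unfold du
        rw [f1, f2]
        refine (abs_min_sub_min_le_max _ _ _ _).trans ?_
        have h0 : 0 ≤ D.d (n + t) (tl e) (hd e) := D.d_nonneg _ _ _
        refine max_le ?_ ?_
        · rw [sub_self, abs_zero]
          positivity
        · rw [← mul_sub, abs_mul, abs_of_pos (by positivity : 0 < 2 * h / ρ)]
          refine mul_le_mul_of_nonneg_left ?_ (by positivity)
          have g1 := δ_lip _ v1 _ v2
          have g2 := δ_lip _ v2 _ v1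
          rw [D.d_symm (n + t) (hd e) (tl e)] at g2
          exact abs_le.2 ⟨by linarith, by linarith⟩
      have hd0 : 0 ≤ D.d (n + t) (tl e) (hd e) := D.d_nonneg _ _ _
      have hd2 := h1 (n + t) g hg _ _ c1 c2
      have hahl := (D.ahl n q hq).1
      rw [← hρe] at hahl
      have hρp : 0 < ρ ^ p := Real.rpow_pos_of_pos hρ _
      calc |du χ e| ^ p ≤ (2 * h / ρ * D.d (n + t) (tl e) (hd e)) ^ p :=
            Real.rpow_le_rpow (abs_nonneg _) hd1 hp0.le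
        _ = (2 * h) ^ p / ρ ^ p * D.d (n + t) (tl e) (hd e) ^ p := by
            rw [Real.mul_rpow (by positivity) hd0, Real.div_rpow (by positivity) hρ.le]
        _ ≤ (2 * h) ^ p / ρ ^ p * (C₁ * D.mu (n + t) g) := by gcongr
        _ ≤ (2 * h) ^ p * (D.A / D.mu n q) * (C₁ * D.mu (n + t) g) := by
            have hmg := D.mu_pos (n + t) g hg
            have : (2 * h) ^ p / ρ ^ p ≤ (2 * h) ^ p * (D.A / D.mu n q) := by
              rw [div_eq_mul_inv]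
              refine mul_le_mul_of_nonneg_left ?_ hpow.le
              rw [← one_div, div_le_div_iff₀ hρp hmq]
              linarith
            exact mul_le_mul_of_nonneg_right this (by positivity)
        _ = B * D.mu (n + t) g / D.mu n q := by
            rw [hB]
            ring
    obtain ⟨G, hG⟩ : ∃ G : Finset Pt, G = (nb (R + 1) t q).filter (· ∈ Kept (n + t)) := ⟨_, rfl⟩
    have mnb : ∀ g : Pt, g ∈ nb (R + 1) t q ↔
        (q.1 * T - R * T - T ≤ g.1 ∧ g.1 < q.1 * T + R * T + 2 * T) ∧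
        q.2 * T - R * T - T ≤ g.2 ∧ g.2 < q.2 * T + R * T + 2 * T := by
      intro g
      simp only [nb, box, Finset.mem_product, Finset.mem_Ico]
      rw [← hT]
      push_cast
      have r1 : (q.1 - (R + 1)) * T = q.1 * T - R * T - T := by ring
      have r2 : (q.1 + (R + 1) + 1) * T = q.1 * T + R * T + 2 * T := by ring
      have r3 : (q.2 - (R + 1)) * T = q.2 * T - R * T - T := by ring
      have r4 : (q.2 + (R + 1) + 1) * T = q.2 * T + R * T + 2 * T := by ring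
      rw [r1, r2, r3, r4]
    have hEG : ∀ e ∈ E, ∃ g ∈ G, e ∈ sides g := by
      intro e he
      obtain ⟨hpr, hop⟩ := hE e he
      obtain ⟨g, hg, hgs, c1, c2⟩ := XK_pres_side hpr
      refine ⟨g, ?_, hgs⟩
      rw [hG, Finset.mem_filter]
      refine ⟨?_, hg⟩
      have key : ∀ x : Pt, IsCor x g → x ∈ opB ((q.1 - (R + 1)) * 3 ^ t) ((q.1 + (R + 2)) * 3 ^ t)
          ((q.2 - (R + 1)) * 3 ^ t) ((q.2 + (R + 2)) * 3 ^ t) → g ∈ nb (R + 1) t q := by
        intro x hx hxo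
        rw [mop] at hxo
        rw [mnb]
        obtain ⟨x1, x2, x3, x4⟩ := hxo
        obtain ⟨k1, k2⟩ := hx
        refine ⟨⟨?_, ?_⟩, ?_, ?_⟩
        · rcases k1 with k | k <;> omega
        · rcases k1 with k | k <;> omega
        · rcases k2 with k | k <;> omega
        · rcases k2 with k | k <;> omega
      rcases hop with h | h
      · exact key _ c1 h
      · exact key _ c2 h
    have hGK : ∀ g ∈ G, g ∈ Kept (n + t) := by
      intro g hg
      rw [hG] at hg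
      exact (Finset.mem_filter.1 hg).2
    have hsum1 : ∑ e ∈ E, |du χ e| ^ p ≤ ∑ g ∈ G, ∑ e ∈ sides g, |du χ e| ^ p := by
      have : ∀ e ∈ E, |du χ e| ^ p ≤ ∑ g ∈ G, (if e ∈ sides g then |du χ e| ^ p else 0) := by
        intro e he
        obtain ⟨g, hg, hgs⟩ := hEG e he
        refine le_trans (le_of_eq ?_) (Finset.single_le_sum (f := fun g => if e ∈ sides g then
          |du χ e| ^ p else 0) (fun g _ => ?_) hg)
        · show _ = if e ∈ sides g then |du χ e| ^ p else 0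
          rw [if_pos hgs]
        · show 0 ≤ if e ∈ sides g then |du χ e| ^ p else 0
          split_ifs
          · positivity
          · exact le_rfl
      refine (Finset.sum_le_sum this).trans ?_
      rw [Finset.sum_comm]
      refine Finset.sum_le_sum fun g _ => ?_
      rw [← Finset.sum_filter]
      refine Finset.sum_le_sum_of_subset_of_nonneg ?_ (fun e _ _ => by positivity)
      intro e he
      exact (Finset.mem_filter.1 he).2
    have hsum2 : ∑ g ∈ G, ∑ e ∈ sides g, |du χ e| ^ p ≤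
        4 * B / D.mu n q * ∑ g ∈ G, D.mu (n + t) g := by
      rw [Finset.mul_sum]
      refine Finset.sum_le_sum fun g hg => ?_
      have hmg := D.mu_pos (n + t) g (hGK g hg)
      have hc : (sides g).card ≤ 4 := Finset.card_le_four
      calc ∑ e ∈ sides g, |du χ e| ^ p ≤ ∑ e ∈ sides g, B * D.mu (n + t) g / D.mu n q :=
            Finset.sum_le_sum fun e he => edge g (hGK g hg) e he
        _ = (sides g).card * (B * D.mu (n + t) g / D.mu n q) := by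
            rw [Finset.sum_const, nsmul_eq_mul]
        _ ≤ 4 * (B * D.mu (n + t) g / D.mu n q) := by
            refine mul_le_mul_of_nonneg_right ?_ (by positivity)
            exact_mod_cast hc
        _ = 4 * B / D.mu n q * D.mu (n + t) g := by ring
    obtain ⟨it1, it2⟩ := XK_iter D n t G hGK
    have himg : G.image (XK_par t) ⊆ box (q.1 - (R + 1)) (q.1 + (R + 2)) (q.2 - (R + 1))
        (q.2 + (R + 2)) := by
      intro g' hg'
      obtain ⟨g, hg, rfl⟩ := Finset.mem_image.1 hg'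
      rw [hG] at hg
      have hg1 := (mnb g).1 (Finset.mem_filter.1 hg).1
      obtain ⟨⟨a1, a2⟩, a3, a4⟩ := hg1
      simp only [XK_par, box, Finset.mem_product, Finset.mem_Ico]
      rw [← hT]
      refine ⟨⟨?_, ?_⟩, ?_, ?_⟩
      · exact Int.le_ediv_of_mul_le T0 (by linarith)
      · exact Int.ediv_lt_of_lt_mul T0 (by linarith)
      · exact Int.le_ediv_of_mul_le T0 (by linarith)
      · exact Int.ediv_lt_of_lt_mul T0 (by linarith)
    have hcard : (G.image (XK_par t)).card ≤ (2 * R + 3) ^ 2 := by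
      refine (Finset.card_le_card himg).trans (le_of_eq ?_)
      simp only [box, Finset.card_product, Int.card_Ico]
      have r1 : q.1 + ((R : ℤ) + 2) - (q.1 - (R + 1)) = ((2 * R + 3 : ℕ) : ℤ) := by push_cast; ring
      have r2 : q.2 + ((R : ℤ) + 2) - (q.2 - (R + 1)) = ((2 * R + 3 : ℕ) : ℤ) := by push_cast; ring
      rw [r1, r2, Int.toNat_natCast]
      ring
    have hsum3 : ∑ g' ∈ G.image (XK_par t), D.mu n g' ≤ (2 * R + 3) ^ 2 * (C₂ * D.mu n q) := by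
      have : ∀ g' ∈ G.image (XK_par t), D.mu n g' ≤ C₂ * D.mu n q := by
        intro g' hg'
        have hb := himg hg'
        obtain ⟨g, hg, rfl⟩ := Finset.mem_image.1 hg'
        refine h2 n q hq _ (it1 g hg) ?_
        simp only [box, Finset.mem_product, Finset.mem_Ico] at hb
        obtain ⟨⟨a1, a2⟩, a3, a4⟩ := hb
        unfold dis
        refine max_le (abs_le.2 ⟨?_, ?_⟩) (abs_le.2 ⟨?_, ?_⟩) <;> omega
      calc ∑ g' ∈ G.image (XK_par t), D.mu n g' ≤ ∑ g' ∈ G.image (XK_par t), C₂ * D.mu n q :=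
            Finset.sum_le_sum this
        _ = (G.image (XK_par t)).card * (C₂ * D.mu n q) := by rw [Finset.sum_const, nsmul_eq_mul]
        _ ≤ (2 * R + 3) ^ 2 * (C₂ * D.mu n q) := by
            refine mul_le_mul_of_nonneg_right ?_ (by positivity)
            exact_mod_cast hcard
    calc ∑ e ∈ E, |du χ e| ^ p ≤ 4 * B / D.mu n q * ∑ g ∈ G, D.mu (n + t) g := hsum1.trans hsum2
      _ ≤ 4 * B / D.mu n q * ((2 * R + 3) ^ 2 * (C₂ * D.mu n q)) := by
          refine mul_le_mul_of_nonneg_left (it2.trans hsum3) (by positivity)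
      _ = 4 * (2 * R + 3) ^ 2 * (B * C₂) := by
          field_simp
      _ = 4 * (2 * R + 3) ^ 2 * ((2 * D.η (R + 1)) ^ p * C₁ * D.A * C₂) := by rw [hB, hh]

theorem p_XK (hXJ : S_XJ) : S_XK := by
  intro p D hp R
  obtain ⟨C, hC, h1, h2⟩ := hXJ p D hp (R + 1)
  refine ⟨max 1 (4 * (2 * R + 3) ^ 2 * ((2 * D.η (R + 1)) ^ p * C * D.A * C)), le_max_left _ _, ?_⟩
  intro N t htN q hq
  obtain ⟨n, rfl⟩ := Nat.exists_eq_add_of_le' htN
  rw [Nat.add_sub_cancel] at hq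
  obtain ⟨χ, a1, a2, a3⟩ := XK_main hp D R hC hC h1 (by exact_mod_cast h2) n t q hq
  exact ⟨χ, a1, a2, fun E hE => (a3 E hE).trans (le_max_right _ _)⟩

end CarpetPI
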